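import Pool.Agent.MP_f8e15f_co.H33.Spec

/-!
From set designs to incidence structures, and the designs whose blocks partition the points.
-/

open MulAction Pointwise

namespace Pool.Agent.MP_f8e15f_co.RABS

open Pool.Agent.MP_f8e15f_co.H33 Pool.Agent.MP_f8e15f_co.H24

variable {V : Type} {D : Set (Set V)} {G : Subgroup (Equiv.Perm V)}

/-- The action on the blocks. -/
abbrev act (h : PairwiseTransitive G D) : MulAction G D where
  smul g b := ⟨g.1 '' b.1, by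
    have := Set.mem_image_of_mem (fun B : Set V => g.1 '' B) b.2
    rwa [h.1 g.1 g.2] at this⟩
  one_smul b := Subtype.ext (Set.image_id _)
  mul_smul g g' b := Subtype.ext (Set.image_image g.1 g'.1 b.1).symm

theorem col_iff {p q : V} : Col (fun (p : V) (b : D) => p ∈ b.1) p q ↔ Coll D p q :=
  ⟨fun ⟨b, h⟩ => ⟨b.1, b.2, h⟩, fun ⟨b, hb, h⟩ => ⟨⟨b, hb⟩, h⟩⟩

theorem pt (h : PairwiseTransitive G D) :
    letI := act h
    PT G fun (p : V) (b : D) => p ∈ b.1 := by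
  let _ := act h
  obtain ⟨-, h2, h3, h4, h5, h6, h7⟩ := id h
  refine ⟨fun g p b => g.1.injective.mem_set_image, fun p q p' q' a b c d => ?_,
    fun p q p' q' a b c d => ?_, fun p b p' b' a c => ?_, fun p b p' b' a c => ?_,
    fun b c b' c' a a' d d' => ?_, fun b c b' c' a a' d d' => ?_⟩
  · obtain ⟨g, hg, e⟩ := h2 p q p' q' a b (col_iff.1 c) (col_iff.1 d)
    exact ⟨⟨g, hg⟩, e⟩
  · obtain ⟨g, hg, e⟩ := h3 p q p' q' a b (col_iff.not.1 c) (col_iff.not.1 d)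
    exact ⟨⟨g, hg⟩, e⟩
  · obtain ⟨g, hg, e, e'⟩ := h4 p p' _ b.2 _ b'.2 a c
    exact ⟨⟨g, hg⟩, e, Subtype.ext e'⟩
  · obtain ⟨g, hg, e, e'⟩ := h5 p p' _ b.2 _ b'.2 a c
    exact ⟨⟨g, hg⟩, e, Subtype.ext e'⟩
  · obtain ⟨g, hg, e, e'⟩ := h6 _ b.2 _ c.2 _ b'.2 _ c'.2 (Subtype.coe_ne_coe.2 a)
      (Subtype.coe_ne_coe.2 a') d d'
    exact ⟨⟨g, hg⟩, Subtype.ext e, Subtype.ext e'⟩
  · obtain ⟨g, hg, e, e'⟩ := h7 _ b.2 _ c.2 _ b'.2 _ c'.2 (Subtype.coe_ne_coe.2 a)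
      (Subtype.coe_ne_coe.2 a') (Set.disjoint_left.2 fun x u v => d ⟨x, u, v⟩)
      (Set.disjoint_left.2 fun x u v => d' ⟨x, u, v⟩)
    exact ⟨⟨g, hg⟩, Subtype.ext e, Subtype.ext e'⟩

theorem sep {G P B : Type} [Group G] [MulAction G P] [MulAction G B] {I : P → B → Prop}
    (h : PT G I) (eB : ∀ b c, (∀ p, I p b ↔ I p c) → b = c)
    (tP : ∀ p, ∃ b c, b ≠ c ∧ I p b ∧ I p c) (p q : P) (e : ∀ b, I p b ↔ I q b) : p = q := by
  by_contra hne
  have key : ∀ b c s, I p b → I p c → I s b → I s c := by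
    intro b c s hb hc hs
    by_cases hp : p = s
    · exact hp ▸ hc
    obtain ⟨g, g1, g2⟩ := h.col p q p s hne hp ⟨b, hb, (e b).1 hb⟩ ⟨b, hb, hs⟩
    have h1 := h.inv g p (g⁻¹ • c)
    have h2 := h.inv g q (g⁻¹ • c)
    rw [smul_inv_smul] at h1 h2
    rw [g1] at h1
    rw [g2] at h2
    exact h2.2 ((e _).1 (h1.1 hc))
  obtain ⟨b, c, h1, h2, h3⟩ := tP p
  exact h1 (eB b c fun s => ⟨key b c s h2 h3, key c b s h3 h2⟩)

theorem abs : ABS := by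
  intro V _ _ D k r G hk hr hD h
  let _ := act h
  have hp := pt h
  have tP : ∀ p : V, ∃ b c : D, b ≠ c ∧ p ∈ b.1 ∧ p ∈ c.1 := fun p => by
    obtain ⟨b, hb, c, hc, e⟩ := (Set.one_lt_ncard (s := {B | B ∈ D ∧ p ∈ B})).1
      (by rw [hD.2 p]; omega)
    exact ⟨⟨b, hb.1⟩, ⟨c, hc.1⟩, fun a => e (congrArg Subtype.val a), hb.2, hc.2⟩
  have eB : ∀ b c : D, (∀ p, p ∈ b.1 ↔ p ∈ c.1) → b = c := fun b c e => Subtype.ext (Set.ext e)
  have eP := sep hp eB tP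
  have fP : ∀ g : G, (∀ p : V, g • p = p) → g = 1 := fun g e => Subtype.ext (Equiv.ext e)
  obtain ⟨p⟩ : Nonempty V := inferInstance
  obtain ⟨b, c, h1, h2, h3⟩ := tP p
  have k2 : 1 < k := by
    by_contra c1
    have e1 : k = 1 := by omega
    obtain ⟨x, hx⟩ := Set.ncard_eq_one.1 ((hD.1 _ b.2).trans e1)
    obtain ⟨y, hy⟩ := Set.ncard_eq_one.1 ((hD.1 _ c.2).trans e1)
    rw [hx] at h2
    rw [hy] at h3
    exact h1 (Subtype.ext (by rw [hx, hy, ← h2, ← h3]))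
  refine ⟨act h, hp, fP, fun g e => fP g fun x => eP _ _ fun b => ?_, eP, eB, tP, fun b => ?_,
    ⟨p⟩, ⟨b⟩⟩
  · have := hp.inv g x b
    rwa [e b] at this
  · obtain ⟨x, hx, y, hy, e⟩ := (Set.one_lt_ncard (s := b.1)).1 (by rw [hD.1 _ b.2]; exact k2)
    exact ⟨x, y, e, hx, hy⟩

theorem pp (two : TWO) (G Ω : Type) [Group G] [Finite G] [Group.IsSolvable G] [MulAction G Ω]
    [Finite Ω] [Nonempty Ω] (h : Two G Ω) : Nat.card Ω = 1 ∨ IsPrimePow (Nat.card Ω) := by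
  rcases subsingleton_or_nontrivial Ω with _ | _
  · exact Or.inl (Nat.card_eq_one_iff_unique.2 ⟨inferInstance, inferInstance⟩)
  · exact Or.inr (two G Ω h).pp

theorem part (two : TWO) : PART := by
  intro V _ _ D k G hk hD hs h
  let _ := act h
  have hp := pt h
  have ex : ∀ x : V, ∃ b : D, ∀ c : D, x ∈ c.1 ↔ b = c := fun x => by
    obtain ⟨b, hb⟩ := Set.ncard_eq_one.1 (hD.2 x)
    have h1 : b ∈ {B | B ∈ D ∧ x ∈ B} := by rw [hb]; rfl
    refine ⟨⟨b, h1.1⟩, fun c => ⟨fun a => Subtype.ext ?_, fun a => a ▸ h1.2⟩⟩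
    have h2 : c.1 ∈ {B | B ∈ D ∧ x ∈ B} := ⟨c.2, a⟩
    rw [hb] at h2
    exact h2.symm
  choose f hf using ex
  obtain ⟨p⟩ : Nonempty V := inferInstance
  have : Nonempty D := ⟨f p⟩
  have nc : ∀ b c : D, b ≠ c → ¬Col (flip fun (p : V) (b : D) => p ∈ b.1) b c :=
    fun b c e ⟨x, u, v⟩ => e (((hf x b).1 u).symm.trans ((hf x c).1 v))
  have hA := pp two G D fun a b a' b' e e' => hp.dis a b a' b' e e' (nc _ _ e) (nc _ _ e')
  let _ : MulAction (stabilizer G (f p)) (f p).1 :=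
    { smul := fun g x => ⟨g.1 • x.1, by
        have := (hp.inv g.1 x.1 (f p)).2 x.2
        rwa [mem_stabilizer_iff.1 g.2] at this⟩
      one_smul := fun x => rfl
      mul_smul := fun g g' x => rfl }
  have : Nonempty (f p).1 := ⟨⟨p, (hf p _).2 rfl⟩⟩
  have hB := pp two (stabilizer G (f p)) (f p).1 fun a b a' b' e e' => by
    obtain ⟨g, g1, g2⟩ := hp.col a.1 b.1 a'.1 b'.1 (Subtype.coe_ne_coe.2 e)
      (Subtype.coe_ne_coe.2 e') ⟨f p, a.2, b.2⟩ ⟨f p, a'.2, b'.2⟩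
    have h1 := (hp.inv g a.1 (f p)).2 a.2
    rw [g1] at h1
    exact ⟨⟨g, ((hf _ _).1 h1).symm.trans ((hf _ _).1 a'.2)⟩, Subtype.ext g1, Subtype.ext g2⟩
  rw [Nat.card_coe_set_eq, hD.1 _ (f p).2, ← Nat.card_fin k] at hB
  have fib : ∀ b : D, Nonempty ({x // f x = b} ≃ Fin k) := fun b =>
    ⟨(Equiv.subtypeEquivRight fun x => (hf x b).symm).trans
      (Finite.equivFinOfCardEq ((Nat.card_coe_set_eq b.1).trans (hD.1 _ b.2)))⟩
  let e : V ≃ D × Fin k := (Equiv.sigmaFiberEquiv f).symm.trans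
    ((Equiv.sigmaCongrRight fun b => (fib b).some).trans (Equiv.sigmaEquivProd _ _))
  have he : ∀ x, (e x).1 = f x := fun x => rfl
  have im : ∀ b : D, e '' b.1 = {z | z.1 = b} := fun b => by
    ext z
    obtain ⟨x, rfl⟩ := e.surjective z
    rw [e.injective.mem_set_image, hf, ← he]
    rfl
  refine ⟨D × Fin k, _, Listed.part D (Fin k) hA hB, e, ?_⟩
  ext S
  constructor
  · rintro ⟨b, hb, rfl⟩
    exact ⟨⟨b, hb⟩, im ⟨b, hb⟩⟩
  · rintro ⟨b, rfl⟩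
    exact ⟨b.1, b.2, im b⟩

theorem row : H33.OfABS := fun two => ⟨abs, part two⟩

end Pool.Agent.MP_f8e15f_co.RABS
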