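import Pool.Agent.MP_f8e15f_co.H33.Spec

/-! Elementary abelian sections of soluble groups and affine permutation groups. -/

open MulAction Pointwise

namespace Pool.Agent.MP_f8e15f_co.RAFF

open Pool.Agent.MP_f8e15f_co.H33

theorem sol0 (Q : Type) [Group Q] [Finite Q] [Group.IsSolvable Q] (C : Subgroup Q)
    (hC : C.Normal) (h : C ≠ ⊥) : ∃ (t : ℕ) (E : Subgroup Q), t.Prime ∧ E.Normal ∧ E ≠ ⊥ ∧
      E ≤ C ∧ (∀ x ∈ E, ∀ y ∈ E, x * y = y * x) ∧ ∀ x ∈ E, x ^ t = 1 := by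
  obtain ⟨E, ⟨h1, h2, h3⟩, hm⟩ := (wellFounded_lt (α := Subgroup Q)).has_min
    {E | E.Normal ∧ E ≠ ⊥ ∧ E ≤ C} ⟨C, hC, h, le_rfl⟩
  have hlt := Group.IsSolvable.commutator_lt_of_ne_bot h2
  have hb : ⁅E, E⁆ = ⊥ := by
    by_contra h0
    exact hm _ ⟨Subgroup.commutator_normal E E, h0, hlt.le.trans h3⟩ hlt
  have hab : ∀ x ∈ E, ∀ y ∈ E, x * y = y * x := fun x hx y hy => by
    have := Subgroup.commutator_mem_commutator hx hy
    rw [hb, Subgroup.mem_bot] at this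
    exact commutatorElement_eq_one_iff_mul_comm.1 this
  obtain ⟨t, ht, hd⟩ := Nat.exists_prime_and_dvd (n := Nat.card E)
    fun h0 => h2 (Subgroup.card_eq_one.1 h0)
  have := Fact.mk ht
  obtain ⟨x, hx⟩ := exists_prime_orderOf_dvd_card' t hd
  let T : Subgroup Q :=
    { carrier := {x | x ∈ E ∧ x ^ t = 1}
      one_mem' := ⟨E.one_mem, one_pow t⟩
      mul_mem' := fun {a b} ha hb => ⟨E.mul_mem ha.1 hb.1, by
        rw [Commute.mul_pow (hab a ha.1 b hb.1), ha.2, hb.2, one_mul]⟩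
      inv_mem' := fun {a} ha => ⟨E.inv_mem ha.1, by rw [inv_pow, ha.2, inv_one]⟩ }
  refine ⟨t, T, ht, ⟨fun a ha g => ⟨h1.conj_mem a ha.1 g, by rw [conj_pow, ha.2]; simp⟩⟩,
    fun h0 => ?_, fun a ha => h3 ha.1, fun a ha b hb => hab a ha.1 b hb.1, fun a ha => ha.2⟩
  have h4 : (x : Q) ∈ T := ⟨x.2, by rw [← Subgroup.coe_pow, ← hx, pow_orderOf_eq_one]; rfl⟩
  rw [h0, Subgroup.mem_bot, OneMemClass.coe_eq_one] at h4
  rw [h4, orderOf_one] at hx
  exact ht.one_lt.ne hx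

theorem sol : SOL := by
  intro G _ _ _ A C hA hC hlt
  have hne : C.map (QuotientGroup.mk' A) ≠ ⊥ := by
    rw [Ne, Subgroup.map_eq_bot_iff, QuotientGroup.ker_mk']
    exact hlt.not_ge
  obtain ⟨t, E, ht, h1, h2, h3, h4, h5⟩ := sol0 (G ⧸ A) _
    (hC.map _ (QuotientGroup.mk'_surjective A)) hne
  have hk : A ≤ E.comap (QuotientGroup.mk' A) := by
    conv_lhs => rw [← QuotientGroup.ker_mk' A]
    exact Subgroup.ker_le_comap _ _
  refine ⟨t, E.comap (QuotientGroup.mk' A), ht, h1.comap _, hk.lt_of_ne fun h0 => h2 ?_, ?_,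
    fun x hx y hy => ?_, fun x hx => ?_⟩
  · rw [← Subgroup.map_comap_eq_self_of_surjective (QuotientGroup.mk'_surjective A) E, ← h0,
      Subgroup.map_eq_bot_iff, QuotientGroup.ker_mk']
  · refine (Subgroup.comap_mono h3).trans ?_
    rw [Subgroup.comap_map_eq, QuotientGroup.ker_mk']
    exact sup_le le_rfl hlt.le
  · rw [← QuotientGroup.eq_one_iff, ← QuotientGroup.mk'_apply, map_mul, map_mul, map_mul,
      h4 _ hx _ hy]
    simp
  · rw [← QuotientGroup.eq_one_iff, ← QuotientGroup.mk'_apply, map_pow]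
    exact h5 _ hx

theorem crdn : CRDN := by
  intro G Ω _ _ N ω hN htr hc
  choose n hn hn' using htr ω
  have K : ∀ m ∈ N, ∀ x, n (m • ω) • x = m • x := fun m hm x => by
    rw [← hn' x, hc _ (hn _) _ (hn _), hn', hc _ hm _ (hn _)]
  letI : Add Ω := ⟨fun x y => n y • x⟩
  letI : Zero Ω := ⟨ω⟩
  letI : Neg Ω := ⟨fun x => (n x)⁻¹ • ω⟩
  letI : AddGroup Ω := AddGroup.ofLeftAxioms (fun x y z => by
      change n z • n y • x = n (n z • y) • x
      conv_rhs => rw [← hn' y, ← mul_smul, K _ (N.mul_mem (hn _) (hn _)), mul_smul])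
    hn' fun x => smul_inv_smul (n x) ω
  letI : AddCommGroup Ω := AddCommGroup.mk fun x y => by
    change n y • x = n x • y
    conv_lhs => rw [← hn' x, hc _ (hn _) _ (hn _), hn']
  letI : DistribMulAction (stabilizer G ω) Ω :=
    { smul_zero := fun g => g.2
      smul_add := fun g x y => by
        change g.1 • n y • x = n (g.1 • y) • g.1 • x
        have h1 : g.1 • y = (g.1 * n y * g.1⁻¹) • ω := by
          rw [mul_smul, mul_smul, show g.1⁻¹ • ω = ω from (g⁻¹).2, hn']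
        rw [h1, K _ (hN.conj_mem _ (hn y) _), mul_smul, mul_smul, inv_smul_smul] }
  exact ⟨Ω, inferInstance, inferInstance, Equiv.refl Ω, rfl, fun _ _ => rfl,
    fun v => ⟨n v, hn v, fun _ => rfl⟩, fun m hm => ⟨m • ω, fun w => (K m hm w).symm⟩⟩

theorem aff : AFF := by
  intro G Ω _ _ _ _ _ _ hp hf
  obtain ⟨x, y, hxy⟩ := exists_pair_ne Ω
  have hG : (⊤ : Subgroup G) ≠ ⊥ := fun h => by
    obtain ⟨g, hg⟩ := exists_smul_eq G x y
    have : g ∈ (⊤ : Subgroup G) := trivial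
    rw [h, Subgroup.mem_bot] at this
    rw [this, one_smul] at hg
    exact hxy hg
  obtain ⟨t, N, ht, h1, h2, -, h4, h5⟩ := sol0 G ⊤ inferInstance hG
  have htr : IsPretransitive N Ω := by
    refine IsQuasiPreprimitive.isPretransitive_of_normal fun h0 => h2 ?_
    refine (Subgroup.eq_bot_iff_forall _).2 fun g hg => hf g fun z => ?_
    have : z ∈ fixedPoints N Ω := h0 ▸ Set.mem_univ z
    exact this ⟨g, hg⟩
  have := Fact.mk ht
  have hP : IsPGroup t N := fun g => ⟨1, Subtype.ext (by simpa using h5 g g.2)⟩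
  refine ⟨?_, N, h1, h2, h4, fun a b => ?_⟩
  · obtain ⟨k, hk⟩ := hP.card_orbit x
    rw [orbit_eq_univ, Nat.card_univ] at hk
    refine ⟨t, k, ht.prime, Nat.pos_of_ne_zero ?_, hk.symm⟩
    rintro rfl
    exact Finite.one_lt_card.ne' hk
  · obtain ⟨g, hg⟩ := exists_smul_eq N a b
    exact ⟨g, g.2, hg⟩

theorem row : OfAFF := ⟨sol, crdn, aff⟩

end Pool.Agent.MP_f8e15f_co.RAFF
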