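import Pool.Agent.MP_f8e15f_co.H33.Spec2

/-! Basic facts on the bilinear maps. -/

open MulAction Pointwise

namespace Pool.Agent.MP_f8e15f_co.RB0

open H33

theorem sepK (K : Type) {Y : Type} [Field K] [AddCommGroup Y] [Module K Y] {z : Y} (hz : z ≠ 0) :
    ∃ l : Y →+ K, l z ≠ 0 := by
  obtain ⟨l, hl⟩ := not_forall.1 (mt (Module.forall_dual_apply_eq_zero_iff K z).1 hz)
  exact ⟨l.toAddMonoidHom, hl⟩

theorem dualK (K Y : Type) [Field K] [AddCommGroup Y] [Module K Y] [Finite Y] :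
    Nat.card (Y →ₗ[K] K) = Nat.card Y := by
  have h1 := Module.natCard_eq_pow_finrank (K := K) (V := Module.Dual K Y)
  rwa [Subspace.dual_finrank_eq, ← Module.natCard_eq_pow_finrank] at h1

section El

variable {p : ℕ} [Fact p.Prime] {Y : Type} [AddCommGroup Y] (h : ∀ y : Y, p • y = 0)

include h

theorem sep {z : Y} (hz : z ≠ 0) : ∃ l : Y →+ ZMod p, l z ≠ 0 := by
  let _ : Module (ZMod p) Y := AddCommGroup.zmodModule h
  exact sepK (ZMod p) hz

variable [Finite Y]

theorem card_pow : ∃ d, Nat.card Y = p ^ d := by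
  let _ : Module (ZMod p) Y := AddCommGroup.zmodModule h
  exact ⟨_, by rw [Module.natCard_eq_pow_finrank (K := ZMod p), Nat.card_zmod]⟩

theorem card_dual : Nat.card (Y →+ ZMod p) = Nat.card Y := by
  let _ : Module (ZMod p) Y := AddCommGroup.zmodModule h
  exact (Nat.card_congr (AddMonoidHom.toZModLinearMapEquiv p).toEquiv).trans (dualK (ZMod p) Y)

theorem fin_dual : Finite (Y →+ ZMod p) :=
  Nat.finite_of_card_ne_zero (by rw [card_dual h]; exact Nat.card_pos.ne')

end El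

theorem schur {X : Type} [AddCommGroup X] {S : Set (AddMonoid.End X)}
    (h : ∀ U : AddSubgroup X, (∀ s ∈ S, ∀ x ∈ U, s x ∈ U) → U = ⊥ ∨ U = ⊤) :
    ∀ z ∈ Subring.centralizer S, z = 0 ∨ Function.Injective z := fun z hz => by
  refine (h (AddMonoidHom.ker z) fun s hs x hx => ?_).symm.imp (fun e => ?_)
    (AddMonoidHom.ker_eq_bot_iff z).1
  · have h1 : s (z x) = z (s x) := DFunLike.congr_fun (hz s hs) x
    rw [show z x = 0 from hx, map_zero] at h1
    exact h1.symm
  · exact AddMonoidHom.ext fun x => show x ∈ AddMonoidHom.ker z from e ▸ AddSubgroup.mem_top x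

variable {A X Y N : Type} [Group A] [AddCommGroup X] [AddCommGroup Y] [AddCommGroup N]
  [Finite X] [Finite Y] [Finite N] [DistribMulAction A X] [DistribMulAction A Y]
  [DistribMulAction A N] {β : X →+ Y →+ N}

theorem ex (hH : HUP) (h : Bil A β) : ∃ p d e, BF β p d e := by
  have := h.nn
  have := h.nx
  obtain ⟨p, e, hp, he, cN, tN⟩ := hH.el A N (hH.irr A N h.tn)
  have := Fact.mk hp
  obtain ⟨z, hz⟩ := exists_ne (0 : N)
  have tX : ∀ x : X, p • x = 0 := fun x => by_contra fun h0 => by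
    obtain ⟨y, rfl⟩ := h.sx _ h0 z
    exact hz (by rw [map_nsmul, AddMonoidHom.nsmul_apply, tN])
  have tY : ∀ y : Y, p • y = 0 := fun y => by_contra fun h0 => by
    obtain ⟨x, rfl⟩ := h.sy _ h0 z
    exact hz (by simp only [map_nsmul, tN])
  have nd : ∀ l₀ : N →+ ZMod p, l₀ ≠ 0 → (∀ x, (∀ y, l₀ (β x y) = 0) → x = 0) ∧
      ∀ y, (∀ x, l₀ (β x y) = 0) → y = 0 := fun l hl =>
    ⟨fun x hx => by_contra fun h0 => hl (AddMonoidHom.ext ((h.sx x h0).forall.2 hx)),
      fun y hy => by_contra fun h0 => hl (AddMonoidHom.ext ((h.sy y h0).forall.2 hy))⟩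
  have i1 : ∀ l : N →+ ZMod p, l ≠ 0 → Function.Injective (β.compr₂ l) := fun l hl =>
    (injective_iff_map_eq_zero _).2 fun x hx => (nd l hl).1 x fun y => DFunLike.congr_fun hx y
  have i2 : ∀ l : N →+ ZMod p, l ≠ 0 → Function.Injective (β.flip.compr₂ l) := fun l hl =>
    (injective_iff_map_eq_zero _).2 fun y hy => (nd l hl).2 y fun x => DFunLike.congr_fun hy x
  obtain ⟨l₁, h1⟩ := sep tN hz
  have h2 : l₁ ≠ 0 := fun e => h1 (e ▸ rfl)
  have := fin_dual tX
  have := fin_dual tY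
  have c1 := Nat.card_le_card_of_injective _ (i1 l₁ h2)
  have c2 := Nat.card_le_card_of_injective _ (i2 l₁ h2)
  rw [card_dual tY] at c1
  rw [card_dual tX] at c2
  obtain ⟨d, cY⟩ := card_pow tY
  obtain ⟨x₀, hx₀⟩ := exists_ne (0 : X)
  have c3 := Nat.card_le_card_of_surjective _ (h.sx x₀ hx₀)
  rw [cN, cY, Nat.pow_le_pow_iff_right hp.one_lt] at c3
  refine ⟨p, d, e, hp, he, c3, (c1.antisymm c2).trans cY, cY, cN, tX, tY, tN, fun _ => sep tN,
    fun l₀ l hl => ?_, nd⟩
  let E := AddEquiv.ofBijective _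
    ((i1 l₀ hl).bijective_of_nat_card_le (by rw [card_dual tY]; exact c2))
  exact ⟨E.symm.toAddMonoidHom.comp (β.compr₂ l), fun x y =>
    (DFunLike.congr_fun (E.apply_symm_apply (β.compr₂ l x)) y).symm⟩

omit [Finite Y] in
theorem inF (h : Bil A β) {p d e : ℕ} (f : BF β p d e) (hc : e = 1 ∨ d ≤ 2 ∨ KI A X N) :
    InF β p := by
  have := h.nn
  have := Fact.mk f.prime
  obtain ⟨z, hz⟩ := exists_ne (0 : N)
  obtain ⟨l₀, h1⟩ := f.sep z hz
  have h0 : l₀ ≠ 0 := fun e => h1 (e ▸ rfl)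
  have hw : ∀ l : N →+ ZMod p, ∃ w : AddMonoid.End X, ∀ x y, l (β x y) = l₀ (β (w x) y) :=
    fun l => f.w l₀ l h0
  choose w hw using hw
  have un : ∀ x x', (∀ y, l₀ (β x y) = l₀ (β x' y)) → x = x' := fun x x' e =>
    sub_eq_zero.1 ((f.nd l₀ h0).1 _ fun y => by simp [e])
  have lin : ∀ (m n : ℤ) l, w (m • l + n • l₀) = m • w l + n • 1 := fun m n l =>
    AddMonoidHom.ext fun x => un _ _ fun y => by
      refine (hw _ x y).symm.trans ?_
      change _ = l₀ (β (m • w l x + n • x) y)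
      simp only [map_add, map_zsmul, AddMonoidHom.add_apply, AddMonoidHom.zsmul_apply, ← hw]
  have sc : ∀ n : ℤ, w (n • l₀) = n • 1 := fun n => by simpa using lin 0 n 0
  have inj : ∀ x, x ≠ 0 → Function.Injective fun l => w l x := fun x hx l l' e =>
    sub_eq_zero.1 (by_contra fun h2 => hx ((f.nd _ h2).1 x fun y => by
      rw [AddMonoidHom.sub_apply, hw l, hw l', show w l x = w l' x from e, sub_self]))
  have cD : Nat.card (N →+ ZMod p) = p ^ e := (card_dual f.tN).trans f.cN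
  by_cases he : e = 1
  · refine ⟨(Int.castRingHom (AddMonoid.End X)).range, l₀, h0, ?_, fun l => ⟨w l, ?_, hw l⟩⟩
    · rintro _ ⟨n, rfl⟩
      rw [eq_intCast, ← zsmul_one, ← sc]
      by_cases h2 : n • l₀ = 0
      · left
        rw [h2]
        simpa using sc 0
      · refine Or.inr ((injective_iff_map_eq_zero _).2 fun x hx => (f.nd _ h2).1 x fun y => ?_)
        rw [hw, hx]
        simp
    · rw [he, pow_one] at cD
      obtain ⟨n, rfl⟩ := mem_zmultiples_of_prime_card cD h0 (g' := l)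
      exact ⟨n, by rw [eq_intCast, ← zsmul_one, ← sc]⟩
  rcases hc.resolve_left he with hd | hk
  · have e2 : e = 2 := by
      have := f.pos
      have := f.le
      omega
    have d2 : d = 2 := by
      have := f.le
      omega
    have := fin_dual f.tN
    refine ⟨Subring.centralizer (Set.range w), l₀, h0, schur fun U hU => ?_,
      fun l => ⟨w l, ?_, hw l⟩⟩
    · refine or_iff_not_imp_left.2 fun h2 => eq_top_iff.2 fun x _ => ?_
      obtain ⟨⟨x₀, h3⟩, h4⟩ := AddSubgroup.ne_bot_iff_exists_ne_zero.1 h2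
      obtain ⟨l, rfl⟩ := ((inj x₀ fun e => h4 (Subtype.ext e)).bijective_of_nat_card_le
        (by rw [cD, f.cX, e2, d2])).2 x
      exact hU _ ⟨l, rfl⟩ _ h3
    · rintro _ ⟨l', rfl⟩
      have c1 := AddSubgroup.card_eq_card_quotient_mul_card_addSubgroup (AddSubgroup.zmultiples l₀)
      rw [cD, e2, Nat.card_zmultiples, addOrderOf_eq_prime (p := p)
        (AddMonoidHom.ext fun z => by rw [AddMonoidHom.nsmul_apply, ← map_nsmul, f.tN]; simp) h0,
        sq, mul_left_inj' f.prime.ne_zero] at c1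
      by_cases h2 : l ∈ AddSubgroup.zmultiples l₀
      · obtain ⟨n, rfl⟩ := h2
        simp only [sc, mul_smul_comm, smul_mul_assoc, mul_one, one_mul]
      · obtain ⟨m, hm⟩ := mem_zmultiples_of_prime_card c1.symm
          (mt (QuotientAddGroup.eq_zero_iff l).1 h2) (g' := (l' : _ ⧸ AddSubgroup.zmultiples l₀))
        obtain ⟨n, hn⟩ := QuotientAddGroup.eq.1 ((QuotientAddGroup.mk_zsmul _ l m).trans hm)
        rw [show l' = m • l + n • l₀ from eq_add_of_neg_add_eq hn.symm, lin]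
        simp only [add_mul, mul_add, mul_smul_comm, smul_mul_assoc, mul_one, one_mul]
  · refine ⟨Subring.centralizer
      (DistribMulAction.toAddMonoidEnd A X '' {g | ∀ z : N, g • z = z}), l₀, h0,
      schur fun U hU => hk U fun g hg => hU _ ⟨g, hg, rfl⟩, fun l => ⟨w l, ?_, hw l⟩⟩
    rintro _ ⟨g, hg, rfl⟩
    refine AddMonoidHom.ext fun x => un _ _ fun y => ?_
    obtain ⟨y, rfl⟩ := MulAction.surjective g y
    change l₀ (β (g • w l x) _) = l₀ (β (w l (g • x)) _)
    rw [← hw l, h.eqv, h.eqv, hg, hg, hw l]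

theorem row : H33.OfB0 := by
  intro hH A X Y N _ _ _ _ _ _ _ _ _ _ _ _ β h
  exact ⟨ex hH h, fun _ _ _ f hc => inF h f hc⟩

end Pool.Agent.MP_f8e15f_co.RB0
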