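import Pool.Agent.MP_f8e15f_co.H33.Spec2

/-! Row B2A: with a primitive prime divisor the three companion automorphisms agree. -/

open MulAction Pointwise

namespace Pool.Agent.MP_f8e15f_co.RB2A

open Pool.Agent.MP_f8e15f_co.H33 Pool.Agent.MP_f8e15f_co.H24

variable {A F : Type} [Group A] [Field F] {β : F →+ F →+ F} {a b c : A → F}
  {s₁ s₂ s₃ : A →* RingAut F} {p d u : ℕ}

/-- A linear autotopism. -/
def Lin (β : F →+ F →+ F) (x y z : F) : Prop := ∀ v w, β (x * v) (y * w) = z * β v w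

theorem Lin.mul {x y z x' y' z' : F} (h : Lin β x y z) (h' : Lin β x' y' z') :
    Lin β (x * x') (y * y') (z * z') := fun v w => by
  rw [mul_assoc, mul_assoc, h, h', mul_assoc]

theorem Lin.pow {x y z : F} (h : Lin β x y z) (n : ℕ) : Lin β (x ^ n) (y ^ n) (z ^ n) := by
  induction n with
  | zero => intro v w; simp
  | succ n ih => simpa only [pow_succ] using ih.mul h

theorem Lin.inv {x y z : F} (h : Lin β x y z) (hx : x ≠ 0) (hy : y ≠ 0) (hz : z ≠ 0) :
    Lin β x⁻¹ y⁻¹ z⁻¹ := fun v w => by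
  have := h (x⁻¹ * v) (y⁻¹ * w)
  rw [mul_inv_cancel_left₀ hx, mul_inv_cancel_left₀ hy] at this
  rw [this, inv_mul_cancel_left₀ hz]

theorem ne_zero {s : A →* RingAut F} (h1 : a 1 = 1) (hm : ∀ g h, a (g * h) = a g * s g (a h))
    (g : A) : a g ≠ 0 := fun h0 => by
  have := hm g g⁻¹
  rw [mul_inv_cancel, h1, h0, zero_mul] at this
  exact one_ne_zero this

theorem Lin.conj {x y z : F} (hT : Tri A β a b c s₁ s₂ s₃) (h : Lin β x y z) (g : A) :
    Lin β (s₁ g x) (s₂ g y) (s₃ g z) := fun v w => by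
  obtain ⟨v', rfl⟩ : ∃ v', a g * s₁ g v' = v :=
    ⟨(s₁ g).symm ((a g)⁻¹ * v), by
      rw [RingEquiv.apply_symm_apply, mul_inv_cancel_left₀ (ne_zero hT.one.1 hT.ma g)]⟩
  obtain ⟨w', rfl⟩ : ∃ w', b g * s₂ g w' = w :=
    ⟨(s₂ g).symm ((b g)⁻¹ * w), by
      rw [RingEquiv.apply_symm_apply, mul_inv_cancel_left₀ (ne_zero hT.one.2.1 hT.mb g)]⟩
  rw [mul_left_comm, ← map_mul, mul_left_comm (s₂ g y), ← map_mul, hT.aut, hT.aut, h, map_mul,
    mul_left_comm]

theorem not_dvd (hd : 2 ≤ d) (hu : Ppd p d u) (hp : p.Prime) : ¬ u ∣ d := fun h => by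
  have h2 := hu.1.two_le
  have hc : Nat.Coprime p u := by
    rw [Nat.coprime_comm, hu.1.coprime_iff_not_dvd]
    intro h1
    have h3 : u ∣ p ^ d := dvd_pow h1 (by omega)
    have h4 : 1 ≤ p ^ d := Nat.one_le_pow _ _ hp.pos
    have := (Nat.dvd_sub h3 hu.2.1)
    rw [Nat.sub_sub_self h4] at this
    exact hu.1.one_lt.ne' (Nat.dvd_one.1 this)
  have h5 := Nat.ModEq.pow_totient hc
  rw [Nat.totient_prime hu.1] at h5
  exact hu.2.2 (u - 1) (by omega) (by have := Nat.le_of_dvd (by omega) h; omega)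
    ((Nat.modEq_iff_dvd' (Nat.one_le_pow _ _ hp.pos)).1 h5.symm)

/-- A non-trivial linear autotopism of order `u`. -/
theorem ex_lin [Finite A] [Finite F] (hE : EXP) (hp : p.Prime) (hd : 2 ≤ d)
    (hF : Nat.card F = p ^ d) (hu : Ppd p d u) (hT : Tri A β a b c s₁ s₂ s₃) :
    ∃ x y z, Lin β x y z ∧ x ^ u = 1 ∧ y ^ u = 1 ∧ z ^ u = 1 ∧ ¬ (x = 1 ∧ y = 1 ∧ z = 1) := by
  let ψ := s₁.prod (s₂.prod s₃)
  have hk : ∀ t : ψ.ker, s₁ t = 1 ∧ s₂ t = 1 ∧ s₃ t = 1 := fun t => by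
    have := MonoidHom.mem_ker.1 t.2
    exact ⟨congrArg Prod.fst this, congrArg (fun z => z.2.1) this, congrArg (fun z => z.2.2) this⟩
  let φ₀ : ψ.ker →* F × F × F :=
    { toFun := fun t => (a t, b t, c t)
      map_one' := by simp [hT.one.1, hT.one.2.1, hT.one.2.2]
      map_mul' := fun t t' => by
        simp [hT.ma, hT.mb, hT.mc, (hk t).1, (hk t).2.1, (hk t).2.2] }
  let : MulAction A F :=
    { smul := fun g x => a g * s₁ g x
      one_smul := fun x => by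
        change a 1 * s₁ 1 x = x
        simp [hT.one.1]
      mul_smul := fun g h x => by
        change a (g * h) * s₁ (g * h) x = a g * s₁ g (a h * s₁ h x)
        rw [hT.ma, map_mul, map_mul, mul_assoc]
        rfl }
  have hs : ∀ g : A, g • (1 : F) = a g := fun g => by
    change a g * s₁ g 1 = a g
    simp
  have ho : orbit A (1 : F) = {0}ᶜ := by
    ext x
    simp only [mem_orbit_iff, hs, Set.mem_compl_iff, Set.mem_singleton_iff]
    exact ⟨fun ⟨g, hg⟩ => hg ▸ ne_zero hT.one.1 hT.ma g, hT.sa x⟩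
  have h1 : (stabilizer A (1 : F)).index = p ^ d - 1 := by
    rw [index_stabilizer, ho, Set.ncard_compl, hF, Set.ncard_singleton]
  have h2 : ψ.ker.index ∣ d ^ 3 := by
    have e : Nat.card (RingAut F) = d := (hE.frob F p d hp hF).1
    rw [Subgroup.index_ker]
    refine (Subgroup.card_subgroup_dvd_card _).trans (dvd_of_eq ?_)
    rw [Nat.card_prod, Nat.card_prod, e]
    ring
  have h3 : u ∣ (stabilizer A (1 : F)).relIndex ψ.ker := by
    have := hu.2.1.trans (h1 ▸ Subgroup.index_dvd_of_le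
      (inf_le_left : stabilizer A (1 : F) ⊓ ψ.ker ≤ _))
    rw [← Subgroup.relIndex_mul_index inf_le_right, Subgroup.inf_relIndex_right] at this
    exact ((Nat.Prime.dvd_mul hu.1).1 this).resolve_right fun h =>
      not_dvd hd hu hp (hu.1.dvd_of_dvd_pow (h.trans h2))
  have h4 : u ∣ Nat.card φ₀.toHomUnits.range := by
    rw [← Subgroup.index_ker]
    refine h3.trans (Subgroup.index_dvd_of_le fun t ht => ?_)
    rw [Subgroup.mem_subgroupOf, mem_stabilizer_iff, hs]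
    exact congrArg (fun z : (F × F × F)ˣ => z.1.1) (MonoidHom.mem_ker.1 ht)
  have := Fact.mk hu.1
  obtain ⟨y, ht⟩ := exists_prime_orderOf_dvd_card' u h4
  obtain ⟨t, e⟩ := y.2
  rw [← Subgroup.orderOf_coe, ← e, ← orderOf_units] at ht
  change orderOf (a t, b t, c t) = u at ht
  have h5 := pow_orderOf_eq_one (a t, b t, c t)
  rw [ht] at h5
  refine ⟨a t, b t, c t, fun v w => ?_, congrArg Prod.fst h5, congrArg (fun z => z.2.1) h5,
    congrArg (fun z => z.2.2) h5, fun ⟨e1, e2, e3⟩ => ?_⟩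
  · simpa [(hk t).1, (hk t).2.1, (hk t).2.2] using hT.aut t v w
  · rw [e1, e2, e3] at ht
    exact hu.1.one_lt.ne (orderOf_one.symm.trans ht)

/-- An element of order `u` determines an automorphism. -/
theorem aut_eq [Finite F] (hE : EXP) (hp : p.Prime) (hF : Nat.card F = p ^ d) (hu : Ppd p d u)
    {z : F} (hz : z ^ u = 1) (h1 : z ≠ 1) {σ τ : F ≃+* F} (h : σ z = τ z) : σ = τ := by
  obtain ⟨i, hi, e⟩ := (hE.frob F p d hp hF).2.1 (σ.trans τ.symm)
  have z0 : z ≠ 0 := fun h0 => by simp [h0, hu.1.ne_zero] at hz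
  have := Fact.mk hu.1
  have h2 : z ^ (p ^ i - 1) = 1 := by
    refine mul_right_cancel₀ z0 ?_
    rw [← pow_succ, Nat.sub_add_cancel (Nat.one_le_pow _ _ hp.pos), ← e, one_mul]
    simp [h]
  have h3 : i = 0 := by
    by_contra h0
    exact hu.2.2 i (Nat.pos_of_ne_zero h0) hi
      (orderOf_eq_prime hz h1 ▸ orderOf_dvd_of_pow_eq_one h2)
  ext x
  have := e x
  rw [h3, pow_zero, pow_one, RingEquiv.trans_apply, RingEquiv.symm_apply_eq] at this
  exact this

theorem fam : Fam (⊥ : AddSubgroup F) fun x y => x * y :=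
  Or.inr (Or.inl ⟨rfl, RingEquiv.refl F, RingEquiv.refl F, 0, fun x y => by simp,
    fun x y h => mul_eq_zero.1 h, fun _ => Iff.rfl, fun _ _ => rfl⟩)

theorem ex_equiv [Finite F] (L : F →+ F) (h : ∀ x, L x = 0 → x = 0) :
    ∃ e : F ≃+ F, ∀ x, e x = L x :=
  ⟨AddEquiv.ofBijective L (Finite.injective_iff_bijective.1 ((injective_iff_map_eq_zero L).2 h)),
    fun _ => rfl⟩

/-- A linear autotopism of order `u` with a trivial entry gives an isotope of the field. -/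
theorem tw [Finite F] (hE : EXP) (hp : p.Prime) (hF : Nat.card F = p ^ d) (hu : Ppd p d u)
    (nz : ∀ x y, β x y = 0 → x = 0 ∨ y = 0) {x y z : F} (h : Lin β x y z)
    (hx : x ^ u = 1) (hy : y ^ u = 1) (hn : ¬ (x = 1 ∧ y = 1 ∧ z = 1))
    (h1 : x = 1 ∨ y = 1 ∨ z = 1) : Tw β := by
  classical
  let := Fintype.ofFinite F
  have : Finite (F ≃+* F) := Finite.of_injective (fun σ : F ≃+* F => (σ : F → F))
    DFunLike.coe_injective
  let := Fintype.ofFinite (F ≃+* F)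
  obtain ⟨k, hk⟩ := hE.ex F β
  have hc : ∀ σ τ, k σ τ ≠ 0 → σ x * τ y = z := fun σ τ h0 => by
    have := hE.un F (fun σ τ => k σ τ * (σ x * τ y)) (fun σ τ => k σ τ * z) fun v w => by
      have := h v w
      rw [hk, hk] at this
      simp only [map_mul, Finset.mul_sum] at this
      convert this using 3 <;> ring
    exact mul_left_cancel₀ h0 (congrFun (congrFun this σ) τ)
  obtain ⟨σ₀, τ₀, h0⟩ : ∃ σ τ, k σ τ ≠ 0 := by
    by_contra hh
    push Not at hh
    have := nz 1 1 (by simp [hk, hh])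
    simp at this
  obtain ⟨L, hL⟩ := ex_equiv (β.flip 1) fun v hv => (nz v 1 hv).resolve_right one_ne_zero
  obtain ⟨R, hR⟩ := ex_equiv (β 1) fun v hv => (nz 1 v hv).resolve_left one_ne_zero
  have key : ∀ f g : (F ≃+* F) → (F ≃+* F) → F, (∀ σ τ, k σ τ ≠ 0 → f σ τ = g σ τ) →
      ∑ σ, ∑ τ, k σ τ * f σ τ = ∑ σ, ∑ τ, k σ τ * g σ τ := fun f g hfg =>
    Finset.sum_congr rfl fun σ _ => Finset.sum_congr rfl fun τ _ => by
      by_cases e : k σ τ = 0
      · simp [e]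
      · rw [hfg σ τ e]
  by_cases x1 : x = 1
  · have y1 : y ≠ 1 := fun y1 => hn ⟨x1, y1, by simpa [x1, y1] using (hc _ _ h0).symm⟩
    refine ⟨_, L, τ₀.toAddEquiv, AddEquiv.refl F, fam, fun v w => ?_⟩
    rw [hL, AddMonoidHom.flip_apply, hk, hk]
    simp only [AddEquiv.refl_apply, Finset.sum_mul, mul_assoc]
    refine key _ _ fun σ τ e => ?_
    have : τ = τ₀ := aut_eq hE hp hF hu hy y1 (by simpa [x1] using (hc _ _ e).trans (hc _ _ h0).symm)
    simp [this]
  by_cases y1 : y = 1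
  · refine ⟨_, σ₀.toAddEquiv, R, AddEquiv.refl F, fam, fun v w => ?_⟩
    rw [hR, hk, hk]
    simp only [AddEquiv.refl_apply, Finset.mul_sum, mul_left_comm _ (k _ _), mul_assoc]
    refine key _ _ fun σ τ e => ?_
    have : σ = σ₀ := aut_eq hE hp hF hu hx x1 (by simpa [y1] using (hc _ _ e).trans (hc _ _ h0).symm)
    simp [this]
  have z1 : z = 1 := (h1.resolve_left x1).resolve_left y1
  have hr : ∀ σ τ, k σ τ ≠ 0 → x * (τ.trans σ.symm) y = 1 := fun σ τ e => σ.injective (by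
    rw [map_mul, RingEquiv.trans_apply, RingEquiv.apply_symm_apply, hc _ _ e, z1, map_one])
  refine ⟨_, AddEquiv.refl F, (τ₀.trans σ₀.symm).toAddEquiv, L.symm, fam, fun v w => ?_⟩
  rw [AddEquiv.symm_apply_eq, hL, AddMonoidHom.flip_apply, hk, hk]
  simp only [mul_assoc]
  refine key _ _ fun σ τ e => ?_
  have x0 : x ≠ 0 := fun h0 => by simp [h0, hu.1.ne_zero] at hx
  have : τ.trans σ.symm = τ₀.trans σ₀.symm := aut_eq hE hp hF hu hy y1
    (mul_left_cancel₀ x0 ((hr _ _ e).trans (hr _ _ h0).symm))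
  rw [← this]
  simp

theorem row : H33.OfB2A := by
  intro hE A F _ _ _ _ β a b c s₁ s₂ s₃ p d u hp hd hF hu hT
  refine or_iff_not_imp_left.2 fun hn => ?_
  obtain ⟨x, y, z, h, hx, hy, hz, h1⟩ := ex_lin hE hp hd hF hu hT
  have h2 := fun h2 => hn (tw hE hp hF hu hT.nz h hx hy h1 h2)
  have n0 : ∀ w : F, w ^ u = 1 → w ≠ 0 := fun w hw h0 => by simp [h0, hu.1.ne_zero] at hw
  have key : ∀ g, s₂ g = s₁ g ∧ s₃ g = s₁ g := fun g => by
    obtain ⟨i, -, e⟩ := (hE.frob F p d hp hF).2.1 (s₁ g)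
    have l := (h.conj hT g).mul ((h.pow (p ^ i)).inv (pow_ne_zero _ (n0 x hx))
      (pow_ne_zero _ (n0 y hy)) (pow_ne_zero _ (n0 z hz)))
    rw [← e, ← e, ← e, mul_inv_cancel₀ ((map_ne_zero _).2 (n0 x hx))] at l
    have t : (1 : F) = 1 ∧ s₂ g y * (s₁ g y)⁻¹ = 1 ∧ s₃ g z * (s₁ g z)⁻¹ = 1 := by
      by_contra h3
      exact hn (tw hE hp hF hu hT.nz l (one_pow u)
        (by rw [mul_pow, inv_pow, ← map_pow, ← map_pow, hy]; simp) h3 (Or.inl rfl))
    exact ⟨aut_eq hE hp hF hu hy (fun e => h2 (Or.inr (Or.inl e)))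
        ((mul_inv_eq_one₀ ((map_ne_zero _).2 (n0 y hy))).1 t.2.1),
      aut_eq hE hp hF hu hz (fun e => h2 (Or.inr (Or.inr e)))
        ((mul_inv_eq_one₀ ((map_ne_zero _).2 (n0 z hz))).1 t.2.2)⟩
  exact ⟨MonoidHom.ext fun g => (key g).1, MonoidHom.ext fun g => (key g).2⟩

end Pool.Agent.MP_f8e15f_co.RB2A
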