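import Pool.Agent.MP_f8e15f_co.H33.Spec2

/-! A bilinear map with a transitive group of semilinear autotopisms has at most two terms. -/

set_option autoImplicit false

open Finset

namespace Pool.Agent.MP_f8e15f_co.RB2B

open Pool.Agent.MP_f8e15f_co.H33

variable {A F : Type} [Group A] [Field F]

/-- a cocycle that takes every non-zero value -/
structure Coc (s : A →* RingAut F) (f : A → F) : Prop where
  one : f 1 = 1
  mul : ∀ g h, f (g * h) = f g * s g (f h)
  sur : ∀ x, x ≠ 0 → ∃ g, f g = x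

variable {s : A →* RingAut F} {f : A → F} {p d : ℕ}

theorem Coc.ne (h : Coc s f) (g : A) : f g ≠ 0 := fun e => by
  have := h.mul g g⁻¹
  rw [mul_inv_cancel, h.one, e, zero_mul] at this
  exact one_ne_zero this

theorem Coc.tw [Finite F] (E : EXP) (h : Coc s f) (σ : F ≃+* F) : Coc s fun g => σ (f g) :=
  ⟨by rw [h.one, map_one], fun g g' => by rw [h.mul, map_mul, E.comm F σ (s g)], fun x hx => by
    obtain ⟨g, hg⟩ := h.sur (σ.symm x) (by simpa using hx)
    exact ⟨g, by rw [hg, σ.apply_symm_apply]⟩⟩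

theorem Coc.dvd [Finite F] (H : HUP) (h : Coc s f) (hp : p.Prime) (hF : Nat.card F = p ^ d)
    {D : ℕ} (hD : ∀ t, s t = 1 → f t ^ D = 1) : p ^ d - 1 ∣ d * D := by
  letI : DistribMulAction A F :=
    { smul := fun g x => f g * s g x
      one_smul := fun x => by
        show f 1 * s 1 x = x
        rw [h.one, map_one, one_mul]; rfl
      mul_smul := fun g g' x => by
        show f (g * g') * s (g * g') x = f g * s g (f g' * s g' x)
        rw [h.mul, map_mul, map_mul, mul_assoc]; rfl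
      smul_zero := fun g => by
        show f g * s g 0 = 0
        rw [map_zero, mul_zero]
      smul_add := fun g x y => by
        show f g * s g (x + y) = f g * s g x + f g * s g y
        rw [map_add, mul_add] }
  have e : ∀ (g : A) (x : F), g • x = f g * s g x := fun _ _ => rfl
  have e1 : ∀ g : A, g • (1 : F) = f g := fun g => by rw [e, map_one, mul_one]
  refine H.lin A F F (AddEquiv.refl F) p d D hp hF (fun x y hx hy => ?_)
    (fun g => ⟨f g, s g, fun _ => rfl⟩) fun g a ha => ?_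
  · obtain ⟨g, rfl⟩ := h.sur x hx
    obtain ⟨g', rfl⟩ := h.sur y hy
    exact ⟨g' * g⁻¹, by rw [← e1 g, mul_smul, inv_smul_smul, e1]⟩
  · have h1 : f g = a := by
      have : g • (1 : F) = a * 1 := ha 1
      rwa [e1, mul_one] at this
    rw [← h1]
    refine hD g (RingEquiv.ext fun x => mul_left_cancel₀ (h.ne g) ?_)
    have : f g * s g x = a * x := ha x
    rw [this, h1]; rfl

theorem pow_mod [Finite F] (hF : Nat.card F = p ^ d) (x : F) {u v : ℕ} (h : u % d = v % d) :
    x ^ p ^ u = x ^ p ^ v := by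
  cases nonempty_fintype F
  rw [Nat.card_eq_fintype_card] at hF
  have key : ∀ u, x ^ p ^ u = x ^ p ^ (u % d) := fun u => by
    conv_lhs => rw [← Nat.div_add_mod u d, pow_add, pow_mul, pow_mul, ← hF,
      FiniteField.pow_card_pow]
  rw [key u, key v, h]

theorem Coc.fix [Finite F] (E : EXP) (H : HUP) (Dg : DEG) (h : Coc s f) (hp : p.Prime)
    (hF : Nat.card F = p ^ d) {i j : ℕ} (hi : i < d) (hj : j < d)
    (hij : ∀ t, s t = 1 → f t ^ p ^ i = f t ^ p ^ j) : i = j := by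
  wlog hle : i ≤ j generalizing i j
  · exact (this hj hi (fun t ht => (hij t ht).symm) (by omega)).symm
  obtain ⟨m, rfl⟩ := Nat.exists_eq_add_of_le hle
  obtain ⟨σ, hσ⟩ := (E.frob F p d hp hF).2.2.1 i
  have h1 := h.dvd H hp hF (D := p ^ m - 1) fun t ht => by
    have h2 : f t = f t ^ p ^ m := σ.injective (by
      rw [hσ, hσ, hij t ht, ← pow_mul, ← pow_add, add_comm])
    refine mul_right_cancel₀ (h.ne t) ?_
    rw [← pow_succ, Nat.sub_add_cancel (Nat.one_le_pow _ _ hp.pos), one_mul, ← h2]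
  have h2 := Dg p d d m hp (by omega) le_rfl h1
  rw [Nat.eq_zero_of_dvd_of_lt h2 (by omega), add_zero]

theorem Coc.f81 [Finite F] (E : EXP) (h : Coc s f) (hF : Nat.card F = 3 ^ 4)
    (h20 : ∀ t, s t = 1 → f t ^ 20 = 1) : False := by
  cases nonempty_fintype F
  have hc : Fintype.card F = 81 := by rw [← Nat.card_eq_fintype_card, hF]; norm_num
  obtain ⟨x, hx⟩ : ∃ x : Fˣ, x ^ 40 ≠ 1 := by
    by_contra hn
    push Not at hn
    have := (FiniteField.forall_pow_eq_one_iff F 40).1 hn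
    rw [hc] at this
    omega
  have mul : ∀ g g', f (g * g') ^ 20 = f g ^ 20 * s g (f g' ^ 20) := fun g g' => by
    rw [h.mul, mul_pow, map_pow]
  have dep : ∀ g g', s g = s g' → f g ^ 20 = f g' ^ 20 := fun g g' e => by
    have h1 : s (g * g'⁻¹) = 1 := by rw [map_mul, map_inv, e, mul_inv_cancel]
    have h2 := mul (g * g'⁻¹) g'
    rw [inv_mul_cancel_right, h20 _ h1, h1, one_mul] at h2
    exact h2
  obtain ⟨g, hg⟩ := h.sur x x.ne_zero
  obtain ⟨g', hg'⟩ := h.sur (x ^ 2) (pow_ne_zero _ x.ne_zero)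
  obtain ⟨z, hz⟩ : ∃ z, f g ^ 20 = z := ⟨_, rfl⟩
  have z4 : z ^ 4 = 1 := by
    have := FiniteField.pow_card_sub_one_eq_one (x : F) x.ne_zero
    rw [hc] at this
    rw [← hz, hg, ← pow_mul]; exact this
  have z2 : z ^ 2 ≠ 1 := fun e => hx (Units.ext (by
    rw [← hz, hg, ← pow_mul] at e
    simpa using e))
  have z' : f g' ^ 20 = z ^ 2 := by rw [← hz, hg, hg', ← pow_mul, ← pow_mul]
  obtain ⟨i, hi, ei⟩ := (E.frob F 3 4 Nat.prime_three hF).2.1 (s g)
  obtain ⟨j, hj, ej⟩ := (E.frob F 3 4 Nat.prime_three hF).2.1 (s g')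
  have pw : ∀ (m : ℕ) (y : F), s (g ^ m) y = y ^ 3 ^ (i * m) := fun m => by
    induction m with
    | zero => intro y; rw [pow_zero, map_one]; simp
    | succ m ih =>
      intro y
      have : s (g ^ (m + 1)) y = s g (s (g ^ m) y) := by rw [pow_succ', map_mul]; rfl
      rw [this, ih, ei, ← pow_mul, ← pow_add, mul_add, mul_one]
  by_cases hev : i % 2 = 0
  · have h1 : s (g ^ 2) = 1 := RingEquiv.ext fun y => by
      rw [pw, pow_mod hF y (v := 0) (by omega)]; simp
    have h2 := mul g g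
    rw [← sq, h20 _ h1, hz, ei] at h2
    refine z2 ?_
    interval_cases i
    · rw [h2]; ring
    · omega
    · linear_combination -h2 - (z ^ 6 + z ^ 2) * z4
    · omega
  · have h1 : z * s g z = 1 := by
      rw [ei]
      interval_cases i
      · omega
      · linear_combination z4
      · omega
      · linear_combination (z ^ 24 + z ^ 20 + z ^ 16 + z ^ 12 + z ^ 8 + z ^ 4 + 1) * z4
    have h2 : ∀ m : ℕ, f (g ^ m) ^ 20 = 1 ∨ f (g ^ m) ^ 20 = z := fun m => by
      induction m with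
      | zero => left; rw [pow_zero, h.one, one_pow]
      | succ m ih =>
        rw [pow_succ' g, mul, hz]
        rcases ih with e | e <;> rw [e]
        · right; rw [map_one, mul_one]
        · left; exact h1
    have h3 : s g' = s (g ^ (i * j)) := RingEquiv.ext fun y => by
      rw [pw, ej]
      refine pow_mod hF y ?_
      interval_cases i <;> omega
    have h4 := dep _ _ h3
    rw [z'] at h4
    rcases h2 (i * j) with e | e <;> rw [e] at h4
    · exact z2 h4
    · exact z2 (by linear_combination z4 - (z ^ 2 + z) * h4)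

theorem three [Finite F] (E : EXP) (H : HUP) (Dg : DEG) (t3 : T3) {a b c : A → F}
    (ha : Coc s a) (hb : Coc s b) (hc : Coc s c) (hp : p.Prime) (hF : Nat.card F = p ^ d)
    {i j i' j' : ℕ} (hi : i < d) (hj : j < d) (hi' : i' < d) (hj' : j' < d)
    (n1 : ¬ (i = 0 ∧ j = 0)) (n2 : ¬ (i' = 0 ∧ j' = 0)) (n3 : ¬ (i = i' ∧ j = j'))
    (e0 : ∀ t, s t = 1 → a t * b t = c t)
    (e1 : ∀ t, s t = 1 → a t ^ p ^ i * b t ^ p ^ j = c t)
    (e2 : ∀ t, s t = 1 → a t ^ p ^ i' * b t ^ p ^ j' = c t) : False := by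
  have key : ∀ {i j i' j' : ℕ}, i < d → j < d → i' < d → j' < d → ¬ (i = i' ∧ j = j') →
      (∀ t, s t = 1 → a t ^ p ^ i * b t ^ p ^ j = c t) →
      (∀ t, s t = 1 → a t ^ p ^ i' * b t ^ p ^ j' = c t) →
      i ≠ i' ∧ j ≠ j' ∧ (i + j') % d ≠ (i' + j) % d := by
    intro i j i' j' hi hj hi' hj' n e e'
    have k1 : j ≠ j' := by
      rintro rfl
      exact n ⟨ha.fix E H Dg hp hF hi hi' fun t ht => mul_right_cancel₀
        (pow_ne_zero _ (hb.ne t)) ((e t ht).trans (e' t ht).symm), rfl⟩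
    refine ⟨?_, k1, fun hm => k1 (hc.fix E H Dg hp hF hj hj' fun t ht => ?_)⟩
    · rintro rfl
      exact k1 (hb.fix E H Dg hp hF hj hj' fun t ht => mul_left_cancel₀
        (pow_ne_zero _ (ha.ne t)) ((e t ht).trans (e' t ht).symm))
    · conv_lhs => rw [← e' t ht]
      rw [← e t ht]
      simp only [mul_pow, ← pow_mul, ← pow_add]
      rw [pow_mod hF (a t) hm, add_comm j]
  have hd : 0 < d := by omega
  have e0' : ∀ t, s t = 1 → a t ^ p ^ 0 * b t ^ p ^ 0 = c t := by simpa using e0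
  obtain ⟨k1, k2, k3⟩ := key hi hj hd hd n1 e1 e0'
  obtain ⟨k4, k5, k6⟩ := key hi' hj' hd hd n2 e2 e0'
  obtain ⟨k7, k8, k9⟩ := key hi hj hi' hj' n3 e1 e2
  have hΔ : ∀ t, s t = 1 →
      a t ^ (((p : ℤ) ^ i - 1) * (p ^ j' - 1) - (p ^ i' - 1) * (p ^ j - 1)) = 1 := by
    intro t ht
    have q : ∀ i j : ℕ, a t ^ p ^ i * b t ^ p ^ j = c t →
        a t ^ ((p : ℤ) ^ i - 1) = (b t ^ ((p : ℤ) ^ j - 1))⁻¹ := fun i j e => by
      refine eq_inv_of_mul_eq_one_left ?_
      rw [zpow_sub_one₀ (ha.ne t), zpow_sub_one₀ (hb.ne t), ← Nat.cast_pow, ← Nat.cast_pow,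
        zpow_natCast, zpow_natCast]
      have := ha.ne t
      have := hb.ne t
      field_simp
      rw [e, e0 t ht]
    rw [zpow_sub₀ (ha.ne t), zpow_mul, zpow_mul, q i j (e1 t ht), q i' j' (e2 t ht), inv_zpow,
      inv_zpow, ← zpow_mul, ← zpow_mul, mul_comm, div_self]
    exact inv_ne_zero (zpow_ne_zero _ (hb.ne t))
  have h1 := ha.dvd H hp hF (D := Int.natAbs
    (((p : ℤ) ^ i - 1) * (p ^ j' - 1) - (p ^ i' - 1) * (p ^ j - 1))) fun t ht => by
      rw [← zpow_natCast, Int.natCast_natAbs]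
      rcases abs_choice (((p : ℤ) ^ i - 1) * (p ^ j' - 1) - (p ^ i' - 1) * (p ^ j - 1)) with e | e
      · rw [e, hΔ t ht]
      · rw [e, zpow_neg, hΔ t ht, inv_one]
  have h2 : (p : ℤ) ^ d - 1 ∣
      d * (((p : ℤ) ^ i - 1) * (p ^ j' - 1) - (p ^ i' - 1) * (p ^ j - 1)) := by
    have := Int.natCast_dvd_natCast.2 h1
    rw [Nat.cast_sub (Nat.one_le_pow _ _ hp.pos), Nat.cast_mul, Int.natCast_natAbs,
      ← Nat.abs_cast (R := ℤ) d, ← abs_mul, dvd_abs] at this
    exact_mod_cast this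
  obtain ⟨rfl, rfl, h3⟩ := t3 p d i j i' j' hp (by omega) hi (by omega) hj (by omega) hi'
    (by omega) hj' (fun e => k3 (by rw [e, add_comm])) (fun e => k6 (by rw [e, add_comm])) k7 k8 k9
    h2
  refine ha.f81 E hF fun t ht => ?_
  cases nonempty_fintype F
  have h4 : a t ^ (80 : ℤ) = 1 := by
    have := FiniteField.pow_card_sub_one_eq_one (a t) (ha.ne t)
    rw [← Nat.card_eq_fintype_card, hF] at this
    exact_mod_cast this
  have h5 := hΔ t ht
  rw [← h3, ← zpow_natCast, Int.gcd_eq_gcd_ab, zpow_add₀ (ha.ne t), zpow_mul, zpow_mul, h4]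
  push_cast at h5
  rw [h5, one_zpow, one_zpow, one_mul]

theorem row : OfB2B := by
  intro E H Dg t3 A F _ _ _ _ β a b c s T
  classical
  cases nonempty_fintype F
  obtain ⟨p, _, n, hp, hF⟩ := FiniteField.card' F
  rw [← Nat.card_eq_fintype_card] at hF
  have fr := E.frob F p n hp hF
  have : Finite (F ≃+* F) := Nat.finite_of_card_ne_zero (by rw [fr.1]; exact n.ne_zero)
  cases nonempty_fintype (F ≃+* F)
  obtain ⟨C, hC⟩ := E.ex F β
  have ha : Coc s a := ⟨T.one.1, T.ma, T.sa⟩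
  have hb : Coc s b := ⟨T.one.2.1, T.mb, T.sb⟩
  have hc : Coc s c := ⟨T.one.2.2, T.mc, T.sc⟩
  have sup : ∀ σ τ, C σ τ ≠ 0 → ∀ t, s t = 1 → σ (a t) * τ (b t) = c t := by
    intro σ τ h0 t ht
    have h1 := E.un F (fun σ τ => C σ τ * (σ (a t) * τ (b t))) (fun σ τ => C σ τ * c t)
      fun x y => by
        have h2 : β (a t * x) (b t * y) = c t * β x y := by
          have := T.aut t x y
          rw [ht] at this
          exact this
        rw [hC, hC] at h2
        simp only [mul_sum, map_mul] at h2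
        refine Eq.trans ?_ (h2.trans ?_) <;>
          exact sum_congr rfl fun _ _ => sum_congr rfl fun _ _ => by ring
    exact mul_left_cancel₀ h0 (congrFun (congrFun h1 σ) τ)
  set S : Finset ((F ≃+* F) × (F ≃+* F)) := {u | C u.1 u.2 ≠ 0} with hS
  have hβ : ∀ x y, β x y = ∑ u ∈ S, C u.1 u.2 * u.1 x * u.2 y := fun x y => by
    rw [hC, ← Fintype.sum_prod_type' fun σ τ => C σ τ * σ x * τ y]
    refine (sum_subset (subset_univ S) fun u _ hu => ?_).symm
    have : C u.1 u.2 = 0 := by simpa [hS] using hu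
    rw [this, zero_mul, zero_mul]
  have h2 : S.card ≤ 2 := by
    by_contra hn
    obtain ⟨u, v, w, hu, hv, hw, n1, n2, n3⟩ := two_lt_card_iff.1 (not_le.1 hn)
    have rel : ∀ σ τ : F ≃+* F, ∃ i < (n : ℕ), ∀ x, τ x = σ x ^ p ^ i := fun σ τ => by
      obtain ⟨i, hi, e⟩ := fr.2.1 (σ.symm.trans τ)
      exact ⟨i, hi, fun x => by simpa using e (σ x)⟩
    obtain ⟨i, hi, ei⟩ := rel u.1 v.1
    obtain ⟨j, hj, ej⟩ := rel u.2 v.2
    obtain ⟨i', hi', ei'⟩ := rel u.1 w.1
    obtain ⟨j', hj', ej'⟩ := rel u.2 w.2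
    refine three E H Dg t3 (ha.tw E u.1) (hb.tw E u.2) hc hp hF hi hj hi' hj' ?_ ?_ ?_
      (sup _ _ (mem_filter.1 hu).2) (fun t ht => ?_) fun t ht => ?_
    · rintro ⟨rfl, rfl⟩
      exact n1 (Prod.ext (RingEquiv.ext fun x => by simp [ei]) (RingEquiv.ext fun x => by simp [ej]))
    · rintro ⟨rfl, rfl⟩
      exact n2 (Prod.ext (RingEquiv.ext fun x => by simp [ei'])
        (RingEquiv.ext fun x => by simp [ej']))
    · rintro ⟨rfl, rfl⟩
      exact n3 (Prod.ext (RingEquiv.ext fun x => by rw [ei, ei'])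
        (RingEquiv.ext fun x => by rw [ej, ej']))
    · rw [← ei, ← ej]; exact sup _ _ (mem_filter.1 hv).2 t ht
    · rw [← ei', ← ej']; exact sup _ _ (mem_filter.1 hw).2 t ht
  have h3 : S.card = 0 ∨ S.card = 1 ∨ S.card = 2 := by omega
  rcases h3 with h | h | h
  · refine ⟨.refl F, .refl F, .refl F, .refl F, 0, 0, fun x y => ?_⟩
    rw [hβ, card_eq_zero.1 h]; simp
  · obtain ⟨u, hu⟩ := card_eq_one.1 h
    refine ⟨u.1, u.2, .refl F, .refl F, C u.1 u.2, 0, fun x y => ?_⟩
    rw [hβ, hu]; simp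
  · obtain ⟨u, v, huv, hu⟩ := card_eq_two.1 h
    exact ⟨u.1, u.2, v.1, v.2, C u.1 u.2, C v.1 v.2, fun x y => by rw [hβ, hu, sum_pair huv]⟩

end Pool.Agent.MP_f8e15f_co.RB2B
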