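import Pool.Agent.MP_f8e15f_co.H33.Spec2

/-! Products with two terms. -/

namespace Pool.Agent.MP_f8e15f_co.RB2C

open H33

variable {F : Type} [Field F] [Finite F]

theorem fix_le (hE : EXP) (hD : DEG) (α γ : F ≃+* F) {c : F} (hc : c ≠ 0)
    (h : ∀ a, a ≠ 0 → ∃ b, b ≠ 0 ∧ ∃ s : F ≃+* F, α a * γ b * c = s c * a * b) (x : F)
    (hx : γ x = x) : α x = x := by
  classical
  have := Fintype.ofFinite F
  obtain ⟨p, hchar, d, hp, hd⟩ := FiniteField.card' F
  let K : Subfield F := RingHom.eqLocusField γ.toRingHom (RingHom.id F)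
  obtain ⟨M, -, hM⟩ := FiniteField.card K p
  obtain ⟨-, hf, -⟩ := hE.frob F p d hp (Nat.card_eq_fintype_card.trans hd)
  obtain ⟨i, -, hi⟩ := hf α
  obtain ⟨e, he⟩ : ∃ e : ℕ, ∀ y : F, ((Algebra.norm K y : K) : F) = y ^ e :=
    ⟨_, fun y => FiniteField.algebraMap_norm_eq_pow (K := K) (x := y)⟩
  have h0 : ∀ y : F, y ≠ 0 → Algebra.norm K y ≠ 0 := fun y hy => Algebra.norm_ne_zero_iff.2 hy
  have hpw : ∀ (y : K) (j : ℕ), y ^ p ^ j = y ^ p ^ (j % M) := fun y j => by
    conv_lhs => rw [← Nat.div_add_mod j M, pow_add, pow_mul, pow_mul, ← hM,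
      FiniteField.pow_card_pow]
  let g : Kˣ := Units.mk0 _ (h0 c hc)
  let φ : Kˣ →* Kˣ := powMonoidHom (p ^ i - 1)
  have h1 : (φ.range : Set Kˣ) ⊆ Set.range fun j : Fin M => g ^ p ^ (j : ℕ) * g⁻¹ := by
    rintro _ ⟨w, rfl⟩
    obtain ⟨a, ha⟩ := FiniteField.norm_surjective K F w
    obtain ⟨b, hb, s, e1⟩ := h a fun h => w.ne_zero (by rw [← ha, h, Algebra.norm_zero])
    obtain ⟨j, -, hj⟩ := hf s
    have e2 := congrArg (· ^ e) e1
    simp only [mul_pow, ← map_pow] at e2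
    simp only [← he, ha] at e2
    rw [show γ (Algebra.norm K b : K) = (Algebra.norm K b : K) from (Algebra.norm K b).2, hi, hj,
      mul_right_comm] at e2
    have e3 := mul_right_cancel₀ (fun h => h0 b hb (Subtype.ext h)) e2
    have e4 : (w : K) ^ p ^ i * g = (g : K) ^ p ^ j * w := Subtype.ext (by simpa [g] using e3)
    rw [hpw g j] at e4
    have e5 : w ^ p ^ i * g = g ^ p ^ (j % M) * w := Units.ext (by simpa using e4)
    refine ⟨⟨j % M, Nat.mod_lt _ M.pos⟩, ?_⟩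
    change g ^ p ^ (j % M) * g⁻¹ = w ^ (p ^ i - 1)
    rw [pow_sub _ (Nat.one_le_pow _ _ hp.pos), pow_one, mul_inv_eq_iff_eq_mul, mul_right_comm, e5,
      mul_inv_cancel_right]
  have h2 : Nat.card φ.range ≤ M := (Nat.card_mono (Set.toFinite _) h1).trans
    ((Finite.card_range_le _).trans (by simp))
  have h3 := hD p M (Nat.card φ.range) i hp Nat.card_pos h2 (by
    rw [← hM, ← FiniteField.forall_pow_eq_one_iff]
    intro w
    rw [mul_comm, pow_mul]
    exact congrArg Subtype.val (pow_card_eq_one' (x := (⟨φ w, w, rfl⟩ : φ.range))))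
  have h4 := congrArg Subtype.val (hpw ⟨x, hx⟩ i)
  rw [Nat.mod_eq_zero_of_dvd h3, pow_zero, pow_one] at h4
  rw [hi]
  exact h4

theorem tw_field {β : F →+ F →+ F} (nz : ∀ x y, β x y = 0 → x = 0 ∨ y = 0) (L N : F →+ F)
    (h : ∀ x y, β x y = L x * N y) : Tw β := by
  have hL : Function.Injective L := (injective_iff_map_eq_zero L).2 fun x hx =>
    (nz x 1 (by rw [h, hx, zero_mul])).resolve_right one_ne_zero
  have hN : Function.Injective N := (injective_iff_map_eq_zero N).2 fun y hy =>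
    (nz 1 y (by rw [h, hy, mul_zero])).resolve_left one_ne_zero
  exact ⟨fun x y => x * y, AddEquiv.ofBijective L hL.bijective_of_finite,
    AddEquiv.ofBijective N hN.bijective_of_finite, AddEquiv.refl F,
    Or.inr (Or.inl ⟨rfl, RingEquiv.refl F, RingEquiv.refl F, 0, fun x y => by simp,
      fun x y => mul_eq_zero.1, fun _ => Iff.rfl, fun _ _ => rfl⟩), h⟩

theorem row : H33.OfB2C := by
  intro hE hD A F _ _ _ _ β a b c s T σ τ σ' τ' k k' h
  by_cases hk : k = 0
  · exact tw_field T.nz ((AddMonoidHom.mulLeft k').comp σ'.toAddMonoidHom) τ'.toAddMonoidHom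
      fun x y => by simp [h, hk]
  by_cases hk' : k' = 0
  · exact tw_field T.nz ((AddMonoidHom.mulLeft k).comp σ.toAddMonoidHom) τ.toAddMonoidHom
      fun x y => by simp [h, hk']
  by_cases hσ : ∀ x, σ x = σ' x
  · exact tw_field T.nz σ.toAddMonoidHom ((AddMonoidHom.mulLeft k).comp τ.toAddMonoidHom +
      (AddMonoidHom.mulLeft k').comp τ'.toAddMonoidHom) fun x y => by simp [h, hσ]; ring
  obtain ⟨x₀, hx₀⟩ := not_forall.1 hσ
  have co : ∀ g, k * σ (a g) * τ (b g) = c g * s g k ∧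
      k' * σ' (a g) * τ' (b g) = c g * s g k' := by
    intro g
    have e1 := T.aut g 1 1
    have e2 := T.aut g x₀ 1
    simp only [h, map_mul, map_add, map_one, mul_one, hE.comm F σ, hE.comm F σ'] at e1 e2
    have e3 : s g (σ x₀) - s g (σ' x₀) ≠ 0 := fun e => hx₀ ((s g).injective (sub_eq_zero.1 e))
    have e4 : k * σ (a g) * τ (b g) = c g * s g k :=
      mul_right_cancel₀ e3 (by linear_combination e2 - s g (σ' x₀) * e1)
    exact ⟨e4, by linear_combination e1 - e4⟩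
  have ne : ∀ f : A → F, f 1 = 1 → (∀ g h, f (g * h) = f g * s g (f h)) → ∀ g, f g ≠ 0 :=
    fun f h1 hm g h0 => by
      have := hm g g⁻¹
      rw [mul_inv_cancel, h1, h0, zero_mul] at this
      exact one_ne_zero this
  have na : ∀ g, σ (a g) ≠ 0 := fun g => (map_ne_zero σ).2 (ne a T.one.1 T.ma g)
  have nb : ∀ g, τ (b g) ≠ 0 := fun g => (map_ne_zero τ).2 (ne b T.one.2.1 T.mb g)
  let α := σ.symm.trans σ'
  let γ := τ.symm.trans τ'
  have hα : ∀ x, α (σ x) = σ' x := fun x => by simp [α]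
  have hγ : ∀ x, γ (τ x) = τ' x := fun x => by simp [γ]
  have hc : -(k' / k) ≠ 0 := neg_ne_zero.2 (div_ne_zero hk' hk)
  have key : ∀ g, α (σ (a g)) * γ (τ (b g)) * -(k' / k) =
      s g (-(k' / k)) * σ (a g) * τ (b g) := by
    intro g
    have e0 : s g k ≠ 0 := (map_ne_zero _).2 hk
    rw [hα, hγ, map_neg, map_div₀]
    field_simp
    linear_combination s g k' * (co g).1 - s g k * (co g).2
  have f1 := fix_le hE hD α γ hc fun x hx => by
    obtain ⟨g, hg⟩ := T.sa (σ.symm x) ((map_ne_zero _).2 hx)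
    exact ⟨_, nb g, s g, by simpa only [hg, RingEquiv.apply_symm_apply] using key g⟩
  have f2 := fix_le hE hD γ α hc fun x hx => by
    obtain ⟨g, hg⟩ := T.sb (τ.symm x) ((map_ne_zero _).2 hx)
    have := key g
    rw [hg, RingEquiv.apply_symm_apply] at this
    exact ⟨_, na g, s g, by linear_combination this⟩
  have f3 := fix_le hE hD γ (γ.symm.trans α) hc fun z hz => by
    obtain ⟨g₁, h1⟩ := T.sc k hk
    obtain ⟨g₂, h2⟩ := T.sc (k * z) (mul_ne_zero hk hz)
    have h3 := T.mc (g₂ * g₁⁻¹) g₁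
    rw [inv_mul_cancel_right, h1, h2, ← (co _).1, mul_assoc] at h3
    have h4 := key (g₂ * g₁⁻¹)
    refine ⟨γ (σ (a (g₂ * g₁⁻¹))), (map_ne_zero _).2 (na _), s (g₂ * g₁⁻¹), ?_⟩
    rw [mul_left_cancel₀ hk h3, RingEquiv.trans_apply γ.symm, RingEquiv.symm_apply_apply,
      map_mul γ]
    linear_combination γ (σ (a (g₂ * g₁⁻¹))) * h4
  have hm : ∀ x y, k⁻¹ * β x y = σ x * τ y - -(k' / k) * α (σ x) * γ (τ y) := fun x y => by
    rw [h, hα, hγ]
    field_simp
    ring
  refine ⟨fun x y => x * y - -(k' / k) * α x * γ y, σ.toAddEquiv, τ.toAddEquiv,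
    DistribMulAction.toAddEquiv F (Units.mk0 k⁻¹ (inv_ne_zero hk)), Or.inr (Or.inl ⟨rfl, α, γ, _,
      fun _ _ => rfl, fun x y e => ?_, fun x => ⟨f2 x, f1 x⟩, fun x e => ?_⟩), hm⟩
  · obtain ⟨x, rfl⟩ := σ.surjective x
    obtain ⟨y, rfl⟩ := τ.surjective y
    rcases T.nz x y ((mul_eq_zero.1 ((hm x y).trans e)).resolve_left (inv_ne_zero hk)) with
      rfl | rfl
    · exact Or.inl (map_zero _)
    · exact Or.inr (map_zero _)
  · rw [e]
    refine f3 x ?_
    rw [RingEquiv.trans_apply γ.symm, hE.comm F α, e, RingEquiv.symm_apply_apply]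

end Pool.Agent.MP_f8e15f_co.RB2C
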