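import Pool.Agent.MP_f8e15f_co.H33.Spec2

/-!
Semilinear autotopisms over the field with 64 elements.
-/

open MulAction Pointwise

namespace Pool.Agent.MP_f8e15f_co.RB2S

open Pool.Agent.MP_f8e15f_co.H33

variable {A F : Type} [Group A] [Field F]

/-- A cocycle onto the non-zero elements. -/
structure Co (a : A → F) (s : A →* RingAut F) : Prop where
  one : a 1 = 1
  mul : ∀ g h, a (g * h) = a g * s g (a h)
  sur : ∀ x, x ≠ 0 → ∃ g, a g = x

variable {a : A → F} {s : A →* RingAut F}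

theorem Co.inv (h : Co a s) (g : A) : a g * s g (a g⁻¹) = 1 := by
  rw [← h.mul, mul_inv_cancel, h.one]

theorem Co.ne (h : Co a s) (g : A) : a g ≠ 0 := left_ne_zero_of_mul_eq_one (h.inv g)

theorem Co.pow (h : Co a s) {t : A} (ht : s t = 1) (n : ℕ) : a (t ^ n) = a t ^ n := by
  induction n with
  | zero => rw [pow_zero, pow_zero, h.one]
  | succ n ih => rw [pow_succ', h.mul, ht, ih, pow_succ']; rfl

theorem Co.conj (h : Co a s) {t : A} (ht : s t = 1) (g : A) : a (g * t * g⁻¹) = s g (a t) := by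
  have e : a (t * g⁻¹) = a t * a g⁻¹ := by rw [h.mul, ht]; rfl
  rw [mul_assoc, h.mul, e, map_mul, mul_left_comm, h.inv, mul_one]

theorem nz_card [Finite F] (hF : Nat.card F = 64) : ({0}ᶜ : Set F).ncard = 63 := by
  have := Set.ncard_add_ncard_compl ({0} : Set F)
  rw [Set.ncard_singleton, hF] at this
  omega

theorem Co.cover [Finite F] (h : Co a s) (hH : HUP) (hF : Nat.card F = 64) (T : Subgroup A) :
    63 ∣ T.index * (a '' T).ncard := by
  let : MulAction A F :=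
    { smul := fun g x => a g * s g x
      one_smul := fun x => by
        change a 1 * s 1 x = x
        rw [h.one, map_one, one_mul]
        rfl
      mul_smul := fun g g' x => by
        change a (g * g') * s (g * g') x = a g * s g (a g' * s g' x)
        rw [h.mul, map_mul, map_mul, mul_assoc]
        rfl }
  have e : ∀ g : A, g • (1 : F) = a g := fun g => by
    change a g * s g 1 = a g
    rw [map_one, mul_one]
  have e1 : orbit A (1 : F) = {0}ᶜ := by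
    ext x
    constructor
    · rintro ⟨g, rfl⟩
      exact fun h0 => h.ne g ((e g).symm.trans h0)
    · intro hx
      obtain ⟨g, hg⟩ := h.sur x hx
      exact ⟨g, (e g).trans hg⟩
  have e2 : orbit T (1 : F) = a '' T := by
    ext x
    constructor
    · rintro ⟨g, rfl⟩
      exact ⟨g.1, g.2, (e g.1).symm⟩
    · rintro ⟨g, hg, rfl⟩
      exact ⟨⟨g, hg⟩, e g⟩
  have := hH.orb A F T 1
  rwa [e1, e2, Nat.card_coe_set_eq, Nat.card_coe_set_eq, nz_card hF] at this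

/-- Elements of order a power of seven. -/
def Sev (t : A) : Prop := ∃ k : ℕ, t ^ 7 ^ k = 1

theorem Sev.conj {t : A} (h : Sev t) (g : A) : Sev (g * t * g⁻¹) :=
  h.imp fun k hk => by rw [conj_pow, hk, mul_one, mul_inv_cancel]

theorem Sev.aut {t : A} (h : Sev t) (h6 : Nat.card (RingAut F) = 6) (s : A →* RingAut F) :
    s t = 1 := by
  obtain ⟨k, hk⟩ := h
  refine (pow_eq_one_iff_of_coprime (Nat.Coprime.pow_left k (by norm_num : Nat.Coprime 7 6))).1
    ⟨by rw [← map_pow, hk, map_one], ?_⟩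
  rw [← h6]
  exact pow_card_eq_one'

theorem Co.sev [Finite F] (h : Co a s) (hF : Nat.card F = 64) (h6 : Nat.card (RingAut F) = 6)
    {t : A} (ht : Sev t) : a t ^ 7 = 1 := by
  have h1 := ht.aut h6 s
  obtain ⟨k, hk⟩ := ht
  let := Fintype.ofFinite F
  have h2 := FiniteField.pow_card_sub_one_eq_one _ (h.ne t)
  rw [← Nat.card_eq_fintype_card, hF] at h2
  refine (pow_eq_one_iff_of_coprime (Nat.Coprime.pow_left k (by norm_num : Nat.Coprime 7 9))).1
    ⟨?_, by rw [← pow_mul]; exact h2⟩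
  rw [← pow_mul, mul_comm, pow_mul, ← h.pow h1, hk, h.one, one_pow]

theorem Co.ex [Finite A] [Finite F] (h : Co a s) (hH : HUP) (hF : Nat.card F = 64) :
    ∃ t, Sev t ∧ a t ≠ 1 := by
  have : Fact (Nat.Prime 7) := ⟨by norm_num⟩
  obtain ⟨P⟩ : Nonempty (Sylow 7 A) := inferInstance
  by_contra hn
  have e : a '' (P : Subgroup A) = {1} := by
    refine Set.eq_singleton_iff_unique_mem.2 ⟨⟨1, one_mem _, h.one⟩, ?_⟩
    rintro _ ⟨t, ht, rfl⟩
    by_contra h1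
    obtain ⟨k, hk⟩ := P.isPGroup' ⟨t, ht⟩
    exact hn ⟨t, ⟨k, congrArg Subtype.val hk⟩, h1⟩
  have := h.cover hH hF P
  rw [e, Set.ncard_singleton, mul_one] at this
  exact P.not_dvd_index ((by norm_num : 7 ∣ 63).trans this)

theorem Co.sub [Finite F] (h : Co a s) (hH : HUP) (hF : Nat.card F = 64) {T : Subgroup A} {n : ℕ}
    (hT : T.index = 2 ^ n) (x : F) (hx : x ≠ 0) : ∃ g : T, a g = x := by
  have h1 := h.cover hH hF T
  rw [hT] at h1
  have h2 := (Nat.Coprime.pow_right n (by norm_num : Nat.Coprime 63 2)).dvd_of_dvd_mul_left h1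
  have h3 : a '' T ⊆ {0}ᶜ := by
    rintro _ ⟨g, -, rfl⟩
    exact h.ne g
  have h4 : 0 < (a '' T).ncard := (Set.ncard_pos (Set.toFinite _)).2 ⟨_, 1, one_mem _, rfl⟩
  have h5 := Set.eq_of_subset_of_ncard_le h3 (by rw [nz_card hF]; exact Nat.le_of_dvd h4 h2)
  obtain ⟨g, hg, e⟩ := h5.ge hx
  exact ⟨⟨g, hg⟩, e⟩

theorem alg {x y : F} (hx : x ≠ 0) {l m n : ℕ} (h1 : (x * y) ^ n = x ^ l * y ^ m)
    (h2 : (x ^ l * y ^ m) ^ n = (x ^ l) ^ l * (y ^ m) ^ m) :
    y ^ (m * n + m * l) = y ^ (m * m + n * l) := by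
  refine mul_left_cancel₀ (pow_ne_zero (l * n + l * l) hx) ?_
  calc _ = (x ^ l * y ^ m) ^ n * (x ^ l * y ^ m) ^ l := by ring
    _ = (x ^ l) ^ l * (y ^ m) ^ m * ((x * y) ^ n) ^ l := by rw [h2, h1]
    _ = _ := by ring

theorem modeq {x : F} (h7 : x ^ 7 = 1) (h1 : x ≠ 1) {m n : ℕ} (h : x ^ m = x ^ n) :
    m % 7 = n % 7 := by
  have : Fact (Nat.Prime 7) := ⟨by norm_num⟩
  have := (isOfFinOrder_iff_pow_eq_one.2 ⟨7, by norm_num, h7⟩).pow_eq_pow_iff_modEq.1 h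
  rwa [orderOf_eq_prime h7 h1] at this

theorem num1 : ∀ i < 6, ∀ j < 6, ∀ k < 6,
    (2 ^ j * 2 ^ k + 2 ^ j * 2 ^ i) % 7 = (2 ^ j * 2 ^ j + 2 ^ k * 2 ^ i) % 7 →
    (2 ^ i * 2 ^ k + 2 ^ i * 2 ^ j) % 7 = (2 ^ i * 2 ^ i + 2 ^ k * 2 ^ j) % 7 →
    2 ^ j % 7 = 2 ^ i % 7 := by decide

theorem num2 : ∀ i < 6, ∀ j < 6, 2 ^ j % 7 = 2 ^ i % 7 → (j + j) % 6 = (i + i) % 6 := by decide

theorem red [Finite F] (hF : Nat.card F = 64) (n : ℕ) (x : F) : x ^ 2 ^ (n % 6) = x ^ 2 ^ n := by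
  let := Fintype.ofFinite F
  have e : 2 ^ 6 = Fintype.card F := by rw [← Nat.card_eq_fintype_card, hF]; norm_num
  conv_rhs => rw [← Nat.div_add_mod n 6, pow_add, pow_mul, pow_mul, e, FiniteField.pow_card_pow]

theorem sq_eq [Finite F] (hF : Nat.card F = 64) {σ τ : RingAut F} {i j : ℕ} (hi : i < 6)
    (hj : j < 6) (hσ : ∀ x, σ x = x ^ 2 ^ i) (hτ : ∀ x, τ x = x ^ 2 ^ j)
    (h : 2 ^ j % 7 = 2 ^ i % 7) : τ * τ = σ * σ := by
  ext x
  change τ (τ x) = σ (σ x)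
  rw [hτ, hτ, hσ, hσ, ← pow_mul, ← pow_mul, ← pow_add, ← pow_add, ← red hF, num2 i hi j hj h,
    red hF]

theorem row : OfB2S := by
  intro hE hH A F _ _ _ _ β a b c s₁ s₂ s₃ hF h
  have ca : Co a s₁ := ⟨h.one.1, h.ma, h.sa⟩
  have cb : Co b s₂ := ⟨h.one.2.1, h.mb, h.sb⟩
  have cc : Co c s₃ := ⟨h.one.2.2, h.mc, h.sc⟩
  obtain ⟨h6, hfr, -⟩ := hE.frob F 2 6 Nat.prime_two hF
  have : Finite (F ≃+* F) := Nat.finite_of_card_ne_zero (by rw [h6]; norm_num)
  let := Fintype.ofFinite F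
  let := Fintype.ofFinite (F ≃+* F)
  obtain ⟨k, hk⟩ := hE.ex F β
  obtain ⟨σ, τ, k0⟩ : ∃ σ τ, k σ τ ≠ 0 := by
    by_contra hn
    push Not at hn
    simpa using h.nz 1 1 (by simp [hk, hn])
  have rel : ∀ t, Sev t → c t = σ (a t) * τ (b t) := fun t ht => by
    have e := hE.un F (fun σ τ => k σ τ * (σ (a t) * τ (b t))) (fun σ τ => k σ τ * c t)
      fun x y => by
        have e := h.aut t x y
        rw [ht.aut h6 s₁, ht.aut h6 s₂, ht.aut h6 s₃] at e
        change β (a t * x) (b t * y) = c t * β x y at e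
        rw [hk, hk, Finset.mul_sum] at e
        refine Eq.trans ?_ (e.trans ?_) <;> refine Finset.sum_congr rfl fun σ _ => ?_
        · exact Finset.sum_congr rfl fun τ _ => by rw [map_mul, map_mul]; ring
        · rw [Finset.mul_sum]
          exact Finset.sum_congr rfl fun τ _ => by ring
    exact (mul_left_cancel₀ k0 (congrFun (congrFun e σ) τ)).symm
  have key : ∀ g, s₂ g * s₂ g = s₁ g * s₁ g ∧ s₃ g * s₃ g = s₁ g * s₁ g := fun g => by
    obtain ⟨i, hi, ei⟩ := hfr (s₁ g)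
    obtain ⟨j, hj, ej⟩ := hfr (s₂ g)
    obtain ⟨l, hl, el⟩ := hfr (s₃ g)
    have r1 : ∀ t, Sev t →
        (σ (a t) * τ (b t)) ^ 2 ^ l = σ (a t) ^ 2 ^ i * τ (b t) ^ 2 ^ j := fun t ht => by
      have e := rel _ (ht.conj g)
      rwa [ca.conj (ht.aut h6 _), cb.conj (ht.aut h6 _), cc.conj (ht.aut h6 _), ei, ej, el,
        map_pow, map_pow, rel t ht] at e
    have r2 : ∀ t, Sev t → (σ (a t) ^ 2 ^ i * τ (b t) ^ 2 ^ j) ^ 2 ^ l =
        (σ (a t) ^ 2 ^ i) ^ 2 ^ i * (τ (b t) ^ 2 ^ j) ^ 2 ^ j := fun t ht => by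
      have e := r1 _ (ht.conj g)
      rwa [ca.conj (ht.aut h6 _), cb.conj (ht.aut h6 _), ei, ej, map_pow, map_pow] at e
    have pa : ∀ t, Sev t → σ (a t) ^ 7 = 1 := fun t ht => by
      rw [← map_pow, ca.sev hF h6 ht, map_one]
    have pb : ∀ t, Sev t → τ (b t) ^ 7 = 1 := fun t ht => by
      rw [← map_pow, cb.sev hF h6 ht, map_one]
    obtain ⟨t₁, v₁, n₁⟩ := ca.ex hH hF
    obtain ⟨t₂, v₂, n₂⟩ := cb.ex hH hF
    obtain ⟨t₃, v₃, n₃⟩ := cc.ex hH hF
    have m₂ := modeq (pb _ v₂) (fun e => n₂ (τ.injective (e.trans (map_one τ).symm)))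
      (alg ((map_ne_zero σ).2 (ca.ne _)) (r1 _ v₂) (r2 _ v₂))
    have m₁ := modeq (pa _ v₁) (fun e => n₁ (σ.injective (e.trans (map_one σ).symm)))
      (alg (x := τ (b t₁)) (l := 2 ^ j) (m := 2 ^ i) (n := 2 ^ l) ((map_ne_zero τ).2 (cb.ne _))
        (by rw [mul_comm, r1 _ v₁, mul_comm]) (by rw [mul_comm, r2 _ v₁, mul_comm]))
    have m := num1 i hi j hj l hl m₂ m₁
    have m₃ : 2 ^ l % 7 = 2 ^ i % 7 := by
      refine modeq (cc.sev hF h6 v₃) n₃ ?_
      rw [rel _ v₃, r1 _ v₃, mul_pow, pow_eq_pow_of_modEq m (pb _ v₃)]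
    exact ⟨sq_eq hF hi hj ei ej m, sq_eq hF hi hl ei el m₃⟩
  have cm : ∀ (s : A →* RingAut F) (g t : A), s (g * t * g⁻¹) = s t := fun s g t => by
    have e : s g * s t = s t * s g := RingEquiv.ext fun x => hE.comm F _ _ x
    rw [map_mul, map_mul, e, map_inv, mul_inv_cancel_right]
  set H : Subgroup A := s₂.eqLocus s₁ ⊓ s₃.eqLocus s₁ with hHd
  have mem : ∀ g, g ∈ H ↔ s₂ g = s₁ g ∧ s₃ g = s₁ g := fun g => Iff.rfl
  have : H.Normal := ⟨fun t ht g => (mem _).2 (by rw [cm, cm, cm]; exact (mem t).1 ht)⟩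
  have pg : IsPGroup 2 (A ⧸ H) := fun q => by
    obtain ⟨g, rfl⟩ := QuotientGroup.mk_surjective q
    refine ⟨1, ?_⟩
    rw [pow_one, ← QuotientGroup.mk_pow, QuotientGroup.eq_one_iff, mem, sq, map_mul, map_mul,
      map_mul]
    exact key g
  obtain ⟨n, hn⟩ := IsPGroup.iff_card.1 pg
  refine ⟨H, h.nz, h.one, fun g g' => h.ma g g', fun g g' => ?_, fun g g' => ?_, fun g x y => ?_,
    ca.sub hH hF hn, cb.sub hH hF hn, cc.sub hH hF hn⟩
  · have := h.mb g g'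
    rwa [((mem _).1 g.2).1] at this
  · have := h.mc g g'
    rwa [((mem _).1 g.2).2] at this
  · have := h.aut g x y
    rwa [((mem _).1 g.2).1, ((mem _).1 g.2).2] at this

end Pool.Agent.MP_f8e15f_co.RB2S
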