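import Pool.Agent.MP_f8e15f_co.H33.Spec2

/-! Semilinear autotopism groups in coordinates; isotopic bilinear maps give isomorphic designs. -/

open MulAction Pointwise

namespace Pool.Agent.MP_f8e15f_co.RB2T

open Pool.Agent.MP_f8e15f_co.H33 Pool.Agent.MP_f8e15f_co.H24

theorem coord {A X : Type} [Group A] [AddCommGroup X] [DistribMulAction A X] (hS : Semi A X)
    (hT : Tr1 A X) (F : Type) [Field F] [Finite F] (hF : Nat.card X = Nat.card F) :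
    ∃ (e : X ≃+ F) (a : A → F) (s : A →* RingAut F), (∀ g x, e (g • x) = a g * s g (e x)) ∧
      a 1 = 1 ∧ (∀ g h, a (g * h) = a g * s g (a h)) ∧ ∀ x, x ≠ 0 → ∃ g, a g = x := by
  obtain ⟨K, _, _, e', he⟩ := hS
  have := Fintype.ofFinite F
  have := Fintype.ofFinite K
  let φ : K ≃+* F := FiniteField.ringEquivOfCardEq (by
    rw [← Nat.card_eq_fintype_card, ← Nat.card_eq_fintype_card, ← hF, Nat.card_congr e'.toEquiv])
  obtain ⟨e, h⟩ : ∃ e : X ≃+ F, ∀ g : A, ∃ (a : F) (σ : F ≃+* F), ∀ x, e (g • x) = a * σ (e x) :=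
    ⟨e'.trans φ.toAddEquiv, fun g => by
      obtain ⟨a, σ, h⟩ := he g
      exact ⟨φ a, (φ.symm.trans σ).trans φ, fun x => by simp [h]⟩⟩
  choose a σ h using h
  have h1 : ∀ g, a g = e (g • e.symm 1) := fun g => by rw [h, e.apply_symm_apply, map_one, mul_one]
  have n1 : e.symm 1 ≠ 0 := by simp
  have h0 : ∀ g, a g ≠ 0 := fun g => by
    rw [h1, e.map_ne_zero_iff, smul_ne_zero_iff_ne]
    exact n1
  have hm : ∀ g k, a (g * k) = a g * σ g (a k) := fun g k => by rw [h1, mul_smul, h, ← h1]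
  refine ⟨e, a, MonoidHom.mk' σ fun g k => RingEquiv.ext fun y => ?_, h, by simp [h1], hm,
    fun x hx => ?_⟩
  · obtain ⟨x, rfl⟩ := e.surjective y
    refine mul_left_cancel₀ (h0 (g * k)) ?_
    rw [← h, mul_smul, h, h, map_mul, hm, mul_assoc]
    rfl
  · obtain ⟨g, hg⟩ := hT (e.symm 1) (e.symm x) n1 (by simpa using hx)
    exact ⟨g, by rw [h1, hg, e.apply_symm_apply]⟩

theorem b2t : B2T := by
  intro A X Y N _ _ _ _ _ _ _ _ _ _ _ _ β hB p d hF sX sY sN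
  obtain ⟨F, _, _, e₀, -⟩ := id sX
  have cF : Nat.card F = p ^ d := (Nat.card_congr e₀.toEquiv).symm.trans hF.cX
  obtain ⟨e₁, a, s₁, a1, a2, a3, a4⟩ := coord sX hB.tx F (hF.cX.trans cF.symm)
  obtain ⟨e₂, b, s₂, b1, b2, b3, b4⟩ := coord sY hB.ty F (hF.cY.trans cF.symm)
  obtain ⟨e₃, c, s₃, c1, c2, c3, c4⟩ := coord sN hB.tn F (hF.cN.trans cF.symm)
  obtain ⟨β', hβ⟩ : ∃ β' : F →+ F →+ F, ∀ x y, β' (e₁ x) (e₂ y) = e₃ (β x y) :=
    ⟨((β.comp e₁.symm.toAddMonoidHom).compl₂ e₂.symm.toAddMonoidHom).compr₂ e₃.toAddMonoidHom,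
      fun x y => by simp⟩
  refine ⟨F, inferInstance, inferInstance, β', a, b, c, s₁, s₂, s₃, cF,
    ⟨fun x y h => ?_, ⟨a2, b2, c2⟩, a3, b3, c3, fun g x y => ?_, a4, b4, c4⟩, ?_⟩
  · obtain ⟨x, rfl⟩ := e₁.surjective x
    refine or_iff_not_imp_left.2 fun hx => ?_
    have hs : Function.Surjective (β' (e₁ x)) := fun z => by
      obtain ⟨t, ht⟩ := hB.sx x (by simpa using hx) (e₃.symm z)
      exact ⟨e₂ t, by rw [hβ, ht, e₃.apply_symm_apply]⟩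
    exact Finite.injective_iff_surjective.2 hs (h.trans (map_zero _).symm)
  · obtain ⟨x, rfl⟩ := e₁.surjective x
    obtain ⟨y, rfl⟩ := e₂.surjective y
    rw [← a1, ← b1, hβ, hβ, hB.eqv, c1]
  · rintro ⟨m, f₁, f₂, f₃, hm, h⟩
    refine ⟨F, inferInstance, inferInstance, ⊥, m, e₁.trans f₁, e₂.trans f₂,
      e₃.trans (f₃.trans QuotientAddGroup.quotientBot.symm), hm, fun x y => ?_⟩
    simp only [AddEquiv.trans_apply, ← hβ, h]
    rfl

theorem bmm : BMM := by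
  rintro X Y N _ _ _ β ⟨F, _, _, U, m, e₁, e₂, e₃, hm, h⟩
  refine ⟨_, _, Listed.graph F U m hm, e₁.toEquiv.prodCongr e₃.toEquiv, ?_⟩
  have key : ∀ y w, (e₁.toEquiv.prodCongr e₃.toEquiv) '' {z : X × N | z.2 = β z.1 y + w} =
      {z | z.2 = (m z.1 (e₂ y) : F ⧸ U) + e₃ w} := fun y w => by
    ext z
    obtain ⟨⟨x, n⟩, rfl⟩ := (e₁.toEquiv.prodCongr e₃.toEquiv).surjective z
    rw [(Equiv.injective _).mem_set_image]
    change n = β x y + w ↔ e₃ n = (m (e₁ x) (e₂ y) : F ⧸ U) + e₃ w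
    rw [← h, ← map_add, e₃.apply_eq_iff_eq]
  ext S
  constructor
  · rintro ⟨_, ⟨y, w, rfl⟩, rfl⟩
    exact ⟨_, _, key y w⟩
  · rintro ⟨y, w, rfl⟩
    obtain ⟨y, rfl⟩ := e₂.surjective y
    obtain ⟨w, rfl⟩ := e₃.surjective w
    exact ⟨_, ⟨y, w, rfl⟩, key y w⟩

theorem row : H33.OfB2T := fun _ => ⟨b2t, bmm⟩

end Pool.Agent.MP_f8e15f_co.RB2T
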