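import Pool.Agent.MP_f8e15f_co.H33.Spec2

open MulAction Pointwise

namespace Pool.Agent.MP_f8e15f_co.RB3

open Pool.Agent.MP_f8e15f_co.H33 Pool.Agent.MP_f8e15f_co.H24

section one
variable {A W : Type} [Group A] [AddCommGroup W] [DistribMulAction A W]

theorem zn : (Zpm A W).Normal := ⟨fun n hn g => by
  rcases hn with h | h
  · exact Or.inl fun x => by rw [mul_smul, mul_smul, h, smul_inv_smul]
  · exact Or.inr fun x => by rw [mul_smul, mul_smul, h, smul_neg, smul_inv_smul]⟩

theorem odd_pow (g h : A) (e : ∀ w : W, h • w = -(g • w)) (n : ℕ) (w : W) :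
    h ^ n • w = (-1 : ℤ) ^ n • g ^ n • w := by
  induction n with
  | zero => simp
  | succ n ih =>
    rw [pow_succ' h, mul_smul, ih, e, pow_succ' g, mul_smul, pow_succ, mul_smul, neg_smul,
      one_smul, smul_neg]
    exact congrArg Neg.neg (map_zsmul (DistribSMul.toAddMonoidHom W g) _ _)

theorem pw (M : Type) [AddCommGroup M] [Finite M] (h : ∀ m : M, 3 • m = 0) :
    ∃ k, Nat.card M = 3 ^ k := by
  let : Module (ZMod 3) M := AddCommGroup.zmodModule h
  exact ⟨_, by rw [Module.natCard_eq_pow_finrank (K := ZMod 3), Nat.card_zmod]⟩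

theorem gens [Finite W] (h : ∀ m : W, 3 • m = 0) (c : Nat.card W = 3 ^ 4) :
    ∃ b : Fin 4 → W, ∀ (M : Type) [AddCommGroup M] (f g : W →+ M), (∀ i, f (b i) = g (b i)) →
      f = g := by
  let : Module (ZMod 3) W := AddCommGroup.zmodModule h
  have hf : Module.finrank (ZMod 3) W = 4 := by
    rw [Module.natCard_eq_pow_finrank (K := ZMod 3), Nat.card_zmod] at c
    exact Nat.pow_right_injective (by norm_num) c
  let b := Module.finBasisOfFinrankEq (ZMod 3) W hf
  refine ⟨b, fun M _ f g e => ?_⟩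
  ext x
  rw [← b.sum_repr x, map_sum, map_sum]
  refine Finset.sum_congr rfl fun i _ => ?_
  rw [← ZMod.natCast_zmod_val (b.repr x i), Nat.cast_smul_eq_nsmul, map_nsmul, map_nsmul, e]

theorem fixall (M : Type) [AddCommGroup M] [Finite M] (h : ∀ m : M, 3 • m = 0)
    (c : Nat.card M ≤ 81) (D : M →+ M) (k : ℕ) (hD : ∀ m, D^[5 ^ k] m = m) (m₀ : M) (h0 : m₀ ≠ 0)
    (h1 : D m₀ = m₀) (m : M) : D m = m := by
  classical
  have := Fintype.ofFinite M
  have : Fact (Nat.Prime 5) := ⟨by norm_num⟩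
  let F : AddSubgroup M := D.eqLocus (AddMonoidHom.id M)
  have hm : Nat.card M ≡ Nat.card F [MOD 5] := by
    let D' : Function.End M := ⇑D
    have := Equiv.Perm.card_fixedPoints_modEq (f := D') (p := 5) (n := k) (by
      funext m
      have : ∀ n : ℕ, (D' ^ n) m = D^[n] m := fun n => by
        induction n with
        | zero => rfl
        | succ n ih => rw [pow_succ', Function.iterate_succ_apply', ← ih]; rfl
      rw [this, hD]; rfl)
    rw [← Nat.card_eq_fintype_card, ← Nat.card_eq_fintype_card] at this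
    exact this
  obtain ⟨a, ha⟩ := pw M h
  obtain ⟨f, hf⟩ := pw F fun x => Subtype.ext (h x.1)
  have hle : Nat.card F ≤ Nat.card M := Nat.card_le_card_of_injective _ Subtype.val_injective
  have : Nontrivial F := ⟨⟨⟨m₀, h1⟩, 0, fun e => h0 (congrArg Subtype.val e)⟩⟩
  have h1' : 1 < Nat.card F := Finite.one_lt_card
  have hE : Nat.card F = Nat.card M := by
    rw [ha] at c
    rw [hf] at h1'
    rw [ha, hf] at hm hle ⊢
    have ha4 : a ≤ 4 := (Nat.pow_le_pow_iff_right (by norm_num : 1 < 3)).1 (c.trans_eq (by norm_num))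
    have hfa : f ≤ a := (Nat.pow_le_pow_iff_right (by norm_num : 1 < 3)).1 hle
    interval_cases a <;> interval_cases f <;> simp_all [Nat.ModEq]
  have := AddSubgroup.eq_top_of_card_eq F hE
  have hm : m ∈ F := this ▸ AddSubgroup.mem_top m
  exact hm

variable [Module (ZMod 3) W]

theorem sc (g : A) (c : ZMod 3) (w : W) : g • c • w = c • g • w :=
  ZMod.map_smul (DistribSMul.toAddMonoidHom W g) c w

def Chi (W : Type) [AddCommGroup W] [DistribMulAction A W] [Module (ZMod 3) W] (E : Subgroup A)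
    (χ : E → E →* ZMod 3) : Prop :=
  ∀ (a x : E) (w : W), a.1 • x.1 • w = χ a x • x.1 • a.1 • w

theorem uniq [Nontrivial W] (x : A) (c c' : ZMod 3) (h : ∀ w : W, c • x • w = c' • x • w) :
    c = c' := by
  obtain ⟨w, hw⟩ := exists_ne (0 : W)
  have := h (x⁻¹ • w)
  rw [smul_inv_smul] at this
  exact smul_left_injective (ZMod 3) hw this

theorem chi [Nontrivial W] (E : Subgroup A)
    (hc : ∀ x ∈ E, ∀ y ∈ E, x * y * x⁻¹ * y⁻¹ ∈ Zpm A W) : ∃ χ, Chi W E χ := by
  have : ∀ a x : E, ∃ c : ZMod 3, ∀ w : W, a.1 • x.1 • w = c • x.1 • a.1 • w := fun a x => by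
    have e : ∀ w : W, a.1 • x.1 • w = (a.1 * x.1 * a.1⁻¹ * x.1⁻¹) • x.1 • a.1 • w := fun w => by
      simp [mul_smul]
    rcases hc a a.2 x x.2 with h | h
    · exact ⟨1, fun w => by rw [e, h, one_smul]⟩
    · exact ⟨-1, fun w => by rw [e, h, neg_smul, one_smul]⟩
  choose c hc using this
  refine ⟨fun a => ⟨⟨c a, ?_⟩, fun x y => ?_⟩, hc⟩
  · refine uniq (W := W) a.1 _ _ fun w => ?_
    have := hc a 1 w
    simp only [OneMemClass.coe_one, one_smul] at this
    rw [← this, one_smul]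
  · refine uniq (W := W) ((x * y).1 * a.1) _ _ fun w => ?_
    change c a (x * y) • _ = (c a x * c a y) • _
    rw [mul_smul (x * y).1, ← hc a (x * y) w, Subgroup.coe_mul, mul_smul x.1, hc a x, hc a y, sc,
      mul_smul, mul_smul]

theorem Chi.triv [Nontrivial W] {E : Subgroup A} {χ : E → E →* ZMod 3} (h : Chi W E χ) (a x : E)
    (hx : x.1 ∈ Zpm A W) : χ a x = 1 := by
  refine uniq (W := W) (x.1 * a.1) _ _ fun w => ?_
  rw [mul_smul, ← h, one_smul]
  rcases hx with e | e
  · rw [e, e]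
  · rw [e, e, smul_neg]

theorem Chi.inj {E : Subgroup A} (hE : E.Normal) {χ : E → E →* ZMod 3} (h : Chi W E χ)
    (hm : ∀ B : Subgroup A, B.Normal → (∀ x ∈ B, ∀ y ∈ B, ∀ v : W, x • y • v = y • x • v) →
      B ≤ Zpm A W) (a b : E) (e : χ a = χ b) : a.1⁻¹ * b.1 ∈ Zpm A W := by
  let B : Subgroup A :=
    { carrier := {s | s ∈ E ∧ ∀ x ∈ E, ∀ w : W, s • x • w = x • s • w}
      one_mem' := ⟨E.one_mem, fun x _ w => by simp⟩
      mul_mem' := fun {s t} hs ht => ⟨E.mul_mem hs.1 ht.1, fun x hx w => by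
        rw [mul_smul, ht.2 x hx, hs.2 x hx, mul_smul]⟩
      inv_mem' := fun {s} hs => ⟨E.inv_mem hs.1, fun x hx w => by
        rw [inv_smul_eq_iff, hs.2 x hx, smul_inv_smul]⟩ }
  have hB : B.Normal := ⟨fun s hs g => ⟨hE.conj_mem s hs.1 g, fun x hx w => by
    have := hs.2 (g⁻¹ * x * g⁻¹⁻¹) (hE.conj_mem x hx g⁻¹) (g⁻¹ • w)
    simp only [mul_smul, inv_inv, smul_inv_smul] at this ⊢
    rw [this, smul_inv_smul]⟩⟩
  refine hm B hB (fun x hx y hy v => hx.2 y hy.1 v) ⟨E.mul_mem (E.inv_mem a.2) b.2, ?_⟩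
  intro x hx w
  rw [mul_smul, inv_smul_eq_iff, h b ⟨x, hx⟩, h a ⟨x, hx⟩, mul_smul, smul_inv_smul, e]

theorem Chi.ind {T ι : Type} [MulAction A T] {E : Subgroup A} {χ : E → E →* ZMod 3}
    (h : Chi W E χ) (r : ι → E) (hr : Function.Injective fun i => χ (r i)) (s : Finset ι) :
    ∀ γ : ι → T → W, (∀ i (x : E) t, γ i (x.1 • t) = x.1 • γ i t) →
      (∀ t, ∑ i ∈ s, (r i).1 • γ i t = 0) → ∀ i ∈ s, ∀ t, γ i t = 0 := by
  classical
  induction s using Finset.strongInduction with
  | H s ih =>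
    intro γ he hs i hi t
    by_cases hj : ∃ j ∈ s, j ≠ i
    · obtain ⟨j, hjs, hji⟩ := hj
      obtain ⟨x, hx⟩ : ∃ x, χ (r i) x ≠ χ (r j) x := by
        by_contra hh
        push Not at hh
        exact hji (hr (MonoidHom.ext hh)).symm
      have key : ∀ t, ∑ k ∈ s, (r k).1 • (χ (r k) x - χ (r j) x) • γ k t = 0 := fun t => by
        have e1 := hs (x.1 • t)
        simp only [he, h _ x, ← sc, ← Finset.smul_sum] at e1
        rw [smul_eq_zero_iff_eq] at e1
        simp only [sub_smul, smul_sub, Finset.sum_sub_distrib, e1]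
        simp only [sc, ← Finset.smul_sum, hs t, smul_zero, sub_zero]
      have := ih (s.erase j) (Finset.erase_ssubset hjs)
        (fun k t => (χ (r k) x - χ (r j) x) • γ k t) (fun k y t => by rw [he, sc])
        (fun t => by rw [Finset.sum_erase _ (by simp), key]) i
        (Finset.mem_erase.2 ⟨hji.symm, hi⟩) t
      exact (smul_eq_zero.1 this).resolve_left (sub_ne_zero.2 hx)
    · push Not at hj
      have := hs t
      rw [Finset.sum_eq_single_of_mem i hi fun k hk hki => absurd (hj k hk) hki] at this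
      exact (smul_eq_zero_iff_eq _).1 this

theorem Chi.bnd {T ι L : Type} [MulAction A T] [Finite ι] [AddCommGroup L] [Finite L]
    {E : Subgroup A} {χ : E → E →* ZMod 3} (h : Chi W E χ) (r : ι → E)
    (hr : Function.Injective fun i => χ (r i)) (ev : L →+ T → W) (hev : Function.Injective ev)
    (m : A → L → L) (hm : ∀ a γ t, ev (m a γ) t = a • ev γ t) (H : Set L)
    (hH : ∀ γ ∈ H, ∀ (x : E) t, ev γ (x.1 • t) = x.1 • ev γ t) :
    Nat.card H ^ Nat.card ι ≤ Nat.card L := by
  have := Fintype.ofFinite ι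
  rw [← Nat.card_fun]
  refine Nat.card_le_card_of_injective (fun f : ι → H => ∑ i, m (r i) (f i)) fun f f' e => ?_
  funext i
  refine Subtype.ext (hev (funext fun t => sub_eq_zero.1 ?_))
  refine h.ind r hr Finset.univ (fun i t => ev (f i) t - ev (f' i) t) (fun i x t => ?_)
    (fun t => ?_) i (Finset.mem_univ i) t
  · rw [hH _ (f i).2, hH _ (f' i).2, smul_sub]
  · have := congrArg (fun γ => ev γ t) e
    simp only [map_sum, Finset.sum_apply, hm] at this
    simp only [smul_sub, Finset.sum_sub_distrib, this, sub_self]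

end one

theorem homs (Q : Type) [Group Q] [Finite Q] (ψ : Q → Q →* ZMod 3) (h : Function.Injective ψ) :
    Function.Surjective ψ := by
  have := Fintype.ofFinite Q
  have : Finite (Q →* ZMod 3) := Finite.of_injective _ DFunLike.coe_injective
  have := Fintype.ofFinite (Q →* ZMod 3)
  have := (linearIndependent_monoidHom Q (ZMod 3)).fintype_card_le_finrank
  rw [Module.finrank_fintype_fun_eq_card] at this
  exact ((Fintype.bijective_iff_injective_and_card ψ).2
    ⟨h, le_antisymm (Fintype.card_le_of_injective ψ h) this⟩).2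

theorem row : B3 := by
  intro A X Y N _ _ _ _ _ _ _ _ _ _ _ _ β hb bf cXY cXN cYX cNX eX eY eN
  classical
  have := hb.nx
  have := hb.ny
  have := hb.nn
  let : Module (ZMod 3) X := AddCommGroup.zmodModule bf.tX
  let : Module (ZMod 3) N := AddCommGroup.zmodModule bf.tN
  obtain ⟨E, hE, hZE, hi, hc, -, hm⟩ := eX
  obtain ⟨-, -, -, -, -, -, hmN⟩ := eN
  have zXN : Zpm A X = Zpm A N := le_antisymm (hmN _ zn cXN) (hm _ zn cNX)
  obtain ⟨χ, hχ⟩ := chi (W := X) E hc
  obtain ⟨ψ, hψ⟩ := chi (W := N) E (zXN ▸ hc)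
  have := zn (A := A) (W := X)
  let Q := E ⧸ (Zpm A X).subgroupOf E
  have cQ : Nat.card Q = 16 := hi
  have rX : Function.Injective fun q : Q => χ q.out := fun q q' e => by
    rw [← q.out_eq, ← q'.out_eq]
    exact QuotientGroup.eq.2 (hχ.inj hE hm _ _ e)
  have rN : Function.Injective fun q : Q => ψ q.out := fun q q' e => by
    rw [← q.out_eq, ← q'.out_eq]
    refine QuotientGroup.eq.2 ?_
    have := hψ.inj hE hmN _ _ e
    rw [← zXN] at this
    exact this
  have hs : ∀ a : E, ∃ c : E, χ a = ψ c := fun a => by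
    let l : Q → Q →* ZMod 3 := fun q => QuotientGroup.lift _ (ψ q.out) fun x hx =>
      hψ.triv _ x (zXN ▸ hx)
    obtain ⟨q, hq⟩ := homs Q l (fun q q' e => rN (MonoidHom.ext fun x =>
        DFunLike.congr_fun e (QuotientGroup.mk x : Q)))
      (QuotientGroup.lift _ (χ a) fun x hx => hχ.triv _ x hx)
    exact ⟨q.out, MonoidHom.ext fun x => (DFunLike.congr_fun hq (QuotientGroup.mk x : Q)).symm⟩
  -- an element of order a power of five
  have : Fact (Nat.Prime 5) := ⟨by norm_num⟩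
  obtain ⟨g, k, hgk, hg⟩ : ∃ (g : A) (k : ℕ), g ^ 5 ^ k = 1 ∧ ¬ ∀ x : X, g • x = x := by
    obtain ⟨P⟩ : Nonempty (Sylow 5 A) := inferInstance
    obtain ⟨x, hx⟩ := exists_ne (0 : X)
    by_contra hh
    push Not at hh
    have hle : P.1 ≤ stabilizer A x := fun p hp => by
      obtain ⟨k, hk⟩ := P.2 ⟨p, hp⟩
      exact hh p k (congrArg Subtype.val hk) x
    have ho : orbit A x = {0}ᶜ := by
      ext y
      constructor
      · rintro ⟨a, rfl⟩ h
        exact hx ((smul_eq_zero_iff_eq a).1 h)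
      · exact fun hy => hb.tx x y hx hy
    have h80 : (stabilizer A x).index = 80 := by
      rw [index_stabilizer, ho, Set.ncard_compl, Set.ncard_singleton, bf.cX]
      norm_num
    refine P.not_dvd_index (Dvd.dvd.trans ?_ (Subgroup.index_dvd_of_le hle))
    rw [h80]; norm_num
  have hneg : ∀ h h' : A, h ^ 5 ^ k = 1 → h' ^ 5 ^ k = 1 → ¬ ∀ x : X, h • x = -(h' • x) := by
    intro h h' e e' hh
    obtain ⟨x, hx⟩ := exists_ne (0 : X)
    have := odd_pow h' h hh (5 ^ k) x
    rw [e, e', one_smul, Odd.neg_one_pow (Odd.pow (by decide)), neg_smul, one_smul] at this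
    have h3 := bf.tX x
    rw [succ_nsmul, two_nsmul] at h3
    apply hx
    rw [← h3]
    nth_rewrite 2 [this]
    simp
  obtain ⟨bX, hbX⟩ := gens bf.tX bf.cX
  obtain ⟨bY, hbY⟩ := gens bf.tY bf.cY
  have : Finite (X →+ X) := Finite.of_injective _ DFunLike.coe_injective
  have : Finite (Y →+ N) := Finite.of_injective _ DFunLike.coe_injective
  have : Finite (X →+ Y →+ N) := Finite.of_injective _ DFunLike.coe_injective
  -- the equivariant biadditive maps
  let H : AddSubgroup (X →+ Y →+ N) :=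
    { carrier := {γ | ∀ (x : E) u v, γ (x.1 • u) (x.1 • v) = x.1 • γ u v}
      zero_mem' := fun x u v => by simp
      add_mem' := fun {γ δ} h h' x u v => by simp [h x, h' x]
      neg_mem' := fun {γ} h x u v => by simp [h x] }
  have cH : Nat.card H ≤ 81 := by
    have h1 := hψ.bnd (T := X × Y) (L := X →+ Y →+ N) _ rN
      ⟨⟨fun γ t => γ t.1 t.2, rfl⟩, fun _ _ => rfl⟩
      (fun γ δ e => by ext u v; exact congrFun e (u, v))
      (fun a γ => γ.compr₂ (DistribSMul.toAddMonoidHom N a)) (fun _ _ _ => rfl) H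
      fun γ h x t => h x t.1 t.2
    have h2 : Nat.card (X →+ Y →+ N) ≤ Nat.card (Fin 4 → Fin 4 → N) :=
      Nat.card_le_card_of_injective (fun γ i j => γ (bX i) (bY j)) fun γ δ e =>
        hbX _ _ _ fun i => hbY _ _ _ fun j => congrFun (congrFun e i) j
    rw [Nat.card_fun, Nat.card_fun, bf.cN, Nat.card_eq_fintype_card (α := Fin 4),
      Fintype.card_fin] at h2
    rw [cQ] at h1
    exact (Nat.pow_le_pow_iff_left (by norm_num : 16 ≠ 0)).1
      (h1.trans (h2.trans_eq (by norm_num)))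
  let D₀ : A → (X →+ Y →+ N) → (X →+ Y →+ N) := fun a γ =>
    ((γ.comp (DistribSMul.toAddMonoidHom X a⁻¹)).compl₂
      (DistribSMul.toAddMonoidHom Y a⁻¹)).compr₂ (DistribSMul.toAddMonoidHom N a)
  have hD₀ : ∀ a γ u v, D₀ a γ u v = a • γ (a⁻¹ • u) (a⁻¹ • v) := fun _ _ _ _ => rfl
  let D : H →+ H :=
    { toFun := fun γ => ⟨D₀ g γ, fun x u v => by
        have := γ.2 ⟨g⁻¹ * x * g⁻¹⁻¹, hE.conj_mem x x.2 g⁻¹⟩ (g⁻¹ • u) (g⁻¹ • v)
        simp only [mul_smul, inv_inv, smul_inv_smul] at this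
        rw [hD₀, hD₀, this, smul_inv_smul]⟩
      map_zero' := Subtype.ext (by ext u v; simp [hD₀])
      map_add' := fun γ δ => Subtype.ext (by ext u v; simp [hD₀]) }
  have hDn : ∀ n (γ : H), (D^[n] γ).1 = D₀ (g ^ n) γ := fun n γ => by
    induction n with
    | zero => ext u v; simp [hD₀]
    | succ n ih =>
      rw [Function.iterate_succ_apply']
      change D₀ g _ = _
      rw [ih]
      ext u v
      simp only [hD₀, pow_succ' g, mul_smul, mul_inv_rev]
  have hfix := fixall H (fun m => Subtype.ext (by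
      ext u v
      exact bf.tN (m.1 u v))) cH D k
    (fun m => Subtype.ext (by rw [hDn, hgk]; ext u v; simp [hD₀]))
    ⟨β, fun x u v => hb.eqv x u v⟩ (fun e => by
      obtain ⟨x, hx⟩ := exists_ne (0 : X)
      obtain ⟨z, hz⟩ := exists_ne (0 : N)
      obtain ⟨y, rfl⟩ := hb.sx x hx z
      exact hz (by rw [show β = 0 from congrArg Subtype.val e]; rfl))
    (Subtype.ext (by
      ext u v
      change g • β (g⁻¹ • u) (g⁻¹ • v) = β u v
      rw [hb.eqv, smul_inv_smul]))
  -- the nucleus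
  let R : Subring (AddMonoid.End X) :=
    { carrier := {s | ∃ n : N →+ N, ∀ u v, β (s u) v = n (β u v)}
      mul_mem' := fun ⟨n, h⟩ ⟨n', h'⟩ => ⟨n.comp n', fun u v => (h _ v).trans (congrArg n (h' u v))⟩
      one_mem' := ⟨AddMonoidHom.id N, fun _ _ => rfl⟩
      add_mem' := fun {s t} ⟨n, h⟩ ⟨n', h'⟩ => ⟨n + n', fun u v => by
        change β (s u + t u) v = n _ + n' _
        rw [map_add, AddMonoidHom.add_apply, h, h']⟩
      zero_mem' := ⟨0, fun u v => by change β 0 v = 0; simp⟩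
      neg_mem' := fun {s} ⟨n, h⟩ => ⟨-n, fun u v => by
        change β (-s u) v = -n _
        rw [map_neg, AddMonoidHom.neg_apply, h]⟩ }
  have hR : IsField R := by
    have : Finite (AddMonoid.End X) := ‹Finite (X →+ X)›
    have : NoZeroDivisors R := ⟨fun {s t} e => by
      by_contra hh
      push Not at hh
      obtain ⟨n, hn⟩ := s.2
      obtain ⟨u, hu⟩ : ∃ u, t.1 u ≠ 0 := by
        by_contra h0
        push Not at h0
        exact hh.2 (Subtype.ext (AddMonoidHom.ext h0))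
      have e0 : s.1 (t.1 u) = 0 := DFunLike.congr_fun (congrArg Subtype.val e) u
      have n0 : ∀ z, n z = 0 := fun z => by
        obtain ⟨v, rfl⟩ := hb.sx _ hu z
        rw [← hn, e0]; simp
      refine hh.1 (Subtype.ext (AddMonoidHom.ext fun w => ?_))
      by_contra hw
      obtain ⟨z, hz⟩ := exists_ne (0 : N)
      obtain ⟨v, rfl⟩ := hb.sx _ hw z
      exact hz ((hn w v).trans (n0 _))⟩
    have : Nontrivial R := ⟨⟨1, 0, fun e => by
      obtain ⟨x, hx⟩ := exists_ne (0 : X)
      exact hx (DFunLike.congr_fun (congrArg Subtype.val e) x)⟩⟩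
    have : IsDomain R := NoZeroDivisors.to_isDomain R
    exact Finite.isDomain_to_isField R
  let B : Subgroup A :=
    { carrier := {s | ∃ n : A, ∀ u v, β (s • u) v = n • β u v}
      one_mem' := ⟨1, fun u v => by simp⟩
      mul_mem' := fun ⟨n, h⟩ ⟨n', h'⟩ => ⟨n * n', fun u v => by rw [mul_smul, h, h', mul_smul]⟩
      inv_mem' := fun ⟨n, h⟩ => ⟨n⁻¹, fun u v => by rw [eq_inv_smul_iff, ← h, smul_inv_smul]⟩ }
  have hB : B ≤ Zpm A X := by
    refine hm B ⟨fun s ⟨n, h⟩ a => ⟨a * n * a⁻¹, fun u v => ?_⟩⟩ fun s ⟨n, h⟩ t ⟨n', h'⟩ v => ?_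
    · rw [mul_smul, mul_smul, mul_smul, mul_smul, ← hb.eqv a⁻¹, ← h, ← hb.eqv, smul_inv_smul]
    · exact DFunLike.congr_fun (congrArg Subtype.val (hR.mul_comm
        ⟨DistribSMul.toAddMonoidHom X s, DistribSMul.toAddMonoidHom N n, h⟩
        ⟨DistribSMul.toAddMonoidHom X t, DistribSMul.toAddMonoidHom N n', h'⟩)) v
  have hcomm : ∀ (a : E) (u : X), g • a.1 • u = a.1 • g • u := fun a => by
    obtain ⟨c, hac⟩ := hs a
    have h1 := hfix ⟨(β.comp (DistribSMul.toAddMonoidHom X a.1)).compr₂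
      (DistribSMul.toAddMonoidHom N c.1⁻¹), fun x u v => by
        change c.1⁻¹ • β (a.1 • x.1 • u) (x.1 • v) = x.1 • c.1⁻¹ • β (a.1 • u) v
        have e := ZMod.map_smul (β.flip (x.1 • v)) (χ a x) (x.1 • a.1 • u)
        rw [hχ a x u, inv_smul_eq_iff, hψ c x, smul_inv_smul, ← hac, ← hb.eqv]
        exact e⟩
    have h2 : ∀ u v, g • c.1⁻¹ • β (a.1 • g⁻¹ • u) (g⁻¹ • v) = c.1⁻¹ • β (a.1 • u) v :=
      fun u v => DFunLike.congr_fun (DFunLike.congr_fun (congrArg Subtype.val h1) u) v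
    have h3 : a.1 * g * a.1⁻¹ * g⁻¹ ∈ Zpm A X := hB ⟨c.1 * g * c.1⁻¹ * g⁻¹, fun u v => by
      have := h2 (g • a.1⁻¹ • g⁻¹ • u) v
      rw [inv_smul_smul, smul_inv_smul, hb.eqv, eq_inv_smul_iff] at this
      simp only [mul_smul]
      exact this.symm⟩
    rcases h3 with h | h
    · intro u
      have := h (g • a.1 • u)
      simp only [mul_smul, inv_smul_smul] at this
      exact this.symm
    · refine absurd (fun x => ?_) (hneg (a.1 * g * a.1⁻¹) g (by rw [conj_pow, hgk]; simp) hgk)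
      have := h (g • x)
      rwa [mul_smul _ g⁻¹, inv_smul_smul] at this
  -- the centraliser on `X`
  let C : Set (X →+ X) := {γ | ∀ (x : E) u, γ (x.1 • u) = x.1 • γ u}
  have cC : Nat.card C ≤ 3 := by
    have h1 := hχ.bnd (T := X) (L := X →+ X) _ rX ⟨⟨fun γ t => γ t, rfl⟩, fun _ _ => rfl⟩
      DFunLike.coe_injective (fun a γ => (DistribSMul.toAddMonoidHom X a).comp γ)
      (fun _ _ _ => rfl) C fun γ h x t => h x t
    have h2 : Nat.card (X →+ X) ≤ Nat.card (Fin 4 → X) :=
      Nat.card_le_card_of_injective (fun γ i => γ (bX i)) fun γ δ e =>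
        hbX _ _ _ fun i => congrFun e i
    rw [Nat.card_fun, bf.cX, Nat.card_eq_fintype_card (α := Fin 4), Fintype.card_fin] at h2
    rw [cQ] at h1
    exact (Nat.pow_le_pow_iff_left (by norm_num : 16 ≠ 0)).1
      (h1.trans (h2.trans_eq (by norm_num)))
  have n1 := hneg g 1 hgk (one_pow _)
  have n2 := hneg 1 1 (one_pow _) (one_pow _)
  simp only [one_smul] at n1 n2
  obtain ⟨x, hx⟩ := exists_ne (0 : X)
  have h4 : Nat.card (Fin 4) ≤ Nat.card C := by
    refine Nat.card_le_card_of_injective ![⟨0, fun x u => by simp⟩, ⟨AddMonoidHom.id X,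
      fun x u => rfl⟩, ⟨-AddMonoidHom.id X, fun x u => by simp⟩,
      ⟨DistribSMul.toAddMonoidHom X g, hcomm⟩] fun i j e => ?_
    have e' := fun u => DFunLike.congr_fun (congrArg Subtype.val e) u
    have p1 := fun h : ∀ u : X, -u = u => n2 fun u => (h u).symm
    have p2 := fun h : ∀ u : X, u = g • u => hg fun u => (h u).symm
    have p3 := fun h : ∀ u : X, -u = g • u => n1 fun u => (h u).symm
    fin_cases i <;> fin_cases j <;> first
      | rfl
      | exact absurd e' n1 | exact absurd e' n2 | exact absurd e' hg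
      | exact (p1 e').elim | exact (p2 e').elim | exact (p3 e').elim
      | exact absurd (e' x) hx | exact absurd (e' x).symm hx
      | exact absurd (neg_eq_zero.1 (e' x)) hx | exact absurd (neg_eq_zero.1 (e' x).symm) hx
      | exact absurd ((smul_eq_zero_iff_eq g).1 (e' x)) hx
      | exact absurd ((smul_eq_zero_iff_eq g).1 (e' x).symm) hx
  rw [Nat.card_eq_fintype_card, Fintype.card_fin] at h4
  omega

end Pool.Agent.MP_f8e15f_co.RB3
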