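import Pool.Agent.MP_f8e15f_co.H33.Spec2

/-! Row B5A: the data of the sporadic case. -/

open MulAction Pointwise

namespace Pool.Agent.MP_f8e15f_co.RB5A

open Pool.Agent.MP_f8e15f_co.H33

section Sc

variable {A X F : Type} [Group A] [AddCommGroup X] [DistribMulAction A X] [Field F]

/-- `g` acts as the scalar `a`. -/
def Sc (e : X ≃+ F) (g : A) (a : F) : Prop := ∀ x, e (g • x) = a * e x

/-- All elements act by semilinear maps. -/
def Sm (A : Type) {X F : Type} [Group A] [AddCommGroup X] [DistribMulAction A X] [Field F]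
    (e : X ≃+ F) : Prop := ∀ g : A, ∃ (a : F) (σ : F ≃+* F), ∀ x, e (g • x) = a * σ (e x)

variable {e : X ≃+ F} {g h : A} {a b : F}

theorem Sc.mul (hg : Sc e g a) (hh : Sc e h b) : Sc e (g * h) (a * b) := fun x => by
  rw [mul_smul, hg, hh, mul_assoc]

theorem Sc.pow (hg : Sc e g a) (n : ℕ) : Sc e (g ^ n) (a ^ n) := by
  induction n with
  | zero => intro x; simp
  | succ n ih => rw [pow_succ, pow_succ]; exact ih.mul hg

theorem Sc.ne (hg : Sc e g a) : a ≠ 0 := by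
  rintro rfl
  have := hg (g⁻¹ • e.symm 1)
  simp at this

theorem Sc.inv (hg : Sc e g a) : Sc e g⁻¹ a⁻¹ := fun x => by
  have := hg (g⁻¹ • x)
  rw [smul_inv_smul] at this
  rw [this, inv_mul_cancel_left₀ hg.ne]

theorem Sc.triv (hg : Sc e g a) : a = 1 ↔ ∀ x : X, g • x = x := by
  refine ⟨fun h x => e.injective (by rw [hg, h, one_mul]), fun h => ?_⟩
  have := hg (e.symm 1)
  rw [h] at this
  simpa using this.symm

theorem Sc.symm (hg : Sc e g a) (x : F) : e.symm (a * x) = g • e.symm x :=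
  e.injective (by rw [hg]; simp)

theorem Sc.map {F' : Type} [Field F'] (φ : F ≃+* F') (hg : Sc e g a) :
    Sc (e.trans φ.toAddEquiv) g (φ a) := fun x => by
  change φ (e (g • x)) = φ a * φ (e x)
  rw [hg, map_mul]

theorem semi_pow {σ : F ≃+* F} (hg : ∀ x, e (g • x) = a * σ (e x)) (n : ℕ) :
    ∃ a', ∀ x, e (g ^ n • x) = a' * (σ ^ n) (e x) := by
  induction n with
  | zero => exact ⟨1, fun x => by simp⟩
  | succ n ih =>
    obtain ⟨a', h⟩ := ih
    refine ⟨a * σ a', fun x => ?_⟩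
    rw [pow_succ', mul_smul, hg, h, map_mul, pow_succ', mul_assoc]
    rfl

theorem semi_sc {σ : F ≃+* F} (hg : ∀ x, e (g • x) = a * σ (e x)) {n : ℕ} (hn : σ ^ n = 1) :
    ∃ a', Sc e (g ^ n) a' := by
  obtain ⟨a', h⟩ := semi_pow hg n
  exact ⟨a', fun x => by rw [h, hn]; rfl⟩

theorem conj_sc {σ : F ≃+* F} (hh : ∀ x, e (h • x) = b * σ (e x)) (hg : Sc e g a) :
    Sc e (h * g * h⁻¹ * g⁻¹) (σ a * a⁻¹) := by
  refine Sc.mul (fun x => ?_) hg.inv
  have := hh (h⁻¹ • x)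
  rw [smul_inv_smul] at this
  rw [mul_smul, mul_smul, hh, hg, map_mul, this]
  ring

theorem pow_card [Finite F] {n : ℕ} (hF : Nat.card F = n + 1) (ha : a ≠ 0) : a ^ n = 1 := by
  have := Fintype.ofFinite F
  have h := FiniteField.pow_card_sub_one_eq_one a ha
  rwa [← Nat.card_eq_fintype_card, hF, Nat.add_sub_cancel] at h

theorem aut_pow [Finite F] (hE : EXP) {d : ℕ} (hF : Nat.card F = 2 ^ d) (σ : F ≃+* F) (k : ℕ) :
    σ ^ (d * k) = 1 := by
  rw [pow_mul, ← (hE.frob F 2 d Nat.prime_two hF).1, pow_card_eq_one', one_pow]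

theorem seven [Finite F] (hE : EXP) (hF : Nat.card F = 2 ^ 6) (hs : Sm A e) (g : A) :
    ∃ a, a ^ 7 = 1 ∧ Sc e (g ^ 54) a := by
  obtain ⟨a, σ, h⟩ := hs g
  obtain ⟨b, hb⟩ := semi_sc h (aut_pow hE hF σ 1)
  refine ⟨b ^ 9, ?_, ?_⟩
  · rw [← pow_mul]
    exact pow_card (n := 63) hF hb.ne
  · have := hb.pow 9
    rwa [← pow_mul] at this

theorem seven' [Finite F] (hE : EXP) (hF : Nat.card F = 2 ^ 3) (hs : Sm A e) (g : A) :
    ∃ a, Sc e (g ^ 54) a := by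
  obtain ⟨a, σ, h⟩ := hs g
  exact semi_sc h (aut_pow hE hF σ 18)

theorem seven_ne [Finite F] (hH : HUP) (hF : Nat.card F = 2 ^ 6) (hs : Sm A e) (tr : Tr1 A X) :
    ∃ g : A, ¬∀ x : X, g ^ 54 • x = x := by
  by_contra hn
  push Not at hn
  refine absurd (hH.lin A X F e 2 6 9 Nat.prime_two hF tr hs fun g a hg => ?_) (by norm_num)
  have h1 : a ^ 54 = 1 := (Sc.pow hg 54).triv.2 (hn g)
  have h2 : a ^ 63 = 1 := pow_card (n := 63) hF (Sc.ne hg)
  rw [show 63 = 54 + 9 from rfl, pow_add, h1, one_mul] at h2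
  exact h2

theorem aut_sq [Finite F] (hE : EXP) (hF : Nat.card F = 2 ^ 6) {σ : F ≃+* F} (h1 : a ≠ 1)
    (h7 : a ^ 7 = 1) (h : σ a * a⁻¹ = 1) : σ ^ 2 = 1 := by
  have a0 : a ≠ 0 := by
    rintro rfl
    simp at h7
  obtain ⟨i, hi, hσ⟩ := (hE.frob F 2 6 Nat.prime_two hF).2.1 σ
  have := Fact.mk Nat.prime_seven
  have o7 : orderOf a = 7 := orderOf_eq_prime h7 h1
  have h2 : a ^ (2 ^ i - 1) = 1 := by
    rw [pow_sub₀ _ a0 Nat.one_le_two_pow, pow_one, ← hσ, h]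
  have h3 := orderOf_dvd_of_pow_eq_one h2
  rw [o7] at h3
  ext x
  change σ (σ x) = x
  rw [hσ, hσ, ← pow_mul]
  interval_cases i
  · simp
  · norm_num at h3
  · norm_num at h3
  · by_cases hx : x = 0
    · simp [hx]
    · rw [show 2 ^ 3 * 2 ^ 3 = 63 + 1 from rfl, pow_succ, pow_card (n := 63) hF hx, one_mul]
  · norm_num at h3
  · norm_num at h3

theorem dvd_card [Finite X] (hg : Sc e g a) (h1 : a ≠ 1) (h7 : a ^ 7 = 1) (S : Set X)
    (hS : ∀ x ∈ S, g • x ∈ S) (h0 : 0 ∉ S) : 7 ∣ Nat.card S := by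
  classical
  have := Fintype.ofFinite S
  have := Fact.mk Nat.prime_seven
  let f : Function.End S := fun x => ⟨g • x.1, hS _ x.2⟩
  have hf : ∀ (n : ℕ) (x : S), ((f ^ n) x).1 = g ^ n • x.1 := fun n => by
    induction n with
    | zero => intro x; simp; rfl
    | succ n ih => intro x; rw [pow_succ, pow_succ, mul_smul]; exact ih (f x)
  have h2 : f ^ 7 ^ 1 = 1 := by
    funext x
    refine Subtype.ext ?_
    rw [hf]
    exact (hg.pow 7).triv.1 h7 _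
  have h3 := Equiv.Perm.card_fixedPoints_modEq h2
  have h4 : IsEmpty (Function.fixedPoints f) := ⟨fun x => by
    have k : g • x.1.1 = x.1.1 := congrArg Subtype.val x.2
    have k2 := hg x.1.1
    rw [k] at k2
    have k3 : e x.1.1 = 0 := by
      by_contra k3
      exact h1 (mul_right_cancel₀ k3 (k2.symm.trans (one_mul _).symm))
    exact h0 ((e.map_eq_zero_iff.1 k3) ▸ x.1.2)⟩
  rw [Fintype.card_eq_zero (α := Function.fixedPoints f), ← Nat.card_eq_fintype_card] at h3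
  exact (Nat.modEq_zero_iff_dvd).1 h3

theorem semi_of (hH : HUP) [Finite A] [Group.IsSolvable A] [Finite X] [Nontrivial X]
    (tr : Tr1 A X) (hc : Nat.card X = 2 ^ 6 ∨ Nat.card X = 2 ^ 3) : Semi A X := by
  refine (hH.hup A X tr).resolve_right fun h => ?_
  rcases h.1 with ⟨p, hp, h2, -⟩ | ⟨h2, -⟩
  · simp only [List.mem_cons, List.not_mem_nil, or_false] at hp
    rcases hp with rfl | rfl | rfl | rfl | rfl <;> omega
  · omega

theorem three (hH : HUP) [Finite X] (tr : Tr1 A X) (hc : Nat.card X = 2 ^ 6) (T : Subgroup A)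
    (hT : T.index ∣ 21) {x : X} (hx : x ≠ 0) : 3 ∣ Nat.card (orbit T x) := by
  have h1 : orbit A x = {0}ᶜ := by
    ext y
    constructor
    · rintro ⟨g, rfl⟩ h
      exact hx ((smul_eq_zero_iff_eq g).1 h)
    · exact fun h => tr x y hx h
  have h2 := (hH.orb A X T x).trans (Nat.mul_dvd_mul_right hT _)
  rw [h1, Nat.card_coe_set_eq, Set.ncard_compl, hc, Set.ncard_singleton] at h2
  omega

theorem sq_ne [Finite A] (T : Subgroup A) {x : X} (h3 : 3 ∣ Nat.card (orbit T x)) :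
    ∃ h ∈ T, ¬∀ y : X, h ^ 2 • y = y := by
  by_contra hn
  push Not at hn
  have := Fact.mk Nat.prime_three
  have h1 : (toPermHom T X).ker ≤ stabilizer T x := fun g hg =>
    congrArg (fun σ : Equiv.Perm X => σ x) (MonoidHom.mem_ker.1 hg)
  have h2 := Subgroup.index_dvd_of_le h1
  rw [index_stabilizer, ← Nat.card_coe_set_eq] at h2
  obtain ⟨q, hq⟩ := exists_prime_orderOf_dvd_card' (G := T ⧸ (toPermHom T X).ker) 3 (h3.trans h2)
  obtain ⟨g, rfl⟩ := QuotientGroup.mk_surjective q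
  have h4 : (QuotientGroup.mk g : T ⧸ (toPermHom T X).ker) ^ 2 = 1 := by
    rw [← QuotientGroup.mk_pow, QuotientGroup.eq_one_iff]
    exact MonoidHom.mem_ker.2 (Equiv.ext fun y => hn g.1 g.2 y)
  have h5 := orderOf_dvd_of_pow_eq_one h4
  rw [hq] at h5
  omega

/-- An element that keeps a proper subgroup with large orbits is no scalar of order seven. -/
theorem claim (hH : HUP) [Finite X] (tr : Tr1 A X) (hc : Nat.card X = 2 ^ 6) (T : Subgroup A)
    (hT : T.index ∣ 21) (W : AddSubgroup X) (hW : ∀ g ∈ T, ∀ x ∈ W, g • x ∈ W) (w0 : W ≠ ⊥)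
    (w1 : W ≠ ⊤) (gT : g ∈ T) (hg : Sc e g a) (h7 : a ^ 7 = 1) : a = 1 := by
  by_contra h1
  obtain ⟨⟨x, hx⟩, x0⟩ := AddSubgroup.ne_bot_iff_exists_ne_zero.1 w0
  have x0' : x ≠ 0 := fun h => x0 (Subtype.ext h)
  have o3 := three hH tr hc T hT x0'
  have sub : orbit T x ⊆ (W : Set X) \ {0} := by
    rintro y ⟨k, rfl⟩
    exact ⟨hW k.1 k.2 x hx, fun h => x0' ((smul_eq_zero_iff_eq k).1 h)⟩
  have o7 := dvd_card hg h1 h7 (orbit T x) (fun y hy => mem_orbit_of_mem_orbit (⟨g, gT⟩ : T) hy)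
    fun h => (sub h).2 rfl
  have w7 := dvd_card hg h1 h7 ((W : Set X) \ {0})
    (fun y hy => ⟨hW g gT y hy.1, fun h => hy.2 ((smul_eq_zero_iff_eq g).1 h)⟩) fun h => h.2 rfl
  have le := Set.ncard_le_ncard sub
  have pos : 0 < (orbit T x).ncard := (Set.ncard_pos).2 ⟨x, mem_orbit_self x⟩
  rw [Nat.card_coe_set_eq] at o3 o7 w7
  rw [Set.ncard_sdiff_singleton_of_mem W.zero_mem] at le w7
  have dv := W.card_addSubgroup_dvd_card
  have ne : Nat.card W ≠ Nat.card X := fun h => w1 (W.eq_top_of_card_eq h)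
  rw [hc] at dv ne
  obtain ⟨k, hk, ek⟩ := (Nat.dvd_prime_pow Nat.prime_two).1 dv
  change _ ≤ Nat.card W - 1 at le
  change 7 ∣ Nat.card W - 1 at w7
  rw [ek] at le w7 ne
  have o21 : 21 ≤ (orbit T x).ncard :=
    Nat.le_of_dvd pos (Nat.Coprime.mul_dvd_of_dvd_of_dvd (by norm_num : Nat.Coprime 3 7) o3 o7)
  clear o3 o7
  interval_cases k <;> omega

end Sc

theorem emb (K F : Type) [Field K] [Field F] [Finite K] [Finite F] (hK : Nat.card K = 2 ^ 3)
    (hF : Nat.card F = 2 ^ 6) : Nonempty (K →+* F) := by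
  have := Fintype.ofFinite K
  have := Fintype.ofFinite F
  have := Fact.mk Nat.prime_two
  have := charP_of_card_eq_prime_pow (Nat.card_eq_fintype_card.symm.trans hK)
  have := charP_of_card_eq_prime_pow (Nat.card_eq_fintype_card.symm.trans hF)
  let _ : Algebra (ZMod 2) K := ZMod.algebra _ _
  let _ : Algebra (ZMod 2) F := ZMod.algebra _ _
  have h1 := Nat.pow_right_injective le_rfl ((FiniteField.pow_finrank_eq_natCard 2 K).trans hK)
  have h2 := Nat.pow_right_injective le_rfl ((FiniteField.pow_finrank_eq_natCard 2 F).trans hF)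
  obtain ⟨f⟩ := FiniteField.nonempty_algHom_of_finrank_dvd (F := ZMod 2) (K := K) (L := F)
    (by rw [h1, h2]; norm_num)
  exact ⟨f.toRingHom⟩

theorem row : H33.OfB5A := by
  intro hE hH A X Y N _ _ _ _ _ _ _ _ _ _ _ _ β hB hF hK
  have := hB.nx
  have := hB.ny
  have := hB.nn
  obtain ⟨F, _, _, e₁, s₁⟩ := semi_of hH hB.tx (.inl hF.cX)
  obtain ⟨F₂, _, _, e₂, s₂⟩ := semi_of hH hB.ty (.inl hF.cY)
  have sN := semi_of hH hB.tn (.inr hF.cN)
  have hT : (toPermHom A N).ker.index ∣ 21 := hH.ord A N 2 3 Nat.prime_two hF.cN sN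
  obtain ⟨F₃, _, _, e₃, s₃⟩ := sN
  have c₁ : Nat.card F = 2 ^ 6 := (Nat.card_congr e₁.toEquiv).symm.trans hF.cX
  have c₂ : Nat.card F₂ = 2 ^ 6 := (Nat.card_congr e₂.toEquiv).symm.trans hF.cY
  have c₃ : Nat.card F₃ = 2 ^ 3 := (Nat.card_congr e₃.toEquiv).symm.trans hF.cN
  have mT : ∀ g : A, g ∈ (toPermHom A N).ker ↔ ∀ z : N, g • z = z := fun g =>
    MonoidHom.mem_ker.trans Equiv.ext_iff
  generalize hTT : (toPermHom A N).ker = T at hT mT
  have nT : T.Normal := hTT ▸ MonoidHom.normal_ker _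
  obtain ⟨z, hz⟩ := exists_ne (0 : N)
  have tY : ∀ g ∈ T, (∀ x : X, g • x = x) → ∀ y : Y, g • y = y := fun g hg hx y => by
    by_contra hy
    obtain ⟨x, h⟩ := hB.sy _ (sub_ne_zero.2 hy) z
    refine hz (h.symm.trans ?_)
    have := hB.eqv g x y
    rw [hx, (mT g).1 hg] at this
    beta_reduce
    rw [map_sub, this, sub_self]
  have tX : ∀ g ∈ T, (∀ y : Y, g • y = y) → ∀ x : X, g • x = x := fun g hg hy x => by
    by_contra hx
    obtain ⟨y, h⟩ := hB.sx _ (sub_ne_zero.2 hx) z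
    refine hz (h.symm.trans ?_)
    have := hB.eqv g x y
    rw [hy, (mT g).1 hg] at this
    rw [map_sub, AddMonoidHom.sub_apply, this, sub_self]
  unfold KI at hK
  push Not at hK
  obtain ⟨W, hW, w0, w1⟩ := hK
  have cl : ∀ g ∈ T, ∀ a, Sc e₁ g a → a ^ 7 = 1 → a = 1 := fun g gT a hg h7 =>
    claim hH hB.tx hF.cX T hT W (fun k hk => hW k ((mT k).1 hk)) w0 w1 gT hg h7
  obtain ⟨t, a, b, c, ha, hb, hc, a1, a7, b1, b7⟩ : ∃ (t : A) (a : F) (b : F₂) (c : F₃),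
      Sc e₁ t a ∧ Sc e₂ t b ∧ Sc e₃ t c ∧ a ≠ 1 ∧ a ^ 7 = 1 ∧ b ≠ 1 ∧ b ^ 7 = 1 := by
    obtain ⟨g, hg⟩ := seven_ne hH c₁ s₁ hB.tx
    obtain ⟨k, hk⟩ := seven_ne hH c₂ s₂ hB.ty
    obtain ⟨a, a7, ha⟩ := seven hE c₁ s₁ g
    obtain ⟨b, b7, hb⟩ := seven hE c₂ s₂ g
    obtain ⟨c, hc⟩ := seven' hE c₃ s₃ g
    obtain ⟨a', a7', ha'⟩ := seven hE c₁ s₁ k
    obtain ⟨b', b7', hb'⟩ := seven hE c₂ s₂ k
    obtain ⟨c', hc'⟩ := seven' hE c₃ s₃ k
    have a1 : a ≠ 1 := fun h => hg (ha.triv.1 h)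
    have b1 : b' ≠ 1 := fun h => hk (hb'.triv.1 h)
    by_cases h1 : b = 1
    · by_cases h2 : a' = 1
      · refine ⟨_, _, _, _, ha.mul ha', hb.mul hb', hc.mul hc', ?_⟩
        rw [h1, h2, mul_one, one_mul]
        exact ⟨a1, a7, b1, b7'⟩
      · exact ⟨_, _, _, _, ha', hb', hc', h2, a7', b1, b7'⟩
    · exact ⟨_, _, _, _, ha, hb, hc, a1, a7, h1, b7⟩
  have c1 : c ≠ 1 := fun h => a1 (cl t ((mT t).2 (hc.triv.1 h)) a ha a7)
  have c7 : c ^ 7 = 1 := pow_card (n := 7) c₃ hc.ne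
  obtain ⟨s, u, v, sT, hu, hv, u1, u3⟩ : ∃ (s : A) (u : F) (v : F₂), s ∈ T ∧ Sc e₁ s u ∧
      Sc e₂ s v ∧ u ≠ 1 ∧ u ^ 3 = 1 := by
    obtain ⟨x, hx⟩ := exists_ne (0 : X)
    obtain ⟨h, hT', hn⟩ := sq_ne T (three hH hB.tx hF.cX T hT hx)
    obtain ⟨α, σ, h1⟩ := s₁ h
    obtain ⟨α', τ, h2⟩ := s₂ h
    have kT : h * t * h⁻¹ * t⁻¹ ∈ T := by
      have := T.mul_mem hT' (nT.conj_mem _ (T.inv_mem hT') t)
      simpa only [mul_assoc] using this
    have k1 := conj_sc h1 ha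
    have k2 := cl _ kT _ k1 (by rw [mul_pow, ← map_pow, inv_pow, a7, map_one, inv_one, one_mul])
    have k3 := (conj_sc h2 hb).triv.2 (tY _ kT (k1.triv.1 k2))
    obtain ⟨u, hu⟩ := semi_sc h1 (aut_sq hE c₁ a1 a7 k2)
    obtain ⟨v, hv⟩ := semi_sc h2 (aut_sq hE c₂ b1 b7 k3)
    have u1 : u ≠ 1 := fun h => hn (hu.triv.1 h)
    have u9 : u ^ 9 = 1 := cl _ (T.pow_mem (T.pow_mem hT' 2) 9) _ (hu.pow 9)
      (by rw [← pow_mul]; exact pow_card (n := 63) c₁ hu.ne)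
    by_cases u3 : u ^ 3 = 1
    · exact ⟨_, u, v, T.pow_mem hT' 2, hu, hv, u1, u3⟩
    · exact ⟨_, _, _, T.pow_mem (T.pow_mem hT' 2) 3, hu.pow 3, hv.pow 3, u3,
        by rw [← pow_mul]; exact u9⟩
  have v1 : v ≠ 1 := fun h => u1 (hu.triv.2 (tX s sT (hv.triv.1 h)))
  have v3 : v ^ 3 = 1 := (hv.pow 3).triv.2 (tY _ (T.pow_mem sT 3) ((hu.pow 3).triv.1 u3))
  obtain ⟨ψ⟩ := emb F₃ F c₃ c₁
  have := Fintype.ofFinite F
  have := Fintype.ofFinite F₂
  let φ : F₂ ≃+* F := FiniteField.ringEquivOfCardEq (by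
    rw [← Nat.card_eq_fintype_card, ← Nat.card_eq_fintype_card, c₁, c₂])
  refine ⟨F, inferInstance, inferInstance, e₁, e₂.trans φ.toAddEquiv,
    ψ.toAddMonoidHom.comp e₃.toAddMonoidHom, u, φ v, a, φ b, ψ c, c₁,
    ψ.injective.comp e₃.injective, fun z => ?_, u1, u3, fun h => v1 (φ.injective (by simpa using h)),
    by rw [← map_pow, v3, map_one], a1, a7, fun h => b1 (φ.injective (by simpa using h)),
    by rw [← map_pow, b7, map_one], fun h => c1 (ψ.injective (by simpa using h)),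
    by rw [← map_pow, c7, map_one], fun x y => ?_, fun x y => ?_⟩
  · change ψ (e₃ z) ^ 8 = ψ (e₃ z)
    rw [← map_pow]
    by_cases h : e₃ z = 0
    · simp [h]
    · rw [pow_succ, pow_card (n := 7) c₃ h, one_mul]
  · rw [hu.symm, (hv.map φ).symm, hB.eqv, (mT s).1 sT]
  · rw [ha.symm, (hb.map φ).symm, hB.eqv]
    change ψ (e₃ _) = ψ c * ψ (e₃ _)
    rw [hc, map_mul]

end Pool.Agent.MP_f8e15f_co.RB5A
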