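import Pool.Agent.MP_f8e15f_co.H33.Spec2

/-! Row B5B: the sporadic bilinear maps over the field of order 64. -/

namespace Pool.Agent.MP_f8e15f_co.RB5B

open MulAction H33 H24

set_option synthInstance.maxSize 20000 in
theorem supp : ∀ p < 3, ∀ s < 7, ∀ w < 7, ∃ i₀ < 6, ∃ j₀ < 6, ∀ i < 6, ∀ j < 6,
    p ≠ 0 ∧ s ≠ 0 ∧ w ≠ 0 ∧ (2 ^ i + p * 2 ^ j) % 3 = 0 ∧ (2 ^ i + s * 2 ^ j) % 7 = w →
      (i = i₀ ∧ j = (j₀ + 4) % 6) ∨ (i = (i₀ + 3) % 6 ∧ j = (j₀ + 1) % 6) ∨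
      (i = (i₀ + 4) % 6 ∧ j = j₀) ∨ (i = (i₀ + 1) % 6 ∧ j = (j₀ + 3) % 6) := by
  decide +kernel

variable {F : Type} [Field F]

theorem prim {a : F} {n : ℕ} (hn : n.Prime) (h1 : a ≠ 1) (h2 : a ^ n = 1) :
    IsPrimitiveRoot a n := by
  have := Fact.mk hn
  exact orderOf_eq_prime h2 h1 ▸ IsPrimitiveRoot.orderOf a

theorem pw (h : ∀ x : F, x ^ 64 = x) (x : F) (i k : ℕ) :
    x ^ 2 ^ ((i + k) % 6) = (x ^ 2 ^ i) ^ 2 ^ k := by
  rw [← pow_mul, ← pow_add]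
  generalize i + k = n
  conv_rhs => rw [← Nat.mod_add_div n 6]
  induction n / 6 with
  | zero => rfl
  | succ m ih => rw [ih, Nat.mul_succ, ← add_assoc, pow_add 2 _ 6, pow_mul]; exact (h _).symm

/-- The facts on the relative trace. -/
structure TrF (T : F →+ F) : Prop where
  eq : ∀ t, T t = t + t ^ 8
  two : (2 : F) = 0
  pow : ∀ x : F, x ^ 64 = x

variable {T : F →+ F}

theorem TrF.ker (h : TrF T) (t : F) : t ∈ T.ker ↔ t ^ 8 = t := by
  rw [AddMonoidHom.mem_ker, h.eq]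
  exact ⟨fun e => by linear_combination e - t * h.two, fun e => by linear_combination e + t * h.two⟩

theorem TrF.p8 (h : TrF T) (t : F) : T (t ^ 8) = T t := by
  rw [h.eq, h.eq, ← pow_mul, h.pow, add_comm]

theorem TrF.fix (h : TrF T) (t : F) : T t ^ 8 = T t := by
  rw [← h.ker, AddMonoidHom.mem_ker, h.eq t, map_add, h.p8, ← two_mul, h.two, zero_mul]

theorem TrF.mul (h : TrF T) {k : F} (hk : k ^ 8 = k) (t : F) : T (k * t) = k * T t := by
  rw [h.eq, h.eq, mul_pow, hk, mul_add]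

theorem TrF.om (h : TrF T) {ω : F} (h1 : ω ≠ 1) (h3 : ω ^ 3 = 1) : T ω = 1 := by
  have h4 : ω ^ 2 + ω + 1 = 0 := mul_left_cancel₀ (sub_ne_zero.2 h1) (by linear_combination h3)
  rw [h.eq]
  linear_combination h4 + ω ^ 2 * (ω ^ 3 + 1) * h3 - h.two

theorem TrF.fam (h : TrF T) {ω : F} (hω : T ω = 1) : Fam T.ker fun x y => x * y := by
  refine Or.inl ⟨fun _ _ => rfl, fun e => ?_, fun z hz z' hz' => ?_⟩
  · have : ω ∈ T.ker := e ▸ AddSubgroup.mem_top ω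
    rw [AddMonoidHom.mem_ker, hω] at this
    exact one_ne_zero this
  · rw [AddMonoidHom.mem_ker] at hz hz'
    have hk : (T z' / T z) ^ 8 = T z' / T z := by rw [div_pow, h.fix, h.fix]
    refine ⟨T z' / T z, RingEquiv.refl F, fun t => ?_, ?_⟩
    · simp only [AddMonoidHom.mem_ker, RingEquiv.refl_apply, h.mul hk]
      exact mul_eq_zero_iff_left (div_ne_zero hz' hz)
    · rw [AddMonoidHom.mem_ker, RingEquiv.refl_apply, map_sub, h.mul hk, div_mul_cancel₀ _ hz,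
        sub_self]

theorem TrF.ne (h : TrF T) (w : F) : T (w + w ^ 4) ≠ 1 := by
  have := CharTwo.of_one_ne_zero_of_two_eq_zero (R := F) one_ne_zero h.two
  intro e
  have h1 : w + w ^ 8 + (w ^ 4 + w ^ 32) = 1 := by rwa [map_add, h.eq, h.eq, ← pow_mul] at e
  have h2 := congrArg (· ^ 2) h1
  simp only [CharTwo.add_sq, ← pow_mul, Nat.reduceMul, h.pow, one_pow] at h2
  have h3 := congrArg (· ^ 2) h2
  simp only [CharTwo.add_sq, ← pow_mul, Nat.reduceMul, one_pow] at h3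
  refine one_ne_zero (α := F) ?_
  linear_combination (w + w ^ 2 + w ^ 4 + w ^ 8 + w ^ 16 + w ^ 32 - 1) * h.two - h1 - h2 - h3

theorem cube [Finite F] (hF : Nat.card F = 64) {c : F} (hc : c ^ 21 = 1) : ∃ g, g ^ 3 = c := by
  obtain ⟨g, hg⟩ := IsCyclic.exists_ofOrder_eq_natCard (α := Fˣ)
  rw [Nat.card_units, hF] at hg
  have h1 : IsPrimitiveRoot (g : F) 63 :=
    IsPrimitiveRoot.coe_units_iff.2 (by simpa only [hg] using IsPrimitiveRoot.orderOf g)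
  obtain ⟨i, -, hi⟩ := (h1.pow (a := 3) (b := 21) (by norm_num) rfl).eq_pow_of_pow_eq_one hc
  exact ⟨g ^ i, by rw [← hi, ← pow_mul, ← pow_mul, mul_comm]⟩

/-- Multiplication by a non-zero scalar. -/
def sc (d : F) (hd : d ≠ 0) : F ≃+ F := AddEquiv.mk' (Equiv.mulLeft₀ d hd) (mul_add d)

theorem sc_apply (d : F) (hd : d ≠ 0) (x : F) : sc d hd x = d * x := rfl

theorem fin {X Y N : Type} [AddCommGroup X] [AddCommGroup Y] [AddCommGroup N] [Finite F]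
    {β : X →+ Y →+ N} (h : TrF T) {ω : F} (hω : T ω = 1) {ι : N →+ F}
    (hι : Function.Injective ι) (h1 : ∀ t, t ^ 8 = t ↔ ∃ z, ι z = t) (e₁ : X ≃+ F) (e₂ : Y ≃+ F)
    (m : F → F → F) (hm : Fam T.ker m) (h2 : ∀ x y, ι (β x y) = T (m (e₁ x) (e₂ y))) : BM β := by
  have h3 : ∀ z, T (ι z * ω) = ι z := fun z => by rw [h.mul ((h1 _).2 ⟨z, rfl⟩), hω, mul_one]
  have h4 : ∀ z t, ι z = T t → ((ι z * ω : F) : F ⧸ T.ker) = t := fun z t e => by
    rw [QuotientAddGroup.eq_iff_sub_mem, AddMonoidHom.mem_ker, map_sub, h3, e, sub_self]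
  let f : N →+ F ⧸ T.ker := (QuotientAddGroup.mk' T.ker).comp ((AddMonoidHom.mulRight ω).comp ι)
  have hf : Function.Bijective f := by
    refine ⟨(injective_iff_map_eq_zero f).2 fun z hz => hι ?_, fun q => ?_⟩
    · rw [map_zero, ← h3]
      exact (QuotientAddGroup.eq_zero_iff _).1 hz
    · obtain ⟨t, rfl⟩ := QuotientAddGroup.mk_surjective q
      obtain ⟨z, hz⟩ := (h1 _).1 (h.fix t)
      exact ⟨z, h4 z t hz⟩
  exact ⟨F, inferInstance, inferInstance, T.ker, m, e₁, e₂, AddEquiv.ofBijective f hf, hm,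
    fun x y => h4 _ _ (h2 x y)⟩

theorem shape (E : EXP) [Finite F] (hF : Nat.card F = 64) (h : TrF T) (B : F →+ F →+ F)
    {ω ω' a b c : F} (o1 : ω ≠ 1) (o3 : ω ^ 3 = 1) (o1' : ω' ≠ 1) (o3' : ω' ^ 3 = 1) (a1 : a ≠ 1)
    (a7 : a ^ 7 = 1) (b1 : b ≠ 1) (b7 : b ^ 7 = 1) (c1 : c ≠ 1) (c7 : c ^ 7 = 1)
    (h1 : ∀ x y, B (ω * x) (ω' * y) = B x y) (h2 : ∀ x y, B (a * x) (b * y) = c * B x y) :
    ∃ (i j : ℕ) (d d' : F), ∀ x y, T (B x y * ω) =
      T (d * x ^ 2 ^ i * (y ^ 2 ^ j) ^ 16 + d' * (x ^ 2 ^ i) ^ 16 * y ^ 2 ^ j) := by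
  have := Fintype.ofFinite F
  obtain ⟨f1, f2, -⟩ := E.frob F 2 6 Nat.prime_two hF
  have : Finite (F ≃+* F) := Nat.finite_of_card_ne_zero (by omega)
  have := Fintype.ofFinite (F ≃+* F)
  obtain ⟨k, hk⟩ := E.ex F B
  have u1 := E.un F (fun σ τ => k σ τ * σ ω * τ ω') k fun x y => by
    rw [← hk, ← h1, hk]
    simp only [map_mul]
    exact Finset.sum_congr rfl fun σ _ => Finset.sum_congr rfl fun τ _ => by ring
  have u2 := E.un F (fun σ τ => k σ τ * σ a * τ b) (fun σ τ => c * k σ τ) fun x y => by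
    simp only [mul_assoc c, ← Finset.mul_sum]
    rw [← hk, ← h2, hk]
    simp only [map_mul]
    exact Finset.sum_congr rfl fun σ _ => Finset.sum_congr rfl fun τ _ => by ring
  have p3 := prim Nat.prime_three o1 o3
  have p7 := prim (by norm_num) a1 a7
  obtain ⟨p, hp, rfl⟩ := p3.eq_pow_of_pow_eq_one o3'
  obtain ⟨s, hs, rfl⟩ := p7.eq_pow_of_pow_eq_one b7
  obtain ⟨w, hw, rfl⟩ := p7.eq_pow_of_pow_eq_one c7
  obtain ⟨i, -, j, -, hij⟩ := supp p hp s hs w hw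
  refine ⟨i, j, ?_⟩
  let G : (F → F → F) → Prop := fun f => ∃ d d' : F, ∀ x y, T (f x y * ω) =
    T (d * x ^ 2 ^ i * (y ^ 2 ^ j) ^ 16 + d' * (x ^ 2 ^ i) ^ 16 * y ^ 2 ^ j)
  have g0 : G 0 := ⟨0, 0, fun x y => by simp⟩
  have ga : ∀ f g, G f → G g → G (f + g) := by
    rintro f g ⟨d, d', h3⟩ ⟨e, e', h4⟩
    refine ⟨d + e, d' + e', fun x y => ?_⟩
    rw [Pi.add_apply, Pi.add_apply, add_mul, map_add, h3, h4, ← map_add]
    congr 1
    ring
  have g1 : ∀ σ τ : F ≃+* F, G fun x y => k σ τ * σ x * τ y := by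
    intro σ τ
    by_cases h0 : k σ τ = 0
    · exact ⟨0, 0, fun x y => by simp [h0]⟩
    obtain ⟨u, hu, hσ⟩ := f2 σ
    obtain ⟨v, hv, hτ⟩ := f2 τ
    have v1 : ω ^ (2 ^ u + p * 2 ^ v) = 1 := by
      rw [pow_add, pow_mul, ← hσ, ← hτ]
      exact mul_left_cancel₀ h0 (by linear_combination congrFun (congrFun u1 σ) τ)
    have v2 : a ^ (2 ^ u + s * 2 ^ v) = a ^ w := by
      rw [pow_add, pow_mul, ← hσ, ← hτ]
      exact mul_left_cancel₀ h0 (by linear_combination congrFun (congrFun u2 σ) τ)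
    rw [pow_eq_pow_mod _ a7] at v2
    have q := h.pow
    simp only [G]
    rcases hij u hu v hv ⟨by rintro rfl; exact o1' (pow_zero _),
      by rintro rfl; exact b1 (pow_zero _), by rintro rfl; exact c1 (pow_zero _),
      Nat.mod_eq_zero_of_dvd (p3.dvd_of_pow_eq_one _ v1),
      p7.pow_inj (Nat.mod_lt _ (by norm_num)) hw v2⟩ with ⟨rfl, rfl⟩ | ⟨rfl, rfl⟩ | ⟨rfl, rfl⟩ |
      ⟨rfl, rfl⟩
    · refine ⟨k σ τ * ω, 0, fun x y => congrArg T ?_⟩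
      rw [hσ, hτ, pw q]
      ring
    · refine ⟨(k σ τ * ω) ^ 8, 0, fun x y => ?_⟩
      rw [hσ, hτ, pw q, pw q, zero_mul, zero_mul, add_zero, ← h.p8 (_ * _ ^ 16), mul_pow, mul_pow,
        ← pow_mul _ 8 8, ← pow_mul _ 16 8, show 16 * 8 = 64 * 2 from rfl, pow_mul _ 64 2, q, q]
      congr 1
      ring
    · refine ⟨0, k σ τ * ω, fun x y => congrArg T ?_⟩
      rw [hσ, hτ, pw q]
      ring
    · refine ⟨0, (k σ τ * ω) ^ 8, fun x y => ?_⟩
      rw [hσ, hτ, pw q, pw q, zero_mul, zero_mul, zero_add, ← h.p8 (_ * _ ^ 16 * _), mul_pow,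
        mul_pow, ← pow_mul _ 8 8, ← pow_mul _ 16 8, show 16 * 8 = 64 * 2 from rfl, pow_mul _ 64 2,
        q, q]
      congr 1
      ring
  have g2 : G (∑ σ : F ≃+* F, ∑ τ : F ≃+* F, fun x y => k σ τ * σ x * τ y) :=
    Finset.sum_induction _ G ga g0 fun σ _ => Finset.sum_induction _ G ga g0 fun τ _ => g1 σ τ
  simpa only [G, Finset.sum_apply, ← hk] using g2

theorem row : OfB5B := by
  intro E A X Y N _ _ _ _ _ _ _ _ _ _ _ _ β hB _
  rintro ⟨F, _, _, e₁, e₂, ι, ω, ω', a, b, c, hF, hι, h8, o1, o3, o1', o3', a1, a7, b1, b7, c1, c7,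
    h1, h2⟩
  obtain ⟨-, -, f3, -⟩ := E.frob F 2 6 Nat.prime_two hF
  choose φ hφ using f3
  have := Fintype.ofFinite F
  have hF' : Fintype.card F = 64 := Nat.card_eq_fintype_card.symm.trans hF
  have hT : TrF (AddMonoidHom.id F + (φ 3).toAddMonoidHom) := by
    refine ⟨fun t => congrArg (t + ·) (hφ 3 t), (pow_eq_zero_iff (n := 6) (by norm_num)).1 ?_, fun x => ?_⟩
    · have := FiniteField.cast_card_eq_zero F
      rw [hF'] at this
      linear_combination this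
    · rw [← hF', FiniteField.pow_card]
  generalize AddMonoidHom.id F + (φ 3).toAddMonoidHom = T at hT
  have hω := hT.om o1 o3
  have q := hT.pow
  let B : F →+ F →+ F := ((β.comp e₁.symm.toAddMonoidHom).compl₂ e₂.symm.toAddMonoidHom).compr₂ ι
  obtain ⟨i, j, d, d', h3⟩ := shape E hF hT B o1 o3 o1' o3' a1 a7 b1 b7 c1 c7
    (fun x y => congrArg ι (h1 x y)) h2
  have h4 : ∀ x y, ι (β x y) = T (d * φ i (e₁ x) * φ j (e₂ y) ^ 16 +
      d' * φ i (e₁ x) ^ 16 * φ j (e₂ y)) := fun x y => by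
    rw [hφ, hφ, ← h3, hT.mul (k := B _ _) (h8 _), hω, mul_one]
    simp [B]
  have := hB.nx
  have := hB.nn
  obtain ⟨x₀, hx⟩ := exists_ne (0 : X)
  obtain ⟨z₀, hz⟩ := exists_ne (0 : N)
  have hz' : ι z₀ ≠ 0 := fun e => hz (hι (e.trans ι.map_zero.symm))
  have h5 : ∀ (n : ℕ) z, ∃ z', ι z' = c ^ n * ι z := by
    intro n z
    induction n with
    | zero => exact ⟨z, by rw [pow_zero, one_mul]⟩
    | succ n ih =>
      obtain ⟨z', e⟩ := ih
      obtain ⟨y, rfl⟩ := hB.sx x₀ hx z'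
      refine ⟨_, (h2 (e₁ x₀) (e₂ y)).trans ?_⟩
      rw [e₁.symm_apply_apply, e₂.symm_apply_apply, e, pow_succ', mul_assoc]
  have h6 : ∀ t, t ^ 8 = t ↔ ∃ z, ι z = t := by
    refine fun t => ⟨fun e => ?_, fun ⟨z, e⟩ => e ▸ h8 z⟩
    rcases eq_or_ne t 0 with rfl | ht
    · exact ⟨0, ι.map_zero⟩
    have e1 : (t / ι z₀) ^ 8 = t / ι z₀ := by rw [div_pow, e, h8]
    obtain ⟨n, -, hn⟩ := (prim (by norm_num) c1 c7).eq_pow_of_pow_eq_one (ξ := t / ι z₀)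
      (mul_left_cancel₀ (div_ne_zero ht hz') (by linear_combination e1))
    obtain ⟨z, e2⟩ := h5 n z₀
    exact ⟨z, by rw [e2, hn, div_mul_cancel₀ _ hz']⟩
  have h16 : ∀ t, φ 4 t = t ^ 16 := hφ 4
  by_cases hd : d = 0
  · by_cases hd' : d' = 0
    · obtain ⟨y, rfl⟩ := hB.sx x₀ hx z₀
      exact absurd (by simp [h4, hd, hd']) hz'
    · refine fin hT hω hι h6 (e₁.trans ((φ i).trans (φ 4)).toAddEquiv)
        (e₂.trans ((φ j).toAddEquiv.trans (sc d' hd'))) _ (hT.fam hω) fun x y => ?_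
      rw [h4, hd, ← h16 (φ i _)]
      exact congrArg T (by simp [sc_apply]; ring)
  by_cases hd' : d' = 0
  · refine fin hT hω hι h6 (e₁.trans (φ i).toAddEquiv)
      (e₂.trans (((φ j).trans (φ 4)).toAddEquiv.trans (sc d hd))) _ (hT.fam hω) fun x y => ?_
    rw [h4, hd', ← h16 (φ j _)]
    exact congrArg T (by simp [sc_apply]; ring)
  have hu : d ^ 4 ≠ 0 := pow_ne_zero _ hd
  have h7 : ∀ x y, ι (β x y) = T (φ i (e₁ x) * (d ^ 4 * φ j (e₂ y)) ^ 16 +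
      d' / d ^ 4 * φ i (e₁ x) ^ 16 * (d ^ 4 * φ j (e₂ y))) := fun x y => by
    rw [h4, mul_pow, ← pow_mul d, q]
    congr 1
    field_simp
  refine fin hT hω hι h6 (e₁.trans (φ i).toAddEquiv) (e₂.trans ((φ j).toAddEquiv.trans (sc _ hu)))
    (fun x y => x * y ^ 16 + d' / d ^ 4 * x ^ 16 * y)
    (Or.inr (Or.inr ⟨hF, hT.ker, _, div_ne_zero hd' hu, fun e => ?_, fun _ _ => rfl⟩)) h7
  obtain ⟨g, hg⟩ := cube hF e
  have g0 : g ≠ 0 := by
    rintro rfl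
    exact div_ne_zero hd' hu (by rw [← hg]; simp)
  obtain ⟨x, e1⟩ := ((φ i).surjective.comp e₁.surjective) (g⁻¹ ^ 16)
  rw [Function.comp_apply] at e1
  obtain ⟨z, e2⟩ := (h6 1).1 (one_pow 8)
  obtain ⟨y, rfl⟩ := hB.sx x (by
    rintro rfl
    rw [map_zero, map_zero] at e1
    exact pow_ne_zero _ (inv_ne_zero g0) e1.symm) z
  rw [h7, e1, ← hg] at e2
  refine hT.ne (g⁻¹ ^ 16 * (d ^ 4 * φ j (e₂ y)) ^ 16) ((congrArg T ?_).trans e2)
  rw [mul_pow _ _ 4, ← pow_mul _ 16 4, ← pow_mul _ 16 4, ← pow_mul _ 16 16,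
    show 16 * 16 = 64 * 4 from rfl, pow_mul _ 64 4, q, q]
  field_simp

end Pool.Agent.MP_f8e15f_co.RB5B
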