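import Pool.Agent.MP_f8e15f_co.H33.Spec2

open MulAction Pointwise

namespace Pool.Agent.MP_f8e15f_co.RBLK

open Pool.Agent.MP_f8e15f_co.H33 Pool.Agent.MP_f8e15f_co.H24

section
variable {G P B : Type} [Group G] [MulAction G P] [MulAction G B] {I : P → B → Prop}

theorem trP (h : Core G I) (p q : P) : ∃ g : G, g • p = q := by
  obtain ⟨b, -, -, hb, -⟩ := h.tP p
  obtain ⟨c, -, -, hc, -⟩ := h.tP q
  obtain ⟨g, hg, -⟩ := h.pt.flag p b q c hb hc
  exact ⟨g, hg⟩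

theorem col_smul (h : PT G I) (g : G) {p q : P} (hc : Col I p q) : Col I (g • p) (g • q) := by
  obtain ⟨b, h1, h2⟩ := hc
  exact ⟨g • b, (h.inv g p b).2 h1, (h.inv g q b).2 h2⟩

/-- An invariant equivalence relation that is not universal relates no two collinear points. -/
theorem key1 (h : Core G I) (r : P → P → Prop) (hr : Equivalence r)
    (hi : ∀ (g : G) p q, r p q → r (g • p) (g • q)) (hn : ∃ a b, ¬ r a b) {p q : P}
    (hpq : r p q) : p = q ∨ ¬ Col I p q := by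
  by_contra hcon
  rw [not_or, not_not] at hcon
  obtain ⟨hne, hc⟩ := hcon
  have hall : ∀ x y, Col I x y → r x y := by
    intro x y hxy
    by_cases e : x = y
    · exact e ▸ hr.refl x
    · obtain ⟨g, h1, h2⟩ := h.pt.col p q x y hne e hc hxy
      exact h1 ▸ h2 ▸ hi g p q hpq
  obtain ⟨a, a', haa⟩ := hn
  obtain ⟨b, -, -, hb, -⟩ := h.tP a'
  have h0 : ∀ x, I x b → ¬ Col I a x := fun x hx hax =>
    haa (hr.trans (hall a x hax) (hall x a' ⟨b, hx, hb⟩))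
  have hab : ¬ I a b := fun hh => h0 a hh ⟨b, hh, hh⟩
  have h1 : ∀ x c, ¬ I x c → ∀ y, I y c → ¬ Col I x y := by
    intro x c hxc y hy hxy
    obtain ⟨g, e1, e2⟩ := h.pt.anti x c a b hxc hab
    exact h0 (g • y) (e2 ▸ (h.pt.inv g y c).2 hy) (e1 ▸ col_smul h.pt g hxy)
  obtain ⟨c, d, hcd, hc', hd'⟩ := h.tP p
  refine hcd (h.eB c d fun x => ⟨fun hx => ?_, fun hx => ?_⟩)
  · by_contra hh
    exact h1 x d hh p hd' ⟨c, hx, hc'⟩
  · by_contra hh
    exact h1 x c hh p hc' ⟨d, hx, hd'⟩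

theorem key (h : Core G I) (r : P → P → Prop) (hr : Equivalence r)
    (hi : ∀ (g : G) p q, r p q → r (g • p) (g • q)) (hn : ∃ a b, ¬ r a b)
    (ht : ∃ a b, a ≠ b ∧ r a b) (p q : P) : r p q ↔ (p = q ∨ ¬ Col I p q) := by
  refine ⟨key1 h r hr hi hn, ?_⟩
  obtain ⟨a, b, hab, hrab⟩ := ht
  have hnc : ¬ Col I a b := (key1 h r hr hi hn hrab).resolve_left hab
  intro hpq
  by_cases e : p = q
  · exact e ▸ hr.refl p
  · obtain ⟨g, h1, h2⟩ := h.pt.non a b p q hab e hnc (hpq.resolve_left e)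
    exact h1 ▸ h2 ▸ hi g a b hrab

theorem prim (h : Core G I) : IsPreprimitive G P ∨ Imp I := by
  by_cases hp : IsPreprimitive G P
  · exact Or.inl hp
  right
  have : IsPretransitive G P := ⟨trP h⟩
  have : ∃ D : Set P, IsBlock G D ∧ ¬ IsTrivialBlock D := by
    by_contra hc
    refine hp ⟨fun {D} hD => ?_⟩
    by_contra hh
    exact hc ⟨D, hD, hh⟩
  obtain ⟨D, hD, hT⟩ := this
  rw [IsTrivialBlock, not_or, Set.not_subsingleton_iff] at hT
  obtain ⟨⟨a, ha, b, hb, hab⟩, hu⟩ := hT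
  have hB : ∀ (g g' : G) x, x ∈ g • D → x ∈ g' • D → g • D = g' • D := by
    intro g g' x h1 h2
    by_contra hne
    exact Set.disjoint_left.1 (hD hne) h1 h2
  let r : P → P → Prop := fun p q => ∃ g : G, p ∈ g • D ∧ q ∈ g • D
  have hr : Equivalence r := by
    refine ⟨fun x => ?_, fun ⟨g, h1, h2⟩ => ⟨g, h2, h1⟩, fun ⟨g, h1, h2⟩ ⟨g', h3, h4⟩ => ?_⟩
    · obtain ⟨g, hg⟩ := trP h a x
      have : x ∈ g • D := hg ▸ Set.smul_mem_smul_set ha
      exact ⟨g, this, this⟩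
    · exact ⟨g, h1, (hB g g' _ h2 h3).symm ▸ h4⟩
  have hi : ∀ (g : G) p q, r p q → r (g • p) (g • q) := fun g p q ⟨g', h1, h2⟩ =>
    ⟨g * g', by rw [mul_smul]; exact Set.smul_mem_smul_set h1,
      by rw [mul_smul]; exact Set.smul_mem_smul_set h2⟩
  have hn : ∃ a b, ¬ r a b := by
    obtain ⟨c, hc⟩ := (Set.ne_univ_iff_exists_notMem D).1 hu
    refine ⟨a, c, fun ⟨g, h1, h2⟩ => hc ?_⟩
    have := hB g 1 a h1 (by rw [one_smul]; exact ha)
    rw [this, one_smul] at h2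
    exact h2
  have hab' : r a b := ⟨1, by rw [one_smul]; exact ha, by rw [one_smul]; exact hb⟩
  have hk := key h r hr hi hn ⟨a, b, hab, hab'⟩
  refine ⟨⟨a, b, hab, ((hk a b).1 hab').resolve_left hab⟩, fun p q s h1 h2 => ?_⟩
  exact (hk p s).1 (hr.trans ((hk p q).2 (Or.inr h1)) ((hk q s).2 (Or.inr h2)))

theorem orb (h : Core G I) (N : Subgroup G) (hN : N.Normal) (h0 : N ≠ ⊥)
    (hn : ∃ p q : P, ∀ n ∈ N, n • p ≠ q) (p q : P) :
    (∃ n ∈ N, n • p = q) ↔ (p = q ∨ ¬ Col I p q) := by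
  refine key h (fun p q => ∃ n ∈ N, n • p = q) ⟨fun x => ⟨1, N.one_mem, one_smul G x⟩, ?_, ?_⟩
    ?_ ?_ ?_ p q
  · rintro x y ⟨n, hn, rfl⟩
    exact ⟨n⁻¹, N.inv_mem hn, inv_smul_smul n x⟩
  · rintro x y z ⟨n, hn, rfl⟩ ⟨m, hm, rfl⟩
    exact ⟨m * n, N.mul_mem hm hn, mul_smul m n x⟩
  · rintro g x y ⟨n, hn, rfl⟩
    exact ⟨g * n * g⁻¹, hN.conj_mem n hn g, by rw [mul_smul, mul_smul, inv_smul_smul]⟩
  · obtain ⟨a, b, hab⟩ := hn
    exact ⟨a, b, fun ⟨n, h1, h2⟩ => hab n h1 h2⟩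
  · by_contra hc
    refine h0 ((Subgroup.eq_bot_iff_forall N).2 fun n hn => h.fP n fun x => ?_)
    by_contra hx
    exact hc ⟨x, n • x, fun e => hx e.symm, n, hn, rfl⟩

end

theorem row : H33.OfBLK := by
  intro hF
  refine ⟨fun G P B _ _ _ _ _ _ _ I h => ⟨prim h, orb h⟩, ?_⟩
  intro G P B _ _ _ _ _ _ _ I h hp hc N hN h0 hab htr
  obtain ⟨b⟩ := h.nB
  obtain ⟨x, y, hxy, hx, hy⟩ := h.tB b
  have : Nontrivial P := ⟨x, y, hxy⟩
  obtain ⟨w, hw⟩ := hF G P hp h.fP N (stabilizer G b) hN h0 hab (by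
    refine (Subgroup.eq_bot_iff_forall _).2 fun n hn => h.fB n fun c => ?_
    obtain ⟨m, hm, rfl⟩ := htr b c
    have h1 : n • b = b := hn.1
    rw [← mul_smul, hab n hn.2 m hm, mul_smul, h1]) (fun g => by
    obtain ⟨n, hn, e⟩ := htr (g • b) b
    exact ⟨n, hn, by rw [mem_stabilizer_iff, mul_smul, e]⟩)
  have hwb : ¬ I w b := by
    intro hh
    have : ∀ z, I z b → z = w := by
      intro z hz
      obtain ⟨g, h1, h2⟩ := h.pt.flag w b z b hh hz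
      rw [← h1, hw g h2]
    exact hxy ((this x hx).trans (this y hy).symm)
  have hb : ∀ z, I z b ↔ z ≠ w := by
    refine fun z => ⟨fun hz e => hwb (e ▸ hz), fun hz => ?_⟩
    by_contra hh
    obtain ⟨g, h1, h2⟩ := h.pt.anti w b z b hwb hh
    exact hz (by rw [← h1, hw g h2])
  have hg : ∀ g : G, {p | I p (g • b)} = ({g • w} : Set P)ᶜ := by
    intro g
    ext z
    have := h.pt.inv g (g⁻¹ • z) b
    rw [smul_inv_smul, hb] at this
    simp only [Set.mem_ofPred_eq, Set.mem_compl_iff, Set.mem_singleton_iff, this, ne_eq,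
      inv_smul_eq_iff]
  refine ⟨P, _, Listed.compl P hc, Equiv.refl P, ?_⟩
  ext S
  simp only [Equiv.coe_refl, Set.image_id, Set.image_id', des, Set.mem_ofPred_eq]
  constructor
  · rintro ⟨c, rfl⟩
    obtain ⟨n, -, rfl⟩ := htr b c
    exact ⟨n • w, hg n⟩
  · rintro ⟨a, rfl⟩
    obtain ⟨g, rfl⟩ := trP h w a
    exact ⟨g • b, (hg g).symm⟩

end Pool.Agent.MP_f8e15f_co.RBLK
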