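import Pool.Agent.MP_f8e15f_co.H33.Spec

/-! Row COV: a covering argument for the elements with fixed vectors. -/

open MulAction Pointwise

namespace Pool.Agent.MP_f8e15f_co.RCOV

open Pool.Agent.MP_f8e15f_co.H33 Finset Polynomial

set_option linter.unusedSectionVars false

section Grp

variable {G : Type} [Group G] {A E : Subgroup G} {t : ℕ}

theorem pow_swap {u v c : G} (h : v * u = u * v * c) (hv : Commute c v)
    (n : ℕ) : v ^ n * u = u * v ^ n * c ^ n := by
  induction n with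
  | zero => simp
  | succ n ih =>
    calc v ^ (n + 1) * u = v ^ n * (v * u) := by rw [pow_succ, mul_assoc]
      _ = (v ^ n * u) * v * c := by rw [h]; simp only [mul_assoc]
      _ = u * v ^ n * (c ^ n * v) * c := by rw [ih]; simp only [mul_assoc]
      _ = u * v ^ (n + 1) * c ^ (n + 1) := by
        rw [(hv.pow_left n).eq, pow_succ, pow_succ]; simp only [mul_assoc]

theorem mul_pow_two {u v c : G} (h : v * u = u * v * c) (hv : Commute c v) (hu : Commute c u)
    (n : ℕ) : (u * v) ^ n = u ^ n * v ^ n * c ^ n.choose 2 := by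
  induction n with
  | zero => simp
  | succ n ih =>
    have e : (n + 1).choose 2 = n + n.choose 2 := by
      rw [Nat.choose_succ_succ' n 1, Nat.choose_one_right]
    calc (u * v) ^ (n + 1) = u ^ n * v ^ n * (c ^ n.choose 2 * (u * v)) := by
          rw [pow_succ, ih]; simp only [mul_assoc]
      _ = u ^ n * (v ^ n * u) * v * c ^ n.choose 2 := by
          rw [((hu.mul_right hv).pow_left _).eq]; simp only [mul_assoc]
      _ = u ^ n * u * v ^ n * (c ^ n * v) * c ^ n.choose 2 := by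
          rw [pow_swap h hv]; simp only [mul_assoc]
      _ = u ^ (n + 1) * v ^ (n + 1) * c ^ (n + 1).choose 2 := by
          rw [(hv.pow_left n).eq, e, pow_add c, pow_succ, pow_succ]; simp only [mul_assoc]

theorem cen (hy : Sym A E t) {a x : G} (ha : a ∈ A) (hx : x ∈ E) : Commute a x :=
  Subgroup.mem_centralizer_iff.1 (hy.cent hx) a ha

theorem fix_one (hy : Sym A E t) {x a : G} (hx : x ∈ E) (hx' : x ∉ A) (ha : a ∈ A)
    (h : x ^ t = a ^ t) : ∃ y ∈ E, y ∉ A ∧ y ^ t = 1 := by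
  refine ⟨x * a⁻¹, E.mul_mem hx (E.inv_mem (hy.lt.le ha)), fun hh => hx' ?_, ?_⟩
  · simpa using A.mul_mem hh ha
  · rw [(cen hy ha hx).symm.inv_right.mul_pow, h, inv_pow, mul_inv_cancel]

theorem corr [Finite G] (hy : Sym A E t) (hc : IsCyclic A) {x₁ x₂ : G} (h1 : x₁ ∈ E)
    (h2 : x₂ ∈ E) (n1 : x₁ ∉ A) (n2 : ∀ k : ℕ, x₁ ^ k * x₂ ∉ A)
    (hp : ∀ k : ℕ, (x₁ ^ k * x₂) ^ t = (x₁ ^ t) ^ k * x₂ ^ t) : ∃ y ∈ E, y ∉ A ∧ y ^ t = 1 := by
  obtain ⟨g, hg⟩ := IsCyclic.exists_monoid_generator (α := A)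
  obtain ⟨m, hm⟩ := hg ⟨_, hy.pow x₁ h1⟩
  obtain ⟨n, hn⟩ := hg ⟨_, hy.pow x₂ h2⟩
  have em : (g : G) ^ m = x₁ ^ t := by simpa using congrArg Subtype.val hm
  have en : (g : G) ^ n = x₂ ^ t := by simpa using congrArg Subtype.val hn
  by_cases hd : t ∣ m
  · obtain ⟨s, rfl⟩ := hd
    exact fix_one hy h1 n1 (A.pow_mem g.2 s) (by rw [← em, ← pow_mul, mul_comm])
  · have := Fact.mk hy.prime
    have hm0 : (m : ZMod t) ≠ 0 := fun e => hd ((ZMod.natCast_eq_zero_iff _ _).1 e)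
    obtain ⟨k, s, hs⟩ : ∃ k : ℕ, t ∣ m * k + n := by
      refine ⟨(-(n : ZMod t) * (m : ZMod t)⁻¹).val, (ZMod.natCast_eq_zero_iff _ _).1 ?_⟩
      push_cast
      rw [ZMod.natCast_zmod_val]
      field_simp
      ring
    refine fix_one hy (E.mul_mem (E.pow_mem h1 k) h2) (n2 k) (A.pow_mem g.2 s) ?_
    rw [hp, ← em, ← en, ← pow_mul, ← pow_add, hs, ← pow_mul, mul_comm]

theorem roots_le [Finite G] (hy : Sym A E t) (hc : IsCyclic A) (S : Finset G)
    (hS : ∀ a ∈ S, a ∈ A ∧ a ^ t = 1) : #S ≤ t := by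
  classical
  have := Fintype.ofFinite A
  refine le_trans ?_ ((card_image_le (f := fun a : A => (a : G))).trans
    (IsCyclic.card_pow_eq_one_le (α := A) hy.prime.pos))
  refine card_le_card fun a ha => mem_image.2 ⟨⟨a, (hS a ha).1⟩, ?_, rfl⟩
  exact mem_filter.2 ⟨mem_univ _, Subtype.ext (by simpa using (hS a ha).2)⟩

theorem ex_odd [Finite G] (hy : Sym A E t) (hc : IsCyclic A)
    (nd : ∀ x ∈ E, (∀ y ∈ E, x * y = y * x) → x ∈ A)
    (ex : ∀ x ∈ E, ∀ y ∈ E, (x * y * x⁻¹ * y⁻¹) ^ t = 1) (ht : t ≠ 2) :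
    ∃ y ∈ E, y ∉ A ∧ y ^ t = 1 := by
  obtain ⟨x₁, h1, n1⟩ := SetLike.exists_of_lt hy.lt
  obtain ⟨x₂, h2, n2⟩ : ∃ y ∈ E, x₁ * y ≠ y * x₁ := by
    by_contra hn
    push Not at hn
    exact n1 (nd x₁ h1 hn)
  refine corr hy hc h1 h2 n1 (fun k hk => n2 ?_) fun k => ?_
  · have e := (cen hy hk h1).eq
    have e' : x₁ ^ k * (x₂ * x₁) = x₁ ^ k * (x₁ * x₂) := by
      rw [← mul_assoc, e, ← mul_assoc, ← mul_assoc, ← pow_succ, ← pow_succ']
    exact (mul_left_cancel e').symm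
  · have hu := E.pow_mem h1 k
    have cA := hy.comm _ (E.inv_mem h2) _ (E.inv_mem hu)
    have c1 := ex _ (E.inv_mem h2) _ (E.inv_mem hu)
    obtain ⟨s, hs⟩ := hy.prime.odd_of_ne_two ht
    have e : t.choose 2 = t * s := by
      rw [Nat.choose_two_right, hs, Nat.add_sub_cancel, ← mul_assoc, mul_comm _ 2, mul_assoc,
        Nat.mul_div_cancel_left _ two_pos]
    rw [mul_pow_two (c := x₂⁻¹ * (x₁ ^ k)⁻¹ * x₂⁻¹⁻¹ * (x₁ ^ k)⁻¹⁻¹) (by group) (cen hy cA h2)
      (cen hy cA hu), e, pow_mul, c1, one_pow, mul_one, ← pow_mul, ← pow_mul, mul_comm k]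

theorem ex_two [Finite G] (hy : Sym A E 2) (hc : IsCyclic A)
    (ex : ∀ x ∈ E, ∀ y ∈ E, (x * y * x⁻¹ * y⁻¹) ^ 2 = 1) (hQ : 4 < A.relIndex E) :
    ∃ y ∈ E, y ∉ A ∧ y ^ 2 = 1 := by
  classical
  obtain ⟨x, h1, n1⟩ := SetLike.exists_of_lt hy.lt
  by_contra hn
  have k1 : ∀ e ∈ E, Commute x e → e ∈ A ∨ x⁻¹ * e ∈ A := by
    intro e he hc'
    by_contra hh
    push Not at hh
    refine hn (corr hy hc h1 he n1 (fun k hk => ?_) fun k => ?_)
    · have h2 := hy.pow x h1
      rcases Nat.even_or_odd' k with ⟨s, rfl | rfl⟩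
      · have := A.mul_mem (A.inv_mem (A.pow_mem h2 s)) hk
        rw [pow_mul, inv_mul_cancel_left] at this
        exact hh.1 this
      · have := A.mul_mem (A.inv_mem (A.pow_mem h2 (s + 1))) hk
        refine hh.2 ?_
        convert this using 1
        group
    · rw [(hc'.pow_left k).mul_pow, ← pow_mul, ← pow_mul, mul_comm k]
  obtain ⟨w, hw, k2⟩ : ∃ w ∈ E, ∀ e ∈ E, Commute x e ∨ Commute x (w⁻¹ * e) := by
    by_cases h : ∀ e ∈ E, Commute x e
    · exact ⟨1, E.one_mem, fun e he => .inl (h e he)⟩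
    push Not at h
    obtain ⟨w, hw, nw⟩ := h
    refine ⟨w, hw, fun e he => ?_⟩
    by_cases ne : Commute x e
    · exact .inl ne
    right
    have c1 : x * w * x⁻¹ * w⁻¹ ≠ 1 := fun h => nw (by
      rw [mul_inv_eq_one, mul_inv_eq_iff_eq_mul] at h; exact h)
    have c2 : x * e * x⁻¹ * e⁻¹ ≠ 1 := fun h => ne (by
      rw [mul_inv_eq_one, mul_inv_eq_iff_eq_mul] at h; exact h)
    have c3 : x * w * x⁻¹ * w⁻¹ = x * e * x⁻¹ * e⁻¹ := by
      by_contra c3
      have := roots_le hy hc {1, x * w * x⁻¹ * w⁻¹, x * e * x⁻¹ * e⁻¹} (by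
        intro a ha
        simp only [mem_insert, mem_singleton] at ha
        rcases ha with rfl | rfl | rfl
        · exact ⟨A.one_mem, one_pow _⟩
        · exact ⟨hy.comm _ h1 _ hw, ex _ h1 _ hw⟩
        · exact ⟨hy.comm _ h1 _ he, ex _ h1 _ he⟩)
      rw [card_eq_three.2 ⟨_, _, _, c1.symm, c2.symm, c3, rfl⟩] at this
      omega
    calc x * (w⁻¹ * e) = w⁻¹ * (x * w * x⁻¹ * w⁻¹)⁻¹ * (x * e * x⁻¹ * e⁻¹) * e * x := by group
      _ = w⁻¹ * e * x := by rw [c3]; group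
  let f : Bool × Bool → E := fun b =>
    (if b.1 then ⟨w, hw⟩ else 1) * if b.2 then ⟨x, h1⟩ else 1
  have sj : Function.Surjective fun b => (QuotientGroup.mk (f b) : E ⧸ A.subgroupOf E) := by
    intro q
    obtain ⟨⟨e, he⟩, rfl⟩ := QuotientGroup.mk_surjective q
    rcases k2 e he with h | h
    · rcases k1 e he h with g | g
      · exact ⟨(false, false), QuotientGroup.eq.2 (by simpa [f, Subgroup.mem_subgroupOf] using g)⟩
      · exact ⟨(false, true), QuotientGroup.eq.2 (by simpa [f, Subgroup.mem_subgroupOf] using g)⟩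
    · rcases k1 _ (E.mul_mem (E.inv_mem hw) he) h with g | g
      · exact ⟨(true, false), QuotientGroup.eq.2 (by simpa [f, Subgroup.mem_subgroupOf] using g)⟩
      · exact ⟨(true, true), QuotientGroup.eq.2
          (by simpa [f, Subgroup.mem_subgroupOf, mul_assoc] using g)⟩
  have := Nat.card_le_card_of_surjective _ sj
  have e4 : Nat.card (Bool × Bool) = 4 := by simp
  have e5 : A.relIndex E = Nat.card (E ⧸ A.subgroupOf E) := rfl
  omega

/-- At most `t (Q - 1)` elements of order `t` outside `A`. -/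
theorem card_T [Finite G] (hy : Sym A E t) (hc : IsCyclic A) (T : Finset E)
    (hT : ∀ y ∈ T, (y : G) ∉ A ∧ (y : G) ^ t = 1) : #T ≤ t * (A.relIndex E - 1) := by
  classical
  have := Fintype.ofFinite (E ⧸ A.subgroupOf E)
  have e : #(univ.erase (QuotientGroup.mk 1 : E ⧸ A.subgroupOf E)) = A.relIndex E - 1 := by
    rw [card_erase_of_mem (mem_univ _), card_univ, ← Nat.card_eq_fintype_card]
    rfl
  rw [← e]
  refine card_le_mul_card_image_of_maps_to (f := fun y : E => (QuotientGroup.mk y : E ⧸ _))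
    (fun y hy' => mem_erase.2 ⟨fun h => (hT y hy').1 ?_, mem_univ _⟩) t fun b _ => ?_
  · simpa [Subgroup.mem_subgroupOf] using QuotientGroup.eq.1 h.symm
  · obtain ⟨⟨x, hx⟩, rfl⟩ := QuotientGroup.mk_surjective b
    rcases (T.filter fun a => (QuotientGroup.mk a : E ⧸ A.subgroupOf E) =
      QuotientGroup.mk ⟨x, hx⟩).eq_empty_or_nonempty with h | ⟨y₀, h0⟩
    · rw [h]
      exact Nat.zero_le _
    obtain ⟨h1, h2⟩ := mem_filter.1 h0
    rw [← card_image_of_injective _ (f := fun y : E => (y₀ : G)⁻¹ * y)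
      fun a b h => Subtype.ext (mul_left_cancel h)]
    refine roots_le hy hc _ fun a ha => ?_
    obtain ⟨y, hy', rfl⟩ := mem_image.1 ha
    obtain ⟨h3, h4⟩ := mem_filter.1 hy'
    have hA : (y₀ : G)⁻¹ * y ∈ A := by
      simpa [Subgroup.mem_subgroupOf] using QuotientGroup.eq.1 (h2.trans h4.symm)
    refine ⟨hA, ?_⟩
    have := (cen hy hA y₀.2).symm.mul_pow t
    rwa [mul_inv_cancel_left, (hT y h3).2, (hT y₀ h1).2, one_mul, eq_comm] at this

end Grp

theorem eigen {Φ X ι : Type} [Field Φ] [AddCommGroup X] [Module Φ X] (Y : Module.End Φ X)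
    (f : ι → Φ) (s : Finset ι) (v : X) (hv : v ≠ 0)
    (h : aeval Y (∏ i ∈ s, (Polynomial.X - C (f i))) v = 0) :
    ∃ i, ∃ w, w ≠ 0 ∧ Y w = f i • w := by
  classical
  induction s using Finset.induction_on with
  | empty => exact absurd (by simpa using h) hv
  | insert a s ha ih =>
    by_cases h0 : aeval Y (∏ i ∈ s, (Polynomial.X - C (f i))) v = 0
    · exact ih h0
    · refine ⟨a, _, h0, ?_⟩
      rw [prod_insert ha, map_mul, Module.End.mul_apply] at h
      simpa [sub_eq_zero] using h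

theorem num (δ : ℕ) : 2 * δ ^ 3 ≤ 4 ^ δ := by
  rcases Nat.lt_or_ge δ 2 with h | h
  · interval_cases δ <;> norm_num
  · induction δ, h using Nat.le_induction with
    | base => norm_num
    | succ n hn ih =>
      have : (n + 1) ^ 3 ≤ 4 * n ^ 3 := by
        obtain ⟨m, rfl⟩ := Nat.exists_eq_add_of_le hn
        ring_nf
        nlinarith [Nat.zero_le m, Nat.zero_le (m ^ 2), Nat.zero_le (m ^ 3)]
      rw [pow_succ 4]
      omega

section Lin

variable {G X Φ : Type} [Group G] [Finite G] [AddCommGroup X] [Finite X] [Nontrivial X]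
  [DistribMulAction G X] [Field Φ] [Finite Φ] [Module Φ X] {A E : Subgroup G} {t : ℕ}

theorem lin (hF : StrF G X Φ A) (hy : Sym A E t) {y : G} (h : y ∈ E) (c : Φ) (x : X) :
    y • c • x = c • y • x := (hF.lin y).1 (hy.cent h) c x

theorem scal (hS : Str G X Φ A) {a : G} (ha : a ∈ A) (h1 : a ≠ 1) (ht : a ^ t = 1) :
    ∃ c : Φ, c ≠ 1 ∧ c ^ t = 1 ∧ (∀ x : X, a • x = c • x) ∧
      ∀ (n : ℕ) (x : X), a ^ n • x = c ^ n • x := by
  obtain ⟨c, hc⟩ := hS.scal a ha
  have hp : ∀ (n : ℕ) (x : X), a ^ n • x = c ^ n • x := fun n => by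
    induction n with
    | zero => simp
    | succ n ih => intro x; rw [pow_succ', mul_smul, ih, hc, smul_smul, ← pow_succ']
  refine ⟨c, fun e => h1 (hS.faith a fun x => by rw [hc, e, one_smul]), ?_, hc, hp⟩
  obtain ⟨x, hx⟩ := exists_ne (0 : X)
  have := hp t x
  rw [ht, one_smul] at this
  exact smul_left_injective Φ hx (by simpa using this.symm)

theorem fixes (hS : Str G X Φ A) (hF : StrF G X Φ A) (hy : Sym A E t)
    (hz : ∃ z ∈ A, orderOf z = t) (h : ∃ y ∈ E, y ∉ A ∧ y ^ t = 1) (tr : Tr1 G X) (v : X)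
    (hv : v ≠ 0) : ∃ y ∈ E, y ∉ A ∧ y • v = v := by
  obtain ⟨y, hyE, hyA, hy1⟩ := h
  obtain ⟨z, hzA, hz⟩ := hz
  have := Fact.mk hy.prime
  obtain ⟨z1, z2⟩ := orderOf_eq_prime_iff.1 hz
  obtain ⟨ζ, c1, c2, -, c3⟩ := scal hS hzA z2 z1
  have pr : IsPrimitiveRoot ζ t := orderOf_eq_prime c2 c1 ▸ IsPrimitiveRoot.orderOf ζ
  let Y : Module.End Φ X :=
    { toFun := fun x => y • x
      map_add' := smul_add y
      map_smul' := lin hF hy hyE }
  have hY : ∀ (n : ℕ) (x : X), (Y ^ n) x = y ^ n • x := fun n => by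
    induction n with
    | zero => simp
    | succ n ih => intro x; rw [pow_succ, Module.End.mul_apply, ih, pow_succ, mul_smul]; rfl
  obtain ⟨i, w, hw, e⟩ := eigen Y (fun i => ζ ^ i * 1) (range t) v hv (by
    rw [← X_pow_sub_C_eq_prod pr hy.prime.pos (one_pow t)]
    simp [hY, hy1])
  have e' : y • w = z ^ i • w := by rw [c3, ← mul_one (ζ ^ i)]; exact e
  obtain ⟨g, rfl⟩ := tr w v hw hv
  have hi := A.inv_mem (A.pow_mem hzA i)
  refine ⟨g * ((z ^ i)⁻¹ * y) * g⁻¹, hy.norm.conj_mem _ (E.mul_mem (hy.lt.le hi) hyE) g,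
    fun hh => hyA ?_, ?_⟩
  · have := hS.norm.conj_mem _ hh g⁻¹
    have h2 : (z ^ i)⁻¹ * y ∈ A := by simpa [mul_assoc] using this
    exact (A.mul_mem_cancel_left hi).1 h2
  · rw [mul_smul, inv_smul_smul, mul_smul, mul_smul, e', inv_smul_smul]

/-- The vectors fixed by `y`. -/
def Fx (hF : StrF G X Φ A) (hy : Sym A E t) (y : E) : Submodule Φ X where
  carrier := {x | (y : G) • x = x}
  add_mem' := fun {a b} ha hb => by
    simp only [Set.mem_ofPred_eq] at ha hb ⊢
    rw [smul_add, ha, hb]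
  zero_mem' := smul_zero _
  smul_mem' := fun c x hx => by
    simp only [Set.mem_ofPred_eq] at hx ⊢
    rw [lin hF hy y.2, hx]

theorem count (hS : Str G X Φ A) (hF : StrF G X Φ A) (hy : Sym A E t)
    (hz : ∃ z ∈ A, orderOf z = t) (h : ∃ y ∈ E, y ∉ A ∧ y ^ t = 1) (tr : Tr1 G X) :
    ∃ y : E, (y : G) ∉ A ∧
      (Nat.card X - 1) * (t - 1) ≤ t * (A.relIndex E - 1) * (Nat.card (Fx hF hy y) - 1) := by
  classical
  have := Fintype.ofFinite E
  have := Fintype.ofFinite X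
  have := Fact.mk hy.prime
  let T : Finset E := univ.filter fun y => (y : G) ∉ A ∧ (y : G) ^ t = 1
  have hT : ∀ y ∈ T, (y : G) ∉ A ∧ (y : G) ^ t = 1 := fun y hy' => (mem_filter.1 hy').2
  have ne : T.Nonempty := by
    obtain ⟨y, h1, h2⟩ := h
    exact ⟨⟨y, h1⟩, mem_filter.2 ⟨mem_univ _, h2⟩⟩
  obtain ⟨y₀, h0, hm⟩ := exists_max_image T (fun y => Nat.card (Fx hF hy y)) ne
  refine ⟨y₀, (hT y₀ h0).1, le_trans ?_ (Nat.mul_le_mul_right _ (card_T hy hF.cyc T hT))⟩
  have e : #(univ.erase (0 : X)) = Nat.card X - 1 := by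
    rw [card_erase_of_mem (mem_univ _), card_univ, Nat.card_eq_fintype_card]
  rw [← e]
  refine card_mul_le_card_mul (fun (v : X) (y : E) => (y : G) • v = v) (fun v hv => ?_)
    fun y hy' => ?_
  · have v0 := (mem_erase.1 hv).1
    obtain ⟨y, h1, h2, h3⟩ := fixes hS hF hy hz h tr v v0
    have h4 : ∀ n : ℕ, y ^ n • v = v := fun n => by
      induction n with
      | zero => simp
      | succ n ih => rw [pow_succ, mul_smul, h3, ih]
    have h5 : y ^ t = 1 := hF.free _ (hy.pow y h1) v v0 (h4 t)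
    have h6 : orderOf y = t := orderOf_eq_prime h5 fun e => h2 (e ▸ A.one_mem)
    rw [← Nat.card_Ico]
    refine card_le_card_of_injOn (fun i => (⟨y ^ i, E.pow_mem h1 i⟩ : E)) (fun i hi => ?_)
      fun i hi j hj e => ?_
    · obtain ⟨i1, i2⟩ := mem_Ico.1 hi
      refine mem_coe.2 ((mem_bipartiteAbove _).2 ⟨mem_filter.2 ⟨mem_univ _, fun hA => ?_, ?_⟩, h4 i⟩)
      · exact pow_ne_one_of_lt_orderOf (by omega) (h6 ▸ i2) (hF.free _ hA v v0 (h4 i))
      · change (y ^ i) ^ t = 1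
        rw [← pow_mul, mul_comm, pow_mul, h5, one_pow]
    · exact pow_injOn_Iio_orderOf (x := y) (h6 ▸ (mem_Ico.1 hi).2) (h6 ▸ (mem_Ico.1 hj).2)
        (congrArg Subtype.val e)
  · refine le_trans ?_ (Nat.sub_le_sub_right (hm y hy') 1)
    have e2 : Nat.card (Fx hF hy y) = #(univ.filter fun v : X => (y : G) • v = v) := by
      rw [← Fintype.card_subtype, ← Nat.card_eq_fintype_card]
      rfl
    rw [e2, ← card_erase_of_mem (a := (0 : X)) (by simp)]
    refine card_le_card fun v hv => ?_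
    obtain ⟨h1, h2⟩ := (mem_bipartiteBelow _).1 hv
    exact mem_erase.2 ⟨(mem_erase.1 h1).1, mem_filter.2 ⟨mem_univ _, h2⟩⟩

theorem shift (hS : Str G X Φ A) (hy : Sym A E t) (hf : SymF G X Φ A E t) (y : E)
    (hA : (y : G) ∉ A) : ∃ u ∈ E, ∃ c : Φ, c ≠ 1 ∧ c ^ t = 1 ∧
      ∀ x : X, (y : G) • u • x = c • u • (y : G) • x := by
  obtain ⟨u, hu, nu⟩ : ∃ u ∈ E, (y : G) * u ≠ u * y := by
    by_contra hn
    push Not at hn
    exact hA (hf.nd y y.2 hn)
  obtain ⟨c, c1, c2, c3, -⟩ := scal hS (hy.comm _ y.2 _ hu) (fun h => nu (by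
    rw [mul_inv_eq_one, mul_inv_eq_iff_eq_mul] at h; exact h)) (hf.exp _ y.2 _ hu)
  refine ⟨u, hu, c, c1, c2, fun x => ?_⟩
  rw [← c3, smul_smul, smul_smul, smul_smul]
  congr 1
  group

theorem cube (hS : Str G X Φ A) (hF : StrF G X Φ A) (hy : Sym A E t) (hf : SymF G X Φ A E t)
    (ht : t ≠ 2) (y : E) (hA : (y : G) ∉ A) : Nat.card (Fx hF hy y) ^ 3 ≤ Nat.card X := by
  obtain ⟨u, hu, c, c1, c2, e⟩ := shift hS hy hf y hA
  have c0 : c ≠ 0 := by
    rintro rfl
    rw [zero_pow hy.prime.ne_zero] at c2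
    exact zero_ne_one c2
  have c3 : c ^ 2 ≠ 1 := fun h => by
    obtain ⟨s, hs⟩ := hy.prime.odd_of_ne_two ht
    rw [hs, pow_succ, pow_mul, h, one_pow, one_mul] at c2
    exact c1 c2
  have key : ∀ a b d : X, (y : G) • a = a → (y : G) • b = b → (y : G) • d = d →
      a + u • b + u • u • d = 0 → a = 0 ∧ b = 0 ∧ d = 0 := by
    intro a b d ha hb hd h
    have eb : (y : G) • u • b = c • u • b := by rw [e, hb]
    have ed : (y : G) • u • u • d = c ^ 2 • u • u • d := by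
      rw [e, e, hd, lin hF hy hu, smul_smul, sq]
    have h1 : a + c • u • b + c ^ 2 • u • u • d = 0 := by
      have := congrArg ((y : G) • ·) h
      simpa only [smul_add, smul_zero, ha, eb, ed] using this
    have h2 : a + c ^ 2 • u • b + c ^ 4 • u • u • d = 0 := by
      have := congrArg ((y : G) • ·) h1
      simp only [smul_add, smul_zero, ha, lin hF hy y.2, eb, ed, smul_smul c, smul_smul (c ^ 2)]
        at this
      rwa [← sq, ← pow_add] at this
    have h3 : (c * (c - 1) * (c ^ 2 - 1)) • u • u • d = 0 := by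
      generalize u • u • d = d', u • b = b' at h h1 h2 ⊢
      linear_combination (norm := module) h2 - (c + 1) • h1 + c • h
    have d0 : u • u • d = 0 := (smul_eq_zero.1 h3).resolve_left
      (mul_ne_zero (mul_ne_zero c0 (sub_ne_zero.2 c1)) (sub_ne_zero.2 c3))
    have h4 : (c - 1) • u • b = 0 := by
      rw [d0] at h h1
      generalize u • b = b' at h h1 ⊢
      linear_combination (norm := module) h1 - h
    have b0 : u • b = 0 := (smul_eq_zero.1 h4).resolve_left (sub_ne_zero.2 c1)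
    rw [d0, b0, add_zero, add_zero] at h
    exact ⟨h, (smul_eq_zero_iff_eq u).1 b0,
      (smul_eq_zero_iff_eq u).1 ((smul_eq_zero_iff_eq u).1 d0)⟩
  have := Nat.card_le_card_of_injective
    (fun p : Fx hF hy y × Fx hF hy y × Fx hF hy y => (p.1 : X) + u • (p.2.1 : X) + u • u • (p.2.2 : X))
    fun p q h => by
      obtain ⟨k1, k2, k3⟩ := key _ _ _ (p.1 - q.1).2 (p.2.1 - q.2.1).2 (p.2.2 - q.2.2).2 (by
        simp only [Submodule.coe_sub, smul_sub]
        beta_reduce at h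
        linear_combination (norm := abel1) h)
      exact Prod.ext (sub_eq_zero.1 (Subtype.ext k1))
        (Prod.ext (sub_eq_zero.1 (Subtype.ext k2)) (sub_eq_zero.1 (Subtype.ext k3)))
  rw [Nat.card_prod, Nat.card_prod] at this
  calc _ = _ := by ring
    _ ≤ _ := this

theorem square (hS : Str G X Φ A) (hF : StrF G X Φ A) (hy : Sym A E 2) (hf : SymF G X Φ A E 2)
    (y : E) (hA : (y : G) ∉ A) (h1 : Nat.card (Fx hF hy y) ≠ 1) :
    Nat.card (Fx hF hy y) ^ 2 = Nat.card X := by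
  obtain ⟨u, hu, c, c1, c2, e⟩ := shift hS hy hf y hA
  have c3 : c = -1 := (sq_eq_one_iff.1 c2).resolve_left c1
  subst c3
  have two : (2 : Φ) ≠ 0 := fun h => c1 (by linear_combination -h)
  have y2 : ∀ x : X, (y : G) • (y : G) • x = x := by
    have : Nontrivial (Fx hF hy y) := by
      by_contra hn
      rw [not_nontrivial_iff_subsingleton] at hn
      exact h1 Nat.card_unique
    obtain ⟨w, hw⟩ := exists_ne (0 : Fx hF hy y)
    have : (y : G) ^ 2 = 1 := hF.free _ (hy.pow _ y.2) w (fun h => hw (Subtype.ext h))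
      (by rw [sq, mul_smul, show (y : G) • (w : X) = w from w.2, show (y : G) • (w : X) = w from w.2])
    intro x
    rw [smul_smul, ← sq, this, one_smul]
  rw [sq, ← Nat.card_prod]
  refine Nat.card_eq_of_bijective
    (fun p : Fx hF hy y × Fx hF hy y => (p.1 : X) + u • (p.2 : X)) ⟨fun p q h => ?_, fun v => ?_⟩
  · have ha : (y : G) • ((p.1 - q.1 : Fx hF hy y) : X) = _ := (p.1 - q.1).2
    have hb : (y : G) • ((p.2 - q.2 : Fx hF hy y) : X) = _ := (p.2 - q.2).2
    have k : ((p.1 - q.1 : Fx hF hy y) : X) + u • ((p.2 - q.2 : Fx hF hy y) : X) = 0 := by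
      simp only [Submodule.coe_sub, smul_sub]
      beta_reduce at h
      linear_combination (norm := abel1) h
    have k' := congrArg ((y : G) • ·) k
    simp only [smul_add, smul_zero, ha, e, hb] at k'
    have k1 : (2 : Φ) • ((p.1 - q.1 : Fx hF hy y) : X) = 0 := by
      generalize u • ((p.2 - q.2 : Fx hF hy y) : X) = b' at k k'
      linear_combination (norm := module) k + k'
    have k2 := (smul_eq_zero.1 k1).resolve_left two
    rw [k2, zero_add] at k
    exact Prod.ext (sub_eq_zero.1 (Subtype.ext k2))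
      (sub_eq_zero.1 (Subtype.ext ((smul_eq_zero_iff_eq u).1 k)))
  · refine ⟨(⟨(2 : Φ)⁻¹ • (v + (y : G) • v), ?_⟩, ⟨u⁻¹ • (2 : Φ)⁻¹ • (v - (y : G) • v), ?_⟩), ?_⟩
    · change (y : G) • _ = _
      rw [lin hF hy y.2, smul_add, y2, add_comm]
    · change (y : G) • _ = _
      have := e (u⁻¹ • (2 : Φ)⁻¹ • (v - (y : G) • v))
      rw [smul_inv_smul, lin hF hy y.2, smul_sub, y2, neg_one_smul, ← neg_sub, smul_neg,
        neg_inj] at this
      rw [eq_inv_smul_iff, ← this]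
    · change (2 : Φ)⁻¹ • _ + u • u⁻¹ • _ = v
      rw [smul_inv_smul, ← smul_add, add_add_sub_cancel, ← two_smul Φ v, smul_smul,
        inv_mul_cancel₀ two, one_smul]

end Lin

theorem row : H33.COV := by
  intro G X Φ _ _ _ _ _ _ _ _ _ A E t hS hF hy hf tr
  have hX : 1 < Nat.card X := Finite.one_lt_card
  have hΦ : 1 < Nat.card Φ := Finite.one_lt_card
  obtain ⟨j, hj, hQ⟩ := hf.pw
  by_cases ht : t = 2
  · subst ht
    refine ⟨rfl, ?_⟩
    by_cases h4 : A.relIndex E = 4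
    · exact .inl h4
    have h5 : 4 ≤ A.relIndex E := hQ ▸ Nat.pow_le_pow_right two_pos hj
    obtain ⟨y, hA, hc⟩ := count hS hF hy hf.root (ex_two hy hF.cyc hf.exp (by omega)) tr
    have hw : 0 < Nat.card (Fx hF hy y) := Nat.card_pos
    have h1 : Nat.card (Fx hF hy y) ≠ 1 := fun h => by
      rw [h] at hc
      simp only [Nat.sub_self, mul_zero] at hc
      omega
    have hs := square hS hF hy hf y hA h1
    have hd : Nat.card (Fx hF hy y) = Nat.card Φ ^ Module.finrank Φ (Fx hF hy y) :=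
      Module.natCard_eq_pow_finrank
    refine .inr ⟨Module.finrank Φ (Fx hF hy y), ?_, ?_⟩
    · rw [hd, hF.size, ← pow_mul] at hs
      rw [← Nat.pow_right_injective hΦ hs, mul_comm]
    · rw [← hd]
      rw [← hs] at hc
      obtain ⟨w, hw'⟩ : ∃ w, Nat.card (Fx hF hy y) = w + 2 := ⟨_, (Nat.sub_add_cancel (by omega)).symm⟩
      rw [hw'] at hc ⊢
      have e1 : (w + 2) ^ 2 - 1 = (w + 2 + 1) * (w + 1) := by
        rw [Nat.sub_eq_iff_eq_add (Nat.one_le_pow _ _ (by omega))]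
        ring
      rw [e1, show w + 2 - 1 = w + 1 from rfl, show 2 - 1 = 1 from rfl, mul_one] at hc
      exact Nat.le_of_mul_le_mul_right hc (Nat.succ_pos w)
  · exfalso
    obtain ⟨y, hA, hc⟩ := count hS hF hy hf.root (ex_odd hy hF.cyc hf.nd hf.exp ht) tr
    have h3 := cube hS hF hy hf ht y hA
    have t3 : 3 ≤ t := by
      have := hy.prime.two_le
      omega
    have p4 : 4 ≤ Nat.card Φ := by
      have := Nat.le_of_dvd (by omega) hf.dvd
      omega
    have hi := hf.ind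
    have hn := (num (Module.finrank Φ X)).trans (Nat.pow_le_pow_left p4 _)
    rw [← hF.size] at hn
    have hw : 0 < Nat.card (Fx hF hy y) := Nat.card_pos
    have hq : 1 ≤ A.relIndex E := hQ ▸ Nat.one_le_pow _ _ hy.prime.pos
    generalize Nat.card (Fx hF hy y) = w at hc h3 hw
    generalize Nat.card X = N at hc h3 hn hX
    generalize Module.finrank Φ X = δ at hi hn
    generalize A.relIndex E = Q at hc hi hq
    obtain ⟨N, rfl⟩ : ∃ n, N = n + 1 := ⟨N - 1, by omega⟩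
    obtain ⟨s, rfl⟩ : ∃ n, t = n + 3 := ⟨t - 3, by omega⟩
    obtain ⟨Q, rfl⟩ : ∃ n, Q = n + 1 := ⟨Q - 1, by omega⟩
    obtain ⟨w, rfl⟩ : ∃ n, w = n + 1 := ⟨w - 1, by omega⟩
    simp only [Nat.add_sub_cancel, show s + 3 - 1 = s + 2 from rfl] at hc
    have a1 : 2 * N ≤ 3 * (Q * w) := by
      by_contra hh
      push Not at hh
      nlinarith [Nat.zero_le (s * N), Nat.mul_le_mul_left s hh.le]
    have a2 : 2 * (N + 1) ≤ 3 * δ ^ 2 * (w + 1) := by nlinarith [Nat.mul_le_mul_right (w + 1) hi]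
    have a3 := Nat.pow_le_pow_left a2 3
    have a4 : 8 * (N + 1) ^ 3 ≤ 27 * (δ ^ 3) ^ 2 * (N + 1) := by
      calc 8 * (N + 1) ^ 3 = (2 * (N + 1)) ^ 3 := by ring
        _ ≤ (3 * δ ^ 2 * (w + 1)) ^ 3 := a3
        _ = 27 * (δ ^ 3) ^ 2 * (w + 1) ^ 3 := by ring
        _ ≤ _ := Nat.mul_le_mul_left _ h3
    have a5 : 4 * (δ ^ 3) ^ 2 ≤ (N + 1) ^ 2 := by
      calc 4 * (δ ^ 3) ^ 2 = (2 * δ ^ 3) ^ 2 := by ring
        _ ≤ _ := Nat.pow_le_pow_left hn 2
    have a6 := Nat.mul_le_mul_right (N + 1) a5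
    have a7 : 0 < (N + 1) ^ 3 := by positivity
    nlinarith

end Pool.Agent.MP_f8e15f_co.RCOV
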