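import Pool.Agent.MP_f8e15f_co.H33.Spec2

/-! Coordinates adapted to three complementary subgroups. -/

open MulAction Pointwise

namespace Pool.Agent.MP_f8e15f_co.RCRD

open Pool.Agent.MP_f8e15f_co.H33

theorem proj {V : Type} [AddCommGroup V] {A B : AddSubgroup V} (h : IsCompl A B) :
    ∃ p : V →+ A, (∀ v, v - p v ∈ B) ∧ ∀ (v : V) (a : A), v - a ∈ B → p v = a := by
  have ex : ∀ v : V, ∃ a : A, v - a ∈ B := fun v => by
    have : v ∈ A ⊔ B := h.sup_eq_top ▸ AddSubgroup.mem_top v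
    obtain ⟨a, ha, b, hb, rfl⟩ := AddSubgroup.mem_sup.1 this
    exact ⟨⟨a, ha⟩, by simpa using hb⟩
  have un : ∀ (v : V) (a a' : A), v - a ∈ B → v - a' ∈ B → a = a' := fun v a a' p q => by
    have h1 : (a' : V) - a ∈ A ⊓ B := ⟨A.sub_mem a'.2 a.2, by
      have := B.sub_mem p q
      rwa [sub_sub_sub_cancel_left] at this⟩
    rw [h.inf_eq_bot, AddSubgroup.mem_bot, sub_eq_zero] at h1
    exact Subtype.ext h1.symm
  choose p hp using ex
  refine ⟨AddMonoidHom.mk' p fun v w => un (v + w) _ _ (hp _) ?_, hp,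
    fun v a ha => un v _ _ (hp v) ha⟩
  have := B.add_mem (hp v) (hp w)
  rwa [sub_add_sub_comm] at this

theorem std (V X : Type) [AddCommGroup V] [AddCommGroup X] (L₁ L₂ L₃ : AddSubgroup V)
    (h12 : IsCompl L₁ L₂) (h13 : IsCompl L₁ L₃) (h23 : IsCompl L₂ L₃) (hX : Nonempty (L₁ ≃+ X)) :
    ∃ e : V ≃+ X × X, (∀ v, v ∈ L₁ ↔ (e v).2 = 0) ∧ (∀ v, v ∈ L₂ ↔ (e v).1 = 0) ∧
      ∀ v, v ∈ L₃ ↔ (e v).2 = (e v).1 := by
  obtain ⟨f⟩ := hX
  obtain ⟨p, p1, p2⟩ := proj h12
  obtain ⟨q, q1, q2⟩ := proj h13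
  obtain ⟨t, t1, -⟩ := proj h23
  have z : ∀ v, v ∈ L₂ → v ∈ L₃ → v = 0 := fun v a b => by
    have : v ∈ L₂ ⊓ L₃ := ⟨a, b⟩
    rwa [h23.inf_eq_bot, AddSubgroup.mem_bot] at this
  have k2 : ∀ v, v ∈ L₂ ↔ p v = 0 := fun v =>
    ⟨fun h => p2 v 0 (by simpa using h), fun h => by simpa [h] using p1 v⟩
  have k3 : ∀ v, v ∈ L₃ ↔ q v = 0 := fun v =>
    ⟨fun h => q2 v 0 (by simpa using h), fun h => by simpa [h] using q1 v⟩
  let F : V →+ X × X := (f.toAddMonoidHom.comp p).prod (f.toAddMonoidHom.comp (p - q))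
  have hF : ∀ v, F v = (f (p v), f (p v - q v)) := fun v => rfl
  have bij : Function.Bijective F := by
    refine ⟨(injective_iff_map_eq_zero F).2 fun v hv => ?_, fun x => ?_⟩
    · rw [hF, Prod.mk_eq_zero, map_eq_zero_iff f f.injective, map_eq_zero_iff f f.injective] at hv
      refine z v ((k2 v).2 hv.1) ((k3 v).2 ?_)
      simpa [hv.1] using hv.2
    · have a := p2 ((f.symm x.1 : V) - t (f.symm x.2)) (f.symm x.1) (by simp)
      have b := q2 ((f.symm x.1 : V) - t (f.symm x.2)) (f.symm x.1 - f.symm x.2) (by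
        have := t1 (f.symm x.2)
        rwa [AddSubgroup.coe_sub, sub_sub_sub_cancel_left])
      refine ⟨(f.symm x.1 : V) - t (f.symm x.2), ?_⟩
      rw [hF, a, b]
      simp
  refine ⟨AddEquiv.ofBijective F bij, fun v => ?_, fun v => ?_, fun v => ?_⟩
  · change _ ↔ f (p v - q v) = 0
    rw [map_eq_zero_iff f f.injective, sub_eq_zero]
    refine ⟨fun h => (p2 v ⟨v, h⟩ (by simp)).trans (q2 v ⟨v, h⟩ (by simp)).symm, fun h => ?_⟩
    have := z _ (p1 v) (h ▸ q1 v)
    rw [sub_eq_zero] at this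
    exact this ▸ (p v).2
  · change _ ↔ f (p v) = 0
    rw [map_eq_zero_iff f f.injective, k2]
  · change _ ↔ f (p v - q v) = f (p v)
    rw [f.injective.eq_iff, sub_eq_self, k3]

/-- The commutant of a simple finite module is a finite field. -/
theorem schur {U : Type} [AddCommGroup U] [Finite U] [Nontrivial U] (S : Set (U →+ U))
    (hS : ∀ W : AddSubgroup U, (∀ ρ ∈ S, ∀ u ∈ W, ρ u ∈ W) → W = ⊥ ∨ W = ⊤) :
    ∃ (Ψ : Type) (_ : Field Ψ) (_ : Finite Ψ) (_ : Module Ψ U),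
      (∀ ρ ∈ S, ∀ (s : Ψ) u, ρ (s • u) = s • ρ u) ∧
      ∀ φ : U →+ U, (∀ ρ ∈ S, ∀ u, φ (ρ u) = ρ (φ u)) → ∃ s : Ψ, ∀ u, φ u = s • u := by
  let C : Subring (AddMonoid.End U) := Subring.centralizer (S : Set (AddMonoid.End U))
  have hC : ∀ s : C, ∀ ρ ∈ S, ∀ u, ρ (s.1 u) = s.1 (ρ u) := fun s ρ hρ u =>
    DFunLike.congr_fun (Subring.mem_centralizer_iff.1 s.2 ρ hρ) u
  have fE : Finite (AddMonoid.End U) :=
    Finite.of_injective (fun f : AddMonoid.End U => (f : U → U)) DFunLike.coe_injective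
  have inj : ∀ s : C, s = 0 ∨ Function.Injective s.1 := fun s => by
    rcases hS (AddMonoidHom.ker (s.1 : U →+ U)) (fun ρ hρ u hu => by
      rw [AddMonoidHom.mem_ker] at hu ⊢
      exact (hC s ρ hρ u).symm.trans ((congrArg ρ hu).trans (map_zero ρ))) with h | h
    · exact Or.inr ((AddMonoidHom.ker_eq_bot_iff _).1 h)
    · refine Or.inl (Subtype.ext (AddMonoidHom.ext fun u => ?_))
      have : u ∈ AddMonoidHom.ker (s.1 : U →+ U) := h ▸ AddSubgroup.mem_top u
      exact this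
  have nt : Nontrivial C := ⟨0, 1, fun h => by
    obtain ⟨u, hu⟩ := exists_ne (0 : U)
    exact hu (DFunLike.congr_fun (congrArg Subtype.val h) u).symm⟩
  have nz : NoZeroDivisors C := ⟨fun {a b} h => by
    rcases inj a with h1 | h1
    · exact Or.inl h1
    · refine Or.inr (Subtype.ext (AddMonoidHom.ext fun u => h1 ?_))
      exact (DFunLike.congr_fun (congrArg Subtype.val h) u).trans (map_zero a.1).symm⟩
  have dm : IsDomain C := NoZeroDivisors.to_isDomain C
  let fld : Field C := (Finite.isDomain_to_isField C).toField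
  refine ⟨C, fld, inferInstance, inferInstanceAs (Module C U), fun ρ hρ s u => hC s ρ hρ u,
    fun φ hφ => ⟨⟨φ, Subring.mem_centralizer_iff.2 fun ρ hρ => AddMonoidHom.ext fun u =>
      (hφ ρ hρ u).symm⟩, fun u => rfl⟩⟩

section coord

variable {G V U : Type} [Group G] [AddCommGroup V] [DistribMulAction G V] [AddCommGroup U]

/-- The action of `g` read in coordinates. -/
def tr (e : V ≃+ U × U) (g : G) : U × U →+ U × U :=
  e.toAddMonoidHom.comp ((DistribSMul.toAddMonoidHom V g).comp e.symm.toAddMonoidHom)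

theorem tr_apply (e : V ≃+ U × U) (g : G) (z : U × U) : tr e g z = e (g • e.symm z) := rfl

theorem tr_e (e : V ≃+ U × U) (g : G) (v : V) : tr e g (e v) = e (g • v) := by
  rw [tr_apply, e.symm_apply_apply]

/-- The first block. -/
def rho (e : V ≃+ U × U) (g : G) : U →+ U :=
  (AddMonoidHom.fst U U).comp ((tr e g).comp (AddMonoidHom.inl U U))

theorem rho_apply (e : V ≃+ U × U) (g : G) (u : U) : rho e g u = (tr e g (u, 0)).1 := rfl

theorem diag {e : V ≃+ U × U} {L₁ L₂ L₃ : AddSubgroup V} (l1 : ∀ v, v ∈ L₁ ↔ (e v).2 = 0)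
    (l2 : ∀ v, v ∈ L₂ ↔ (e v).1 = 0) (l3 : ∀ v, v ∈ L₃ ↔ (e v).2 = (e v).1) {x : G}
    (h : (∀ v ∈ L₁, x • v ∈ L₁) ∧ (∀ v ∈ L₂, x • v ∈ L₂) ∧ ∀ v ∈ L₃, x • v ∈ L₃) (z : U × U) :
    tr e x z = (rho e x z.1, rho e x z.2) := by
  have a : ∀ u, (tr e x (u, 0)).2 = 0 := fun u => (l1 _).1 (h.1 _ ((l1 _).2 (by simp)))
  have b : ∀ u, (tr e x (0, u)).1 = 0 := fun u => (l2 _).1 (h.2.1 _ ((l2 _).2 (by simp)))
  have c : ∀ u, (tr e x (u, u)).2 = (tr e x (u, u)).1 := fun u =>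
    (l3 _).1 (h.2.2 _ ((l3 _).2 (by simp)))
  have sp : ∀ u w, tr e x (u, w) = tr e x (u, 0) + tr e x (0, w) := fun u w => by
    rw [← map_add]; simp
  have d : ∀ u, (tr e x (0, u)).2 = (tr e x (u, 0)).1 := fun u => by
    simpa [sp u u, a, b] using c u
  rw [show z = (z.1, z.2) from rfl, sp]
  exact Prod.ext (by simp [b, rho_apply]) (by simp [a, d, rho_apply])

variable [Finite U] {Ψ : Type} [Field Ψ] [Module Ψ U] {E : Subgroup G} {e : V ≃+ U × U}

theorem graph (hd : ∀ x ∈ E, ∀ z, tr e x z = (rho e x z.1, rho e x z.2))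
    (hs : ∀ W : AddSubgroup U, (∀ x ∈ E, ∀ u ∈ W, rho e x u ∈ W) → W = ⊥ ∨ W = ⊤)
    (hφ : ∀ φ : U →+ U, (∀ x ∈ E, ∀ u, φ (rho e x u) = rho e x (φ u)) → ∃ s : Ψ, ∀ u, φ u = s • u)
    {L₂ : AddSubgroup V} (l2 : ∀ v, v ∈ L₂ ↔ (e v).1 = 0) (W : AddSubgroup V)
    (hW : ∀ x ∈ E, ∀ v ∈ W, x • v ∈ W) (hc : Nat.card W = Nat.card U) :
    W = L₂ ∨ ∃ s : Ψ, ∀ v, v ∈ W ↔ (e v).2 = s • (e v).1 := by
  have fV : Finite V := Finite.of_equiv _ e.symm.toEquiv
  have hW' : ∀ x ∈ E, ∀ z, e.symm z ∈ W → e.symm (rho e x z.1, rho e x z.2) ∈ W :=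
    fun x hx z hz => by
      rw [← hd x hx, tr_apply, e.symm_apply_apply]
      exact hW x hx _ hz
  rcases hs (W.comap (e.symm.toAddMonoidHom.comp (AddMonoidHom.inr U U))) (fun x hx u hu => by
    simpa using hW' x hx (0, u) hu) with h | h
  · right
    let π : W →+ U := (AddMonoidHom.fst U U).comp (e.toAddMonoidHom.comp W.subtype)
    have inj : Function.Injective π := (injective_iff_map_eq_zero π).2 fun w hw => by
      have h1 : (e w).1 = 0 := hw
      have h2 : (e w).2 ∈ W.comap (e.symm.toAddMonoidHom.comp (AddMonoidHom.inr U U)) := by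
        change e.symm (0, (e w).2) ∈ W
        rw [← h1]
        simp
      rw [h, AddSubgroup.mem_bot] at h2
      exact Subtype.ext (e.injective (Prod.ext (by simpa using h1) (by simpa using h2)))
    let f : W ≃+ U := AddEquiv.ofBijective π ((Nat.bijective_iff_injective_and_card π).2 ⟨inj, hc⟩)
    let φ : U →+ U :=
      (AddMonoidHom.snd U U).comp (e.toAddMonoidHom.comp (W.subtype.comp f.symm.toAddMonoidHom))
    have key : ∀ v, v ∈ W ↔ (e v).2 = φ (e v).1 := fun v => by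
      constructor
      · intro hv
        change _ = (e (f.symm (f ⟨v, hv⟩))).2
        rw [f.symm_apply_apply]
      · intro hv
        have : e v = e (f.symm (e v).1) := Prod.ext (f.apply_symm_apply (e v).1).symm hv
        rw [e.injective this]
        exact (f.symm _).2
    obtain ⟨s, hs'⟩ := hφ φ fun x hx u => by
      have := (key _).1 (hW' x hx (u, φ u) ((key _).2 (by simp)))
      simpa using this.symm
    exact ⟨s, fun v => by rw [key, hs']⟩
  · left
    refine (AddSubgroup.eq_of_le_of_card_ge (fun v hv => ?_) ?_).symm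
    · have : (e v).2 ∈ W.comap (e.symm.toAddMonoidHom.comp (AddMonoidHom.inr U U)) :=
        h ▸ AddSubgroup.mem_top _
      change e.symm (0, (e v).2) ∈ W at this
      rw [← (l2 v).1 hv] at this
      simpa using this
    · rw [hc]
      refine Nat.card_le_card_of_injective
        (fun u : U => (⟨e.symm (0, u), (l2 _).2 (by simp)⟩ : L₂)) fun u w huw => ?_
      simpa using huw

theorem mob [Nontrivial U] [Finite Ψ] (hd : ∀ x ∈ E, ∀ z, tr e x z = (rho e x z.1, rho e x z.2))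
    (hs : ∀ W : AddSubgroup U, (∀ x ∈ E, ∀ u ∈ W, rho e x u ∈ W) → W = ⊥ ∨ W = ⊤)
    (hl : ∀ x ∈ E, ∀ (s : Ψ) u, rho e x (s • u) = s • rho e x u)
    (hφ : ∀ φ : U →+ U, (∀ x ∈ E, ∀ u, φ (rho e x u) = rho e x (φ u)) → ∃ s : Ψ, ∀ u, φ u = s • u)
    (g : G) (hg : ∀ x ∈ E, g * x * g⁻¹ ∈ E) :
    ∃ (m : U ≃+ U) (σ : Ψ ≃+* Ψ) (a b c d : Ψ), (∀ (s : Ψ) u, m (s • u) = σ s • m u) ∧
      ∀ v, e (g • v) = (m (a • (e v).1 + b • (e v).2), m (c • (e v).1 + d • (e v).2)) := by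
  let I : (U →+ U) → Prop := fun β => ∀ x ∈ E, ∀ u, β (rho e x u) = rho e (g * x * g⁻¹) (β u)
  have T : ∀ x ∈ E, ∀ u w, tr e g (rho e x u, rho e x w)
      = (rho e (g * x * g⁻¹) (tr e g (u, w)).1, rho e (g * x * g⁻¹) (tr e g (u, w)).2) :=
    fun x hx u w => by
      rw [← hd _ (hg x hx), ← hd x hx (u, w)]
      simp [tr_apply, mul_smul]
  let A := (AddMonoidHom.fst U U).comp ((tr e g).comp (AddMonoidHom.inl U U))
  let B := (AddMonoidHom.fst U U).comp ((tr e g).comp (AddMonoidHom.inr U U))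
  let C := (AddMonoidHom.snd U U).comp ((tr e g).comp (AddMonoidHom.inl U U))
  let D := (AddMonoidHom.snd U U).comp ((tr e g).comp (AddMonoidHom.inr U U))
  have iA : I A := fun x hx u => by simpa [A] using congrArg Prod.fst (T x hx u 0)
  have iB : I B := fun x hx u => by simpa [B] using congrArg Prod.fst (T x hx 0 u)
  have iC : I C := fun x hx u => by simpa [C] using congrArg Prod.snd (T x hx u 0)
  have iD : I D := fun x hx u => by simpa [D] using congrArg Prod.snd (T x hx 0 u)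
  have inj : ∀ β, I β → (∀ u, β u = 0) ∨ Function.Injective β := fun β hβ => by
    rcases hs β.ker (fun x hx u hu => by
      rw [AddMonoidHom.mem_ker] at hu ⊢
      rw [hβ x hx, hu, map_zero]) with h | h
    · exact Or.inr ((AddMonoidHom.ker_eq_bot_iff _).1 h)
    · exact Or.inl fun u => (h ▸ AddSubgroup.mem_top u : u ∈ β.ker)
  obtain ⟨μ, iμ, jμ⟩ : ∃ μ, I μ ∧ Function.Injective μ := by
    rcases inj A iA with h | h
    · rcases inj C iC with h' | h'
      · obtain ⟨u, hu⟩ := exists_ne (0 : U)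
        have : tr e g (u, 0) = 0 := Prod.ext (h u) (h' u)
        rw [tr_apply, map_eq_zero_iff e e.injective, smul_eq_zero_iff_eq,
          map_eq_zero_iff _ e.symm.injective, Prod.mk_eq_zero] at this
        exact absurd this.1 hu
      · exact ⟨C, iC, h'⟩
    · exact ⟨A, iA, h⟩
  let m : U ≃+ U := AddEquiv.ofBijective μ (Finite.injective_iff_bijective.1 jμ)
  have sc : ∀ β, I β → ∃ s : Ψ, ∀ u, β u = m (s • u) := fun β hβ => by
    obtain ⟨s, hs'⟩ := hφ (m.symm.toAddMonoidHom.comp β) fun x hx u => by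
      change m.symm (β _) = rho e x (m.symm (β u))
      rw [m.symm_apply_eq, hβ x hx]
      exact (congrArg _ (m.apply_symm_apply _).symm).trans (iμ x hx _).symm
    exact ⟨s, fun u => by rw [← hs']; exact (m.apply_symm_apply _).symm⟩
  have hτ : ∀ s : Ψ, ∃ t : Ψ, ∀ u, s • m u = m (t • u) := fun s =>
    sc ((DistribSMul.toAddMonoidHom U s).comp μ) fun x hx u => by
      change s • μ _ = rho e _ (s • μ u)
      rw [iμ x hx, hl _ (hg x hx)]
  choose τ hτ using hτ
  obtain ⟨u₀, hu⟩ := exists_ne (0 : U)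
  have un : ∀ s t : Ψ, m (s • u₀) = m (t • u₀) → s = t := fun s t h =>
    smul_left_injective Ψ hu (m.injective h)
  let τ' : Ψ →+* Ψ :=
    { toFun := τ
      map_one' := un _ _ (by rw [← hτ, one_smul, one_smul])
      map_mul' := fun s t => un _ _ (by rw [← hτ, mul_smul, hτ t, hτ s, mul_smul])
      map_zero' := un _ _ (by rw [← hτ, zero_smul, zero_smul, map_zero])
      map_add' := fun s t => un _ _ (by rw [← hτ, add_smul, add_smul, map_add, hτ, hτ]) }
  let σ := RingEquiv.ofBijective τ' (Finite.injective_iff_bijective.1 τ'.injective)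
  obtain ⟨a, ha⟩ := sc A iA
  obtain ⟨b, hb⟩ := sc B iB
  obtain ⟨c, hc⟩ := sc C iC
  obtain ⟨d, hd'⟩ := sc D iD
  refine ⟨m, σ.symm, a, b, c, d, fun s u => ?_, fun v => ?_⟩
  · rw [hτ]
    exact congrArg (fun t => m (t • u)) (σ.apply_symm_apply s).symm
  · rw [← tr_e, map_add, map_add, ← ha, ← hb, ← hc, ← hd']
    have : e v = ((e v).1, 0) + (0, (e v).2) := by simp
    conv_lhs => rw [this, map_add]
    rfl

end coord

theorem row : CRD where
  std := std
  crd := by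
    intro G V _ _ _ _ _ E L₁ L₂ L₃ h12 h13 h23 h0 hE hs
    obtain ⟨e, l1, l2, l3⟩ := std V L₁ L₁ L₂ L₃ h12 h13 h23 ⟨AddEquiv.refl _⟩
    have nt : Nontrivial L₁ := (AddSubgroup.nontrivial_iff_ne_bot L₁).2 h0
    have hd : ∀ x ∈ E, ∀ z, tr e x z = (rho e x z.1, rho e x z.2) := fun x hx =>
      diag l1 l2 l3 (hE x hx)
    have hs' : ∀ W : AddSubgroup L₁, (∀ x ∈ E, ∀ u ∈ W, rho e x u ∈ W) → W = ⊥ ∨ W = ⊤ := by
      intro W hW
      let ι : L₁ →+ V := e.symm.toAddMonoidHom.comp (AddMonoidHom.inl L₁ L₁)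
      have hι : ∀ u, ι u = e.symm (u, 0) := fun _ => rfl
      have ij : Function.Injective ι := fun u w h => by simpa [hι] using h
      rcases hs (W.map ι) (by
          rintro _ ⟨u, -, rfl⟩
          exact (l1 _).2 (by simp [hι])) (by
          rintro x hx _ ⟨u, hu, rfl⟩
          refine ⟨_, hW x hx u hu, e.injective ?_⟩
          have := hd x hx (u, 0)
          rw [tr_apply] at this
          simp [hι, this]) with h | h
      · exact Or.inl ((AddSubgroup.map_eq_bot_iff_of_injective W ij).1 h)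
      · refine Or.inr (eq_top_iff.2 fun u _ => ?_)
        have h1 : ι u ∈ L₁ := (l1 _).2 (by simp [hι])
        have : ι u ∈ W.map ι := h.ge h1
        exact (AddSubgroup.mem_map_iff_mem ij).1 this
    obtain ⟨Ψ, i1, i2, i3, hl, hφ⟩ := schur (rho e '' (E : Set G)) fun W hW =>
      hs' W fun x hx => hW _ ⟨x, hx, rfl⟩
    have hl' : ∀ x ∈ E, ∀ (s : Ψ) u, rho e x (s • u) = s • rho e x u := fun x hx =>
      hl _ ⟨x, hx, rfl⟩
    have hφ' : ∀ φ : L₁ →+ L₁, (∀ x ∈ E, ∀ u, φ (rho e x u) = rho e x (φ u)) →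
        ∃ s : Ψ, ∀ u, φ u = s • u := fun φ h => hφ φ (by
      rintro _ ⟨x, hx, rfl⟩
      exact h x hx)
    refine ⟨L₁, Ψ, inferInstance, inferInstance, i1, i2, i3, e, l1, l2, l3, rfl, fun x hx => ?_,
      hφ', graph hd hs' hφ' l2, mob hd hs' hl' hφ'⟩
    exact ⟨⟨⟨rho e x, map_add _⟩, hl' x hx⟩, fun v => by rw [← tr_e, hd x hx]; rfl⟩

end Pool.Agent.MP_f8e15f_co.RCRD
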