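import Pool.Agent.MP_f8e15f_co.H33.Spec2

namespace Pool.Agent.MP_f8e15f_co.RCVB

open MulAction Pointwise
open H33 H24 Equiv
open scoped commutatorElement

section Gam
variable {F : Type} [Field F]

theorem ne_zero {g : Perm F} {a b : F} {σ : F → F} (h : ∀ x, g x = a * σ x + b) : a ≠ 0 :=
  fun e => zero_ne_one (g.injective (by rw [h, h, e, zero_mul, zero_mul]) : (0 : F) = 1)

/-- Semi-affine maps. -/
def gam (F : Type) [Field F] : Subgroup (Perm F) where
  carrier := {g | ∃ (a b : F) (σ : F ≃+* F), ∀ x, g x = a * σ x + b}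
  one_mem' := ⟨1, 0, RingEquiv.refl F, by simp⟩
  mul_mem' := by
    rintro g h ⟨a, b, σ, e⟩ ⟨c, d, τ, e'⟩
    refine ⟨a * σ c, a * σ d + b, τ.trans σ, fun x => ?_⟩
    rw [Perm.mul_apply, e, e', RingEquiv.trans_apply, map_add, map_mul]
    ring
  inv_mem' := by
    rintro g ⟨a, b, σ, e⟩
    have := ne_zero e
    refine ⟨σ.symm a⁻¹, σ.symm (-(a⁻¹ * b)), σ.symm, fun x => ?_⟩
    rw [Perm.inv_eq_iff_eq, e, ← map_mul, ← map_add, RingEquiv.apply_symm_apply]
    field_simp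
    ring

/-- Affine maps. -/
def aff (F : Type) [Field F] : Subgroup (Perm F) where
  carrier := {g | ∃ a b : F, ∀ x, g x = a * x + b}
  one_mem' := ⟨1, 0, by simp⟩
  mul_mem' := by
    rintro g h ⟨a, b, e⟩ ⟨c, d, e'⟩
    exact ⟨a * c, a * d + b, fun x => by rw [Perm.mul_apply, e, e']; ring⟩
  inv_mem' := by
    rintro g ⟨a, b, e⟩
    have := ne_zero e
    exact ⟨a⁻¹, -(a⁻¹ * b), fun x => by
      rw [Perm.inv_eq_iff_eq, e]
      field_simp
      ring⟩

/-- Translations. -/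
def tra (F : Type) [Field F] : Subgroup (Perm F) where
  carrier := {g | ∃ b : F, ∀ x, g x = x + b}
  one_mem' := ⟨0, by simp⟩
  mul_mem' := by
    rintro g h ⟨b, e⟩ ⟨d, e'⟩
    exact ⟨d + b, fun x => by rw [Perm.mul_apply, e, e', add_assoc]⟩
  inv_mem' := by
    rintro g ⟨b, e⟩
    exact ⟨-b, fun x => by rw [Perm.inv_eq_iff_eq, e, neg_add_cancel_right]⟩

omit [Field F] in
theorem comm_apply {g h : Perm F} {u : F → F} (e : ∀ x, g (h x) = u (h (g x))) (y : F) :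
    ⁅g, h⁆ y = u y := by
  obtain ⟨x, rfl⟩ := (h * g).surjective y
  rw [← Perm.mul_apply, commutatorElement_def, Perm.mul_apply h, ← e, ← Perm.mul_apply]
  congr 1
  group

theorem solv (hc : ∀ (σ τ : F ≃+* F) (x : F), σ (τ x) = τ (σ x)) :
    Group.IsSolvable (gam F) := by
  have h1 : ⁅gam F, gam F⁆ ≤ aff F := Subgroup.commutator_le.2 fun g hg h hh => by
    obtain ⟨a, b, σ, e⟩ := hg
    obtain ⟨c, d, τ, e'⟩ := hh
    have a0 : τ a ≠ 0 := (map_ne_zero τ).2 (ne_zero e)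
    have c0 := ne_zero e'
    refine ⟨a * σ c / (c * τ a), a * σ d + b - a * σ c / (c * τ a) * (c * τ b + d),
      comm_apply fun x => ?_⟩
    simp only [e, e', map_add, map_mul, hc σ τ]
    field_simp
    ring
  have h2 : ⁅aff F, aff F⁆ ≤ tra F := Subgroup.commutator_le.2 (by
    rintro g ⟨a, b, e⟩ h ⟨c, d, e'⟩
    refine ⟨a * d + b - (c * b + d), comm_apply fun x => ?_⟩
    simp only [e, e']
    ring)
  have h3 : ⁅tra F, tra F⁆ ≤ ⊥ := Subgroup.commutator_le.2 (by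
    rintro g ⟨b, e⟩ h ⟨d, e'⟩
    refine Subgroup.mem_bot.2 (Equiv.ext (comm_apply (u := id) fun x => ?_))
    simp only [e, e', id]
    ring)
  have st : ∀ (n : ℕ) {H K : Subgroup (Perm F)}, ⁅H, H⁆ ≤ K →
      (derivedSeries (gam F) n).map (gam F).subtype ≤ H →
      (derivedSeries (gam F) (n + 1)).map (gam F).subtype ≤ K :=
    fun n H K a b => by
      rw [derivedSeries_succ, Subgroup.map_commutator]
      exact (Subgroup.commutator_mono b b).trans a
  exact ⟨3, (Subgroup.map_eq_bot_iff_of_injective _ (gam F).subtype_injective).1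
    (le_bot_iff.1 (st 2 h3 (st 1 h2 (st 0 h1 (Subgroup.map_subtype_le _)))))⟩

end Gam

variable {F N : Type} [Field F] [AddCommGroup N] (β : F →+ F →+ N)

/-- The incidence relation. -/
def Inc (p : F × N) (b : N × F) : Prop := p.2 = β p.1 b.2 + b.1

/-- The group. -/
def GG : Subgroup ((Perm (F × N) × Perm (N × F)) × (gam F × gam F)) where
  carrier := {g | (∀ p b, Inc β (g.1.1 p) (g.1.2 b) ↔ Inc β p b) ∧
    (∀ p, (g.1.1 p).1 = g.2.1.1 p.1) ∧ ∀ b, (g.1.2 b).2 = g.2.2.1 b.2}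
  one_mem' := ⟨fun _ _ => Iff.rfl, fun _ => rfl, fun _ => rfl⟩
  mul_mem' := by
    rintro g h ⟨a, b, c⟩ ⟨a', b', c'⟩
    refine ⟨fun p q => (a _ _).trans (a' p q), fun p => ?_, fun q => ?_⟩
    · exact (b _).trans (congrArg g.2.1.1 (b' p))
    · exact (c _).trans (congrArg g.2.2.1 (c' q))
  inv_mem' := by
    rintro g ⟨a, b, c⟩
    refine ⟨fun p q => ?_, fun p => ?_, fun q => ?_⟩
    · have := a (g.1.1.symm p) (g.1.2.symm q)
      rw [Equiv.apply_symm_apply, Equiv.apply_symm_apply] at this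
      exact this.symm
    · have := b (g.1.1.symm p)
      rw [Equiv.apply_symm_apply] at this
      change (g.1.1.symm p).1 = (g.2.1.1).symm p.1
      rw [this, Equiv.symm_apply_apply]
    · have := c (g.1.2.symm q)
      rw [Equiv.apply_symm_apply] at this
      change (g.1.2.symm q).2 = (g.2.2.1).symm q.2
      rw [this, Equiv.symm_apply_apply]

/-- The group as a type. -/
def G : Type := GG β

instance : Group (G β) := inferInstanceAs (Group (GG β))

instance : MulAction (G β) (F × N) where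
  smul g p := g.1.1.1 p
  one_smul _ := rfl
  mul_smul _ _ _ := rfl

instance : MulAction (G β) (N × F) where
  smul g b := g.1.1.2 b
  one_smul _ := rfl
  mul_smul _ _ _ := rfl

/-- The projection. -/
def proj : G β →* gam F × gam F := (MonoidHom.snd _ _).comp (GG β).subtype

theorem ker_form (hs : Function.Surjective (β 1)) (g : G β) (hg : proj β g = 1) :
    ∃ c : N, (∀ p, g.1.1.1 p = (p.1, p.2 + c)) ∧ (∀ b, g.1.1.2 b = (b.1 + c, b.2)) ∧ g.1.2 = 1 := by
  obtain ⟨h1, h2, h3⟩ := g.2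
  have e : g.1.2 = 1 := hg
  have e2 : ∀ p, (g.1.1.1 p).1 = p.1 := fun p => by rw [h2, e]; rfl
  have e3 : ∀ b, (g.1.1.2 b).2 = b.2 := fun b => by rw [h3, e]; rfl
  have k : ∀ x y w, (g.1.1.1 (x, β x y + w)).2 = β x y + (g.1.1.2 (w, y)).1 := fun x y w => by
    have := (h1 (x, β x y + w) (w, y)).2 rfl
    rw [Inc, e2, e3] at this
    exact this
  have k1 : ∀ x w, (g.1.1.1 (x, w)).2 = (g.1.1.2 (w, 0)).1 := fun x w => by
    simpa using k x 0 w
  have k2 : ∀ y w, (g.1.1.2 (w, y)).1 = (g.1.1.2 (w, 0)).1 := fun y w => by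
    have := k 0 y w
    simp only [map_zero, AddMonoidHom.zero_apply, zero_add] at this
    rw [← this, k1]
  have k3 : ∀ w, (g.1.1.2 (w, 0)).1 = w + (g.1.1.2 (0, 0)).1 := fun w => by
    obtain ⟨y, rfl⟩ := hs w
    have := k 1 y 0
    rw [add_zero, k1, k2 y] at this
    exact this
  refine ⟨(g.1.1.2 (0, 0)).1, fun p => Prod.ext (e2 p) ?_, fun b => Prod.ext ?_ (e3 b), e⟩
  · exact (k1 p.1 p.2).trans (k3 _)
  · exact (k2 b.2 b.1).trans (k3 _)

theorem solvG (hc : ∀ (σ τ : F ≃+* F) (x : F), σ (τ x) = τ (σ x))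
    (hs : Function.Surjective (β 1)) : Group.IsSolvable (G β) := by
  have := solv hc
  have : Group.IsSolvable (proj β).ker := Group.isSolvable_of_comm fun g h => by
    obtain ⟨c, a1, a2, a3⟩ := ker_form β hs g.1 g.2
    obtain ⟨d, b1, b2, b3⟩ := ker_form β hs h.1 h.2
    refine Subtype.ext (Subtype.ext (Prod.ext (Prod.ext (Equiv.ext fun p => ?_)
      (Equiv.ext fun b => ?_)) ?_))
    · change g.1.1.1.1 (h.1.1.1.1 p) = h.1.1.1.1 (g.1.1.1.1 p)
      simp only [a1, b1, add_right_comm]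
    · change g.1.1.1.2 (h.1.1.1.2 b) = h.1.1.1.2 (g.1.1.1.2 b)
      simp only [a2, b2, add_right_comm]
    · change g.1.1.2 * h.1.1.2 = h.1.1.2 * g.1.1.2
      rw [a3, b3]
  exact Group.isSolvable_of_ker_le_range (proj β).ker.subtype (proj β) (by simp)

theorem exT (x0 y0 : F) (z0 : N) : ∃ g : G β,
    (∀ (x : F) (z : N), g • (x, z) = (x + x0, z + β x y0 + z0)) ∧
    ∀ (w : N) (y : F), g • (w, y) = (w - β x0 y + z0 - β x0 y0, y + y0) := by
  let e1 : Perm (F × N) :=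
    { toFun := fun p => (p.1 + x0, p.2 + β p.1 y0 + z0)
      invFun := fun p => (p.1 - x0, p.2 - β (p.1 - x0) y0 - z0)
      left_inv := fun p => by
        refine Prod.ext (add_sub_cancel_right _ _) ?_
        simp only [add_sub_cancel_right]
        abel
      right_inv := fun p => by
        refine Prod.ext (sub_add_cancel _ _) ?_
        simp only
        abel }
  let e2 : Perm (N × F) :=
    { toFun := fun b => (b.1 - β x0 b.2 + z0 - β x0 y0, b.2 + y0)
      invFun := fun b => (b.1 + β x0 (b.2 - y0) - z0 + β x0 y0, b.2 - y0)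
      left_inv := fun b => by
        refine Prod.ext ?_ (add_sub_cancel_right _ _)
        simp only [add_sub_cancel_right]
        abel
      right_inv := fun b => by
        refine Prod.ext ?_ (sub_add_cancel _ _)
        simp only
        abel }
  refine ⟨⟨((e1, e2), (⟨Equiv.addRight x0, 1, x0, RingEquiv.refl F, by simp⟩,
    ⟨Equiv.addRight y0, 1, y0, RingEquiv.refl F, by simp⟩)), fun p b => ?_, fun _ => rfl,
    fun _ => rfl⟩, fun _ _ => rfl, fun _ _ => rfl⟩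
  change p.2 + β p.1 y0 + z0 = β (p.1 + x0) (b.2 + y0) + (b.1 - β x0 b.2 + z0 - β x0 y0) ↔
    p.2 = β p.1 b.2 + b.1
  simp only [map_add, AddMonoidHom.add_apply]
  constructor
  · intro h
    linear_combination (norm := abel_nf) h
  · intro h
    rw [h]
    abel

theorem exL {a b : F} {γ : N ≃+ N} (h : Atp β a b γ) : ∃ g : G β,
    (∀ z : N, g • ((0 : F), z) = (0, γ z)) ∧ g • ((1 : F), (0 : N)) = (a, 0) ∧
    (∀ w : N, g • (w, (0 : F)) = (γ w, 0)) ∧ g • ((0 : N), (1 : F)) = (0, b) := by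
  obtain ⟨ha, hb, σ, τ, h⟩ := h
  let u : Perm F := σ.toEquiv.trans (Equiv.mulLeft₀ a ha)
  let v : Perm F := τ.toEquiv.trans (Equiv.mulLeft₀ b hb)
  have hu : ∀ x, u x = a * σ x := fun _ => rfl
  have hv : ∀ x, v x = b * τ x := fun _ => rfl
  refine ⟨⟨((Equiv.prodCongr u γ.toEquiv, Equiv.prodCongr γ.toEquiv v),
    (⟨u, a, 0, σ, fun x => by rw [hu, add_zero]⟩, ⟨v, b, 0, τ, fun x => by rw [hv, add_zero]⟩)),
    fun p q => ?_, fun _ => rfl, fun _ => rfl⟩, fun z => ?_, ?_, fun w => ?_, ?_⟩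
  · change γ p.2 = β (a * σ p.1) (b * τ q.2) + γ q.1 ↔ p.2 = β p.1 q.2 + q.1
    rw [h, ← map_add, γ.apply_eq_iff_eq]
  · change (a * σ 0, γ z) = (0, γ z)
    rw [map_zero, mul_zero]
  · change (a * σ 1, γ 0) = (a, 0)
    rw [map_one, mul_one, map_zero]
  · change (γ w, b * τ 0) = (γ w, 0)
    rw [map_zero, mul_zero]
  · change (γ 0, b * τ 1) = (0, b)
    rw [map_one, mul_one, map_zero]

theorem glue {H X Y : Type} [Group H] [MulAction H X] [MulAction H Y] {x p p' x' : X}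
    {y q q' y' : Y} (g k g' : H) (h1 : g • x = p) (h2 : g • y = q) (h3 : k • x = x')
    (h4 : k • y = y') (h5 : g' • x' = p') (h6 : g' • y' = q') :
    ∃ g : H, g • p = p' ∧ g • q = q' :=
  ⟨g' * k * g⁻¹, by rw [← h1, mul_smul, mul_smul, inv_smul_smul, h3, h5],
    by rw [← h2, mul_smul, mul_smul, inv_smul_smul, h4, h6]⟩

theorem pt (sx : ∀ x, x ≠ 0 → Function.Surjective (β x))
    (sy : ∀ y, y ≠ 0 → Function.Surjective fun x => β x y)
    (ta : ∀ a, a ≠ 0 → ∃ b γ, Atp β a b γ) (tb : ∀ b, b ≠ 0 → ∃ a γ, Atp β a b γ)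
    (tz : ∀ z z' : N, z ≠ 0 → z' ≠ 0 → ∃ a b γ, Atp β a b γ ∧ γ z = z') :
    PT (G β) (Inc β) := by
  have col : ∀ p q : F × N, p ≠ q → Col (Inc β) p q →
      ∃ g : G β, g • ((0 : F), (0 : N)) = p ∧ g • ((1 : F), (0 : N)) = q := by
    rintro ⟨x, z⟩ ⟨x', z'⟩ hne ⟨b, h1, h2⟩
    have hx : x' - x ≠ 0 := fun e => hne (by
      obtain rfl : x' = x := sub_eq_zero.1 e
      exact Prod.ext rfl (h1.trans h2.symm))
    obtain ⟨b, γ, hA⟩ := ta _ hx
    obtain ⟨y, hy⟩ := sx _ hx (z' - z)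
    obtain ⟨k, k1, k2, -, -⟩ := exL β hA
    obtain ⟨g, g1, -⟩ := exT β x y z
    refine ⟨g * k, ?_, ?_⟩
    · rw [mul_smul, k1, g1]
      simp
    · rw [mul_smul, k2, g1, hy]
      simp
  have non : ∀ p q : F × N, p ≠ q → ¬ Col (Inc β) p q →
      ∃ (n : N) (g : G β), n ≠ 0 ∧ g • ((0 : F), (0 : N)) = p ∧ g • ((0 : F), n) = q := by
    rintro ⟨x, z⟩ ⟨x', z'⟩ hne hn
    have hx : x' = x := by
      by_contra e
      obtain ⟨y, hy⟩ := sx _ (sub_ne_zero.2 e) (z' - z)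
      refine hn ⟨(z - β x y, y), ?_, ?_⟩
      · simp [Inc]
      · rw [map_sub, AddMonoidHom.sub_apply] at hy
        change z' = β x' y + (z - β x y)
        linear_combination (norm := abel_nf) -hy
    subst hx
    obtain ⟨g, g1, -⟩ := exT β x' 0 z
    refine ⟨z' - z, g, fun e => hne (by rw [sub_eq_zero.1 e]), ?_, ?_⟩
    · rw [g1]
      simp
    · rw [g1]
      simp
  have flag : ∀ (p : F × N) (b : N × F), ∃ (n : N) (g : G β), (n = 0 ↔ Inc β p b) ∧
      g • ((0 : F), (0 : N)) = p ∧ g • (n, (0 : F)) = b := by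
    rintro ⟨x, z⟩ ⟨w, y⟩
    obtain ⟨g, g1, g2⟩ := exT β x y z
    refine ⟨β x y + w - z, g, by rw [sub_eq_zero, eq_comm]; rfl, ?_, ?_⟩
    · rw [g1]
      simp
    · rw [g2]
      simp
  have met : ∀ b c : N × F, b ≠ c → Col (flip (Inc β)) b c →
      ∃ g : G β, g • ((0 : N), (0 : F)) = b ∧ g • ((0 : N), (1 : F)) = c := by
    rintro ⟨w, y⟩ ⟨w', y'⟩ hne ⟨p, h1, h2⟩
    have hy : y' - y ≠ 0 := fun e => hne (by
      obtain rfl : y' = y := sub_eq_zero.1 e
      exact Prod.ext (add_left_cancel (h1.symm.trans h2)) rfl)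
    obtain ⟨a, γ, hA⟩ := tb _ hy
    obtain ⟨x, hx⟩ := sy _ hy (w - w')
    obtain ⟨k, -, -, k1, k2⟩ := exL β hA
    obtain ⟨g, -, g2⟩ := exT β x y (w + β x y)
    simp only at hx
    refine ⟨g * k, ?_, ?_⟩
    · rw [mul_smul, k1, g2]
      simp
    · rw [mul_smul, k2, g2, hx]
      refine Prod.ext ?_ (sub_add_cancel _ _)
      simp only
      abel
  have dis : ∀ b c : N × F, b ≠ c → ¬ Col (flip (Inc β)) b c →
      ∃ (n : N) (g : G β), n ≠ 0 ∧ g • ((0 : N), (0 : F)) = b ∧ g • (n, (0 : F)) = c := by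
    rintro ⟨w, y⟩ ⟨w', y'⟩ hne hn
    have hy : y' = y := by
      by_contra e
      obtain ⟨x, hx⟩ := sy _ (sub_ne_zero.2 e) (w - w')
      refine hn ⟨(x, β x y + w), rfl, ?_⟩
      simp only [map_sub] at hx
      change β x y + w = β x y' + w'
      linear_combination (norm := abel_nf) -hx
    subst hy
    obtain ⟨g, -, g2⟩ := exT β 0 y' w
    refine ⟨w' - w, g, fun e => hne (by rw [sub_eq_zero.1 e]), ?_, ?_⟩
    · rw [g2]
      simp
    · rw [g2]
      simp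
  refine ⟨fun g p b => g.2.1 p b, fun p q p' q' a b c d => ?_, fun p q p' q' a b c d => ?_,
    fun p b p' b' c d => ?_, fun p b p' b' c d => ?_, fun p q p' q' a b c d => ?_,
    fun p q p' q' a b c d => ?_⟩
  · obtain ⟨g, g1, g2⟩ := col p q a c
    obtain ⟨g', g3, g4⟩ := col p' q' b d
    exact glue g 1 g' g1 g2 (one_smul _ _) (one_smul _ _) g3 g4
  · obtain ⟨n, g, hn, g1, g2⟩ := non p q a c
    obtain ⟨n', g', hn', g3, g4⟩ := non p' q' b d
    obtain ⟨_, _, γ, hA, rfl⟩ := tz n n' hn hn'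
    obtain ⟨k, k1, -⟩ := exL β hA
    exact glue g k g' g1 g2 (by rw [k1, map_zero]) (k1 n) g3 g4
  · obtain ⟨n, g, hn, g1, g2⟩ := flag p b
    obtain ⟨n', g', hn', g3, g4⟩ := flag p' b'
    obtain rfl := hn.2 c
    obtain rfl := hn'.2 d
    exact glue g 1 g' g1 g2 (one_smul _ _) (one_smul _ _) g3 g4
  · obtain ⟨n, g, hn, g1, g2⟩ := flag p b
    obtain ⟨n', g', hn', g3, g4⟩ := flag p' b'
    obtain ⟨_, _, γ, hA, rfl⟩ := tz n n' (mt hn.1 c) (mt hn'.1 d)
    obtain ⟨k, k1, -, k2, -⟩ := exL β hA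
    exact glue g k g' g1 g2 (by rw [k1, map_zero]) (k2 n) g3 g4
  · obtain ⟨g, g1, g2⟩ := met p q a c
    obtain ⟨g', g3, g4⟩ := met p' q' b d
    exact glue g 1 g' g1 g2 (one_smul _ _) (one_smul _ _) g3 g4
  · obtain ⟨n, g, hn, g1, g2⟩ := dis p q a c
    obtain ⟨n', g', hn', g3, g4⟩ := dis p' q' b d
    obtain ⟨_, _, γ, hA, rfl⟩ := tz n n' hn hn'
    obtain ⟨k, -, -, k2, -⟩ := exL β hA
    exact glue g k g' g1 g2 (by rw [k2, map_zero]) (k2 n) g3 g4

theorem row : H33.OfCVB := by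
  intro E D F N _ _ _ _ β sx sy ta tb tz
  have := solvG β (E.comm F) (sx 1 one_ne_zero)
  have h := D.sol (G β) (F × N) (N × F) (Inc β) (pt β sx sy ta tb tz)
    (fun p => ⟨(p.2, 0), by simp [Inc]⟩) (fun b => ⟨(0, b.1), by simp [Inc]⟩)
  have e : des (Inc β) = bil β := by
    ext S
    exact ⟨fun ⟨b, hb⟩ => ⟨b.2, b.1, hb⟩, fun ⟨y, w, hb⟩ => ⟨(w, y), hb⟩⟩
  exact e ▸ h

end Pool.Agent.MP_f8e15f_co.RCVB
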