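import Pool.Agent.MP_f8e15f_co.H33.Spec2

/-! The converse for the listed bilinear families. -/

set_option autoImplicit false

open MulAction Pointwise

namespace Pool.Agent.MP_f8e15f_co.RCVF

open Pool.Agent.MP_f8e15f_co.H33 Pool.Agent.MP_f8e15f_co.H24

variable {F : Type} [Field F]

/-- a semilinear autotopism before passing to the quotient -/
def T (U : AddSubgroup F) (m : F → F → F) (a b c : F) (ρ : F ≃+* F) : Prop :=
  a ≠ 0 ∧ b ≠ 0 ∧ c ≠ 0 ∧ (∀ t, c * ρ t ∈ U ↔ t ∈ U) ∧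
    ∀ x y, m (a * ρ x) (b * ρ y) = c * ρ (m x y)

lemma sol_of [Finite F] (H : CVB) (U : AddSubgroup F) (m : F → F → F)
    (l : ∀ x x' y, m (x + x') y = m x y + m x' y) (r : ∀ x y y', m x (y + y') = m x y + m x y')
    (nz : ∀ x y, m x y = 0 → x = 0 ∨ y = 0) (ha : ∀ a, a ≠ 0 → ∃ b c ρ, T U m a b c ρ)
    (hb : ∀ b, b ≠ 0 → ∃ a c ρ, T U m a b c ρ)
    (hz : ∀ z ∉ U, ∀ z' ∉ U, ∃ a b c ρ, T U m a b c ρ ∧ c * ρ z - z' ∈ U) : Sol (graphs U m) := by
  let β : F →+ F →+ F ⧸ U := AddMonoidHom.mk' (fun x => (QuotientAddGroup.mk' U).comp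
    (AddMonoidHom.mk' (m x) (r x))) fun x x' => AddMonoidHom.ext fun y =>
      congrArg (QuotientAddGroup.mk' U) (l x x' y)
  have key : ∀ a b c ρ, T U m a b c ρ →
      ∃ γ, Atp β a b γ ∧ ∀ t : F, γ (t : F ⧸ U) = (c * ρ t : F) := by
    rintro a b c ρ ⟨a0, b0, c0, h1, h2⟩
    let δ : F ≃+ F := ρ.toAddEquiv.trans (DistribMulAction.toAddEquiv F (Units.mk0 c c0))
    have e : U.map δ.toAddMonoidHom = U := by
      ext t
      obtain ⟨s, rfl⟩ := δ.surjective t
      exact (AddSubgroup.mem_map_iff_mem δ.injective).trans (h1 s).symm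
    exact ⟨QuotientAddGroup.congr U U δ e, ⟨a0, b0, ρ, ρ, fun x y =>
      congrArg (QuotientAddGroup.mk' U) (h2 x y)⟩, fun _ => rfl⟩
  have sur : ∀ f : F →+ F, (∀ x, f x = 0 → x = 0) →
      Function.Surjective fun x => ((f x : F) : F ⧸ U) := fun f h =>
    QuotientAddGroup.mk_surjective.comp
      (Finite.surjective_of_injective ((injective_iff_map_eq_zero f).2 h))
  refine H F (F ⧸ U) β (fun x x0 => sur (AddMonoidHom.mk' (m x) (r x)) fun y h =>
      (nz x y h).resolve_left x0)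
    (fun y y0 => sur (AddMonoidHom.mk' (fun x => m x y) fun x x' => l x x' y) fun x h =>
      (nz x y h).resolve_right y0) (fun a a0 => ?_) (fun b b0 => ?_) fun z z' z0 z0' => ?_
  · obtain ⟨b, c, ρ, h⟩ := ha a a0
    exact ⟨b, (key a b c ρ h).imp fun _ => And.left⟩
  · obtain ⟨a, c, ρ, h⟩ := hb b b0
    exact ⟨a, (key a b c ρ h).imp fun _ => And.left⟩
  · obtain ⟨z, rfl⟩ := QuotientAddGroup.mk_surjective z
    obtain ⟨z', rfl⟩ := QuotientAddGroup.mk_surjective z'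
    obtain ⟨a, b, c, ρ, h, e⟩ := hz z (fun h => z0 ((QuotientAddGroup.eq_zero_iff z).2 h)) z'
      fun h => z0' ((QuotientAddGroup.eq_zero_iff z').2 h)
    obtain ⟨γ, g1, g2⟩ := key a b c ρ h
    exact ⟨a, b, γ, g1, (g2 z).trans (QuotientAddGroup.eq_iff_sub_mem.2 e)⟩

lemma one [Finite F] (H : CVB) (U : AddSubgroup F) (h : ∀ z ∉ U, ∀ z' ∉ U,
    ∃ (a : F) (σ : F ≃+* F), (∀ t, a * σ t ∈ U ↔ t ∈ U) ∧ a * σ z - z' ∈ U) :
    Sol (graphs U fun x y => x * y) := by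
  have k : ∀ a b : F, a * b = 1 → T U (fun x y => x * y) a b 1 (RingEquiv.refl F) := fun a b e =>
    ⟨left_ne_zero_of_mul_eq_one e, right_ne_zero_of_mul_eq_one e, one_ne_zero, by simp,
      fun x y => by simp only [RingEquiv.refl_apply]; linear_combination x * y * e⟩
  refine sol_of H U _ add_mul mul_add (fun _ _ => mul_eq_zero.1)
    (fun a a0 => ⟨_, _, _, k a _ (mul_inv_cancel₀ a0)⟩)
    (fun b b0 => ⟨_, _, _, k _ b (inv_mul_cancel₀ b0)⟩) fun z hz z' hz' => ?_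
  obtain ⟨a, σ, h1, h2⟩ := h z hz z' hz'
  have a0 : a ≠ 0 := fun e => hz ((h1 z).1 (by simp [e]))
  exact ⟨a, 1, a, σ, ⟨a0, one_ne_zero, a0, h1, fun x y => by rw [map_mul]; ring⟩, h2⟩

lemma cyc {C : Type} [Group C] [Finite C] [IsCyclic C] {A B : Subgroup C}
    (h : Nat.card A = Nat.card B) : A = B := by
  classical
  have := Fintype.ofFinite C
  have k : ∀ S : Subgroup C, (S : Set C) = {x | x ^ Nat.card S = 1} := fun S =>
    Set.eq_of_subset_of_ncard_le (fun x hx => congrArg Subtype.val (pow_card_eq_one' (x := (⟨x, hx⟩ : S))))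
      (by
        have := IsCyclic.card_pow_eq_one_le (α := C) (Nat.card_pos (α := S))
        rw [Set.ncard_eq_toFinset_card', Set.toFinset_ofPred]
        exact this)
  exact SetLike.coe_injective (by rw [k A, k B, h])

/-- the map `u ↦ σ u / τ u` -/
def qt (σ τ : F ≃+* F) : Fˣ →* Fˣ := Units.map (σ : F →* F) / Units.map (τ : F →* F)

lemma qt_val (σ τ : F ≃+* F) (u : Fˣ) : (qt σ τ u : F) = σ u / τ u := by
  simp [qt]

lemma qt_ex [Finite F] {σ τ σ' τ' : F ≃+* F} (h : ∀ x, σ x = τ x ↔ σ' x = τ' x) {x : F}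
    (x0 : x ≠ 0) : ∃ y, y ≠ 0 ∧ σ' y * τ x = σ x * τ' y := by
  have k : (qt σ τ).ker = (qt σ' τ').ker := by
    ext u
    rw [MonoidHom.mem_ker, MonoidHom.mem_ker, Units.ext_iff, Units.ext_iff, qt_val, qt_val,
      Units.val_one, div_eq_one_iff_eq ((map_ne_zero τ).2 u.ne_zero),
      div_eq_one_iff_eq ((map_ne_zero τ').2 u.ne_zero), h]
  have e : (qt σ τ).range = (qt σ' τ').range :=
    cyc (by rw [← Subgroup.index_ker, ← Subgroup.index_ker, k])
  obtain ⟨u, hu⟩ := e.le ⟨Units.mk0 x x0, rfl⟩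
  have := congrArg Units.val hu
  rw [qt_val, qt_val, div_eq_div_iff ((map_ne_zero τ').2 u.ne_zero)
    ((map_ne_zero τ).2 (Units.ne_zero _))] at this
  exact ⟨u, u.ne_zero, this⟩

lemma two [Finite F] (H : CVB) (α β : F ≃+* F) (c : F)
    (nz : ∀ x y, x * y - c * α x * β y = 0 → x = 0 ∨ y = 0) (h1 : ∀ x, α x = x ↔ β x = x)
    (h2 : ∀ x, α x = β x → α x = x) : Sol (graphs ⊥ fun x y => x * y - c * α x * β y) := by
  have k : ∀ a b : F, a ≠ 0 → b ≠ 0 → α a * β b = a * b →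
      T ⊥ (fun x y => x * y - c * α x * β y) a b (a * b) (RingEquiv.refl F) := fun a b a0 b0 e =>
    ⟨a0, b0, mul_ne_zero a0 b0, by simp [a0, b0], fun x y => by
      simp only [RingEquiv.refl_apply, map_mul]; linear_combination (-c * α x * β y) * e⟩
  refine sol_of H ⊥ _ (fun x x' y => by rw [map_add]; ring) (fun x y y' => by rw [map_add]; ring) nz
    (fun a a0 => ?_) (fun b b0 => ?_) fun z hz z' hz' => ?_
  · obtain ⟨b, b0, e⟩ := qt_ex (σ := .refl F) (τ := α) (σ' := β) (τ' := .refl F)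
      (fun x => eq_comm.trans (h1 x)) a0
    exact ⟨b, _, _, k a b a0 b0 ((mul_comm _ _).trans e)⟩
  · obtain ⟨a, a0, e⟩ := qt_ex (σ := .refl F) (τ := β) (σ' := α) (τ' := .refl F)
      (fun x => eq_comm.trans (h1 x).symm) b0
    exact ⟨a, _, _, k a b a0 b0 (e.trans (mul_comm _ _))⟩
  · rw [AddSubgroup.mem_bot] at hz hz'
    have w0 := div_ne_zero hz' hz
    obtain ⟨a, a0, e⟩ := qt_ex (σ := .refl F) (τ := β) (σ' := α) (τ' := β)
      (fun x => ⟨fun h => ((h1 x).2 h.symm).trans h, fun h => (h2 x h).symm.trans h⟩) w0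
    have a1 := (map_ne_zero β).2 a0
    refine ⟨a, z' / z / a, _, _, k a _ a0 (div_ne_zero w0 a0) ?_, ?_⟩
    · rw [map_div₀ β _ a, ← mul_div_assoc, e, mul_div_cancel_right₀ _ a1, mul_div_cancel₀ _ a0]
      rfl
    · rw [mul_div_cancel₀ _ a0, RingEquiv.refl_apply, div_mul_cancel₀ _ hz, sub_self]
      exact zero_mem _

lemma mon {u c : F} (hu : u ^ 21 = 1) (hc : c ^ 63 = 1) (i j i' j' : ℕ) (h : i % 21 = i' % 21)
    (h' : j % 63 = j' % 63) : u ^ i * c ^ j = u ^ i' * c ^ j' := by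
  rw [pow_eq_pow_mod i hu, pow_eq_pow_mod j hc, h, h', ← pow_eq_pow_mod i' hu,
    ← pow_eq_pow_mod j' hc]

lemma crit {U : AddSubgroup F} (hU : ∀ t, t ∈ U ↔ t ^ 8 = t) {c a b : F} (ρ : F ≃+* F) (a0 : a ≠ 0)
    (b0 : b ≠ 0) (h1 : c * a ^ 16 * b = a * b ^ 16 * ρ c) (h2 : (a * b ^ 16) ^ 8 = a * b ^ 16) :
    T U (fun x y => x * y ^ 16 + c * x ^ 16 * y) a b (a * b ^ 16) ρ := by
  have d0 := mul_ne_zero a0 (pow_ne_zero 16 b0)
  refine ⟨a0, b0, d0, fun t => ?_, fun x y => ?_⟩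
  · rw [hU, hU, mul_pow, h2, mul_right_inj' d0, ← map_pow, ρ.injective.eq_iff]
  · simp only [map_add, map_mul, map_pow]
    linear_combination ρ x ^ 16 * ρ y * h1

lemma three [Finite F] (X : EXP) (H : CVB) (hF : Nat.card F = 64) {U : AddSubgroup F}
    (hU : ∀ t, t ∈ U ↔ t ^ 8 = t) {c : F} (c0 : c ≠ 0) (c1 : c ^ 21 ≠ 1) :
    Sol (graphs U fun x y => x * y ^ 16 + c * x ^ 16 * y) := by
  have := Fintype.ofFinite F
  have p63 : ∀ x : F, x ≠ 0 → x ^ 63 = 1 := fun x h => by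
    have := FiniteField.pow_card_sub_one_eq_one x h
    rwa [← Nat.card_eq_fintype_card, hF] at this
  have p64 : ∀ x : F, x ^ 64 = x := fun x => by
    have := FiniteField.pow_card x
    rwa [← Nat.card_eq_fintype_card, hF] at this
  have t0 : (2 : F) = 0 := by
    have := FiniteField.cast_card_eq_zero F
    rw [← Nat.card_eq_fintype_card, hF] at this
    exact pow_eq_zero_iff (n := 6) (by norm_num) |>.1 (by rw [← this]; norm_num)
  have fr := (X.frob F 2 6 Nat.prime_two hF).2.2.1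
  obtain ⟨σ₂, s2⟩ : ∃ σ : F ≃+* F, ∀ x, σ x = x ^ 4 := fr 2
  obtain ⟨σ₃, s3⟩ : ∃ σ : F ≃+* F, ∀ x, σ x = x ^ 8 := fr 3
  obtain ⟨σ₄, s4⟩ : ∃ σ : F ≃+* F, ∀ x, σ x = x ^ 16 := fr 4
  have hc := p63 c c0
  have u0 : ∀ {u : F}, u ^ 21 = 1 → u ≠ 0 := fun h e => by simp [e] at h
  have k0 := fun (u : F) (hu : u ^ 21 = 1) => crit hU (c := c) (.refl F) (u0 hu)
    (pow_ne_zero 8 (u0 hu))
    (by rw [RingEquiv.refl_apply]; linear_combination mon hu hc 24 1 129 1 rfl rfl)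
    (by linear_combination mon hu hc 1032 0 129 0 rfl rfl)
  have k1 := fun (u : F) (hu : u ^ 21 = 1) => crit hU (c := c) σ₂
    (mul_ne_zero (u0 hu) (pow_ne_zero 25 c0)) (mul_ne_zero (pow_ne_zero 8 (u0 hu)) (pow_ne_zero 8 c0))
    (by rw [s2]; linear_combination mon hu hc 24 409 129 157 rfl rfl)
    (by linear_combination mon hu hc 1032 1224 129 153 rfl rfl)
  have k2 := fun (u : F) (hu : u ^ 21 = 1) => crit hU (c := c) σ₄
    (mul_ne_zero (u0 hu) (pow_ne_zero 62 c0))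
    (mul_ne_zero (pow_ne_zero 8 (u0 hu)) (pow_ne_zero 40 c0))
    (by rw [s4]; linear_combination mon hu hc 24 1033 129 718 rfl rfl)
    (by linear_combination mon hu hc 1032 5616 129 702 rfl rfl)
  have cu : ∀ x : F, x ≠ 0 → x ^ 21 = 1 ∨ x ^ 21 = c ^ 21 ∨ x ^ 21 = c ^ 42 := fun x h => by
    have e : c ^ 42 + c ^ 21 + 1 = 0 :=
      mul_left_cancel₀ (sub_ne_zero.2 c1) (by linear_combination hc)
    have : (x ^ 21 - 1) * ((x ^ 21 - c ^ 21) * (x ^ 21 - c ^ 42)) = 0 := by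
      linear_combination p63 x h + (x ^ 21 - 1) * hc + (x ^ 21 - x ^ 42) * e
    simpa only [mul_eq_zero, sub_eq_zero] using this
  have pc : ∀ n, c ^ (63 * n) = 1 := fun n => by rw [pow_mul, hc, one_pow]
  refine sol_of H U _ (fun x x' y => by rw [← s4 (x + x'), map_add, s4, s4]; ring)
    (fun x y y' => by rw [← s4 (y + y'), map_add, s4, s4]; ring) (fun x y h => ?_)
    (fun a a0 => ?_) (fun b b0 => ?_) fun z hz z' hz' => ?_
  · by_contra hn
    obtain ⟨x0, y0⟩ := not_or.1 hn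
    have e : y ^ 15 = c * x ^ 15 := mul_left_cancel₀ (mul_ne_zero x0 y0)
      (by linear_combination h - c * x ^ 16 * y * t0)
    have e' := congrArg (· ^ 21) e
    simp only [mul_pow, ← pow_mul] at e'
    rw [show 15 * 21 = 63 * 5 from rfl, pow_mul, pow_mul, p63 x x0, p63 y y0, one_pow, mul_one] at e'
    exact c1 e'.symm
  · rcases cu a a0 with h | h | h
    · exact ⟨_, _, _, k0 a h⟩
    · have := k1 (a * c ^ 38) (by linear_combination c ^ 798 * h + pc 13)
      rw [show a * c ^ 38 * c ^ 25 = a by linear_combination a * hc] at this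
      exact ⟨_, _, _, this⟩
    · have := k2 (a * c) (by linear_combination c ^ 21 * h + hc)
      rw [show a * c * c ^ 62 = a by linear_combination a * hc] at this
      exact ⟨_, _, _, this⟩
  · have q : ∀ v : F, v ^ 21 = 1 → (v ^ 8) ^ 21 = 1 := fun v h => by
      rw [← pow_mul, mul_comm, pow_mul, h, one_pow]
    have q' : ∀ v : F, (v ^ 8) ^ 8 = v := fun v => by rw [← pow_mul, p64]
    rcases cu b b0 with h | h | h
    · have := k0 _ (q b h)
      rw [q'] at this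
      exact ⟨_, _, _, this⟩
    · have := k2 _ (q (b * c ^ 23) (by linear_combination c ^ 483 * h + pc 8))
      rw [q', show b * c ^ 23 * c ^ 40 = b by linear_combination b * hc] at this
      exact ⟨_, _, _, this⟩
    · have := k1 _ (q (b * c ^ 55) (by linear_combination c ^ 1155 * h + pc 19))
      rw [q', show b * c ^ 55 * c ^ 8 = b by linear_combination b * hc] at this
      exact ⟨_, _, _, this⟩
  · have n0 : ∀ t ∉ U, t + t ^ 8 ≠ 0 := fun t ht e =>
      ht ((hU t).2 (by linear_combination e - t * t0))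
    have f8 : ∀ t : F, (t + t ^ 8) ^ 8 = t + t ^ 8 := fun t => by
      rw [← s3 (t + _), map_add, s3, s3, ← pow_mul, p64, add_comm]
    obtain ⟨w, hw⟩ : ∃ w, w = (z' + z' ^ 8) / (z + z ^ 8) := ⟨_, rfl⟩
    have w0 : w ≠ 0 := hw ▸ div_ne_zero (n0 z' hz') (n0 z hz)
    have w8 : w ^ 8 = w := by rw [hw, div_pow, f8, f8]
    have w7 : w ^ 7 = 1 := mul_left_cancel₀ w0 (by linear_combination w8)
    have pw : ∀ n, w ^ (7 * n) = 1 := fun n => by rw [pow_mul, w7, one_pow]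
    refine ⟨_, _, _, _, k0 (w ^ 5) (by linear_combination pw 15), ?_⟩
    rw [show w ^ 5 * ((w ^ 5) ^ 8) ^ 16 = w by linear_combination w * pw 92, RingEquiv.refl_apply,
      hU, ← s3, map_sub, map_mul, s3, s3, s3, w8]
    rw [eq_div_iff (n0 z hz)] at hw
    linear_combination hw + (z' - w * z) * t0

theorem row : OfCVF := by
  intro X H F _ _ U m h
  rcases h with ⟨e, -, h⟩ | ⟨rfl, α, β, c, e, nz, h1, h2⟩ | ⟨hF, hU, c, c0, c1, e⟩ <;>
    obtain rfl : m = _ := funext fun x => funext (e x)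
  · exact one H U h
  · exact two H α β c nz h1 h2
  · exact three X H hF hU c0 c1

end Pool.Agent.MP_f8e15f_co.RCVF
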