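import Pool.Agent.MP_f8e15f_co.H33.Spec2
import Pool.Agent.MP_f8e15f_co.H24.Final

namespace Pool.Agent.MP_f8e15f_co.RCVH

open H33 H24 Equiv
open scoped commutatorElement

variable {F : Type} [Field F]

theorem aut_comm [Finite F] (σ τ : F ≃+* F) (x : F) : σ (τ x) = τ (σ x) := by
  obtain ⟨p, hp⟩ := CharP.exists F
  have : Fact p.Prime := ⟨CharP.char_is_prime F p⟩
  let _ := ZMod.algebra F p
  have h : ∀ (σ : F ≃+* F) (a : ZMod p), σ (algebraMap _ F a) = algebraMap _ F a := fun σ a =>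
    RingHom.congr_fun (RingHom.ext_zmod ((σ : F →+* F).comp (algebraMap _ F)) (algebraMap _ F)) a
  exact AlgEquiv.congr_fun (IsCyclic.commGroup.mul_comm
    (AlgEquiv.ofRingEquiv (h σ)) (AlgEquiv.ofRingEquiv (h τ))) x

theorem ne_zero {g : Perm F} {a b : F} {σ : F → F} (h : ∀ x, g x = a * σ x + b) : a ≠ 0 :=
  fun e => zero_ne_one (g.injective (by rw [h, h, e, zero_mul, zero_mul]) : (0 : F) = 1)

/-- Affine maps. -/
def aff : Subgroup (Perm F) where
  carrier := {g | ∃ a b : F, ∀ x, g x = a * x + b}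
  one_mem' := ⟨1, 0, by simp⟩
  mul_mem' := by
    rintro g h ⟨a, b, e⟩ ⟨c, d, e'⟩
    exact ⟨a * c, a * d + b, fun x => by rw [Perm.mul_apply, e, e']; ring⟩
  inv_mem' := by
    rintro g ⟨a, b, e⟩
    have := ne_zero e
    exact ⟨a⁻¹, -(a⁻¹ * b), fun x => by
      rw [Perm.inv_eq_iff_eq, e]
      field_simp
      ring⟩

/-- Translations. -/
def tra : Subgroup (Perm F) where
  carrier := {g | ∃ b : F, ∀ x, g x = x + b}
  one_mem' := ⟨0, by simp⟩
  mul_mem' := by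
    rintro g h ⟨b, e⟩ ⟨d, e'⟩
    exact ⟨d + b, fun x => by rw [Perm.mul_apply, e, e', add_assoc]⟩
  inv_mem' := by
    rintro g ⟨b, e⟩
    exact ⟨-b, fun x => by rw [Perm.inv_eq_iff_eq, e, neg_add_cancel_right]⟩

omit [Field F] in
theorem comm_apply {g h : Perm F} {u : F → F} (e : ∀ x, g (h x) = u (h (g x))) (y : F) :
    ⁅g, h⁆ y = u y := by
  obtain ⟨x, rfl⟩ := (h * g).surjective y
  rw [← Perm.mul_apply, commutatorElement_def, Perm.mul_apply h, ← e, ← Perm.mul_apply]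
  congr 1
  group

theorem solv [Finite F] {G : Subgroup (Perm F)} (hG : ∀ g ∈ G, IsSemiAffine g) :
    Group.IsSolvable G := by
  have h1 : ⁅G, G⁆ ≤ aff := Subgroup.commutator_le.2 fun g hg h hh => by
    obtain ⟨a, b, σ, e⟩ := hG g hg
    obtain ⟨c, d, τ, e'⟩ := hG h hh
    have a0 : τ a ≠ 0 := (map_ne_zero τ).2 (ne_zero e)
    have c0 := ne_zero e'
    refine ⟨a * σ c / (c * τ a), a * σ d + b - a * σ c / (c * τ a) * (c * τ b + d),
      comm_apply fun x => ?_⟩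
    simp only [e, e', map_add, map_mul, aut_comm σ τ]
    field_simp
    ring
  have h2 : ⁅(aff : Subgroup (Perm F)), aff⁆ ≤ tra := Subgroup.commutator_le.2 (by
    rintro g ⟨a, b, e⟩ h ⟨c, d, e'⟩
    refine ⟨a * d + b - (c * b + d), comm_apply fun x => ?_⟩
    simp only [e, e']
    ring)
  have h3 : ⁅(tra : Subgroup (Perm F)), tra⁆ ≤ ⊥ := Subgroup.commutator_le.2 (by
    rintro g ⟨b, e⟩ h ⟨d, e'⟩
    refine Subgroup.mem_bot.2 (Equiv.ext (comm_apply (u := id) fun x => ?_))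
    simp only [e, e', id]
    ring)
  have st : ∀ (n : ℕ) {H K : Subgroup (Perm F)}, ⁅H, H⁆ ≤ K →
      (derivedSeries G n).map G.subtype ≤ H → (derivedSeries G (n + 1)).map G.subtype ≤ K :=
    fun n H K a b => by
      rw [derivedSeries_succ, Subgroup.map_commutator]
      exact (Subgroup.commutator_mono b b).trans a
  exact ⟨3, (Subgroup.map_eq_bot_iff_of_injective _ G.subtype_injective).1
    (le_bot_iff.1 (st 2 h3 (st 1 h2 (st 0 h1 (Subgroup.map_subtype_le _)))))⟩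

theorem sol [Finite F] {D : Set (Set F)} (h : ∃ k r : ℕ, IsOneDesign D k r ∧ 3 ≤ r ∧
    ∃ G : Subgroup (Perm F), (∀ g ∈ G, IsSemiAffine g) ∧ PairwiseTransitive G D) : Sol D := by
  obtain ⟨k, r, h1, h2, G, h3, h4⟩ := h
  obtain ⟨B, hB, h0⟩ := Set.nonempty_of_ncard_ne_zero (s := {B | B ∈ D ∧ (0 : F) ∈ B})
    (by rw [h1.2]; omega)
  refine ⟨k, r, ?_, by omega, h1, G, solv h3, h4⟩
  rw [← h1.1 B hB]
  exact (Set.ncard_pos (Set.toFinite B)).2 ⟨0, h0⟩

theorem row : H33.CVH :=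
  ⟨fun F _ _ n ρ c h1 h2 h3 => sol ((H24.main F _).2 (.inr (.inl ⟨n, ρ, h1, h2, c, h3, rfl⟩))),
    fun F _ _ γ h1 h2 => sol ((H24.main F _).2 (.inr (.inr ⟨h1, γ, h2, rfl⟩)))⟩

end Pool.Agent.MP_f8e15f_co.RCVH
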