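import Pool.Agent.MP_f8e15f_co.H33.Spec2

/-!
Slope nets with enough semilinear automorphisms are pairwise transitive under a soluble group.
-/

open MulAction Pointwise

namespace Pool.Agent.MP_f8e15f_co.RCVN

open Pool.Agent.MP_f8e15f_co.H33 Pool.Agent.MP_f8e15f_co.H24

theorem perm_four : Group.IsSolvable (Equiv.Perm (Fin 4)) := by
  have h4 : Nat.card (Fin 4) = 4 := by simp
  have := Fact.mk Nat.prime_two
  have h1 : IsPGroup 2 (alternatingGroup.kleinFour (Fin 4)) :=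
    IsPGroup.of_card (n := 2) (alternatingGroup.kleinFour_card_of_card_eq_four h4)
  have := h1.isNilpotent
  have : Group.IsSolvable (alternatingGroup (Fin 4)) :=
    Group.isSolvable_of_ker_le_range (alternatingGroup.kleinFour (Fin 4)).subtype
      Abelianization.of (by
        rw [Abelianization.ker_of, Subgroup.range_subtype,
          alternatingGroup.kleinFour_eq_commutator h4])
  exact Group.isSolvable_of_ker_le_range (alternatingGroup (Fin 4)).subtype Equiv.Perm.sign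
    (by rw [Subgroup.range_subtype]; exact le_rfl)

theorem perm_small (T : Type) [Finite T] (h : Nat.card T ≤ 4) :
    Group.IsSolvable (Equiv.Perm T) := by
  classical
  have := Fintype.ofFinite T
  obtain ⟨f⟩ := Function.Embedding.nonempty_of_card_le (α := T) (β := Fin 4)
    (by simpa [Nat.card_eq_fintype_card] using h)
  have := perm_four
  exact Group.isSolvable_of_isSolvable_injective (Equiv.Perm.viaEmbeddingHom_injective f)

variable {F : Type} [Field F] {S S' : Set F} {L L' : AddSubgroup (F × F)} {v w : F × F}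

/-- The vertical line. -/
def vert (F : Type) [Field F] : AddSubgroup (F × F) := (AddMonoidHom.fst F F).ker

/-- The line of slope `s`. -/
def ln (s : F) : AddSubgroup (F × F) :=
  (AddMonoidHom.snd F F).eqLocus ((AddMonoidHom.mulLeft s).comp (AddMonoidHom.fst F F))

theorem mem_vert : v ∈ vert F ↔ v.1 = 0 := Iff.rfl

theorem mem_ln {s : F} : v ∈ ln s ↔ v.2 = s * v.1 := Iff.rfl

theorem mem_comps : L ∈ comps S ↔ L = vert F ∨ ∃ s ∈ S, L = ln s := by
  simp only [comps, Set.mem_ofPred_eq, AddSubgroup.ext_iff, mem_vert, mem_ln]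

theorem vert_mem : vert F ∈ comps S := mem_comps.2 (Or.inl rfl)

theorem ln_mem {s : F} (h : s ∈ S) : ln s ∈ comps S := mem_comps.2 (Or.inr ⟨s, h, rfl⟩)

theorem vert_ne (s : F) : vert F ≠ ln s := fun h => by
  have : ((0, 1) : F × F) ∈ ln s := h ▸ mem_vert.2 rfl
  simp [mem_ln] at this

theorem ln_inj {s t : F} (h : ln s = ln t) : s = t := by
  have : ((1, s) : F × F) ∈ ln t := h ▸ mem_ln.2 (mul_one s).symm
  simpa [mem_ln] using this

theorem smul_mem (hL : L ∈ comps S) (c : F) (h : v ∈ L) : c • v ∈ L := by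
  rcases mem_comps.1 hL with rfl | ⟨s, -, rfl⟩
  · simp [mem_vert, mem_vert.1 h]
  · simp [mem_ln, mem_ln.1 h, mul_left_comm]

theorem gen (hL : L ∈ comps S) (h : v ∈ L) (h' : w ∈ L) (h0 : v ≠ 0) : ∃ c : F, w = c • v := by
  rcases mem_comps.1 hL with rfl | ⟨s, -, rfl⟩
  · have h1 : v.2 ≠ 0 := fun h1 => h0 (Prod.ext h h1)
    exact ⟨w.2 / v.2, Prod.ext (by simp [mem_vert.1 h, mem_vert.1 h']) (by simp [h1])⟩
  · have h1 : v.1 ≠ 0 := fun h1 => h0 (Prod.ext h1 (by simp [mem_ln.1 h, h1]))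
    refine ⟨w.1 / v.1, Prod.ext (by simp [h1]) ?_⟩
    rw [Prod.smul_snd, mem_ln.1 h, mem_ln.1 h', smul_eq_mul]
    field_simp

theorem ex_ne (hL : L ∈ comps S) : ∃ u ∈ L, u ≠ 0 := by
  rcases mem_comps.1 hL with rfl | ⟨s, -, rfl⟩
  · exact ⟨(0, 1), rfl, by simp⟩
  · exact ⟨(1, s), (mul_one s).symm, by simp⟩

theorem eq_of_mem (hL : L ∈ comps S) (hL' : L' ∈ comps S') (h : v ∈ L) (h' : v ∈ L')
    (h0 : v ≠ 0) : L = L' := by
  ext w
  constructor
  · intro hw
    obtain ⟨c, rfl⟩ := gen hL h hw h0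
    exact smul_mem hL' c h'
  · intro hw
    obtain ⟨c, rfl⟩ := gen hL' h' hw h0
    exact smul_mem hL c h

theorem ex_line (v : F × F) : ∃ L ∈ comps (Set.univ : Set F), v ∈ L := by
  by_cases h : v.1 = 0
  · exact ⟨_, vert_mem, h⟩
  · exact ⟨_, ln_mem (Set.mem_univ (v.2 / v.1)), (div_mul_cancel₀ _ h).symm⟩

theorem anti (hL : L ∈ comps S) (h : v ∉ L) (h' : w ∉ L) : ∃ c : F, c ≠ 0 ∧ c • v - w ∈ L := by
  rcases mem_comps.1 hL with rfl | ⟨s, -, rfl⟩
  · exact ⟨w.1 / v.1, div_ne_zero h' h, by simp [mem_vert, show v.1 ≠ 0 from h]⟩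
  · have h1 : v.2 - s * v.1 ≠ 0 := sub_ne_zero.2 h
    refine ⟨(w.2 - s * w.1) / (v.2 - s * v.1), div_ne_zero (sub_ne_zero.2 h') h1, ?_⟩
    simp only [mem_ln, Prod.snd_sub, Prod.fst_sub, Prod.smul_snd, Prod.smul_fst, smul_eq_mul]
    linear_combination div_mul_cancel₀ (w.2 - s * w.1) h1

theorem sup_top (hL : L ∈ comps S) (hL' : L' ∈ comps S') (h : L ≠ L') : L ⊔ L' = ⊤ := by
  obtain ⟨u, hu, h0⟩ := ex_ne hL'
  refine eq_top_iff.2 fun w _ => ?_
  by_cases hw : w ∈ L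
  · exact AddSubgroup.mem_sup_left hw
  · obtain ⟨c, -, hc⟩ := anti hL (fun h1 => h (eq_of_mem hL hL' h1 hu h0)) hw
    rw [← sub_sub_cancel (c • u) w]
    exact sub_mem (AddSubgroup.mem_sup_right (smul_mem hL' c hu)) (AddSubgroup.mem_sup_left hc)

/-- The group of admissible maps. -/
def grp [Finite F] (S : Set F) : Subgroup ((F × F) ≃ₗ[ℤ] (F × F)) where
  carrier := {g | Adm S g}
  one_mem' := ⟨⟨RingEquiv.refl F, fun _ _ => rfl⟩, fun L hL => by rwa [one_smul]⟩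
  mul_mem' := by
    rintro g h ⟨⟨σ, h1⟩, h2⟩ ⟨⟨τ, h3⟩, h4⟩
    refine ⟨⟨τ.trans σ, fun c v => ?_⟩, fun L hL => ?_⟩
    · rw [LinearEquiv.mul_apply, h3, h1]
      rfl
    · rw [mul_smul]
      exact h2 _ (h4 L hL)
  inv_mem' := by
    rintro g ⟨⟨σ, h1⟩, h2⟩
    refine ⟨⟨σ.symm, fun c v => g.injective ?_⟩, fun L hL => ?_⟩
    · rw [h1, σ.apply_symm_apply]
      exact (g.apply_symm_apply _).trans (congrArg _ (g.apply_symm_apply _).symm)
    · obtain ⟨L', h3, rfl⟩ := (((Set.toFinite (comps S)).injOn_iff_bijOn_of_mapsTo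
        (f := fun L => g • L) h2).1 (MulAction.injective g).injOn).surjOn hL
      rwa [inv_smul_smul]

variable [Finite F]

theorem smul_ne (g : grp S) (h : v ≠ 0) : g • v ≠ 0 := (smul_ne_zero_iff_ne g).2 h

theorem smul_eq {g : grp S} (hL : g • L ∈ comps S') (hL' : L' ∈ comps S) (h : v ∈ L) (h0 : v ≠ 0)
    (h' : g • v ∈ L') : g • L = L' :=
  eq_of_mem hL hL' (AddSubgroup.smul_mem_pointwise_smul _ _ _ h) h' (smul_ne g h0)

theorem scalar (S : Set F) {c : F} (hc : c ≠ 0) :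
    ∃ g : grp S, (∀ v : F × F, g • v = c • v) ∧ ∀ L ∈ comps S, g • L = L := by
  let g : (F × F) ≃ₗ[ℤ] (F × F) := DistribMulAction.toLinearEquiv ℤ (F × F) (Units.mk0 c hc)
  have h : ∀ L ∈ comps S, g • L = L := fun L hL => by
    ext v
    rw [AddSubgroup.mem_smul_pointwise_iff_exists]
    refine ⟨?_, fun hv => ⟨c⁻¹ • v, smul_mem hL _ hv, smul_inv_smul₀ hc v⟩⟩
    rintro ⟨u, hu, rfl⟩
    exact smul_mem hL c hu
  exact ⟨⟨g, ⟨RingEquiv.refl F, fun a v => smul_comm c a v⟩, fun L hL => (h L hL).symm ▸ hL⟩,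
    fun _ => rfl, h⟩

/-- Non-zero vectors of a line are conjugate. -/
theorem on_line (S : Set F) (hL : L ∈ comps S') (h : v ∈ L) (h' : w ∈ L) (h0 : v ≠ 0)
    (h0' : w ≠ 0) : ∃ g : grp S, g • v = w := by
  obtain ⟨c, rfl⟩ := gen hL h h' h0
  obtain ⟨g, hg, -⟩ := scalar S (left_ne_zero_of_smul h0')
  exact ⟨g, hg v⟩

theorem line_smul (g : grp S) (hL : L ∈ comps S') : g • L ∈ comps (Set.univ : Set F) := by
  obtain ⟨σ, hσ⟩ := g.2.1
  obtain ⟨u, hu, h0⟩ := ex_ne hL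
  obtain ⟨L', hL', h1⟩ := ex_line (g • u)
  convert hL'
  ext w
  refine (AddSubgroup.mem_smul_pointwise_iff_exists w g.1 L).trans ⟨?_, ?_⟩
  · rintro ⟨x, hx, rfl⟩
    obtain ⟨c, rfl⟩ := gen hL hu hx h0
    show g.1 (c • u) ∈ L'
    rw [hσ]
    exact smul_mem hL' (σ c) h1
  · intro hw
    obtain ⟨c, rfl⟩ := gen hL' h1 hw (smul_ne g h0)
    refine ⟨σ.symm c • u, smul_mem hL _ hu, (hσ _ u).trans ?_⟩
    rw [σ.apply_symm_apply]
    rfl

/-- A group that permutes at most four lines is soluble. -/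
theorem solv (ex : EXP) (T : SubMulAction (grp S) (AddSubgroup (F × F))) (h4 : Nat.card T ≤ 4)
    (hL : L ∈ comps S') (hL' : L' ∈ comps S') (h : L ≠ L') (h1 : L ∈ T) (h2 : L' ∈ T) :
    Group.IsSolvable (grp S) := by
  choose σ hσ using fun g : grp S => g.2.1
  let s : grp S →* RingAut F := MonoidHom.mk' σ fun g k => RingEquiv.ext fun c => by
    have e : ((1, 0) : F × F) ≠ 0 := by simp
    refine smul_left_injective F (smul_ne (g * k) e) ((hσ (g * k) c _).symm.trans ?_)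
    show g.1 (k.1 _) = _
    rw [hσ, hσ]
    rfl
  have := perm_small T h4
  have : Group.IsSolvable (RingAut F) :=
    Group.isSolvable_of_comm fun a b => RingEquiv.ext (ex.comm F a b)
  let Φ := (toPermHom (grp S) T).prod s
  have key : ∀ g : Φ.ker, ∀ M ∈ comps S', M ∈ T → ∀ v ∈ M, ∃ a : F, g.1.1 v = a • v := by
    intro g M hM hT v hv
    have e : g.1 • M = M :=
      congrArg Subtype.val (Equiv.congr_fun (congrArg Prod.fst g.2) ⟨M, hT⟩)
    rcases eq_or_ne v 0 with rfl | h0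
    · exact ⟨0, by simp⟩
    · exact gen hM hv (e ▸ AddSubgroup.smul_mem_pointwise_smul _ _ _ hv) h0
  have lin : ∀ (g : Φ.ker) (c : F) v, g.1.1 (c • v) = c • g.1.1 v := fun g c v => by
    rw [hσ, show σ g c = c from RingEquiv.congr_fun (congrArg Prod.snd g.2) c]
  have cm : ∀ g k : Φ.ker, ∀ M ∈ comps S', M ∈ T → ∀ v ∈ M,
      g.1.1 (k.1.1 v) = k.1.1 (g.1.1 v) := by
    intro g k M hM hT v hv
    obtain ⟨a, ha⟩ := key g M hM hT v hv
    obtain ⟨b, hb⟩ := key k M hM hT v hv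
    rw [ha, hb, lin, lin, ha, hb, smul_comm]
  have : Group.IsSolvable Φ.ker := Group.isSolvable_of_comm fun g k =>
    Subtype.ext (Subtype.ext (LinearEquiv.ext fun v => by
      obtain ⟨x, hx, y, hy, rfl⟩ := AddSubgroup.mem_sup.1
        ((sup_top hL hL' h).ge (AddSubgroup.mem_top v))
      show g.1.1 (k.1.1 _) = k.1.1 (g.1.1 _)
      simp only [map_add, cm g k L hL h1 x hx, cm g k L' hL' h2 y hy]))
  exact Group.isSolvable_of_ker_le_range Φ.ker.subtype Φ (by rw [Subgroup.range_subtype])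

omit [Finite F] in
theorem trans_eq (S : Set F) : H33.trans (comps S) = slopeNet S := by
  ext B
  constructor
  · rintro ⟨M, hM, v, rfl⟩
    rcases mem_comps.1 hM with rfl | ⟨s, hs, rfl⟩
    · exact Or.inl ⟨v.1, Set.ext fun x => sub_eq_zero⟩
    · refine Or.inr ⟨s, hs, v.2 - s * v.1, Set.ext fun x => ?_⟩
      simp only [Set.mem_ofPred_eq, mem_ln, Prod.snd_sub, Prod.fst_sub]
      constructor <;> intro h <;> linear_combination h
  · rintro (⟨c, rfl⟩ | ⟨s, hs, c, rfl⟩)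
    · exact ⟨_, vert_mem, (c, 0), Set.ext fun x => sub_eq_zero.symm⟩
    · refine ⟨_, ln_mem hs, (0, c), Set.ext fun x => ?_⟩
      simp only [Set.mem_ofPred_eq, mem_ln, Prod.snd_sub, Prod.fst_sub]
      constructor <;> intro h <;> linear_combination h

theorem row : OfCVN := by
  intro ex cvt F _ _ S s₀ hs hc h2 h3
  have perm : ∀ (g : grp S), ∀ M ∈ comps S, g • M ∈ comps S := fun g => g.2.2
  have std : ∀ M ∈ comps S, ∀ M' ∈ comps S, M ≠ M' →
      ∃ g : grp S, g • M = vert F ∧ g • M' = ln s₀ := by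
    intro M hM M' hM' h
    obtain ⟨g, a1, a2, a3⟩ := h2 M hM M' hM' h
    obtain ⟨u, hu, u0⟩ := ex_ne hM
    obtain ⟨u', hu', u0'⟩ := ex_ne hM'
    exact ⟨⟨g, a1⟩, smul_eq (perm _ M hM) vert_mem hu u0 (a2 u hu),
      smul_eq (perm _ M' hM') (ln_mem hs) hu' u0' (a3 u' hu')⟩
  have std1 : ∀ M ∈ comps S, ∃ g : grp S, g • M = vert F := by
    intro M hM
    rcases eq_or_ne M (vert F) with rfl | h
    · exact ⟨1, one_smul _ _⟩
    · exact (std M hM _ vert_mem h).imp fun _ => And.left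
  have off : ∀ v : F × F, (∀ M ∈ comps S, v ∉ M) → v.1 ≠ 0 ∧ v.2 / v.1 ∉ S := fun v h =>
    ⟨h _ vert_mem, fun h1 => h _ (ln_mem h1) (div_mul_cancel₀ _ (h _ vert_mem)).symm⟩
  have tr : TrC (grp S) (comps S) := by
    refine ⟨perm, fun M hM M' hM' => sup_top hM hM', ⟨_, vert_mem, _, ln_mem hs, vert_ne s₀⟩,
      fun M hM M' hM' L hL L' hL' a b => ?_, fun M hM M' hM' v hv w hw v0 w0 => ?_,
      fun v w hv hw => ?_, fun M hM v hv w hw => ?_⟩
    · obtain ⟨g, a1, a2⟩ := std M hM M' hM' a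
      obtain ⟨k, b1, b2⟩ := std L hL L' hL' b
      exact ⟨k⁻¹ * g, show (k⁻¹ * g) • M = L by rw [mul_smul, a1, ← b1, inv_smul_smul],
        show (k⁻¹ * g) • M' = L' by rw [mul_smul, a2, ← b2, inv_smul_smul]⟩
    · obtain ⟨g, a1⟩ := std1 M hM
      obtain ⟨k, b1⟩ := std1 M' hM'
      obtain ⟨t, ht⟩ := on_line S (vert_mem (S := S))
        (a1 ▸ AddSubgroup.smul_mem_pointwise_smul _ _ _ hv)
        (b1 ▸ AddSubgroup.smul_mem_pointwise_smul _ _ _ hw) (smul_ne g v0) (smul_ne k w0)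
      exact ⟨k⁻¹ * t * g, by rw [mul_smul, mul_smul, ht, inv_smul_smul]⟩
    · obtain ⟨a1, a2⟩ := off v hv
      obtain ⟨b1, b2⟩ := off w hw
      obtain ⟨g, c1, c2⟩ := h3 _ a2 _ b2
      obtain ⟨σ, hσ⟩ := c1.1
      have c3 : g v ∈ ln (w.2 / w.1) := by
        rw [show v = v.1 • ((1, v.2 / v.1) : F × F) from
          Prod.ext (by simp) (by simp [mul_div_cancel₀ _ a1]), hσ]
        exact smul_mem (ln_mem (Set.mem_univ _)) _ c2
      obtain ⟨t, ht⟩ := on_line S (ln_mem (Set.mem_univ _)) c3 (div_mul_cancel₀ _ b1).symm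
        (smul_ne ⟨g, c1⟩ fun h => a1 (by simp [h])) fun h => b1 (by simp [h])
      exact ⟨t * ⟨g, c1⟩, by rw [mul_smul]; exact ht⟩
    · obtain ⟨c, c0, hc⟩ := anti hM hv hw
      obtain ⟨g, a1, a2⟩ := scalar S c0
      exact ⟨g, a2 M hM, (a1 v).symm ▸ hc⟩
  obtain ⟨k, Γ, a1, a2, a3, a4, -, a5⟩ := cvt (grp S) (F × F) (comps S) tr
  rw [trans_eq] at a2 a4
  refine ⟨k, _, a1, by omega, a2, Γ, a5 ?_, a4⟩
  rcases hc with hc | hc
  · refine solv ex ⟨comps S, fun g M hM => perm g M hM⟩ ?_ vert_mem (ln_mem hs) (vert_ne s₀)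
      vert_mem (ln_mem hs)
    have e : comps S = insert (vert F) (ln '' S) := by
      ext M
      simp only [mem_comps, Set.mem_insert_iff, Set.mem_image, eq_comm]
    show (comps S).ncard ≤ 4
    rw [e]
    have b1 := Set.ncard_insert_le (vert F) (ln '' S)
    have b2 := Set.ncard_image_le (f := ln) (Set.toFinite S)
    omega
  · obtain ⟨a, b, hab, e⟩ := Set.ncard_eq_two.1 hc
    have nm : ∀ s ∈ Sᶜ, ln s ∈ comps (Set.univ : Set F) \ comps S := fun s h =>
      ⟨ln_mem (Set.mem_univ _), fun h1 => by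
        rcases mem_comps.1 h1 with h4 | ⟨t, h4, h5⟩
        · exact vert_ne s h4.symm
        · exact h (ln_inj h5 ▸ h4)⟩
    refine solv ex ⟨comps Set.univ \ comps S, fun g M hM => ⟨line_smul g hM.1, fun h1 => hM.2 ?_⟩⟩
      ?_ (ln_mem (Set.mem_univ a)) (ln_mem (Set.mem_univ b)) (fun h => hab (ln_inj h))
      (nm a (by simp [e])) (nm b (by simp [e]))
    · simpa using perm g⁻¹ _ h1
    · show (comps Set.univ \ comps S).ncard ≤ 4
      refine (Set.ncard_le_ncard (t := ln '' Sᶜ) (fun M hM => ?_)).trans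
        ((Set.ncard_image_le (Set.toFinite _)).trans (by omega))
      rcases mem_comps.1 hM.1 with rfl | ⟨s, -, rfl⟩
      · exact absurd vert_mem hM.2
      · exact ⟨s, fun h => hM.2 (ln_mem h), rfl⟩

end Pool.Agent.MP_f8e15f_co.RCVN
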