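import Pool.Agent.MP_f8e15f_co.H33.Spec2

/-! The partition designs and the complements of points have soluble groups. -/

open MulAction Pointwise

namespace Pool.Agent.MP_f8e15f_co.RCVP

open H33 H24

/-- A soluble group that is transitive and doubly transitive. -/
def Good (A : Type) : Prop :=
  ∃ (G : Type) (_ : Group G) (_ : Group.IsSolvable G) (_ : MulAction G A),
    (∀ x y : A, ∃ g : G, g • x = y) ∧ Two G A

/-- The affine group of the line. -/
@[ext] structure Af (F : Type) [Field F] where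
  a : Fˣ
  b : F

section af

variable {F : Type} [Field F]

instance : Mul (Af F) := ⟨fun g h => ⟨g.a * h.a, g.a * h.b + g.b⟩⟩
instance : One (Af F) := ⟨⟨1, 0⟩⟩
instance : Inv (Af F) := ⟨fun g => ⟨g.a⁻¹, -((g.a⁻¹ : Fˣ) * g.b)⟩⟩

theorem Af.mul_a (g h : Af F) : (g * h).a = g.a * h.a := rfl
theorem Af.mul_b (g h : Af F) : (g * h).b = g.a * h.b + g.b := rfl
theorem Af.one_a : (1 : Af F).a = 1 := rfl
theorem Af.one_b : (1 : Af F).b = 0 := rfl
theorem Af.inv_a (g : Af F) : g⁻¹.a = g.a⁻¹ := rfl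
theorem Af.inv_b (g : Af F) : g⁻¹.b = -((g.a⁻¹ : Fˣ) * g.b) := rfl

instance : Group (Af F) := Group.ofLeftAxioms
  (fun g h k => Af.ext (mul_assoc _ _ _) (by
    simp only [Af.mul_a, Af.mul_b, Units.val_mul]; ring))
  (fun g => Af.ext (one_mul _) (by simp [Af.mul_b, Af.one_a, Af.one_b]))
  (fun g => Af.ext (inv_mul_cancel _) (by simp [Af.mul_b, Af.inv_a, Af.inv_b, Af.one_b]))

instance : MulAction (Af F) F where
  smul g x := g.a * x + g.b
  one_smul x := by
    change ((1 : Fˣ) : F) * x + 0 = x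
    simp
  mul_smul g h x := by
    change ((g.a * h.a : Fˣ) : F) * x + (g.a * h.b + g.b) = g.a * (h.a * x + h.b) + g.b
    rw [Units.val_mul]; ring

theorem Af.smul_def (g : Af F) (x : F) : g • x = g.a * x + g.b := rfl

/-- The translations. -/
def Af.tr : Multiplicative F →* Af F where
  toFun t := ⟨1, t.toAdd⟩
  map_one' := rfl
  map_mul' s t := Af.ext (mul_one _).symm (by simp [Af.mul_b, add_comm])

/-- The linear part. -/
def Af.lin : Af F →* Fˣ where
  toFun g := g.a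
  map_one' := rfl
  map_mul' _ _ := rfl

instance : Group.IsSolvable (Af F) :=
  Group.isSolvable_of_ker_le_range Af.tr Af.lin fun g hg =>
    ⟨Multiplicative.ofAdd g.b, Af.ext (MonoidHom.mem_ker.1 hg).symm rfl⟩

theorem good_field : Good F := by
  refine ⟨Af F, inferInstance, inferInstance, inferInstance, fun x y => ⟨⟨1, y - x⟩, ?_⟩,
    fun a b a' b' h h' => ?_⟩
  · simp [Af.smul_def]
  · have h1 : a - b ≠ 0 := sub_ne_zero.2 h
    have h2 : (a' - b') / (a - b) ≠ 0 := div_ne_zero (sub_ne_zero.2 h') h1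
    refine ⟨⟨Units.mk0 _ h2, a' - (a' - b') / (a - b) * a⟩, ?_, ?_⟩
    · simp [Af.smul_def]
    · simp only [Af.smul_def, Units.val_mk0]
      field_simp
      ring

end af

theorem Good.of_equiv {A B : Type} (e : A ≃ B) (h : Good B) : Good A := by
  obtain ⟨G, i1, i2, i3, h1, h2⟩ := h
  refine ⟨G, i1, i2, e.mulAction G, fun x y => ?_, fun a b a' b' h h' => ?_⟩
  · obtain ⟨g, hg⟩ := h1 (e x) (e y)
    exact ⟨g, show e.symm (g • e x) = y by rw [hg, e.symm_apply_apply]⟩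
  · obtain ⟨g, hg, hg'⟩ := h2 _ _ _ _ (e.injective.ne h) (e.injective.ne h')
    exact ⟨g, show e.symm (g • e a) = a' by rw [hg, e.symm_apply_apply],
      show e.symm (g • e b) = b' by rw [hg', e.symm_apply_apply]⟩

theorem good_pp {A : Type} [Finite A] (h : IsPrimePow (Nat.card A)) : Good A := by
  obtain ⟨p, n, hp, hn, e⟩ := (isPrimePow_nat_iff _).1 h
  have := Fact.mk hp
  obtain ⟨f⟩ : Nonempty (A ≃ GaloisField p n) :=
    Finite.card_eq.1 (by rw [GaloisField.card p n hn.ne', e])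
  exact Good.of_equiv f good_field

theorem good {A : Type} [Finite A] (h : Nat.card A = 1 ∨ IsPrimePow (Nat.card A)) :
    Good A ∧ Nonempty A := by
  rcases h with h | h
  · obtain ⟨h1, h2⟩ := Nat.card_eq_one_iff_unique.1 h
    exact ⟨⟨Equiv.Perm A, inferInstance, inferInstance, inferInstance,
      fun x y => ⟨1, Subsingleton.elim _ _⟩,
      fun a b _ _ hab _ => absurd (Subsingleton.elim a b) hab⟩, h2⟩
  · exact ⟨good_pp h, (Nat.card_pos_iff.1 h.pos).1⟩

theorem pi_solvable (A H : Type) [Group H] [Group.IsSolvable H] : Group.IsSolvable (A → H) := by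
  obtain ⟨n, hn⟩ := (inferInstance : Group.IsSolvable H)
  refine ⟨n, eq_bot_iff.2 fun x hx => ?_⟩
  rw [Subgroup.mem_bot]
  funext a
  have := map_derivedSeries_le_derivedSeries (Pi.evalMonoidHom (fun _ : A => H) a) n
    (Subgroup.mem_map_of_mem _ hx)
  rwa [hn, Subgroup.mem_bot] at this

/-- The wreath product. -/
@[ext] structure Wr (G H A : Type) where
  g : G
  h : A → H

section wr

variable {G H A B : Type} [Group G] [Group H] [MulAction G A] [MulAction H B]

instance : Mul (Wr G H A) := ⟨fun u v => ⟨u.g * v.g, fun x => u.h (v.g • x) * v.h x⟩⟩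
instance : One (Wr G H A) := ⟨⟨1, fun _ => 1⟩⟩
instance : Inv (Wr G H A) := ⟨fun u => ⟨u.g⁻¹, fun x => (u.h (u.g⁻¹ • x))⁻¹⟩⟩

theorem Wr.mul_g (u v : Wr G H A) : (u * v).g = u.g * v.g := rfl
theorem Wr.mul_h (u v : Wr G H A) (x : A) : (u * v).h x = u.h (v.g • x) * v.h x := rfl

instance : Group (Wr G H A) := Group.ofLeftAxioms
  (fun u v w => Wr.ext (mul_assoc _ _ _) (funext fun x => by
    simp only [Wr.mul_g, Wr.mul_h, mul_smul, mul_assoc]))
  (fun u => Wr.ext (one_mul _) (funext fun x => one_mul _))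
  (fun u => Wr.ext (inv_mul_cancel _) (funext fun x => by
    change (u.h (u.g⁻¹ • u.g • x))⁻¹ * u.h x = 1
    rw [inv_smul_smul, inv_mul_cancel]))

/-- The base group. -/
def Wr.base : (A → H) →* Wr G H A where
  toFun h := ⟨1, h⟩
  map_one' := rfl
  map_mul' s t := Wr.ext (mul_one _).symm (funext fun x => by
    change s x * t x = s ((1 : G) • x) * t x
    rw [one_smul])

/-- The top group. -/
def Wr.top : Wr G H A →* G where
  toFun u := u.g
  map_one' := rfl
  map_mul' _ _ := rfl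

instance [Group.IsSolvable G] [Group.IsSolvable H] : Group.IsSolvable (Wr G H A) :=
  haveI := pi_solvable A H
  Group.isSolvable_of_ker_le_range Wr.base Wr.top fun u hu =>
    ⟨u.h, Wr.ext (MonoidHom.mem_ker.1 hu).symm rfl⟩

instance : MulAction (Wr G H A) A where
  smul u x := u.g • x
  one_smul x := one_smul G x
  mul_smul u v x := mul_smul u.g v.g x

/-- The imprimitive action. -/
@[reducible] def Wr.act : MulAction (Wr G H A) (A × B) where
  smul u z := (u.g • z.1, u.h z.1 • z.2)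
  one_smul z := Prod.ext (one_smul G z.1) (one_smul H z.2)
  mul_smul u v z := Prod.ext (mul_smul u.g v.g z.1) (mul_smul _ _ z.2)

end wr

theorem part (hD : DES) (A B : Type) [Finite A] [Finite B]
    (hA : Nat.card A = 1 ∨ IsPrimePow (Nat.card A))
    (hB : Nat.card B = 1 ∨ IsPrimePow (Nat.card B)) :
    Sol {S : Set (A × B) | ∃ a : A, S = {z | z.1 = a}} := by
  classical
  obtain ⟨⟨G, i1, i2, i3, g1, g2⟩, nA⟩ := good hA
  obtain ⟨⟨H, j1, j2, j3, h1, h2⟩, nB⟩ := good hB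
  let _ : MulAction (Wr G H A) (A × B) := Wr.act
  have sm : ∀ (u : Wr G H A) (z : A × B), u • z = (u.g • z.1, u.h z.1 • z.2) := fun _ _ => rfl
  have sm' : ∀ (u : Wr G H A) (x : A), u • x = u.g • x := fun _ _ => rfl
  have col : ∀ p q : A × B, Col (fun (z : A × B) (a : A) => z.1 = a) p q ↔ p.1 = q.1 :=
    fun p q => ⟨fun ⟨_, h, h'⟩ => h.trans h'.symm, fun h => ⟨q.1, h, rfl⟩⟩
  refine hD.sol (Wr G H A) (A × B) A (fun z a => z.1 = a) ⟨fun u p b => ?_,
    fun p q p' q' h h' c c' => ?_, fun p q p' q' _ _ c c' => ?_, fun p b p' b' h h' => ?_,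
    fun p b p' b' h h' => ?_, fun b c _ _ h _ ⟨p, e, e'⟩ _ => absurd (e.symm.trans e') h,
    fun b c b' c' h h' _ _ => ?_⟩ (fun p => ⟨p.1, rfl⟩) fun a => ⟨(a, nB.some), rfl⟩
  · exact smul_left_cancel_iff u.g
  · rw [col] at c c'
    obtain ⟨g, hg⟩ := g1 p.1 p'.1
    obtain ⟨k, hk, hk'⟩ := h2 p.2 q.2 p'.2 q'.2 (fun e => h (Prod.ext c e))
      fun e => h' (Prod.ext c' e)
    exact ⟨⟨g, fun _ => k⟩, Prod.ext hg hk, Prod.ext (by rw [sm, ← c, ← c']; exact hg) hk'⟩
  · rw [col] at c c'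
    obtain ⟨g, hg, hg'⟩ := g2 _ _ _ _ c c'
    obtain ⟨k, hk⟩ := h1 p.2 p'.2
    obtain ⟨k', hk'⟩ := h1 q.2 q'.2
    refine ⟨⟨g, fun x => if x = p.1 then k else k'⟩, Prod.ext hg ?_, Prod.ext hg' ?_⟩
    · simp only [sm, if_true, hk]
    · simp only [sm, if_neg (Ne.symm c), hk']
  · obtain ⟨g, hg⟩ := g1 p.1 p'.1
    obtain ⟨k, hk⟩ := h1 p.2 p'.2
    exact ⟨⟨g, fun _ => k⟩, Prod.ext hg hk, by rw [sm', ← h, ← h']; exact hg⟩
  · obtain ⟨g, hg, hg'⟩ := g2 _ _ _ _ h h'
    obtain ⟨k, hk⟩ := h1 p.2 p'.2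
    exact ⟨⟨g, fun _ => k⟩, Prod.ext hg hk, hg'⟩
  · obtain ⟨g, hg, hg'⟩ := g2 _ _ _ _ h h'
    exact ⟨⟨g, fun _ => 1⟩, hg, hg'⟩

theorem compl (hD : DES) (A : Type) [Finite A] (hA : IsPrimePow (Nat.card A)) :
    Sol {S : Set A | ∃ a : A, S = {a}ᶜ} := by
  obtain ⟨G, i1, i2, i3, g1, g2⟩ := good_pp hA
  have : Nontrivial A := Finite.one_lt_card_iff_nontrivial.1 hA.one_lt
  refine hD.sol G A A (fun x y => x ≠ y) ⟨fun g p b => (smul_left_cancel_iff g).not,
    fun p q p' q' h h' _ _ => g2 _ _ _ _ h h', fun p q p' q' h h' _ _ => g2 _ _ _ _ h h',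
    fun p q p' q' h h' => g2 _ _ _ _ h h', fun p q p' q' h h' => ?_,
    fun p q p' q' h h' _ _ => g2 _ _ _ _ h h', fun p q p' q' h h' _ _ => g2 _ _ _ _ h h'⟩
    (fun p => (exists_ne p).imp fun _ => Ne.symm) exists_ne
  obtain ⟨g, hg⟩ := g1 p p'
  exact ⟨g, hg, by rw [← not_not.1 h, ← not_not.1 h']; exact hg⟩

theorem row : H33.OfCVP := fun hD => ⟨part hD, compl hD⟩

end Pool.Agent.MP_f8e15f_co.RCVP
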