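import Pool.Agent.MP_f8e15f_co.H33.Spec2

/-! Three families of slope nets. -/

open MulAction Pointwise

namespace Pool.Agent.MP_f8e15f_co.RCVS1

open Pool.Agent.MP_f8e15f_co.H33 Pool.Agent.MP_f8e15f_co.H24

variable {F : Type} [Field F]

/-- The lines through the origin. -/
def On : Option F → F × F → Prop
  | none, v => v.1 = 0
  | some s, v => v.2 = s * v.1

/-- `m` is the action of a semilinear map on the lines. -/
def Mv (m : Option F → Option F) : Prop := ∃ g : (F × F) ≃ₗ[ℤ] (F × F),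
  (∃ σ : F ≃+* F, ∀ (c : F) v, g (c • v) = σ c • g v) ∧ ∀ p v, On (m p) (g v) ↔ On p v

theorem Mv.id : Mv (id : Option F → Option F) :=
  ⟨.refl _ _, ⟨.refl _, fun _ _ => rfl⟩, fun _ _ => Iff.rfl⟩

theorem Mv.comp {m m' : Option F → Option F} (h : Mv m) (h' : Mv m') : Mv (m ∘ m') := by
  obtain ⟨g, ⟨σ, h1⟩, h2⟩ := h
  obtain ⟨g', ⟨σ', h3⟩, h4⟩ := h'
  exact ⟨g'.trans g, ⟨σ'.trans σ, fun c v => by simp [h1, h3]⟩, fun p v => (h2 _ _).trans (h4 _ _)⟩

open Classical in
/-- The action of the exchange of coordinates. -/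
noncomputable def sw : Option F → Option F
  | none => some 0
  | some s => if s = 0 then none else some s⁻¹

theorem sw_ne {s : F} (h : s ≠ 0) : sw (some s) = some s⁻¹ := if_neg h

theorem sw_zero : sw (some (0 : F)) = none := if_pos rfl

theorem sw_sw (p : Option F) : sw (sw p) = p := by
  rcases p with _ | s
  · exact sw_zero
  · by_cases h : s = 0
    · rw [h, sw_zero, sw]
    · rw [sw_ne h, sw_ne (inv_ne_zero h), inv_inv]

theorem mv_sw : Mv (sw : Option F → Option F) := by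
  refine ⟨LinearEquiv.prodComm ℤ F F, ⟨.refl _, fun _ _ => rfl⟩, fun p v => ?_⟩
  rcases p with _ | s
  · simp [sw, On]
  · by_cases h : s = 0
    · rw [h, sw_zero]
      simp [On]
    · rw [sw_ne h]
      simp only [On, LinearEquiv.prodComm_apply, Prod.snd_swap, Prod.fst_swap]
      rw [eq_inv_mul_iff_mul_eq₀ h, eq_comm]

theorem mv_aff {u : F} (hu : u ≠ 0) (k : F) (σ : F ≃+* F) :
    Mv (Option.map fun s => u * σ s + k) := by
  let g : (F × F) ≃+ (F × F) :=
    { toFun := fun v => (σ v.1, u * σ v.2 + k * σ v.1)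
      invFun := fun v => (σ.symm v.1, σ.symm (u⁻¹ * (v.2 - k * v.1)))
      left_inv := fun v => by simp [hu]
      right_inv := fun v => by simp [hu]
      map_add' := fun v w => by
        ext
        · simp
        · simp only [Prod.snd_add, Prod.fst_add, map_add]
          ring }
  refine ⟨g.toIntLinearEquiv, ⟨σ, fun c v => ?_⟩, fun p v => ?_⟩
  · change ((σ (c * v.1), u * σ (c * v.2) + k * σ (c * v.1)) : F × F) =
      (σ c * σ v.1, σ c * (u * σ v.2 + k * σ v.1))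
    simp only [map_mul]
    ext <;> ring
  · rcases p with _ | s
    · exact σ.map_eq_zero_iff
    · change u * σ v.2 + k * σ v.1 = (u * σ s + k) * σ v.1 ↔ v.2 = s * v.1
      rw [add_mul, add_left_inj, mul_assoc, mul_right_inj' hu, ← map_mul, σ.injective.eq_iff]

/-- The components as points of the projective line. -/
def Cp (S : Set F) : Option F → Prop
  | none => True
  | some s => s ∈ S

theorem mem_comps {S : Set F} {L : AddSubgroup (F × F)} :
    L ∈ comps S ↔ ∃ p, Cp S p ∧ ∀ v, v ∈ L ↔ On p v :=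
  ⟨fun h => h.elim (fun h => ⟨none, trivial, h⟩) fun ⟨s, h1, h2⟩ => ⟨some s, h1, h2⟩,
    fun ⟨p, h1, h2⟩ => match p with
      | none => Or.inl h2
      | some s => Or.inr ⟨s, h1, h2⟩⟩

/-- Admissible actions. -/
def Ok (S : Set F) (m : Option F → Option F) : Prop := Mv m ∧ ∀ q, Cp S q → Cp S (m q)

theorem Ok.comp {S : Set F} {m m' : Option F → Option F} (h : Ok S m) (h' : Ok S m') :
    Ok S (m ∘ m') := ⟨h.1.comp h'.1, fun q hq => h.2 _ (h'.2 q hq)⟩

theorem Ok.id {S : Set F} : Ok S id := ⟨Mv.id, fun _ h => h⟩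

theorem Ok.adm {S : Set F} {m : Option F → Option F} (h : Ok S m) :
    ∃ g, Adm S g ∧ ∀ p v, On p v → On (m p) (g v) := by
  obtain ⟨⟨g, h1, h2⟩, h3⟩ := h
  refine ⟨g, ⟨h1, fun L hL => ?_⟩, fun p v => (h2 p v).2⟩
  obtain ⟨p, h4, h5⟩ := mem_comps.1 hL
  refine mem_comps.2 ⟨m p, h3 p h4, fun v => ?_⟩
  rw [AddSubgroup.mem_pointwise_smul_iff_inv_smul_mem, h5, ← h2]
  exact iff_of_eq (congrArg _ (g.apply_symm_apply v))

theorem main (hN : CVN) [Finite F] (S : Set F) (s₀ : F) (h0 : s₀ ∈ S)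
    (hS : S.ncard ≤ 3 ∨ Sᶜ.ncard = 2)
    (h1 : ∀ p p', Cp S p → Cp S p' → p ≠ p' → ∃ m, Ok S m ∧ m p = none ∧ m p' = some s₀)
    (h2 : ∀ s ∉ S, ∀ s' ∉ S, ∃ m, Ok S m ∧ m (some s) = some s') : Sol (slopeNet S) := by
  refine hN F S s₀ h0 hS (fun L hL L' hL' hne => ?_) fun s hs s' hs' => ?_
  · obtain ⟨p, a, b⟩ := mem_comps.1 hL
    obtain ⟨p', a', b'⟩ := mem_comps.1 hL'
    obtain ⟨m, c1, c2, c3⟩ := h1 p p' a a' fun e =>
      hne (AddSubgroup.ext fun v => by rw [b, b', e])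
    obtain ⟨g, d1, d2⟩ := c1.adm
    exact ⟨g, d1, fun v hv => (c2 ▸ d2 p v ((b v).1 hv) : On none (g v)),
      fun v hv => (c3 ▸ d2 p' v ((b' v).1 hv) : On (some s₀) (g v))⟩
  · obtain ⟨m, c1, c2⟩ := h2 s hs s' hs'
    obtain ⟨g, d1, d2⟩ := c1.adm
    exact ⟨g, d1, (c2 ▸ d2 (some s) (1, s) (mul_one s).symm : On (some s') (g (1, s)))⟩

/-- The map `s ↦ 1 - s`. -/
def tt : Option F → Option F := Option.map fun s => -1 * RingEquiv.refl F s + 1

theorem tt_some (s : F) : tt (some s) = some (1 - s) := by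
  simp [tt, sub_eq_neg_add]

theorem mv_tt : Mv (tt : Option F → Option F) := mv_aff (by simp) _ _

theorem one (hN : CVN) [Finite F] : Sol (slopeNet ({0} : Set F)) := by
  refine main hN _ 0 rfl (Or.inl (by simp)) ?_ fun s hs s' hs' =>
    ⟨_, ⟨mv_aff (div_ne_zero hs' hs) 0 (.refl F), ?_⟩, ?_⟩
  · rintro (_ | s) (_ | s') h h' e
    · exact absurd rfl e
    · exact ⟨_, Ok.id, rfl, congrArg some h'⟩
    · obtain rfl : s = 0 := h
      refine ⟨_, ⟨mv_sw, ?_⟩, sw_zero, rfl⟩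
      rintro (_ | q) hq
      · exact rfl
      · rw [show q = 0 from hq, sw_zero]
        trivial
    · exact absurd (congrArg some (h.trans h'.symm)) e
  · rintro (_ | q) hq
    · trivial
    · simp [show q = 0 from hq, Cp]
  · have : s ≠ 0 := hs
    simp [this]

theorem four (hN : CVN) [Finite F] (h4 : Nat.card F = 4) : Sol (slopeNet ({0, 1} : Set F)) := by
  have t : Ok ({0, 1} : Set F) tt := ⟨mv_tt, by
    rintro (_ | q) hq
    · trivial
    · rcases hq with rfl | rfl <;> simp [tt_some, Cp]⟩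
  have w : Ok ({0, 1} : Set F) sw := ⟨mv_sw, by
    rintro (_ | q) hq
    · exact Or.inl rfl
    · rcases hq with rfl | rfl <;> simp [sw, Cp]⟩
  have t0 : tt (none : Option F) = none := rfl
  refine main hN _ 0 (Or.inl rfl) (Or.inl ((Set.ncard_pair zero_ne_one).le.trans (by norm_num)))
    ?_ fun s hs s' hs' => ?_
  · rintro (_ | s) (_ | s') h h' e
    · exact absurd rfl e
    · rcases h' with rfl | rfl
      · exact ⟨_, Ok.id, rfl, rfl⟩
      · exact ⟨_, t, rfl, by simp [tt_some]⟩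
    · rcases h with rfl | rfl
      · exact ⟨_, w, sw_zero, rfl⟩
      · exact ⟨_, w.comp t, by simp [tt_some, sw], rfl⟩
    · rcases h with rfl | rfl <;> rcases h' with rfl | rfl
      · exact absurd rfl e
      · exact ⟨_, t.comp w, by simp [sw, t0], by simp [tt_some, sw]⟩
      · exact ⟨_, t.comp (w.comp t), by simp [tt_some, sw, t0], by simp [tt_some, sw]⟩
      · exact absurd rfl e
  · have := Fintype.ofFinite F
    rw [Nat.card_eq_fintype_card] at h4
    have h2 : (2 : F) = 0 := by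
      have := FiniteField.cast_card_eq_zero F
      rw [h4] at this
      exact pow_eq_zero_iff two_ne_zero |>.1 (by linear_combination this)
    have k : ∀ x ∉ ({0, 1} : Set F), x ^ 2 + x + 1 = 0 := fun x hx => by
      have h := FiniteField.pow_card x
      rw [h4] at h
      simp only [Set.mem_insert_iff, Set.mem_singleton_iff, not_or] at hx
      exact mul_left_cancel₀ (mul_ne_zero hx.1 (sub_ne_zero.2 hx.2)) (by linear_combination h)
    rcases mul_eq_zero.1 (show (s' - s) * (s' - (1 - s)) = 0 by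
      linear_combination k s' hs' - k s hs + (s - s') * h2) with h | h
    · exact ⟨_, Ok.id, congrArg some (sub_eq_zero.1 h).symm⟩
    · exact ⟨_, t, by rw [tt_some, sub_eq_zero.1 h]⟩

theorem pw (hE : EXP) [Finite F] (h8 : Nat.card F = 8) {r r' : F} (h0 : r ≠ 0) (h1 : r ≠ 1)
    (h0' : r' ≠ 0) (h1' : r' ≠ 1) : ∃ σ : F ≃+* F, σ r = r' ∨ σ r⁻¹ = r' := by
  have hf := (hE.frob F 2 3 Nat.prime_two h8).2.2.1
  have : Fact (Nat.Prime 7) := ⟨by norm_num⟩
  have h7 : Nat.card Fˣ = 7 := by rw [Nat.card_units, h8]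
  obtain ⟨k, hk⟩ := mem_powers_of_prime_card h7 (g := Units.mk0 r h0) (g' := Units.mk0 r' h0')
    fun h => h1 (congrArg Units.val h)
  have e7 : r ^ 7 = 1 := by
    have := congrArg Units.val (pow_card_eq_one' (x := Units.mk0 r h0))
    rwa [h7] at this
  have e : r ^ (k % 7) = r' := by
    rw [← pow_eq_pow_mod k e7]
    exact congrArg Units.val hk
  have i : r⁻¹ = r ^ 6 := inv_eq_of_mul_eq_one_right (by linear_combination e7)
  obtain ⟨σ₁, s1⟩ := hf 1
  obtain ⟨σ₂, s2⟩ := hf 2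
  have := Nat.mod_lt k (by norm_num : 0 < 7)
  generalize k % 7 = j at e this
  subst e
  interval_cases j
  · exact absurd (pow_zero r) h1'
  · exact ⟨.refl F, Or.inl (pow_one r).symm⟩
  · exact ⟨σ₁, Or.inl (s1 r)⟩
  · exact ⟨σ₂, Or.inr (by rw [s2, i]; linear_combination r ^ 3 * (r ^ 14 + r ^ 7 + 1) * e7)⟩
  · exact ⟨σ₂, Or.inl (s2 r)⟩
  · exact ⟨σ₁, Or.inr (by rw [s1, i]; linear_combination r ^ 5 * e7)⟩
  · exact ⟨.refl F, Or.inr i⟩

theorem two_tr (hE : EXP) [Finite F] (h8 : Nat.card F = 8) {x y x' y' : F} (hx : x ≠ 0)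
    (hy : y ≠ 0) (hx' : x' ≠ 0) (hy' : y' ≠ 0) (h : x ≠ y) (h' : x' ≠ y') :
    ∃ m, Mv m ∧ (∀ z : F, z ≠ 0 → ∃ z' : F, z' ≠ 0 ∧ m (some z) = some z') ∧
      m (some x) = some x' ∧ m (some y) = some y' := by
  have key : ∀ {x y : F} (σ : F ≃+* F), x ≠ 0 → σ (y / x) = y' / x' →
      ∃ m, Mv m ∧ (∀ z : F, z ≠ 0 → ∃ z' : F, z' ≠ 0 ∧ m (some z) = some z') ∧
        m (some x) = some x' ∧ m (some y) = some y' := fun {x y} σ hx e => by
    have k : σ x ≠ 0 := σ.map_ne_zero_iff.2 hx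
    refine ⟨_, mv_aff (div_ne_zero hx' k) 0 σ, fun z hz => ⟨_, ?_, rfl⟩,
      congrArg some ((add_zero _).trans (div_mul_cancel₀ _ k)), congrArg some ?_⟩
    · simp [hx', hx, hz]
    · rw [map_div₀, div_eq_div_iff k hx'] at e
      field_simp
      linear_combination e
  obtain ⟨σ, e | e⟩ := pw hE h8 (div_ne_zero hy hx) (fun e => h ((div_eq_one_iff_eq hx).1 e).symm)
    (div_ne_zero hy' hx') fun e => h' ((div_eq_one_iff_eq hx').1 e).symm
  · exact key σ hx e
  · obtain ⟨m, a, b, c, d⟩ := key (y := y⁻¹) σ (inv_ne_zero hx) (by rwa [inv_div_inv, ← inv_div])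
    exact ⟨_, a.comp mv_sw, fun z hz => by simpa [sw_ne hz] using b _ (inv_ne_zero hz),
      by simpa [sw_ne hx] using c, by simpa [sw_ne hy] using d⟩

theorem eight (hE : EXP) (hN : CVN) [Finite F] (h8 : Nat.card F = 8) :
    Sol (slopeNet ({0, 1}ᶜ : Set F)) := by
  obtain ⟨s₀, h0⟩ : ({0, 1}ᶜ : Set F).Nonempty := Set.nonempty_compl.2 fun h => by
    have := Set.ncard_pair (zero_ne_one (α := F))
    rw [h, Set.ncard_univ, h8] at this
    omega
  let φ : Option F → Option F := (Option.map fun s => 1 * RingEquiv.refl F s + -1) ∘ sw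
  let ψ : Option F → Option F := sw ∘ Option.map fun s => 1 * RingEquiv.refl F s + 1
  have e : ∀ p, ψ (φ p) = p := fun p => by
    refine Eq.trans (congrArg sw ?_) (sw_sw p)
    simp only [φ, Function.comp_apply]
    cases sw p <;> simp
  have a : ∀ p, Cp ({0, 1}ᶜ : Set F) p → ∃ z, z ≠ 0 ∧ φ p = some z := by
    rintro (_ | s) h
    · exact ⟨-1, by simp, by simp [φ, sw]⟩
    · have h1 : s ≠ 0 ∧ s ≠ 1 := by simpa [Cp] using h
      exact ⟨s⁻¹ + -1, by simpa [add_neg_eq_zero] using h1.2, by simp [φ, sw_ne h1.1]⟩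
  have b : ∀ z : F, z ≠ 0 → Cp ({0, 1}ᶜ : Set F) (ψ (some z)) := fun z hz => by
    have h1 : ψ (some z) = sw (some (z + 1)) := by simp [ψ]
    by_cases h : z + 1 = 0
    · rw [h1, h, sw_zero]
      trivial
    · rw [h1, sw_ne h]
      simp [Cp, h, hz]
  have inj : Function.Injective φ := Function.LeftInverse.injective e
  have t : Ok ({0, 1}ᶜ : Set F) tt := ⟨mv_tt, by
    rintro (_ | q) hq
    · trivial
    · have h1 : q ≠ 0 ∧ q ≠ 1 := by simpa [Cp] using hq
      simp [tt_some, Cp, sub_eq_zero, h1.1, h1.2.symm]⟩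
  refine main hN _ s₀ h0 (Or.inr (by rw [compl_compl, Set.ncard_pair zero_ne_one]))
    (fun p p' h h' hne => ?_) fun s hs s' hs' => ?_
  · obtain ⟨x, x1, x2⟩ := a p h
    obtain ⟨y, y1, y2⟩ := a p' h'
    obtain ⟨x', x3, x4⟩ := a none trivial
    obtain ⟨y', y3, y4⟩ := a (some s₀) h0
    obtain ⟨m, m1, m2, m3, m4⟩ := two_tr hE h8 x1 y1 x3 y3
      (fun k => hne (inj (by rw [x2, y2, k])))
      fun k => Option.some_ne_none s₀ (inj (by rw [x4, y4, k]))
    refine ⟨ψ ∘ m ∘ φ, ⟨(mv_sw.comp (mv_aff one_ne_zero _ _)).comp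
      (m1.comp ((mv_aff one_ne_zero _ _).comp mv_sw)), fun q hq => ?_⟩, ?_, ?_⟩
    · obtain ⟨z, z1, z2⟩ := a q hq
      obtain ⟨z', z3, z4⟩ := m2 z z1
      rw [Function.comp_apply, Function.comp_apply, z2, z4]
      exact b z' z3
    · rw [Function.comp_apply, Function.comp_apply, x2, m3, ← x4, e]
    · rw [Function.comp_apply, Function.comp_apply, y2, m4, ← y4, e]
  · rcases not_not.1 hs with rfl | rfl <;> rcases not_not.1 hs' with rfl | rfl
    · exact ⟨_, Ok.id, rfl⟩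
    · exact ⟨_, t, by simp [tt_some]⟩
    · exact ⟨_, t, by simp [tt_some]⟩
    · exact ⟨_, Ok.id, rfl⟩

theorem row : H33.OfCVS1 := fun hE hN _ _ _ => ⟨one hN, four hN, eight hE hN⟩

end Pool.Agent.MP_f8e15f_co.RCVS1
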