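import Pool.Agent.MP_f8e15f_co.H33.Spec2

/-! The slope nets with four components over the fields of order 3, 9, 27 and 7. -/

open MulAction Pointwise

namespace Pool.Agent.MP_f8e15f_co.RCVS2

open Pool.Agent.MP_f8e15f_co.H33 Pool.Agent.MP_f8e15f_co.H24

section General

variable {K F : Type} [Field K] [Field F]

/-- The determinant. -/
def det (m : K × K × K × K) : K := m.1 * m.2.2.2 - m.2.1 * m.2.2.1

/-- The image of a vector. -/
def img (m : K × K × K × K) (x : K × K) : K × K :=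
  (m.1 * x.1 + m.2.1 * x.2, m.2.2.1 * x.1 + m.2.2.2 * x.2)

/-- The directions of the components. -/
def dirs (S : List K) : List (K × K) := (0, 1) :: S.map fun s => (1, s)

/-- The matrix permutes the directions. -/
def Ok (S : List K) (m : K × K × K × K) : Prop :=
  det m ≠ 0 ∧ ∀ x ∈ dirs S, (img m x).1 = 0 ∨ ∃ t ∈ S, (img m x).2 = t * (img m x).1

/-- The map of a matrix. -/
noncomputable def mk (m : F × F × F × F) (h : det m ≠ 0) : (F × F) ≃ₗ[ℤ] (F × F) :=
  AddEquiv.toIntLinearEquiv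
    { toFun := img m
      invFun := fun w => ((m.2.2.2 * w.1 - m.2.1 * w.2) / det m, (m.1 * w.2 - m.2.2.1 * w.1) / det m)
      left_inv := fun v => by
        ext <;> simp only [img] <;> rw [div_eq_iff h, det] <;> ring
      right_inv := fun v => by
        ext <;> simp only [img] <;> field_simp <;> rw [det] <;> ring
      map_add' := fun v w => by
        ext <;> simp only [img, Prod.fst_add, Prod.snd_add] <;> ring }

theorem mk_apply (m : F × F × F × F) (h : det m ≠ 0) (v : F × F) : mk m h v = img m v := rfl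

/-- The image of a matrix under a field map. -/
def mp (φ : K →+* F) (m : K × K × K × K) : F × F × F × F := (φ m.1, φ m.2.1, φ m.2.2.1, φ m.2.2.2)

theorem det_mp (φ : K →+* F) {m : K × K × K × K} (h : det m ≠ 0) : det (mp φ m) ≠ 0 := by
  have : det (mp φ m) = φ (det m) := by simp [det, mp]
  rw [this]
  exact (map_ne_zero φ).2 h

variable {φ : K →+* F} {S₀ : List K} {S : Set F}

theorem mem_comps (hS : ∀ s, s ∈ S ↔ ∃ t ∈ S₀, φ t = s) {L : AddSubgroup (F × F)} :
    L ∈ comps S ↔ ∃ x ∈ dirs S₀, ∀ v, v ∈ L ↔ v.1 * φ x.2 = v.2 * φ x.1 := by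
  simp only [comps, dirs, List.mem_cons, List.mem_map, Set.mem_ofPred_eq]
  constructor
  · rintro (h | ⟨s, hs, h⟩)
    · exact ⟨_, Or.inl rfl, fun v => by simpa using h v⟩
    · obtain ⟨t, ht, rfl⟩ := (hS s).1 hs
      refine ⟨_, Or.inr ⟨t, ht, rfl⟩, fun v => ?_⟩
      rw [h v, map_one, mul_one, mul_comm, eq_comm]
  · rintro ⟨x, rfl | ⟨t, ht, rfl⟩, h⟩
    · exact Or.inl fun v => by simpa using h v
    · refine Or.inr ⟨φ t, (hS _).2 ⟨t, ht, rfl⟩, fun v => ?_⟩
      rw [h v, map_one, mul_one, mul_comm, eq_comm]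

theorem cross (φ : K →+* F) (m : K × K × K × K) (x : K × K) (v : F × F) :
    (img (mp φ m) v).1 * φ (img m x).2 - (img (mp φ m) v).2 * φ (img m x).1 =
      det (mp φ m) * (v.1 * φ x.2 - v.2 * φ x.1) := by
  simp only [img, mp, det, map_add, map_mul]
  ring

theorem img_ne {m : K × K × K × K} (h : det m ≠ 0) {x : K × K} (hx : x ∈ dirs S₀)
    (h1 : (img m x).1 = 0) (h2 : (img m x).2 = 0) : False := by
  have a : det m * x.1 = 0 := by
    simp only [img] at h1 h2
    rw [det]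
    linear_combination m.2.2.2 * h1 - m.2.1 * h2
  have b : det m * x.2 = 0 := by
    simp only [img] at h1 h2
    rw [det]
    linear_combination m.1 * h2 - m.2.2.1 * h1
  simp only [dirs, List.mem_cons, List.mem_map] at hx
  rcases hx with rfl | ⟨t, -, rfl⟩
  · exact h (by simpa using b)
  · exact h (by simpa using a)

theorem on_line {m : K × K × K × K} {x : K × K} {v : F × F} (e : v.1 * φ x.2 = v.2 * φ x.1) :
    (img (mp φ m) v).1 * φ (img m x).2 = (img (mp φ m) v).2 * φ (img m x).1 := by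
  have := cross φ m x v
  rw [e, sub_self, mul_zero, sub_eq_zero] at this
  exact this

theorem adm (hS : ∀ s, s ∈ S ↔ ∃ t ∈ S₀, φ t = s) {m : K × K × K × K} (h : Ok S₀ m) :
    Adm S (mk (mp φ m) (det_mp φ h.1)) := by
  refine ⟨⟨RingEquiv.refl F, fun c v => ?_⟩, fun L hL => ?_⟩
  · ext <;> simp only [mk_apply, img, Prod.smul_fst, Prod.smul_snd, smul_eq_mul,
      RingEquiv.refl_apply] <;> ring
  obtain ⟨x, hx, hL⟩ := (mem_comps hS).1 hL
  have key : ∀ w, w ∈ mk (mp φ m) (det_mp φ h.1) • L ↔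
      w.1 * φ (img m x).2 = w.2 * φ (img m x).1 := by
    intro w
    obtain ⟨v, rfl⟩ := (mk (mp φ m) (det_mp φ h.1)).surjective w
    refine (AddSubgroup.smul_mem_pointwise_smul_iff (a := mk (mp φ m) (det_mp φ h.1))).trans ?_
    rw [hL, mk_apply, ← sub_eq_zero (a := (img _ v).1 * _), cross, mul_eq_zero, sub_eq_zero,
      or_iff_right (det_mp φ h.1)]
  rcases h.2 x hx with e | ⟨t, ht, e⟩
  · refine Or.inl fun w => ?_
    rw [key, e, map_zero, mul_zero, mul_eq_zero,
      or_iff_left ((map_ne_zero φ).2 fun e' => img_ne h.1 hx e e')]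
  · refine Or.inr ⟨φ t, (hS _).2 ⟨t, ht, rfl⟩, fun w => ?_⟩
    have n : φ (img m x).1 ≠ 0 :=
      (map_ne_zero φ).2 fun e' => img_ne h.1 hx e' (by rw [e, e', mul_zero])
    rw [key, e, map_mul, ← mul_assoc, mul_left_inj' n, mul_comm, eq_comm]

theorem pairs (hS : ∀ s, s ∈ S ↔ ∃ t ∈ S₀, φ t = s)
    (h : ∀ x ∈ dirs S₀, ∀ y ∈ dirs S₀, x ≠ y → ∃ m, Ok S₀ m ∧ (img m x).1 = 0 ∧ (img m y).2 = 0) :
    ∀ L ∈ comps S, ∀ L' ∈ comps S, L ≠ L' → ∃ g, Adm S g ∧ (∀ v ∈ L, (g v).1 = 0) ∧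
      ∀ v ∈ L', (g v).2 = 0 * (g v).1 := by
  intro L hL L' hL' ne
  obtain ⟨x, hx, hL⟩ := (mem_comps hS).1 hL
  obtain ⟨y, hy, hL'⟩ := (mem_comps hS).1 hL'
  obtain ⟨m, hm, a, b⟩ := h x hx y hy (by
    rintro rfl
    exact ne (AddSubgroup.ext fun v => (hL v).trans (hL' v).symm))
  refine ⟨_, adm hS hm, fun v hv => ?_, fun v hv => ?_⟩
  · have := on_line (m := m) ((hL v).1 hv)
    rw [a, map_zero, mul_zero, mul_eq_zero] at this
    exact this.resolve_right ((map_ne_zero φ).2 fun e => img_ne hm.1 hx a e)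
  · have := on_line (m := m) ((hL' v).1 hv)
    rw [b, map_zero, mul_zero, eq_comm, mul_eq_zero] at this
    rw [zero_mul]
    exact this.resolve_right ((map_ne_zero φ).2 fun e => img_ne hm.1 hy e b)

theorem ok_all (hK : ∀ t : K, t ∈ S₀) {m : K × K × K × K} (h : det m ≠ 0) : Ok S₀ m := by
  refine ⟨h, fun x _ => ?_⟩
  by_cases e : (img m x).1 = 0
  · exact Or.inl e
  · exact Or.inr ⟨(img m x).2 / (img m x).1, hK _, by field_simp⟩

/-- Four elements of a space of dimension at most three are dependent. -/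
theorem move [Finite K] [Finite F] (hc : Nat.card F < Nat.card K ^ 4) {s s' : F}
    (hs : ∀ t, φ t ≠ s) (hs' : ∀ t, φ t ≠ s') :
    ∃ m : K × K × K × K, det m ≠ 0 ∧ (img (mp φ m) (1, s)).2 = s' * (img (mp φ m) (1, s)).1 := by
  have lin : ∀ {u : F}, (∀ t, φ t ≠ u) → ∀ a b : K, φ a + φ b * u = 0 → a = 0 ∧ b = 0 := by
    intro u hu a b e
    have hb : b = 0 := by
      by_contra hb
      have n : φ b ≠ 0 := (map_ne_zero φ).2 hb
      refine hu (-a / b) ?_
      rw [map_div₀, map_neg, div_eq_iff n]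
      linear_combination -e
    rw [hb, map_zero, zero_mul, add_zero, map_eq_zero] at e
    exact ⟨e, hb⟩
  have hn : ¬ Function.Injective fun m : K × K × K × K =>
      (img (mp φ m) (1, s)).2 - s' * (img (mp φ m) (1, s)).1 := by
    intro hi
    have := Nat.card_le_card_of_injective _ hi
    simp only [Nat.card_prod] at this
    nlinarith [show Nat.card K ^ 4 = Nat.card K * (Nat.card K * (Nat.card K * Nat.card K)) by ring]
  obtain ⟨m, m', e, ne⟩ := Function.not_injective_iff.1 hn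
  have e' : (img (mp φ (m - m')) (1, s)).2 = s' * (img (mp φ (m - m')) (1, s)).1 := by
    simp only [img, mp, Prod.fst_sub, Prod.snd_sub, map_sub] at e ⊢
    linear_combination e
  refine ⟨m - m', fun d => ne (sub_eq_zero.1 ?_), e'⟩
  generalize m - m' = q at e' d
  obtain ⟨a, b, c, f⟩ := q
  simp only [img, mp, mul_one] at e'
  have d' := congrArg φ d
  simp only [det, map_sub, map_mul, map_zero] at d'
  have ab : a = 0 ∧ b = 0 := by
    by_cases u : φ a + φ b * s = 0
    · exact lin hs a b u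
    · have h1 : (φ (-c) + φ a * s') * (φ a + φ b * s) = 0 := by
        rw [map_neg]
        linear_combination (-φ a) * e' + s * d'
      have h2 : (φ (-f) + φ b * s') * (φ a + φ b * s) = 0 := by
        rw [map_neg]
        linear_combination (-φ b) * e' - d'
      exact ⟨(lin hs' _ _ ((mul_eq_zero.1 h1).resolve_right u)).2,
        (lin hs' _ _ ((mul_eq_zero.1 h2).resolve_right u)).2⟩
  obtain ⟨rfl, rfl⟩ := ab
  obtain ⟨rfl, rfl⟩ := lin hs c f (by simpa using e')
  rfl

end General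

theorem char_of {F : Type} [Field F] [Finite F] (p k : ℕ) [Fact p.Prime] (h : Nat.card F = p ^ k) :
    CharP F p := by
  have := Fintype.ofFinite F
  have e := FiniteField.cast_card_eq_zero F
  rw [← Nat.card_eq_fintype_card, h, Nat.cast_pow] at e
  exact (CharP.charP_iff_prime_eq_zero Fact.out).2 (eq_zero_of_pow_eq_zero e)

instance f3 : Fact (Nat.Prime 3) := ⟨by norm_num⟩

instance f7 : Fact (Nat.Prime 7) := ⟨by norm_num⟩

instance {p : ℕ} [Fact p.Prime] (S : List (ZMod p)) (m : ZMod p × ZMod p × ZMod p × ZMod p) :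
    Decidable (Ok S m) := by
  unfold Ok
  infer_instance

/-- The alternating group of degree four over the field of order seven. -/
def G7 : List (ZMod 7 × ZMod 7 × ZMod 7 × ZMod 7) :=
  [(0, 1, 3, 0), (0, 1, 5, 3), (0, 1, 6, 1), (1, 0, 0, 1), (1, 0, 1, 2), (1, 0, 3, 4),
    (1, 2, 0, 2), (1, 2, 1, 6), (1, 2, 3, 0), (1, 6, 0, 4), (1, 6, 1, 0), (1, 6, 3, 6)]

theorem ok7 : ∀ m ∈ G7, Ok [0, 1, 3] m := by decide +kernel

theorem two7 : ∀ x ∈ dirs [(0 : ZMod 7), 1, 3], ∀ y ∈ dirs [(0 : ZMod 7), 1, 3], x ≠ y →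
    ∃ m ∈ G7, (img m x).1 = 0 ∧ (img m y).2 = 0 := by decide +kernel

theorem out7 : ∀ t : ZMod 7, t ∉ [0, 1, 3] → ∀ u : ZMod 7, u ∉ [0, 1, 3] →
    ∃ m ∈ G7, (img m (1, t)).2 = u * (img m (1, t)).1 := by decide +kernel

theorem all3 : ∀ t : ZMod 3, t ∈ [0, 1, -1] := by decide +kernel

theorem two3 : ∀ x ∈ dirs [(0 : ZMod 3), 1, -1], ∀ y ∈ dirs [(0 : ZMod 3), 1, -1], x ≠ y →
    ∃ m, det m ≠ 0 ∧ (img m x).1 = 0 ∧ (img m y).2 = 0 := by decide +kernel

theorem three {F : Type} (a b c : F) : ({a, b, c} : Set F).ncard ≤ 3 := by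
  have h1 := Set.ncard_insert_le a ({b, c} : Set F)
  have h2 := Set.ncard_insert_le b ({c} : Set F)
  rw [Set.ncard_singleton] at h2
  omega

theorem row : OfCVS2 := by
  intro _ hN F _ _
  refine ⟨fun h => ?_, fun h => ?_⟩
  · obtain ⟨k, hk, hk'⟩ : ∃ k, Nat.card F = 3 ^ k ∧ Nat.card F < 81 := by
      simp only [List.mem_cons, List.not_mem_nil, or_false] at h
      rcases h with h | h | h
      exacts [⟨1, by omega, by omega⟩, ⟨2, by omega, by omega⟩, ⟨3, by omega, by omega⟩]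
    have := char_of 3 k hk
    let φ : ZMod 3 →+* F := ZMod.castHom (dvd_refl 3) F
    have hS : ∀ s, s ∈ ({0, 1, -1} : Set F) ↔ ∃ t ∈ [(0 : ZMod 3), 1, -1], φ t = s := by
      intro s
      simp [eq_comm]
    refine hN F _ 0 (by simp) (Or.inl (three _ _ _)) (pairs hS fun x hx y hy ne => ?_)
      fun s hs s' hs' => ?_
    · obtain ⟨m, a, b⟩ := two3 x hx y hy ne
      exact ⟨m, ok_all all3 a, b⟩
    · obtain ⟨m, a, b⟩ := move (φ := φ) (s := s) (s' := s') (by simpa using hk')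
        (fun t e => hs ((hS s).2 ⟨t, all3 t, e⟩)) fun t e => hs' ((hS s').2 ⟨t, all3 t, e⟩)
      exact ⟨_, adm hS (ok_all all3 a), b⟩
  · have := char_of 7 1 (by omega : Nat.card F = 7 ^ 1)
    let φ : ZMod 7 →+* F := ZMod.castHom (dvd_refl 7) F
    have hS : ∀ s, s ∈ ({0, 1, 3} : Set F) ↔ ∃ t ∈ [(0 : ZMod 7), 1, 3], φ t = s := by
      intro s
      simp [eq_comm, map_ofNat]
    have su : Function.Surjective φ :=
      (φ.injective.bijective_of_nat_card_le (by simp [h])).2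
    refine hN F _ 0 (by simp) (Or.inl (three _ _ _)) (pairs hS fun x hx y hy ne => ?_)
      fun s hs s' hs' => ?_
    · obtain ⟨m, a, b⟩ := two7 x hx y hy ne
      exact ⟨m, ok7 m a, b⟩
    · obtain ⟨t, rfl⟩ := su s
      obtain ⟨u, rfl⟩ := su s'
      obtain ⟨m, a, b⟩ := out7 t (fun e => hs ((hS _).2 ⟨t, e, rfl⟩)) u
        fun e => hs' ((hS _).2 ⟨u, e, rfl⟩)
      refine ⟨_, adm hS (ok7 m a), ?_⟩
      have := congrArg φ b
      simpa [mk_apply, img, mp] using this

end Pool.Agent.MP_f8e15f_co.RCVS2
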