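import Pool.Agent.MP_f8e15f_co.H33.Spec2

/-! The affine group of a translation design. -/

open MulAction Pointwise

namespace Pool.Agent.MP_f8e15f_co.RCVT

open Pool.Agent.MP_f8e15f_co.H24 Pool.Agent.MP_f8e15f_co.H33

variable {G V : Type} [Group G] [AddCommGroup V] [DistribMulAction G V]

def cs (M : AddSubgroup V) (v : V) : Set V := {x | x - v ∈ M}

theorem mem_cs {M : AddSubgroup V} {v x : V} : x ∈ cs M v ↔ x - v ∈ M := Iff.rfl

theorem self_cs (M : AddSubgroup V) (v : V) : v ∈ cs M v := by simp [mem_cs]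

theorem cs_eq {M : AddSubgroup V} {v x : V} (h : x ∈ cs M v) : cs M v = cs M x := by
  ext y
  rw [mem_cs] at h
  rw [mem_cs, mem_cs]
  constructor
  · intro hy
    simpa using M.sub_mem hy h
  · intro hy
    simpa using M.add_mem hy h

theorem cs_le {M M' : AddSubgroup V} {v v' : V} (h : cs M v = cs M' v') : M ≤ M' := by
  intro m hm
  have h1 : v ∈ cs M' v' := h ▸ self_cs M v
  have h2 : m + v ∈ cs M' v' := h ▸ (by simpa [mem_cs] using hm)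
  simpa using M'.sub_mem (mem_cs.1 h2) (mem_cs.1 h1)

theorem cs_inj {M M' : AddSubgroup V} {v v' : V} (h : cs M v = cs M' v') : M = M' :=
  le_antisymm (cs_le h) (cs_le h.symm)

theorem mem_trans {𝓜 : Set (AddSubgroup V)} {B : Set V} :
    B ∈ trans 𝓜 ↔ ∃ M ∈ 𝓜, ∃ v, B = cs M v := Iff.rfl

theorem at_pt {𝓜 : Set (AddSubgroup V)} {B : Set V} {x : V} (hB : B ∈ trans 𝓜) (hx : x ∈ B) :
    ∃ M ∈ 𝓜, B = cs M x := by
  obtain ⟨M, hM, v, rfl⟩ := mem_trans.1 hB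
  exact ⟨M, hM, cs_eq hx⟩

variable (G V) in
def Gam : Subgroup (Equiv.Perm V) where
  carrier := {γ | ∃ (g : G) (c : V), ∀ x, γ x = g • x + c}
  one_mem' := ⟨1, 0, fun x => by simp⟩
  mul_mem' := by
    rintro a b ⟨g, c, ha⟩ ⟨g', c', hb⟩
    exact ⟨g * g', g • c' + c, fun x => by
      rw [Equiv.Perm.mul_apply, ha, hb, smul_add, mul_smul, add_assoc]⟩
  inv_mem' := by
    rintro a ⟨g, c, ha⟩
    refine ⟨g⁻¹, -(g⁻¹ • c), fun x => ?_⟩
    rw [Equiv.Perm.inv_eq_iff_eq, ha]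
    simp

def aff (g : G) (c : V) : Equiv.Perm V := (MulAction.toPerm g).trans (Equiv.addRight c)

theorem aff_apply (g : G) (c x : V) : aff g c x = g • x + c := rfl

theorem aff_mem (g : G) (c : V) : aff g c ∈ Gam G V := ⟨g, c, fun _ => rfl⟩

theorem img {γ : Equiv.Perm V} {g : G} {c : V} (h : ∀ x, γ x = g • x + c) (M : AddSubgroup V)
    (v : V) : γ '' cs M v = cs (g • M) (γ v) := by
  ext y
  obtain ⟨x, rfl⟩ := γ.surjective y
  rw [γ.injective.mem_set_image, mem_cs, mem_cs, h, h, add_sub_add_right_eq_sub, ← smul_sub,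
    AddSubgroup.smul_mem_pointwise_smul_iff]

theorem img' (g : G) (x x' : V) (M : AddSubgroup V) :
    aff g (x' - g • x) '' cs M x = cs (g • M) x' := by
  rw [img (aff_apply g _), aff_apply]; simp

theorem aff_pt (g : G) (x x' : V) : aff g (x' - g • x) x = x' := by simp [aff_apply]

theorem aff_two {g : G} {x y x' y' : V} (h : g • (y - x) = y' - x') :
    aff g (x' - g • x) y = y' := by
  rw [aff_apply, smul_sub] at *
  rw [← sub_add_cancel y' x', ← h]; abel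

variable {𝓜 : Set (AddSubgroup V)}

theorem coll_iff {x y : V} : Coll (trans 𝓜) x y ↔ ∃ M ∈ 𝓜, y - x ∈ M := by
  constructor
  · rintro ⟨B, hB, hx, hy⟩
    obtain ⟨M, hM, rfl⟩ := at_pt hB hx
    exact ⟨M, hM, hy⟩
  · rintro ⟨M, hM, h⟩
    exact ⟨cs M x, ⟨M, hM, x, rfl⟩, self_cs _ _, h⟩

theorem other (H : TrC G 𝓜) (M : AddSubgroup V) : ∃ N ∈ 𝓜, M ≠ N := by
  obtain ⟨A, hA, B, hB, hAB⟩ := H.ex
  by_cases h : M = A
  · exact ⟨B, hB, h ▸ hAB⟩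
  · exact ⟨A, hA, h⟩

theorem one (H : TrC G 𝓜) {M L : AddSubgroup V} (hM : M ∈ 𝓜) (hL : L ∈ 𝓜) :
    ∃ g : G, g • M = L := by
  obtain ⟨N, hN, h⟩ := other H M
  obtain ⟨N', hN', h'⟩ := other H L
  obtain ⟨g, hg, -⟩ := H.two M hM N hN L hL N' hN' h h'
  exact ⟨g, hg⟩

theorem antif (H : TrC G 𝓜) {M M' : AddSubgroup V} (hM : M ∈ 𝓜) (hM' : M' ∈ 𝓜) {x v x' v' : V}
    (h : x ∉ cs M v) (h' : x' ∉ cs M' v') :
    ∃ g : G, g • M = M' ∧ aff g (x' - g • x) '' cs M v = cs M' v' := by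
  obtain ⟨g₀, hg₀⟩ := one H hM hM'
  have h1 : g₀ • (x - v) ∉ M' := by
    rw [← hg₀, AddSubgroup.smul_mem_pointwise_smul_iff]; exact h
  obtain ⟨k, hk, hk'⟩ := H.anti M' hM' _ h1 _ h'
  have e : (k * g₀) • M = M' := by rw [mul_smul, hg₀, hk]
  refine ⟨k * g₀, e, ?_⟩
  rw [img (aff_apply _ _), e]
  refine (cs_eq ?_).symm
  rw [mem_cs, aff_apply]
  have := M'.neg_mem hk'
  rw [← mul_smul, smul_sub] at this
  convert this using 1
  abel

theorem meet (H : TrC G 𝓜) {M N : AddSubgroup V} (hM : M ∈ 𝓜) (hN : N ∈ 𝓜) (h : M ≠ N)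
    (v w : V) : ∃ z, z ∈ cs M v ∧ z ∈ cs N w := by
  have : w - v ∈ M ⊔ N := by rw [H.sup M hM N hN h]; trivial
  obtain ⟨m, hm, n, hn, e⟩ := AddSubgroup.mem_sup.1 this
  refine ⟨v + m, by simpa [mem_cs] using hm, ?_⟩
  rw [mem_cs]
  have : v + m - w = -n := by rw [← sub_add_cancel w v, ← e]; abel
  rw [this]
  exact N.neg_mem hn

theorem disj (H : TrC G 𝓜) {B C : Set V} (hB : B ∈ trans 𝓜) (hC : C ∈ trans 𝓜)
    (h : Disjoint B C) : ∃ M ∈ 𝓜, ∃ v w, B = cs M v ∧ C = cs M w ∧ w ∉ cs M v := by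
  obtain ⟨M, hM, v, rfl⟩ := mem_trans.1 hB
  obtain ⟨N, hN, w, rfl⟩ := mem_trans.1 hC
  have e : M = N := by
    by_contra hne
    obtain ⟨z, h1, h2⟩ := meet H hM hN hne v w
    exact Set.disjoint_left.1 h h1 h2
  subst e
  exact ⟨M, hM, v, w, rfl, rfl, fun hw => Set.disjoint_left.1 h hw (self_cs _ _)⟩

theorem img_mem (H : TrC G 𝓜) {γ : Equiv.Perm V} (hγ : γ ∈ Gam G V) {B : Set V}
    (hB : B ∈ trans 𝓜) : γ '' B ∈ trans 𝓜 := by
  obtain ⟨g, c, h⟩ := hγ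
  obtain ⟨M, hM, v, rfl⟩ := mem_trans.1 hB
  exact ⟨g • M, H.perm g M hM, γ v, img h M v⟩

theorem pt (H : TrC G 𝓜) : PairwiseTransitive (Gam G V) (trans 𝓜) := by
  refine ⟨fun γ hγ => ?_, ?_, ?_, ?_, ?_, ?_, ?_⟩
  · ext B
    constructor
    · rintro ⟨C, hC, rfl⟩
      exact img_mem H hγ hC
    · intro hB
      refine ⟨(γ⁻¹ : Equiv.Perm V) '' B, img_mem H (inv_mem hγ) hB, ?_⟩
      simp [Set.image_image]
  · intro x y x' y' h h' c c'
    obtain ⟨M, hM, m⟩ := coll_iff.1 c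
    obtain ⟨M', hM', m'⟩ := coll_iff.1 c'
    obtain ⟨g, hg⟩ := H.t1 M hM M' hM' _ m _ m' (sub_ne_zero.2 h.symm) (sub_ne_zero.2 h'.symm)
    exact ⟨_, aff_mem g _, aff_pt g x x', aff_two hg⟩
  · intro x y x' y' _ _ c c'
    obtain ⟨g, hg⟩ := H.t2 (y - x) (y' - x') (fun M hM m => c (coll_iff.2 ⟨M, hM, m⟩))
      (fun M hM m => c' (coll_iff.2 ⟨M, hM, m⟩))
    exact ⟨_, aff_mem g _, aff_pt g x x', aff_two hg⟩
  · intro x x' B hB B' hB' hx hx'
    obtain ⟨M, hM, rfl⟩ := at_pt hB hx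
    obtain ⟨M', hM', rfl⟩ := at_pt hB' hx'
    obtain ⟨g, hg⟩ := one H hM hM'
    exact ⟨_, aff_mem g _, aff_pt g x x', by rw [img', hg]⟩
  · intro x x' B hB B' hB' hx hx'
    obtain ⟨M, hM, v, rfl⟩ := mem_trans.1 hB
    obtain ⟨M', hM', v', rfl⟩ := mem_trans.1 hB'
    obtain ⟨g, -, hg⟩ := antif H hM hM' hx hx'
    exact ⟨_, aff_mem g _, aff_pt g x x', hg⟩
  · rintro B hB C hC B' hB' C' hC' h h' ⟨z, zB, zC⟩ ⟨z', zB', zC'⟩
    obtain ⟨M, hM, rfl⟩ := at_pt hB zB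
    obtain ⟨N, hN, rfl⟩ := at_pt hC zC
    obtain ⟨M', hM', rfl⟩ := at_pt hB' zB'
    obtain ⟨N', hN', rfl⟩ := at_pt hC' zC'
    obtain ⟨g, g1, g2⟩ := H.two M hM N hN M' hM' N' hN' (fun e => h (e ▸ rfl))
      (fun e => h' (e ▸ rfl))
    exact ⟨_, aff_mem g (z' - g • z), by rw [img', g1], by rw [img', g2]⟩
  · intro B hB C hC B' hB' C' hC' _ _ d d'
    obtain ⟨M, hM, v, w, rfl, rfl, hw⟩ := disj H hB hC d
    obtain ⟨M', hM', v', w', rfl, rfl, hw'⟩ := disj H hB' hC' d'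
    obtain ⟨g, g1, g2⟩ := antif H hM hM' hw hw'
    exact ⟨_, aff_mem g (w' - g • w), g2, by rw [img', g1]⟩

theorem des (H : TrC G 𝓜) {M₀ : AddSubgroup V} (h₀ : M₀ ∈ 𝓜) :
    IsOneDesign (trans 𝓜) (cs M₀ 0).ncard 𝓜.ncard := by
  constructor
  · rintro B ⟨M, hM, v, rfl⟩
    obtain ⟨g, hg⟩ := one H h₀ hM
    have := img' g 0 v M₀
    rw [hg] at this
    show (cs M v).ncard = _
    rw [← this, Set.ncard_image_of_injective _ (Equiv.injective _)]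
  · intro x
    have : {B | B ∈ trans 𝓜 ∧ x ∈ B} = (fun M => cs M x) '' 𝓜 := by
      ext B
      constructor
      · rintro ⟨hB, hx⟩
        obtain ⟨M, hM, rfl⟩ := at_pt hB hx
        exact ⟨M, hM, rfl⟩
      · rintro ⟨M, hM, rfl⟩
        exact ⟨⟨M, hM, x, rfl⟩, self_cs _ _⟩
    rw [this, Set.ncard_image_of_injective _ fun _ _ h => cs_inj h]

variable (G V) in
def Kp : Subgroup (Equiv.Perm V × G) where
  carrier := {p | ∃ c : V, ∀ x, p.1 x = p.2 • x + c}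
  one_mem' := ⟨0, fun x => by simp⟩
  mul_mem' := by
    rintro a b ⟨c, ha⟩ ⟨c', hb⟩
    exact ⟨a.2 • c' + c, fun x => by
      rw [Prod.fst_mul, Prod.snd_mul, Equiv.Perm.mul_apply, ha, hb, smul_add, mul_smul, add_assoc]⟩
  inv_mem' := by
    rintro a ⟨c, ha⟩
    refine ⟨-(a.2⁻¹ • c), fun x => ?_⟩
    rw [Prod.fst_inv, Prod.snd_inv, Equiv.Perm.inv_eq_iff_eq, ha]
    simp

theorem sol (hG : Group.IsSolvable G) : Group.IsSolvable (Gam G V) := by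
  let π : Kp G V →* G := (MonoidHom.snd _ _).comp (Kp G V).subtype
  have hk : Group.IsSolvable π.ker := by
    refine Group.isSolvable_of_comm fun a b => ?_
    obtain ⟨⟨⟨a, g⟩, c, ha⟩, hg⟩ := a
    obtain ⟨⟨⟨b, g'⟩, c', hb⟩, hg'⟩ := b
    have e : g = 1 := hg
    have e' : g' = 1 := hg'
    subst e e'
    refine Subtype.ext (Subtype.ext (Prod.ext (Equiv.ext fun x => ?_) rfl))
    show a (b x) = b (a x)
    simp only [one_smul] at ha hb
    rw [ha, hb, hb, ha, add_right_comm]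
  have hK : Group.IsSolvable (Kp G V) :=
    Group.isSolvable_of_ker_le_range π.ker.subtype π (by simp)
  let ρ : Kp G V →* Gam G V := ((MonoidHom.fst _ _).comp (Kp G V).subtype).codRestrict _
    fun p => ⟨p.1.2, p.2⟩
  refine Group.isSolvable_of_surjective (f := ρ) ?_
  rintro ⟨γ, g, c, h⟩
  exact ⟨⟨(γ, g), c, h⟩, rfl⟩

theorem row : H33.CVT := by
  intro G V _ _ _ _ 𝓜 H
  obtain ⟨M, hM, N, hN, hMN⟩ := H.ex
  refine ⟨(cs M 0).ncard, Gam G V, ?_, des H hM, ?_, pt H, fun γ h => h, sol⟩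
  · exact (Set.ncard_pos (Set.toFinite _)).2 ⟨0, self_cs _ _⟩
  · exact (Set.one_lt_ncard (Set.toFinite _)).2 ⟨M, hM, N, hN, hMN⟩

end Pool.Agent.MP_f8e15f_co.RCVT
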