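import Pool.Agent.MP_f8e15f_co.H33.Spec

/-! Row DES: set designs, incidence structures, duals and isomorphisms. -/

namespace Pool.Agent.MP_f8e15f_co.RDES

open MulAction H33 H24

section Inc

variable {G P B : Type} [Group G] [MulAction G P] [MulAction G B] {I : P → B → Prop}

theorem img (h : PT G I) (g : G) (b : B) :
    toPermHom G P g '' {p | I p b} = {p | I p (g • b)} := by
  ext p
  constructor
  · rintro ⟨q, hq, rfl⟩
    exact (h.inv g q b).2 hq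
  · intro hp
    refine ⟨g⁻¹ • p, (h.inv g _ b).1 ?_, smul_inv_smul g p⟩
    rwa [smul_inv_smul]

theorem coll_des (I : P → B → Prop) (p q : P) : Coll (des I) p q ↔ Col I p q :=
  ⟨fun ⟨_, ⟨b, e⟩, h1, h2⟩ => ⟨b, by subst e; exact ⟨h1, h2⟩⟩,
    fun ⟨b, h1, h2⟩ => ⟨_, ⟨b, rfl⟩, h1, h2⟩⟩

theorem pt_range (h : PT G I) : PairwiseTransitive (toPermHom G P).range (des I) := by
  refine ⟨?_, fun x y x' y' a b c d => ?_, fun x y x' y' a b c d => ?_, ?_, ?_, ?_, ?_⟩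
  · rintro _ ⟨g, rfl⟩
    ext S
    constructor
    · rintro ⟨_, ⟨b, rfl⟩, rfl⟩
      exact ⟨g • b, img h g b⟩
    · rintro ⟨b, rfl⟩
      exact ⟨_, ⟨g⁻¹ • b, rfl⟩, (img h g _).trans (by rw [smul_inv_smul])⟩
  · obtain ⟨g, hg⟩ := h.col x y x' y' a b ((coll_des I _ _).1 c) ((coll_des I _ _).1 d)
    exact ⟨_, ⟨g, rfl⟩, hg⟩
  · obtain ⟨g, hg⟩ := h.non x y x' y' a b (mt (coll_des I _ _).2 c) (mt (coll_des I _ _).2 d)
    exact ⟨_, ⟨g, rfl⟩, hg⟩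
  · rintro x x' _ ⟨b, rfl⟩ _ ⟨b', rfl⟩ c d
    obtain ⟨g, h1, rfl⟩ := h.flag x b x' b' c d
    exact ⟨_, ⟨g, rfl⟩, h1, img h g b⟩
  · rintro x x' _ ⟨b, rfl⟩ _ ⟨b', rfl⟩ c d
    obtain ⟨g, h1, rfl⟩ := h.anti x b x' b' c d
    exact ⟨_, ⟨g, rfl⟩, h1, img h g b⟩
  · rintro _ ⟨b, rfl⟩ _ ⟨c, rfl⟩ _ ⟨b', rfl⟩ _ ⟨c', rfl⟩ h1 h2 h3 h4
    obtain ⟨g, rfl, rfl⟩ := h.met b c b' c' (fun e => h1 (by rw [e])) (fun e => h2 (by rw [e])) h3 h4
    exact ⟨_, ⟨g, rfl⟩, img h g b, img h g c⟩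
  · rintro _ ⟨b, rfl⟩ _ ⟨c, rfl⟩ _ ⟨b', rfl⟩ _ ⟨c', rfl⟩ h1 h2 h3 h4
    obtain ⟨g, rfl, rfl⟩ := h.dis b c b' c' (fun e => h1 (by rw [e])) (fun e => h2 (by rw [e]))
      (fun ⟨_, x, y⟩ => Set.disjoint_left.1 h3 x y) fun ⟨_, x, y⟩ => Set.disjoint_left.1 h4 x y
    exact ⟨_, ⟨g, rfl⟩, img h g b, img h g c⟩

theorem solv [Group.IsSolvable G] : Group.IsSolvable (toPermHom G P).range :=
  Group.isSolvable_of_surjective (toPermHom G P).rangeRestrict_surjective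

theorem comp {V : Type} [MulAction G V] (h : PT G I) (e : V ≃ P)
    (he : ∀ (g : G) v, e (g • v) = g • e v) : PT G fun v b => I (e v) b := by
  have h1 : ∀ (g : G) v w, g • e v = e w → g • v = w := fun g v w x =>
    e.injective ((he g v).trans x)
  have h2 : ∀ b c, Col (flip fun v b => I (e v) b) b c ↔ Col (flip I) b c := fun b c =>
    e.exists_congr fun _ => Iff.rfl
  refine ⟨fun g p b => by rw [he, h.inv], fun p q p' q' a b c d => ?_,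
    fun p q p' q' a b c d => ?_, fun p b p' b' c d => ?_, fun p b p' b' c d => ?_,
    fun b c b' c' x y z w => h.met b c b' c' x y ((h2 _ _).1 z) ((h2 _ _).1 w),
    fun b c b' c' x y z w => h.dis b c b' c' x y (mt (h2 _ _).2 z) (mt (h2 _ _).2 w)⟩
  · exact (h.col _ _ _ _ (e.injective.ne a) (e.injective.ne b) c d).imp fun g x =>
      ⟨h1 g _ _ x.1, h1 g _ _ x.2⟩
  · exact (h.non _ _ _ _ (e.injective.ne a) (e.injective.ne b) c d).imp fun g x =>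
      ⟨h1 g _ _ x.1, h1 g _ _ x.2⟩
  · exact (h.flag _ _ _ _ c d).imp fun g x => ⟨h1 g _ _ x.1, x.2⟩
  · exact (h.anti _ _ _ _ c d).imp fun g x => ⟨h1 g _ _ x.1, x.2⟩

end Inc

theorem thru {V P : Type} (e : V ≃ P) (D : Set (Set V)) (x : V) :
    {S | S ∈ (fun S : Set V => e '' S) '' D ∧ e x ∈ S}.ncard = {S | S ∈ D ∧ x ∈ S}.ncard := by
  rw [← Set.ncard_image_of_injective {S | S ∈ D ∧ x ∈ S} e.injective.image_injective]
  congr 1
  ext S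
  constructor
  · rintro ⟨⟨T, hT, rfl⟩, h⟩
    exact ⟨T, ⟨hT, e.injective.mem_set_image.1 h⟩, rfl⟩
  · rintro ⟨T, ⟨hT, h⟩, rfl⟩
    exact ⟨⟨T, hT, rfl⟩, x, h, rfl⟩

theorem sol (G P B : Type) [Group G] [Group.IsSolvable G] [MulAction G P] [MulAction G B]
    [Finite P] [Nonempty P] (I : P → B → Prop) (h : PT G I) (h1 : ∀ p, ∃ b, I p b)
    (h2 : ∀ b, ∃ p, I p b) : Sol (des I) := by
  obtain ⟨p₀⟩ : Nonempty P := inferInstance
  obtain ⟨b₀, h0⟩ := h1 p₀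
  refine ⟨{p | I p b₀}.ncard, {S | S ∈ des I ∧ p₀ ∈ S}.ncard,
    (Set.ncard_pos (Set.toFinite _)).2 ⟨p₀, h0⟩,
    (Set.ncard_pos (Set.toFinite _)).2 ⟨_, ⟨b₀, rfl⟩, h0⟩, ⟨?_, fun x => ?_⟩, _, solv, pt_range h⟩
  · rintro _ ⟨b, rfl⟩
    obtain ⟨p, hp⟩ := h2 b
    obtain ⟨g, -, rfl⟩ := h.flag p₀ b₀ p b h0 hp
    rw [← img h, Set.ncard_image_of_injective _ (toPermHom G P g).injective]
  · obtain ⟨b, hb⟩ := h1 x
    obtain ⟨g, rfl, -⟩ := h.flag p₀ b₀ x b h0 hb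
    rw [← thru (toPermHom G P g) (des I) p₀, (pt_range h).1 _ ⟨g, rfl⟩]
    rfl

theorem act {V : Type} {D : Set (Set V)} {G : Subgroup (Equiv.Perm V)}
    (h : PairwiseTransitive G D) : ∃ _ : MulAction G D, PT G fun (p : V) (b : D) => p ∈ b.1 := by
  obtain ⟨h0, h1, h2, h3, h4, h5, h6⟩ := h
  let A : MulAction G D :=
    { smul := fun g b => ⟨g.1 '' b.1, (h0 g.1 g.2).subset (Set.mem_image_of_mem _ b.2)⟩
      one_smul := fun b => Subtype.ext (Set.image_id _)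
      mul_smul := fun g g' b => Subtype.ext (Set.image_comp g.1 g'.1 b.1) }
  have hc : ∀ p q, Col (fun (p : V) (b : D) => p ∈ b.1) p q ↔ Coll D p q := fun p q =>
    ⟨fun ⟨b, x⟩ => ⟨b.1, b.2, x⟩, fun ⟨b, hb, x⟩ => ⟨⟨b, hb⟩, x⟩⟩
  refine ⟨A, fun g p b => g.1.injective.mem_set_image, fun p q p' q' a b c d => ?_,
    fun p q p' q' a b c d => ?_, fun p b p' b' c d => ?_, fun p b p' b' c d => ?_,
    fun b c b' c' x y z w => ?_, fun b c b' c' x y z w => ?_⟩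
  · obtain ⟨g, hg, e⟩ := h1 p q p' q' a b ((hc _ _).1 c) ((hc _ _).1 d)
    exact ⟨⟨g, hg⟩, e⟩
  · obtain ⟨g, hg, e⟩ := h2 p q p' q' a b (mt (hc _ _).2 c) (mt (hc _ _).2 d)
    exact ⟨⟨g, hg⟩, e⟩
  · obtain ⟨g, hg, e, e'⟩ := h3 p p' _ b.2 _ b'.2 c d
    exact ⟨⟨g, hg⟩, e, Subtype.ext e'⟩
  · obtain ⟨g, hg, e, e'⟩ := h4 p p' _ b.2 _ b'.2 c d
    exact ⟨⟨g, hg⟩, e, Subtype.ext e'⟩
  · obtain ⟨g, hg, e, e'⟩ := h5 _ b.2 _ c.2 _ b'.2 _ c'.2 (Subtype.coe_ne_coe.2 x)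
      (Subtype.coe_ne_coe.2 y) z w
    exact ⟨⟨g, hg⟩, Subtype.ext e, Subtype.ext e'⟩
  · obtain ⟨g, hg, e, e'⟩ := h6 _ b.2 _ c.2 _ b'.2 _ c'.2 (Subtype.coe_ne_coe.2 x)
      (Subtype.coe_ne_coe.2 y) (Set.disjoint_left.2 fun p s t => z ⟨p, s, t⟩)
      (Set.disjoint_left.2 fun p s t => w ⟨p, s, t⟩)
    exact ⟨⟨g, hg⟩, Subtype.ext e, Subtype.ext e'⟩

theorem mem (V : Type) (D : Set (Set V)) : des (fun (p : V) (b : D) => p ∈ b.1) = D :=
  Set.ext fun S => ⟨fun ⟨b, e⟩ => e ▸ b.2, fun h => ⟨⟨S, h⟩, rfl⟩⟩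

theorem mem' (V : Type) (D : Set (Set V)) :
    des (flip fun (p : V) (b : D) => p ∈ b.1) = H33.dual D := rfl

theorem dual (V : Type) [Finite V] [Nonempty V] (D : Set (Set V)) (h : Sol D) :
    Sol (H33.dual D) := by
  obtain ⟨k, r, hk, hr, ⟨h1, h2⟩, G, hG, h3⟩ := h
  obtain ⟨A, hA⟩ := act h3
  have h4 : ∀ p : V, ∃ b : D, p ∈ b.1 := fun p => by
    obtain ⟨S, hS, hp⟩ := Set.nonempty_of_ncard_ne_zero (s := {S | S ∈ D ∧ p ∈ S}) (by
      rw [h2]; omega)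
    exact ⟨⟨S, hS⟩, hp⟩
  have : Nonempty D := (h4 (Classical.arbitrary V)).nonempty
  exact sol G D V _ hA.flip (fun b => Set.nonempty_of_ncard_ne_zero (s := b.1) (by
    rw [h1 _ b.2]; omega)) h4

theorem iso (V P : Type) (D : Set (Set V)) (E : Set (Set P)) (h : Iso D E) (hE : Sol E) :
    Sol D := by
  obtain ⟨e, rfl⟩ := h
  obtain ⟨k, r, hk, hr, ⟨h1, h2⟩, G, hG, h3⟩ := hE
  obtain ⟨A, hA⟩ := act h3
  let A' : MulAction G V :=
    { smul := fun g v => e.symm (g • e v)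
      one_smul := fun v => e.symm_apply_eq.2 (one_smul G _)
      mul_smul := fun g g' v => congrArg e.symm
        ((mul_smul g g' _).trans (congrArg (g • ·) (e.apply_symm_apply _).symm)) }
  have h4 := pt_range (comp hA e fun g v => e.apply_symm_apply _)
  have h5 : des (fun (v : V) (b : (fun S : Set V => e '' S) '' D) => e v ∈ b.1) = D := by
    ext S
    constructor
    · rintro ⟨⟨_, T, hT, rfl⟩, rfl⟩
      exact Set.mem_of_eq_of_mem (e.injective.preimage_image T) hT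
    · exact fun hS => ⟨⟨_, S, hS, rfl⟩, (e.injective.preimage_image S).symm⟩
  rw [h5] at h4
  refine ⟨k, r, hk, hr, ⟨fun S hS => ?_, fun x => ?_⟩, _, solv, h4⟩
  · rw [← h1 _ ⟨S, hS, rfl⟩, Set.ncard_image_of_injective _ e.injective]
  · rw [← thru e D x, h2]

theorem of (P B P' B' : Type) (I : P → B → Prop) (I' : P' → B' → Prop) (e : P ≃ P') (f : B ≃ B')
    (h : ∀ p b, I' (e p) (f b) ↔ I p b) : Iso (des I) (des I') := by
  have h1 : ∀ b, e '' {p | I p b} = {p | I' p (f b)} := fun b => by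
    ext p
    obtain ⟨q, rfl⟩ := e.surjective p
    exact e.injective.mem_set_image.trans (h q b).symm
  refine ⟨e, Set.ext fun S => ⟨?_, ?_⟩⟩
  · rintro ⟨_, ⟨b, rfl⟩, rfl⟩
    exact ⟨f b, h1 b⟩
  · rintro ⟨b, rfl⟩
    obtain ⟨c, rfl⟩ := f.surjective b
    exact ⟨_, ⟨c, rfl⟩, h1 c⟩

theorem bidual (V P : Type) (D : Set (Set V)) (E : Set (Set P))
    (h : ∀ p q : V, (∀ B ∈ D, p ∈ B ↔ q ∈ B) → p = q) (h' : Iso (H33.dual D) E) :
    Iso D (H33.dual E) := by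
  obtain ⟨e, rfl⟩ := h'
  let f : V → (fun S : Set D => e '' S) '' H33.dual D := fun p =>
    ⟨e '' {b : D | p ∈ b.1}, _, ⟨p, rfl⟩, rfl⟩
  have hf : Function.Bijective f := by
    refine ⟨fun p q x => h p q fun S hS => ?_, ?_⟩
    · exact Set.ext_iff.1 (e.injective.image_injective (congrArg Subtype.val x)) ⟨S, hS⟩
    · rintro ⟨_, _, ⟨p, rfl⟩, rfl⟩
      exact ⟨p, rfl⟩
  have := of V D _ P (fun p b => p ∈ b.1) (flip fun x T => x ∈ T.1) (Equiv.ofBijective f hf) e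
    fun p b => e.injective.mem_set_image
  rwa [mem] at this

theorem row : H33.DES where
  sol := sol
  dual := dual
  iso := iso
  trans := by
    rintro V P Q D _ _ ⟨e, rfl⟩ ⟨f, rfl⟩
    exact ⟨e.trans f, by simp only [Set.image_image]; rfl⟩
  symm := by
    rintro V P D _ ⟨e, rfl⟩
    exact ⟨e.symm, by simp only [Set.image_image, Equiv.symm_apply_apply, Set.image_id']⟩
  bidual := bidual
  mem := mem
  mem' := mem'
  of := of

end Pool.Agent.MP_f8e15f_co.RDES
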