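import Pool.Agent.MP_f8e15f_co.H33.Spec
import Pool.Agent.MP_f8e15f_co.H24.Basic

/-!
Additive and biadditive maps of a finite field are expanded along the field automorphisms.
-/

namespace Pool.Agent.MP_f8e15f_co.REXP

open Pool.Agent.MP_f8e15f_co.H24

theorem charP {F : Type} [Field F] [Finite F] {p d : ℕ} [Fact p.Prime] (h : Nat.card F = p ^ d) :
    CharP F p := by
  let := Fintype.ofFinite F
  exact charP_of_card_eq_prime_pow (Nat.card_eq_fintype_card.symm.trans h)

theorem exP (F : Type) [Field F] [Finite F] : ∃ p d : ℕ, p.Prime ∧ Nat.card F = p ^ d := by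
  let := Fintype.ofFinite F
  obtain ⟨p, _, n, hp, h⟩ := FiniteField.card' F
  exact ⟨p, n, hp, Nat.card_eq_fintype_card.trans h⟩

theorem indep {F : Type} [Field F] [Fintype (F ≃+* F)] (c : (F ≃+* F) → F)
    (h : ∀ x, ∑ σ, c σ * σ x = 0) (σ : F ≃+* F) : c σ = 0 := by
  have li := (linearIndependent_monoidHom F F).comp (fun σ : F ≃+* F => (σ : F →* F))
    fun σ τ e => RingEquiv.ext fun x => DFunLike.congr_fun e x
  refine Fintype.linearIndependent_iff.1 li c (funext fun x => ?_) σ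
  rw [Finset.sum_apply]
  exact h x

theorem one (F : Type) [Field F] [Fintype F] [Fintype (F ≃+* F)] (L : F →+ F) :
    ∃ c : (F ≃+* F) → F, ∀ x, L x = ∑ σ, c σ * σ x := by
  obtain ⟨p, d, hp, h⟩ := exP F
  have := Fact.mk hp
  have := charP h
  let : Algebra (ZMod p) F := ZMod.algebra F p
  have li : LinearIndependent F fun σ : F ≃+* F => (autEquiv F p σ).toLinearMap :=
    Fintype.linearIndependent_iff.2 fun c hc => indep c fun x => by
      have := LinearMap.congr_fun hc x
      rw [LinearMap.sum_apply] at this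
      exact this
  have top := li.span_eq_top_of_card_eq_finrank (by
    rw [Module.finrank_linearMap_self, finrank_eq h, ← Nat.card_eq_fintype_card, card_aut h])
  obtain ⟨c, hc⟩ := (Submodule.mem_span_range_iff_exists_fun F).1
    (top.ge (Submodule.mem_top (x := L.toZModLinearMap p)))
  refine ⟨c, fun x => ?_⟩
  have := LinearMap.congr_fun hc x
  rw [LinearMap.sum_apply] at this
  exact this.symm

theorem ex (F : Type) [Field F] [Fintype F] [Fintype (F ≃+* F)] (β : F →+ F →+ F) :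
    ∃ c : (F ≃+* F) → (F ≃+* F) → F, ∀ x y, β x y = ∑ σ, ∑ τ, c σ τ * σ x * τ y := by
  choose c hc using fun y => one F (β.flip y)
  have add : ∀ σ y y', c (y + y') σ = c y σ + c y' σ := fun σ y y' =>
    sub_eq_zero.1 (indep (fun σ => c (y + y') σ - (c y σ + c y' σ)) (fun x => by
      simp only [sub_mul, add_mul, Finset.sum_sub_distrib, Finset.sum_add_distrib, ← hc, map_add,
        AddMonoidHom.add_apply, sub_self]) σ)
  choose c' hc' using fun σ => one F (AddMonoidHom.mk' (fun y => c y σ) (add σ))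
  refine ⟨c', fun x y => (hc y x).trans (Finset.sum_congr rfl fun σ _ => ?_)⟩
  have : c y σ = _ := hc' σ y
  rw [this, Finset.sum_mul]
  exact Finset.sum_congr rfl fun τ _ => mul_right_comm _ _ _

theorem un (F : Type) [Field F] [Fintype (F ≃+* F)] (c c' : (F ≃+* F) → (F ≃+* F) → F)
    (h : ∀ x y, ∑ σ, ∑ τ, c σ τ * σ x * τ y = ∑ σ, ∑ τ, c' σ τ * σ x * τ y) : c = c' := by
  funext σ τ
  refine sub_eq_zero.1 (indep (fun τ => c σ τ - c' σ τ) (fun y => ?_) τ)
  refine indep (fun σ => ∑ τ, (c σ τ - c' σ τ) * τ y) (fun x => ?_) σ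
  rw [← sub_eq_zero.2 (h x y), ← Finset.sum_sub_distrib]
  refine Finset.sum_congr rfl fun σ _ => ?_
  rw [← Finset.sum_sub_distrib, Finset.sum_mul]
  exact Finset.sum_congr rfl fun τ _ => by ring

theorem comm (F : Type) [Field F] [Finite F] (σ τ : F ≃+* F) (x : F) : σ (τ x) = τ (σ x) := by
  obtain ⟨p, d, hp, h⟩ := exP F
  have := Fact.mk hp
  have := charP h
  obtain ⟨i, -, hi⟩ := frob_pow h σ
  rw [hi, hi, map_pow]

theorem frob (F : Type) [Field F] [Finite F] (p d : ℕ) (hp : p.Prime) (h : Nat.card F = p ^ d) :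
    Nat.card (F ≃+* F) = d ∧ (∀ σ : F ≃+* F, ∃ i < d, ∀ x, σ x = x ^ p ^ i) ∧
    (∀ i, ∃ σ : F ≃+* F, ∀ x, σ x = x ^ p ^ i) ∧
    ∀ i j, (∀ x : F, x ^ p ^ i = x ^ p ^ j) → i % d = j % d := by
  have := Fact.mk hp
  have := charP h
  refine ⟨card_aut h, frob_pow h, fun i => ⟨iterateFrobeniusEquiv F p i, fun _ => rfl⟩,
    fun i j e => ?_⟩
  have d0 : 0 < d := by
    obtain ⟨i, hi, -⟩ := frob_pow h (RingEquiv.refl F)
    omega
  have red : ∀ i (x : F), x ^ p ^ (i % d) = x ^ p ^ i := fun i x => by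
    let := Fintype.ofFinite F
    conv_rhs => rw [← Nat.div_add_mod i d, pow_add, pow_mul, pow_mul, ← h,
      Nat.card_eq_fintype_card, FiniteField.pow_card_pow]
  have sj : Function.Surjective fun i : Fin d => iterateFrobeniusEquiv F p i := fun σ => by
    obtain ⟨i, hi, e⟩ := frob_pow h σ
    exact ⟨⟨i, hi⟩, RingEquiv.ext fun x => (e x).symm⟩
  have bj := (Nat.bijective_iff_surjective_and_card _).2 ⟨sj, by rw [card_aut h]; simp⟩
  exact congrArg Fin.val (bj.1 (a₁ := ⟨i % d, Nat.mod_lt _ d0⟩) (a₂ := ⟨j % d, Nat.mod_lt _ d0⟩)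
    (RingEquiv.ext fun x => (red i x).trans ((e x).trans (red j x).symm)))

theorem iso (X F : Type) [AddCommGroup X] [Finite X] [Field F] [Finite F] (p : ℕ) [Fact p.Prime]
    [Module (ZMod p) X] (hc : Nat.card X = Nat.card F) : Nonempty (X ≃+ F) := by
  have e := hc.symm.trans (FiniteField.pow_finrank_eq_natCard p X).symm
  have := charP e
  let : Algebra (ZMod p) F := ZMod.algebra F p
  exact ⟨(LinearEquiv.ofFinrankEq (R := ZMod p) X F (finrank_eq e).symm).toAddEquiv⟩

theorem gal (X : Type) [AddCommGroup X] [Finite X] [Nontrivial X] (p : ℕ) [Fact p.Prime]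
    [Module (ZMod p) X] : ∃ (F : Type) (_ : Field F) (_ : Finite F), Nonempty (X ≃+ F) :=
  ⟨GaloisField p (Module.finrank (ZMod p) X), inferInstance, inferInstance,
    iso X _ p ((FiniteField.pow_finrank_eq_natCard p X).symm.trans
      (GaloisField.card p _ Module.finrank_pos.ne').symm)⟩

theorem elf' (X F : Type) [AddCommGroup X] [Field F] [Finite F] (p : ℕ) (hp : p.Prime)
    (h : ∀ x : X, p • x = 0) (hc : Nat.card X = Nat.card F) : Nonempty (X ≃+ F) :=
  @iso X F _ (Nat.finite_of_card_ne_zero (hc ▸ Nat.card_pos.ne')) _ _ p ⟨hp⟩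
    (AddCommGroup.zmodModule h) hc

theorem elf (X : Type) [AddCommGroup X] [Finite X] [Nontrivial X] (p : ℕ) (hp : p.Prime)
    (h : ∀ x : X, p • x = 0) : ∃ (F : Type) (_ : Field F) (_ : Finite F), Nonempty (X ≃+ F) :=
  @gal X _ _ _ p ⟨hp⟩ (AddCommGroup.zmodModule h)

theorem row : H33.EXP := ⟨one, ex, fun F _ _ _ => un F, comm, frob, elf, elf'⟩

end Pool.Agent.MP_f8e15f_co.REXP
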