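import Pool.Agent.MP_f8e15f_co.H33.Spec2
import Pool.Agent.MP_f8e15f_co.H24.Final

/-! The one-dimensional semilinear case. -/

open MulAction Pointwise

namespace Pool.Agent.MP_f8e15f_co.RH24A

open H33 H24

variable {V P : Type} (e : V ≃ P) {D : Set (Set V)}

theorem one {k r : ℕ} (h : IsOneDesign D k r) :
    IsOneDesign ((fun B : Set V => e '' B) '' D) k r := by
  constructor
  · rintro _ ⟨B, hB, rfl⟩
    rw [Set.ncard_image_of_injective _ e.injective, h.1 B hB]
  · intro x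
    obtain ⟨x, rfl⟩ := e.surjective x
    rw [← h.2 x, ← Set.ncard_image_of_injective {B | B ∈ D ∧ x ∈ B}
      (Set.image_injective.2 e.injective)]
    congr 1
    ext B'
    constructor
    · rintro ⟨⟨B, hB, rfl⟩, hx⟩
      exact ⟨B, ⟨hB, e.injective.mem_set_image.1 hx⟩, rfl⟩
    · rintro ⟨B, ⟨hB, hx⟩, rfl⟩
      exact ⟨⟨B, hB, rfl⟩, x, hx, rfl⟩

theorem coll (x y : V) : Coll ((fun B : Set V => e '' B) '' D) (e x) (e y) ↔ Coll D x y := by
  simp [Coll]

theorem img (g : Equiv.Perm V) (B : Set V) : e.permCongr g '' (e '' B) = e '' (g '' B) := by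
  simp [Set.image_image]

theorem pt {G : Subgroup (Equiv.Perm V)} (h : PairwiseTransitive G D) :
    PairwiseTransitive (G.map e.permCongrHom.toMonoidHom) ((fun B : Set V => e '' B) '' D) := by
  obtain ⟨h0, h1, h2, h3, h4, h5, h6⟩ := h
  have m : ∀ g ∈ G, e.permCongr g ∈ G.map e.permCongrHom.toMonoidHom := fun g hg => ⟨g, hg, rfl⟩
  have mem : ∀ (x : V) (B : Set V), e x ∈ e '' B ↔ x ∈ B := fun _ _ => e.injective.mem_set_image
  refine ⟨?_, ?_, ?_, ?_, ?_, ?_, ?_⟩
  · rintro _ ⟨g, hg, rfl⟩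
    conv_rhs => rw [← h0 g hg]
    rw [Set.image_image, Set.image_image]
    exact congrArg (· '' D) (funext (img e g))
  · simp only [e.surjective.forall, coll, e.injective.ne_iff]
    intro x y x' y' a b c d
    obtain ⟨g, hg, u, v⟩ := h1 x y x' y' a b c d
    exact ⟨_, m g hg, by simp [u], by simp [v]⟩
  · simp only [e.surjective.forall, coll, e.injective.ne_iff]
    intro x y x' y' a b c d
    obtain ⟨g, hg, u, v⟩ := h2 x y x' y' a b c d
    exact ⟨_, m g hg, by simp [u], by simp [v]⟩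
  · simp only [e.surjective.forall, Set.forall_mem_image, mem]
    intro x x' B hB B' hB' a b
    obtain ⟨g, hg, u, v⟩ := h3 x x' B hB B' hB' a b
    exact ⟨_, m g hg, by simp [u], by rw [img, v]⟩
  · simp only [e.surjective.forall, Set.forall_mem_image, mem]
    intro x x' B hB B' hB' a b
    obtain ⟨g, hg, u, v⟩ := h4 x x' B hB B' hB' a b
    exact ⟨_, m g hg, by simp [u], by rw [img, v]⟩
  · simp only [Set.forall_mem_image, ← Set.image_inter e.injective, Set.image_nonempty,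
      (Set.image_injective.2 e.injective).ne_iff]
    intro B hB C hC B' hB' C' hC' a b c d
    obtain ⟨g, hg, u, v⟩ := h5 B hB C hC B' hB' C' hC' a b c d
    exact ⟨_, m g hg, by rw [img, u], by rw [img, v]⟩
  · simp only [Set.forall_mem_image, Set.disjoint_image_iff e.injective,
      (Set.image_injective.2 e.injective).ne_iff]
    intro B hB C hC B' hB' C' hC' a b c d
    obtain ⟨g, hg, u, v⟩ := h6 B hB C hC B' hB' C' hC' a b c d
    exact ⟨_, m g hg, by rw [img, u], by rw [img, v]⟩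

theorem row : H33.OfH24A := by
  intro _ hC G V _ _ _ _ _ _ 𝓜 hT ⟨F, _, _, e, he⟩ h3
  obtain ⟨k, Γ, -, hD, -, hP, hΓ, -⟩ := hC G V 𝓜 hT
  have := (H24.main F _).1 ⟨k, _, one e.toEquiv hD, h3, _, ?_, pt e.toEquiv hP⟩
  · refine ⟨F, _, ?_, e.toEquiv, rfl⟩
    rcases this with ⟨-, h⟩ | ⟨n, ρ, h1, h2, c, hc, h⟩ | ⟨h1, γ, h2, h⟩
    · rw [h]
      have := Fintype.ofFinite F
      exact .compl F (Fintype.card_eq_nat_card (α := F) ▸ FiniteField.isPrimePow_card F)
    · rw [h]
      exact .cyclo F n ρ c h1 h2 hc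
    · rw [h]
      exact .peisert F γ h1 h2
  · rintro _ ⟨γ, hγ, rfl⟩
    obtain ⟨g, c, h⟩ := hΓ γ hγ
    obtain ⟨a, σ, h'⟩ := he g
    refine ⟨a, e c, σ, fun x => ?_⟩
    show e (γ (e.symm x)) = _
    rw [h, map_add, h', e.apply_symm_apply]

end Pool.Agent.MP_f8e15f_co.RH24A
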