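import Pool.Agent.MP_f8e15f_co.H33.Spec

/-! The theorem of Huppert for actions that need not be faithful, and two consequences. -/

open MulAction Pointwise

namespace Pool.Agent.MP_f8e15f_co.RHUP

open Pool.Agent.MP_f8e15f_co.H33 Pool.Agent.MP_f8e15f_co.H24

section Pull

variable {G G' X : Type} [Group G] [Group G'] [AddCommGroup X] [DistribMulAction G X]
  [DistribMulAction G' X] (π : G →* G') (hs : Function.Surjective π)
  (hπ : ∀ (g : G) (x : X), π g • x = g • x)
include hπ

theorem zpm_comap : Zpm G X = (Zpm G' X).comap π := by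
  ext g
  change (_ ∨ _) ↔ ((∀ x : X, π g • x = x) ∨ ∀ x : X, π g • x = -x)
  simp only [hπ]

include hs

theorem card_eq (hF : Faith G' X) : Nat.card G' = kidx G X := by
  have h : (toPermHom G X).ker = π.ker := by
    ext g
    rw [MonoidHom.mem_ker, MonoidHom.mem_ker, Equiv.ext_iff]
    exact ⟨fun h => hF _ fun x => (hπ g x).trans (h x),
      fun h x => (hπ g x).symm.trans (by rw [h, one_smul]; rfl)⟩
  rw [kidx, h, Subgroup.index_ker, MonoidHom.range_eq_top.2 hs, Subgroup.card_top]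

theorem ex_pull (h : Ex G' X) : Ex G X := by
  obtain ⟨E, h1, h2, h3, h4, h5, h6⟩ := h
  unfold Ex
  rw [zpm_comap π hπ]
  refine ⟨E.comap π, h1.comap π, Subgroup.comap_mono h2, ?_, fun x hx y hy => ?_,
    fun x hx => ?_, fun B hB hc => ?_⟩
  · rw [Subgroup.relIndex_comap, Subgroup.map_comap_eq_self_of_surjective hs, h3]
  · simpa only [Subgroup.mem_comap, map_mul, map_inv] using h4 _ hx _ hy
  · simpa only [Subgroup.mem_comap, map_pow] using h5 _ hx
  · refine Subgroup.map_le_iff_le_comap.1 (h6 _ (hB.map π hs) ?_)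
    rintro _ ⟨x, hx, rfl⟩ _ ⟨y, hy, rfl⟩ v
    simp only [hπ]
    exact hc x hx y hy v

end Pull

theorem hup (hf : HUPF) (G X : Type) [Group G] [Finite G] [Group.IsSolvable G] [AddCommGroup X]
    [Finite X] [Nontrivial X] [DistribMulAction G X] (h : Tr1 G X) :
    Semi G X ∨ (ExN (Nat.card X) (kidx G X) ∧ (Nat.card X = 81 → Ex G X)) := by
  let φ : G →* X ≃ₗ[ℤ] X := DistribMulAction.toModuleAut ℤ X
  have hs := φ.rangeRestrict_surjective
  have hπ : ∀ (g : G) (x : X), φ.rangeRestrict g • x = g • x := fun _ _ => rfl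
  have : Finite φ.range := Finite.of_surjective _ hs
  have : Group.IsSolvable φ.range := solvable_of_surjective hs
  have hF : Faith φ.range X := fun g hg => Subtype.ext (LinearEquiv.ext hg)
  rcases hf φ.range X hF (fun x y hx hy => (h x y hx hy).elim fun g hg =>
    ⟨φ.rangeRestrict g, hg⟩) with ⟨F, _, _, e, he⟩ | ⟨h1, h2⟩
  · exact Or.inl ⟨F, _, inferInstance, e, fun g => he (φ.rangeRestrict g)⟩
  · exact Or.inr ⟨card_eq _ hs hπ hF ▸ h1, fun h => ex_pull _ hs hπ (h2 h)⟩

/-- The action of a subgroup on an invariant subgroup. -/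
@[reducible] def res {G V : Type} [Group G] [AddCommGroup V] [DistribMulAction G V]
    (H : Subgroup G) (W : AddSubgroup V) (hW : ∀ h ∈ H, ∀ x ∈ W, h • x ∈ W) :
    DistribMulAction H W where
  smul h x := ⟨h.1 • x.1, hW _ h.2 _ x.2⟩
  one_smul x := Subtype.ext (one_smul G x.1)
  mul_smul g h x := Subtype.ext (mul_smul g.1 h.1 x.1)
  smul_zero h := Subtype.ext (smul_zero h.1)
  smul_add h x y := Subtype.ext (smul_add h.1 x.1 y.1)

theorem two (hc : CRDN) (ht : TWO) (hf : HUPF) (hb : HUPB) (G Ω : Type) [Group G] [Finite G]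
    [Group.IsSolvable G] [MulAction G Ω] [Finite Ω] [Nontrivial Ω] (h : Two G Ω) :
    ¬ Nat.card Ω ^ 2 ∣ kidx G Ω := by
  have T := ht G Ω h
  obtain ⟨N, n1, n2, n3, t, j, t1, t2, -⟩ := T.aff
  obtain ⟨ω⟩ : Nonempty Ω := inferInstance
  obtain ⟨V, _, _, e, e0, e1, -⟩ := hc G Ω N ω n1 n2 n3
  have : Finite V := Finite.of_equiv _ e.symm
  have : Nontrivial V := e.nontrivial
  have : IsPretransitive G Ω := ⟨T.tr⟩
  have h1 : Tr1 (stabilizer G ω) V := fun x y hx hy => by
    obtain ⟨g, g1, g2⟩ := h ω (e x) ω (e y) (fun a => hx (e.injective (a.symm.trans e0.symm)))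
      fun a => hy (e.injective (a.symm.trans e0.symm))
    exact ⟨⟨g, g1⟩, e.injective ((e1 _ x).trans g2)⟩
  have h2 : (toPermHom G Ω).ker ≤ stabilizer G ω := fun g hg =>
    congrArg (fun σ : Equiv.Perm Ω => σ ω) (MonoidHom.mem_ker.1 hg)
  have h3 : (toPermHom G Ω).ker.subgroupOf (stabilizer G ω) =
      (toPermHom (stabilizer G ω) V).ker := by
    ext g
    rw [Subgroup.mem_subgroupOf, MonoidHom.mem_ker, MonoidHom.mem_ker, Equiv.ext_iff,
      Equiv.ext_iff]
    refine ⟨fun a x => e.injective ((e1 g x).trans (a (e x))), fun a y => ?_⟩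
    obtain ⟨x, rfl⟩ := e.surjective y
    exact (e1 g x).symm.trans (congrArg e (a x))
  have h4 : kidx G Ω = Nat.card Ω * kidx (stabilizer G ω) V := by
    rw [kidx, ← Subgroup.relIndex_mul_index h2, index_stabilizer_of_transitive, mul_comm,
      Subgroup.relIndex, h3, kidx]
  have hq : 1 < Nat.card Ω := Finite.one_lt_card
  have hV : Nat.card V = Nat.card Ω := Nat.card_congr e
  intro hd
  rw [h4, sq] at hd
  have h5 := Nat.dvd_of_mul_dvd_mul_left (by omega) hd
  rcases hup hf (stabilizer G ω) V h1 with hs | ⟨⟨p, hp, a, b⟩ | ⟨a, b⟩, -⟩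
  · have h6 := h5.trans (hb.ord _ V t j t1 (hV.trans t2) hs)
    rw [t2] at h6 hq
    have h7 : Nat.Coprime (t ^ j) (t ^ j - 1) := by
      rw [Nat.coprime_self_sub_right hq.le]
      exact Nat.coprime_one_right _
    have h8 : 0 < j := Nat.pos_of_ne_zero fun a => by simp [a] at hq
    exact absurd (Nat.le_of_dvd h8 (h7.dvd_of_dvd_mul_right h6))
      (not_le.2 (Nat.lt_pow_self t1.one_lt))
  · have h6 := h5.trans b
    rw [← hV, a] at h6
    simp only [List.mem_cons, List.not_mem_nil, or_false] at hp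
    rcases hp with rfl | rfl | rfl | rfl | rfl <;> norm_num at h6
  · have h6 := h5.trans b
    rw [← hV, a] at h6
    norm_num at h6

theorem row : OfHUP := by
  intro hc ht hf hb
  refine { hb with hup := hup hf, two := two hc ht hf hb, sub := ?_ }
  intro G V _ _ _ _ _ _ H W p d hp hW hd hi htr
  let _ := res H W hi
  have : Nontrivial W := (AddSubgroup.nontrivial_iff_ne_bot W).2 hW
  have h1 : Tr1 H W := fun x y hx hy => by
    obtain ⟨h, a, b⟩ := htr x x.2 y y.2 (fun a => hx (Subtype.ext a)) fun a => hy (Subtype.ext a)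
    exact ⟨⟨h, a⟩, Subtype.ext b⟩
  have h2 : (fixingSubgroup G (W : Set V)).relIndex H = kidx H W := by
    rw [Subgroup.relIndex, kidx]
    congr 1
    ext g
    rw [Subgroup.mem_subgroupOf, MonoidHom.mem_ker, mem_fixingSubgroup_iff, Equiv.ext_iff]
    exact ⟨fun a x => Subtype.ext (a x x.2), fun a x hx => congrArg Subtype.val (a ⟨x, hx⟩)⟩
  rw [h2]
  rcases hup hf H W h1 with hs | ⟨a, -⟩
  · refine Or.inl ⟨hb.ord H W p d hp hd hs, ?_⟩
    obtain ⟨F, _, _, e, he⟩ := hs
    refine ⟨F, _, inferInstance, e, fun h hh => ?_⟩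
    obtain ⟨a, σ, k⟩ := he ⟨h, hh⟩
    exact ⟨a, σ, fun x y hxy => (congrArg e (Subtype.ext hxy)).symm.trans (k x)⟩
  · exact Or.inr (hd ▸ a)

end Pool.Agent.MP_f8e15f_co.RHUP
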