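import Pool.Agent.MP_f8e15f_co.H33.Spec

/-!
Elementary facts on one-dimensional semilinear actions.
-/

open MulAction

namespace Pool.Agent.MP_f8e15f_co.RHUPB

open Pool.Agent.MP_f8e15f_co.H33

theorem orb (G Ω : Type) [Group G] [MulAction G Ω] (T : Subgroup G) (x : Ω) :
    Nat.card (orbit G x) ∣ T.index * (stabilizer T x).index := by
  rw [Nat.card_coe_set_eq, ← index_stabilizer]
  refine (Subgroup.index_dvd_of_le (inf_le_left : stabilizer G x ⊓ T ≤ _)).trans (dvd_of_eq ?_)
  rw [← Subgroup.relIndex_mul_index (inf_le_right : stabilizer G x ⊓ T ≤ T),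
    Subgroup.inf_relIndex_right, mul_comm]
  rfl

/-- The linear part of a semilinear action. -/
theorem part {G X F : Type} [Group G] [AddCommGroup X] [DistribMulAction G X] [Field F]
    (e : X ≃+ F) (h : ∀ g : G, ∃ (a : F) (σ : F ≃+* F), ∀ x, e (g • x) = a * σ (e x)) :
    ∃ (T : Subgroup G) (α : T →* Fˣ), T.index ∣ Nat.card (F ≃+* F) ∧
      (∀ (t : T) x, e (t.1 • x) = α t * e x) ∧ (toPermHom G X).ker ≤ T := by
  choose a σ h using h
  have h1 : ∀ g y, e (g • e.symm y) = a g * σ g y := fun g y => by rw [h, e.apply_symm_apply]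
  have h0 : ∀ g, a g ≠ 0 := fun g hg => by
    have h2 := h1 g 1
    rw [hg, zero_mul, e.map_eq_zero_iff, smul_eq_zero_iff_eq, e.symm.map_eq_zero_iff] at h2
    exact one_ne_zero h2
  have h2 : ∀ g k y, a (g * k) * σ (g * k) y = a g * σ g (a k) * σ g (σ k y) := fun g k y => by
    rw [← h1, mul_smul, h, h1, map_mul, mul_assoc]
  have h3 : ∀ g k, a (g * k) = a g * σ g (a k) := fun g k => by simpa using h2 g k 1
  let s : G →* RingAut F := MonoidHom.mk' σ fun g k => RingEquiv.ext fun y => by
    have h4 := h2 g k y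
    rw [← h3] at h4
    exact mul_left_cancel₀ (h0 _) h4
  have hs : ∀ t : s.ker, ∀ y, σ t y = y := fun t y => RingEquiv.congr_fun t.2 y
  refine ⟨s.ker, MonoidHom.mk' (fun t => Units.mk0 (a t) (h0 _)) fun t u => Units.ext ?_, ?_,
    fun t x => ?_, fun g hg => ?_⟩
  · show a (t * u) = a t * a u
    rw [h3, hs]
  · rw [Subgroup.index_ker]
    exact Subgroup.card_subgroup_dvd_card _
  · rw [h, hs]
    rfl
  · have h4 : ∀ y, a g * σ g y = y := fun y => by
      rw [← h1, show g • e.symm y = e.symm y from Equiv.congr_fun hg _, e.apply_symm_apply]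
    have h5 : a g = 1 := by simpa using h4 1
    exact RingEquiv.ext fun y => show σ g y = y by simpa [h5] using h4 y

theorem row : OfHUPB := by
  intro ex
  refine ⟨?_, ?_, ?_, ?_, ?_⟩
  · rintro G X _ _ _ p d hp hX ⟨F, _, _, e, h⟩
    have hF : Nat.card F = p ^ d := (Nat.card_congr e.toEquiv).symm.trans hX
    obtain ⟨T, α, h1, h2, h3⟩ := part e h
    rw [(ex.frob F p d hp hF).1] at h1
    have h4 : (toPermHom G X).ker.subgroupOf T = α.ker := by
      ext t
      rw [Subgroup.mem_subgroupOf, MonoidHom.mem_ker, MonoidHom.mem_ker]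
      constructor
      · intro h5
        have h6 := h2 t (e.symm 1)
        rw [show t.1 • e.symm 1 = e.symm 1 from Equiv.congr_fun h5 _, e.apply_symm_apply,
          mul_one] at h6
        exact Units.ext h6.symm
      · intro h5
        refine Equiv.ext fun x => e.injective ?_
        show e (t.1 • x) = e x
        rw [h2, h5, Units.val_one, one_mul]
    rw [kidx, ← Subgroup.relIndex_mul_index h3, mul_comm, Subgroup.relIndex, h4,
      Subgroup.index_ker, ← hF, ← Nat.card_units]
    exact mul_dvd_mul h1 (Subgroup.card_subgroup_dvd_card _)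
  · intro G Ω _ _ T x
    rw [Nat.card_coe_set_eq (orbit T x), ← index_stabilizer]
    exact orb G Ω T x
  · intro G X F _ _ _ _ _ e p d Δ hp hF tr h hΔ
    obtain ⟨T, α, h1, h2, -⟩ := part e h
    rw [(ex.frob F p d hp hF).1] at h1
    have : Finite X := Finite.of_equiv F e.toEquiv.symm
    have h0 : e.symm 1 ≠ 0 := fun h3 => one_ne_zero (e.symm.map_eq_zero_iff.1 h3)
    have h3 : orbit G (e.symm 1) = {0}ᶜ := by
      ext y
      constructor
      · rintro ⟨g, rfl⟩ h4
        exact h0 ((smul_eq_zero_iff_eq g).1 h4)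
      · exact fun h4 => tr _ y h0 h4
    have h4 : stabilizer T (e.symm 1) = α.ker := by
      ext t
      rw [mem_stabilizer_iff, MonoidHom.mem_ker, ← e.injective.eq_iff, Subgroup.smul_def, h2,
        e.apply_symm_apply, mul_one, Units.val_eq_one]
    have h5 := orb G X T (e.symm 1)
    rw [h3, h4, Subgroup.index_ker, Nat.card_coe_set_eq, Set.ncard_compl, Set.ncard_singleton,
      Nat.card_congr e.toEquiv, hF] at h5
    refine h5.trans (mul_dvd_mul h1 ?_)
    rw [← IsCyclic.exponent_eq_card]
    refine Monoid.exponent_dvd_of_forall_pow_eq_one ?_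
    rintro ⟨_, t, rfl⟩
    exact Subtype.ext (Units.ext (by simpa using hΔ t _ (h2 t)))
  · intro G X _ _ _ _ _ irr
    obtain ⟨p, hp, hd⟩ := Nat.exists_prime_and_dvd (Finite.one_lt_card (α := X)).ne'
    have := Fact.mk hp
    obtain ⟨x, hx⟩ := exists_prime_addOrderOf_dvd_card' p hd
    have h1 : ∀ y : X, p • y = 0 := by
      rcases irr (nsmulAddMonoidHom p).ker (fun g y hy => by
        show p • g • y = 0
        rw [← smul_comm g p y, show p • y = 0 from hy, smul_zero]) with h | h
      · have h2 : x ∈ (nsmulAddMonoidHom p).ker := by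
          show p • x = 0
          rw [← hx, addOrderOf_nsmul_eq_zero]
        rw [h, AddSubgroup.mem_bot] at h2
        rw [h2, addOrderOf_zero] at hx
        exact absurd hx hp.one_lt.ne
      · exact fun y => (h.ge (AddSubgroup.mem_top y) : y ∈ (nsmulAddMonoidHom p).ker)
    obtain ⟨d, h2⟩ := (IsPGroup.iff_card (p := p) (G := Multiplicative X)).1 fun y =>
      ⟨1, by rw [pow_one]; exact h1 y.toAdd⟩
    refine ⟨p, d, hp, Nat.pos_of_ne_zero ?_, h2, h1⟩
    rintro rfl
    exact (Finite.one_lt_card (α := X)).ne' h2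
  · intro G X _ _ _ tr W hW
    refine (eq_or_ne W ⊥).imp id fun h => eq_top_iff.2 fun y _ => ?_
    obtain ⟨⟨x, hx⟩, h1⟩ := AddSubgroup.ne_bot_iff_exists_ne_zero.1 h
    rcases eq_or_ne y 0 with rfl | h2
    · exact W.zero_mem
    · obtain ⟨g, rfl⟩ := tr x y (fun h3 => h1 (Subtype.ext h3)) h2
      exact hW g x hx

end Pool.Agent.MP_f8e15f_co.RHUPB
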