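import Pool.Agent.MP_f8e15f_co.H33.Net

/-!
The theorem of Huppert for faithful actions.
-/

open MulAction Pointwise

namespace Pool.Agent.MP_f8e15f_co.RHUPF

open Pool.Agent.MP_f8e15f_co.H33 Pool.Agent.MP_f8e15f_co.H24

theorem big1 {n : ℕ} (h : 5 ≤ n) : 8 * n ^ 2 < 3 ^ n := by
  induction n, h using Nat.le_induction with
  | base => norm_num
  | succ n hn ih =>
    rw [pow_succ 3]
    nlinarith

theorem fin2 : ∀ p ∈ Finset.range 97, ∀ f ∈ Finset.range 5, ∀ δ ∈ Finset.range 6,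
    (3 ≤ p ∧ p % 2 = 1 ∧ 1 ≤ f ∧ 2 ≤ δ ∧ (p ^ f) ^ δ - 1 ∣ f * (p ^ f - 1) * 24) →
    f = 1 ∧ δ = 2 ∧ p ∈ [3, 5, 7, 11, 23] := by
  decide +kernel

set_option synthInstance.maxSize 2000 in
theorem fin3 : ∀ φ ∈ Finset.range 12, ∀ f ∈ Finset.range 3, ∀ d ∈ Finset.range 5,
    ∀ j ∈ Finset.range 7, (3 ≤ φ ∧ φ % 2 = 1 ∧ 1 ≤ f ∧ 3 ^ f ≤ φ ∧
    3 ≤ j ∧ 2 ^ j ≤ (2 * d) ^ 2 ∧ φ ^ d + 1 ≤ 2 * (2 ^ j - 1) ∧
    φ ^ (2 * d) - 1 ∣ f * (φ - 1) * 2 ^ j * ∏ i ∈ Finset.range j, (2 ^ j - 2 ^ i)) →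
    φ = 3 ∧ f = 1 ∧ d = 2 ∧ j = 4 := by
  decide +kernel

theorem num2 {p f δ : ℕ} (hp : 3 ≤ p) (ho : p % 2 = 1) (hf : 1 ≤ f) (hδ : 2 ≤ δ)
    (h : (p ^ f) ^ δ - 1 ∣ f * (p ^ f - 1) * 24) : f = 1 ∧ δ = 2 ∧ p ∈ [3, 5, 7, 11, 23] := by
  have h1 : 3 ^ f ≤ p ^ f := Nat.pow_le_pow_left hp f
  have h2 : p ≤ p ^ f := Nat.le_self_pow (by omega) p
  obtain ⟨φ, hφ⟩ : ∃ φ, p ^ f = φ + 1 := ⟨p ^ f - 1, by omega⟩
  have h3 := Nat.le_of_dvd (by rw [hφ, Nat.add_sub_cancel]; have : 0 < φ := by omega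
                               positivity) h
  obtain ⟨e, rfl⟩ : ∃ e, δ = e + 1 := ⟨δ - 1, by omega⟩
  have h4 : (p ^ f) ^ e ≤ 24 * f := by
    rw [hφ, Nat.add_sub_cancel, pow_succ] at h3
    rw [hφ]
    by_contra h5
    have : (24 * f + 1) * (φ + 1) ≤ (φ + 1) ^ e * (φ + 1) :=
      Nat.mul_le_mul_right _ (by omega)
    have h6 : (φ + 1) ^ e * (φ + 1) ≤ f * φ * 24 + 1 := by omega
    nlinarith
  have h5 : p ^ f ≤ (p ^ f) ^ e := Nat.le_self_pow (by omega) _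
  have h6 : f < 5 := by
    by_contra h6
    have := big1 (n := f) (by omega)
    nlinarith
  have h7 : e < 5 := by
    by_contra h7
    have a : 3 ^ 5 ≤ (p ^ f) ^ e :=
      (Nat.pow_le_pow_left (by omega) 5).trans (Nat.pow_le_pow_right (by omega) (by omega))
    omega
  exact fin2 p (Finset.mem_range.2 (by omega)) f (Finset.mem_range.2 h6) (e + 1)
    (Finset.mem_range.2 (by omega)) ⟨hp, ho, hf, hδ, h⟩

theorem num3 {φ f d j : ℕ} (h3 : 3 ≤ φ) (ho : φ % 2 = 1) (hf : 1 ≤ f) (hφ : 3 ^ f ≤ φ)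
    (hj : 3 ≤ j) (h1 : 2 ^ j ≤ (2 * d) ^ 2) (h2 : φ ^ d + 1 ≤ 2 * (2 ^ j - 1))
    (h : φ ^ (2 * d) - 1 ∣ f * (φ - 1) * 2 ^ j * ∏ i ∈ Finset.range j, (2 ^ j - 2 ^ i)) :
    φ = 3 ∧ f = 1 ∧ d = 2 ∧ j = 4 := by
  have a1 : 3 ^ d ≤ φ ^ d := Nat.pow_le_pow_left h3 d
  have a0 : (2 * d) ^ 2 = 4 * d ^ 2 := by ring
  have a2 : d < 5 := by
    by_contra a
    have := big1 (n := d) (by omega)
    omega
  have a3 : d ^ 2 ≤ 4 ^ 2 := Nat.pow_le_pow_left (by omega) 2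
  have a4 : j < 7 := by
    by_contra a
    have : 2 ^ 7 ≤ 2 ^ j := Nat.pow_le_pow_right (by omega) (by omega)
    omega
  have a5 : 2 ^ 3 ≤ 2 ^ j := Nat.pow_le_pow_right (by omega) hj
  have a6 : 2 ≤ d := by
    by_contra a
    have : d ^ 2 ≤ 1 ^ 2 := Nat.pow_le_pow_left (by omega) 2
    omega
  have a7 : φ < 12 := by
    by_contra a
    have : 12 ^ 2 ≤ φ ^ d :=
      (Nat.pow_le_pow_left (by omega) 2).trans (Nat.pow_le_pow_right (by omega) a6)
    omega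
  have a8 : f < 3 := by
    by_contra a
    have : 3 ^ 3 ≤ 3 ^ f := Nat.pow_le_pow_right (by omega) (by omega)
    omega
  exact fin3 φ (Finset.mem_range.2 a7) f (Finset.mem_range.2 a8) d (Finset.mem_range.2 a2) j
    (Finset.mem_range.2 a4) ⟨h3, ho, hf, hφ, hj, h1, h2, h⟩

theorem sym_sup {G : Type} [Group G] {A E E' : Subgroup G} (h : Sym A E 2) (h' : Sym A E' 2)
    (hc : E' ≤ Subgroup.centralizer (E : Set G)) : Sym A (E ⊔ E') 2 := by
  have := h.norm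
  have := h'.norm
  have dec : ∀ x ∈ E ⊔ E', ∃ a ∈ E, ∃ b ∈ E', a * b = x := fun x hx => by
    have hx' : x ∈ ((E ⊔ E' : Subgroup G) : Set G) := hx
    rw [Subgroup.mul_normal] at hx'
    exact hx'
  have c : ∀ a ∈ E, ∀ b ∈ E', Commute a b := fun a ha b hb => hc hb a ha
  refine ⟨h.prime, inferInstance, h.lt.trans_le le_sup_left, sup_le h.cent h'.cent,
    fun x hx y hy => ?_, fun x hx => ?_⟩
  · obtain ⟨a, ha, b, hb, rfl⟩ := dec x hx
    obtain ⟨a', ha', b', hb', rfl⟩ := dec y hy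
    have e : a * b * (a' * b') * (a * b)⁻¹ * (a' * b')⁻¹ =
        a * a' * a⁻¹ * a'⁻¹ * (b * b' * b⁻¹ * b'⁻¹) := by
      rw [(c a ha b hb).mul_inv, (c a' ha' b' hb').mul_inv,
        (c a' ha' b hb).symm.mul_mul_mul_comm,
        (c _ (inv_mem ha) _ (mul_mem hb hb')).symm.mul_mul_mul_comm,
        (c _ (inv_mem ha') _ (mul_mem (mul_mem hb hb') (inv_mem hb))).symm.mul_mul_mul_comm]
    rw [e]
    exact mul_mem (h.comm a ha a' ha') (h'.comm b hb b' hb')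
  · obtain ⟨a, ha, b, hb, rfl⟩ := dec x hx
    rw [(c a ha b hb).mul_pow]
    exact mul_mem (h.pow a ha) (h'.pow b hb)

section

variable {G X : Type} [Group G] [AddCommGroup X] [DistribMulAction G X]

theorem eq_of (hF : Faith G X) {g h : G} (e : ∀ x : X, g • x = h • x) : g = h := by
  have := hF (h⁻¹ * g) fun x => by rw [mul_smul, e, inv_smul_smul]
  exact (inv_mul_eq_one.1 this).symm

theorem zpm_comm (hF : Faith G X) {z : G} (hz : z ∈ Zpm G X) (g : G) : g * z = z * g :=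
  eq_of hF fun x => by
    rcases hz with h | h
    · rw [mul_smul, mul_smul, h, h]
    · rw [mul_smul, mul_smul, h, h, smul_neg]

theorem irr (h : Tr1 G X) : Irr G X := fun W hW => by
  refine or_iff_not_imp_left.2 fun h0 => eq_top_iff.2 fun y _ => ?_
  obtain ⟨x, hx, hx0⟩ := (AddSubgroup.bot_or_exists_ne_zero W).resolve_left h0
  by_cases hy : y = 0
  · exact hy ▸ W.zero_mem
  · obtain ⟨g, rfl⟩ := h x y hx0 hy
    exact hW g x hx

theorem orb [Finite X] [Nontrivial X] (h : Tr1 G X) : Nat.card X - 1 ∣ Nat.card G := by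
  obtain ⟨x, hx⟩ := exists_ne (0 : X)
  have e : orbit G x = {0}ᶜ := Set.ext fun y => ⟨by
    rintro ⟨g, rfl⟩ h0
    exact hx ((smul_eq_zero_iff_eq g).1 h0), fun hy => h x y hx hy⟩
  have := (stabilizer G x).index_dvd_card
  rwa [index_stabilizer, e, Set.ncard_compl, Set.ncard_singleton] at this

theorem zpm_eq [Nontrivial X] {Φ : Type} [Field Φ] [Finite Φ] [Module Φ X] {A : Subgroup G}
    (s : Str G X Φ A) (h3 : Nat.card Φ = 3) : Zpm G X = A := by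
  have le : A ≤ Zpm G X := fun a ha => by
    obtain ⟨c, hc⟩ := s.scal a ha
    obtain ⟨x, hx⟩ := exists_ne (0 : X)
    have c0 : c ≠ 0 := fun h0 => hx ((smul_eq_zero_iff_eq a).1 (by rw [hc, h0, zero_smul]))
    have := Fintype.ofFinite Φ
    have h1 := FiniteField.pow_card_sub_one_eq_one c c0
    rw [← Nat.card_eq_fintype_card, h3] at h1
    rcases sq_eq_one_iff.1 h1 with h | h
    · exact Or.inl fun x => by rw [hc, h, one_smul]
    · exact Or.inr fun x => by rw [hc, h, neg_one_smul]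
  refine le_antisymm (s.max _ ⟨fun z hz g => ?_⟩ (fun x _ y hy => zpm_comm s.faith hy x) le) le
  rwa [zpm_comm s.faith hz, mul_inv_cancel_right]

end

theorem row : OfHUPF := by
  intro sol qp str sym ord cov G X _ _ _ _ _ _ _ hF hT
  obtain ⟨Φ, _, _, _, A, s⟩ := str.ex G X hF fun B hB hab =>
    (qp G X (irr hT) B hB fun x hx y hy v => by rw [← mul_smul, hab x hx y hy, mul_smul]).1 hT
  have sf := str.facts G X Φ A s
  have nA := s.norm
  have nC := sf.cn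
  by_cases hC : Subgroup.centralizer (A : Set G) ≤ A
  · exact Or.inl (sf.one (sf.small (fun x y _ hx hy _ => Or.inl (hT x y hx hy)) hC))
  right
  have two : ∀ E t, Sym A E t → Sym A E 2 := fun E t sy =>
    (cov G X Φ A E t s sf sy (sym G X Φ A E t s sf sy) hT).1 ▸ sy
  obtain ⟨E, sy, hmax⟩ : ∃ E, Maximal (fun E => Sym A E 2) E := by
    obtain ⟨t, E, ht, hE, h1, h2, h3, h4⟩ := sol G A _ nA nC (lt_of_le_not_ge sf.le hC)
    exact exists_maximal_of_wellFoundedGT _ ⟨E, two E t ⟨ht, hE, h1, h2, h3, h4⟩⟩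
  have yf := sym G X Φ A E 2 s sf sy
  have nE := sy.norm
  have hK : Subgroup.centralizer (A : Set G) ⊓ Subgroup.centralizer (E : Set G) ≤ A := by
    by_contra hK
    have h0 : A ≤ Subgroup.centralizer (E : Set G) := fun a ha z hz => (sy.cent hz a ha).symm
    obtain ⟨t, E', ht, hE, h1, h2, h3, h4⟩ := sol G A _ nA inferInstance
      (lt_of_le_not_ge (le_inf sf.le h0) hK)
    have h5 := h2.trans inf_le_right
    have h6 := hmax (sym_sup sy (two E' t ⟨ht, hE, h1, h2.trans inf_le_left, h3, h4⟩) h5)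
      le_sup_left
    exact h1.not_ge fun x hx => yf.nd x (h6 (Subgroup.mem_sup_right hx))
      fun y hy => (h5 hx y hy).symm
  obtain ⟨p, f, hp, hf, hφ⟩ : ∃ p f : ℕ, p.Prime ∧ 1 ≤ f ∧ Nat.card Φ = p ^ f := by
    have := Fintype.ofFinite Φ
    obtain ⟨p, _, n, hp, hn⟩ := FiniteField.card' Φ
    exact ⟨p, n, hp, n.pos, Nat.card_eq_fintype_card.trans hn⟩
  obtain ⟨j, hj, hr⟩ := yf.pw
  have ho := ord G X Φ A E 2 s sf sy yf hK p f j hp hφ hr
  have hd := (orb hT).trans ho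
  have hi := yf.ind
  have h2 : 1 < Nat.card Φ := Finite.one_lt_card
  have odd : Nat.card Φ % 2 = 1 := by have := yf.dvd; omega
  have po : p % 2 = 1 := hp.eq_two_or_odd.resolve_left fun h => by
    rw [hφ, h, Nat.pow_mod, Nat.mod_self, zero_pow (by omega)] at odd
    omega
  have p3 : 3 ≤ p := by have := hp.two_le; omega
  rw [sf.size] at hd
  rw [hr] at hi
  rcases hj.eq_or_lt with rfl | hj
  · have e : ∀ a : ℕ, a * 2 ^ 2 * ∏ i ∈ Finset.range 2, (2 ^ 2 - 2 ^ i) = a * 24 := fun a => by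
      rw [mul_assoc]
      rfl
    rw [e, hφ] at hd ho
    have hδ : 2 ≤ Module.finrank Φ X := by
      by_contra a
      have : Module.finrank Φ X ^ 2 ≤ 1 ^ 2 := Nat.pow_le_pow_left (by omega) 2
      omega
    obtain ⟨rfl, hδ, hl⟩ := num2 p3 po hf hδ hd
    have hX : Nat.card X = p ^ 2 := by rw [sf.size, hφ, hδ, pow_one]
    refine ⟨Or.inl ⟨p, hl, hX, by rwa [one_mul, pow_one, mul_comm] at ho⟩, fun h => ?_⟩
    rw [hX] at h
    simp only [List.mem_cons, List.not_mem_nil, or_false] at hl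
    rcases hl with rfl | rfl | rfl | rfl | rfl <;> omega
  · have h4 : A.relIndex E ≠ 4 := by
      have : 2 ^ 3 ≤ 2 ^ j := Nat.pow_le_pow_right (by omega) hj
      omega
    obtain ⟨d, h5, h6⟩ := (cov G X Φ A E 2 s sf sy yf hT).2.resolve_left h4
    rw [h5] at hd hi
    rw [hr] at h6
    obtain ⟨h3, rfl, rfl, rfl⟩ := num3 (by omega) odd hf
      (hφ ▸ Nat.pow_le_pow_left p3 f) hj hi h6 hd
    have hz := zpm_eq s h3
    refine ⟨Or.inr ⟨by rw [sf.size, h5, h3]; rfl, by rw [h3] at ho; exact ho⟩, fun _ =>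
      ⟨E, nE, hz ▸ sy.lt.le, hz ▸ hr, hz ▸ sy.comm, hz ▸ sy.pow, fun B hB hb => ?_⟩⟩
    rw [hz]
    exact le_sup_left.trans (s.max (B ⊔ A) inferInstance (ab_sup sf.ab
      (fun x hx y hy => eq_of hF fun v => by rw [mul_smul, mul_smul, hb x hx y hy])
      fun b _ a ha => (zpm_comm hF (hz ▸ ha) b).symm) le_sup_right)

end Pool.Agent.MP_f8e15f_co.RHUPF

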