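import Pool.Agent.MP_f8e15f_co.H33.Spec2

/-! Row IRR: if the adjoint maps lie in a field, the bilinear map is a quotient of a field product. -/

open MulAction Pointwise

namespace Pool.Agent.MP_f8e15f_co.RIRR

open Pool.Agent.MP_f8e15f_co.H33 Pool.Agent.MP_f8e15f_co.H24

/-- Every functional on a finite field is a multiple of a given non-zero functional. -/
theorem dual_mul (F : Type) [Field F] [Finite F] (p : ℕ) (hp : p.Prime) (h0 : (p : F) = 0)
    (T : F →+ ZMod p) (hT : ∃ t, T t ≠ 0) :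
    (∀ c, (∀ t, T (c * t) = 0) → c = 0) ∧ ∀ f : F →+ ZMod p, ∃ c, ∀ t, f t = T (c * t) := by
  have : Fact p.Prime := ⟨hp⟩
  have : CharP F p := (CharP.charP_iff_prime_eq_zero hp).2 h0
  let := ZMod.algebra F p
  have h1 : ∀ c, (∀ t, T (c * t) = 0) → c = 0 := by
    intro c hc
    by_contra hne
    obtain ⟨t, ht⟩ := hT
    have := hc (c⁻¹ * t)
    rw [mul_inv_cancel_left₀ hne] at this
    exact ht this
  refine ⟨h1, ?_⟩
  have hcard : Nat.card (F →+ ZMod p) = Nat.card F := by
    rw [Nat.card_congr (AddMonoidHom.toZModLinearMapEquiv p (M := F) (M₁ := ZMod p)).toEquiv]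
    show Nat.card (Module.Dual (ZMod p) F) = _
    rw [Module.natCard_eq_pow_finrank (K := ZMod p), Subspace.dual_finrank_eq,
      ← Module.natCard_eq_pow_finrank]
  have : Finite (F →+ ZMod p) := DFunLike.finite _
  let φ : F → (F →+ ZMod p) := fun c => T.comp (AddMonoidHom.mulLeft c)
  have hinj : Function.Injective φ := by
    intro c c' h
    refine sub_eq_zero.1 (h1 _ fun t => ?_)
    have : T (c * t) = T (c' * t) := DFunLike.congr_fun h t
    rw [sub_mul, map_sub, this, sub_self]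
  have hb := hinj.bijective_of_nat_card_le hcard.le
  intro f
  obtain ⟨c, rfl⟩ := hb.2 f
  exact ⟨c, fun _ => rfl⟩

section

variable {A X Y N : Type} [Group A] [AddCommGroup X] [AddCommGroup Y] [AddCommGroup N]
  [DistribMulAction A X] [DistribMulAction A Y] [DistribMulAction A N] {β : X →+ Y →+ N}
  {p d e : ℕ}

/-- The functional `z ↦ l (g • z)`. -/
def tw (l : N →+ ZMod p) (g : A) : N →+ ZMod p := l.comp (DistribSMul.toAddMonoidHom N g)

theorem tw_apply (l : N →+ ZMod p) (g : A) (z : N) : tw l g z = l (g • z) := rfl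

theorem ext_sep (hF : BF β p d e) {z z' : N} (h : ∀ l : N →+ ZMod p, l z = l z') : z = z' := by
  by_contra hne
  obtain ⟨l, hl⟩ := hF.sep _ (sub_ne_zero.2 hne)
  rw [map_sub, h l, sub_self] at hl
  exact hl rfl

theorem ext_nd (hF : BF β p d e) {l₀ : N →+ ZMod p} (h0 : l₀ ≠ 0) {x x' : X}
    (h : ∀ y, l₀ (β x y) = l₀ (β x' y)) : x = x' := by
  refine sub_eq_zero.1 ((hF.nd l₀ h0).1 _ fun y => ?_)
  rw [map_sub, AddMonoidHom.sub_apply, map_sub, h y, sub_self]

theorem core2 [Finite Y] (hB : Bil A β) (hF : BF β p d e) (F : Type) [Field F] [Finite F]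
    (e₁ : X ≃+ F) (l₀ : N →+ ZMod p) (h0 : l₀ ≠ 0) (w : (N →+ ZMod p) → F)
    (hw : ∀ l x y, l (β x y) = l₀ (β (e₁.symm (w l * e₁ x)) y))
    (hg : ∀ g : A, ∃ (c : F) (τ : F ≃+* F), ∀ l, w (tw l g) = c * τ (w l)) : BM β := by
  have := hB.ny
  obtain ⟨y₀, hy₀⟩ := exists_ne (0 : Y)
  let L : F →+ N := (β.flip y₀).comp e₁.symm.toAddMonoidHom
  have hL : ∀ t, L t = β (e₁.symm t) y₀ := fun _ => rfl
  let T : F →+ ZMod p := l₀.comp L
  have hT : ∀ t, T t = l₀ (β (e₁.symm t) y₀) := fun _ => rfl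
  have hT0 : ∃ t, T t ≠ 0 := by
    by_contra hn
    push Not at hn
    refine hy₀ ((hF.nd l₀ h0).2 y₀ fun x => ?_)
    have := hn (e₁ x)
    rwa [hT, e₁.symm_apply_apply] at this
  have hp0 : (p : F) = 0 := by
    have := congrArg e₁ (hF.tX (e₁.symm 1))
    rwa [map_nsmul, e₁.apply_symm_apply, map_zero, nsmul_eq_mul, mul_one] at this
  obtain ⟨hu, hex⟩ := dual_mul F p hF.prime hp0 T hT0
  choose c hc using fun y : Y => hex (l₀.comp ((β.flip y).comp e₁.symm.toAddMonoidHom))
  have hc' : ∀ y t, l₀ (β (e₁.symm t) y) = T (c y * t) := hc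
  let cY : Y →+ F := AddMonoidHom.mk' c fun y y' => by
    refine sub_eq_zero.1 (hu _ fun t => ?_)
    rw [sub_mul, add_mul, map_sub, map_add, ← hc', ← hc', ← hc', map_add, map_add, sub_self]
  have hinj : Function.Injective cY := by
    refine (injective_iff_map_eq_zero cY).2 fun y hy => (hF.nd l₀ h0).2 y fun x => ?_
    have hy' : c y = 0 := hy
    have := hc' y (e₁ x)
    rwa [e₁.symm_apply_apply, hy', zero_mul, map_zero] at this
  have hcard : Nat.card F ≤ Nat.card Y := by
    rw [← Nat.card_congr e₁.toEquiv, hF.cX, hF.cY]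
  let e₂ : Y ≃+ F := AddEquiv.ofBijective cY (hinj.bijective_of_nat_card_le hcard)
  have he₂ : ∀ y, e₂ y = c y := fun _ => rfl
  have hlL : ∀ (l : N →+ ZMod p) t, l (L t) = T (w l * t) := by
    intro l t
    rw [hL, hw, e₁.apply_symm_apply, hT]
  have hβ : ∀ x y, β x y = L (e₁ x * e₂ y) := by
    intro x y
    refine ext_sep hF fun l => ?_
    rw [hlL, hw, hc', he₂]
    refine congrArg T ?_
    ring
  have hs : Function.Surjective L := by
    intro z
    obtain ⟨x, hx⟩ := hB.sy y₀ hy₀ z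
    exact ⟨e₁ x, by rw [hL, e₁.symm_apply_apply]; exact hx⟩
  have hact : ∀ g : A, ∃ (a : F) (σ : F ≃+* F), ∀ t, L (a * σ t) = g • L t := by
    intro g
    obtain ⟨k, τ, hk⟩ := hg g
    obtain ⟨b, hb⟩ := hex (T.comp τ.toAddEquiv.toAddMonoidHom)
    have hb' : ∀ t, T (τ t) = T (b * t) := hb
    refine ⟨b * τ.symm k, τ.symm, fun t => ext_sep hF fun l => ?_⟩
    rw [← tw_apply, hlL, hlL, hk]
    have : k * τ (w l) * t = τ (w l * (τ.symm k * τ.symm t)) := by
      simp only [map_mul, RingEquiv.apply_symm_apply]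
      ring
    rw [this, hb']
    refine congrArg T ?_
    ring
  refine ⟨F, inferInstance, inferInstance, L.ker, fun x y => x * y, e₁, e₂,
    (QuotientAddGroup.quotientKerEquivOfSurjective L hs).symm,
    Or.inl ⟨fun _ _ => rfl, ?_, fun z hz z' hz' => ?_⟩, fun x y => ?_⟩
  · intro htop
    obtain ⟨t, ht⟩ := hT0
    have : L t = 0 := AddMonoidHom.mem_ker.1 (htop ▸ AddSubgroup.mem_top t)
    exact ht (by rw [hT, ← hL, this, map_zero])
  · obtain ⟨g, hgz⟩ := hB.tn (L z) (L z') (fun h => hz (AddMonoidHom.mem_ker.2 h))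
      (fun h => hz' (AddMonoidHom.mem_ker.2 h))
    obtain ⟨a, σ, ha⟩ := hact g
    refine ⟨a, σ, fun t => ?_, ?_⟩
    · rw [AddMonoidHom.mem_ker, AddMonoidHom.mem_ker, ha, smul_eq_zero_iff_eq]
    · rw [AddMonoidHom.mem_ker, map_sub, ha, hgz, sub_self]
  · rw [AddEquiv.symm_apply_eq, hβ]
    rfl

/-- The adjoint of a twisted functional. -/
theorem adj (hB : Bil A β) (hF : BF β p d e) {l₀ : N →+ ZMod p} (h0 : l₀ ≠ 0) (g : A)
    {l : N →+ ZMod p} {u v w : X → X} (hu : ∀ x y, tw l₀ g (β x y) = l₀ (β (u x) y))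
    (hv : ∀ x y, tw l g (β x y) = l₀ (β (v x) y)) (hw : ∀ x y, l (β x y) = l₀ (β (w x) y)) (x : X) :
    v x = u (g⁻¹ • w (g • x)) := by
  refine ext_nd hF h0 fun y => ?_
  rw [← hv, ← hu, tw_apply, tw_apply, ← hB.eqv, ← hB.eqv, smul_inv_smul, hw]

theorem core1 [Finite X] [Finite Y] (hE : EXP) (hB : Bil A β) (hF : BF β p d e) (K : Type) [Field K]
    [Finite K] (j : K →+* AddMonoid.End X) (l₀ : N →+ ZMod p) (h0 : l₀ ≠ 0)
    (hW : ∀ l : N →+ ZMod p, ∃ c : K, ∀ x y, l (β x y) = l₀ (β (j c x) y))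
    (hs : ∀ g : A, ∃ σ : K ≃+* K, ∀ c x, g • j c x = j (σ c) (g • x)) : BM β := by
  have := hB.nx
  have : Fact p.Prime := ⟨hF.prime⟩
  have : Nontrivial (AddMonoid.End X) := by
    obtain ⟨x, hx⟩ := exists_ne (0 : X)
    exact ⟨1, 0, fun h => hx (DFunLike.congr_fun h x)⟩
  have hj : Function.Injective j := j.injective
  have hp0 : (p : K) = 0 := by
    refine hj ?_
    rw [map_natCast, map_zero]
    refine AddMonoidHom.ext fun x => ?_
    exact hF.tX x
  have : CharP K p := (CharP.charP_iff_prime_eq_zero hF.prime).2 hp0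
  let : Module K X := Module.compHom X j
  have hsm : ∀ (c : K) (x : X), c • x = j c x := fun _ _ => rfl
  have : Module.Finite K X := Module.Finite.of_finite
  have : NeZero (Module.finrank K X) := ⟨Module.finrank_pos.ne'⟩
  let F := FiniteField.Extension K p (Module.finrank K X)
  let eX : X ≃ₗ[K] F := LinearEquiv.ofFinrankEq X F (FiniteField.finrank_extension K p _).symm
  choose W hW using hW
  have hK : p ^ Module.finrank (ZMod p) F = Nat.card F := FiniteField.pow_finrank_eq_natCard p F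
  refine core2 hB hF F eX.toAddEquiv l₀ h0 (fun l => algebraMap K F (W l)) (fun l x y => ?_)
    fun g => ?_
  · have : eX.toAddEquiv.symm (algebraMap K F (W l) * eX.toAddEquiv x) = j (W l) x := by
      rw [AddEquiv.symm_apply_eq, ← Algebra.smul_def, ← hsm]
      exact (eX.map_smul _ _).symm
    rw [this, hW]
  · obtain ⟨σ, hσ⟩ := hs g⁻¹
    let := ZMod.algebra K p
    obtain ⟨i, -, hi⟩ := (hE.frob K p _ hF.prime
      (FiniteField.pow_finrank_eq_natCard p K).symm).2.1 σ
    obtain ⟨τ, hτ⟩ := (hE.frob F p _ hF.prime hK.symm).2.2.1 i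
    refine ⟨algebraMap K F (W (tw l₀ g)), τ, fun l => ?_⟩
    rw [hτ, ← map_pow, ← hi, ← map_mul]
    refine congrArg _ (hj (AddMonoidHom.ext fun x => ?_))
    have := adj hB hF h0 g (hW (tw l₀ g)) (hW (tw l g)) (hW l) x
    rw [hσ, inv_smul_smul] at this
    rw [map_mul]
    exact this

/-- Conjugation of endomorphisms. -/
def cj (X : Type) [AddCommGroup X] [DistribMulAction A X] (g : A) :
    AddMonoid.End X →+* AddMonoid.End X where
  toFun w := DistribMulAction.toAddMonoidEnd A X g * w * DistribMulAction.toAddMonoidEnd A X g⁻¹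
  map_one' := by rw [mul_one, ← map_mul, mul_inv_cancel, map_one]
  map_mul' a b := by
    have : DistribMulAction.toAddMonoidEnd A X g⁻¹ * DistribMulAction.toAddMonoidEnd A X g = 1 := by
      rw [← map_mul, inv_mul_cancel, map_one]
    simp only [mul_assoc]
    rw [← mul_assoc (DistribMulAction.toAddMonoidEnd A X g⁻¹), this, one_mul]
  map_zero' := by rw [mul_zero, zero_mul]
  map_add' a b := by rw [mul_add, add_mul]

theorem cj_apply (g : A) (w : AddMonoid.End X) (x : X) : cj X g w x = g • w (g⁻¹ • x) := rfl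

end

theorem row : H33.OfIRR := by
  intro hE A X Y N _ _ _ _ _ _ _ _ _ _ _ _ β hB p d e hF ⟨R, l₀, h0, hR, hW⟩
  have := hB.nx
  obtain ⟨x₀, hx₀⟩ := exists_ne (0 : X)
  let S : Set (AddMonoid.End X) := {w | ∃ l : N →+ ZMod p, ∀ x y, l (β x y) = l₀ (β (w x) y)}
  have hSR : S ⊆ R := by
    rintro w ⟨l, hl⟩
    obtain ⟨w', hw', hl'⟩ := hW l
    have : w = w' := AddMonoidHom.ext fun x => ext_nd hF h0 fun y => (hl x y).symm.trans (hl' x y)
    exact this ▸ hw'
  let K : Subring (AddMonoid.End X) := Subring.closure S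
  have hKR : K ≤ R := Subring.closure_le.2 hSR
  have : Finite (AddMonoid.End X) := DFunLike.finite _
  have : Nontrivial (AddMonoid.End X) := ⟨1, 0, fun h => hx₀ (DFunLike.congr_fun h x₀)⟩
  have : NoZeroDivisors K := ⟨fun {a b} h => by
    rcases hR a.1 (hKR a.2) with ha | ha
    · exact Or.inl (Subtype.ext ha)
    · refine Or.inr (Subtype.ext (AddMonoidHom.ext fun x => ha ?_))
      have h1 : a.1 * b.1 = 0 := congrArg Subtype.val h
      have h2 : a.1 (b.1 x) = 0 := DFunLike.congr_fun h1 x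
      exact h2.trans (map_zero a.1).symm⟩
  have : IsDomain K := NoZeroDivisors.to_isDomain K
  have hK : IsField K := Finite.isDomain_to_isField K
  have hW' : ∀ l : N →+ ZMod p, ∃ c : K, ∀ x y, l (β x y) = l₀ (β (c.1 x) y) := by
    intro l
    obtain ⟨w, -, hw⟩ := hW l
    exact ⟨⟨w, Subring.subset_closure ⟨l, hw⟩⟩, hw⟩
  have hcj : ∀ g : A, ∀ w ∈ K, cj X g w ∈ K := by
    intro g
    show K ≤ K.comap (cj X g)
    refine Subring.closure_le.2 ?_
    rintro w ⟨l, hl⟩
    obtain ⟨u, hu⟩ := hW' (tw l₀ g⁻¹)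
    obtain ⟨v, hv⟩ := hW' (tw l g⁻¹)
    have hu0 : u ≠ 0 := by
      rintro rfl
      refine h0 (AddMonoidHom.ext fun z => ?_)
      obtain ⟨y, hy⟩ := hB.sx x₀ hx₀ (g • z)
      have := hu x₀ y
      rw [tw_apply, hy, inv_smul_smul] at this
      rw [this]
      show l₀ (β 0 y) = 0
      rw [map_zero, AddMonoidHom.zero_apply, map_zero]
    obtain ⟨u', hu'⟩ := hK.mul_inv_cancel hu0
    rw [hK.mul_comm] at hu'
    have h1 : v.1 = u.1 * cj X g w := AddMonoidHom.ext fun x => by
      have := adj hB hF h0 g⁻¹ hu hv hl x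
      rw [inv_inv] at this
      exact this
    have h2 : u'.1 * u.1 = 1 := congrArg Subtype.val hu'
    have h3 : cj X g w = u'.1 * v.1 := by rw [h1, ← mul_assoc, h2, one_mul]
    show cj X g w ∈ K
    rw [h3]
    exact K.mul_mem u'.2 v.2
  let : Field K := hK.toField
  refine core1 hE hB hF K K.subtype l₀ h0 hW' fun g => ?_
  let φ : K →+* K := ((cj X g).comp K.subtype).codRestrict K fun w => hcj g w.1 w.2
  have hφ : Function.Bijective φ := Finite.injective_iff_bijective.1 φ.injective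
  refine ⟨RingEquiv.ofBijective φ hφ, fun c x => ?_⟩
  show g • c.1 x = cj X g c.1 (g • x)
  rw [cj_apply, inv_smul_smul]

end Pool.Agent.MP_f8e15f_co.RIRR
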