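import Pool.Agent.MP_f8e15f_co.H33.Spec2

/-! Basic facts on translation nets. -/

open MulAction Pointwise

namespace Pool.Agent.MP_f8e15f_co.RN0

open H33 H24

variable {G V : Type} [Group G] [AddCommGroup V] [DistribMulAction G V] {𝓜 : Set (AddSubgroup V)}

theorem card_smul (g : G) (L : AddSubgroup V) : Nat.card (g • L : AddSubgroup V) = Nat.card L :=
  (Nat.card_coe_set_eq (g • (L : Set V))).trans
    ((Set.ncard_smul_set g _).trans (Nat.card_coe_set_eq (L : Set V)).symm)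

theorem card_compl {L L' : AddSubgroup V} (h : IsCompl L L') :
    Nat.card V = Nat.card L * Nat.card L' := by
  rw [← Nat.card_prod]
  refine (Nat.card_eq_of_bijective (fun x : L × L' => (x.1 : V) + x.2) ⟨?_, fun v => ?_⟩).symm
  · rintro ⟨x, y⟩ ⟨x', y'⟩ e
    have e' : (x : V) - x' = y' - y := sub_eq_sub_iff_add_eq_add.2 (e.trans (add_comm _ _))
    have h0 : (x : V) - x' = 0 := AddSubgroup.disjoint_def.1 h.disjoint (L.sub_mem x.2 x'.2)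
      (e' ▸ L'.sub_mem y'.2 y.2)
    exact Prod.ext (Subtype.ext (sub_eq_zero.1 h0)) (Subtype.ext (sub_eq_zero.1 (e' ▸ h0)).symm)
  · obtain ⟨x, hx, y, hy, e⟩ := AddSubgroup.mem_sup.1 (h.sup_eq_top ▸ AddSubgroup.mem_top v)
    exact ⟨(⟨x, hx⟩, ⟨y, hy⟩), e⟩

theorem dvd_card {W : Set V} {v : V} (h1 : ∀ g : G, g • v ∈ W)
    (h2 : ∀ w ∈ W, ∃ g : G, g • v = w) : W.ncard ∣ Nat.card G := by
  have : orbit G v = W := Set.ext fun w => ⟨by rintro ⟨g, rfl⟩; exact h1 g, h2 w⟩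
  rw [← this, ← index_stabilizer]
  exact Subgroup.index_dvd_card _

/-- The action on the components. -/
@[reducible] def act (h : ∀ g : G, ∀ M ∈ 𝓜, g • M ∈ 𝓜) : MulAction G 𝓜 where
  smul g L := ⟨g • L.1, h g _ L.2⟩
  one_smul L := Subtype.ext (one_smul G L.1)
  mul_smul g g' L := Subtype.ext (mul_smul g g' L.1)

theorem row : OfN0 := by
  intro hT hH G V _ _ _ _ _ _ 𝓜 h
  have hf : 𝓜.Finite := Set.toFinite _
  have h3 := h.three
  have hc : ∀ L ∈ 𝓜, ∀ L' ∈ 𝓜, L ≠ L' → IsCompl L L' := fun L a L' b c =>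
    ⟨disjoint_iff.2 (h.inf L a L' b c), codisjoint_iff.2 (h.sup L a L' b c)⟩
  have hz : ∀ L ∈ 𝓜, ∀ L' ∈ 𝓜, ∀ v ∈ L, v ∈ L' → v ≠ 0 → L = L' := fun L a L' b v c d e =>
    by_contra fun n => e (AddSubgroup.disjoint_def.1 (hc L a L' b n).disjoint c d)
  have oth : ∀ L ∈ 𝓜, ∃ A ∈ 𝓜, ∃ B ∈ 𝓜, A ≠ L ∧ B ≠ L ∧ A ≠ B := fun L a => by
    obtain ⟨A, hA, B, hB, e⟩ := (Set.one_lt_ncard (s := 𝓜 \ {L})).1 (by
      rw [Set.ncard_sdiff_singleton_of_mem a]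
      omega)
    exact ⟨A, hA.1, B, hB.1, hA.2, hB.2, e⟩
  have tr : ∀ L ∈ 𝓜, ∀ L' ∈ 𝓜, ∃ g : G, g • L = L' := fun L a L' b => by
    obtain ⟨A, hA, -, -, e, -⟩ := oth L a
    obtain ⟨B, hB, -, -, e', -⟩ := oth L' b
    exact (h.two L a A hA L' b B hB e.symm e'.symm).imp fun _ => And.left
  have cd : ∀ L ∈ 𝓜, ∀ L' ∈ 𝓜, Nat.card L' = Nat.card L := fun L a L' b => by
    obtain ⟨g, rfl⟩ := tr L a L' b
    exact card_smul g L
  have nb : ∀ L ∈ 𝓜, L ≠ ⊥ := fun L a e => by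
    obtain ⟨A, hA, -, -, e', -⟩ := oth L a
    refine e' (e ▸ AddSubgroup.card_eq_one.1 ?_)
    rw [cd L a A hA, e, AddSubgroup.card_bot]
  obtain ⟨L₀, h0, L₁, h1, h01⟩ := h.ex
  obtain ⟨⟨v₀, hv₀⟩, hv⟩ := AddSubgroup.ne_bot_iff_exists_ne_zero.1 (nb L₀ h0)
  replace hv : v₀ ≠ 0 := fun e => hv (Subtype.ext e)
  have : Nontrivial V := ⟨v₀, 0, hv⟩
  obtain ⟨p, d, hp, -, hd, tor⟩ := hH.el G V h.irr
  have cV := card_compl (hc L₀ h0 L₁ h1 h01)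
  rw [cd L₀ h0 L₁ h1] at cV
  obtain ⟨e, -, he⟩ := (Nat.dvd_prime_pow hp).1 (hd ▸ Dvd.intro _ cV.symm)
  have e1 : 1 ≤ e := Nat.pos_of_ne_zero fun c =>
    nb L₀ h0 (AddSubgroup.card_eq_one.1 (by rw [he, c, pow_zero]))
  have n2 : 1 < p ^ e := Nat.one_lt_pow (by omega) hp.one_lt
  have cL : ∀ L ∈ 𝓜, Nat.card L = p ^ e := fun L a => (cd L₀ h0 L a).trans he
  rw [he, ← sq] at cV
  have c1 : (O1 𝓜).ncard = 𝓜.ncard * (p ^ e - 1) := by
    have : O1 𝓜 = ⋃ L ∈ 𝓜, (L : Set V) \ {0} := by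
      ext v
      rw [Set.mem_iUnion₂]
      exact ⟨fun ⟨a, L, x, y⟩ => ⟨L, x, y, a⟩, fun ⟨L, x, y, a⟩ => ⟨a, L, x, y⟩⟩
    rw [this, hf.ncard_biUnion (fun _ _ => Set.toFinite _) fun L a L' b c =>
      Set.disjoint_left.2 fun v x y => c (hz L a L' b v x.1 y.1 x.2),
      finsum_mem_congr rfl (g := fun _ => p ^ e - 1) fun L a => by
        rw [Set.ncard_sdiff_singleton_of_mem L.zero_mem, ← cL L a, ← Nat.card_coe_set_eq]
        rfl,
      finsum_mem_eq_finite_toFinset_sum _ hf, Finset.sum_const, Set.ncard_eq_toFinset_card _ hf,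
      smul_eq_mul]
  have un : O1 𝓜 ∪ O2 𝓜 = {0}ᶜ := by
    ext v
    refine ⟨?_, fun a => ?_⟩
    · rintro (a | a)
      · exact a.1
      · rintro rfl
        exact a L₀ h0 L₀.zero_mem
    · by_cases c : ∃ L ∈ 𝓜, v ∈ L
      · exact Or.inl ⟨a, c⟩
      · exact Or.inr fun L x y => c ⟨L, x, y⟩
  have cs : 𝓜.ncard * (p ^ e - 1) + (O2 𝓜).ncard = (p ^ e + 1) * (p ^ e - 1) := by
    have dj : Disjoint (O1 𝓜) (O2 𝓜) := Set.disjoint_left.2 fun v ⟨_, L, x, y⟩ z => z L x y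
    rw [← c1, ← Set.ncard_union_eq dj, un,
      Set.ncard_compl, cV, Set.ncard_singleton, ← Nat.sq_sub_sq, one_pow]
  have le : 𝓜.ncard ≤ p ^ e + 1 :=
    Nat.le_of_mul_le_mul_right (cs ▸ Nat.le_add_right _ _) (by omega)
  have c2 : (O2 𝓜).ncard = (p ^ e - 1) * (p ^ e + 1 - 𝓜.ncard) := by
    rw [mul_comm, Nat.sub_mul, ← cs, Nat.add_sub_cancel_left]
  have i1 : ∀ g : G, ∀ v ∈ O1 𝓜, g • v ∈ O1 𝓜 := fun g v ⟨a, L, x, y⟩ =>
    ⟨(smul_ne_zero_iff_ne g).2 a, _, h.perm g L x, AddSubgroup.smul_mem_pointwise_smul _ _ _ y⟩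
  have i2 : ∀ g : G, ∀ v ∈ O2 𝓜, g • v ∈ O2 𝓜 := fun g v a L x y =>
    a _ (h.perm g⁻¹ L x) (AddSubgroup.mem_inv_pointwise_smul_iff.2 y)
  have t1 : ∀ v ∈ O1 𝓜, ∀ w ∈ O1 𝓜, ∃ g : G, g • v = w := fun v ⟨a, L, x, y⟩ w ⟨a', L', x', y'⟩ =>
    h.t1 L x L' x' v y w y' a a'
  have t2 : ∀ v ∈ O2 𝓜, ∀ w ∈ O2 𝓜, ∃ g : G, g • v = w := fun v a w b => h.t2 v w a b
  have mk : ∀ k : G, k ∈ Kn G 𝓜 ↔ ∀ L ∈ 𝓜, k • L = L := fun k => by
    simp [Kn, Subgroup.mem_iInf]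
  have mem : ∀ k : G, k ∈ Kn G 𝓜 ↔ ∀ L ∈ 𝓜, ∀ v ∈ L, k • v ∈ L := fun k => by
    refine (mk k).trans (forall₂_congr fun L _ => ⟨fun a v b => ?_, fun a => ?_⟩)
    · exact a ▸ AddSubgroup.smul_mem_pointwise_smul _ _ _ b
    · refine AddSubgroup.eq_of_le_of_card_ge (fun v b => ?_) (card_smul k L).ge
      obtain ⟨w, c, rfl⟩ := (AddSubgroup.mem_smul_pointwise_iff_exists _ _ _).1 b
      exact a w c
  let := act h.perm
  have two : Two G 𝓜 := fun a b a' b' x y => (h.two _ a.2 _ b.2 _ a'.2 _ b'.2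
    (fun e => x (Subtype.ext e)) fun e => y (Subtype.ext e)).imp fun g e =>
      ⟨Subtype.ext e.1, Subtype.ext e.2⟩
  have ker : (toPermHom G 𝓜).ker = Kn G 𝓜 := by
    ext k
    rw [mk, MonoidHom.mem_ker, Equiv.ext_iff]
    exact ⟨fun a L b => congrArg Subtype.val (a ⟨L, b⟩), fun a L => Subtype.ext (a L.1 L.2)⟩
  have : Nontrivial 𝓜 := ⟨⟨L₀, h0⟩, ⟨L₁, h1⟩, fun e => h01 (congrArg Subtype.val e)⟩
  have F := hT G 𝓜 two
  have st : ∀ L : 𝓜, stabilizer G L = stabilizer G L.1 := fun L =>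
    Subgroup.ext fun g => Subtype.ext_iff
  refine ⟨p, e, hp, e1, tor, cL, cV, nb, hc, le, F.pp, c1, c2, ?_, ?_, fun W a b => ?_,
    fun x y z a b c => ?_, mem, ker ▸ MonoidHom.normal_ker _, ker ▸ F.dvd, ker ▸ F.fac,
    fun L a k b c => ?_, fun L a v b w c x y => ?_, fun L a => ?_, fun M a b L x L' y => ?_,
    fun L a H b => ?_, ?_, _, fun _ _ => rfl, two, ker⟩
  · have : v₀ ∈ O1 𝓜 := ⟨hv, L₀, h0, hv₀⟩
    exact c1 ▸ dvd_card (fun g => i1 g _ this) (t1 _ this)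
  · rcases (O2 𝓜).eq_empty_or_nonempty with c | ⟨v, c⟩
    · rw [c, Set.ncard_empty, add_zero] at cs
      exact Or.inl (Nat.eq_of_mul_eq_mul_right (by omega) cs)
    · exact Or.inr (c2 ▸ dvd_card (fun g => i2 g _ c) (t2 _ c))
  · have s : W ⊆ O1 𝓜 ∪ O2 𝓜 := un ▸ Set.subset_compl_singleton_iff.2 b
    have k : ∀ O : Set V, (∀ v ∈ O, ∀ w ∈ O, ∃ g : G, g • v = w) →
        O ⊆ W ∨ ∀ v ∈ W, v ∉ O := fun O t => by
      refine or_iff_not_imp_right.2 fun c w x => ?_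
      push Not at c
      obtain ⟨v, y, z⟩ := c
      obtain ⟨g, rfl⟩ := t v z w x
      exact a g v y
    rcases k _ t1 with x | x <;> rcases k _ t2 with y | y
    · exact Or.inr (Or.inr (Or.inr (un ▸ s.antisymm (Set.union_subset x y))))
    · exact Or.inr (Or.inl (Set.Subset.antisymm (fun v c => (s c).resolve_right (y v c)) x))
    · exact Or.inr (Or.inr (Or.inl
        (Set.Subset.antisymm (fun v c => (s c).resolve_left (x v c)) y)))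
    · exact Or.inl (Set.eq_empty_of_forall_notMem fun v c => (s c).elim (x v c) (y v c))
  · have k : ∀ v : V, v ≠ 0 → v ∈ O1 𝓜 ∪ O2 𝓜 := fun v c => un ▸ c
    rcases k x a with a | a <;> rcases k y b with b | b <;> rcases k z c with c | c
    exacts [.inl (t1 _ a _ b), .inl (t1 _ a _ b), .inr (.inl (t1 _ a _ c)),
      .inr (.inr (t2 _ b _ c)), .inr (.inr (t1 _ b _ c)), .inr (.inl (t2 _ a _ c)),
      .inl (t2 _ a _ b), .inl (t2 _ a _ b)]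
  · obtain ⟨A, hA, B, hB, x, y, z⟩ := oth L a
    have dec : ∀ M ∈ 𝓜, M ≠ L → ∀ v, ∃ s ∈ M, ∃ t ∈ L, s + t = v := fun M i j v =>
      AddSubgroup.mem_sup.1 (h.sup M i L a j ▸ AddSubgroup.mem_top v)
    have fB : ∀ v ∈ B, k • v = v := fun v i => by
      obtain ⟨s, j, t, l, rfl⟩ := dec A hA x v
      refine sub_eq_zero.1 (AddSubgroup.disjoint_def.1 (hc A hA B hB z).disjoint ?_
        (B.sub_mem ((mem k).1 b B hB _ i) i))
      rw [smul_add, c t l, add_sub_add_right_eq_sub]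
      exact A.sub_mem ((mem k).1 b A hA _ j) j
    refine h.faith k fun v => ?_
    obtain ⟨s, j, t, l, rfl⟩ := dec B hB y v
    rw [smul_add, c t l, fB s j]
  · obtain ⟨g, rfl⟩ := h.t1 L a L a v b w c x y
    exact ⟨g, hz _ (h.perm g L a) L a _ (AddSubgroup.smul_mem_pointwise_smul _ _ _ b) c y, rfl⟩
  · rw [index_stabilizer]
    congr 1
    exact Set.ext fun M => ⟨by rintro ⟨g, rfl⟩; exact h.perm g L a, tr L a M⟩
  · obtain ⟨m, i, j⟩ := F.ntr M a (by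
      by_contra c
      push Not at c
      exact b fun m i => (mk m).2 fun L j => congrArg Subtype.val (c m i ⟨L, j⟩)) ⟨L, x⟩ ⟨L', y⟩
    exact ⟨m, i, congrArg Subtype.val j⟩
  · have := F.max ⟨L, a⟩ H
    rw [st] at this
    exact this b
  · obtain ⟨S, -, a, b, t, j, c, x, y⟩ := F.aff
    exact ⟨S, fun L i L' i' => (a ⟨L, i⟩ ⟨L', i'⟩).imp fun s k => ⟨k.1, congrArg Subtype.val k.2⟩,
      fun s i s' i' L k => congrArg Subtype.val (b s i s' i' ⟨L, k⟩), t, j, c, x,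
      fun s i L k => congrArg Subtype.val (y s i ⟨L, k⟩)⟩

end Pool.Agent.MP_f8e15f_co.RN0
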