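import Pool.Agent.MP_f8e15f_co.H33.Spec2

/-! The stabiliser of a component is not one-dimensional when there are many components. -/

open MulAction Pointwise
open scoped IsMulCommutative

namespace Pool.Agent.MP_f8e15f_co.RNA2

open Pool.Agent.MP_f8e15f_co.H33 Pool.Agent.MP_f8e15f_co.H24

/-- The commutator pairing of a group of class two. -/
theorem pairing {Γ : Type} [Group Γ]
    (hc : ∀ x y z : Γ, x * y * x⁻¹ * y⁻¹ * z = z * (x * y * x⁻¹ * y⁻¹)) :
    ∃ β : Γ →* Γ →* Subgroup.center Γ, ∀ x y, (β x y : Γ) = x * y * x⁻¹ * y⁻¹ := by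
  refine ⟨MonoidHom.mk' (fun x => MonoidHom.mk'
    (fun y => ⟨x * y * x⁻¹ * y⁻¹, Subgroup.mem_center_iff.2 fun z => (hc x y z).symm⟩)
    fun y y' => Subtype.ext ?_) fun x x' => MonoidHom.ext fun y => Subtype.ext ?_, fun _ _ => rfl⟩
  · show x * (y * y') * x⁻¹ * (y * y')⁻¹ = x * y * x⁻¹ * y⁻¹ * (x * y' * x⁻¹ * y'⁻¹)
    calc _ = x * y * x⁻¹ * (x * y' * x⁻¹ * y'⁻¹ * y⁻¹) := by group
      _ = _ := by rw [hc x y' y⁻¹]; group
  · show x * x' * y * (x * x')⁻¹ * y⁻¹ = x * y * x⁻¹ * y⁻¹ * (x' * y * x'⁻¹ * y⁻¹)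
    calc _ = x * (x' * y * x'⁻¹ * y⁻¹ * (y * x⁻¹ * y⁻¹)) := by group
      _ = _ := by rw [hc x' y (y * x⁻¹ * y⁻¹)]; group

theorem slope {Γ : Type} [Group Γ] {t : ℕ} (ht : t.Prime)
    (hc : ∀ x y z : Γ, x * y * x⁻¹ * y⁻¹ * z = z * (x * y * x⁻¹ * y⁻¹))
    (hp : ∀ x z : Γ, x ^ t * z = z * x ^ t) {a b : Γ} (hg : ∀ x, ∃ i j : ℤ, x = a ^ i * b ^ j)
    (hn : a * b ≠ b * a) : ∃ s : Γ → Option (ZMod t), ∀ x y, (∃ z, x * z ≠ z * x) →
      (∃ z, y * z ≠ z * y) → (x * y = y * x ↔ s x = s y) := by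
  have := Fact.mk ht
  obtain ⟨β, hβ⟩ := pairing hc
  have h1 : ∀ x y, β x y = 1 ↔ x * y = y * x := fun x y => by
    rw [← Subtype.coe_inj, hβ, OneMemClass.coe_one, mul_inv_eq_one, mul_inv_eq_iff_eq_mul]
  have h2 : orderOf (β a b) = t := orderOf_eq_prime
    (by rw [← MonoidHom.pow_apply, ← map_pow, h1, hp]) (mt (h1 _ _).1 hn)
  have h3 : β b a = (β a b)⁻¹ := Subtype.ext (by rw [Subgroup.coe_inv, hβ, hβ]; group)
  choose i j hij using hg
  have h4 : ∀ x y, x * y = y * x ↔ (i x : ZMod t) * j y = j x * i y := fun x y => by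
    have : β x y = β a b ^ (i x * j y - j x * i y) := by
      conv_lhs => rw [hij x, hij y]
      simp only [map_mul, map_zpow, MonoidHom.mul_apply, MonoidHom.zpow_apply, (h1 a a).2 rfl,
        (h1 b b).2 rfl, h3, one_zpow, one_mul, mul_one, inv_zpow', ← zpow_mul,
        ← zpow_add]
      congr 1
      ring
    rw [← h1, this, ← orderOf_dvd_iff_zpow_eq_one, h2, ← ZMod.intCast_zmod_eq_zero_iff_dvd]
    push_cast
    exact sub_eq_zero
  have h5 : ∀ x, (∃ z, x * z ≠ z * x) → (j x : ZMod t) = 0 → (i x : ZMod t) ≠ 0 := by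
    rintro x ⟨z, hz⟩ a1 a2
    exact hz ((h4 x z).2 (by rw [a1, a2, zero_mul, zero_mul]))
  classical
  refine ⟨fun x => if (j x : ZMod t) = 0 then none else some ((i x : ZMod t) / j x),
    fun x y hx hy => ?_⟩
  rw [h4]
  by_cases a1 : (j x : ZMod t) = 0 <;> by_cases a2 : (j y : ZMod t) = 0
  · simp [a1, a2]
  · simp [a1, a2, h5 x hx a1]
  · simp [a1, a2, h5 y hy a2]
  · simp only [a1, a2, if_false, Option.some_inj]
    rw [div_eq_div_iff a1 a2, mul_comm (i y : ZMod t)]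

theorem core {G : Type} [Group G] [Finite G] {K E H : Subgroup G} {t : ℕ} (h : KS K E t) {a b : G}
    (ha : a ∈ E) (hb : b ∈ E) (hg : ∀ x ∈ E, ∃ i j : ℤ, x = a ^ i * b ^ j)
    (hH : ∀ g ∈ H, ∃ i : ℤ, g * a * g⁻¹ = a ^ i) (hm : ∀ H', H ≤ H' → H' = H ∨ H' = ⊤) :
    H.index ≤ t + 1 := by
  have := Fact.mk h.prime
  have hn : a * b ≠ b * a := fun e => h.nab fun x hx y hy => by
    obtain ⟨i, j, rfl⟩ := hg x hx
    obtain ⟨k, l, rfl⟩ := hg y hy
    have e' : Commute a b := e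
    exact Commute.mul_left (Commute.mul_right (Commute.zpow_zpow_self a i k) (e'.zpow_zpow i l))
      (Commute.mul_right (e'.symm.zpow_zpow j k) (Commute.zpow_zpow_self b j l))
  obtain ⟨s, hs⟩ := slope (Γ := E) h.prime (fun x y z => Subtype.ext (h.comm _ x.2 _ y.2 _ z.2))
    (fun x z => Subtype.ext (h.pow _ x.2 _ z.2)) (a := ⟨a, ha⟩) (b := ⟨b, hb⟩)
    (fun x => (hg x x.2).imp fun i h => h.imp fun j h => Subtype.ext h)
    fun e => hn (congrArg Subtype.val e)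
  have nc : ∀ g : G, ∃ z : E, (⟨g * a * g⁻¹, h.norm.conj_mem a ha g⟩ : E) * z ≠
      z * ⟨g * a * g⁻¹, h.norm.conj_mem a ha g⟩ := fun g =>
    ⟨⟨g * b * g⁻¹, h.norm.conj_mem b hb g⟩, fun e => hn (by
      have := congrArg Subtype.val e
      simpa only [Subgroup.coe_mul, conj_mul, mul_left_inj, mul_right_inj] using this)⟩
  have tr : ∀ x ∈ E, ∀ y ∈ E, ∀ g : G, x * (g * a * g⁻¹) = g * a * g⁻¹ * x →
      y * (g * a * g⁻¹) = g * a * g⁻¹ * y → x * y = y * x := by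
    intro x hx y hy g e1 e2
    by_contra e
    have a1 : ∃ z : E, (⟨x, hx⟩ : E) * z ≠ z * ⟨x, hx⟩ :=
      ⟨⟨y, hy⟩, fun c => e (congrArg Subtype.val c)⟩
    have a2 : ∃ z : E, (⟨y, hy⟩ : E) * z ≠ z * ⟨y, hy⟩ :=
      ⟨⟨x, hx⟩, fun c => e (congrArg Subtype.val c).symm⟩
    exact e (congrArg Subtype.val ((hs _ _ a1 a2).2 (((hs _ _ a1 (nc g)).1 (Subtype.ext e1)).trans
      ((hs _ _ a2 (nc g)).1 (Subtype.ext e2)).symm)))
  set l : Subgroup G := E ⊓ Subgroup.centralizer {a} with hl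
  have ml : ∀ x, x ∈ l ↔ x ∈ E ∧ x * a = a * x := fun x => by
    rw [hl, Subgroup.mem_inf, Subgroup.mem_centralizer_singleton_iff]
  have nl : ∀ u : G, a * (u * a * u⁻¹) = u * a * u⁻¹ * a → u ∈ Subgroup.normalizer (l : Set G) :=
    fun u e => Subgroup.mem_normalizer_fintype fun x hx => by
      obtain ⟨x1, x2⟩ := (ml x).1 hx
      refine (ml _).2 ⟨h.norm.conj_mem x x1 u, tr _ (h.norm.conj_mem x x1 u) a ha u ?_ e⟩
      rw [conj_mul, conj_mul, x2]
  have hN : Subgroup.normalizer (l : Set G) = H := by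
    refine (hm _ fun g hg => nl g ?_).resolve_right fun e => hn ?_
    · obtain ⟨i, hi⟩ := hH g hg
      rw [hi]
      exact Commute.self_zpow a i
    · refine h.max l (Subgroup.normalizer_eq_top_iff.1 e) inf_le_left (fun x hx y hy => ?_) a
        ((ml a).2 ⟨ha, rfl⟩) b hb
      exact tr x ((ml x).1 hx).1 y ((ml y).1 hy).1 1 (by simpa using ((ml x).1 hx).2)
        (by simpa using ((ml y).1 hy).2)
  have inj : Function.Injective fun q : G ⧸ H =>
      s ⟨q.out * a * q.out⁻¹, h.norm.conj_mem a ha q.out⟩ := fun q q' e => by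
    have e1 := congrArg Subtype.val ((hs _ _ (nc _) (nc _)).2 e)
    rw [← q.out_eq', ← q'.out_eq', QuotientGroup.eq]
    refine hN.le (nl _ ?_)
    calc _ = q.out⁻¹ * (q.out * a * q.out⁻¹ * (q'.out * a * q'.out⁻¹)) * q.out := by group
      _ = _ := by rw [show q.out * a * q.out⁻¹ * (q'.out * a * q'.out⁻¹) = _ from e1]; simp; group
  simpa [Subgroup.index] using Nat.card_le_card_of_injective _ inj

theorem gens {H A : Type} [Group H] [Group A] [IsCyclic A] (σ : H →* A) (E : Subgroup H)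
    (hE : E.Normal) (hc : IsCyclic (E ⊓ σ.ker : Subgroup H)) : ∃ a ∈ E, ∃ b ∈ E,
    (∀ x ∈ E, ∃ i j : ℤ, x = a ^ i * b ^ j) ∧ ∀ g, ∃ i : ℤ, g * a * g⁻¹ = a ^ i := by
  obtain ⟨a, ha⟩ := (Subgroup.isCyclic_iff_exists_zpowers_eq_top _).1 hc
  obtain ⟨c, hc⟩ := (Subgroup.isCyclic_iff_exists_zpowers_eq_top (E.map σ)).1 inferInstance
  obtain ⟨b, hb, rfl⟩ : c ∈ E.map σ := hc ▸ Subgroup.mem_zpowers c
  have a1 : a ∈ E ⊓ σ.ker := ha ▸ Subgroup.mem_zpowers a
  refine ⟨a, a1.1, b, hb, fun x hx => ?_, fun g => ?_⟩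
  · obtain ⟨j, hj⟩ : σ x ∈ Subgroup.zpowers (σ b) := hc ▸ Subgroup.mem_map_of_mem σ hx
    obtain ⟨i, hi⟩ : x * (b ^ j)⁻¹ ∈ Subgroup.zpowers a := ha ▸
      ⟨E.mul_mem hx (E.inv_mem (E.zpow_mem hb j)), by simp [← hj]⟩
    exact ⟨i, j, by simp [hi]⟩
  · obtain ⟨i, hi⟩ : g * a * g⁻¹ ∈ Subgroup.zpowers a := ha ▸
      ⟨hE.conj_mem a a1.1 g, σ.normal_ker.conj_mem a a1.2 g⟩
    exact ⟨i, hi.symm⟩

theorem row : OfNA2 := by
  intro hE hH G V _ _ _ _ _ _ 𝓜 _ p e hF E t hK hr L hL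
  have st : ∀ g ∈ stabilizer G L, ∀ x ∈ L, g • x ∈ L := fun g hg x hx => by
    have := AddSubgroup.smul_mem_pointwise_smul x g L hx
    rwa [mem_stabilizer_iff.1 hg] at this
  refine (hH.sub G V (stabilizer G L) L p e hF.prime (hF.ne L hL) (hF.cL L hL) st
    (fun x hx y hy => hF.stab L hL x hx y hy)).resolve_left ?_
  rintro ⟨-, F, _, _, ε, hε⟩
  choose c σ h using fun g : stabilizer G L => hε g g.2
  have h1 : ∀ (g : stabilizer G L) (u : F),
      ε ⟨g.1 • (ε.symm u : V), st _ g.2 _ (ε.symm u).2⟩ = c g * σ g u := fun g u => by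
    rw [h g (ε.symm u) _ rfl, ε.apply_symm_apply]
  have h2 : ∀ g, c g ≠ 0 := fun g e0 => by
    have := h1 g 1
    rw [e0, zero_mul, map_eq_zero_iff _ ε.injective, Subtype.ext_iff] at this
    exact one_ne_zero (ε.symm.map_eq_zero_iff.1 (Subtype.ext ((smul_eq_zero_iff_eq _).1 this)))
  have h3 : ∀ g g' u, c (g * g') * σ (g * g') u = c g * σ g (c g' * σ g' u) := fun g g' u => by
    rw [← h1 g', ← h g _ ⟨_, st _ g.2 _ (st _ g'.2 _ (ε.symm u).2)⟩ rfl, ← h1]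
    simp only [Subgroup.coe_mul, mul_smul]
  have h4 : ∀ g g', c (g * g') = c g * σ g (c g') := fun g g' => by simpa using h3 g g' 1
  let τ : stabilizer G L →* RingAut F := MonoidHom.mk' σ fun g g' => RingEquiv.ext fun u =>
    mul_left_cancel₀ (h2 (g * g')) (by rw [h3, h4, map_mul, mul_assoc]; rfl)
  have cF : Nat.card F = p ^ e := (Nat.card_congr ε.toEquiv).symm.trans (hF.cL L hL)
  obtain ⟨-, f1, f2, -⟩ := hE.frob F p e hF.prime cF
  obtain ⟨φ, hφ⟩ := f2 1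
  have cyc : IsCyclic (RingAut F) := ⟨⟨φ, fun ψ => by
    obtain ⟨i, -, hi⟩ := f1 ψ
    refine ⟨i, RingEquiv.ext fun x => ?_⟩
    have : ∀ (n : ℕ) (x : F), (φ ^ n : RingAut F) x = x ^ p ^ n := fun n => by
      induction n with
      | zero => intro x; simp
      | succ n ih =>
        intro x
        rw [pow_succ, RingAut.mul_apply, ih, hφ, ← pow_mul, pow_one, pow_succ']
    simp only [zpow_natCast, this, hi]⟩⟩
  have le : E ≤ stabilizer G L := hK.le.trans (biInf_le (fun L => stabilizer G L) hL)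
  have cy : IsCyclic (E.subgroupOf (stabilizer G L) ⊓ τ.ker : Subgroup (stabilizer G L)) := by
    have k : ∀ g : (E.subgroupOf (stabilizer G L) ⊓ τ.ker : Subgroup (stabilizer G L)),
        σ g.1 = 1 := fun g => g.2.2
    refine isCyclic_of_injective_ringHom (R := F)
      { toFun := fun g => c g.1
        map_one' := mul_left_cancel₀ (h2 1) (by
          have := h4 1 1
          rw [mul_one, show σ 1 = 1 from τ.map_one] at this
          simpa using this.symm)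
        map_mul' := fun g g' => by simp [h4, k] } ((injective_iff_map_eq_one _).2 fun g e1 => ?_)
    refine Subtype.ext (Subtype.ext (hF.kf L hL _ (hK.le g.2.1) fun v hv => ?_))
    have := h1 g.1 (ε ⟨v, hv⟩)
    rw [show c g.1 = 1 from e1, k, one_mul] at this
    simpa using congrArg Subtype.val (ε.injective this)
  obtain ⟨a, ha, b, hb, g1, g2⟩ := gens τ _ (hK.norm.subgroupOf _) cy
  have := core (H := stabilizer G L) hK (a := a) (b := b) ha hb
    (fun x hx => (g1 ⟨x, le hx⟩ hx).imp fun i h => h.imp fun j h => congrArg Subtype.val h)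
    (fun g hg => (g2 ⟨g, hg⟩).imp fun i h => congrArg Subtype.val h) (hF.max L hL)
  rw [hF.sidx L hL] at this
  omega

end Pool.Agent.MP_f8e15f_co.RNA2
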