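import Pool.Agent.MP_f8e15f_co.H33.Spec2

/-! The exceptional degrees in the case of a non-abelian kernel. -/

open MulAction Pointwise

namespace Pool.Agent.MP_f8e15f_co.RNA3

open Pool.Agent.MP_f8e15f_co.H33 Pool.Agent.MP_f8e15f_co.H24

theorem npp {n a b : ℕ} (h : IsPrimePow n) (ha : a.Prime) (hb : b.Prime) (h1 : a ∣ n)
    (h2 : b ∣ n) : a = b :=
  (isPrimePow_iff_unique_prime_dvd.1 h).unique ⟨ha, h1⟩ ⟨hb, h2⟩

theorem arith {ψ n o : ℕ} (h2 : 2 ≤ ψ) (hd : ψ * ψ ∣ n) (h : ExN n o) (hp : IsPrimePow (ψ + 1)) :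
    (ψ = 3 ∧ (n = 9 ∨ (n = 81 ∧ o ∣ 645120))) ∨ ψ = 7 := by
  have a6 : ψ + 1 ≠ 6 := fun e => by
    simpa using npp (e ▸ hp) Nat.prime_two Nat.prime_three (by norm_num) (by norm_num)
  have a10 : ψ + 1 ≠ 10 := fun e => by
    simpa using npp (e ▸ hp) Nat.prime_two Nat.prime_five (by norm_num) (by norm_num)
  have a12 : ψ + 1 ≠ 12 := fun e => by
    simpa using npp (e ▸ hp) Nat.prime_two Nat.prime_three (by norm_num) (by norm_num)
  have a24 : ψ + 1 ≠ 24 := fun e => by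
    simpa using npp (e ▸ hp) Nat.prime_two Nat.prime_three (by norm_num) (by norm_num)
  have hn : n = 9 ∨ n = 25 ∨ n = 49 ∨ n = 121 ∨ n = 529 ∨ (n = 81 ∧ o ∣ 645120) := by
    rcases h with ⟨p, h3, rfl, -⟩ | h
    · simp only [List.mem_cons, List.not_mem_nil, or_false] at h3
      rcases h3 with rfl | rfl | rfl | rfl | rfl <;> simp
    · simp [h]
  have h3 : ψ ≤ 23 := by
    have := Nat.le_of_dvd (by omega) hd
    by_contra h4
    have : 24 * 24 ≤ ψ * ψ := Nat.mul_le_mul (by omega) (by omega)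
    omega
  interval_cases ψ <;> omega

variable {G V : Type} [Group G] [AddCommGroup V] [DistribMulAction G V]
  {𝓜 : Set (AddSubgroup V)} {p e : ℕ}

theorem no13 [Finite G] (h : NF G 𝓜 p e) {L : AddSubgroup V} (hL : L ∈ 𝓜) (h1 : p ^ e = 81)
    (h2 : 𝓜.ncard = 4)
    (h3 : (fixingSubgroup G (L : Set V)).relIndex (stabilizer G L) ∣ 645120) : False := by
  have h4 : 13 ∣ Nat.card G := by
    have := h.d2
    rw [h1, h2] at this
    exact Dvd.dvd.trans (by norm_num) (this.resolve_left (by norm_num))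
  have := Fact.mk (by norm_num : Nat.Prime 13)
  obtain ⟨g, hg⟩ := exists_prime_orderOf_dvd_card' 13 h4
  have := h.kn
  have k1 : g ^ (Kn G 𝓜).index ∈ Kn G 𝓜 := Subgroup.pow_index_mem _ g
  have k2 : g ^ (Kn G 𝓜).index ∈ stabilizer G L :=
    (Subgroup.mem_iInf.1 ((Subgroup.mem_iInf.1 k1) L)) hL
  have : ((fixingSubgroup G (L : Set V)).subgroupOf (stabilizer G L)).Normal := by
    refine ⟨fun f hf k => ?_⟩
    rw [Subgroup.mem_subgroupOf, mem_fixingSubgroup_iff] at hf ⊢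
    intro v hv
    have h5 : (k⁻¹).1 • v ∈ L := by
      have := AddSubgroup.smul_mem_pointwise_smul v (k⁻¹).1 L hv
      rwa [mem_stabilizer_iff.1 (k⁻¹).2] at this
    rw [Subgroup.coe_mul, Subgroup.coe_mul, mul_smul, mul_smul, hf _ h5, ← mul_smul,
      ← Subgroup.coe_mul, mul_inv_cancel, Subgroup.coe_one, one_smul]
  have k3 := Subgroup.pow_index_mem
    ((fixingSubgroup G (L : Set V)).subgroupOf (stabilizer G L)) ⟨_, k2⟩
  rw [Subgroup.mem_subgroupOf, mem_fixingSubgroup_iff] at k3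
  have k4 := h.kf L hL _ (pow_mem k1 _) k3
  rw [← pow_mul, ← orderOf_dvd_iff_pow_eq_one, hg] at k4
  have k5 := k4.trans (mul_dvd_mul (h2 ▸ h.fac) h3)
  norm_num [Nat.factorial] at k5

theorem no7 {U Ψ : Type} [AddCommGroup U] [Nontrivial U] [Field Ψ] [Module Ψ U] {ε : V ≃+ U × U}
    (hσ : ∀ g : G, ∃ (m : U ≃+ U) (a b c d : Ψ), (∀ (s : Ψ) u, m (s • u) = s • m u) ∧
      ∀ v, ε (g • v) = (m (a • (ε v).1 + b • (ε v).2), m (c • (ε v).1 + d • (ε v).2)))
    (hM : ∀ L, L ∈ 𝓜 ↔ (∀ v, v ∈ L ↔ (ε v).1 = 0) ∨ ∃ s : Ψ, ∀ v, v ∈ L ↔ (ε v).2 = s • (ε v).1)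
    (S : Subgroup G) (h1 : ∀ L ∈ 𝓜, ∀ L' ∈ 𝓜, ∃ s ∈ S, s • L = L')
    (h2 : ∀ s ∈ S, ∀ s' ∈ S, ∀ L ∈ 𝓜, s • s' • L = s' • s • L)
    (h3 : ∀ s ∈ S, ∀ L ∈ 𝓜, s ^ 2 • L = L) (h4 : ∀ (g : G), ∀ M ∈ 𝓜, g • M ∈ 𝓜)
    (h7 : (7 : Ψ) = 0) : False := by
  obtain ⟨u, hu⟩ := exists_ne (0 : U)
  let N : Ψ → Ψ → AddSubgroup V := fun x y =>
    { carrier := {v | x • (ε v).2 = y • (ε v).1}
      add_mem' := fun {a b} ha hb => by
        simp only [Set.mem_ofPred_eq, map_add, Prod.fst_add, Prod.snd_add, smul_add] at *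
        rw [ha, hb]
      zero_mem' := by simp
      neg_mem' := fun {a} ha => by
        simp only [Set.mem_ofPred_eq, map_neg, Prod.fst_neg, Prod.snd_neg, smul_neg] at *
        rw [ha] }
  have hN : ∀ x y v, v ∈ N x y ↔ x • (ε v).2 = y • (ε v).1 := fun _ _ _ => Iff.rfl
  have m0 : N 0 1 ∈ 𝓜 := (hM _).2 (Or.inl fun v => by rw [hN, zero_smul, one_smul, eq_comm])
  have m1 : ∀ s, N 1 s ∈ 𝓜 := fun s => (hM _).2 (Or.inr ⟨s, fun v => by rw [hN, one_smul]⟩)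
  have m2 : ∀ L ∈ 𝓜, L = N 0 1 ∨ ∃ s, L = N 1 s := fun L hL =>
    ((hM L).1 hL).imp (fun h => AddSubgroup.ext fun v => by
      rw [h, hN, zero_smul, one_smul, eq_comm]) fun ⟨s, h⟩ =>
        ⟨s, AddSubgroup.ext fun v => by rw [h, hN, one_smul]⟩
  have key : ∀ s, ∃ g ∈ S, g • N 0 1 = N 1 s ∧ ∃ k, ∀ x, x ≠ s → ∀ L, g • N 1 x = L →
      ∃ y, L = N 1 y ∧ (x - s) * (y - s) = k := fun s => by
    obtain ⟨g, g1, g2⟩ := h1 _ m0 _ (m1 s)
    obtain ⟨m, a, b, c, d, e1, e2⟩ := hσ g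
    have hm : m u ≠ 0 := (map_ne_zero_iff m m.injective).2 hu
    have e3 : ∀ x y x' y', g • N x y = N x' y' → x' * (c * x + d * y) = y' * (a * x + b * y) := by
      intro x y x' y' h
      have h5 : g • ε.symm (x • u, y • u) ∈ N x' y' := h ▸ AddSubgroup.smul_mem_pointwise_smul _ _ _
        (by rw [hN, ε.apply_symm_apply, smul_comm])
      rw [hN, e2, ε.apply_symm_apply] at h5
      simp only [smul_smul, ← add_smul, e1] at h5
      exact smul_left_injective Ψ hm h5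
    have g3 : g • N 1 s = N 0 1 := by rw [← g2, ← mul_smul, ← sq, h3 g g1 _ m0]
    have a1 := e3 _ _ _ _ g2
    have a2 := e3 _ _ _ _ g3
    have key2 : ∀ x, g • N 1 x = N 0 1 → b * (x - s) = 0 := fun x h => by
      linear_combination a2 - e3 _ _ _ _ h
    have hb : b ≠ 0 := by
      rintro rfl
      have ha : a = 0 := by linear_combination -a2
      have h5 := e2 (g⁻¹ • ε.symm (u, 0))
      rw [smul_inv_smul, ε.apply_symm_apply, ha] at h5
      exact hu (by simpa using congrArg Prod.fst h5)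
    refine ⟨g, g1, g2, s ^ 2 + c / b, fun x hx L hL => ?_⟩
    rcases m2 L (hL ▸ h4 g _ (m1 x)) with rfl | ⟨y, rfl⟩
    · exact absurd (key2 x hL) (mul_ne_zero hb (sub_ne_zero.2 hx))
    · refine ⟨y, rfl, ?_⟩
      have a3 := e3 _ _ _ _ hL
      field_simp
      linear_combination -a3 + x * a1 + y * a2
  choose g g1 g2 k hk using key
  have hinj : ∀ y y', N 1 y = N 1 y' → y = y' := fun y y' h => by
    have h5 : ε.symm (u, y • u) ∈ N 1 y := by rw [hN, ε.apply_symm_apply, one_smul]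
    rw [h, hN, ε.apply_symm_apply, one_smul] at h5
    exact smul_left_injective Ψ hu h5
  have rel : ∀ s t, s ≠ t → k s + k t = (s - t) ^ 2 := fun s t hst => by
    have h5 := h2 _ (g1 s) _ (g1 t) _ m0
    rw [g2, g2] at h5
    obtain ⟨y, a1, a2⟩ := hk s t hst.symm _ h5
    obtain ⟨y', a3, a4⟩ := hk t s hst _ rfl
    obtain rfl := hinj _ _ (a1.symm.trans a3)
    linear_combination -a2 - a4
  have t2 : (2 : Ψ) ≠ 0 := fun h => one_ne_zero (by linear_combination h7 - 3 * h : (1 : Ψ) = 0)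
  have t3 : (3 : Ψ) ≠ 0 := fun h => one_ne_zero (by linear_combination h7 - 2 * h : (1 : Ψ) = 0)
  exact t2 (by
    linear_combination -rel 0 3 t3.symm + rel 1 3 (fun h => t2 (by linear_combination -h)) +
      rel 0 2 t2.symm - rel 1 2 (fun h => one_ne_zero (by linear_combination -h : (1 : Ψ) = 0)))

theorem row : H33.OfNA3 := by
  rintro hE G V _ _ _ _ _ _ 𝓜 hN p e h E t hK
    ⟨U, Ψ, _, _, _, _, _, ε, L₁, L₂, L₃, hL, hC, h2, -, h3, h4⟩ hX
  have c1 : Nat.card U = p ^ e := hC.card.trans (h.cL _ hL)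
  have c2 : Nat.card U = Nat.card Ψ ^ Module.finrank Ψ U := Module.natCard_eq_pow_finrank
  have : Nontrivial U := Module.nontrivial_of_finrank_pos (R := Ψ) (by omega)
  have := Fintype.ofFinite Ψ
  have c3 : ((Nat.card Ψ : ℕ) : Ψ) = 0 := by
    rw [Nat.card_eq_fintype_card]; exact FiniteField.cast_card_eq_zero Ψ
  rcases arith (ψ := Nat.card Ψ) Finite.one_lt_card
    (by rw [← c1, c2, ← sq]; exact pow_dvd_pow _ h2) (hX _ hL) (h3 ▸ h.pp) with
    ⟨a1, a2 | ⟨a2, a3⟩⟩ | a1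
  · rw [a1] at c3
    obtain ⟨F, _, _, ⟨f⟩⟩ := hE.elf U 3 Nat.prime_three fun x => by
      rw [← Nat.cast_smul_eq_nsmul Ψ, c3, zero_smul]
    have hΨ : ∀ s : Ψ, s = 0 ∨ s = 1 ∨ s = -1 := fun s => by
      have h5 := FiniteField.pow_card s
      rw [← Nat.card_eq_fintype_card, a1] at h5
      have h6 : s * ((s - 1) * (s + 1)) = 0 := by linear_combination h5
      simpa only [mul_eq_zero, sub_eq_zero, add_eq_zero_iff_eq_neg] using h6
    have p1 : ∀ z : U × U, (f.prodCongr f z).1 = f z.1 := fun _ => rfl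
    have p2 : ∀ z : U × U, (f.prodCongr f z).2 = f z.2 := fun _ => rfl
    refine ⟨F, inferInstance, inferInstance, {0, 1, -1}, ε.trans (f.prodCongr f),
      Or.inr (Or.inr (Or.inl ⟨by rw [← Nat.card_congr f.toEquiv, c1, a2]; simp, rfl⟩)),
      fun L => (h4 L).trans (or_congr (by simp [p1]) ⟨?_, ?_⟩)⟩
    · rintro ⟨s, hs⟩
      rcases hΨ s with rfl | rfl | rfl
      · exact ⟨0, by simp, by simpa [p1, p2] using hs⟩
      · exact ⟨1, by simp, by simpa [p1, p2] using hs⟩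
      · exact ⟨-1, by simp, by simpa [p1, p2, ← map_neg] using hs⟩
    · rintro ⟨s, rfl | rfl | rfl, hs⟩
      · exact ⟨0, by simpa [p1, p2] using hs⟩
      · exact ⟨1, by simpa [p1, p2] using hs⟩
      · exact ⟨-1, by simpa [p1, p2, ← map_neg] using hs⟩
  · exact (no13 h hL a2 (by rw [h3, a1]) a3).elim
  · obtain ⟨S, s1, s2, t', j, s3, s4, s5⟩ := h.reg
    obtain rfl : t' = 2 := by
      rw [h3, a1] at s4
      have h5 : 2 ∣ t' ^ j := s4 ▸ (by norm_num)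
      exact ((Nat.prime_dvd_prime_iff_eq Nat.prime_two s3).1
        (Nat.prime_two.dvd_of_dvd_pow h5)).symm
    refine (no7 (ε := ε) (fun g => ?_) h4 S s1 s2 s5 hN.perm (by rw [a1] at c3; exact_mod_cast c3)).elim
    obtain ⟨m, σ, a, b, c, d, e1, e2⟩ := hC.mob g fun x hx => hK.norm.conj_mem x hx g
    obtain ⟨i, hi, e3⟩ := (hE.frob Ψ 7 1 (by norm_num) (by simpa using a1)).2.1 σ
    obtain rfl : i = 0 := by omega
    exact ⟨m, a, b, c, d, fun s u => by rw [e1, e3]; simp, e2⟩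

end Pool.Agent.MP_f8e15f_co.RNA3
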