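import Pool.Agent.MP_f8e15f_co.H33.Spec2

/-! The order of the group induced on the components in the regular symplectic case. -/

open MulAction Pointwise

namespace Pool.Agent.MP_f8e15f_co.RNB0

open H33 H24

theorem numA (s k : ℕ) (hs : 1 ≤ s) : 2 * (k + 3) * s + 1 < (s + 1) ^ (k + 3) := by
  induction k with
  | zero =>
    obtain ⟨u, rfl⟩ := Nat.exists_eq_add_of_le hs
    ring_nf
    omega
  | succ k ih =>
    rw [show k + 1 + 3 = k + 3 + 1 by omega, pow_succ]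
    nlinarith [Nat.mul_le_mul_left ((s + 1) ^ (k + 3)) (by omega : 2 ≤ s + 1), Nat.zero_le (k * s)]

theorem numB (s k : ℕ) (hs : 1 ≤ s) : (2 * (k + 2) + 1) * s + 2 ≤ 2 * (s + 1) ^ (k + 2) := by
  induction k with
  | zero =>
    rw [zero_add]
    nlinarith [Nat.mul_le_mul_right s hs]
  | succ k ih =>
    rw [show k + 1 + 2 = k + 2 + 1 by omega, pow_succ]
    nlinarith [Nat.mul_le_mul_left ((s + 1) ^ (k + 2)) (by omega : 2 ≤ s + 1), Nat.zero_le (k * s)]

theorem num {t j i : ℕ} (ht : t.Prime) (hj : 2 ≤ j) (hi : 1 ≤ i) (hij : 2 * i ≤ j)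
    (h : t ^ j - 1 ∣ j * ((1 + t ^ i) * (t - 1))) : j = 2 ∨ (t = 3 ∧ j = 4) := by
  obtain ⟨s, rfl⟩ : ∃ s, t = s + 1 := ⟨t - 1, by have := ht.pos; omega⟩
  have hs : 1 ≤ s := by have := ht.two_le; omega
  rw [Nat.add_sub_cancel] at h
  have hle := Nat.le_of_dvd (by positivity) h
  rcases Nat.lt_or_ge j 5 with h5 | h5
  · have : j = 2 ∨ j = 3 ∨ j = 4 := by omega
    rcases this with rfl | rfl | rfl
    · exact .inl rfl
    · obtain rfl : i = 1 := by omega
      obtain rfl | h2 : s = 1 ∨ 2 ≤ s := by omega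
      · norm_num at h
      · exfalso
        rw [Nat.sub_le_iff_le_add] at hle
        nlinarith [Nat.mul_le_mul h2 (Nat.mul_le_mul h2 h2), Nat.mul_le_mul_right (s * s) h2]
    · obtain rfl | rfl : i = 1 ∨ i = 2 := by omega
      · exfalso
        rw [Nat.sub_le_iff_le_add] at hle
        nlinarith [Nat.mul_le_mul_right (s * s * s) hs, Nat.mul_le_mul_right (s * s) hs,
          Nat.mul_le_mul_right s hs]
      · have e : (s + 1) ^ 4 - 1 = (s + 2) * ((1 + (s + 1) ^ 2) * s) :=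
          Nat.sub_eq_of_eq_add (by ring)
        rw [e] at h
        have h4 := Nat.dvd_of_mul_dvd_mul_right (by positivity) h
        have := Nat.le_of_dvd (by norm_num) h4
        obtain rfl | rfl : s = 1 ∨ s = 2 := by omega
        · norm_num at h4
        · exact .inr ⟨rfl, rfl⟩
  · exfalso
    rw [Nat.sub_le_iff_le_add] at hle
    obtain ⟨k, rfl | rfl⟩ : ∃ k, j = 2 * (k + 3) ∨ j = 2 * (k + 2) + 1 := ⟨(j - 5) / 2, by omega⟩
    · have h1 := numA s k hs
      have h2 : (s + 1) ^ i ≤ (s + 1) ^ (k + 3) := Nat.pow_le_pow_right (by omega) (by omega)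
      rw [mul_comm 2 (k + 3), pow_mul] at hle
      rw [mul_comm 2 (k + 3)] at h1
      generalize (s + 1) ^ (k + 3) = T at *
      generalize (s + 1) ^ i = U at *
      generalize (k + 3) * 2 = m at *
      nlinarith [Nat.mul_le_mul_left (m * s) h2]
    · have h1 := numB s k hs
      have h2 : (s + 1) ^ i ≤ (s + 1) ^ (k + 2) := Nat.pow_le_pow_right (by omega) (by omega)
      rw [pow_succ, mul_comm 2 (k + 2), pow_mul] at hle
      rw [mul_comm 2 (k + 2)] at h1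
      generalize (s + 1) ^ (k + 2) = T at *
      generalize (s + 1) ^ i = U at *
      generalize (k + 2) * 2 + 1 = m at *
      nlinarith [Nat.mul_le_mul_left (m * s) h2, Nat.mul_le_mul_left (T ^ 2) hs,
        Nat.mul_le_mul_right (1 + T) h1]

variable {G : Type} [Group G]

/-- In a finite cyclic group the elements killed by `t` are the powers of an element of order `t`. -/
theorem tors [Finite G] {A : Subgroup G} (hc : IsCyclic A) {t : ℕ} [NeZero t] {z : G} (hz : z ∈ A)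
    (ho : orderOf z = t) {y : G} (hy : y ∈ A) (hyt : y ^ t = 1) : ∃ k : ZMod t, z ^ k.val = y := by
  classical
  have := Fintype.ofFinite A
  have h1 := IsCyclic.card_pow_eq_one_le (α := A) (NeZero.pos t)
  have h2 : (Finset.univ.image fun k : ZMod t => (⟨z, hz⟩ : A) ^ k.val) =
      Finset.univ.filter fun a : A => a ^ t = 1 := by
    refine Finset.eq_of_subset_of_card_le (fun a ha => ?_) (h1.trans ?_)
    · obtain ⟨k, -, rfl⟩ := Finset.mem_image.1 ha
      refine Finset.mem_filter.2 ⟨Finset.mem_univ _, Subtype.ext ?_⟩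
      change (z ^ k.val) ^ t = 1
      rw [← pow_mul, mul_comm, pow_mul, show z ^ t = 1 from ho ▸ pow_orderOf_eq_one z, one_pow]
    · rw [Finset.card_image_of_injective _ fun a b e => ZMod.val_injective t
        (pow_injOn_Iio_orderOf (x := z) (ho ▸ ZMod.val_lt a) (ho ▸ ZMod.val_lt b)
          (congrArg Subtype.val e)), Finset.card_univ, ZMod.card]
  have h3 : (⟨y, hy⟩ : A) ∈ Finset.univ.filter fun a : A => a ^ t = 1 :=
    Finset.mem_filter.2 ⟨Finset.mem_univ _, Subtype.ext hyt⟩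
  rw [← h2] at h3
  obtain ⟨k, -, e⟩ := Finset.mem_image.1 h3
  exact ⟨k, congrArg Subtype.val e⟩

/-- The commutator form on a regular quotient. -/
theorem form [Finite G] {A E : Subgroup G} {t : ℕ} (hA : A.Normal) (sy : Sym A E t)
    (hc : IsCyclic A) (nd : ∀ x ∈ E, (∀ y ∈ E, x * y = y * x) → x ∈ A)
    (ex : ∀ x ∈ E, ∀ y ∈ E, (x * y * x⁻¹ * y⁻¹) ^ t = 1) (root : ∃ z ∈ A, orderOf z = t)
    {W : Type} [AddCommGroup W] (T : G → W → Prop) (h1 : ∀ v, ∃ x ∈ E, T x v)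
    (h2 : ∀ x ∈ E, ∃ v, T x v) (h3 : ∀ x ∈ E, ∀ y ∈ E, ∀ v, T x v → T y v → x⁻¹ * y ∈ A)
    (h4 : ∀ x y v w, T x v → T y w → T (x * y) (v + w)) :
    ∃ f : W →+ W →+ ZMod t, f ≠ 0 ∧ (∀ v, f v v = 0) ∧ ∀ g : G, ∃ m : ZMod t,
      ∀ φ : W → W, (∀ x v, T x v → T (g * x * g⁻¹) (φ v)) → ∀ v w, f (φ v) (φ w) = m * f v w := by
  have : NeZero t := ⟨sy.prime.ne_zero⟩
  obtain ⟨z, hz, ho⟩ := root
  choose x hx hT using h1
  have cz : ∀ a ∈ A, ∀ y ∈ E, a * y = y * a := fun a ha y hy => sy.cent hy a ha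
  have inj : ∀ a b : ZMod t, z ^ a.val = z ^ b.val → a = b := fun a b e => ZMod.val_injective t
    (pow_injOn_Iio_orderOf (x := z) (ho ▸ ZMod.val_lt a) (ho ▸ ZMod.val_lt b) e)
  have add : ∀ a b : ZMod t, z ^ (a + b).val = z ^ a.val * z ^ b.val := fun a b => by
    rw [ZMod.val_add, ← pow_add, ← pow_mod_orderOf z (a.val + b.val), ho]
  have mul : ∀ a b : ZMod t, z ^ (a * b).val = (z ^ a.val) ^ b.val := fun a b => by
    rw [ZMod.val_mul, ← pow_mul, ← pow_mod_orderOf z (a.val * b.val), ho]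
  choose f hf using fun v w => tors hc hz ho (sy.comm _ (hx v) _ (hx w)) (ex _ (hx v) _ (hx w))
  have k1 : ∀ y ∈ E, ∀ y' ∈ E, ∀ v w, T y v → T y' w → z ^ (f v w).val = y * y' * y⁻¹ * y'⁻¹ := by
    intro y hy y' hy' v w a a'
    have b := h3 _ (hx v) y hy v (hT v) a
    have b' := h3 _ (hx w) y' hy' w (hT w) a'
    obtain ⟨c, hc, rfl⟩ : ∃ c ∈ A, y = x v * c := ⟨_, b, by group⟩
    obtain ⟨c', hc', rfl⟩ : ∃ c ∈ A, y' = x w * c := ⟨_, b', by group⟩
    have e1 := cz c hc _ hy'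
    have e2 := cz c' hc' _ (E.inv_mem (hx v))
    rw [hf]
    calc x v * x w * (x v)⁻¹ * (x w)⁻¹
        = x v * (x w * (c' * (x v)⁻¹) * c'⁻¹) * (x w)⁻¹ := by rw [e2]; group
      _ = x v * (x w * c' * c) * c⁻¹ * (x v)⁻¹ * (x w * c')⁻¹ := by group
      _ = _ := by rw [← e1]; group
  have k2 : ∀ v v' w, f (v + v') w = f v w + f v' w := fun v v' w => inj _ _ <| by
    rw [add, add_comm v, k1 _ (E.mul_mem (hx v') (hx v)) _ (hx w) _ _ (h4 _ _ _ _ (hT v') (hT v))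
      (hT w), hf, hf]
    have e := cz _ (sy.comm _ (hx v) _ (hx w)) _ (hx v')
    calc x v' * x v * x w * (x v' * x v)⁻¹ * (x w)⁻¹
        = x v' * (x v * x w * (x v)⁻¹ * (x w)⁻¹) * (x w * (x v')⁻¹ * (x w)⁻¹) := by group
      _ = _ := by rw [← e]; group
  have k3 : ∀ v w, f v w = -f w v := fun v w => eq_neg_of_add_eq_zero_left <| inj _ _ <| by
    rw [add, hf, hf, ZMod.val_zero]
    group
  refine ⟨AddMonoidHom.mk' (fun v => AddMonoidHom.mk' (f v) fun w w' => by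
    rw [k3, k2, neg_add, ← k3, ← k3]) fun v v' => AddMonoidHom.ext (k2 v v'), fun h0 => ?_,
    fun v => inj _ _ ?_, fun g => ?_⟩
  · refine sy.lt.not_ge fun y hy => nd y hy fun y' hy' => ?_
    obtain ⟨v, a⟩ := h2 y hy
    obtain ⟨w, a'⟩ := h2 y' hy'
    have e := k1 y hy y' hy' v w a a'
    rw [show f v w = 0 from DFunLike.congr_fun (DFunLike.congr_fun h0 v) w, ZMod.val_zero,
      pow_zero] at e
    calc y * y' = (y * y' * y⁻¹ * y'⁻¹) * (y' * y) := by group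
      _ = _ := by rw [← e, one_mul]
  · change z ^ (f v v).val = _
    rw [hf, ZMod.val_zero]
    group
  · obtain ⟨m, hm⟩ := tors hc hz ho (hA.conj_mem z hz g) (by
      rw [conj_pow, ← ho, pow_orderOf_eq_one, mul_one, mul_inv_cancel])
    refine ⟨m, fun φ hφ v w => inj _ _ ?_⟩
    change z ^ (f (φ v) (φ w)).val = z ^ (m * f v w).val
    rw [mul, hm, conj_pow, hf v w, k1 _ (sy.norm.conj_mem _ (hx v) g) _
      (sy.norm.conj_mem _ (hx w) g) _ _ (hφ _ _ (hT v)) (hφ _ _ (hT w))]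
    group

theorem core (crdn : CRDN) (symp : SYMP) (hup : HUP) [Finite G] [Group.IsSolvable G] {Ω : Type}
    [MulAction G Ω] [Finite Ω] (two : Two G Ω) (ω : Ω) {A E : Subgroup G} {t : ℕ} (hA : A.Normal)
    (sy : Sym A E t) (hc : IsCyclic A) (nd : ∀ x ∈ E, (∀ y ∈ E, x * y = y * x) → x ∈ A)
    (ex : ∀ x ∈ E, ∀ y ∈ E, (x * y * x⁻¹ * y⁻¹) ^ t = 1) (root : ∃ z ∈ A, orderOf z = t)
    (pw : ∃ j, 2 ≤ j ∧ A.relIndex E = t ^ j) (ker : ∀ x ∈ E, x ∈ A ↔ ∀ y : Ω, x • y = y)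
    (tr : ∀ x y : Ω, ∃ n ∈ E, n • x = y) :
    Nat.card Ω = A.relIndex E ∧
      ((Nat.card Ω = t ^ 2 ∧ (kidx G Ω ∣ t ^ 2 * (2 * (t ^ 2 - 1)) ∨
        (t ∈ [3, 5, 7, 11, 23] ∧ kidx G Ω ∣ t ^ 2 * (24 * (t - 1))))) ∨
      (t = 3 ∧ Nat.card Ω = 81 ∧ kidx G Ω ∣ 81 * 645120)) := by
  obtain ⟨W, _, _, e, e0, eg, e1, e2⟩ := crdn G Ω E ω sy.norm tr fun n hn m hm x => by
    have := (ker _ (sy.lt.le (sy.comm n hn m hm))).1 (sy.comm n hn m hm) (m • n • x)
    rw [← this]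
    simp only [mul_smul, inv_smul_smul]
  obtain ⟨j, hj, hr⟩ := pw
  have ht := sy.prime
  have c1 : Nat.card Ω = A.relIndex E := by
    have : IsPretransitive E Ω := ⟨fun x y => let ⟨n, hn, h⟩ := tr x y; ⟨⟨n, hn⟩, h⟩⟩
    rw [← index_stabilizer_of_transitive E ω, Subgroup.relIndex]
    congr 1
    ext ⟨x, hx⟩
    refine Iff.trans ⟨fun h y => ?_, fun h => h ω⟩ (ker x hx).symm
    obtain ⟨v, hv⟩ := e2 x hx
    have h0 : x • e 0 = e 0 := e0.symm ▸ h
    rw [hv, zero_add] at h0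
    obtain ⟨w, rfl⟩ := e.surjective y
    rw [hv, e.injective h0, add_zero]
  have c2 : kidx G Ω = Nat.card Ω * kidx (stabilizer G ω) W := by
    have : IsPretransitive G Ω := ⟨fun x y => let ⟨n, _, h⟩ := tr x y; ⟨n, h⟩⟩
    have le : (toPermHom G Ω).ker ≤ stabilizer G ω := fun g hg => DFunLike.congr_fun hg ω
    rw [kidx, ← Subgroup.relIndex_mul_index le, index_stabilizer_of_transitive, mul_comm,
      Subgroup.relIndex, kidx]
    congr 2
    ext g
    refine ⟨fun h => Equiv.ext fun v => e.injective ((eg g v).trans (DFunLike.congr_fun h _)),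
      fun h => Equiv.ext fun y => ?_⟩
    obtain ⟨w, rfl⟩ := e.surjective y
    exact (eg g w).symm.trans (congrArg e (DFunLike.congr_fun h w))
  have : Finite W := Finite.of_equiv _ e.symm
  have c3 : Nat.card W = t ^ j := by rw [Nat.card_congr e, c1, hr]
  have : Nontrivial W := Finite.one_lt_card_iff_nontrivial.1
    (c3 ▸ Nat.one_lt_pow (by omega) ht.one_lt)
  have t1 : Tr1 (stabilizer G ω) W := fun x y hx hy => by
    obtain ⟨g, g1, g2⟩ := two (e 0) (e x) (e 0) (e y) (e.injective.ne hx.symm)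
      (e.injective.ne hy.symm)
    exact ⟨⟨g, e0 ▸ g1⟩, e.injective ((eg _ x).trans g2)⟩
  refine ⟨c1, ?_⟩
  rw [c2, c1, hr]
  rcases hup.hup (stabilizer G ω) W t1 with hs | ⟨⟨p, hp, h1, h2⟩ | ⟨h1, h2⟩, -⟩
  · have o := hup.ord _ W t j ht c3 hs
    obtain ⟨F, _, _, ε, hε⟩ := hs
    have c4 : Nat.card F = t ^ j := (Nat.card_congr ε.toEquiv).symm.trans c3
    obtain ⟨f, f0, f1, f2⟩ := form hA sy hc nd ex root (fun x v => ∀ w, x • e w = e (w + v)) e1 e2
      (fun x hx y hy v a b => (ker _ (E.mul_mem (E.inv_mem hx) hy)).2 fun u => by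
        obtain ⟨w, rfl⟩ := e.surjective u
        rw [mul_smul, b, ← a, inv_smul_smul])
      fun x y v w a b u => by rw [mul_smul, b, a, add_assoc, add_comm w]
    obtain ⟨i, i1, i2, i3⟩ := symp F t j ht c4
      ((f.comp ε.symm.toAddMonoidHom).compl₂ ε.symm.toAddMonoidHom)
      (fun h => f0 (AddMonoidHom.ext fun v => AddMonoidHom.ext fun w => by
        simpa using DFunLike.congr_fun (DFunLike.congr_fun h (ε v)) (ε w))) fun x => f1 _
    have d := hup.lin _ W F ε t j _ ht c4 t1 hε fun g a ha => i3 a (fun h => ?_) ?_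
    · obtain rfl | ⟨rfl, rfl⟩ := num ht hj i1 i2 d
      · exact .inl ⟨rfl, .inl (mul_dvd_mul_left _ o)⟩
      · exact .inr ⟨rfl, rfl, mul_dvd_mul_left _ (o.trans (by norm_num))⟩
    · obtain ⟨v, hv⟩ := exists_ne (0 : W)
      have := ha v
      rw [h, zero_mul, EmbeddingLike.map_eq_zero_iff, smul_eq_zero_iff_eq] at this
      exact hv this
    · obtain ⟨m, hm⟩ := f2 g.1
      have k : ∀ x, ε.symm (a * x) = g • ε.symm x := fun x => by
        rw [AddEquiv.symm_apply_eq, ha, AddEquiv.apply_symm_apply]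
      refine ⟨m, fun x y => ?_⟩
      change f (ε.symm (a * x)) (ε.symm (a * y)) = m * f (ε.symm x) (ε.symm y)
      rw [k, k]
      refine hm (g • ·) (fun x v h w => ?_) _ _
      rw [mul_smul, mul_smul, ← Subgroup.coe_inv, ← eg, h, ← eg, smul_add, smul_inv_smul]
  · rw [c3] at h1
    have hp' : p.Prime := by
      simp only [List.mem_cons, List.not_mem_nil, or_false] at hp
      rcases hp with rfl | rfl | rfl | rfl | rfl <;> norm_num
    obtain rfl : t = p := (Nat.prime_dvd_prime_iff_eq ht hp').1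
      (ht.dvd_of_dvd_pow (h1 ▸ dvd_pow_self t (by omega)))
    exact .inl ⟨h1, .inr ⟨hp, h1 ▸ mul_dvd_mul_left _ h2⟩⟩
  · rw [c3] at h1
    obtain rfl : t = 3 := (Nat.prime_dvd_prime_iff_eq ht Nat.prime_three).1
      (ht.dvd_of_dvd_pow (n := 4) (show t ∣ 81 from h1 ▸ dvd_pow_self t (by omega)))
    exact .inr ⟨rfl, h1, h1 ▸ mul_dvd_mul_left _ h2⟩

theorem row : H33.OfNB0 := by
  intro crdn _ symp hup G V _ _ _ _ _ _ 𝓜 h p e f Φ _ _ _ A E t s sf sy yf hAK hK
  obtain ⟨_, a1, a2, a3⟩ := f.act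
  obtain ⟨L, hL, -⟩ := h.ex
  have : Finite (AddSubgroup V) := Finite.of_injective _ SetLike.coe_injective
  have ker : ∀ x ∈ E, x ∈ A ↔ ∀ y : 𝓜, x • y = y := fun x hx =>
    ⟨fun a y => DFunLike.congr_fun (show x ∈ (toPermHom G 𝓜).ker from a3 ▸ hAK a) y,
      fun a => hK ⟨a3 ▸ Equiv.ext a, sy.cent hx⟩⟩
  have := core crdn symp hup a2 ⟨L, hL⟩ s.norm sy sf.cyc yf.nd yf.exp yf.root yf.pw ker
    fun x y => by
      obtain ⟨n, hn, e⟩ := f.ntr E sy.norm
        (fun le => sy.lt.not_ge fun g hg => hK ⟨le hg, sy.cent hg⟩) x.1 x.2 y.1 y.2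
      exact ⟨n, hn, Subtype.ext ((a1 n x).trans e)⟩
  rwa [kidx, a3, Nat.card_coe_set_eq] at this

end Pool.Agent.MP_f8e15f_co.RNB0
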