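import Pool.Agent.MP_f8e15f_co.H33.Spec2

open MulAction Pointwise

namespace Pool.Agent.MP_f8e15f_co.RNB2

open Pool.Agent.MP_f8e15f_co.H33 Pool.Agent.MP_f8e15f_co.H24

theorem four {α : Type} (f : α → α) (hf : Function.Injective f) (a b c d a' b' c' d' : α)
    (h1 : a ≠ c) (h2 : a ≠ d) (h3 : b ≠ c) (h4 : b ≠ d) (h5 : c ≠ d) (ha : f a = a') (hb : f b = b')
    (hc : f c = a' ∨ f c = b' ∨ f c = c' ∨ f c = d')
    (hd : f d = a' ∨ f d = b' ∨ f d = c' ∨ f d = d') :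
    (f c = c' ∧ f d = d') ∨ (f c = d' ∧ f d = c') := by
  rcases hc with h | h | h | h
  · exact absurd (hf (ha.trans h.symm)) h1
  · exact absurd (hf (hb.trans h.symm)) h3
  all_goals
    rcases hd with k | k | k | k
    · exact absurd (hf (ha.trans k.symm)) h2
    · exact absurd (hf (hb.trans k.symm)) h4
    · first | exact absurd (hf (h.trans k.symm)) h5 | exact Or.inr ⟨h, k⟩
    · first | exact absurd (hf (h.trans k.symm)) h5 | exact Or.inl ⟨h, k⟩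

section
variable {G V Φ : Type} [Group G] [AddCommGroup V] [DistribMulAction G V] [Field Φ] [Module Φ V]

def Ln (e : V ≃+ Φ × Φ) (s : Φ) (L : AddSubgroup V) : Prop := ∀ v, v ∈ L ↔ (e v).2 = s * (e v).1

theorem line [Finite Φ] (L : AddSubgroup V) (hL : ∀ c : Φ, ∀ x ∈ L, c • x ∈ L)
    (hc : Nat.card L = Nat.card Φ) (u : V) (hu : u ∈ L) (h0 : u ≠ 0) (v : V) :
    v ∈ L ↔ ∃ c : Φ, c • u = v := by
  refine ⟨fun hv => ?_, fun ⟨c, h⟩ => h ▸ hL c u hu⟩
  have : Finite L := Nat.finite_of_card_ne_zero (by rw [hc]; exact Nat.card_pos.ne')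
  have := (Function.Injective.bijective_of_nat_card_le (f := fun c : Φ => (⟨c • u, hL c u hu⟩ : L))
    (fun c c' e => smul_left_injective Φ h0 (congrArg Subtype.val e)) hc.le).2
  obtain ⟨c, h⟩ := this ⟨v, hv⟩
  exact ⟨c, congrArg Subtype.val h⟩

theorem key (e : V ≃+ Φ × Φ) (he : ∀ (c : Φ) v, e (c • v) = c • e v) (L₂ : AddSubgroup V)
    (h2 : ∀ v, v ∈ L₂ ↔ (e v).1 = 0) (g : G) (σ : Φ ≃+* Φ)
    (hσ : ∀ (c : Φ) (x : V), g • c • x = σ c • g • x) (hg : g • L₂ = L₂) :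
    ∃ a t b : Φ, a ≠ 0 ∧ ∀ s s' L L', Ln e s L → Ln e s' L' → g • L = L' →
      t + σ s * b = s' * a := by
  refine ⟨(e (g • e.symm (1, 0))).1, (e (g • e.symm (1, 0))).2, (e (g • e.symm (0, 1))).2,
    fun h => ?_, fun s s' L L' hL hL' hg' => ?_⟩
  · rw [← h2, ← hg, AddSubgroup.smul_mem_pointwise_smul_iff, h2] at h
    simp at h
  · have h1 : (e (g • e.symm (0, 1))).1 = 0 := by
      rw [← h2, ← hg, AddSubgroup.smul_mem_pointwise_smul_iff, h2]
      simp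
    have h3 : g • (e.symm (1, 0) + s • e.symm (0, 1)) ∈ L' := by
      rw [← hg', AddSubgroup.smul_mem_pointwise_smul_iff, hL]
      simp [he]
    rw [hL', smul_add, hσ, map_add, he] at h3
    simpa [h1] using h3

omit [Module Φ V] in
theorem slp [Finite Φ] (e : V ≃+ Φ × Φ) (L₁ L₂ L₃ L₄ : AddSubgroup V) (l c : Φ) (hc : c ≠ 0)
    (h1 : Ln e 0 L₁) (h2 : ∀ v, v ∈ L₂ ↔ (e v).1 = 0) (h3 : Ln e 1 L₃) (h4 : Ln e l L₄)
    (hS : Slopes ({0, c, c * l} : Set Φ)) : Slp {L₁, L₂, L₃, L₄} := by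
  let e' : V ≃+ Φ × Φ := e.trans ((AddEquiv.refl Φ).prodCongr
    { Equiv.mulLeft₀ c hc with map_add' := mul_add c })
  have hl : ∀ s L, Ln e s L → Ln e' (c * s) L := fun s L h v => by
    rw [h]
    change _ ↔ c * (e v).2 = c * s * (e v).1
    rw [mul_assoc, mul_right_inj' hc]
  have k1 := hl _ _ h1
  have k3 := hl _ _ h3
  have k4 := hl _ _ h4
  rw [mul_zero] at k1
  rw [mul_one] at k3
  refine ⟨Φ, inferInstance, inferInstance, _, e', hS, fun L => ⟨?_, ?_⟩⟩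
  · rintro (rfl | rfl | rfl | rfl)
    exacts [Or.inr ⟨0, by simp, k1⟩, Or.inl h2, Or.inr ⟨c, by simp, k3⟩,
      Or.inr ⟨c * l, by simp, k4⟩]
  · rintro (h | ⟨s, rfl | rfl | rfl, h⟩)
    · exact Or.inr (Or.inl (AddSubgroup.ext fun v => (h v).trans (h2 v).symm))
    · exact Or.inl (AddSubgroup.ext fun v => (h v).trans (k1 v).symm)
    · exact Or.inr (Or.inr (Or.inl (AddSubgroup.ext fun v => (h v).trans (k3 v).symm)))
    · exact Or.inr (Or.inr (Or.inr (AddSubgroup.ext fun v => (h v).trans (k4 v).symm)))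

theorem coords [Finite Φ] [Finite V] (L₁ L₂ L₃ L₄ : AddSubgroup V)
    (hV : Nat.card V = Nat.card Φ ^ 2)
    (hl : ∀ L ∈ ({L₁, L₂, L₃, L₄} : Set (AddSubgroup V)), L ≠ ⊥ ∧
      ∀ u ∈ L, u ≠ 0 → ∀ v, v ∈ L ↔ ∃ c : Φ, c • u = v) (c12 : IsCompl L₁ L₂)
    (c13 : IsCompl L₁ L₃) (c23 : IsCompl L₂ L₃) (c24 : IsCompl L₂ L₄) :
    ∃ (e : V ≃+ Φ × Φ) (l : Φ), (∀ (c : Φ) v, e (c • v) = c • e v) ∧ Ln e 0 L₁ ∧
      (∀ v, v ∈ L₂ ↔ (e v).1 = 0) ∧ Ln e 1 L₃ ∧ Ln e l L₄ := by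
  obtain ⟨-, m1⟩ := hl L₁ (by simp)
  obtain ⟨-, m2⟩ := hl L₂ (by simp)
  obtain ⟨n3, m3⟩ := hl L₃ (by simp)
  obtain ⟨n4, m4⟩ := hl L₄ (by simp)
  obtain ⟨⟨w, hw⟩, w0⟩ := AddSubgroup.ne_bot_iff_exists_ne_zero.1 n3
  obtain ⟨⟨u, hu⟩, u0⟩ := AddSubgroup.ne_bot_iff_exists_ne_zero.1 n4
  replace w0 : w ≠ 0 := fun h => w0 (Subtype.ext h)
  replace u0 : u ≠ 0 := fun h => u0 (Subtype.ext h)
  have hw' : w ∈ L₁ ⊔ L₂ := by rw [c12.sup_eq_top]; trivial
  obtain ⟨x, hx, y, hy, rfl⟩ := AddSubgroup.mem_sup.1 hw'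
  have x0 : x ≠ 0 := by
    rintro rfl
    rw [zero_add] at hw w0
    exact w0 (AddSubgroup.disjoint_def.1 c23.disjoint hy hw)
  have y0 : y ≠ 0 := by
    rintro rfl
    rw [add_zero] at hw w0
    exact w0 (AddSubgroup.disjoint_def.1 c13.disjoint hx hw)
  let f : (Φ × Φ) →ₗ[Φ] V := (LinearMap.toSpanSingleton Φ V x).coprod
    (LinearMap.toSpanSingleton Φ V y)
  have hf : ∀ z, f z = z.1 • x + z.2 • y := fun _ => rfl
  have fi : Function.Injective f := (injective_iff_map_eq_zero f).2 fun z hz => by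
    rw [hf, add_eq_zero_iff_eq_neg] at hz
    have a1 : z.1 • x ∈ L₁ := (m1 x hx x0 _).2 ⟨_, rfl⟩
    have a2 : z.1 • x ∈ L₂ := hz ▸ L₂.neg_mem ((m2 y hy y0 _).2 ⟨_, rfl⟩)
    have a3 := AddSubgroup.disjoint_def.1 c12.disjoint a1 a2
    rw [a3, eq_comm, neg_eq_zero] at hz
    exact Prod.ext ((smul_eq_zero.1 a3).resolve_right x0) ((smul_eq_zero.1 hz).resolve_right y0)
  let E := (LinearEquiv.ofBijective f
    (fi.bijective_of_nat_card_le (by rw [hV, Nat.card_prod, sq]))).symm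
  have ex : E x = (1, 0) := by
    rw [LinearEquiv.symm_apply_eq]; simp [hf]
  have ey : E y = (0, 1) := by
    rw [LinearEquiv.symm_apply_eq]; simp [hf]
  have mem : ∀ u v : V, (∃ c : Φ, c • u = v) ↔ ∃ c : Φ, c • E u = E v := fun u v =>
    exists_congr fun c => by rw [← map_smul, E.injective.eq_iff]
  have k2 : ∀ v, v ∈ L₂ ↔ (E v).1 = 0 := fun v => by
    rw [m2 y hy y0, mem, ey]
    exact ⟨fun ⟨c, h⟩ => by simp [← h], fun h => ⟨(E v).2, Prod.ext (by simp [h]) (by simp)⟩⟩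
  have kl : ∀ L : AddSubgroup V, (∀ u ∈ L, u ≠ 0 → ∀ v, v ∈ L ↔ ∃ c : Φ, c • u = v) →
      ∀ u ∈ L, (E u).1 ≠ 0 → Ln E.toAddEquiv ((E u).2 / (E u).1) L := fun L m u hu h v => by
    rw [m u hu (by rintro rfl; simp at h), mem]
    change _ ↔ (E v).2 = _ * (E v).1
    refine ⟨fun ⟨c, k⟩ => ?_, fun k => ⟨(E v).1 / (E u).1, Prod.ext ?_ ?_⟩⟩
    · simp only [← k, Prod.smul_snd, Prod.smul_fst, smul_eq_mul]
      field_simp
    · simp [h]
    · simp only [k, Prod.smul_snd, smul_eq_mul]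
      field_simp
  refine ⟨E.toAddEquiv, _, fun c v => E.map_smul c v, ?_, k2, ?_, kl L₄ m4 u hu fun h =>
    u0 (AddSubgroup.disjoint_def.1 c24.disjoint ((k2 u).2 h) hu)⟩
  · simpa [ex] using kl L₁ m1 x hx (by simp [ex])
  · simpa [ex, ey] using kl L₃ m3 (x + y) hw (by simp [ex, ey])

end

theorem chr (Φ : Type) [Field Φ] [Finite Φ] (q d : ℕ) (h : Nat.card Φ = q ^ d) :
    (q : Φ) = 0 ∧ ∀ x : Φ, x ^ q ^ d = x := by
  have := Fintype.ofFinite Φ
  rw [Nat.card_eq_fintype_card] at h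
  refine ⟨?_, fun x => by rw [← h, FiniteField.pow_card]⟩
  have := FiniteField.cast_card_eq_zero Φ
  rw [h, Nat.cast_pow] at this
  exact eq_zero_of_pow_eq_zero this

theorem row : OfNB2 := by
  intro exp _ G V _ _ _ _ _ _ 𝓜 net p e nf Φ _ _ _ A str sf hAK hKA h4 hΦ hn
  obtain ⟨L₁, L₂, L₃, L₄, d12, d13, d14, d23, d24, d34, rfl⟩ := Set.ncard_eq_four.1 h4
  obtain ⟨E, l, he, k1, k2, k3, k4⟩ := coords (Φ := Φ) L₁ L₂ L₃ L₄ (by rw [nf.cV, hΦ])
    (fun L hL => ⟨nf.ne L hL, fun u hu h0 => line L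
      (sf.sub L fun a ha => (nf.mem a).1 (hAK ha) L hL) (by rw [nf.cL L hL, hΦ]) u hu h0⟩)
    (nf.compl _ (by simp) _ (by simp) d12) (nf.compl _ (by simp) _ (by simp) d13)
    (nf.compl _ (by simp) _ (by simp) d23) (nf.compl _ (by simp) _ (by simp) d24)
  have l0 : l ≠ 0 := by
    rintro rfl
    exact d14 (AddSubgroup.ext fun v => (k1 v).trans (k4 v).symm)
  have l1 : l ≠ 1 := by
    rintro rfl
    exact d34 (AddSubgroup.ext fun v => (k3 v).trans (k4 v).symm)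
  have inj : ∀ g : G, Function.Injective fun L : AddSubgroup V => g • L := MulAction.injective
  have p3 : ∀ g : G, g • L₃ = L₁ ∨ g • L₃ = L₂ ∨ g • L₃ = L₃ ∨ g • L₃ = L₄ := fun g =>
    net.perm g L₃ (by simp)
  have p4 : ∀ g : G, g • L₄ = L₁ ∨ g • L₄ = L₂ ∨ g • L₄ = L₃ ∨ g • L₄ = L₄ := fun g =>
    net.perm g L₄ (by simp)
  obtain ⟨g, g2, g1, g3, g4⟩ :
      ∃ g : G, g • L₂ = L₂ ∧ g • L₁ = L₃ ∧ g • L₃ = L₄ ∧ g • L₄ = L₁ := by
    obtain ⟨g, g2, g1⟩ := net.two L₂ (by simp) L₁ (by simp) L₂ (by simp) L₃ (by simp) d12.symm d23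
    obtain ⟨h, h2, h1⟩ := net.two L₂ (by simp) L₁ (by simp) L₂ (by simp) L₄ (by simp) d12.symm d24
    rcases four _ (inj g) L₁ L₂ L₃ L₄ L₃ L₂ L₄ L₁ d13 d14 d23 d24 d34 g1 g2
      (by have := p3 g; tauto) (by have := p4 g; tauto) with ⟨g3, g4⟩ | ⟨g3, g4⟩
    · exact ⟨g, g2, g1, g3, g4⟩
    rcases four _ (inj h) L₁ L₂ L₃ L₄ L₄ L₂ L₁ L₃ d13 d14 d23 d24 d34 h1 h2
      (by have := p3 h; tauto) (by have := p4 h; tauto) with ⟨h3, h4⟩ | ⟨h3, h4⟩
    · exact ⟨h * h, by simp only [mul_smul, h1, h2, h3, h4, and_self]⟩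
    · exact ⟨h * g, by simp only [mul_smul, h1, h2, h3, h4, g1, g2, g3, g4, and_self]⟩
  have cyc : ∀ (g : G) (σ : Φ ≃+* Φ), (∀ (c : Φ) (x : V), g • c • x = σ c • g • x) →
      g • L₂ = L₂ → g • L₁ = L₃ → g • L₃ = L₄ → g • L₄ = L₁ → 1 + σ l * (l - 1) = 0 := by
    intro g σ hσ g2 g1 g3 g4
    obtain ⟨a, t, b, a0, h⟩ := key E he L₂ k2 g σ hσ g2
    have e1 := h _ _ _ _ k1 k3 g1
    have e3 := h _ _ _ _ k3 k4 g3
    have e4 := h _ _ _ _ k4 k1 g4
    rw [map_zero] at e1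
    rw [map_one] at e3
    refine mul_left_cancel₀ a0 ?_
    linear_combination e4 - σ l * e3 + (σ l - 1) * e1
  obtain ⟨σ, hσ⟩ := str.semi g
  have pr : ∀ q : ℕ, q.Prime → p ^ e = q → l ^ 2 - l + 1 = 0 ∧ (q : Φ) = 0 ∧ l ^ q = l := by
    intro q hq h
    have hc : Nat.card Φ = q ^ 1 := by rw [hΦ, h, pow_one]
    obtain ⟨i, hi, hs⟩ := (exp.frob Φ q 1 hq hc).2.1 σ
    obtain rfl : i = 0 := by omega
    have := cyc g σ hσ g2 g1 g3 g4
    rw [hs] at this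
    refine ⟨by linear_combination this, (chr Φ q 1 hc).1, by simpa using (chr Φ q 1 hc).2 l⟩
  have fin3 : Nat.card Φ ∈ [3, 9, 27] → l = -1 → Slp {L₁, L₂, L₃, L₄} := fun h hl =>
    slp E L₁ L₂ L₃ L₄ l 1 one_ne_zero k1 k2 k3 k4 (Or.inr (Or.inr (Or.inl ⟨h, by simp [hl]⟩)))
  have sq3 : ((3 : ℕ) : Φ) = 0 → l ^ 2 - l + 1 = 0 → l = -1 := fun h3 h => by
    have : (l + 1) ^ 2 = 0 := by
      push_cast at h3
      linear_combination h + l * h3
    exact eq_neg_of_add_eq_zero_left (pow_eq_zero_iff two_ne_zero |>.1 this)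
  simp only [List.mem_cons, List.not_mem_nil, or_false] at hn
  rcases hn with hn | hn | hn | hn | hn | hn
  · obtain ⟨a, b, -⟩ := pr 3 (by norm_num) hn
    exact fin3 (by simp [hΦ, hn]) (sq3 b a)
  · obtain ⟨a, b, c⟩ := pr 5 (by norm_num) hn
    push_cast at b
    have : l * (l + 1) = 0 := by linear_combination l ^ 2 * (l + 1) * a - c
    have hl : l = -1 := eq_neg_of_add_eq_zero_left ((mul_eq_zero.1 this).resolve_left l0)
    rw [hl] at a
    exact absurd (by linear_combination 2 * a - b) (one_ne_zero (α := Φ))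
  · obtain ⟨a, b, -⟩ := pr 7 (by norm_num) hn
    push_cast at b
    have : (l - 3) * (l - 5) = 0 := by linear_combination a + (2 - l) * b
    rcases mul_eq_zero.1 this with h | h
    · exact slp E L₁ L₂ L₃ L₄ l 1 one_ne_zero k1 k2 k3 k4 (Or.inr (Or.inr (Or.inr (Or.inl
        ⟨hΦ.trans hn, by simp [sub_eq_zero.1 h]⟩))))
    · refine slp E L₁ L₂ L₃ L₄ l 3 (fun h3 => one_ne_zero (α := Φ) ?_) k1 k2 k3 k4
        (Or.inr (Or.inr (Or.inr (Or.inl ⟨hΦ.trans hn, ?_⟩))))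
      · linear_combination b - 2 * h3
      · rw [show 3 * l = 1 by linear_combination 3 * h + 2 * b, Set.pair_comm]
  · have hc : Nat.card Φ = 3 ^ 2 := by rw [hΦ, hn]; norm_num
    obtain ⟨i, hi, hs⟩ := (exp.frob Φ 3 2 (by norm_num) hc).2.1 σ
    obtain ⟨c3, c9⟩ := chr Φ 3 2 hc
    have ss : ∀ x, σ (σ x) = x := fun x => by
      rw [hs, hs, ← pow_mul]
      interval_cases i
      · simp
      · exact c9 x
    have := cyc (g * g * g * g) (RingEquiv.refl Φ) (fun c x => by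
      simp only [mul_smul, hσ, ss, RingEquiv.refl_apply]) (by simp only [mul_smul, g2])
      (by simp only [mul_smul, g1, g3, g4]) (by simp only [mul_smul, g1, g3, g4])
      (by simp only [mul_smul, g1, g3, g4])
    rw [RingEquiv.refl_apply] at this
    exact fin3 (by simp [hΦ, hn]) (sq3 c3 (by linear_combination this))
  · obtain ⟨a, b, c⟩ := pr 11 (by norm_num) hn
    push_cast at b
    have : l * (l + 1) = 0 := by
      linear_combination l ^ 2 * (l + 1) * (l ^ 6 - l ^ 3 + 1) * a - c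
    have hl : l = -1 := eq_neg_of_add_eq_zero_left ((mul_eq_zero.1 this).resolve_left l0)
    rw [hl] at a
    exact absurd (by linear_combination 4 * a - b) (one_ne_zero (α := Φ))
  · refine fin3 (by simp [hΦ, hn]) (by_contra fun l2 => ?_)
    have hc : Nat.card Φ = 3 ^ 3 := by rw [hΦ, hn]; norm_num
    obtain ⟨-, c27⟩ := chr Φ 3 3 hc
    have fr := (exp.frob Φ 3 3 (by norm_num) hc).2.1
    have n2 : l ^ 2 ≠ 1 := fun h => by
      rcases sq_eq_one_iff.1 h with h | h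
      exacts [l1 h, l2 h]
    have n3 : l ^ 3 ≠ l := fun h => n2 (mul_left_cancel₀ l0 (by linear_combination h))
    have hK : stabilizer G L₁ ⊓ stabilizer G L₂ ≤ A := fun k hk => by
      obtain ⟨τ, hτ⟩ := str.semi k
      obtain ⟨a, t, b, a0, h⟩ := key E he L₂ k2 k τ hτ hk.2
      obtain ⟨i, hi, hs⟩ := fr τ
      have e1 := h _ _ _ _ k1 k1 hk.1
      rw [map_zero] at e1
      rcases four _ (inj k) L₁ L₂ L₃ L₄ L₁ L₂ L₃ L₄ d13 d14 d23 d24 d34 hk.1 hk.2 (p3 k) (p4 k)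
        with ⟨g3, g4⟩ | ⟨g3, g4⟩
      · have e3 := h _ _ _ _ k3 k3 g3
        have e4 := h _ _ _ _ k4 k4 g4
        rw [map_one] at e3
        have e5 : τ l = l := mul_left_cancel₀ a0 (by
          linear_combination e4 - τ l * e3 + (τ l - 1) * e1)
        refine hKA ⟨?_, (sf.lin k).2 fun c x => ?_⟩
        · refine Subgroup.mem_iInf.2 fun L => Subgroup.mem_iInf.2 ?_
          rintro (rfl | rfl | rfl | rfl)
          exacts [hk.1, hk.2, g3, g4]
        · rw [hs] at e5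
          rw [hτ, hs]
          interval_cases i
          · simp
          · exact absurd e5 n3
          · refine absurd ?_ n3
            rw [← e5, ← pow_mul, e5]
            exact c27 l
      · have e3 := h _ _ _ _ k3 k4 g3
        have e4 := h _ _ _ _ k4 k3 g4
        rw [map_one] at e3
        have e5 : τ l * l = 1 := mul_left_cancel₀ a0 (by
          linear_combination e4 - τ l * e3 + (τ l - 1) * e1)
        have e6 : l ^ 26 = 1 := mul_left_cancel₀ l0 (by linear_combination c27 l)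
        rw [hs, ← pow_succ] at e5
        have := (pow_gcd_eq_one (a := l)).2 ⟨e5, e6⟩
        interval_cases i <;> exact absurd this n2
    have b1 : (stabilizer G L₁ ⊓ stabilizer G L₂).index ≤ 16 := by
      refine Subgroup.index_inf_le.trans ?_
      rw [nf.sidx _ (by simp), nf.sidx _ (by simp), h4]
    have b2 : Nat.card ↥(stabilizer G L₁ ⊓ stabilizer G L₂) ≤ 26 := by
      refine (Subgroup.card_le_of_le hK).trans (Nat.le_of_dvd (by norm_num) ?_)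
      simpa [hc] using sf.card
    have b3 := (stabilizer G L₁ ⊓ stabilizer G L₂).card_mul_index
    have b4 := nf.d2
    rw [h4, hn] at b4
    have b5 := Nat.le_of_dvd Nat.card_pos (b4.resolve_left (by norm_num))
    have := Nat.mul_le_mul b2 b1
    omega

end Pool.Agent.MP_f8e15f_co.RNB2
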