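import Pool.Agent.MP_f8e15f_co.H33.Spec2

/-! The arithmetic of the regular symplectic case. -/

namespace Pool.Agent.MP_f8e15f_co.RNBN

theorem key {φ δ k r O f : ℕ} (h2 : 2 ≤ φ) (hk : k + 1 ≤ δ) (hO : 0 < O) (hf : 1 ≤ f)
    (h : (φ ^ δ - 1) * (φ ^ δ + 1 - r) ∣ O * (f * (φ - 1))) :
    φ ^ k * (φ ^ (k + 1) + 1 - r) ≤ O * f := by
  have a1 : φ ^ (k + 1) ≤ φ ^ δ := Nat.pow_le_pow_right (by omega) hk
  have a2 : φ ^ k * (φ - 1) ≤ φ ^ δ - 1 := by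
    have : 1 ≤ φ ^ k := Nat.one_le_pow _ _ (by omega)
    rw [Nat.mul_sub_one, ← pow_succ]
    omega
  have a3 : φ ^ (k + 1) + 1 - r ≤ φ ^ δ + 1 - r := by omega
  have a4 := Nat.le_of_dvd (Nat.mul_pos hO (Nat.mul_pos hf (by omega))) h
  have a5 := (Nat.mul_le_mul a2 a3).trans a4
  refine Nat.le_of_mul_le_mul_right ?_ (show 0 < φ - 1 by omega)
  calc φ ^ k * (φ ^ (k + 1) + 1 - r) * (φ - 1)
      = φ ^ k * (φ - 1) * (φ ^ (k + 1) + 1 - r) := by ring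
    _ ≤ O * (f * (φ - 1)) := a5
    _ = _ := by ring

theorem f_lt {φ f a : ℕ} (h : 2 ^ f ≤ φ) (h' : φ < 2 ^ a) : f < a :=
  (Nat.pow_lt_pow_iff_right (by norm_num)).1 (h.trans_lt h')

theorem three_pow {f : ℕ} (h : 5 ≤ f) : 24 * f + 3 < 3 ^ f := by
  induction f, h using Nat.le_induction with
  | base => norm_num
  | succ f _ ih => rw [pow_succ]; omega

set_option synthInstance.maxSize 1000 in
theorem d2 : ∀ f < 5, ∀ p < 100, 1 ≤ f ∧ p % 2 = 1 ∧ 3 ≤ p ∧ p ≠ 15 ∧ p ^ f + 1 - 4 ∣ 24 * f →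
    p ^ f ∈ [3, 5, 7, 9, 11, 27] := by decide +kernel

set_option synthInstance.maxSize 1000 in
theorem d3 : ∀ φ < 21, ∀ f < 5, 1 ≤ f → 2 ^ f ≤ φ → 4 ≤ φ →
    ¬ φ ^ 2 * (φ ^ (2 + 1) + 1 - 9) ≤ 432 * f ∧
      ¬ (φ ^ 2 - 1) * (φ ^ 2 + 1 - 9) ∣ 432 * (f * (φ - 1)) := by decide +kernel

set_option synthInstance.maxSize 1000 in
theorem d81 : ∀ φ < 10, ∀ f < 4, ∀ δ < 13, 1 ≤ f ∧ 2 ^ f ≤ φ ∧ 4 ≤ φ ∧ 3 ∣ φ - 1 ∧ 5 ≤ δ →
    ¬ 81 * (φ ^ δ - 1) ∣ 81 * 645120 * (f * (φ - 1)) := by decide +kernel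

theorem two {p f δ : ℕ} (hp : p.Prime) (hf : 1 ≤ f) (hδ : 1 ≤ δ) (ht : 2 ∣ p ^ f - 1)
    (h2 : 2 ^ f ≤ p ^ f) (h3 : 3 ≤ p ^ f) (hA : 4 * ((p ^ f) ^ δ - 1) ∣ 24 * (f * (p ^ f - 1)))
    (hB : 4 = (p ^ f) ^ δ + 1 ∨
      ((p ^ f) ^ δ - 1) * ((p ^ f) ^ δ + 1 - 4) ∣ 24 * (f * (p ^ f - 1))) :
    δ = 1 ∧ p ^ f ∈ [3, 5, 7, 9, 11, 27] := by
  have ff : f < p ^ f := Nat.lt_two_pow_self.trans_le h2
  rcases hδ.eq_or_lt with rfl | hδ
  · refine ⟨rfl, ?_⟩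
    rw [pow_one] at hB
    rcases hB with hB | hB
    · rw [show p ^ f = 3 by omega]
      simp
    have p2 : p % 2 = 1 := by
      refine hp.eq_two_or_odd.resolve_left ?_
      rintro rfl
      have : 2 ∣ 2 ^ f := dvd_pow_self 2 (by omega)
      omega
    have p3 : 3 ≤ p := by have := hp.two_le; omega
    have b1 : p ^ f + 1 - 4 ∣ 24 * f := by
      rw [← mul_assoc, mul_comm (24 * f)] at hB
      exact Nat.dvd_of_mul_dvd_mul_left (by omega) hB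
    have b2 := Nat.le_of_dvd (by omega) b1
    have b3 : 3 ^ f ≤ p ^ f := Nat.pow_le_pow_left p3 f
    have b4 : f < 5 := by
      by_contra h
      have := three_pow (not_lt.1 h)
      omega
    have b5 : p ≤ p ^ f := Nat.le_self_pow (by omega) p
    exact d2 f b4 p (by omega) ⟨hf, p2, p3, by rintro rfl; norm_num at hp, b1⟩
  · exfalso
    generalize p ^ f = φ at *
    have c1 : φ ^ 2 ≤ φ ^ δ := Nat.pow_le_pow_right (by omega) hδ
    have c2 : 9 ≤ φ ^ 2 := by nlinarith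
    have c3 := key (k := 1) (by omega) hδ (by norm_num) hf (hB.resolve_left (by omega))
    have c4 : φ ≤ 5 := by
      by_contra h
      have : 6 ^ (1 + 1) ≤ φ ^ (1 + 1) := Nat.pow_le_pow_left (by omega) _
      have h5 : 33 ≤ φ ^ (1 + 1) + 1 - 4 := by omega
      have := Nat.mul_le_mul_left (φ ^ 1) h5
      rw [pow_one] at this c3
      omega
    obtain rfl | rfl : φ = 3 ∨ φ = 5 := by omega
    · obtain rfl : f = 1 := by have := f_lt (a := 2) h2 (by norm_num); omega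
      have c5 := Nat.le_of_dvd (by norm_num) hA
      have c6 : δ < 3 := (Nat.pow_lt_pow_iff_right (a := 3) (by norm_num)).1 (by omega)
      obtain rfl : δ = 2 := by omega
      norm_num at hA
    · norm_num at c3
      omega

theorem three {φ f δ : ℕ} (hf : 1 ≤ f) (hδ : 2 ≤ δ) (h2 : 2 ^ f ≤ φ) (h4 : 4 ≤ φ)
    (hB : (φ ^ δ - 1) * (φ ^ δ + 1 - 9) ∣ 432 * (f * (φ - 1))) : False := by
  have ff : f < φ := Nat.lt_two_pow_self.trans_le h2
  have c3 := key (k := 1) (by omega) hδ (by norm_num) hf hB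
  have c4 : φ < 21 := by
    by_contra h
    have : 21 ^ (1 + 1) ≤ φ ^ (1 + 1) := Nat.pow_le_pow_left (by omega) _
    have h5 : 433 ≤ φ ^ (1 + 1) + 1 - 9 := by omega
    have := Nat.mul_le_mul_left (φ ^ 1) h5
    rw [pow_one] at this c3
    omega
  obtain ⟨a, b⟩ := d3 φ c4 f (f_lt h2 (by omega)) hf h2 h4
  rcases hδ.eq_or_lt with rfl | hδ
  · exact b hB
  · exact a (key (by omega) hδ (by norm_num) hf hB)

theorem five {φ f δ : ℕ} (hf : 1 ≤ f) (hδ : 3 ≤ δ) (h2 : 2 ^ f ≤ φ) (h4 : 6 ≤ φ) (h5 : 5 ∣ φ - 1)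
    (hB : (φ ^ δ - 1) * (φ ^ δ + 1 - 25) ∣ 2400 * (f * (φ - 1))) : False := by
  have ff : f < φ := Nat.lt_two_pow_self.trans_le h2
  have c3 := key (k := 2) (by omega) hδ (by norm_num) hf hB
  by_cases h : φ = 6
  · subst h
    have := f_lt (a := 3) h2 (by norm_num)
    norm_num at c3
    omega
  · have h8 : 11 ≤ φ := by omega
    have : 11 ^ (2 + 1) ≤ φ ^ (2 + 1) := Nat.pow_le_pow_left h8 _
    have h6 : 1000 ≤ φ ^ (2 + 1) + 1 - 25 := by omega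
    have := Nat.mul_le_mul_left (φ ^ 2) h6
    nlinarith

theorem seven {φ f δ t O : ℕ} (hf : 1 ≤ f) (hδ : 4 ≤ δ) (h2 : 2 ^ f ≤ φ) (h4 : t < φ) (h7 : 7 ≤ t)
    (hO : 0 < O) (hO' : O ≤ t ^ 2 * (4 * t ^ 2))
    (hB : (φ ^ δ - 1) * (φ ^ δ + 1 - t ^ 2) ∣ O * (f * (φ - 1))) : False := by
  have ff : f < φ := Nat.lt_two_pow_self.trans_le h2
  have c3 := key (k := 3) (by omega) hδ hO hf hB
  have c1 : t ^ 2 ≤ φ ^ 2 := Nat.pow_le_pow_left h4.le _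
  have c2 : 64 ≤ φ ^ 2 := by nlinarith
  have c4 : 64 * φ ^ 2 ≤ φ ^ (3 + 1) := by
    rw [show φ ^ (3 + 1) = φ ^ 2 * φ ^ 2 by ring]
    exact Nat.mul_le_mul_right _ c2
  have c5 : 63 * φ ^ 2 ≤ φ ^ (3 + 1) + 1 - t ^ 2 := by omega
  have c6 := (Nat.mul_le_mul_left (φ ^ 3) c5).trans c3
  have c7 : O * f ≤ φ ^ 2 * (4 * φ ^ 2) * φ :=
    Nat.mul_le_mul (hO'.trans (Nat.mul_le_mul c1 (by omega))) ff.le
  have c8 : 0 < φ ^ 5 := Nat.pow_pos (by omega)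
  have e1 : φ ^ 3 * (63 * φ ^ 2) = 63 * φ ^ 5 := by ring
  have e2 : φ ^ 2 * (4 * φ ^ 2) * φ = 4 * φ ^ 5 := by ring
  omega

theorem big {φ f δ : ℕ} (hf : 1 ≤ f) (hδ : 5 ≤ δ) (h2 : 2 ^ f ≤ φ) (h4 : 4 ≤ φ) (h3 : 3 ∣ φ - 1)
    (hA : 81 * (φ ^ δ - 1) ∣ 81 * 645120 * (f * (φ - 1)))
    (hB : (φ ^ δ - 1) * (φ ^ δ + 1 - 81) ∣ 81 * 645120 * (f * (φ - 1))) : False := by
  have ff : f < φ := Nat.lt_two_pow_self.trans_le h2
  have c3 := key (k := 4) (by omega) hδ (by norm_num) hf hB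
  have c4 : φ < 10 := by
    by_contra h
    have h8 : 10 ≤ φ := by omega
    have : 10 ^ (4 + 1) ≤ φ ^ (4 + 1) := Nat.pow_le_pow_left h8 _
    have h6 : 90000 ≤ φ ^ (4 + 1) + 1 - 81 := by omega
    have h7 := Nat.mul_le_mul_left (φ ^ 4) h6
    have h9 : 10 ^ 3 * φ ≤ φ ^ 4 := by
      rw [show φ ^ 4 = φ ^ 3 * φ by ring]
      exact Nat.mul_le_mul_right _ (Nat.pow_le_pow_left h8 _)
    omega
  have c5 : f < 4 := f_lt h2 (by omega)
  have c6 : f * (φ - 1) ≤ 3 * 8 := Nat.mul_le_mul (by omega) (by omega)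
  have c7 := Nat.le_of_dvd (Nat.mul_pos (by norm_num) (Nat.mul_pos hf (by omega))) hA
  have c8 : 4 ^ δ ≤ φ ^ δ := Nat.pow_le_pow_left h4 _
  have c9 : δ < 13 := (Nat.pow_lt_pow_iff_right (a := 4) (by norm_num)).1 (by omega)
  exact d81 φ c4 f c5 δ c9 ⟨hf, h2, h4, h3, hδ⟩ hA

theorem row : H33.NBN := by
  intro p f t δ r o g hp ht hf hδ htφ hr1 _ hg hA hB hc
  have h2 : 2 ^ f ≤ p ^ f := Nat.pow_le_pow_left hp.two_le f
  have h3 : 2 ^ 1 ≤ 2 ^ f := Nat.pow_le_pow_right (by norm_num) hf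
  have h4 : t ≤ p ^ f - 1 := Nat.le_of_dvd (by omega) htφ
  have h5 := ht.two_le
  have up : ∀ {O : ℕ}, o ∣ O → g ∣ O * (f * (p ^ f - 1)) := fun h =>
    hg.trans (Nat.mul_dvd_mul_right h _)
  rcases hc with ⟨rfl, hc⟩ | ⟨rfl, rfl, hc⟩
  · by_cases t2 : t = 2
    · subst t2
      have ho : o ∣ 24 := by simpa using hc
      exact ⟨rfl, two hp hf hδ htφ h2 (by omega) (hA.trans (up ho))
        (hB.imp id fun h => h.trans (up ho))⟩
    exfalso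
    have todd : t % 2 = 1 := ht.eq_two_or_odd.resolve_left t2
    have tδ : t ≤ 2 * δ := (Nat.pow_le_pow_iff_left (by norm_num)).1 hr1
    have c1 : (p ^ f) ^ 2 ≤ (p ^ f) ^ δ := Nat.pow_le_pow_right (by omega) (by omega)
    have c2 : t ^ 2 ≤ (p ^ f) ^ 2 := Nat.pow_le_pow_left (by omega) _
    have hB' := hB.resolve_left (by omega)
    by_cases t3 : t = 3
    · subst t3
      have ho : o ∣ 432 := hc.elim (fun h => h.trans (by norm_num)) fun h => h.2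
      exact three hf (by omega) h2 (by omega) (hB'.trans (up ho))
    by_cases t5 : t = 5
    · subst t5
      have ho : o ∣ 2400 := hc.elim (fun h => h.trans (by norm_num)) fun h => h.2
      exact five hf (by omega) h2 (by omega) htφ (hB'.trans (up ho))
    have t7 : 7 ≤ t := by omega
    have c3 : 7 * t ≤ t ^ 2 := by nlinarith
    rcases hc with h | ⟨-, h⟩
    · exact seven hf (by omega) h2 (by omega) t7 (Nat.mul_pos (by omega) (by omega))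
        (Nat.mul_le_mul_left _ (by omega)) (hB'.trans (up h))
    · exact seven hf (by omega) h2 (by omega) t7 (Nat.mul_pos (by omega) (by omega))
        (Nat.mul_le_mul_left _ (by omega)) (hB'.trans (up h))
  · exfalso
    have tδ : 9 ≤ 2 * δ := (Nat.pow_le_pow_iff_left (n := 2) (by norm_num)).1 hr1
    have c1 : (p ^ f) ^ 5 ≤ (p ^ f) ^ δ := Nat.pow_le_pow_right (by omega) (by omega)
    have c2 : 4 ^ 5 ≤ (p ^ f) ^ 5 := Nat.pow_le_pow_left (by omega) _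
    exact big hf (by omega) h2 (by omega) htφ (hA.trans (up hc))
      ((hB.resolve_left (by omega)).trans (up hc))

end Pool.Agent.MP_f8e15f_co.RNBN
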