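import Pool.Agent.MP_f8e15f_co.H33.Spec2

/-! The imprimitive case for nets. -/

set_option autoImplicit false

open MulAction Pointwise

namespace Pool.Agent.MP_f8e15f_co.RNIMP

open Pool.Agent.MP_f8e15f_co.H33 Pool.Agent.MP_f8e15f_co.H24

section arith

lemma pow_big (e : ℕ) (h : 7 ≤ e) : 2 * e ^ 2 + 2 < 2 ^ e := by
  induction e, h using Nat.le_induction with
  | base => norm_num
  | succ k hk ih => rw [pow_succ 2 k]; nlinarith

lemma plain {p e : ℕ} (hp : p.Prime) (he : 1 ≤ e) (h4 : 4 ≤ p ^ e) (h : p ^ e - 2 ∣ 2 * e ^ 2) :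
    p ^ e = 4 ∨ p ^ e = 8 := by
  have h1 : p ^ e - 2 ≤ 2 * e ^ 2 := Nat.le_of_dvd (by positivity) h
  have h2 : 2 ^ e ≤ p ^ e := Nat.pow_le_pow_left hp.two_le e
  have h3 : e < 7 := by
    by_contra hc
    have := pow_big e (by omega)
    omega
  have h5 : p ≤ 8 := by
    by_contra hc
    have : 9 ^ e ≤ p ^ e := Nat.pow_le_pow_left (by omega) e
    interval_cases e <;> omega
  have := hp.two_le
  interval_cases e <;> interval_cases p <;> omega

lemma noq {p e q n a b : ℕ} (hp : p.Prime) (he : 1 ≤ e) (hn : p ^ e = n) (hq : q.Prime)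
    (h1 : q ∣ n - 2) (h2 : ¬q ∣ n - 1) (h3 : n < 2 ^ q) (h4 : ¬q ∣ 2)
    (h5 : ∀ c, ExN n c → ¬q ∣ c) (h : n - 2 ∣ 2 * (a * b)) (ha : a ∣ e * (n - 1) ∨ ExN n a)
    (hb : b ∣ e * (n - 1) ∨ ExN n b) : False := by
  have h6 : e < q := (Nat.pow_lt_pow_iff_right one_lt_two).1
    (((Nat.pow_le_pow_left hp.two_le e).trans_eq hn).trans_lt h3)
  have k : ∀ c, (c ∣ e * (n - 1) ∨ ExN n c) → ¬q ∣ c := fun c hc d => hc.elim
    (fun x => ((Nat.Prime.dvd_mul hq).1 (d.trans x)).elim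
      (fun y => absurd (Nat.le_of_dvd he y) (by omega)) h2) fun x => h5 c x d
  exact ((Nat.Prime.dvd_mul hq).1 (h1.trans h)).elim h4 fun x =>
    ((Nat.Prime.dvd_mul hq).1 x).elim (k a ha) (k b hb)

lemma exn {n c : ℕ} (h : ExN n c) : (n = 9 ∧ c ∣ 48) ∨ (n = 25 ∧ c ∣ 96) ∨ (n = 49 ∧ c ∣ 144) ∨
    (n = 121 ∧ c ∣ 240) ∨ (n = 529 ∧ c ∣ 528) ∨ (n = 81 ∧ c ∣ 645120) := by
  rcases h with ⟨p, hp, h⟩ | h
  · simp only [List.mem_cons, List.not_mem_nil, or_false] at hp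
    rcases hp with rfl | rfl | rfl | rfl | rfl <;> norm_num at h <;> simp [h]
  · simp [h]

lemma noex {p e n a b c : ℕ} (hp : p.Prime) (he : 1 ≤ e) (hn : p ^ e = n)
    (h : n - 2 ∣ 2 * (a * b)) (ha : a ∣ e * (n - 1) ∨ ExN n a) (hb : b ∣ e * (n - 1) ∨ ExN n b)
    (hc : ExN n c) : False := by
  have k : ∀ q m : ℕ, ¬q ∣ m → (∀ c, ExN n c → c ∣ m) → ∀ c, ExN n c → ¬q ∣ c :=
    fun q m h1 h2 c x d => h1 (d.trans (h2 c x))
  rcases exn hc with h0 | h0 | h0 | h0 | h0 | h0 <;> obtain ⟨rfl, -⟩ := h0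
  · exact noq (q := 7) hp he hn (by norm_num) (by norm_num) (by norm_num) (by norm_num)
      (by norm_num) (k _ 48 (by norm_num) fun c x => by simpa using exn x) h ha hb
  · exact noq (q := 23) hp he hn (by norm_num) (by norm_num) (by norm_num) (by norm_num)
      (by norm_num) (k _ 96 (by norm_num) fun c x => by simpa using exn x) h ha hb
  · exact noq (q := 47) hp he hn (by norm_num) (by norm_num) (by norm_num) (by norm_num)
      (by norm_num) (k _ 144 (by norm_num) fun c x => by simpa using exn x) h ha hb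
  · exact noq (q := 7) hp he hn (by norm_num) (by norm_num) (by norm_num) (by norm_num)
      (by norm_num) (k _ 240 (by norm_num) fun c x => by simpa using exn x) h ha hb
  · exact noq (q := 17) hp he hn (by norm_num) (by norm_num) (by norm_num) (by norm_num)
      (by norm_num) (k _ 528 (by norm_num) fun c x => by simpa using exn x) h ha hb
  · exact noq (q := 79) hp he hn (by norm_num) (by norm_num) (by norm_num) (by norm_num)
      (by norm_num) (k _ 645120 (by norm_num) fun c x => by simpa using exn x) h ha hb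

lemma arith {p e a b : ℕ} (hp : p.Prime) (he : 1 ≤ e) (h4 : 4 ≤ p ^ e)
    (h : p ^ e - 2 ∣ 2 * (a * b)) (ha : a ∣ e * (p ^ e - 1) ∨ ExN (p ^ e) a)
    (hb : b ∣ e * (p ^ e - 1) ∨ ExN (p ^ e) b) : p ^ e = 4 ∨ p ^ e = 8 := by
  have a1 := ha.resolve_right (noex hp he rfl h ha hb)
  have b1 := hb.resolve_right (noex hp he rfl h ha hb)
  refine plain hp he h4 ?_
  have c : (p ^ e - 2).Coprime (p ^ e - 1) := by
    rw [show p ^ e - 1 = p ^ e - 2 + 1 by omega]
    exact Nat.coprime_self_add_right.2 (Nat.coprime_one_right _)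
  refine (c.pow_right 2).dvd_of_dvd_mul_right (h.trans ?_)
  convert mul_dvd_mul_left 2 (mul_dvd_mul a1 b1) using 1
  ring

end arith

section sub
variable {V : Type} [AddCommGroup V] [Finite V] {A B : AddSubgroup V}

omit [Finite V] in
lemma eq_zero (h : A ⊓ B = ⊥) {v : V} (a : v ∈ A) (b : v ∈ B) : v = 0 :=
  AddSubgroup.mem_bot.1 (h ▸ AddSubgroup.mem_inf.2 ⟨a, b⟩)

omit [Finite V] in
lemma add_inj (h : A ⊓ B = ⊥) : Function.Injective fun x : A × B => (x.1 : V) + x.2 := by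
  rintro ⟨a, b⟩ ⟨a', b'⟩ e
  have e1 : (a : V) - a' = b' - b := by
    rw [sub_eq_sub_iff_add_eq_add, add_comm (b' : V)]; exact e
  have z := eq_zero h (sub_mem a.2 a'.2) (e1 ▸ sub_mem b'.2 b.2)
  exact Prod.ext (Subtype.ext (sub_eq_zero.1 z)) (Subtype.ext (sub_eq_zero.1 (e1 ▸ z)).symm)

omit [Finite V] in
lemma dec (h : IsCompl A B) (v : V) : ∃ a ∈ A, ∃ b ∈ B, a + b = v :=
  AddSubgroup.mem_sup.1 (h.sup_eq_top ▸ AddSubgroup.mem_top v)

omit [Finite V] in
lemma card_compl (h : IsCompl A B) : Nat.card A * Nat.card B = Nat.card V := by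
  rw [← Nat.card_prod]
  refine Nat.card_eq_of_bijective _ ⟨add_inj h.inf_eq_bot, fun v => ?_⟩
  obtain ⟨a, ha, b, hb, e⟩ := dec h v
  exact ⟨(⟨a, ha⟩, ⟨b, hb⟩), e⟩

lemma compl_card (h : A ⊓ B = ⊥) (c : Nat.card A * Nat.card B = Nat.card V) : IsCompl A B := by
  refine IsCompl.of_eq h (eq_top_iff.2 fun v _ => ?_)
  obtain ⟨x, e⟩ := ((Nat.bijective_iff_injective_and_card _).2
    ⟨add_inj h, (Nat.card_prod _ _).trans c⟩).2 v
  exact AddSubgroup.mem_sup.2 ⟨_, x.1.2, _, x.2.2, e⟩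

variable {G : Type} [Group G] [DistribMulAction G V]

omit [Finite V] in
lemma mv {g : G} (h : g • A = B) {v : V} (a : v ∈ A) : g • v ∈ B :=
  h ▸ AddSubgroup.smul_mem_pointwise_smul v g A a

lemma card_le {g : G} (h : g • A = B) : Nat.card A ≤ Nat.card B :=
  Nat.card_le_card_of_injective (fun x : A => (⟨g • x.1, mv h x.2⟩ : B)) fun _ _ e =>
    Subtype.ext (MulAction.injective g (congrArg Subtype.val e))

/-- an element of order seven has seven further points in an invariant subgroup -/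
lemma seven {k : G} (hk : orderOf k = 7) (hA : ∀ v ∈ A, k • v ∈ A) {v : V} (hv : v ∈ A)
    (hn : k • v ≠ v) (S : Set V) (hS : ∀ y ∈ S, y ∈ A ∧ k • y = y) :
    S.ncard + 7 ≤ Nat.card A := by
  have fin : IsOfFinOrder k := orderOf_pos_iff.1 (by omega)
  have inv : ∀ h ∈ Subgroup.zpowers k, ∀ x ∈ A, h • x ∈ A := fun h hh => by
    obtain ⟨n, rfl⟩ := fin.mem_powers_iff_mem_zpowers.2 hh
    induction n with
    | zero => simp
    | succ n ih =>
      intro x hx
      simp only [pow_succ, mul_smul]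
      exact ih (Subgroup.npow_mem_zpowers k n) _ (hA x hx)
  have o : (orbit (Subgroup.zpowers k) v).ncard = 7 := by
    have d := (stabilizer (Subgroup.zpowers k) v).index_dvd_card
    rw [Nat.card_zpowers, hk, Nat.dvd_prime (by norm_num)] at d
    rw [← index_stabilizer]
    refine d.resolve_left fun e => hn ?_
    exact mem_stabilizer_iff.1
      ((Subgroup.index_eq_one.1 e).ge (Subgroup.mem_top ⟨k, Subgroup.mem_zpowers k⟩))
  have dj : Disjoint S (orbit (Subgroup.zpowers k) v) := Set.disjoint_left.2 fun y hy ⟨h, e⟩ => by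
    have f : h.1⁻¹ ∈ stabilizer G y :=
      Subgroup.zpowers_le.2 (mem_stabilizer_iff.2 (hS y hy).2) (inv_mem h.2)
    have e' : v = y := by
      rw [← mem_stabilizer_iff.1 f, eq_inv_smul_iff]; exact e
    exact hn (e' ▸ (hS y hy).2)
  rw [← o, ← Set.ncard_union_eq dj]
  exact Set.ncard_le_ncard (t := (A : Set V)) fun y hy =>
    hy.elim (fun h => (hS y h).1) fun ⟨h, e⟩ => e ▸ inv h.1 h.2 v hv

end sub

section main
variable {G V : Type} [Group G] [Finite G] [AddCommGroup V] [Finite V] [DistribMulAction G V]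
  {𝓜 : Set (AddSubgroup V)} {p e : ℕ} {A B : AddSubgroup V}

/-- the data of the decomposition -/
structure Dc (G : Type) {V : Type} [Group G] [AddCommGroup V] [DistribMulAction G V]
    (𝓜 : Set (AddSubgroup V)) (n : ℕ) (A B : AddSubgroup V) : Prop where
  cp : IsCompl A B
  nA : A ≠ ⊥
  nB : B ≠ ⊥
  sw : ∀ g : G, (g • A = A ∧ g • B = B) ∨ (g • A = B ∧ g • B = A)
  ex : ∃ g : G, g • A = B
  cA : Nat.card A = n
  cB : Nat.card B = n
  o2 : ∀ v, v ∈ O2 𝓜 ↔ v ≠ 0 ∧ (v ∈ A ∨ v ∈ B)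
  r : 𝓜.ncard + 1 = n

omit [Finite G] in
lemma dc (N : Net G 𝓜) (F : NF G 𝓜 p e) (S : Split G V) : ∃ A B, Dc G 𝓜 (p ^ e) A B := by
  obtain ⟨A, B, nA, nB, cp, sw⟩ := S
  obtain ⟨g, g1, g2⟩ : ∃ g : G, g • A = B ∧ g • B = A := by
    by_contra hc
    rcases N.irr A fun g x hx => mv ((sw g).resolve_right fun h => hc ⟨g, h⟩).1 hx with h | h
    · exact nA h
    · exact nB (by simpa [h] using cp.inf_eq_bot)
  have c1 : Nat.card A = Nat.card B := (card_le g1).antisymm (card_le g2)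
  have c2 := card_compl cp
  rw [F.cV, ← c1, ← sq] at c2
  have cA : Nat.card A = p ^ e := Nat.pow_left_injective two_ne_zero c2
  have cB := c1 ▸ cA
  have n2 : 2 ≤ p ^ e := F.prime.two_le.trans (Nat.le_self_pow (by have := F.pos; omega) p)
  obtain ⟨m, hm⟩ : ∃ m, p ^ e = m + 1 := ⟨p ^ e - 1, by omega⟩
  have cW : ((A : Set V) \ {0} ∪ (B : Set V) \ {0}).ncard = 2 * m := by
    rw [Set.ncard_union_eq (Set.disjoint_left.2 fun v a b => a.2 (eq_zero cp.inf_eq_bot a.1 b.1)),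
      Set.ncard_sdiff_singleton_of_mem A.zero_mem, Set.ncard_sdiff_singleton_of_mem B.zero_mem]
    change Nat.card A - 1 + (Nat.card B - 1) = _
    omega
  have r3 := N.three
  have c1 := F.c1
  have c2 := F.c2
  have le := F.le
  rw [hm, Nat.add_sub_cancel] at c1 c2
  rcases F.orb ((A : Set V) \ {0} ∪ (B : Set V) \ {0}) (fun g v hv => by
      have z : ∀ {w : V}, w ∉ ({0} : Set V) → g • w ∉ ({0} : Set V) := fun h =>
        (smul_ne_zero_iff_ne g).2 h
      rcases sw g with s | s <;> rcases hv with a | a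
      exacts [Or.inl ⟨mv s.1 a.1, z a.2⟩, Or.inr ⟨mv s.2 a.1, z a.2⟩, Or.inr ⟨mv s.1 a.1, z a.2⟩,
        Or.inl ⟨mv s.2 a.1, z a.2⟩]) (by simp) with h | h | h | h <;> rw [h] at cW
  · rw [Set.ncard_empty] at cW; omega
  · have := Nat.eq_of_mul_eq_mul_right (by omega) (c1.symm.trans cW)
    omega
  · have := Nat.eq_of_mul_eq_mul_left (by omega) (c2.symm.trans (cW.trans (mul_comm _ _)))
    refine ⟨A, B, cp, nA, nB, sw, ⟨g, g1⟩, cA, cB, fun v => ?_, by omega⟩
    rw [← h, and_or_left]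
    exact or_congr and_comm and_comm
  · have := Set.ncard_add_ncard_compl ({0} : Set V)
    rw [cW, Set.ncard_singleton, F.cV, hm] at this
    nlinarith

namespace Dc
variable {n : ℕ} (D : Dc G 𝓜 n A B)
include D

omit [Finite G] [Finite V] in
lemma ne : A ≠ B := fun h => D.nB (by simpa [h] using D.cp.inf_eq_bot)

omit [Finite G] [Finite V] in
lemma st {g : G} (h : g ∈ stabilizer G A) : g • A = A ∧ g • B = B :=
  (D.sw g).resolve_right fun s => D.ne ((mem_stabilizer_iff.1 h).symm.trans s.1)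

omit [Finite G] [Finite V] in
lemma idx : (stabilizer G A).index = 2 := by
  rw [index_stabilizer, ← Set.ncard_pair D.ne]
  congr 1
  ext W
  refine ⟨?_, ?_⟩
  · rintro ⟨g, rfl⟩
    exact (D.sw g).imp And.left And.left
  · rintro (rfl | rfl)
    exacts [mem_orbit_self _, D.ex]

omit [Finite V] in
lemma ord (f : Faith G V) : Nat.card G ∣ 2 * ((fixingSubgroup G (A : Set V)).relIndex
    (stabilizer G A) * (fixingSubgroup G (B : Set V)).relIndex (stabilizer G A)) := by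
  rw [← (stabilizer G A).index_mul_card, D.idx]
  refine mul_dvd_mul_left 2 ?_
  set H := stabilizer G A
  have nm : ((fixingSubgroup G (A : Set V)).subgroupOf H).Normal := ⟨fun x hx g => by
    rw [Subgroup.mem_subgroupOf, mem_fixingSubgroup_iff] at hx ⊢
    intro y hy
    rw [Subgroup.coe_mul, Subgroup.coe_mul, mul_smul, mul_smul, hx _ (mv (D.st g⁻¹.2).1 hy),
      Subgroup.coe_inv, smul_inv_smul]⟩
  have bot : (fixingSubgroup G (A : Set V)).subgroupOf H ⊓
      (fixingSubgroup G (B : Set V)).subgroupOf H = ⊥ := eq_bot_iff.2 fun x ⟨a, b⟩ => by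
    refine Subgroup.mem_bot.2 (Subtype.ext (f x.1 fun v => ?_))
    obtain ⟨y, hy, z, hz, rfl⟩ := dec D.cp v
    rw [smul_add]
    exact congrArg₂ _ ((mem_fixingSubgroup_iff G).1 a y hy) ((mem_fixingSubgroup_iff G).1 b z hz)
  rw [← Subgroup.index_bot, ← bot, ← Subgroup.relIndex_mul_index inf_le_right,
    Subgroup.inf_relIndex_right]
  exact mul_dvd_mul_right (Subgroup.relIndex_dvd_index_of_normal _ _) _

omit [Finite G] in
lemma cpl (F : NF G 𝓜 p e) (hn : n = p ^ e) {L : AddSubgroup V} (hL : L ∈ 𝓜) :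
    IsCompl A L ∧ IsCompl L B := by
  have z : ∀ v ∈ L, (v ∈ A ∨ v ∈ B) → v = 0 := fun v a b => by_contra fun h =>
    (D.o2 v).2 ⟨h, b⟩ L hL a
  exact ⟨compl_card (eq_bot_iff.2 fun v h => z v h.2 (Or.inl h.1))
      (by rw [D.cA, F.cL L hL, F.cV, hn, sq]),
    compl_card (eq_bot_iff.2 fun v h => z v h.1 (Or.inr h.2))
      (by rw [D.cB, F.cL L hL, F.cV, hn, sq])⟩

end Dc

lemma four_eight [Group.IsSolvable G] (H : HUP) (N : Net G 𝓜) (F : NF G 𝓜 p e)
    (D : Dc G 𝓜 (p ^ e) A B) : p ^ e = 4 ∨ p ^ e = 8 := by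
  have r3 := N.three
  have r := D.r
  have tA : ∀ x ∈ A, ∀ y ∈ A, x ≠ 0 → y ≠ 0 → ∃ h ∈ stabilizer G A, h • x = y :=
    fun x hx y hy x0 y0 => by
      obtain ⟨g, rfl⟩ := N.t2 x y ((D.o2 x).2 ⟨x0, Or.inl hx⟩) ((D.o2 y).2 ⟨y0, Or.inl hy⟩)
      exact ⟨g, (D.sw g).elim And.left fun s => absurd (eq_zero D.cp.inf_eq_bot hy (mv s.1 hx)) y0,
        rfl⟩
  have tB : ∀ x ∈ B, ∀ y ∈ B, x ≠ 0 → y ≠ 0 → ∃ h ∈ stabilizer G A, h • x = y :=
    fun x hx y hy x0 y0 => by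
      obtain ⟨g, rfl⟩ := N.t2 x y ((D.o2 x).2 ⟨x0, Or.inr hx⟩) ((D.o2 y).2 ⟨y0, Or.inr hy⟩)
      exact ⟨g, (D.sw g).elim And.left fun s => absurd (eq_zero D.cp.inf_eq_bot (mv s.2 hx) hy) y0,
        rfl⟩
  refine arith F.prime F.pos (by omega) (dvd_trans ?_ (D.ord N.faith))
    ((H.sub G V _ A p e F.prime D.nA D.cA (fun h hh x => mv (D.st hh).1) tA).imp_left And.left)
    ((H.sub G V _ B p e F.prime D.nB D.cB (fun h hh x => mv (D.st hh).2) tB).imp_left And.left)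
  rw [show p ^ e - 2 = 𝓜.ncard - 1 by omega]
  exact ((dvd_mul_left _ _).trans F.idx).trans (Kn G 𝓜).index_dvd_card

omit [Finite G] in
lemma four (X : EXP) (C : CRD) (F : NF G 𝓜 p e) (h3 : 𝓜.ncard = 3) (h4 : p ^ e = 4) : Slp 𝓜 := by
  obtain ⟨L₁, L₂, L₃, n12, n13, n23, hM⟩ := Set.ncard_eq_three.1 h3
  have m1 : L₁ ∈ 𝓜 := by simp [hM]
  have m2 : L₂ ∈ 𝓜 := by simp [hM]
  have m3 : L₃ ∈ 𝓜 := by simp [hM]
  have := (AddSubgroup.nontrivial_iff_ne_bot L₁).2 (F.ne _ m1)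
  obtain ⟨K, _, _, ⟨φ⟩⟩ := X.elf L₁ p F.prime fun x => Subtype.ext (F.tor x.1)
  obtain ⟨c, c1, c2, c3⟩ := C.std V K L₁ L₂ L₃ (F.compl _ m1 _ m2 n12) (F.compl _ m1 _ m3 n13)
    (F.compl _ m2 _ m3 n23) ⟨φ⟩
  refine ⟨K, _, ‹_›, {0, 1}, c, Or.inr (Or.inl ⟨?_, rfl⟩), fun L => ⟨fun h => ?_, fun h => ?_⟩⟩
  · rw [← Nat.card_congr φ.toEquiv, F.cL _ m1, h4]
  · rw [hM] at h
    rcases h with rfl | rfl | rfl
    · exact Or.inr ⟨0, by simp, by simpa using c1⟩
    · exact Or.inl c2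
    · exact Or.inr ⟨1, by simp, by simpa using c3⟩
  · rcases h with h | ⟨s, rfl | rfl, h⟩
    · rwa [show L = L₂ from AddSubgroup.ext fun v => (h v).trans (c2 v).symm]
    · rwa [show L = L₁ from AddSubgroup.ext fun v => (h v).trans (by simpa using (c1 v).symm)]
    · rwa [show L = L₃ from AddSubgroup.ext fun v => (h v).trans (by simpa using (c3 v).symm)]

lemma exk (F : NF G 𝓜 p e) (h7 : 𝓜.ncard = 7) (h8 : p ^ e = 8) :
    ∃ k ∈ Kn G 𝓜, orderOf k = 7 := by
  have : Fact (Nat.Prime 7) := ⟨by norm_num⟩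
  have d := F.d1
  have f := F.fac
  rw [h7, h8, ← (Kn G 𝓜).index_mul_card] at d
  rw [h7] at f
  have c : 7 ∣ Nat.card (Kn G 𝓜) := by
    by_contra hc
    have c : (7 * (8 - 1)).Coprime (Nat.card (Kn G 𝓜)) :=
      Nat.Coprime.mul_left ((Nat.Prime.coprime_iff_not_dvd this.out).2 hc)
        ((Nat.Prime.coprime_iff_not_dvd this.out).2 hc)
    exact absurd ((c.dvd_of_dvd_mul_right d).trans f) (by norm_num [Nat.factorial])
  obtain ⟨k, hk⟩ := exists_prime_orderOf_dvd_card' 7 c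
  exact ⟨k, k.2, by rw [Subgroup.orderOf_coe, hk]⟩

omit [Finite G] in
lemma free (N : Net G 𝓜) (F : NF G 𝓜 p e) (h8 : p ^ e = 8) {k : G} (hk : k ∈ Kn G 𝓜)
    (h7 : orderOf k = 7) {v : V} (hv : k • v = v) : v = 0 := by
  have inv := (F.mem k).1 hk
  have one : ∀ L ∈ 𝓜, ∀ a ∈ L, k • a = a → a = 0 := fun L hL a ha e => by_contra fun a0 => by
    have k1 : k ≠ 1 := fun z => by rw [z, orderOf_one] at h7; omega
    obtain ⟨x, hx, hn⟩ : ∃ x ∈ L, k • x ≠ x := by
      by_contra hc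
      push Not at hc
      exact k1 (F.kf L hL k hk hc)
    have := seven h7 (inv L hL) hx hn {a, 0} (by
      rintro y (rfl | rfl)
      exacts [⟨ha, e⟩, ⟨L.zero_mem, smul_zero k⟩])
    rw [Set.ncard_pair a0, F.cL L hL, h8] at this
    omega
  obtain ⟨L, hL, L', hL', ne⟩ := N.ex
  obtain ⟨a, ha, b, hb, rfl⟩ := dec (F.compl L hL L' hL' ne) v
  rw [smul_add] at hv
  have := add_inj (N.inf L hL L' hL' ne) (a₁ := (⟨_, inv L hL a ha⟩, ⟨_, inv L' hL' b hb⟩))
    (a₂ := (⟨a, ha⟩, ⟨b, hb⟩)) hv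
  rw [one L hL a ha (congrArg (fun x => x.1.1) this), one L' hL' b hb (congrArg (fun x => x.2.1) this),
    add_zero]

lemma eight (C : CRD) (N : Net G 𝓜) (F : NF G 𝓜 p e) (D : Dc G 𝓜 (p ^ e) A B) (h8 : p ^ e = 8) :
    Slp 𝓜 := by
  have h7 : 𝓜.ncard = 7 := by have := D.r; omega
  obtain ⟨k, hk, o7⟩ := exk F h7 h8
  have ks : k ∈ stabilizer G A := by
    have h2 : k * k ∈ stabilizer G A := by
      rw [mem_stabilizer_iff, mul_smul]
      rcases D.sw k with s | s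
      · rw [s.1, s.1]
      · rw [s.1, s.2]
    have : k = (k * k) ^ 4 := by
      rw [← sq, ← pow_mul, show 2 * 4 = 7 + 1 from rfl, pow_succ, ← o7, pow_orderOf_eq_one, one_mul]
    exact this ▸ pow_mem h2 4
  have z1 := Subgroup.zpowers_le.2 ks
  have z2 := Subgroup.zpowers_le.2 hk
  obtain ⟨L, hL, -⟩ := N.ex
  obtain ⟨U, Ψ, _, _, _, _, _, c, cr⟩ := C.crd G V (Subgroup.zpowers k) A L B
    (D.cpl F rfl hL).1 D.cp (D.cpl F rfl hL).2 D.nA (fun x hx =>
      ⟨fun v => mv (D.st (z1 hx)).1, (F.mem x).1 (z2 hx) L hL, fun v => mv (D.st (z1 hx)).2⟩)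
    fun W le inv => or_iff_not_imp_left.2 fun h => by
      obtain ⟨v, hv, v0⟩ := (AddSubgroup.bot_or_exists_ne_zero W).resolve_left h
      have := seven o7 (inv k (Subgroup.mem_zpowers k)) hv (fun z => v0 (free N F h8 hk o7 z)) {0}
        (by rintro y rfl; exact ⟨W.zero_mem, smul_zero k⟩)
      exact AddSubgroup.eq_of_le_of_card_ge le (by rw [Set.ncard_singleton] at this; rw [D.cA]; omega)
  have cU : Nat.card U = 8 := by rw [cr.card, D.cA, h8]
  have : Nontrivial U := Finite.one_lt_card_iff_nontrivial.1 (by omega)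
  obtain ⟨u, u0⟩ := exists_ne (0 : U)
  have inj : Function.Injective (LinearMap.toSpanSingleton Ψ U u) := fun s t h =>
    smul_left_injective Ψ u0 h
  have le := Nat.card_le_card_of_injective _ inj
  let gr : Ψ → AddSubgroup V := fun s =>
    { carrier := {v | (c v).2 = s • (c v).1}
      zero_mem' := by simp
      add_mem' := fun {a b} (ha : _ = _) (hb : _ = _) => by
        simp only [Set.mem_ofPred_eq, map_add, Prod.fst_add, Prod.snd_add, ha, hb, smul_add]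
      neg_mem' := fun {a} (ha : _ = _) => by
        simp only [Set.mem_ofPred_eq, map_neg, Prod.fst_neg, Prod.snd_neg, ha, smul_neg] }
  have nM : ∀ W, W ≠ ⊥ → (W = A ∨ W = B) → W ∉ 𝓜 := fun W h0 h hW => by
    obtain ⟨v, hv, v0⟩ := (AddSubgroup.bot_or_exists_ne_zero W).resolve_left h0
    exact (D.o2 v).2 ⟨v0, h.imp (fun e => e.le hv) fun e => e.le hv⟩ W hW hv
  have sub : 𝓜 \ {L} ⊆ gr '' {0, 1}ᶜ := fun W hW => by
    obtain ⟨s, hs⟩ := (cr.graph W (fun x hx => (F.mem x).1 (z2 hx) W hW.1)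
      (by rw [F.cL W hW.1, cU, h8])).resolve_left hW.2
    refine ⟨s, fun h => nM W (F.ne W hW.1) (h.imp ?_ ?_) hW.1, AddSubgroup.ext fun v => (hs v).symm⟩
    · rintro rfl
      exact AddSubgroup.ext fun v => (hs v).trans (by simpa using (cr.l1 v).symm)
    · rintro rfl
      exact AddSubgroup.ext fun v => (hs v).trans (by simpa using (cr.l3 v).symm)
  have n1 : (𝓜 \ {L}).ncard = 6 := by rw [Set.ncard_sdiff_singleton_of_mem hL, h7]
  have n2 := Set.ncard_add_ncard_compl ({0, 1} : Set Ψ)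
  rw [Set.ncard_pair zero_ne_one] at n2
  have n3 : (gr '' {0, 1}ᶜ).ncard ≤ ({0, 1}ᶜ : Set Ψ).ncard := Set.ncard_image_le
  have n4 := Set.ncard_le_ncard sub
  have eq := Set.eq_of_subset_of_ncard_le sub (by omega)
  have c8 : Nat.card Ψ = 8 := by omega
  let φ := LinearEquiv.ofBijective _ ((Nat.bijective_iff_injective_and_card _).2
    ⟨inj, c8.trans cU.symm⟩)
  have g : ∀ (s : Ψ) v, v ∈ gr s ↔ φ.symm (c v).2 = s * φ.symm (c v).1 := fun s v => by
    rw [← smul_eq_mul, ← map_smul, φ.symm.injective.eq_iff]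
    rfl
  have l : ∀ v, v ∈ L ↔ φ.symm (c v).1 = 0 := fun v => by rw [map_eq_zero_iff _ φ.symm.injective, cr.l2]
  refine ⟨Ψ, _, ‹_›, {0, 1}ᶜ, c.trans (φ.symm.toAddEquiv.prodCongr φ.symm.toAddEquiv),
    Or.inr (Or.inr (Or.inr (Or.inr ⟨c8, rfl⟩))), fun W => ⟨fun h => ?_, fun h => ?_⟩⟩
  · by_cases e : W = L
    · exact Or.inl (e ▸ l)
    · obtain ⟨s, hs, rfl⟩ := sub ⟨h, e⟩
      exact Or.inr ⟨s, hs, g s⟩
  · rcases h with h | ⟨s, hs, h⟩
    · rwa [show W = L from AddSubgroup.ext fun v => (h v).trans (l v).symm]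
    · exact (eq.ge ⟨s, hs, AddSubgroup.ext fun v => (g s v).trans (h v).symm⟩).1

end main

theorem row : OfNIMP := by
  intro X H C G V _ _ _ _ _ _ 𝓜 N p e F S
  obtain ⟨A, B, D⟩ := dc N F S
  rcases four_eight H N F D with h | h
  · exact four X C F (by have := D.r; omega) h
  · exact eight C N F D h

end Pool.Agent.MP_f8e15f_co.RNIMP
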