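import Pool.Agent.MP_f8e15f_co.H33.Spec2

/-! Nuclei of a bilinear map and the degree 81 exclusion. -/

open MulAction Pointwise

namespace Pool.Agent.MP_f8e15f_co.RNUC

open Pool.Agent.MP_f8e15f_co.H33 Pool.Agent.MP_f8e15f_co.H24

theorem comm_of {Y : Type} [AddCommGroup Y] [Finite Y] [Nontrivial Y]
    (R : Subring (AddMonoid.End Y)) (h : ∀ z ∈ R, z = 0 ∨ Function.Injective z) :
    ∀ a ∈ R, ∀ b ∈ R, ∀ y, a (b y) = b (a y) := by
  have : Finite (AddMonoid.End Y) :=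
    Finite.of_injective (fun f : AddMonoid.End Y => (f : Y → Y)) DFunLike.coe_injective
  have : Nontrivial R := by
    obtain ⟨y, hy⟩ := exists_ne (0 : Y)
    refine ⟨1, 0, fun e => hy ?_⟩
    exact congrArg (fun f : R => f.1 y) e
  have : NoZeroDivisors R := ⟨fun {a b} e => by
    rcases h a.1 a.2 with h0 | h0
    · exact Or.inl (Subtype.ext h0)
    · refine Or.inr (Subtype.ext (AddMonoidHom.ext fun y => h0 ?_))
      have : a.1 (b.1 y) = 0 := congrArg (fun f : R => f.1 y) e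
      exact this.trans (map_zero a.1).symm⟩
  have : IsDomain R := NoZeroDivisors.to_isDomain R
  intro a ha b hb y
  exact congrArg (fun f : R => f.1 y)
    ((Finite.isDomain_to_isField R).mul_comm ⟨a, ha⟩ ⟨b, hb⟩)

section
variable {A X Y N : Type} [Group A] [AddCommGroup X] [AddCommGroup Y] [AddCommGroup N]
  [DistribMulAction A X] [DistribMulAction A Y] [DistribMulAction A N] {β : X →+ Y →+ N}

theorem flip (h : Bil A β) : Bil A β.flip :=
  ⟨fun g y x => h.eqv g x y, h.sy, h.sx, h.ty, h.tx, h.tn, h.ny, h.nx, h.nn⟩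

theorem inj [Finite Y] [Finite N] (h : Bil A β) (hc : Nat.card N = Nat.card Y) {x : X}
    (hx : x ≠ 0) {y : Y} (e : β x y = 0) : y = 0 := by
  have : Function.Injective (β x) :=
    ((Nat.bijective_iff_surjective_and_card _).2 ⟨h.sx x hx, hc.symm⟩).1
  exact this (e.trans (map_zero _).symm)

theorem sgn {g : A} (hg : g ∈ Zpm A X) : ∃ ε : ℤ, ε * ε = 1 ∧ ∀ x : X, g • x = ε • x := by
  rcases hg with hg | hg
  exacts [⟨1, rfl, fun x => by rw [hg, one_smul]⟩, ⟨-1, rfl, fun x => by rw [hg, neg_one_smul]⟩]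

/-- The right nucleus. -/
def R1 (β : X →+ Y →+ N) : Subring (AddMonoid.End Y) where
  carrier := {u | ∃ u' : N →+ N, ∀ x y, β x (u y) = u' (β x y)}
  one_mem' := ⟨AddMonoidHom.id N, fun _ _ => rfl⟩
  zero_mem' := ⟨0, fun x _ => map_zero (β x)⟩
  mul_mem' := by
    rintro u v ⟨u', hu⟩ ⟨v', hv⟩
    exact ⟨u'.comp v', fun x y => (hu x (v y)).trans (congrArg u' (hv x y))⟩
  add_mem' := by
    rintro u v ⟨u', hu⟩ ⟨v', hv⟩
    refine ⟨u' + v', fun x y => ?_⟩
    change β x (u y + v y) = u' (β x y) + v' (β x y)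
    rw [map_add, hu, hv]
  neg_mem' := by
    rintro u ⟨u', hu⟩
    refine ⟨-u', fun x y => ?_⟩
    change β x (-u y) = -u' (β x y)
    rw [map_neg, hu]

/-- The middle nucleus. -/
def R2 (β : X →+ Y →+ N) : Subring (AddMonoid.End Y) where
  carrier := {u | ∃ u' : X → X, ∀ x y, β x (u y) = β (u' x) y}
  one_mem' := ⟨id, fun _ _ => rfl⟩
  zero_mem' := ⟨fun _ => 0, fun x y => by
    change β x 0 = β 0 y
    simp⟩
  mul_mem' := by
    rintro u v ⟨u', hu⟩ ⟨v', hv⟩
    exact ⟨fun x => v' (u' x), fun x y => (hu x (v y)).trans (hv _ y)⟩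
  add_mem' := by
    rintro u v ⟨u', hu⟩ ⟨v', hv⟩
    refine ⟨fun x => u' x + v' x, fun x y => ?_⟩
    change β x (u y + v y) = _
    rw [map_add, hu, hv, map_add, AddMonoidHom.add_apply]
  neg_mem' := by
    rintro u ⟨u', hu⟩
    refine ⟨fun x => -u' x, fun x y => ?_⟩
    change β x (-u y) = _
    rw [map_neg, hu, map_neg, AddMonoidHom.neg_apply]

theorem cm1 [Finite Y] [Finite N] (h : Bil A β) (hc : Nat.card N = Nat.card Y) :
    Cm A X Y ∧ Cm A X N := by
  have := h.nx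
  have := h.ny
  obtain ⟨x₀, hx₀⟩ := exists_ne (0 : X)
  have hR : ∀ z ∈ R1 β, z = 0 ∨ Function.Injective z := by
    rintro u ⟨u', hu⟩
    by_cases hi : Function.Injective u
    · exact Or.inr hi
    · left
      rw [injective_iff_map_eq_zero] at hi
      push Not at hi
      obtain ⟨y₀, e, hy₀⟩ := hi
      refine AddMonoidHom.ext fun y => inj h hc hx₀ ?_
      obtain ⟨x, hx⟩ := h.sy y₀ hy₀ (β x₀ y)
      have hx' : β x y₀ = β x₀ y := hx
      refine (hu x₀ y).trans ?_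
      rw [← hx', ← hu, e, map_zero]
  have key : ∀ g ∈ Zpm A X, ∃ ε : ℤ, ε * ε = 1 ∧ ∀ x y, g • β x y = ε • β x (g • y) := by
    intro g hg
    obtain ⟨ε, h1, h2⟩ := sgn hg
    exact ⟨ε, h1, fun x y => by rw [← h.eqv, h2, map_zsmul, AddMonoidHom.zsmul_apply]⟩
  have mem : ∀ g ∈ Zpm A X, DistribMulAction.toAddMonoidEnd A Y g ∈ R1 β := by
    intro g hg
    obtain ⟨ε, h1, h2⟩ := key g hg
    refine ⟨ε • DistribSMul.toAddMonoidHom N g, fun x y => ?_⟩
    change β x (g • y) = ε • g • β x y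
    rw [h2, smul_smul, h1, one_smul]
  have c1 : Cm A X Y := fun g hg k hk y => comm_of _ hR _ (mem g hg) _ (mem k hk) y
  refine ⟨c1, fun g hg k hk z => ?_⟩
  obtain ⟨y, rfl⟩ := h.sx x₀ hx₀ z
  obtain ⟨ε, -, h2⟩ := key g hg
  obtain ⟨δ, -, h3⟩ := key k hk
  rw [h3, h2, smul_comm g δ, smul_comm k ε, h2, h3, c1 g hg k hk, smul_comm]

theorem cm2 [Finite X] [Finite Y] [Finite N] (h : Bil A β) (hc : Nat.card N = Nat.card Y)
    (hc' : Nat.card N = Nat.card X) : Cm A N Y := by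
  have := h.nx
  have := h.ny
  obtain ⟨x₀, hx₀⟩ := exists_ne (0 : X)
  have hR : ∀ z ∈ R2 β, z = 0 ∨ Function.Injective z := by
    rintro u ⟨u', hu⟩
    by_cases hi : Function.Injective u
    · exact Or.inr hi
    · left
      rw [injective_iff_map_eq_zero] at hi
      push Not at hi
      obtain ⟨y₀, e, hy₀⟩ := hi
      refine AddMonoidHom.ext fun y => inj h hc hx₀ ?_
      have : u' x₀ = 0 := inj (flip h) hc' hy₀ (by
        change β (u' x₀) y₀ = 0
        rw [← hu, e, map_zero])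
      refine (hu x₀ y).trans ?_
      rw [this, map_zero, AddMonoidHom.zero_apply]
  have mem : ∀ g ∈ Zpm A N, DistribMulAction.toAddMonoidEnd A Y g ∈ R2 β := by
    intro g hg
    obtain ⟨ε, -, h2⟩ := sgn hg
    refine ⟨fun x => ε • g⁻¹ • x, fun x y => ?_⟩
    change β x (g • y) = _
    rw [map_zsmul, AddMonoidHom.zsmul_apply, ← h2, ← h.eqv, smul_inv_smul]
  exact fun g hg k hk y => comm_of _ hR _ (mem g hg) _ (mem k hk) y

theorem zpm_normal : (Zpm A X).Normal := ⟨by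
  rintro n (hn | hn) g
  · exact Or.inl fun x => by rw [mul_smul, mul_smul, hn, smul_inv_smul]
  · exact Or.inr fun x => by rw [mul_smul, mul_smul, hn, smul_neg, smul_inv_smul]⟩

end

theorem nuc : NUC := by
  intro A X Y N _ _ _ _ _ _ _ _ _ _ _ _ β h c1 c2
  have c3 : Nat.card N = Nat.card Y := c1.trans c2.symm
  exact ⟨(cm1 h c3).1, (cm1 h c3).2, (cm1 (flip h) c1).1, (cm1 (flip h) c1).2,
    cm2 (flip h) c1 c3, cm2 h c3 c1⟩

theorem g81 (hE : EXP) : G81 := by
  intro A X Y _ _ _ _ _ _ hY ⟨E, _, _, hi, _, hsq, hB⟩ ⟨F, _, _, e, hs⟩ _ hc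
  classical
  have hZ : Zpm A Y ≤ Zpm A X := hB _ zpm_normal hc
  choose a σ hs using hs
  have ha : ∀ g, a g ≠ 0 := by
    intro g h0
    have := hs g (e.symm 1)
    rw [h0, zero_mul, e.map_eq_zero_iff, smul_eq_zero_iff_eq, e.symm.map_eq_zero_iff] at this
    exact one_ne_zero this
  let H : Subgroup Fˣ :=
    { carrier := {c | ∃ g ∈ E, ∀ x, e (g • x) = c * e x}
      one_mem' := ⟨1, E.one_mem, fun x => by simp⟩
      mul_mem' := by
        rintro c d ⟨g, hg, h1⟩ ⟨k, hk, h2⟩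
        exact ⟨g * k, E.mul_mem hg hk, fun x => by
          rw [mul_smul, h1, h2, Units.val_mul, mul_assoc]⟩
      inv_mem' := by
        rintro c ⟨g, hg, h1⟩
        refine ⟨g⁻¹, E.inv_mem hg, fun x => ?_⟩
        have := h1 (g⁻¹ • x)
        rw [smul_inv_smul] at this
        rw [this, Units.inv_mul_cancel_left] }
  obtain ⟨⟨c₀, g₀, hg₀, h₀⟩, hgen⟩ := IsCyclic.exists_monoid_generator (α := H)
  have hpow : ∀ (n : ℕ) x, e (g₀ ^ n • x) = (c₀ : F) ^ n * e x := by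
    intro n
    induction n with
    | zero => intro x; simp
    | succ n ih => intro x; rw [pow_succ', mul_smul, h₀, ih, pow_succ', mul_assoc]
  have lin : ∀ g ∈ E, ∀ k ∈ E, σ g = σ k → ∃ b : Fin 2, (k * g₀ ^ (b : ℕ))⁻¹ * g ∈ Zpm A X := by
    intro g hg k hk hσ
    have hc0 : (σ k).symm (a g / a k) ≠ 0 := by
      rw [Ne, (σ k).symm.map_eq_zero_iff]
      exact div_ne_zero (ha g) (ha k)
    have hl : ∀ x, e ((k⁻¹ * g) • x) = (σ k).symm (a g / a k) * e x := by
      intro x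
      have h1 := hs k ((k⁻¹ * g) • x)
      rw [← mul_smul, mul_inv_cancel_left, hs g, hσ] at h1
      apply (σ k).injective
      rw [map_mul, RingEquiv.apply_symm_apply, div_mul_eq_mul_div, eq_div_iff (ha k), h1, mul_comm]
    obtain ⟨n, hn⟩ := hgen ⟨Units.mk0 _ hc0, k⁻¹ * g, E.mul_mem (E.inv_mem hk) hg, hl⟩
    have hn' : (c₀ : F) ^ n = (σ k).symm (a g / a k) := by
      have := congrArg (fun u : H => ((u : Fˣ) : F)) hn
      simpa using this
    have hz : (g₀ ^ n)⁻¹ * (k⁻¹ * g) ∈ Zpm A X := hZ (Or.inl fun x => by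
      rw [mul_smul, inv_smul_eq_iff]
      apply e.injective
      rw [hl, hpow, hn'])
    refine ⟨⟨n % 2, Nat.mod_lt _ two_pos⟩, ?_⟩
    have e1 : (k * g₀ ^ (n % 2))⁻¹ * g = (g₀ ^ 2) ^ (n / 2) * ((g₀ ^ n)⁻¹ * (k⁻¹ * g)) := by
      have : g₀ ^ n = g₀ ^ (n % 2) * (g₀ ^ 2) ^ (n / 2) := by
        rw [← pow_mul, ← pow_add, Nat.mod_add_div]
      rw [this]
      group
    rw [e1]
    exact (Zpm A X).mul_mem ((Zpm A X).pow_mem (hsq g₀ hg₀) _) hz
  let t : (F ≃+* F) → E := fun τ => if h : ∃ k : E, σ k = τ then h.choose else 1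
  have ht : ∀ g : E, σ (t (σ g)) = σ g := by
    intro g
    have h : ∃ k : E, σ k = σ g := ⟨g, rfl⟩
    simp only [t, dif_pos h]
    exact h.choose_spec
  let f : (F ≃+* F) × Fin 2 → E ⧸ (Zpm A X).subgroupOf E := fun p =>
    QuotientGroup.mk (t p.1 * ⟨g₀, hg₀⟩ ^ (p.2 : ℕ))
  have hf : Function.Surjective f := by
    intro q
    obtain ⟨g, rfl⟩ := QuotientGroup.mk_surjective q
    obtain ⟨b, hb⟩ := lin g g.2 (t (σ g)) (t (σ g)).2 (ht g).symm
    exact ⟨(σ g, b), QuotientGroup.eq.2 hb⟩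
  have hF : Nat.card F = 3 ^ 4 := by rw [← Nat.card_congr e.toEquiv, hY]; norm_num
  have h4 := (hE.frob F 3 4 Nat.prime_three hF).1
  have : Finite (F ≃+* F) := Nat.finite_of_card_ne_zero (by rw [h4]; norm_num)
  have := Nat.card_le_card_of_surjective f hf
  rw [Nat.card_prod, h4, Nat.card_fin] at this
  have hi' : Nat.card (E ⧸ (Zpm A X).subgroupOf E) = 16 := hi
  omega

theorem row : H33.OfNUC := fun hE => ⟨nuc, g81 hE⟩

end Pool.Agent.MP_f8e15f_co.RNUC
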