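import Pool.Agent.MP_f8e15f_co.H33.Spec

/-! The order of a group with a self-centralising normal subgroup of symplectic type. -/

open MulAction Pointwise

namespace Pool.Agent.MP_f8e15f_co.RORD

open Pool.Agent.MP_f8e15f_co.H33 Pool.Agent.MP_f8e15f_co.H24

theorem card_addAut (V : Type) [AddCommGroup V] [Finite V] {t j : ℕ} [Fact t.Prime]
    [Module (ZMod t) V] (hc : Nat.card V = t ^ j) :
    Nat.card (V ≃+ V) = ∏ i ∈ Finset.range j, (t ^ j - t ^ i) := by
  have ht : t.Prime := Fact.out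
  have hf : Module.finrank (ZMod t) V = j := by
    rw [Module.natCard_eq_pow_finrank (K := ZMod t), Nat.card_zmod] at hc
    exact Nat.pow_right_injective ht.two_le hc
  have e1 : (V ≃+ V) ≃ (V ≃ₗ[ZMod t] V) :=
    ⟨fun e => { e with map_smul' := fun c x => ZMod.map_smul e c x }, fun e => e.toAddEquiv,
      fun _ => rfl, fun _ => rfl⟩
  have e2 := (Matrix.GeneralLinearGroup.toLin' (Module.finBasisOfFinrankEq (ZMod t) V hf)).trans
    (LinearMap.GeneralLinearGroup.generalLinearEquiv (ZMod t) V)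
  rw [Nat.card_congr e1, ← Nat.card_congr e2.toEquiv, Matrix.card_GL_field, ZMod.card,
    Finset.prod_range]

theorem card_mulAut (Q : Type) [Group Q] [Finite Q] {t j : ℕ} (ht : t.Prime)
    (hQ : ∀ x y : Q, x * y = y * x) (h : ∀ x : Q, x ^ t = 1) (hc : Nat.card Q = t ^ j) :
    Nat.card (MulAut Q) = ∏ i ∈ Finset.range j, (t ^ j - t ^ i) := by
  let _ : CommGroup Q := { (inferInstance : Group Q) with mul_comm := hQ }
  have := Fact.mk ht
  exact (Nat.card_congr MulEquiv.toAdditive).trans (@card_addAut (Additive Q) _ _ t j _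
    (AddCommGroup.zmodModule fun x => congrArg Additive.ofMul (h x.toMul)) hc)

theorem card_hom_le (Q Φ : Type) [Group Q] [Finite Q] [Field Φ] [Finite Φ] :
    Finite (Q →* Φ) ∧ Nat.card (Q →* Φ) ≤ Nat.card Q := by
  have : Finite (Q →* Φ) := DFunLike.finite _
  have := Fintype.ofFinite (Q →* Φ)
  have := Fintype.ofFinite Q
  refine ⟨inferInstance, ?_⟩
  have h := (linearIndependent_monoidHom Q Φ).fintype_card_le_finrank
  rwa [Module.finrank_fintype_fun_eq_card, ← Nat.card_eq_fintype_card,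
    ← Nat.card_eq_fintype_card] at h

variable {G X Φ : Type} [Group G] [AddCommGroup X] [Nontrivial X] [DistribMulAction G X] [Field Φ]
  [Module Φ X] {A E : Subgroup G} {t : ℕ}

/-- The commutator with `y` as a character. -/
theorem exists_char (hS : Str G X Φ A) (hY : Sym A E t) [(A.subgroupOf E).Normal] {y : G}
    (hy : y ∈ Subgroup.centralizer (A : Set G)) (h : ∀ x ∈ E, y * x * y⁻¹ * x⁻¹ ∈ A) :
    ∃ κ : (E ⧸ A.subgroupOf E) →* Φ, ∀ (x : E) (v : X),
      (y * x * y⁻¹ * (x : G)⁻¹) • v = κ (x : E ⧸ A.subgroupOf E) • v := by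
  choose k hk using fun x : E => hS.scal _ (h x x.2)
  obtain ⟨v, hv⟩ := exists_ne (0 : X)
  have k1 : ∀ x : E, (x : G) ∈ A → k x = 1 := fun x hx => smul_left_injective Φ hv <| by
    have e : (x : G) * y = y * x := hy x hx
    dsimp only
    rw [← hk, ← e, mul_inv_cancel_right, mul_inv_cancel, one_smul, one_smul]
  let φ : E →* Φ := ⟨⟨k, k1 1 A.one_mem⟩, fun x x' => smul_left_injective Φ hv <| by
    have e := hY.cent x.2 _ (h x' x'.2)
    dsimp only
    rw [← hk, mul_smul (k x), ← hk, ← hk, ← mul_smul]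
    refine congrArg (· • v) ?_
    rw [Subgroup.coe_mul]
    calc y * (x * x') * y⁻¹ * ((x : G) * x')⁻¹
        = y * x * y⁻¹ * (x : G)⁻¹ * (x * (y * x' * y⁻¹ * (x' : G)⁻¹)) * (x : G)⁻¹ := by group
      _ = _ := by rw [← e]; group⟩
  exact ⟨QuotientGroup.lift _ φ fun x hx => k1 x hx, hk⟩

theorem mem_of_triv [Finite G] [Finite Φ] (hS : Str G X Φ A) (hY : Sym A E t)
    (hF : SymF G X Φ A E t)
    (hC : Subgroup.centralizer (A : Set G) ⊓ Subgroup.centralizer (E : Set G) ≤ A) {c : G}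
    (hc : c ∈ Subgroup.centralizer (A : Set G)) (h : ∀ x ∈ E, c * x * c⁻¹ * x⁻¹ ∈ A) : c ∈ E := by
  have := hS.norm.subgroupOf E
  choose κ hκ using fun y : E => exists_char hS hY (hY.cent y.2) (hY.comm y y.2)
  obtain ⟨κ', hκ'⟩ := exists_char hS hY hc h
  have key : ∀ y y' x : G, (∀ v : X, (y * x * y⁻¹ * x⁻¹) • v = (y' * x * y'⁻¹ * x⁻¹) • v) →
      x * (y⁻¹ * y') = y⁻¹ * y' * x := fun y y' x h => by
    have e := hS.faith ((y * x * y⁻¹ * x⁻¹)⁻¹ * (y' * x * y'⁻¹ * x⁻¹)) fun v => by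
      rw [mul_smul, ← h, inv_smul_smul]
    rw [inv_mul_eq_one, mul_left_inj] at e
    calc x * (y⁻¹ * y') = y⁻¹ * (y * x * y⁻¹) * y' := by group
      _ = _ := by rw [e]; group
  obtain ⟨f1, f2⟩ := card_hom_le (E ⧸ A.subgroupOf E) Φ
  have inj : Function.Injective fun q : E ⧸ A.subgroupOf E => κ q.out := fun q q' e => by
    rw [← q.out_eq', ← q'.out_eq', QuotientGroup.eq]
    refine hF.nd _ (E.mul_mem (E.inv_mem q.out.2) q'.out.2) fun x hx => (key _ _ x fun v => ?_).symm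
    exact (hκ _ ⟨x, hx⟩ v).trans ((congrArg (fun f : _ →* Φ => f _ • v) e).trans
      (hκ _ ⟨x, hx⟩ v).symm)
  obtain ⟨q, hq⟩ := (inj.bijective_of_nat_card_le f2).2 κ'
  have h1 : (q.out : G)⁻¹ * c ∈ A := hC ⟨Subgroup.mul_mem _ (Subgroup.inv_mem _ (hY.cent q.out.2)) hc,
    fun x hx => key _ _ x fun v => (hκ _ ⟨x, hx⟩ v).trans
      ((congrArg (fun f : _ →* Φ => f _ • v) hq).trans (hκ' ⟨x, hx⟩ v).symm)⟩
  simpa using E.mul_mem q.out.2 (hY.lt.le h1)

/-- The action by conjugation on the quotient. -/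
noncomputable def conjQ (A E : Subgroup G) [hA : A.Normal] [E.Normal] :
    G →* MulAut (E ⧸ A.subgroupOf E) :=
  MonoidHom.mk' (fun g => QuotientGroup.congr _ _ (MulAut.conjNormal g) (by
    ext x
    refine ⟨?_, fun h => ⟨(MulAut.conjNormal g).symm x,
      by simpa [Subgroup.mem_subgroupOf] using hA.conj_mem' _ h g, by simp⟩⟩
    rintro ⟨y, hy, rfl⟩
    exact hA.conj_mem _ hy g))
    fun g g' => MulEquiv.ext fun q => by
      obtain ⟨x, rfl⟩ := QuotientGroup.mk_surjective q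
      rw [MulAut.mul_apply, QuotientGroup.congr_mk, QuotientGroup.congr_mk, QuotientGroup.congr_mk,
        map_mul, MulAut.mul_apply]

theorem row : H33.ORD := by
  intro G X Φ _ _ _ _ _ _ _ _ _ A E t hS hT hY hF hC p f j hp hΦ hj
  have := hS.norm
  have := hY.norm
  let ψ := (conjQ A E).comp (Subgroup.centralizer (A : Set G)).subtype
  have h1 : Nat.card ψ.range ∣ ∏ i ∈ Finset.range j, (t ^ j - t ^ i) := by
    rw [← card_mulAut (E ⧸ A.subgroupOf E) hY.prime (fun q q' => ?_) (fun q => ?_) hj]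
    · exact Subgroup.card_subgroup_dvd_card _
    · obtain ⟨x, rfl⟩ := QuotientGroup.mk_surjective q
      obtain ⟨y, rfl⟩ := QuotientGroup.mk_surjective q'
      rw [← QuotientGroup.mk_mul, ← QuotientGroup.mk_mul, QuotientGroup.eq]
      simpa [Subgroup.mem_subgroupOf, mul_assoc] using hY.comm _ y⁻¹.2 _ x⁻¹.2
    · obtain ⟨x, rfl⟩ := QuotientGroup.mk_surjective q
      rw [← QuotientGroup.mk_pow, QuotientGroup.eq_one_iff]
      exact hY.pow x x.2
  have h2 : Nat.card ψ.ker ∣ Nat.card E := by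
    rw [← Subgroup.card_map_of_injective (Subgroup.subtype_injective _)]
    refine Subgroup.card_dvd_of_le ?_
    rintro _ ⟨c, hc, rfl⟩
    refine mem_of_triv hS hY hF hC c.2 fun x hx => ?_
    have e : ((MulAut.conjNormal (c : G) (⟨x, hx⟩ : E) : E) : E ⧸ A.subgroupOf E) = (⟨x, hx⟩ : E) :=
      MulEquiv.congr_fun hc ((⟨x, hx⟩ : E) : E ⧸ A.subgroupOf E)
    simpa [Subgroup.mem_subgroupOf, div_eq_mul_inv] using QuotientGroup.eq_iff_div_mem.1 e
  have h3 : Nat.card E = Nat.card A * t ^ j := by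
    rw [← hj, ← Nat.card_congr (Subgroup.subgroupOfEquivOfLe hY.lt.le).toEquiv]
    exact (Subgroup.card_mul_index _).symm
  rw [← (Subgroup.centralizer (A : Set G)).index_mul_card, ← ψ.ker.card_mul_index,
    Subgroup.index_ker, mul_assoc f, mul_assoc f]
  exact mul_dvd_mul (hT.idx p f hp hΦ)
    (mul_dvd_mul (h2.trans (h3 ▸ mul_dvd_mul_right hT.card _)) h1)

end Pool.Agent.MP_f8e15f_co.RORD
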