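import Pool.Agent.MP_f8e15f_co.H33.Spec

/-! Abelian normal subgroups of linear groups with few orbits. -/

open MulAction Pointwise

namespace Pool.Agent.MP_f8e15f_co.RQP

open Pool.Agent.MP_f8e15f_co.H33

theorem idem_pow {M : Type} [Monoid M] [Finite M] (z : M) :
    ∃ k, 0 < k ∧ z ^ k * z ^ k = z ^ k := by
  obtain ⟨a, b, hab, h⟩ : ∃ a b : ℕ, a < b ∧ z ^ a = z ^ b := by
    obtain ⟨a, b, h1, h2⟩ := Finite.exists_ne_map_eq_of_infinite fun n : ℕ => z ^ n
    rcases lt_or_gt_of_ne h1 with h | h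
    exacts [⟨a, b, h, h2⟩, ⟨b, a, h, h2.symm⟩]
  obtain ⟨p, rfl⟩ := Nat.exists_eq_add_of_lt hab
  have key : ∀ j, z ^ (a + j * (p + 1)) = z ^ a := fun j => by
    induction j with
    | zero => simp
    | succ j ih => rw [add_mul, one_mul, ← add_assoc, pow_add, ih, ← pow_add, ← add_assoc, ← h]
  refine ⟨(a + 1) * (p + 1), by positivity, ?_⟩
  have e : (a + 1) * (p + 1) = a * p + p + 1 + a := by ring
  rw [← pow_add]
  nth_rewrite 1 [e]
  rw [add_assoc, pow_add, key, ← pow_add, ← e]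

variable {G X : Type} [Group G] [AddCommGroup X] [DistribMulAction G X]

/-- Conjugation of an endomorphism. -/
def cj (g : G) (a : AddMonoid.End X) : AddMonoid.End X :=
  DistribMulAction.toAddMonoidEnd G X g * a * DistribMulAction.toAddMonoidEnd G X g⁻¹

theorem cj_apply (g : G) (a : AddMonoid.End X) (x : X) : cj g a x = g • a (g⁻¹ • x) := rfl

theorem cj_mul (g : G) (a b : AddMonoid.End X) : cj g (a * b) = cj g a * cj g b :=
  AddMonoidHom.ext fun x => by
    change g • a (b (g⁻¹ • x)) = g • a (g⁻¹ • g • b (g⁻¹ • x))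
    rw [inv_smul_smul]

theorem cj_cj (g : G) (a : AddMonoid.End X) : cj g⁻¹ (cj g a) = a :=
  AddMonoidHom.ext fun x => by
    change g⁻¹ • g • a (g⁻¹ • g⁻¹⁻¹ • x) = a x
    rw [inv_smul_smul, smul_inv_smul]

theorem cj_inj (g : G) : Function.Injective (cj g : AddMonoid.End X → AddMonoid.End X) :=
  Function.LeftInverse.injective (cj_cj g)

theorem cj_zero (g : G) : cj g (0 : AddMonoid.End X) = 0 := by simp [cj]

theorem cj_one (g : G) : cj g (1 : AddMonoid.End X) = 1 := by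
  rw [cj, mul_one, ← map_mul, mul_inv_cancel, map_one]

theorem cj_pow (g : G) (a : AddMonoid.End X) (n : ℕ) : cj g (a ^ n) = cj g a ^ n := by
  induction n with
  | zero => simp [cj_one]
  | succ n ih => rw [pow_succ, pow_succ, cj_mul, ih]

theorem smul_range (g : G) (a : AddMonoid.End X) :
    g • AddMonoidHom.range a = AddMonoidHom.range (cj g a) := by
  ext x
  rw [AddSubgroup.mem_smul_pointwise_iff_exists]
  constructor
  · rintro ⟨_, ⟨y, rfl⟩, rfl⟩
    exact ⟨g • y, (cj_apply g a _).trans (by rw [inv_smul_smul]; rfl)⟩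
  · rintro ⟨y, rfl⟩
    exact ⟨_, ⟨g⁻¹ • y, rfl⟩, rfl⟩

/-- A commutative ring of endomorphisms normalised by the group. -/
structure Nm (G : Type) {X : Type} [Group G] [AddCommGroup X] [DistribMulAction G X]
    (R : Subring (AddMonoid.End X)) : Prop where
  comm : ∀ a ∈ R, ∀ b ∈ R, a * b = b * a
  conj : ∀ g : G, ∀ a ∈ R, cj g a ∈ R

variable {R : Subring (AddMonoid.End X)}

theorem reduced [Finite X] (h : Nm G R) (hI : Irr G X) {z : AddMonoid.End X} (hz : z ∈ R)
    (hn : IsNilpotent z) : z = 0 := by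
  let W : AddSubgroup X :=
    { carrier := {x | ∀ n ∈ R, IsNilpotent n → n x = 0}
      add_mem' := fun ha hb n h1 h2 => by rw [map_add, ha n h1 h2, hb n h1 h2, add_zero]
      zero_mem' := fun n _ _ => map_zero n
      neg_mem' := fun ha n h1 h2 => by rw [map_neg, ha n h1 h2, neg_zero] }
  rcases hI W (fun g x hx n h1 ⟨k, hk⟩ => by
    have h3 := hx _ (h.conj g⁻¹ n h1) ⟨k, by rw [← cj_pow, hk, cj_zero]⟩
    rwa [cj_apply, inv_inv, smul_eq_zero_iff_eq] at h3) with hW | hW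
  · by_contra hne
    obtain ⟨x₀, hx₀⟩ := DFunLike.ne_iff.1 hne
    obtain ⟨x, hx, hm⟩ := (Set.toFinite {x : X | x ≠ 0}).exists_maximalFor
      (fun x => {n | n ∈ R ∧ n x = 0}) _ ⟨x₀, fun e => hx₀ (by rw [e, map_zero, map_zero])⟩
    refine hx (AddSubgroup.mem_bot.1 (hW ▸ fun n h1 ⟨k, hk⟩ => ?_))
    have h3 : ∀ j, (n ^ j) x ≠ 0 → n x = 0 ∨ (n ^ (j + 1)) x ≠ 0 := fun j hj => by
      refine or_iff_not_imp_right.2 fun h4 => ?_
      refine (hm (j := (n ^ j) x) hj (fun m h5 => ⟨h5.1, ?_⟩) ⟨h1, ?_⟩).2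
      · change (m * n ^ j) x = 0
        rw [h.comm m h5.1 _ (R.pow_mem h1 j)]
        change (n ^ j) (m x) = 0
        rw [h5.2, map_zero]
      · rw [pow_succ'] at h4
        exact not_not.1 h4
    by_contra h4
    have h5 : ∀ j, (n ^ j) x ≠ 0 := fun j => by
      induction j with
      | zero => exact hx
      | succ j ih => exact (h3 j ih).resolve_left h4
    exact h5 k (by rw [hk]; rfl)
  · exact AddMonoidHom.ext fun x => (hW ▸ AddSubgroup.mem_top x : x ∈ W) z hz hn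

/-- The primitive idempotents. -/
def Pr (R : Subring (AddMonoid.End X)) : Set (AddMonoid.End X) :=
  {e | e ∈ R ∧ e * e = e ∧ e ≠ 0 ∧ ∀ f ∈ R, f * f = f → f * e = 0 ∨ f * e = e}

theorem pr_cj (h : Nm G R) (g : G) {e : AddMonoid.End X} (he : e ∈ Pr R) : cj g e ∈ Pr R := by
  obtain ⟨h1, h2, h3, h4⟩ := he
  refine ⟨h.conj g e h1, by rw [← cj_mul, h2], fun h5 => h3 (cj_inj g (h5.trans (cj_zero g).symm)),
    fun f f1 f2 => ?_⟩
  have e1 : f = cj g (cj g⁻¹ f) := by
    nth_rewrite 1 [← inv_inv g]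
    rw [cj_cj]
  rw [e1, ← cj_mul]
  rcases h4 _ (h.conj g⁻¹ f f1) (by rw [← cj_mul, f2]) with h5 | h5
  · exact Or.inl (by rw [h5, cj_zero])
  · exact Or.inr (by rw [h5])

theorem orth (h : Nm G R) {e f : AddMonoid.End X} (he : e ∈ Pr R) (hf : f ∈ Pr R) (hne : e ≠ f) :
    e * f = 0 := by
  refine (hf.2.2.2 e he.1 he.2.1).resolve_right fun h1 => ?_
  rcases he.2.2.2 f hf.1 hf.2.1 with h2 | h2 <;> rw [h.comm f hf.1 e he.1, h1] at h2
  exacts [hf.2.2.1 h2, hne h2.symm]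

theorem below [Finite X] (h : Nm G R) {e : AddMonoid.End X} (h1 : e ∈ R) (h2 : e * e = e)
    (h3 : e ≠ 0) : ∃ f ∈ Pr R, e * f = f := by
  have : Finite (AddMonoid.End X) := DFunLike.finite _
  obtain ⟨f, ⟨f1, f2, f3, f4⟩, hm⟩ :=
    (Set.toFinite {f | f ∈ R ∧ f * f = f ∧ f ≠ 0 ∧ e * f = f}).exists_minimalFor
      (fun f : AddMonoid.End X => {x | f x = x}) _ ⟨e, h1, h2, h3, h2⟩
  refine ⟨f, ⟨f1, f2, f3, fun a a1 a2 => or_iff_not_imp_left.2 fun a3 => ?_⟩, f4⟩
  have c := h.comm a a1 f f1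
  have e1 : f * (a * f) = a * f := by rw [← mul_assoc, ← c, mul_assoc, f2]
  have h5 := hm (j := a * f) ⟨R.mul_mem a1 f1, by rw [mul_assoc, e1, ← mul_assoc, a2], a3, by
    rw [c, ← mul_assoc, f4]⟩ fun x hx => by
      have h6 : (a * f) x = x := hx
      change f x = x
      rw [← h6]
      exact DFunLike.congr_fun e1 x
  have h7 : a * f * f = f := AddMonoidHom.ext fun x => h5 (DFunLike.congr_fun f2 x)
  rwa [mul_assoc, f2] at h7

/-- The weight of a vector. -/
noncomputable def wt (R : Subring (AddMonoid.End X)) (x : X) : ℕ :=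
  {e | e ∈ Pr R ∧ e x ≠ 0}.ncard

theorem wt_smul [Finite X] (h : Nm G R) (g : G) (x : X) : wt R (g • x) = wt R x := by
  have : Finite (AddMonoid.End X) := DFunLike.finite _
  have key : ∀ (g : G) (x : X), wt R x ≤ wt R (g • x) := fun g x =>
    Set.ncard_le_ncard_of_injOn (cj g) (fun e he => ⟨pr_cj h g he.1, by
      rw [cj_apply, inv_smul_smul]
      exact fun h0 => he.2 ((smul_eq_zero_iff_eq g).1 h0)⟩) (cj_inj g).injOn
  exact le_antisymm ((key g⁻¹ _).trans_eq (by rw [inv_smul_smul])) (key g x)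

theorem ex_wt (h : Nm G R) (S : Finset (AddMonoid.End X)) (hS : ∀ e ∈ S, e ∈ Pr R)
    (hne : S.Nonempty) : ∃ x : X, x ≠ 0 ∧ wt R x = S.card := by
  classical
  have h1 : ∀ e : AddMonoid.End X, ∃ v, e ∈ Pr R → e v ≠ 0 := fun e => by
    by_cases he : e ∈ Pr R
    · obtain ⟨v, hv⟩ := DFunLike.ne_iff.1 he.2.2.1
      exact ⟨v, fun _ => hv⟩
    · exact ⟨0, fun h2 => absurd h2 he⟩
  choose v hv using h1
  have h2 : ∀ e ∈ Pr R, e (∑ f ∈ S, f (v f)) = if e ∈ S then e (v e) else 0 := fun e he => by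
    rw [map_sum, ← Finset.sum_ite_eq S e fun _ => e (v e)]
    refine Finset.sum_congr rfl fun f hf => ?_
    change (e * f) (v f) = _
    split_ifs with h3
    · rw [← h3, he.2.1]
    · rw [orth h he (hS f hf) h3]
      rfl
  have h3 : {e | e ∈ Pr R ∧ e (∑ f ∈ S, f (v f)) ≠ 0} = (S : Set (AddMonoid.End X)) := by
    ext e
    refine ⟨fun ⟨a, b⟩ => ?_, fun a => ⟨hS e a, ?_⟩⟩
    · by_contra h4
      exact b (by rw [h2 e a, if_neg (by simpa using h4)])
    · rw [h2 e (hS e a), if_pos (by simpa using a)]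
      exact hv e (hS e a)
  refine ⟨∑ f ∈ S, f (v f), fun h0 => ?_, by rw [wt, h3, Set.ncard_coe_finset]⟩
  obtain ⟨e, he⟩ := hne
  have h4 : e ∈ {e | e ∈ Pr R ∧ e (∑ f ∈ S, f (v f)) ≠ 0} := h3 ▸ he
  exact h4.2 (by rw [h0, map_zero])

theorem two [Finite X] (h : Nm G R) (hI : Irr G X) {z : AddMonoid.End X} (hz : z ∈ R) (h0 : z ≠ 0)
    (h1 : ¬ Function.Injective z) : ∃ e ∈ Pr R, ∃ f ∈ Pr R, e ≠ f := by
  have : Finite (AddMonoid.End X) := DFunLike.finite _
  obtain ⟨k, k0, hk⟩ := idem_pow z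
  have m := R.pow_mem hz k
  obtain ⟨e, e1, e2⟩ := below h m hk fun h2 => h0 (reduced h hI hz ⟨k, h2⟩)
  obtain ⟨f, f1, f2⟩ := below h (R.sub_mem R.one_mem m) (IsIdempotentElem.one_sub hk) fun h2 => by
    obtain ⟨j, rfl⟩ := Nat.exists_eq_add_of_lt k0
    rw [sub_eq_zero, pow_succ] at h2
    exact h1 (Function.LeftInverse.injective (g := z ^ (0 + j)) fun x =>
      (DFunLike.congr_fun h2 x).symm)
  refine ⟨e, e1, f, f1, fun h2 => f1.2.2.1 ?_⟩
  rw [← f2, sub_mul, one_mul, ← h2, e2, sub_self]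

theorem split [Finite X] (h : Nm G R) {e f : AddMonoid.End X} (he : e ∈ Pr R) (hf : f ∈ Pr R)
    (hne : e ≠ f) (hall : ∀ a ∈ Pr R, a = e ∨ a = f) : Split G X := by
  have o1 := orth h he hf hne
  have o2 := orth h hf he hne.symm
  have hs : 1 - e - f = 0 := by
    by_contra h0
    obtain ⟨a, a1, a2⟩ := below h (R.sub_mem (R.sub_mem R.one_mem he.1) hf.1) (by
      simp only [sub_mul, mul_sub, one_mul, mul_one, he.2.1, hf.2.1, o1, o2, sub_self,
        sub_zero]) h0
    refine a1.2.2.1 ?_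
    rcases hall a a1 with rfl | rfl
    · rw [← a2, sub_mul, sub_mul, one_mul, he.2.1, o2, sub_self, sub_zero]
    · rw [← a2, sub_mul, sub_mul, one_mul, hf.2.1, o1, sub_zero, sub_self]
  refine ⟨AddMonoidHom.range e, AddMonoidHom.range f,
    fun h0 => he.2.2.1 (AddMonoidHom.range_eq_bot_iff.1 h0),
    fun h0 => hf.2.2.1 (AddMonoidHom.range_eq_bot_iff.1 h0), ⟨?_, ?_⟩, fun g => ?_⟩
  · rw [AddSubgroup.disjoint_def]
    rintro _ ⟨x, rfl⟩ ⟨y, hy⟩
    have h1 : e (e x) = e x := DFunLike.congr_fun he.2.1 x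
    exact h1.symm.trans ((congrArg e hy.symm).trans (DFunLike.congr_fun o1 y))
  · rw [codisjoint_iff, eq_top_iff]
    intro x _
    have h1 : x - e x - f x = 0 := DFunLike.congr_fun hs x
    rw [sub_sub, sub_eq_zero] at h1
    rw [h1]
    exact AddSubgroup.add_mem_sup ⟨x, rfl⟩ ⟨x, rfl⟩
  · rw [smul_range, smul_range]
    have h1 : cj g e ≠ cj g f := (cj_inj g).ne hne
    rcases hall _ (pr_cj h g he) with a | a <;> rcases hall _ (pr_cj h g hf) with b | b
    · exact absurd (a.trans b.symm) h1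
    · exact Or.inl (by rw [a, b]; exact ⟨rfl, rfl⟩)
    · exact Or.inr (by rw [a, b]; exact ⟨rfl, rfl⟩)
    · exact absurd (a.trans b.symm) h1

theorem nm (B : Subgroup G) (hB : B.Normal)
    (hc : ∀ x ∈ B, ∀ y ∈ B, ∀ v : X, x • y • v = y • x • v) :
    Nm G (Subring.closure ((fun b => DistribMulAction.toAddMonoidEnd G X b) '' (B : Set G))) := by
  refine ⟨fun a ha b hb => ?_, fun g a ha => ?_⟩
  · refine (Subring.closure_le_centralizer_centralizer _ hb) a (Subring.closure_le.2 ?_ ha)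
    rintro _ ⟨x, hx, rfl⟩ _ ⟨y, hy, rfl⟩
    exact AddMonoidHom.ext fun v => hc y hy x hx v
  · induction ha using Subring.closure_induction with
    | mem x hx =>
      obtain ⟨b, hb, rfl⟩ := hx
      exact Subring.subset_closure ⟨g * b * g⁻¹, hB.conj_mem b hb g, by rw [cj, ← map_mul, ← map_mul]⟩
    | zero => rw [cj_zero]; exact zero_mem _
    | one => rw [cj_one]; exact one_mem _
    | add x y _ _ hx hy => simpa only [cj, mul_add, add_mul] using add_mem hx hy
    | neg x _ hx => simpa only [cj, mul_neg, neg_mul] using neg_mem hx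
    | mul x y _ _ hx hy => exact cj_mul g x y ▸ mul_mem hx hy

theorem row : H33.QP := by
  classical
  intro G X _ _ _ _ hI B hB hc
  have h := nm B hB hc
  have key : ¬ Fld G X B → ∃ e ∈ Pr _, ∃ f ∈ Pr _, e ≠ f := fun hF => by
    unfold Fld at hF
    push Not at hF
    obtain ⟨z, h1, h2, h3⟩ := hF
    exact two h hI h1 h2 h3
  refine ⟨fun ht => by_contra fun hF => ?_, fun ht => or_iff_not_imp_left.2 fun hF => ?_⟩ <;>
    obtain ⟨e, he, f, hf, hne⟩ := key hF <;>
    obtain ⟨x, x0, hx⟩ := ex_wt h {e} (by simpa using he) (by simp) <;>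
    obtain ⟨y, y0, hy⟩ := ex_wt h {e, f} (by simpa using ⟨he, hf⟩) (by simp) <;>
    rw [Finset.card_singleton] at hx <;> rw [Finset.card_pair hne] at hy
  · obtain ⟨g, rfl⟩ := ht x y x0 y0
    rw [wt_smul h] at hy
    omega
  · refine split h he hf hne fun a ha => by_contra fun h3 => ?_
    push Not at h3
    obtain ⟨z, z0, hz⟩ := ex_wt h {a, e, f} (by simpa using ⟨ha, he, hf⟩) (by simp)
    rw [Finset.card_insert_of_notMem (by simpa using h3), Finset.card_pair hne] at hz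
    rcases ht x y z x0 y0 z0 with ⟨g, rfl⟩ | ⟨g, rfl⟩ | ⟨g, rfl⟩
    · rw [wt_smul h] at hy
      omega
    · rw [wt_smul h] at hz
      omega
    · rw [wt_smul h] at hz
      omega

end Pool.Agent.MP_f8e15f_co.RQP
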