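import Pool.Agent.MP_f8e15f_co.H33.Spec2

/-! The common kernel of the actions on rows and columns. -/

open MulAction Pointwise

namespace Pool.Agent.MP_f8e15f_co.RSTD1

open Pool.Agent.MP_f8e15f_co.H33 Pool.Agent.MP_f8e15f_co.H24

variable {G P R : Type} [Group G] [MulAction G P] [MulAction G R] {π : P → R}

theorem mem_ker {g : G} : g ∈ (toPermHom G R).ker ↔ ∀ ρ : R, g • ρ = ρ := by
  rw [MonoidHom.mem_ker, Equiv.ext_iff]
  rfl

theorem inf_ne [Nonempty P] (he : ∀ (g : G) p, π (g • p) = g • π p) (hs : Function.Surjective π)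
    (big : ∀ p, ∃ q, q ≠ p ∧ π q = π p) {N : Subgroup G} (h0 : N ≠ ⊥) (hab : Ab N)
    (blk : (∃ p q : P, ∀ n ∈ N, n • p ≠ q) → ∀ p q : P, (∃ n ∈ N, n • p = q) ↔ π p = π q) :
    N ⊓ (toPermHom G R).ker ≠ ⊥ := by
  by_cases h : ∃ p q : P, ∀ n ∈ N, n • p ≠ q
  · refine (inf_eq_left.2 fun n hn => mem_ker.2 fun ρ => ?_).trans_ne h0
    obtain ⟨p, rfl⟩ := hs ρ
    rw [← he]
    exact ((blk h p _).1 ⟨n, hn, rfl⟩).symm
  · push Not at h
    obtain ⟨p⟩ := ‹Nonempty P›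
    obtain ⟨q, h1, h2⟩ := big p
    obtain ⟨n, hn, e⟩ := h p q
    refine (Subgroup.ne_bot_iff_exists_ne_one).2 ⟨⟨n, hn, mem_ker.2 fun ρ => ?_⟩, fun h3 => h1 ?_⟩
    · obtain ⟨p', rfl⟩ := hs ρ
      obtain ⟨m, hm, rfl⟩ := h p p'
      rw [← he, ← mul_smul, hab n hn m hm, mul_smul, e, he, he, h2]
    · rw [← e, show n = 1 from congrArg Subtype.val h3, one_smul]

theorem intr [Nontrivial R] (he : ∀ (g : G) p, π (g • p) = g • π p) (hs : Function.Surjective π)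
    {N : Subgroup G} (h : N ≤ (toPermHom G R).ker) : ∃ p q : P, ∀ n ∈ N, n • p ≠ q := by
  obtain ⟨a, b, hab⟩ := exists_pair_ne R
  obtain ⟨p, rfl⟩ := hs a
  obtain ⟨q, rfl⟩ := hs b
  exact ⟨p, q, fun n hn e => hab (by rw [← e, he, mem_ker.1 (h hn)])⟩

theorem row : H33.OfSTD1 := by
  intro hS hH hB G P B _ _ _ _ _ _ _ I h R C _ _ _ _ π κ s
  have := h.nP
  have := h.nB
  have := s.nR
  have := s.nC
  obtain ⟨p₀⟩ := h.nP
  obtain ⟨b₀⟩ := h.nB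
  have sπ : Function.Surjective π := fun ρ => (s.meet b₀ ρ).exists.imp fun _ => And.right
  have sκ : Function.Surjective κ := fun γ => (s.join p₀ γ).exists.imp fun _ => And.right
  have bP : ∀ N : Subgroup G, N.Normal → N ≠ ⊥ → (∃ p q : P, ∀ n ∈ N, n • p ≠ q) →
      ∀ p q : P, (∃ n ∈ N, n • p = q) ↔ π p = π q := fun N a b c p q =>
    ((hB G P B I h).2 N a b c p q).trans (s.row p q).symm
  have bB : ∀ N : Subgroup G, N.Normal → N ≠ ⊥ → (∃ p q : B, ∀ n ∈ N, n • p ≠ q) →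
      ∀ p q : B, (∃ n ∈ N, n • p = q) ↔ κ p = κ q := fun N a b c p q =>
    ((hB G B P (flip I) h.flip).2 N a b c p q).trans (s.col p q).symm
  have f1 : ∀ n ∈ (toPermHom G R).ker, ∀ b : B, n • b = b → ∀ p, I p b → n • p = p :=
    fun n hn b e p hp => (s.meet b (π p)).unique
      ⟨e ▸ (h.pt.inv n p b).2 hp, by rw [s.eπ, mem_ker.1 hn]⟩ ⟨hp, rfl⟩
  have f2 : ∀ n ∈ (toPermHom G C).ker, ∀ p : P, n • p = p → ∀ b, I p b → n • b = b :=
    fun n hn p e b hp => (s.join p (κ b)).unique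
      ⟨e ▸ (h.pt.inv n p b).2 hp, by rw [s.eκ, mem_ker.1 hn]⟩ ⟨hp, rfl⟩
  have fP : ∀ n ∈ (toPermHom G R).ker ⊓ (toPermHom G C).ker, ∀ p : P, n • p = p → n = 1 := by
    intro n hn p e
    have f3 : ∀ p q : P, n • p = p → π p ≠ π q → n • q = q := fun p q e hne => by
      obtain ⟨b, a1, a2⟩ : Col I p q := by
        by_contra hc
        exact hne ((s.row p q).2 (Or.inr hc))
      exact f1 n hn.1 b (f2 n hn.2 p e b a1) q a2
    refine h.fP n fun q => ?_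
    by_cases hq : π p = π q
    · obtain ⟨ρ, hρ⟩ := exists_ne (π p)
      obtain ⟨q', rfl⟩ := sπ ρ
      exact f3 q' q (f3 p q' e hρ.symm) (hq ▸ hρ)
    · exact f3 p q e hq
  obtain ⟨t, E, -, e1, e2, -, e3, -⟩ := hS G ⊥ ⊤ inferInstance inferInstance (by
    obtain ⟨a, b, hab⟩ := exists_pair_ne R
    obtain ⟨g, hg, -⟩ := s.twoR a b b a hab hab.symm
    refine bot_lt_iff_ne_bot.2 fun e => hab ?_
    have : g = 1 := Subgroup.mem_bot.1 (e ▸ Subgroup.mem_top g)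
    rw [← hg, this, one_smul])
  have abE : Ab E := fun x hx y hy => by
    have := Subgroup.mem_bot.1 (e3 x hx y hy)
    rwa [mul_inv_eq_one, mul_inv_eq_iff_eq_mul] at this
  have n1 : (E ⊓ (toPermHom G R).ker).Normal := inferInstance
  have n2 : (E ⊓ (toPermHom G R).ker ⊓ (toPermHom G C).ker).Normal := inferInstance
  have z1 := inf_ne s.eπ sπ s.big e2.ne' abE (bP E e1 e2.ne')
  have z2 := inf_ne s.eκ sκ s.big' z1 (fun x hx y hy => abE x hx.1 y hy.1) (bB _ n1 z1)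
  have tP := bP _ n2 z2 (intr s.eπ sπ (inf_le_left.trans inf_le_right))
  have tB := bB _ n2 z2 (intr s.eκ sκ inf_le_right)
  have le : ∀ n ∈ (toPermHom G R).ker ⊓ (toPermHom G C).ker, n ∈ E := fun n hn => by
    obtain ⟨m, hm, e⟩ := (tP p₀ (n • p₀)).2 (by rw [s.eπ, mem_ker.1 hn.1])
    have := fP (m⁻¹ * n) (mul_mem (inv_mem ⟨hm.1.2, hm.2⟩) hn) p₀
      (by rw [mul_smul, ← e, inv_smul_smul])
    exact inv_mul_eq_one.1 this ▸ hm.1.1
  have tr : IsPretransitive G (R × C) := ⟨fun x y => by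
    obtain ⟨p, hp⟩ := sπ x.1
    obtain ⟨q, hq⟩ := sπ y.1
    obtain ⟨b, a1, a2⟩ := (s.join p x.2).exists
    obtain ⟨c, c1, c2⟩ := (s.join q y.2).exists
    obtain ⟨g, g1, g2⟩ := h.pt.flag p b q c a1 c1
    exact ⟨g, Prod.ext (by rw [Prod.smul_fst, ← hp, ← s.eπ, g1, hq])
      (by rw [Prod.smul_snd, ← a2, ← s.eκ, g2, c2])⟩⟩
  have dv : Nat.card R * Nat.card C ∣ ((toPermHom G R).ker ⊓ (toPermHom G C).ker).index := by
    rw [← Nat.card_prod, ← index_stabilizer_of_transitive G (π p₀, κ b₀)]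
    exact Subgroup.index_dvd_of_le fun n hn => Prod.ext (mem_ker.1 hn.1 _) (mem_ker.1 hn.2 _)
  refine ⟨_, rfl, fun x hx y hy => abE x (le x hx) y (le y hy), fun p q e => ?_, fun b c e => ?_,
    fP, fun n hn b e => ?_, lt_of_le_of_ne inf_le_left fun e => hH.two G R s.twoR ?_,
    lt_of_le_of_ne inf_le_right fun e => hH.two G C s.twoC ?_⟩
  · obtain ⟨n, hn, a⟩ := (tP p q).2 e
    exact ⟨n, ⟨hn.1.2, hn.2⟩, a⟩
  · obtain ⟨n, hn, a⟩ := (tB b c).2 e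
    exact ⟨n, ⟨hn.1.2, hn.2⟩, a⟩
  · obtain ⟨p, -, -, hp, -⟩ := h.tB b
    exact fP n hn p (f1 n hn.1 b e p hp)
  · rwa [e, ← s.card, ← sq] at dv
  · rwa [e, s.card, ← sq] at dv

end Pool.Agent.MP_f8e15f_co.RSTD1
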