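import Pool.Agent.MP_f8e15f_co.H33.Spec2

open MulAction Pointwise

namespace Pool.Agent.MP_f8e15f_co.RSTD3

open Pool.Agent.MP_f8e15f_co.H33 Pool.Agent.MP_f8e15f_co.H24

/-- The group theory of one half. -/
theorem half (hT : TWO) {G R : Type} [Group G] [Finite G] [Group.IsSolvable G] [MulAction G R]
    [Finite R] [Nontrivial R] (N T : Subgroup G) [N.Normal] [hTn : T.Normal] (two : Two G R)
    (hNR : ∀ n ∈ N, ∀ ρ : R, n • ρ = ρ) (hlt : N < T)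
    (hker : ∀ x ∈ T, (∀ ρ : R, x • ρ = ρ) → x ∈ N)
    (hc : ∀ x ∈ T, ∀ y ∈ T, x * y * x⁻¹ * y⁻¹ ∈ N) (hd : Nat.card N ∣ Nat.card R)
    (hconj : ∀ n ∈ N, ∀ m ∈ N, n ≠ 1 → m ≠ 1 → ∃ g : G, g * n * g⁻¹ = m) :
    (∀ ρ ρ' : R, ∃ x ∈ T, x • ρ = ρ') ∧ (∀ x ∈ T, ∀ ρ : R, x • ρ = ρ → x ∈ N) ∧
      ∀ x ∈ T, ∀ n ∈ N, x * n = n * x := by
  have F := hT G R two
  have htr : ∀ ρ ρ' : R, ∃ x ∈ T, x • ρ = ρ' := by
    refine F.ntr T hTn ?_
    obtain ⟨x, hx, hxN⟩ := SetLike.exists_of_lt hlt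
    by_contra h
    push Not at h
    exact hxN (hker x hx (h x hx))
  have hst : ∀ x ∈ T, ∀ ρ : R, x • ρ = ρ → x ∈ N := by
    intro x hx ρ hρ
    refine hker x hx fun ρ' => ?_
    obtain ⟨y, hy, rfl⟩ := htr ρ ρ'
    have h1 := hNR _ (hc x hx y hy) (y • x • ρ)
    rw [smul_smul, smul_smul] at h1
    rw [smul_smul, show x * y = x * y * x⁻¹ * y⁻¹ * y * x by group, h1, hρ]
  refine ⟨htr, hst, ?_⟩
  obtain ⟨_, -, -, -, t, j, ht, hR, -⟩ := F.aff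
  have := Fact.mk ht
  obtain ⟨ρ⟩ : Nonempty R := inferInstance
  have hP : IsPGroup t T := by
    have : IsPretransitive T R := ⟨fun a b => by
      obtain ⟨x, hx, h⟩ := htr a b
      exact ⟨⟨x, hx⟩, h⟩⟩
    have h1 : (stabilizer T ρ).index = Nat.card R := index_stabilizer_of_transitive T ρ
    have h2 : stabilizer T ρ = N.subgroupOf T := by
      ext x
      exact ⟨fun h => hst x x.2 ρ h, fun h => hNR x h ρ⟩
    have h3 : Nat.card (N.subgroupOf T) = Nat.card N :=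
      Nat.card_congr (Subgroup.subgroupOfEquivOfLe hlt.le).toEquiv
    have h4 := (stabilizer T ρ).card_mul_index
    rw [h1, h2, h3] at h4
    refine IsPGroup.of_card_dvd_pow (n := j + j) ?_
    rw [← h4, pow_add, ← hR]
    exact Nat.mul_dvd_mul_right hd _
  intro x hx n hn
  by_cases hn1 : n = 1
  · simp [hn1]
  have hdv : t ∣ Nat.card N := by
    rcases (hP.to_le hlt.le).card_eq_or_dvd with h | h
    · exact absurd (congrArg Subtype.val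
        ((Nat.card_eq_one_iff_unique.1 h).1.elim (⟨n, hn⟩ : N) 1)) hn1
    · exact h
  let _ : MulAction T N := MulAction.compHom N ((MulAut.conjNormal (H := N)).comp T.subtype)
  have hsm : ∀ (y : T) (m : N), ((y • m : N) : G) = y * m * (y : G)⁻¹ := fun _ _ => rfl
  obtain ⟨m, hm, hm1⟩ := hP.exists_fixed_point_of_prime_dvd_card_of_fixed_point N hdv
    (a := 1) (fun y => Subtype.ext (by rw [hsm]; simp))
  obtain ⟨g, hg⟩ := hconj m m.2 n hn (fun h => hm1 (Subtype.ext h.symm)) hn1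
  have h1 := hsm ⟨g⁻¹ * x * g⁻¹⁻¹, hTn.conj_mem x hx g⁻¹⟩ m
  rw [hm] at h1
  rw [← hg]
  calc x * (g * m * g⁻¹) = g * ((g⁻¹ * x * g⁻¹⁻¹) * m * (g⁻¹ * x * g⁻¹⁻¹)⁻¹) * g⁻¹ * x := by group
    _ = g * m * g⁻¹ * x := by rw [← h1]

/-- The facts about the points, the rows and the group `T`. -/
structure H (G : Type) {P B R C : Type} [Group G] [MulAction G P] [MulAction G B] [MulAction G R]
    [MulAction G C] (I : P → B → Prop) (π : P → R) (κ : B → C) (N T : Subgroup G) : Prop where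
  pt : PT G I
  eπ : ∀ (g : G) p, π (g • p) = g • π p
  row : ∀ p q, π p = π q ↔ (p = q ∨ ¬ Col I p q)
  meet : ∀ b ρ, ∃! p, I p b ∧ π p = ρ
  nR : Nontrivial R
  kR : ∀ n ∈ N, ∀ ρ : R, n • ρ = ρ
  tP : ∀ p q, π p = π q → ∃ n ∈ N, n • p = q
  fP : ∀ n ∈ N, ∀ p : P, n • p = p → n = 1
  norm : T.Normal
  le : N ≤ T
  kC : ∀ x ∈ T, ∀ γ : C, x • γ = γ
  tr : ∀ ρ ρ' : R, ∃ x ∈ T, x • ρ = ρ'
  st : ∀ x ∈ T, ∀ ρ : R, x • ρ = ρ → x ∈ N
  cen : ∀ x ∈ T, ∀ n ∈ N, x * n = n * x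
  comm : ∀ x ∈ T, ∀ y ∈ T, x * y * x⁻¹ * y⁻¹ ∈ N

section
variable {G P B R C : Type} [Group G] [MulAction G P] [MulAction G B] [MulAction G R]
  [MulAction G C] {I : P → B → Prop} {π : P → R} {κ : B → C} {N T T' : Subgroup G}

theorem conjN [hN : N.Normal] (pt : PT G I) (eπ : ∀ (g : G) p, π (g • p) = g • π p)
    (row : ∀ p q, π p = π q ↔ (p = q ∨ ¬ Col I p q)) (kR : ∀ n ∈ N, ∀ ρ : R, n • ρ = ρ)
    (fP : ∀ n ∈ N, ∀ p : P, n • p = p → n = 1) (p : P) (n : G) (hn : n ∈ N) (m : G) (hm : m ∈ N)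
    (n1 : n ≠ 1) (m1 : m ≠ 1) : ∃ g : G, g • p = p ∧ g * n * g⁻¹ = m := by
  have key : ∀ n ∈ N, n ≠ 1 → p ≠ n • p ∧ ¬ Col I p (n • p) := fun n hn n1 => by
    have h1 : p ≠ n • p := fun h => n1 (fP n hn p h.symm)
    exact ⟨h1, ((row p (n • p)).1 (by rw [eπ, kR n hn])).resolve_left h1⟩
  obtain ⟨g, g1, g2⟩ := pt.non p (n • p) p (m • p) (key n hn n1).1 (key m hm m1).1
    (key n hn n1).2 (key m hm m1).2
  refine ⟨g, g1, ?_⟩
  have h := fP (m⁻¹ * (g * n * g⁻¹)) (N.mul_mem (N.inv_mem hm) (hN.conj_mem n hn g)) p (by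
    rw [mul_smul, mul_smul, mul_smul, inv_smul_eq_iff.2 g1.symm, g2, inv_smul_smul])
  exact (inv_mul_eq_one.1 h).symm

theorem mkH (hS : SOL) (hT : TWO) [Finite G] [Group.IsSolvable G] [Finite R] (pt : PT G I)
    (eπ : ∀ (g : G) p, π (g • p) = g • π p) (row : ∀ p q, π p = π q ↔ (p = q ∨ ¬ Col I p q))
    (meet : ∀ b ρ, ∃! p, I p b ∧ π p = ρ) (nR : Nontrivial R) (two : Two G R)
    (eq : N = (toPermHom G R).ker ⊓ (toPermHom G C).ker)
    (tP : ∀ p q, π p = π q → ∃ n ∈ N, n • p = q) (fP : ∀ n ∈ N, ∀ p : P, n • p = p → n = 1)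
    (lt : N < (toPermHom G C).ker) (hd : Nat.card N ∣ Nat.card R) (p : P) :
    ∃ T, H G I π κ N T := by
  have hN : N.Normal := eq ▸ inferInstance
  obtain ⟨t, T, -, hTn, h1, h2, h3, -⟩ := hS G N _ hN inferInstance lt
  have kR : ∀ n ∈ N, ∀ ρ : R, n • ρ = ρ := fun n hn ρ =>
    Equiv.congr_fun (MonoidHom.mem_ker (f := toPermHom G R).1 (eq.le hn).1) ρ
  obtain ⟨a, b, c⟩ := half hT N T two kR h1
    (fun x hx h => eq ▸ ⟨MonoidHom.mem_ker.2 (Equiv.ext h), h2 hx⟩) h3 hd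
    (fun n hn m hm n1 m1 => (conjN pt eπ row kR fP p n hn m hm n1 m1).imp fun _ => And.right)
  exact ⟨T, pt, eπ, row, meet, nR, kR, tP, fP, hTn, h1.le,
    fun x hx γ => Equiv.congr_fun (MonoidHom.mem_ker.1 (h2 hx)) γ, a, b, c, h3⟩

theorem lift (h : H G I π κ N T) (h' : H G (flip I) κ π N T') (b : B) (ρ ρ' : R) :
    ∃ x ∈ T, x • b = b ∧ x • ρ = ρ' := by
  obtain ⟨x, hx, e⟩ := h.tr ρ ρ'
  obtain ⟨n, hn, e'⟩ := h'.tP (x • b) b (by rw [h'.eπ, h.kC x hx])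
  exact ⟨n * x, T.mul_mem (h.le hn) hx, by rw [mul_smul, e'], by rw [mul_smul, e, h.kR n hn]⟩

theorem uniq (h : H G I π κ N T) (h' : H G (flip I) κ π N T') {b : B} {ρ : R} {x y : G}
    (hx : x ∈ T) (hy : y ∈ T) (xb : x • b = b) (yb : y • b = b) (e : x • ρ = y • ρ) : x = y := by
  have h1 := h.st (y⁻¹ * x) (T.mul_mem (T.inv_mem hy) hx) ρ (by rw [mul_smul, e, inv_smul_smul])
  have h2 := h'.fP _ h1 b (by rw [mul_smul, xb, inv_smul_eq_iff, yb])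
  exact (inv_mul_eq_one.1 h2).symm

theorem onb (h : H G I π κ N T) (h' : H G (flip I) κ π N T') {b : B} {p q : P} (hp : I p b)
    (hq : I q b) : ∃ x ∈ T, x • b = b ∧ x • p = q := by
  obtain ⟨x, hx, xb, e⟩ := lift h h' b (π p) (π q)
  refine ⟨x, hx, xb, (h.meet b (π q)).unique ⟨?_, by rw [h.eπ, e]⟩ ⟨hq, rfl⟩⟩
  rw [← xb, h.pt.inv]
  exact hp

theorem coord (h : H G I π κ N T) (h' : H G (flip I) κ π N T') (b : B) (p q : P) :
    ∃ x ∈ T, x • b = b ∧ ∃ z ∈ N, z • x • p = q := by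
  obtain ⟨x, hx, xb, e⟩ := lift h h' b (π p) (π q)
  exact ⟨x, hx, xb, h.tP _ _ (by rw [h.eπ, e])⟩

theorem moves (h : H G I π κ N T) (h' : H G (flip I) κ π N T') {b : B} {x : G} (hx : x ∈ T)
    (xb : x • b = b) (x1 : x ≠ 1) (ρ : R) : x • ρ ≠ ρ := fun e =>
  x1 (h'.fP x (h.st x hx ρ e) b xb)

theorem trX (h : H G I π κ N T) (h' : H G (flip I) κ π N T') {b : B} {p : P} (hp : I p b)
    {x y : G} (hx : x ∈ T) (hy : y ∈ T) (xb : x • b = b) (yb : y • b = b) (x1 : x ≠ 1)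
    (y1 : y ≠ 1) : ∃ g : G, g • p = p ∧ g • b = b ∧ g * x * g⁻¹ = y := by
  have key : ∀ x ∈ T, x • b = b → x ≠ 1 → p ≠ x • p ∧ Col I p (x • p) := fun x hx xb x1 =>
    ⟨fun e => moves h h' hx xb x1 (π p) (by rw [← h.eπ, ← e]), b, hp, by
      rw [← xb, h.pt.inv]
      exact hp⟩
  obtain ⟨g, g1, g2⟩ := h.pt.col p (x • p) p (y • p) (key x hx xb x1).1 (key y hy yb y1).1
    (key x hx xb x1).2 (key y hy yb y1).2
  obtain ⟨u, hu, u1, u2⟩ := onb h' h (b := p) (p := g • b) (q := b)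
    (by show I p (g • b); rw [← g1, h.pt.inv]; exact hp) hp
  have a1 : (u * g) • p = p := by rw [mul_smul, g1, u1]
  have a2 : (u * g) • b = b := by rw [mul_smul, u2]
  refine ⟨u * g, a1, a2, uniq h h' (ρ := π p) (h.norm.conj_mem x hx _) hy ?_ yb ?_⟩
  · rw [mul_smul, mul_smul, inv_smul_eq_iff.2 a2.symm, xb, a2]
  · rw [← h.eπ, ← h.eπ, mul_smul, inv_smul_eq_iff.2 a1.symm, mul_smul, mul_smul, g2, h.eπ u,
      h'.kC u hu]

theorem ntX (h : H G I π κ N T) (h' : H G (flip I) κ π N T') (b : B) :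
    ∃ x ∈ T, x • b = b ∧ x ≠ 1 := by
  obtain ⟨ρ, ρ', e⟩ := h.nR
  obtain ⟨x, hx, xb, e'⟩ := lift h h' b ρ ρ'
  exact ⟨x, hx, xb, by rintro rfl; exact e (by simpa using e')⟩

theorem abX (h : H G I π κ N T) (h' : H G (flip I) κ π N T') (b : B) :
    Ab (T ⊓ stabilizer G b) := fun x hx y hy => by
  have := h'.fP _ (h.comm x hx.1 y hy.1) b (by
    have : x * y * x⁻¹ * y⁻¹ ∈ stabilizer G b :=
      mul_mem (mul_mem (mul_mem hx.2 hy.2) (inv_mem hx.2)) (inv_mem hy.2)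
    exact this)
  rwa [mul_inv_eq_one, mul_inv_eq_iff_eq_mul] at this

theorem cmem (h : H G I π κ N T) (h' : H G (flip I) κ π N T') (p : P) {x y : G} (hx : x ∈ T)
    (hy : y ∈ T') : x * y * x⁻¹ * y⁻¹ ∈ N := by
  refine h.st _ ?_ (π p) (h'.kC _ ?_ _)
  · rw [mul_assoc, mul_assoc, ← mul_assoc y]
    exact T.mul_mem hx (h.norm.conj_mem _ (T.inv_mem hx) y)
  · exact T'.mul_mem (h'.norm.conj_mem _ hy x) (T'.inv_mem hy)

theorem inc (h : H G I π κ N T) (h' : H G (flip I) κ π N T') {b : B} {p : P} (hp : I p b)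
    {x y z w : G} (hx : x ∈ T) (hy : y ∈ T') (xb : x • b = b) (yp : y • p = p) (hz : z ∈ N)
    (hw : w ∈ N) : I (z • x • p) (w • y⁻¹ • b) ↔ z = x * y * x⁻¹ * y⁻¹ * w := by
  have hc := cmem h h' p hx hy
  have hn : w⁻¹ * z * (x * y * x⁻¹ * y⁻¹)⁻¹ ∈ N :=
    N.mul_mem (N.mul_mem (N.inv_mem hw) hz) (N.inv_mem hc)
  have e : (y * w⁻¹) • z • x • p = (w⁻¹ * z * (x * y * x⁻¹ * y⁻¹)⁻¹) • x • p := by
    have e1 := h'.cen y hy _ (N.mul_mem (N.inv_mem hw) hz)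
    rw [smul_smul, smul_smul, smul_smul, mul_assoc y, e1,
      show w⁻¹ * z * (x * y * x⁻¹ * y⁻¹)⁻¹ * x = w⁻¹ * z * y * x * y⁻¹ by group, mul_smul _ y⁻¹,
      inv_smul_eq_iff.2 yp.symm]
  have hxp : I (x • p) b := by
    rw [← xb, h.pt.inv]
    exact hp
  rw [← h.pt.inv (y * w⁻¹), e, mul_smul y, inv_smul_smul, smul_inv_smul]
  constructor
  · intro hI
    have := h.fP _ hn _ ((h.meet b (π (x • p))).unique ⟨hI, by rw [h.eπ, h.kR _ hn]⟩ ⟨hxp, rfl⟩)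
    rw [mul_inv_eq_one, inv_mul_eq_iff_eq_mul] at this
    rw [this, h.cen w (h.le hw) _ hc]
  · intro e'
    rw [e', ← h.cen w (h.le hw) _ hc, inv_mul_cancel_left, mul_inv_cancel, one_smul]
    exact hxp

end

/-- An abelian subgroup, written additively. -/
abbrev cg {G : Type} [Group G] {X : Subgroup G} (h : Ab X) : AddCommGroup (Additive X) :=
  { (inferInstance : AddGroup (Additive X)) with
    add_comm := fun a b => Subtype.ext (h _ a.toMul.2 _ b.toMul.2) }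

/-- The action by conjugation. -/
abbrev da {G : Type} [Group G] (A X : Subgroup G) (h : ∀ a ∈ A, ∀ x ∈ X, a * x * a⁻¹ ∈ X) :
    DistribMulAction A (Additive X) where
  smul a x := Additive.ofMul ⟨a * x.toMul * (a : G)⁻¹, h a a.2 _ x.toMul.2⟩
  one_smul x := Subtype.ext (show ((1 : G) * x.toMul * 1⁻¹ : G) = x.toMul by simp)
  mul_smul a b x := Subtype.ext (show ((a : G) * b * x.toMul * (a * b : G)⁻¹ : G) =
    a * (b * x.toMul * (b : G)⁻¹) * (a : G)⁻¹ by group)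
  smul_zero a := Subtype.ext (show ((a : G) * 1 * (a : G)⁻¹ : G) = 1 by simp)
  smul_add a x y := Subtype.ext (show ((a : G) * (x.toMul * y.toMul) * (a : G)⁻¹ : G) =
    a * x.toMul * (a : G)⁻¹ * (a * y.toMul * (a : G)⁻¹) by group)

theorem tr1 {G : Type} [Group G] (A : Subgroup G) {X : Subgroup G} (hX : Ab X)
    (h : ∀ a ∈ A, ∀ x ∈ X, a * x * a⁻¹ ∈ X)
    (t : ∀ x ∈ X, ∀ y ∈ X, x ≠ 1 → y ≠ 1 → ∃ g ∈ A, g * x * g⁻¹ = y) :
    @Tr1 A (Additive X) _ (cg hX) (da A X h) := fun x y x0 y0 => by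
  obtain ⟨g, hg, e⟩ := t _ x.toMul.2 _ y.toMul.2 (fun e => x0 (Subtype.ext e))
    (fun e => y0 (Subtype.ext e))
  exact ⟨⟨g, hg⟩, Subtype.ext e⟩

theorem nt {G : Type} [Group G] {X : Subgroup G} (h : ∃ x ∈ X, x ≠ 1) :
    Nontrivial (Additive X) := by
  obtain ⟨x, hx, e⟩ := h
  exact ⟨Additive.ofMul ⟨x, hx⟩, 0, fun e' => e (congrArg Subtype.val e')⟩

theorem cr {G : Type} [Group G] (x y y' : G)
    (h : y * (x * y' * x⁻¹ * y'⁻¹) = x * y' * x⁻¹ * y'⁻¹ * y) :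
    x * (y * y') * x⁻¹ * (y * y')⁻¹ = x * y * x⁻¹ * y⁻¹ * (x * y' * x⁻¹ * y'⁻¹) :=
  calc _ = x * y * x⁻¹ * y⁻¹ * (y * (x * y' * x⁻¹ * y'⁻¹)) * y⁻¹ := by group
    _ = _ := by rw [h]; group

theorem cl {G : Type} [Group G] (x x' y : G)
    (h : x * (x' * y * x'⁻¹ * y⁻¹) = x' * y * x'⁻¹ * y⁻¹ * x)
    (h' : x' * y * x'⁻¹ * y⁻¹ * (x * y * x⁻¹ * y⁻¹) = x * y * x⁻¹ * y⁻¹ * (x' * y * x'⁻¹ * y⁻¹)) :
    x * x' * y * (x * x')⁻¹ * y⁻¹ = x * y * x⁻¹ * y⁻¹ * (x' * y * x'⁻¹ * y⁻¹) :=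
  calc _ = x * (x' * y * x'⁻¹ * y⁻¹) * y * x⁻¹ * y⁻¹ := by group
    _ = _ := by rw [h, ← h']; group

theorem main {G P B R C : Type} [Group G] [Finite G] [Group.IsSolvable G] [MulAction G P]
    [MulAction G B] [MulAction G R] [MulAction G C] {I : P → B → Prop} {π : P → R} {κ : B → C}
    {N T T' : Subgroup G} [hN : N.Normal] (h : H G I π κ N T) (h' : H G (flip I) κ π N T')
    {p : P} {b : B} (hp : I p b) (n1 : ∃ n ∈ N, n ≠ 1) :
    ∃ (A X Y Z : Type) (_ : Group A) (_ : Finite A) (_ : Group.IsSolvable A) (_ : AddCommGroup X)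
      (_ : AddCommGroup Y) (_ : AddCommGroup Z) (_ : Finite X) (_ : Finite Y) (_ : Finite Z)
      (_ : DistribMulAction A X) (_ : DistribMulAction A Y) (_ : DistribMulAction A Z)
      (β : X →+ Y →+ Z), Bil A β ∧ Iso (des I) (bil β) := by
  set A : Subgroup G := stabilizer G p ⊓ stabilizer G b with hA
  set X : Subgroup G := T ⊓ stabilizer G b with hX
  set Y : Subgroup G := T' ⊓ stabilizer G p with hY
  have aX : Ab X := abX h h' b
  have aY : Ab Y := abX h' h p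
  have aN : Ab N := fun x hx y hy => h.cen x (h.le hx) y hy
  have cX : ∀ a ∈ A, ∀ x ∈ X, a * x * a⁻¹ ∈ X := fun a ha x hx =>
    ⟨h.norm.conj_mem x hx.1 a, (stabilizer G b).mul_mem ((stabilizer G b).mul_mem ha.2 hx.2)
      ((stabilizer G b).inv_mem ha.2)⟩
  have cY : ∀ a ∈ A, ∀ x ∈ Y, a * x * a⁻¹ ∈ Y := fun a ha x hx =>
    ⟨h'.norm.conj_mem x hx.1 a, (stabilizer G p).mul_mem ((stabilizer G p).mul_mem ha.1 hx.2)
      ((stabilizer G p).inv_mem ha.1)⟩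
  have cN : ∀ a ∈ A, ∀ x ∈ N, a * x * a⁻¹ ∈ N := fun a _ x hx => hN.conj_mem x hx a
  let _ := cg aX
  let _ := cg aY
  let _ := cg aN
  let _ := da A X cX
  let _ := da A Y cY
  let _ := da A N cN
  let f : Additive X → Additive Y → Additive N := fun x y =>
    Additive.ofMul ⟨x.toMul * y.toMul * (x.toMul : G)⁻¹ * (y.toMul : G)⁻¹,
      cmem h h' p x.toMul.2.1 y.toMul.2.1⟩
  have f1 : ∀ x y y', f x (y + y') = f x y + f x y' := fun x y y' => Subtype.ext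
    (cr _ _ _ (h'.cen _ y.toMul.2.1 _ (cmem h h' p x.toMul.2.1 y'.toMul.2.1)))
  have f2 : ∀ x x' y, f (x + x') y = f x y + f x' y := fun x x' y => Subtype.ext
    (cl _ _ _ (h.cen _ x.toMul.2.1 _ (cmem h h' p x'.toMul.2.1 y.toMul.2.1))
      (aN _ (cmem h h' p x'.toMul.2.1 y.toMul.2.1) _ (cmem h h' p x.toMul.2.1 y.toMul.2.1)))
  let β : Additive X →+ Additive Y →+ Additive N := AddMonoidHom.mk'
    (fun x => AddMonoidHom.mk' (f x) (f1 x)) fun x x' => AddMonoidHom.ext (f2 x x')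
  let φ : Additive X × Additive N → P := fun u => (u.2.toMul : G) • (u.1.toMul : G) • p
  let ψ : Additive Y → Additive N → B := fun y w => (w.toMul : G) • (y.toMul : G)⁻¹ • b
  have hI : ∀ u y w, I (φ u) (ψ y w) ↔ u.2 = β u.1 y + w := fun u y w =>
    (inc h h' hp u.1.toMul.2.1 y.toMul.2.1 u.1.toMul.2.2 y.toMul.2.2 u.2.toMul.2 w.toMul.2).trans
      ⟨fun e => Subtype.ext e, fun e => congrArg Subtype.val e⟩
  have φπ : ∀ u, π (φ u) = (u.1.toMul : G) • π p := fun u => by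
    rw [h.eπ, h.kR _ u.2.toMul.2, h.eπ]
  have ψκ : ∀ y w, κ (ψ y w) = (y.toMul : G)⁻¹ • κ b := fun y w => by
    rw [h'.eπ, h'.kR _ w.toMul.2, h'.eπ]
  have φs : Function.Surjective φ := fun q => by
    obtain ⟨x, hx, xb, z, hz, e⟩ := coord h h' b p q
    exact ⟨(Additive.ofMul ⟨x, hx, xb⟩, Additive.ofMul ⟨z, hz⟩), e⟩
  have ψs : ∀ c, ∃ y w, ψ y w = c := fun c => by
    obtain ⟨y, hy, yp, w, hw, e⟩ := coord h' h p b c
    refine ⟨Additive.ofMul ⟨y, hy, yp⟩⁻¹, Additive.ofMul ⟨w, hw⟩, ?_⟩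
    show w • y⁻¹⁻¹ • b = c
    rwa [inv_inv]
  have φi : Function.Injective φ := by
    rintro ⟨x, z⟩ ⟨x', z'⟩ e
    obtain rfl : x = x' := Subtype.ext (uniq h h' (ρ := π p) x.toMul.2.1 x'.toMul.2.1 x.toMul.2.2
      x'.toMul.2.2 ((φπ (x, z)).symm.trans ((congrArg π e).trans (φπ (x', z')))))
    have := h.fP _ (N.mul_mem (N.inv_mem z'.toMul.2) z.toMul.2) ((x.toMul : G) • p)
      (by rw [mul_smul, inv_smul_eq_iff]; exact e)
    exact Prod.ext rfl (Subtype.ext (inv_mul_eq_one.1 this).symm)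
  have φ0 : φ (0, 0) = p := by
    show (1 : G) • (1 : G) • p = p
    simp
  have ψ0 : ψ 0 0 = b := by
    show (1 : G) • (1 : G)⁻¹ • b = b
    simp
  refine ⟨A, Additive X, Additive Y, Additive N, inferInstance, inferInstance, inferInstance, _, _,
    _, inferInstance, inferInstance, inferInstance, _, _, _, β,
    ⟨fun g x y => Subtype.ext ?_, fun x x0 z => ?_, fun y y0 z => ?_, tr1 A aX cX ?_,
      tr1 A aY cY ?_, tr1 A aN cN ?_, nt ?_, nt ?_, nt n1⟩,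
    (Equiv.ofBijective φ ⟨φi, φs⟩).symm, ?_⟩
  · show (g * x.toMul * (g : G)⁻¹ * (g * y.toMul * (g : G)⁻¹) * (g * x.toMul * (g : G)⁻¹ : G)⁻¹ *
      (g * y.toMul * (g : G)⁻¹ : G)⁻¹ : G) =
      g * (x.toMul * y.toMul * (x.toMul : G)⁻¹ * (y.toMul : G)⁻¹) * (g : G)⁻¹
    group
  · have := (h.row (φ (0, 0)) (φ (x, z))).not.1 (by
      rw [φ0, φπ]
      exact (moves h h' x.toMul.2.1 x.toMul.2.2 (fun e => x0 (Subtype.ext e)) _).symm)
    obtain ⟨c, c1, c2⟩ := not_not.1 (not_or.1 this).2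
    obtain ⟨y, w, rfl⟩ := ψs c
    rw [hI] at c1 c2
    refine ⟨y, ?_⟩
    simp only [map_zero, AddMonoidHom.zero_apply, zero_add] at c1
    rw [← c1, add_zero] at c2
    exact c2.symm
  · have := (h'.row (ψ 0 0) (ψ y (-z))).not.1 (by
      rw [ψ0, ψκ, eq_inv_smul_iff]
      exact moves h' h y.toMul.2.1 y.toMul.2.2 (fun e => y0 (Subtype.ext e)) _)
    obtain ⟨q, c1, c2⟩ := not_not.1 (not_or.1 this).2
    obtain ⟨u, rfl⟩ := φs q
    have c1 := (hI _ _ _).1 c1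
    have c2 := (hI _ _ _).1 c2
    refine ⟨u.1, ?_⟩
    simp only [map_zero, add_zero] at c1
    rw [c1, eq_comm, add_neg_eq_zero] at c2
    exact c2
  · intro x hx y hy x1 y1
    obtain ⟨g, a1, a2, e⟩ := trX h h' hp hx.1 hy.1 hx.2 hy.2 x1 y1
    exact ⟨g, ⟨a1, a2⟩, e⟩
  · intro x hx y hy x1 y1
    obtain ⟨g, a1, a2, e⟩ := trX h' h (p := b) (b := p) hp hx.1 hy.1 hx.2 hy.2 x1 y1
    exact ⟨g, ⟨a2, a1⟩, e⟩
  · intro x hx y hy x1 y1
    obtain ⟨g, g1, e⟩ := conjN h.pt h.eπ h.row h.kR h.fP p x hx y hy x1 y1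
    obtain ⟨u, hu, u1, u2⟩ := onb h' h (b := p) (p := g • b) (q := b)
      (by show I p (g • b); rw [← g1, h.pt.inv]; exact hp) hp
    refine ⟨u * g, ⟨show (u * g) • p = p by rw [mul_smul, g1, u1],
      show (u * g) • b = b by rw [mul_smul, u2]⟩, ?_⟩
    rw [show u * g * x * (u * g)⁻¹ = u * (g * x * g⁻¹) * u⁻¹ by group, e, h'.cen u hu y hy,
      mul_inv_cancel_right]
  · obtain ⟨x, hx, xb, e⟩ := ntX h h' b
    exact ⟨x, ⟨hx, xb⟩, e⟩
  · obtain ⟨x, hx, xb, e⟩ := ntX h' h p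
    exact ⟨x, ⟨hx, xb⟩, e⟩
  · have key : ∀ y w, (Equiv.ofBijective φ ⟨φi, φs⟩).symm '' {q | I q (ψ y w)} =
        {u | u.2 = β u.1 y + w} := fun y w => by
      rw [Equiv.image_symm_eq_preimage]
      ext u
      exact hI u y w
    ext S
    constructor
    · rintro ⟨_, ⟨c, rfl⟩, rfl⟩
      obtain ⟨y, w, rfl⟩ := ψs c
      exact ⟨y, w, key y w⟩
    · rintro ⟨y, w, rfl⟩
      exact ⟨_, ⟨ψ y w, rfl⟩, key y w⟩

theorem row : OfSTD3 := by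
  intro hS hT G P B _ _ _ _ _ _ _ I hC R C _ _ _ _ π κ N hs hk
  obtain ⟨p⟩ := hC.nP
  obtain ⟨b, -, -, hp, -⟩ := hC.tP p
  have hN : N.Normal := hk.eq ▸ inferInstance
  have kR : ∀ n ∈ N, ∀ ρ : R, n • ρ = ρ := fun n hn ρ =>
    Equiv.congr_fun (MonoidHom.mem_ker (f := toPermHom G R).1 (hk.eq.le hn).1) ρ
  have hd : Nat.card N ∣ Nat.card R := by
    rw [Nat.card_eq_of_bijective (fun n : N => (⟨n.1 • p, by rw [hs.eπ, kR _ n.2]⟩ :
      {q // π q = π p})) ⟨fun n m e => ?_, fun q => ?_⟩]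
    · exact hs.dvd p
    · have := hk.fP _ (N.mul_mem (N.inv_mem m.2) n.2) p
        (by rw [mul_smul, inv_smul_eq_iff]; exact congrArg Subtype.val e)
      exact Subtype.ext (inv_mul_eq_one.1 this).symm
    · obtain ⟨n, hn, e⟩ := hk.tP p q.1 q.2.symm
      exact ⟨⟨n, hn⟩, Subtype.ext e⟩
  obtain ⟨T, h⟩ := mkH (κ := κ) hS hT hC.pt hs.eπ hs.row hs.meet hs.nR hs.twoR hk.eq hk.tP hk.fP
    hk.ltC hd p
  obtain ⟨T', h'⟩ := mkH (κ := π) hS hT hC.pt.flip hs.eκ hs.col hs.join hs.nC hs.twoC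
    (hk.eq.trans (inf_comm _ _)) hk.tB hk.fB hk.ltR (hs.card ▸ hd) b
  refine main h h' hp ?_
  obtain ⟨q, q1, q2⟩ := hs.big p
  obtain ⟨n, hn, e⟩ := hk.tP q p q2
  exact ⟨n, hn, by rintro rfl; exact q1 (by simpa using e)⟩

end Pool.Agent.MP_f8e15f_co.RSTD3
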