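import Pool.Agent.MP_f8e15f_co.H33.Spec

/-! Facts on a maximal abelian normal subgroup and the field it generates. -/

open MulAction Pointwise

namespace Pool.Agent.MP_f8e15f_co.RSTRF

open Pool.Agent.MP_f8e15f_co.H33 Pool.Agent.MP_f8e15f_co.H24

variable {G X Φ : Type} [Group G] [AddCommGroup X] [DistribMulAction G X] [Field Φ] [Module Φ X]
  {A : Subgroup G}

theorem ext (h : Faith G X) {g g' : G} (e : ∀ x : X, g • x = g' • x) : g = g' :=
  (inv_mul_eq_one.1 (h (g'⁻¹ * g) fun x => by rw [mul_smul, e, inv_smul_smul])).symm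

theorem sc [Nontrivial X] (g : G) {c c' : Φ} (e : ∀ x : X, c • g • x = c' • g • x) : c = c' := by
  obtain ⟨x, hx⟩ := exists_ne (0 : X)
  have := e (g⁻¹ • x)
  rw [smul_inv_smul] at this
  exact smul_left_injective Φ hx this

theorem chi [Nontrivial X] (h : Str G X Φ A) : ∃ χ : A →* Φ, Function.Injective χ ∧
    ∀ (a : A) (x : X), (a : G) • x = χ a • x := by
  choose c hc using fun a : A => h.scal a.1 a.2
  refine ⟨⟨⟨c, sc (X := X) (1 : G) fun x => ?_⟩, fun a b => sc (X := X) (1 : G) fun x => ?_⟩,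
    fun a b e => Subtype.ext (ext h.faith fun x => ?_), hc⟩
  · rw [← hc, one_smul Φ, Subgroup.coe_one, one_smul]
  · rw [← hc, mul_smul, ← hc, ← hc, Subgroup.coe_mul, mul_smul]
  · rw [hc, hc]
    exact congrArg (· • x) e

theorem ab (h : Str G X Φ A) : Ab A := fun a ha b hb => ext h.faith fun x => by
  obtain ⟨c, hc⟩ := h.scal a ha
  obtain ⟨d, hd⟩ := h.scal b hb
  rw [mul_smul, mul_smul, hc, hd, hd, hc, smul_comm]

theorem lin [Nontrivial X] (h : Str G X Φ A) (g : G) :
    g ∈ Subgroup.centralizer (A : Set G) ↔ ∀ (c : Φ) (x : X), g • c • x = c • g • x := by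
  rw [Subgroup.mem_centralizer_iff]
  refine ⟨fun hg c x => ?_, fun hg a ha => ext h.faith fun x => ?_⟩
  · obtain ⟨σ, hσ⟩ := h.semi g
    have : σ.toRingHom.eqLocus (RingHom.id Φ) = ⊤ := h.gen _ fun c ⟨a, ha, e⟩ =>
      sc (X := X) g fun x => by
        change σ c • g • x = c • g • x
        rw [← hσ, ← e, ← e, ← mul_smul, ← mul_smul, hg a ha]
    have e : σ c = c := (this ▸ Subring.mem_top c : c ∈ σ.toRingHom.eqLocus (RingHom.id Φ))
    rw [hσ, e]
  · obtain ⟨c, hc⟩ := h.scal a ha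
    rw [mul_smul, mul_smul, hc, hc, hg]

theorem sig [Nontrivial X] (h : Str G X Φ A) :
    ∃ s : G →* RingAut Φ, s.ker = Subgroup.centralizer (A : Set G) := by
  choose σ hσ using h.semi
  refine ⟨MonoidHom.mk' (fun g => (σ g : RingAut Φ)) fun g g' => RingEquiv.ext fun c =>
    sc (X := X) (g * g') fun x => ?_, Subgroup.ext fun g => ?_⟩
  · change σ (g * g') c • (g * g') • x = σ g (σ g' c) • (g * g') • x
    rw [← hσ, mul_smul, mul_smul, hσ, hσ]
  · rw [lin h, MonoidHom.mem_ker]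
    refine ⟨fun e c x => ?_, fun e => RingEquiv.ext fun c => sc (X := X) g fun x => ?_⟩
    · rw [hσ, show σ g = 1 from e]
      rfl
    · exact (hσ g c x).symm.trans (e c x)

theorem two [Finite G] [Nontrivial X] (h : Tr2 G X) : Nat.card X ≤ 2 * Nat.card G + 1 := by
  obtain ⟨x, y, hz⟩ : ∃ x y : X, ∀ z, z ≠ 0 → (∃ g : G, g • x = z) ∨ ∃ g : G, g • y = z := by
    obtain ⟨x, hx⟩ := exists_ne (0 : X)
    by_cases h1 : ∀ z, z ≠ 0 → ∃ g : G, g • x = z
    · exact ⟨x, x, fun z hz => Or.inl (h1 z hz)⟩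
    · push Not at h1
      obtain ⟨y, hy, h2⟩ := h1
      exact ⟨x, y, fun z hz => (h x y z hx hy hz).resolve_left fun ⟨g, e⟩ => h2 g e⟩
  have := Nat.card_le_card_of_surjective (α := Option (G ⊕ G))
    (fun o => o.elim 0 (Sum.elim (· • x) (· • y))) fun z => by
      by_cases h0 : z = 0
      · exact ⟨none, h0.symm⟩
      · rcases hz z h0 with ⟨g, e⟩ | ⟨g, e⟩
        exacts [⟨some (Sum.inl g), e⟩, ⟨some (Sum.inr g), e⟩]
  rwa [Finite.card_option, Nat.card_sum, ← two_mul] at this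

theorem row : H33.OfSTRF := by
  intro hE G X Φ _ _ _ _ _ _ _ _ _ A h
  obtain ⟨χ, c1, c2⟩ := chi h
  obtain ⟨s, hs⟩ := sig h
  have card : Nat.card A ∣ Nat.card Φ - 1 := by
    rw [← Nat.card_units]
    exact Subgroup.card_dvd_of_injective χ.toHomUnits fun a b e => c1 (congrArg Units.val e)
  have idx : ∀ p f, p.Prime → Nat.card Φ = p ^ f →
      (Subgroup.centralizer (A : Set G)).index ∣ f := fun p f hp e => by
    rw [← hs, Subgroup.index_ker, ← (hE.frob Φ p f hp e).1]
    exact Subgroup.card_subgroup_dvd_card s.range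
  have size : Nat.card X = Nat.card Φ ^ Module.finrank Φ X := Module.natCard_eq_pow_finrank
  refine ⟨ab h, isCyclic_of_injective_ringHom χ c1, card, idx, lin h, hs ▸ s.normal_ker,
    fun a ha => Subgroup.mem_centralizer_iff.2 fun b hb => ab h b hb a ha, fun a ha x hx e => ?_,
    size, fun h1 => ?_, fun W hW c => ?_, fun h2 hc => ?_⟩
  · obtain ⟨c, hc⟩ := h.scal a ha
    have : c = 1 := smul_left_injective Φ hx (by simpa [hc] using e)
    exact h.faith a fun y => by rw [hc, this, one_smul]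
  · obtain ⟨e⟩ : Nonempty (X ≃ₗ[Φ] Φ) :=
      FiniteDimensional.nonempty_linearEquiv_of_finrank_eq (by rw [h1, Module.finrank_self])
    refine ⟨Φ, inferInstance, inferInstance, e.toAddEquiv, fun g => ?_⟩
    obtain ⟨σ, hσ⟩ := h.semi g
    refine ⟨e (g • e.symm 1), σ, fun x => ?_⟩
    change e (g • x) = e (g • e.symm 1) * σ (e x)
    rw [mul_comm, ← smul_eq_mul, ← map_smul, ← hσ, ← map_smul, smul_eq_mul, mul_one,
      e.symm_apply_apply]
  · let S : Subring Φ :=
      { carrier := {c | ∀ x ∈ W, c • x ∈ W}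
        mul_mem' := fun ha hb x hx => by rw [mul_smul]; exact ha _ (hb x hx)
        one_mem' := fun x hx => by rwa [one_smul]
        add_mem' := fun ha hb x hx => by rw [add_smul]; exact W.add_mem (ha x hx) (hb x hx)
        zero_mem' := fun x _ => by rw [zero_smul]; exact W.zero_mem
        neg_mem' := fun ha x hx => by rw [neg_smul]; exact W.neg_mem (ha x hx) }
    have : S = ⊤ := h.gen S fun c ⟨a, ha, e⟩ x hx => e x ▸ hW a ha x hx
    exact (this ▸ Subring.mem_top c : c ∈ S)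
  · have := Fintype.ofFinite Φ
    obtain ⟨p, -, f, hp, e⟩ := FiniteField.card' Φ
    rw [← Nat.card_eq_fintype_card] at e
    have q1 : 1 < Nat.card Φ := Finite.one_lt_card
    have a1 := Nat.le_of_dvd f.pos (idx p f hp e)
    have a2 := (Subgroup.card_le_of_le hc).trans (Nat.le_of_dvd (by omega) card)
    have a3 : Nat.card G ≤ (Nat.card Φ - 1) * f := by
      rw [← Subgroup.card_mul_index (Subgroup.centralizer (A : Set G))]
      exact Nat.mul_le_mul a2 a1
    have a4 := two h2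
    have a5 : 2 * (f : ℕ) ≤ Nat.card Φ :=
      e ▸ (Nat.mul_le_pow (by decide) f).trans (Nat.pow_le_pow_left hp.two_le f)
    have a6 : 0 < Module.finrank Φ X := Module.finrank_pos
    by_contra hne
    have a7 : Nat.card Φ ^ 2 ≤ Nat.card X :=
      size ▸ Nat.pow_le_pow_right (by omega) (by omega)
    obtain ⟨q, hq⟩ : ∃ q, Nat.card Φ = q + 1 := ⟨Nat.card Φ - 1, by omega⟩
    rw [hq] at a3 a5 a7 q1
    rw [Nat.add_sub_cancel] at a3
    nlinarith [Nat.mul_le_mul_left q a5]

end Pool.Agent.MP_f8e15f_co.RSTRF
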