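import Pool.Agent.MP_f8e15f_co.H33.Spec

/-! Row SYM: the commutator form on `E / A`. -/

open MulAction Pointwise

namespace Pool.Agent.MP_f8e15f_co.RSYM

open Pool.Agent.MP_f8e15f_co.H33 Pool.Agent.MP_f8e15f_co.H24

variable {G X Φ : Type} [Group G] [AddCommGroup X] [DistribMulAction G X] [Field Φ] [Module Φ X]
  {A E : Subgroup G} {t : ℕ}

theorem cm (h : Sym A E t) {a x : G} (ha : a ∈ A) (hx : x ∈ E) : a * x = x * a :=
  Subgroup.mem_centralizer_iff.1 (h.cent hx) a ha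

theorem nd (hs : Str G X Φ A) (h : Sym A E t) {x : G} (hx : x ∈ E)
    (hc : ∀ y ∈ E, x * y = y * x) : x ∈ A := by
  have := h.norm
  refine hs.max (E ⊓ Subgroup.centralizer (E : Set G)) inferInstance
    (fun a ha b hb => Subgroup.mem_centralizer_iff.1 hb.2 a ha.1)
    (fun a ha => ⟨h.lt.le ha, Subgroup.mem_centralizer_iff.2 fun y hy => (cm h ha hy).symm⟩)
    ⟨hx, Subgroup.mem_centralizer_iff.2 fun y hy => (hc y hy).symm⟩

theorem ex (h : Sym A E t) {x y : G} (hx : x ∈ E) (hy : y ∈ E) :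
    (x * y * x⁻¹ * y⁻¹) ^ t = 1 := by
  have h1 : Commute (x * y * x⁻¹ * y⁻¹) y := cm h (h.comm x hx y hy) hy
  have h2 := h1.mul_pow t
  rw [inv_mul_cancel_right, conj_pow, ← cm h (h.pow y hy) hx, mul_inv_cancel_right] at h2
  exact right_eq_mul.1 h2

theorem nab (hs : Str G X Φ A) (h : Sym A E t) : ∃ x ∈ E, ∃ y ∈ E, x * y ≠ y * x := by
  obtain ⟨x, hx, hx'⟩ := SetLike.exists_of_lt h.lt
  by_contra hc
  push Not at hc
  exact hx' (nd hs h hx (hc x hx))

theorem root (hs : Str G X Φ A) (h : Sym A E t) : ∃ z ∈ A, orderOf z = t := by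
  obtain ⟨x, hx, y, hy, hn⟩ := nab hs h
  have := Fact.mk h.prime
  refine ⟨_, h.comm x hx y hy, orderOf_eq_prime (ex h hx hy) fun e => hn ?_⟩
  rwa [mul_inv_eq_one, mul_inv_eq_iff_eq_mul] at e

theorem pw [Finite G] (hs : Str G X Φ A) (h : Sym A E t) : ∃ j, 2 ≤ j ∧ A.relIndex E = t ^ j := by
  have := hs.norm
  have := Fact.mk h.prime
  have h1 : IsPGroup t (E ⧸ A.subgroupOf E) := fun q => by
    obtain ⟨x, rfl⟩ := QuotientGroup.mk_surjective q
    refine ⟨1, ?_⟩
    rw [pow_one, ← QuotientGroup.mk_pow, QuotientGroup.eq_one_iff]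
    exact h.pow x x.2
  obtain ⟨j, hj⟩ := h1.exists_card_eq
  refine ⟨j, not_lt.1 fun hlt => ?_, hj⟩
  have h2 : IsCyclic (E ⧸ A.subgroupOf E) := isCyclic_of_card_dvd_prime (p := t) (by
    rw [hj]
    exact (pow_dvd_pow t (Nat.lt_succ_iff.1 hlt)).trans (pow_one t).dvd)
  obtain ⟨x, hx, y, hy, hn⟩ := nab hs h
  refine hn (congrArg Subtype.val ((MonoidHom.isMulCommutative_of_isCyclic_of_ker_le_center
    (QuotientGroup.mk' (A.subgroupOf E)) fun a ha => ?_).is_comm.comm ⟨x, hx⟩ ⟨y, hy⟩))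
  rw [QuotientGroup.ker_mk'] at ha
  exact Subgroup.mem_center_iff.2 fun g => Subtype.ext (cm h ha g.2).symm

theorem chi [Nontrivial X] (hs : Str G X Φ A) (hf : StrF G X Φ A) (h : Sym A E t) (x : E) :
    ∃ χ : E →* Φ, ∀ (y : E) (v : X), (y : G) • (x : G) • v = χ y • (x : G) • (y : G) • v := by
  have h1 : ∀ y : E, ∃ c : Φ, ∀ v : X, (y : G) • (x : G) • v = c • (x : G) • (y : G) • v := by
    intro y
    obtain ⟨c, hc⟩ := hs.scal _ (h.comm y y.2 x x.2)
    refine ⟨c, fun v => ?_⟩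
    rw [← hc]
    simp only [smul_smul]
    congr 1
    group
  choose χ hχ using h1
  obtain ⟨v, hv⟩ := exists_ne (0 : X)
  have h2 : ∀ (y : E) (c : Φ), (y : G) • (x : G) • v = c • (x : G) • (y : G) • v → χ y = c :=
    fun y c e => smul_left_injective Φ (m := (x : G) • (y : G) • v)
      ((smul_ne_zero_iff_ne _).2 ((smul_ne_zero_iff_ne _).2 hv)) ((hχ y v).symm.trans e)
  refine ⟨⟨⟨χ, h2 1 1 (by simp)⟩, fun y y' => h2 _ _ ?_⟩, hχ⟩
  change _ = (χ y * χ y') • _
  rw [Subgroup.coe_mul, mul_smul (y : G), mul_smul (y : G), hχ y', (hf.lin _).1 (h.cent y.2), hχ y,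
    smul_smul, mul_comm]

theorem ind [Finite G] [Finite X] [Nontrivial X] (hs : Str G X Φ A) (hf : StrF G X Φ A)
    (h : Sym A E t) : A.relIndex E ≤ Module.finrank Φ X ^ 2 := by
  have := Module.Finite.of_finite (R := Φ) (M := X)
  have := Fintype.ofFinite (E ⧸ A.subgroupOf E)
  choose χ hχ using chi hs hf h
  let ρ : E → X →ₗ[Φ] X := fun x =>
    { toFun := fun v => (x : G) • v
      map_add' := smul_add _
      map_smul' := (hf.lin _).1 (h.cent x.2) }
  have inj : Function.Injective fun q : E ⧸ A.subgroupOf E => χ q.out := by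
    intro q q' e
    have e' : χ q.out = χ q'.out := e
    rw [← q.out_eq, ← q'.out_eq]
    generalize q.out = x at e'
    generalize q'.out = x' at e'
    refine QuotientGroup.eq.2 (nd hs h (x⁻¹ * x').2 fun y hy => ?_)
    have h1 : ∀ v : X, (x : G) • y • (x : G)⁻¹ • (x' : G) • v = (x' : G) • y • v := fun v => by
      have a := hχ x ⟨y, hy⟩ ((x : G)⁻¹ • (x' : G) • v)
      rw [smul_inv_smul, hχ x' ⟨y, hy⟩, e'] at a
      have hu : IsUnit (χ x' ⟨y, hy⟩) := (Group.isUnit _).map _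
      exact (hu.smul_left_cancel.1 a).symm
    have h2 := hs.faith (((x' : G) * y)⁻¹ * (x * y * (x : G)⁻¹ * x')) fun v => by
      simp only [mul_smul]
      rw [h1, ← mul_smul (x' : G), inv_smul_smul]
    rw [inv_mul_eq_one] at h2
    change (x : G)⁻¹ * x' * y = y * ((x : G)⁻¹ * x')
    rw [mul_assoc, h2]
    group
  have li : LinearIndependent Φ fun q : E ⧸ A.subgroupOf E => ρ q.out := by
    refine Fintype.linearIndependent_iff.2 fun c hc q => ?_
    obtain ⟨v, hv⟩ := exists_ne (0 : X)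
    by_contra hq
    refine (smul_ne_zero_iff_ne (q.out : G)).2 hv
      ((Module.forall_dual_apply_eq_zero_iff Φ _).1 fun φ => ?_)
    refine (mul_eq_zero.1 (Fintype.linearIndependent_iff.1
      ((linearIndependent_monoidHom E Φ).comp _ inj) (fun q => c q * φ ((q.out : G) • v))
      (funext fun y => ?_) q)).resolve_left hq
    have a := congrArg (fun L : X →ₗ[Φ] X => φ (ρ y (L ((y : G)⁻¹ • v)))) hc
    simp only [LinearMap.sum_apply, LinearMap.smul_apply, map_sum, map_smul, LinearMap.zero_apply,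
      map_zero, ρ, LinearMap.coe_mk, AddHom.coe_mk, hχ, smul_inv_smul] at a
    rw [Finset.sum_apply, Pi.zero_apply, ← a]
    refine Finset.sum_congr rfl fun q _ => ?_
    simp only [Pi.smul_apply, Function.comp_apply, smul_eq_mul]
    ring
  have := li.fintype_card_le_finrank
  rwa [Module.finrank_linearMap, ← pow_two, ← Nat.card_eq_fintype_card] at this

theorem row : H33.SYM := by
  intro G X Φ _ _ _ _ _ _ _ _ _ A E t hs hf h
  obtain ⟨z, hz, e⟩ := root hs h
  exact ⟨fun _ => nd hs h, fun _ hx _ => ex h hx, ⟨z, hz, e⟩,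
    e ▸ (A.orderOf_dvd_natCard hz).trans hf.card, ind hs hf h, pw hs h⟩

end Pool.Agent.MP_f8e15f_co.RSYM
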