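import Pool.Agent.MP_f8e15f_co.H33.Spec

set_option autoImplicit false

namespace Pool.Agent.MP_f8e15f_co.RSYMP

open Pool.Agent.MP_f8e15f_co.H33

theorem charP (F : Type) [Field F] [Finite F] (t j : ℕ) (ht : t.Prime) (h : Nat.card F = t ^ j) :
    CharP F t := by
  have := Fintype.ofFinite F
  obtain ⟨n, hp, hn⟩ := FiniteField.card F (ringChar F)
  rw [Nat.card_eq_fintype_card, hn] at h
  have h1 : ringChar F ∣ t ^ j := h ▸ dvd_pow_self _ n.ne_zero
  have h2 : ringChar F = t := (Nat.prime_dvd_prime_iff_eq hp ht).1 (hp.dvd_of_dvd_pow h1)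
  exact h2 ▸ ringChar.charP F

theorem diag (F : Type) [Field F] [Finite F] (t : ℕ) [Fact t.Prime] [CharP F t]
    (f : F →+ F →+ ZMod t) (h0 : ∀ x, f x x = 0) (h : ∀ x y, f x y = f (x * y) 1) : f = 0 := by
  have h1 : ∀ x, f x 1 = 0 := by
    intro x
    by_cases h2 : t = 2
    · obtain ⟨y, rfl⟩ : IsSquare x :=
        FiniteField.isSquare_of_char_two (by rw [← h2]; exact ringChar.eq F t) x
      rw [← h, h0]
    · have h3 := h0 (x + 1)
      simp only [map_add, AddMonoidHom.add_apply, h0, zero_add, add_zero] at h3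
      rw [h 1 x, one_mul, ← two_mul] at h3
      refine (mul_eq_zero.1 h3).resolve_left fun h4 => h2 ?_
      have h5 : ((2 : ℕ) : ZMod t) = 0 := by exact_mod_cast h4
      rw [ZMod.natCast_eq_zero_iff] at h5
      exact (Nat.prime_dvd_prime_iff_eq Fact.out Nat.prime_two).1 h5
  ext x y
  rw [h, h1]
  rfl

theorem row : OfSYMP := by
  intro E F _ _ t j ht hc f hf h0
  classical
  have := Fact.mk ht
  have := charP F t j ht hc
  have := Fintype.ofFinite F
  have : Finite (F ≃+* F) := Finite.of_injective (fun σ : F ≃+* F => (σ : F → F))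
    DFunLike.coe_injective
  have := Fintype.ofFinite (F ≃+* F)
  let ι : ZMod t →+* F := ZMod.castHom (dvd_refl t) F
  obtain ⟨c, hcc⟩ := E.ex F (f.compr₂ ι.toAddMonoidHom)
  have hc' : ∀ x y, ι (f x y) = ∑ σ, ∑ τ, c σ τ * σ x * τ y := hcc
  obtain ⟨σ, τ, hne, hcn⟩ : ∃ σ τ, σ ≠ τ ∧ c σ τ ≠ 0 := by
    by_contra hn
    push Not at hn
    refine hf (diag F t f h0 fun x y => ι.injective ?_)
    rw [hc', hc']
    refine Finset.sum_congr rfl fun σ _ => Finset.sum_congr rfl fun τ _ => ?_
    by_cases h : σ = τ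
    · subst h; rw [map_mul, map_one]; ring
    · rw [hn σ τ h]; ring
  have key : ∀ u : F, u ≠ 0 → (∃ m : ZMod t, ∀ x y, f (u * x) (u * y) = m * f x y) →
      (σ u * τ u) ^ (t - 1) = 1 := by
    rintro u hu ⟨m, hm⟩
    have h1 := E.un F (fun σ τ => c σ τ * (σ u * τ u)) (fun σ τ => c σ τ * ι m) fun x y => by
      have h2 := congrArg ι (hm x y)
      rw [map_mul ι m, hc', hc', Finset.mul_sum] at h2
      simp only [Finset.mul_sum, map_mul] at h2
      convert h2 using 3 <;> ring
    have h3 : σ u * τ u = ι m := mul_left_cancel₀ hcn (congrFun (congrFun h1 σ) τ)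
    have h4 : m ≠ 0 := by
      rintro rfl
      rw [map_zero] at h3
      exact mul_ne_zero ((map_ne_zero σ).2 hu) ((map_ne_zero τ).2 hu) h3
    rw [h3, ← map_pow, ZMod.pow_card_sub_one_eq_one h4, map_one]
  obtain ⟨-, h1, -, h3⟩ := E.frob F t j ht hc
  obtain ⟨i, hi, hi'⟩ := h1 (τ.trans σ.symm)
  obtain ⟨k, hk, hk'⟩ := h1 (σ.trans τ.symm)
  simp only [RingEquiv.trans_apply] at hi' hk'
  have i0 : 1 ≤ i := by
    refine Nat.one_le_iff_ne_zero.2 fun h => hne (RingEquiv.ext fun x => ?_)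
    have := congrArg σ (hi' x)
    rw [h, pow_zero, pow_one, RingEquiv.apply_symm_apply] at this
    exact this.symm
  have k0 : 1 ≤ k := by
    refine Nat.one_le_iff_ne_zero.2 fun h => hne (RingEquiv.ext fun x => ?_)
    have := congrArg τ (hk' x)
    rwa [h, pow_zero, pow_one, RingEquiv.apply_symm_apply] at this
  have hik : (i + k) % j = 0 % j := h3 _ _ fun x => by
    rw [pow_add, pow_mul, ← hi', ← hk', RingEquiv.apply_symm_apply, RingEquiv.symm_apply_apply,
      pow_zero, pow_one]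
  have hj : i + k = j := by
    rw [Nat.zero_mod] at hik
    obtain ⟨a, ha⟩ := Nat.dvd_of_mod_eq_zero hik
    have : a = 1 := by
      rcases a with _ | _ | a
      · omega
      · rfl
      · nlinarith
    rw [ha, this, mul_one]
  by_cases h2 : 2 * i ≤ j
  · refine ⟨i, i0, h2, fun u hu hm => ?_⟩
    have := congrArg σ.symm (key u hu hm)
    rw [map_pow, map_mul, map_one, RingEquiv.symm_apply_apply, hi'] at this
    rw [pow_mul, pow_add, pow_one, this]
  · refine ⟨k, k0, by omega, fun u hu hm => ?_⟩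
    have := congrArg τ.symm (key u hu hm)
    rw [map_pow, map_mul, map_one, RingEquiv.symm_apply_apply, hk', mul_comm] at this
    rw [pow_mul, pow_add, pow_one, this]

end Pool.Agent.MP_f8e15f_co.RSYMP
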