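import Pool.Agent.MP_f8e15f_co.H33.Spec

/-! Two divisibility lemmas for numbers of the form `p ^ d - 1`. -/

namespace Pool.Agent.MP_f8e15f_co.RT3

theorem two_mul_le_pow {p n : ℕ} (hp : 2 ≤ p) (hn : 1 ≤ n) : p * n ≤ p ^ n := by
  obtain ⟨k, rfl⟩ : ∃ k, n = k + 1 := ⟨n - 1, by omega⟩
  rw [pow_succ']
  exact Nat.mul_le_mul_left _ ((Nat.lt_two_pow_self (n := k)).trans_le (Nat.pow_le_pow_left hp k))

theorem deg : H33.DEG := by
  intro p M t i hp ht htM h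
  have p2 := hp.two_le
  have h1 : p ^ M - 1 ∣ t * (p ^ Nat.gcd M i - 1) := by
    rw [← Nat.pow_sub_one_gcd_pow_sub_one, ← Nat.gcd_mul_left]
    exact Nat.dvd_gcd (Dvd.intro_left _ rfl) h
  obtain ⟨k, hk⟩ := Nat.gcd_dvd_left M i
  have hi := Nat.gcd_dvd_right M i
  generalize Nat.gcd M i = g at *
  have g0 : 0 < g := Nat.pos_of_ne_zero fun h0 => by subst h0; omega
  rcases Nat.lt_or_ge k 2 with hk2 | hk2
  · obtain rfl : k = 1 := by
      rcases k with _ | _ | k <;> omega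
    rw [hk, mul_one]; exact hi
  exfalso
  have h2 : g * 2 ≤ M := hk ▸ Nat.mul_le_mul_left g hk2
  obtain ⟨n, rfl⟩ : ∃ n, M = n + g := ⟨M - g, by omega⟩
  have a1 : 1 < p ^ g := Nat.one_lt_pow g0.ne' p2
  have a2 : 1 < p ^ n := Nat.one_lt_pow (by omega) p2
  have a3 : p * n ≤ p ^ n := two_mul_le_pow p2 (by omega)
  have a4 : 2 * n ≤ p * n := Nat.mul_le_mul_right n p2
  have a5 := Nat.le_of_dvd (Nat.mul_pos ht (by omega)) h1
  rw [pow_add] at a5
  obtain ⟨q, hq⟩ : ∃ q, p ^ g = q + 1 := ⟨p ^ g - 1, by omega⟩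
  rw [hq, Nat.add_sub_cancel, mul_add, mul_one] at a5
  have a6 : t * q ≤ p ^ n * q := Nat.mul_le_mul_right q (by omega)
  omega

theorem pow_two_add {n e f : ℕ} (h : 2 ^ n = 2 ^ e + 2 ^ f) : e + 1 = n ∧ f + 1 = n := by
  wlog hef : e ≤ f generalizing e f
  · exact (this (h.trans (add_comm _ _)) (by omega)).symm
  have a := Nat.pow_le_pow_right (show 0 < 2 by norm_num) hef
  have b : 0 < 2 ^ e := by positivity
  have c : f < n := (Nat.pow_lt_pow_iff_right (show 1 < 2 by norm_num)).1 (by omega)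
  have c' : n ≤ f + 1 := (Nat.pow_le_pow_iff_right (show 1 < 2 by norm_num)).1
    (by rw [pow_succ]; omega)
  obtain rfl : n = f + 1 := by omega
  rw [pow_succ] at h
  have : e = f := Nat.pow_right_injective (le_refl 2) (show 2 ^ e = 2 ^ f by omega)
  omega

theorem two_case {n c e f : ℕ} (h : 1 + 2 ^ n = 2 ^ c + 2 ^ e + 2 ^ f) :
    0 < n ∧ c + e + f + 2 = 2 * n ∨ c = n ∨ e = n ∨ f = n := by
  have hc : 0 < 2 ^ c := by positivity
  have he : 0 < 2 ^ e := by positivity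
  have hf : 0 < 2 ^ f := by positivity
  rcases n with _ | n
  · omega
  rcases c with _ | c
  · have := pow_two_add (show 2 ^ (n + 1) = 2 ^ e + 2 ^ f by omega)
    omega
  rcases e with _ | e
  · have := pow_two_add (show 2 ^ (n + 1) = 2 ^ (c + 1) + 2 ^ f by omega)
    omega
  rcases f with _ | f
  · have := pow_two_add (show 2 ^ (n + 1) = 2 ^ (c + 1) + 2 ^ (e + 1) by omega)
    omega
  simp only [pow_succ] at h
  omega

theorem key0 {p b c e f : ℕ} (hp : p.Prime) (h : 2 + p ^ (b + 1) = p * (p ^ c + p ^ e + p ^ f)) :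
    0 < b ∧ c + e + f + 2 = 2 * b ∨ c = b ∨ e = b ∨ f = b := by
  have h2 : p ∣ 2 := (Nat.dvd_add_left (dvd_pow_self p (Nat.succ_ne_zero b))).1 ⟨_, h⟩
  obtain rfl := (Nat.prime_dvd_prime_iff_eq hp Nat.prime_two).1 h2
  rw [pow_succ] at h
  exact two_case (by omega)

theorem key {p x y z u v w : ℕ} (hp : p.Prime) (hy : x ≤ y) (hz : x ≤ z) (hu : x < u) (hv : x < v)
    (hw : x < w) (h : p ^ x + p ^ y + p ^ z = p ^ u + p ^ v + p ^ w) :
    (∃ k, 0 < k ∧ (k < y ∨ k < z) ∧ x + y + z + k = u + v + w) ∨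
      y = u ∨ y = v ∨ y = w ∨ z = u ∨ z = v ∨ z = w := by
  obtain ⟨a, rfl⟩ := Nat.exists_eq_add_of_le hy
  obtain ⟨b, rfl⟩ := Nat.exists_eq_add_of_le hz
  obtain ⟨c, rfl⟩ := Nat.exists_eq_add_of_lt hu
  obtain ⟨e, rfl⟩ := Nat.exists_eq_add_of_lt hv
  obtain ⟨f, rfl⟩ := Nat.exists_eq_add_of_lt hw
  have h1 : 1 + p ^ a + p ^ b = p * (p ^ c + p ^ e + p ^ f) :=
    Nat.eq_of_mul_eq_mul_left (pow_pos hp.pos x) (by
      simp only [pow_succ, pow_add] at h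
      linear_combination h)
  have hc := pow_pos hp.pos c
  have he := pow_pos hp.pos e
  have hf := pow_pos hp.pos f
  rcases a with _ | a <;> rcases b with _ | b
  · have : 2 * 3 ≤ p * (p ^ c + p ^ e + p ^ f) := Nat.mul_le_mul hp.two_le (by omega)
    simp only [pow_zero] at h1
    omega
  · rcases key0 hp (show 2 + p ^ (b + 1) = _ by rw [← h1, pow_zero]; ring) with h2 | h2
    · exact Or.inl ⟨b, h2.1, by omega, by omega⟩
    · exact Or.inr (by omega)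
  · rcases key0 hp (show 2 + p ^ (a + 1) = _ by rw [← h1, pow_zero]; ring) with h2 | h2
    · exact Or.inl ⟨a, h2.1, by omega, by omega⟩
    · exact Or.inr (by omega)
  · exfalso
    have : p ∣ 1 := (Nat.dvd_add_left (dvd_add (dvd_pow_self p (Nat.succ_ne_zero a))
      (dvd_pow_self p (Nat.succ_ne_zero b)))).1 ⟨_, by rw [← h1, add_assoc]⟩
    exact hp.one_lt.ne' (Nat.dvd_one.1 this)

theorem no_shift {d S k T : ℕ} (h0 : 0 < k) (hk : k < d) (h : S + k = T) (hm : S % d = T % d) :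
    False := by
  subst h
  have := (Nat.modEq_iff_dvd' (Nat.le_add_right S k)).1 hm
  rw [Nat.add_sub_cancel_left] at this
  exact absurd (Nat.le_of_dvd h0 this) (by omega)

theorem nz0 {p d x y z u v w : ℕ} (hp : p.Prime) (hy : x ≤ y) (hz : x ≤ z) (hu : x < u) (hv : x < v)
    (hw : x < w) (by' : y < d) (bz : z < d) (h4 : y ≠ u) (h5 : y ≠ v) (h6 : y ≠ w) (h7 : z ≠ u)
    (h8 : z ≠ v) (h9 : z ≠ w) (hm : (x + y + z) % d = (u + v + w) % d)
    (h : p ^ x + p ^ y + p ^ z = p ^ u + p ^ v + p ^ w) : False := by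
  rcases key hp hy hz hu hv hw h with ⟨k, k0, k1, k2⟩ | k | k | k | k | k | k
  exacts [no_shift k0 (k1.elim (·.trans by') (·.trans bz)) k2 hm, h4 k, h5 k, h6 k, h7 k, h8 k, h9 k]

theorem nz1 {p d x y z u v w : ℕ} (hp : p.Prime) (bx : x < d) (by' : y < d) (bz : z < d)
    (h1 : x ≠ u) (h2 : x ≠ v) (h3 : x ≠ w) (h4 : y ≠ u) (h5 : y ≠ v)
    (h6 : y ≠ w) (h7 : z ≠ u) (h8 : z ≠ v) (h9 : z ≠ w) (hm : (x + y + z) % d = (u + v + w) % d)
    (h : p ^ x + p ^ y + p ^ z = p ^ u + p ^ v + p ^ w)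
    (a : (x ≤ y ∧ x ≤ z ∧ x ≤ u ∧ x ≤ v ∧ x ≤ w) ∨ (y ≤ x ∧ y ≤ z ∧ y ≤ u ∧ y ≤ v ∧ y ≤ w) ∨
      (z ≤ x ∧ z ≤ y ∧ z ≤ u ∧ z ≤ v ∧ z ≤ w)) : False := by
  rcases a with ⟨a1, a2, a3, a4, a5⟩ | ⟨a1, a2, a3, a4, a5⟩ | ⟨a1, a2, a3, a4, a5⟩
  · exact nz0 hp a1 a2 (a3.lt_of_ne h1) (a4.lt_of_ne h2) (a5.lt_of_ne h3) by' bz h4 h5 h6 h7 h8 h9
      hm h
  · exact nz0 hp a1 a2 (a3.lt_of_ne h4) (a4.lt_of_ne h5) (a5.lt_of_ne h6) bx bz h1 h2 h3 h7 h8 h9
      (by rw [add_comm y x]; exact hm) (by rw [add_comm (p ^ y) (p ^ x)]; exact h)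
  · exact nz0 hp a1 a2 (a3.lt_of_ne h7) (a4.lt_of_ne h8) (a5.lt_of_ne h9) bx by' h1 h2 h3 h4 h5 h6
      (by rw [add_rotate z x y]; exact hm) (by rw [add_rotate (p ^ z) (p ^ x) (p ^ y)]; exact h)

theorem mn (x y z u v w : ℕ) :
    ((x ≤ y ∧ x ≤ z ∧ x ≤ u ∧ x ≤ v ∧ x ≤ w) ∨ (y ≤ x ∧ y ≤ z ∧ y ≤ u ∧ y ≤ v ∧ y ≤ w) ∨
      (z ≤ x ∧ z ≤ y ∧ z ≤ u ∧ z ≤ v ∧ z ≤ w)) ∨
    ((u ≤ v ∧ u ≤ w ∧ u ≤ x ∧ u ≤ y ∧ u ≤ z) ∨ (v ≤ u ∧ v ≤ w ∧ v ≤ x ∧ v ≤ y ∧ v ≤ z) ∨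
      (w ≤ u ∧ w ≤ v ∧ w ≤ x ∧ w ≤ y ∧ w ≤ z)) := by
  obtain ⟨m, hm, a⟩ := Finset.exists_min_image Finset.univ ![x, y, z, u, v, w] Finset.univ_nonempty
  have a0 := a 0 (Finset.mem_univ _)
  have a1 := a 1 (Finset.mem_univ _)
  have a2 := a 2 (Finset.mem_univ _)
  have a3 := a 3 (Finset.mem_univ _)
  have a4 := a 4 (Finset.mem_univ _)
  have a5 := a 5 (Finset.mem_univ _)
  fin_cases m
  exacts [.inl (.inl ⟨a1, a2, a3, a4, a5⟩), .inl (.inr (.inl ⟨a0, a2, a3, a4, a5⟩)),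
    .inl (.inr (.inr ⟨a0, a1, a3, a4, a5⟩)), .inr (.inl ⟨a4, a5, a0, a1, a2⟩),
    .inr (.inr (.inl ⟨a3, a5, a0, a1, a2⟩)), .inr (.inr (.inr ⟨a3, a4, a0, a1, a2⟩))]

theorem nz {p d x y z u v w : ℕ} (hp : p.Prime) (bx : x < d) (by' : y < d) (bz : z < d) (bu : u < d)
    (bv : v < d) (bw : w < d) (h1 : x ≠ u) (h2 : x ≠ v) (h3 : x ≠ w) (h4 : y ≠ u) (h5 : y ≠ v)
    (h6 : y ≠ w) (h7 : z ≠ u) (h8 : z ≠ v) (h9 : z ≠ w) (hm : (x + y + z) % d = (u + v + w) % d) :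
    p ^ x + p ^ y + p ^ z ≠ p ^ u + p ^ v + p ^ w := fun h =>
  (mn x y z u v w).elim (nz1 hp bx by' bz h1 h2 h3 h4 h5 h6 h7 h8 h9 hm h)
    (nz1 hp bu bv bw h1.symm h4.symm h7.symm h2.symm h5.symm h8.symm h3.symm h6.symm h9.symm
      hm.symm h.symm)

theorem sum_mod (d a b c : ℕ) : (a % d + b % d + c % d) % d = (a + b + c) % d :=
  ((Nat.mod_modEq a d).add (Nat.mod_modEq b d)).add (Nat.mod_modEq c d)

/-- Some shift moves six residues away from the top `⌈d / 6⌉ - 1` residues. -/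
theorem shift {d : ℕ} (hd : 0 < d) (e : Fin 6 → ℕ) :
    ∃ s, ∀ l, (e l + s) % d + (d + 5) / 6 ≤ d := by
  by_contra hn
  push Not at hn
  choose l hl using hn
  have := Finset.card_le_card_of_injOn (s := Finset.range d)
    (t := (Finset.univ : Finset (Fin 6)) ×ˢ Finset.Ioo (d - (d + 5) / 6) d)
    (fun s => (l s, (e (l s) + s) % d)) (fun s _ => by
      have a := hl s
      have b := Nat.mod_lt (e (l s) + s) hd
      simp only [Finset.coe_product, Set.mem_prod, Finset.mem_coe, Finset.mem_univ, Finset.mem_Ioo,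
        true_and]
      omega) (fun s hs s' hs' h => by
      simp only [Prod.mk.injEq] at h
      have h2 := h.2
      rw [h.1] at h2
      exact Nat.ModEq.eq_of_lt_of_lt (Nat.ModEq.add_left_cancel' _ h2) (by simpa using hs)
        (by simpa using hs'))
  simp only [Finset.card_range, Finset.card_product, Finset.card_univ, Fintype.card_fin,
    Nat.card_Ioo] at this
  omega

theorem ne_shift {d a b : ℕ} (s : ℕ) (h : a % d ≠ b % d) : (a + s) % d ≠ (b + s) % d :=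
  fun h' => h (Nat.ModEq.add_right_cancel' s h')

theorem ne_add {d a b : ℕ} (h0 : 0 < b) (hb : b < d) : (a + b) % d ≠ a % d :=
  fun h => no_shift h0 hb rfl h.symm

theorem pow_mod_dvd (p : ℤ) (d n : ℕ) : p ^ d - 1 ∣ p ^ n - p ^ (n % d) := by
  have : p ^ n - p ^ (n % d) = ((p ^ d) ^ (n / d) - 1 ^ (n / d)) * p ^ (n % d) := by
    rw [← pow_mul, sub_mul, ← pow_add, Nat.div_add_mod, one_pow, one_mul]
  rw [this]
  exact (sub_dvd_pow_sub_pow _ _ _).mul_right _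

theorem bound {p d i j i' j' : ℕ} (hp : p.Prime) (i0 : 0 < i) (id : i < d) (j0 : 0 < j) (jd : j < d)
    (i0' : 0 < i') (id' : i' < d) (j0' : 0 < j') (jd' : j' < d) (n1 : i ≠ j) (n2 : i' ≠ j')
    (n3 : i ≠ i') (n4 : j ≠ j') (n5 : (i + j') % d ≠ (i' + j) % d)
    (h : (p : ℤ) ^ d - 1 ∣ d * (((p : ℤ) ^ i - 1) * (p ^ j' - 1) - (p ^ i' - 1) * (p ^ j - 1))) :
    p ^ ((d + 5) / 6) < 3 * Nat.gcd d (p ^ d - 1) := by
  have hd : 0 < d := by omega
  obtain ⟨s, hs⟩ := shift hd ![i + j', i', j, i' + j, i, j']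
  have s0 := hs 0
  have s1 := hs 1
  have s2 := hs 2
  have s3 := hs 3
  have s4 := hs 4
  have s5 := hs 5
  simp only [Matrix.cons_val] at s0 s1 s2 s3 s4 s5
  have lt : ∀ {a b : ℕ}, a < d → b < d → a ≠ b → a % d ≠ b % d := fun ha hb hab => by
    rwa [Nat.mod_eq_of_lt ha, Nat.mod_eq_of_lt hb]
  have hne := nz hp (Nat.mod_lt (i + j' + s) hd) (Nat.mod_lt (i' + s) hd) (Nat.mod_lt (j + s) hd)
    (Nat.mod_lt (i' + j + s) hd) (Nat.mod_lt (i + s) hd) (Nat.mod_lt (j' + s) hd)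
    (ne_shift s n5) (ne_shift s (ne_add j0' jd')) (ne_shift s (add_comm i j' ▸ ne_add i0 id))
    (ne_shift s (ne_add j0 jd).symm) (ne_shift s (lt id' id n3.symm)) (ne_shift s (lt id' jd' n2))
    (ne_shift s (add_comm i' j ▸ ne_add i0' id').symm) (ne_shift s (lt jd id n1.symm))
    (ne_shift s (lt jd jd' n4)) (by
      rw [sum_mod, sum_mod]
      exact congrArg (· % d) (by ring))
  have d0 := pow_mod_dvd (p : ℤ) d (i + j' + s)
  have d1 := pow_mod_dvd (p : ℤ) d (i' + s)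
  have d2 := pow_mod_dvd (p : ℤ) d (j + s)
  have d3 := pow_mod_dvd (p : ℤ) d (i' + j + s)
  have d4 := pow_mod_dvd (p : ℤ) d (i + s)
  have d5 := pow_mod_dvd (p : ℤ) d (j' + s)
  generalize (i + j' + s) % d = x at *
  generalize (i' + s) % d = y at *
  generalize (j + s) % d = z at *
  generalize (i' + j + s) % d = u at *
  generalize (i + s) % d = v at *
  generalize (j' + s) % d = w at *
  obtain ⟨D, hD⟩ : ∃ D : ℤ, D = (p : ℤ) ^ x + p ^ y + p ^ z - (p ^ u + p ^ v + p ^ w) := ⟨_, rfl⟩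
  have hdD : (p : ℤ) ^ d - 1 ∣ d * D := by
    have := (h.mul_left ((p : ℤ) ^ s)).sub
      ((((d0.add d1).add d2).sub ((d3.add d4).add d5)).mul_left d)
    refine (Dvd.dvd.trans this (dvd_of_eq ?_))
    rw [hD]
    ring
  have hD0 : D ≠ 0 := fun h0 => hne (by
    have : (p : ℤ) ^ x + p ^ y + p ^ z = p ^ u + p ^ v + p ^ w := by linarith
    exact_mod_cast this)
  have p1 : 1 ≤ p ^ d := Nat.one_le_pow _ _ hp.pos
  have hN : p ^ d - 1 ∣ d * D.natAbs := by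
    have := Int.natAbs_dvd_natAbs.2 hdD
    rw [Int.natAbs_mul, Int.natAbs_natCast] at this
    have e : ((p : ℤ) ^ d - 1) = ((p ^ d - 1 : ℕ) : ℤ) := by push_cast [p1]; rfl
    rwa [e, Int.natAbs_natCast] at this
  have hm : p ^ d - 1 ∣ Nat.gcd d (p ^ d - 1) * D.natAbs := by
    rw [← Nat.gcd_mul_right]
    exact Nat.dvd_gcd hN (Dvd.intro _ rfl)
  have m0 : 0 < Nat.gcd d (p ^ d - 1) := Nat.gcd_pos_of_pos_left _ hd
  generalize Nat.gcd d (p ^ d - 1) = m at *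
  have hle := Nat.le_of_dvd (Nat.mul_pos m0 (Int.natAbs_pos.2 hD0)) hm
  obtain ⟨g, hg⟩ : ∃ g, g = (d + 5) / 6 := ⟨_, rfl⟩
  rw [← hg] at s0 s1 s2 s3 s4 s5 ⊢
  obtain ⟨n, rfl⟩ : ∃ n, d = g + n := ⟨d - g, by omega⟩
  have q : ∀ a, a + g ≤ g + n → 1 ≤ p ^ a ∧ p ^ a ≤ p ^ n := fun a ha =>
    ⟨Nat.one_le_pow _ _ hp.pos, Nat.pow_le_pow_right hp.pos (by omega)⟩
  have hb : D.natAbs + 3 ≤ 3 * p ^ n := by
    have q0 := q _ s0
    have q1 := q _ s1
    have q2 := q _ s2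
    have q3 := q _ s3
    have q4 := q _ s4
    have q5 := q _ s5
    have : D = ((p ^ x + p ^ y + p ^ z : ℕ) : ℤ) - ((p ^ u + p ^ v + p ^ w : ℕ) : ℤ) := by
      rw [hD]; push_cast; rfl
    omega
  refine Nat.lt_of_mul_lt_mul_right (a := p ^ n) ?_
  have := Nat.mul_le_mul_left m hb
  rw [pow_add] at hle p1
  nlinarith [Nat.sub_add_cancel p1]

noncomputable def allLt (n : ℕ) (f : ℕ → Bool) : Bool :=
  Nat.rec true (fun k ih => Bool.rec false ih (f k)) n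

theorem allLt_spec {n : ℕ} {f : ℕ → Bool} (h : allLt n f = true) {k : ℕ} (hk : k < n) :
    f k = true := by
  induction n with
  | zero => omega
  | succ n ih =>
    have h0 : (Bool.rec false (allLt n f) (f n) : Bool) = true := h
    have h' : f n = true ∧ allLt n f = true := by
      revert h0
      cases f n
      exacts [fun h => Bool.noConfusion h, fun h => ⟨rfl, h⟩]
    rcases Nat.lt_succ_iff_lt_or_eq.1 hk with a | rfl
    exacts [ih h'.2 a, h'.1]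

def W (p d a b : ℕ) : ℕ := d * ((p ^ a - 1) * (p ^ b - 1)) % (p ^ d - 1)

def bad (d i j i' j' : ℕ) : Bool := Nat.beq i 0 || Nat.beq j 0 || Nat.beq i' 0 ||
  Nat.beq j' 0 || Nat.beq i j || Nat.beq i' j' || Nat.beq i i' || Nat.beq j j' ||
  Nat.beq ((i + j') % d) ((i' + j) % d)

noncomputable def chk (p d : ℕ) : Bool := allLt d fun i => allLt d fun j' => allLt d fun i' => allLt d fun j =>
  Bool.rec true (bad d i j i' j') (Nat.beq (W p d i j') (W p d i' j))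

noncomputable def flt (p : ℕ) : Bool := allLt 37 fun d =>
  Nat.ble (3 * Nat.gcd d (p ^ d - 1)) (p ^ ((d + 5) / 6)) || (Nat.beq p 3 && Nat.beq d 4) || chk p d

theorem f2 : flt 2 = true := by decide +kernel
theorem f3 : flt 3 = true := by decide +kernel
theorem f5 : flt 5 = true := by decide +kernel
theorem f7 : flt 7 = true := by decide +kernel
theorem f11 : flt 11 = true := by decide +kernel
theorem f13 : flt 13 = true := by decide +kernel
theorem f17 : flt 17 = true := by decide +kernel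

theorem t3 : H33.T3 := by
  intro p d i j i' j' hp i0 id j0 jd i0' id' j0' jd' n1 n2 n3 n4 n5 h
  have hb := bound hp i0 id j0 jd i0' id' j0' jd' n1 n2 n3 n4 n5 h
  have hm : Nat.gcd d (p ^ d - 1) ≤ d := Nat.gcd_le_left _ (by omega)
  have a1 : p * ((d + 5) / 6) ≤ p ^ ((d + 5) / 6) := two_mul_le_pow hp.two_le (by omega)
  have hp18 : p < 18 := by
    by_contra hn
    have : 18 * ((d + 5) / 6) ≤ p * ((d + 5) / 6) := Nat.mul_le_mul_right _ (by omega)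
    omega
  have hd37 : d < 37 := by
    by_contra hn
    obtain ⟨k, hk⟩ : ∃ k, (d + 5) / 6 = k + 7 := ⟨(d + 5) / 6 - 7, by omega⟩
    have b1 : 2 ^ (k + 7) ≤ p ^ (k + 7) := Nat.pow_le_pow_left hp.two_le _
    have b2 : k < 2 ^ k := Nat.lt_two_pow_self
    rw [hk] at hb
    rw [pow_add] at b1
    omega
  have hf : flt p = true := by
    have : p = 2 ∨ p = 3 ∨ p = 5 ∨ p = 7 ∨ p = 11 ∨ p = 13 ∨ p = 17 := by
      clear hb hm a1 h
      revert hp
      interval_cases p <;> decide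
    rcases this with rfl | rfl | rfl | rfl | rfl | rfl | rfl
    exacts [f2, f3, f5, f7, f11, f13, f17]
  have h1 := allLt_spec hf hd37
  simp only [Bool.or_eq_true, Nat.ble_eq, Bool.and_eq_true, Nat.beq_eq] at h1
  rcases h1 with (h1 | ⟨rfl, rfl⟩) | h1
  · omega
  · refine ⟨rfl, rfl, ?_⟩
    revert h n1 n2 n3 n4 n5
    interval_cases i <;> interval_cases j <;> interval_cases i' <;> interval_cases j' <;> decide
  exfalso
  have h2 := allLt_spec (allLt_spec (allLt_spec (allLt_spec h1 id) jd') id') jd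
  have hW : W p d i j' = W p d i' j := by
    have c : ∀ a, ((p ^ a - 1 : ℕ) : ℤ) = (p : ℤ) ^ a - 1 := fun a => by
      push_cast [Nat.one_le_pow a p hp.pos]; rfl
    refine (Nat.modEq_iff_dvd.2 ?_ : Nat.ModEq _ _ _).symm
    push_cast
    simp only [c]
    rwa [← mul_sub]
  rw [hW, Nat.beq_refl] at h2
  have h3 : bad d i j i' j' = true := h2
  simp only [bad, Bool.or_eq_true, Nat.beq_eq] at h3
  clear hb hm a1 h h1 h2 hW hf
  omega

theorem row : H33.OfT3 := ⟨deg, t3⟩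

end Pool.Agent.MP_f8e15f_co.RT3
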