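import Pool.Agent.MP_f8e15f_co.H33.Spec2

/-!
If the components of a translation design do not cover the space, they meet trivially.
-/

open MulAction Pointwise Finset

namespace Pool.Agent.MP_f8e15f_co.RTR1

open Pool.Agent.MP_f8e15f_co.H33 Pool.Agent.MP_f8e15f_co.H24
open scoped Classical

theorem arith {p d k μ l r b : ℕ} (hp : p.Prime) (h1 : μ ∣ p ^ d) (h2 : μ ∣ k) (h3 : μ ≠ k)
    (h4 : 1 < μ) (h5 : 1 ≤ l) (h6 : 2 ≤ r) (h7 : IsPrimePow r) (h8 : l ∣ r)
    (h9 : l * b = (r - 1) * μ) (e : r + l * (k - 1) = (r - 1) * μ + k) (hk : 1 ≤ k) :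
    b = k - 1 := by
  obtain ⟨r, rfl⟩ : ∃ s, r = s + 1 := ⟨r - 1, by omega⟩
  obtain ⟨k, rfl⟩ : ∃ s, k = s + 1 := ⟨k - 1, by omega⟩
  simp only [Nat.add_sub_cancel] at h9 e ⊢
  have c1 : l.Coprime r := Nat.Coprime.coprime_dvd_left h8 (by simp)
  obtain ⟨w, rfl⟩ : l ∣ μ := c1.dvd_of_dvd_mul_left ⟨b, h9.symm⟩
  have l1 : l ≠ 1 := by
    rintro rfl
    nlinarith
  by_cases hw : w = 1
  · subst hw
    have e1 : ((l : ℤ) - 1) * (k - r) = 0 := by
      have : (r : ℤ) + 1 + l * k = r * (l * 1) + (k + 1) := by exact_mod_cast e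
      linarith
    have e2 : (k : ℤ) - r = 0 := (mul_eq_zero.1 e1).resolve_left (by omega)
    have e3 : l * b = l * r := by rw [h9]; ring
    have := Nat.eq_of_mul_eq_mul_left h5 e3
    omega
  exfalso
  have pd : ∀ a, a ∣ p ^ d → a ≠ 1 → p ∣ a := fun a ha h => by
    obtain ⟨i, -, rfl⟩ := (Nat.dvd_prime_pow hp).1 ha
    exact dvd_pow_self p fun e => h (by rw [e, pow_zero])
  have pw := pd w ((Dvd.intro_left _ rfl).trans h1) hw
  have pl := pd l ((Dvd.intro _ rfl).trans h1) l1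
  obtain ⟨s, hs⟩ := h8
  obtain ⟨n, hn⟩ := h2
  obtain ⟨q, j, hq, -, hj⟩ := (isPrimePow_nat_iff _).1 h7
  have pq : p = q := (Nat.prime_dvd_prime_iff_eq hp hq).1
    (hp.dvd_of_dvd_pow (n := j) (by rw [hj, hs]; exact pl.mul_right _))
  have z1 : (r : ℤ) + 1 = l * s := by exact_mod_cast hs
  have z2 : (k : ℤ) + 1 = l * w * n := by exact_mod_cast hn
  have z3 : (r : ℤ) + 1 + l * k = r * (l * w) + (k + 1) := by exact_mod_cast e
  have z4 : (l : ℤ) * (s - 1) = l * (w * (r + n - l * n)) := by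
    linear_combination z3 - z1 + (1 - l) * z2
  have z5 := mul_left_cancel₀ (show (l : ℤ) ≠ 0 by omega) z4
  have s1 : s = 1 := by
    by_contra c
    obtain ⟨i, -, hi⟩ := (Nat.dvd_prime_pow hq).1 (show s ∣ q ^ j by
      rw [hj, hs]; exact Dvd.intro_left _ rfl)
    have ps : p ∣ s := by
      rw [hi, pq]
      exact dvd_pow_self q fun e => c (by rw [hi, e, pow_zero])
    have a1 : (p : ℤ) ∣ s - 1 := by
      rw [z5]
      exact (Int.natCast_dvd_natCast.2 pw).mul_right _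
    have a2 := (Int.natCast_dvd_natCast.2 ps).sub a1
    rw [sub_sub_cancel] at a2
    exact hp.one_lt.ne' (Nat.dvd_one.1 (by exact_mod_cast a2))
  subst s1
  have z6 : (r : ℤ) * (k + 1 - l * w) = 0 := by
    push_cast at z1
    linear_combination z3 + k * z1
  have z7 : (k : ℤ) + 1 - l * w = 0 := (mul_eq_zero.1 z6).resolve_left (by omega)
  exact h3 (by exact_mod_cast (sub_eq_zero.1 z7).symm)

section Count

variable {V : Type} [AddCommGroup V] [Fintype V]

/-- The elements of a subgroup. -/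
noncomputable def el (M : AddSubgroup V) : Finset V := univ.filter (· ∈ M)

theorem mem_el {M : AddSubgroup V} {x : V} : x ∈ el M ↔ x ∈ M := by simp [el]

theorem card_el (M : AddSubgroup V) : #(el M) = Nat.card M := by
  rw [Nat.card_eq_fintype_card, Fintype.card_subtype, el]

/-- The number of components on a vector. -/
noncomputable def f (F : Finset (AddSubgroup V)) (x : V) : ℕ := #(F.filter (x ∈ ·))

/-- The number of non-zero vectors of the union in a coset. -/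
noncomputable def bb (F : Finset (AddSubgroup V)) (M : AddSubgroup V) (y : V) : ℕ :=
  #((el M).filter fun m => y - m ≠ 0 ∧ f F (y - m) ≠ 0)

variable {F : Finset (AddSubgroup V)} {k μ l : ℕ}

theorem f_eq_zero {x : V} : f F x = 0 ↔ ∀ M ∈ F, x ∉ M := by simp [f]

theorem f_zero : f F 0 = #F := by simp [f]

theorem coset (hk : ∀ M ∈ F, #(el M) = k) (hμ : ∀ M ∈ F, ∀ M' ∈ F, M ≠ M' → #(el (M ⊓ M')) = μ)
    (hs : ∀ M ∈ F, ∀ M' ∈ F, M ≠ M' → M ⊔ M' = ⊤) {M : AddSubgroup V} (hM : M ∈ F) (y : V) :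
    ∑ m ∈ el M, f F (y - m) = (#F - 1) * μ + if y ∈ M then k else 0 := by
  simp only [f, card_filter]
  rw [sum_comm, ← sum_erase_add _ _ hM]
  simp only [← card_filter]
  congr 1
  · rw [← card_erase_of_mem hM, ← smul_eq_mul, ← sum_const]
    refine sum_congr rfl fun M' hM' => ?_
    obtain ⟨h1, h2⟩ := mem_erase.1 hM'
    rw [← hμ M hM M' h2 h1.symm]
    obtain ⟨a, ha, c, hc, rfl⟩ := AddSubgroup.mem_sup.1
      (show y ∈ M ⊔ M' by rw [hs M hM M' h2 h1.symm]; trivial)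
    refine card_nbij' (fun m => a - m) (fun m => a - m) (fun m hm => ?_) (fun m hm => ?_)
      (fun m _ => by simp) fun m _ => by simp
    · simp only [coe_filter, mem_el, Set.mem_ofPred_eq, mem_coe, AddSubgroup.mem_inf] at hm ⊢
      exact ⟨M.sub_mem ha hm.1, by simpa [add_sub_right_comm] using M'.sub_mem hm.2 hc⟩
    · simp only [coe_filter, mem_el, Set.mem_ofPred_eq, mem_coe, AddSubgroup.mem_inf] at hm ⊢
      exact ⟨M.sub_mem ha hm.1, by simpa using M'.add_mem hc hm.2⟩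
  · split_ifs with h
    · rw [filter_true_of_mem fun m hm => M.sub_mem h (mem_el.1 hm), hk M hM]
    · rw [filter_false_of_mem fun m hm a => h (by simpa using M.add_mem a (mem_el.1 hm)),
        card_empty]

theorem mul_bb (hl : ∀ x, x ≠ 0 → f F x ≠ 0 → f F x = l) {M : AddSubgroup V} {y : V}
    (h : y ∉ M) : l * bb F M y = ∑ m ∈ el M, f F (y - m) := by
  rw [bb, card_filter, mul_sum]
  refine sum_congr rfl fun m hm => ?_
  have h0 : y - m ≠ 0 := fun e => h (sub_eq_zero.1 e ▸ mem_el.1 hm)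
  by_cases c : f F (y - m) = 0
  · simp [c]
  · rw [if_pos ⟨h0, c⟩, hl _ h0 c, mul_one]

theorem bb_mem {M : AddSubgroup V} (hM : M ∈ F) {y : V} (h : y ∈ M) :
    bb F M y = #(el M) - 1 := by
  rw [← card_erase_of_mem (mem_el.2 h), bb]
  congr 1
  ext m
  simp only [mem_filter, mem_erase, mem_el, sub_ne_zero, Ne, f_eq_zero]
  exact ⟨fun a => ⟨fun e => a.2.1 e.symm, a.1⟩,
    fun a => ⟨a.2, fun e => a.1 e.symm, fun c => c M hM (M.sub_mem h a.2)⟩⟩

theorem sum_bb (x : V) :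
    ∑ M ∈ F, bb F M x = ∑ m, f F m * if x - m ≠ 0 ∧ f F (x - m) ≠ 0 then 1 else 0 := by
  conv_rhs => enter [2, m, 1]; rw [f, card_filter]
  simp only [sum_mul]
  rw [sum_comm]
  refine sum_congr rfl fun M _ => ?_
  rw [bb, card_filter, el, sum_filter]
  refine sum_congr rfl fun m _ => ?_
  split_ifs <;> rfl

theorem dvd_r {b : ℕ} (hk : ∀ M ∈ F, #(el M) = k) (hl : ∀ x, x ≠ 0 → f F x ≠ 0 → f F x = l)
    (hb : ∀ M ∈ F, ∀ y ∉ M, bb F M y = b) {x z : V} (x0 : x ≠ 0) (hx : f F x ≠ 0) (z0 : z ≠ 0)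
    (hz : f F z = 0) : l ∣ #F := by
  have dl : ∀ y, y ≠ 0 → ((f F y : ℕ) : ZMod l) = 0 := fun y hy => by
    by_cases c : f F y = 0
    · rw [c, Nat.cast_zero]
    · rw [hl y hy c, ZMod.natCast_self]
  have key : ∀ y, y ≠ 0 → (#F * b : ZMod l) = #F * if f F y ≠ 0 then 1 else 0 := fun y hy => by
    have h1 := congrArg (Nat.cast : ℕ → ZMod l) (sum_bb (F := F) y)
    rw [← sum_filter_add_sum_filter_not F (y ∈ ·),
      sum_congr rfl fun M hM => (bb_mem (mem_filter.1 hM).1 (mem_filter.1 hM).2).trans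
        (by rw [hk M (mem_filter.1 hM).1]),
      sum_congr rfl fun M hM => hb M (mem_filter.1 hM).1 y (mem_filter.1 hM).2, sum_const,
      sum_const, Nat.cast_sum, sum_eq_single 0 (fun m _ hm => by rw [Nat.cast_mul, dl m hm, zero_mul])
        (by simp)] at h1
    have h2 := congrArg (Nat.cast : ℕ → ZMod l) (card_filter_add_card_filter_not (s := F) (y ∈ ·))
    have h3 : ((#(F.filter (y ∈ ·)) : ℕ) : ZMod l) = 0 := dl y hy
    simp only [smul_eq_mul, Nat.cast_add, Nat.cast_mul, h3, zero_mul, zero_add, f_zero, sub_zero,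
      hy, ne_eq, not_false_eq_true, true_and, Nat.cast_ite, Nat.cast_one, Nat.cast_zero] at h1 h2
    rw [← h2, h1, h2]
  have h1 := key x x0
  have h2 := key z z0
  rw [if_pos hx, mul_one] at h1
  rw [if_neg (not_not.2 hz), mul_zero] at h2
  exact (ZMod.natCast_eq_zero_iff _ _).1 (h1.symm.trans h2)

theorem outside {M : AddSubgroup V} {x y : V} (hx : f F x = 0) (hy : f F y = 0) (h : x - y ∈ M)
    (hb : bb F M x = #(el M) - 1) : x = y := by
  have h1 : (el M).filter (fun m => x - m ≠ 0 ∧ f F (x - m) ≠ 0) = (el M).erase 0 := by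
    refine eq_of_subset_of_card_le (fun m hm => ?_) ?_
    · obtain ⟨a, -, c⟩ := mem_filter.1 hm
      exact mem_erase.2 ⟨fun e => c (by rw [e, sub_zero, hx]), a⟩
    · rw [card_erase_of_mem (mem_el.2 M.zero_mem)]
      exact hb.ge
  by_contra c
  have h2 : x - y ∈ (el M).erase 0 := mem_erase.2 ⟨sub_ne_zero.2 c, mem_el.2 h⟩
  rw [← h1] at h2
  exact (mem_filter.1 h2).2.2 (by rw [sub_sub_cancel, hy])

variable {G : Type} [Group G] [DistribMulAction G V]

theorem el_smul (g : G) (M : AddSubgroup V) : #(el (g • M)) = #(el M) :=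
  card_nbij' (fun x => g⁻¹ • x) (fun x => g • x)
    (fun _ h => mem_el.2 (AddSubgroup.mem_pointwise_smul_iff_inv_smul_mem.1 (mem_el.1 h)))
    (fun _ h => mem_el.2 (AddSubgroup.smul_mem_pointwise_smul_iff.2 (mem_el.1 h)))
    (fun _ _ => by simp) fun _ _ => by simp

theorem f_smul (hp : ∀ (g : G), ∀ M ∈ F, g • M ∈ F) (g : G) (x : V) : f F (g • x) = f F x :=
  card_nbij' (fun M => g⁻¹ • M) (fun M => g • M)
    (fun M h => mem_filter.2 ⟨hp _ _ (mem_filter.1 h).1,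
      AddSubgroup.mem_inv_pointwise_smul_iff.2 (mem_filter.1 h).2⟩)
    (fun M h => mem_filter.2 ⟨hp _ _ (mem_filter.1 h).1,
      AddSubgroup.smul_mem_pointwise_smul_iff.2 (mem_filter.1 h).2⟩)
    (fun _ _ => by simp) fun _ _ => by simp

end Count

theorem row : H33.OfTR1 := by
  intro two hup G V _ _ _ _ _ _ 𝓜 h ⟨z, hz⟩ M₁ m1 M₂ m2 hne
  by_contra hbot
  have := Fintype.ofFinite V
  obtain ⟨F, rfl⟩ : ∃ F : Finset (AddSubgroup V), 𝓜 = F :=
    ⟨𝓜.toFinite.toFinset, 𝓜.toFinite.coe_toFinset.symm⟩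
  have z0 : z ≠ 0 := fun e => hz M₁ m1 (e ▸ M₁.zero_mem)
  have : Nontrivial V := ⟨z, 0, z0⟩
  obtain ⟨p, d, hp, -, hd, -⟩ := hup.el G V h.irr
  have hk : ∀ M ∈ F, #(el M) = #(el M₁) := fun M hM => by
    by_cases c : M = M₁
    · rw [c]
    · obtain ⟨g, e, -⟩ := h.two M₁ m1 M hM M hM M₁ m1 (Ne.symm c) c
      rw [← e, el_smul]
  have hμ : ∀ M ∈ F, ∀ M' ∈ F, M ≠ M' → #(el (M ⊓ M')) = #(el (M₁ ⊓ M₂)) := by
    intro M hM M' hM' c
    obtain ⟨g, e, e'⟩ := h.two M₁ m1 M₂ m2 M hM M' hM' hne c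
    have e3 : g • (M₁ ⊓ M₂) = g • M₁ ⊓ g • M₂ := by
      ext y
      simp only [AddSubgroup.mem_pointwise_smul_iff_inv_smul_mem, AddSubgroup.mem_inf]
    rw [← e, ← e', ← e3, el_smul]
  obtain ⟨⟨x, hx⟩, x0⟩ := AddSubgroup.ne_bot_iff_exists_ne_zero.1 hbot
  have x0' : x ≠ 0 := fun e => x0 (Subtype.ext e)
  have fx : f F x ≠ 0 := fun e => f_eq_zero.1 e M₁ m1 hx.1
  have fz : f F z = 0 := f_eq_zero.2 hz
  have hl : ∀ y, y ≠ 0 → f F y ≠ 0 → f F y = f F x := fun y y0 hy => by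
    rw [Ne, f_eq_zero] at hy
    push Not at hy
    obtain ⟨M, hM, hy⟩ := hy
    obtain ⟨g, e⟩ := h.t1 M₁ m1 M hM x hx.1 y hy x0' y0
    rw [← e, f_smul h.perm]
  have l1 : 1 ≤ f F x := Nat.pos_of_ne_zero fx
  have hc := @coset V _ _ F _ _ hk hμ h.sup
  have hb' : ∀ M ∈ F, ∀ y ∉ M, f F x * bb F M y = (#F - 1) * #(el (M₁ ⊓ M₂)) :=
    fun M hM y hy => by rw [mul_bb hl hy, hc hM, if_neg hy, add_zero]
  have hb : ∀ M ∈ F, ∀ y ∉ M, bb F M y = bb F M₁ z := fun M hM y hy =>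
    Nat.eq_of_mul_eq_mul_left l1 ((hb' M hM y hy).trans (hb' M₁ m1 z (hz M₁ m1)).symm)
  let _ : MulAction G (F : Set (AddSubgroup V)) :=
    { smul := fun g M => ⟨g • M.1, h.perm g M.1 M.2⟩
      one_smul := fun M => Subtype.ext (one_smul G M.1)
      mul_smul := fun g g' M => Subtype.ext (mul_smul g g' M.1) }
  have : Nontrivial (F : Set (AddSubgroup V)) :=
    ⟨⟨M₁, m1⟩, ⟨M₂, m2⟩, fun e => hne (congrArg Subtype.val e)⟩
  have pp := (two G (F : Set (AddSubgroup V)) fun a b a' b' e e' => by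
    obtain ⟨g, g1, g2⟩ := h.two _ a.2 _ b.2 _ a'.2 _ b'.2 (Subtype.coe_ne_coe.2 e)
      (Subtype.coe_ne_coe.2 e')
    exact ⟨g, Subtype.ext g1, Subtype.ext g2⟩).pp
  rw [Nat.card_coe_set_eq, Set.ncard_coe_finset] at pp
  have z1 : (0 : V) ∈ el M₁ := mem_el.2 M₁.zero_mem
  have e : #F + f F x * (#(el M₁) - 1) = (#F - 1) * #(el (M₁ ⊓ M₂)) + #(el M₁) := by
    have h1 := hc m1 0
    rw [if_pos M₁.zero_mem, ← add_sum_erase _ _ z1, sub_zero, f_zero] at h1
    rw [← h1, ← card_erase_of_mem z1, mul_comm, ← smul_eq_mul, ← sum_const]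
    congr 1
    refine sum_congr rfl fun m hm => (hl _ ?_ fun c => ?_).symm
    · simpa using (mem_erase.1 hm).1
    · exact f_eq_zero.1 c M₁ m1 (M₁.sub_mem M₁.zero_mem (mem_el.1 (mem_erase.1 hm).2))
  have key := arith hp (by rw [card_el, ← hd]; exact AddSubgroup.card_addSubgroup_dvd_card _)
    (by rw [card_el, card_el]; exact AddSubgroup.card_dvd_of_le inf_le_left) (fun c => by
      have h1 : el (M₁ ⊓ M₂) = el M₁ :=
        eq_of_subset_of_card_le (fun y hy => mem_el.2 (mem_el.1 hy).1) c.ge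
      have h2 : M₁ ≤ M₂ := fun y hy => (mem_el.1 (h1 ▸ mem_el.2 hy : y ∈ el (M₁ ⊓ M₂))).2
      have h3 := h.sup M₁ m1 M₂ m2 hne
      rw [sup_eq_right.2 h2] at h3
      exact hz M₂ m2 (h3 ▸ trivial))
    (one_lt_card.2 ⟨x, mem_el.2 hx, 0, mem_el.2 (zero_mem _), x0'⟩) l1
    (one_lt_card.2 ⟨M₁, m1, M₂, m2, hne⟩) pp (dvd_r hk hl hb x0' fx z0 fz)
    (hb' M₁ m1 z (hz M₁ m1)) e (card_pos.2 ⟨0, z1⟩)
  let W : AddSubgroup V := AddSubgroup.ofSub {v | v = 0 ∨ f F v = 0} ⟨0, Or.inl rfl⟩ (by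
    simp only [← sub_eq_add_neg]
    rintro u (rfl | hu) v (rfl | hv)
    · exact Or.inl (sub_self _)
    · refine Or.inr (f_eq_zero.2 fun M hM c => f_eq_zero.1 hv M hM ?_)
      simpa using c
    · exact Or.inr (by rwa [sub_zero])
    · by_cases c : u = v
      · exact Or.inl (sub_eq_zero.2 c)
      · exact Or.inr (f_eq_zero.2 fun M hM a => c (outside hu hv a
          (by rw [hb M hM u (f_eq_zero.1 hu M hM), key, hk M hM]))))
  rcases h.irr W (by
    rintro g v (rfl | hv)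
    · exact Or.inl (smul_zero g)
    · exact Or.inr ((f_smul h.perm g v).trans hv)) with c | c
  · exact z0 (AddSubgroup.mem_bot.1 (c ▸ (Or.inr fz : z ∈ W)))
  · exact (show x ∈ W from c ▸ trivial).elim x0' fx

end Pool.Agent.MP_f8e15f_co.RTR1
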