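import Pool.Agent.MP_f8e15f_co.H33.Spec2

/-! Translation designs whose components cover the space, grids, and slope nets. -/

open MulAction Pointwise

namespace Pool.Agent.MP_f8e15f_co.RTR2

open Pool.Agent.MP_f8e15f_co.H33 Pool.Agent.MP_f8e15f_co.H24

variable {G V : Type} [Group G] [AddCommGroup V] [DistribMulAction G V] {𝓜 : Set (AddSubgroup V)}

theorem card_smul (g : G) (M : AddSubgroup V) : Nat.card ↥(g • M) = Nat.card M :=
  (Nat.card_congr ((MulAction.toPerm g).subtypeEquiv fun _ =>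
    AddSubgroup.smul_mem_pointwise_smul_iff.symm)).symm

theorem card_eq (h : TrC G 𝓜) {M L : AddSubgroup V} (hM : M ∈ 𝓜) (hL : L ∈ 𝓜) :
    Nat.card L = Nat.card M := by
  by_cases e : M = L
  · rw [e]
  · obtain ⟨g, rfl, -⟩ := h.two M hM L hL L hL M hM e (Ne.symm e)
    exact card_smul g M

theorem not_le [Finite V] (h : TrC G 𝓜) {M L : AddSubgroup V} (hM : M ∈ 𝓜) (hL : L ∈ 𝓜)
    (e : M ≠ L) : ¬ M ≤ L := fun hle =>
  e (AddSubgroup.eq_of_le_of_card_ge hle (card_eq h hM hL).le)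

theorem pair [Finite V] {M L : AddSubgroup V} (hM : M ∈ 𝓜) (hL : L ∈ 𝓜) (e : M ≠ L)
    (h3 : 𝓜.ncard < 3) : 𝓜 = {M, L} :=
  (Set.eq_of_subset_of_ncard_le (Set.pair_subset hM hL) (by rw [Set.ncard_pair e]; omega)).symm

theorem nontriv {M L : AddSubgroup V} (e : M ≠ L) : Nontrivial V := by
  by_contra hn
  rw [not_nontrivial_iff_subsingleton] at hn
  exact e (Subsingleton.elim _ _)

theorem sizes [Finite V] (h : TrC G 𝓜) {M L : AddSubgroup V} (hM : M ∈ 𝓜) (hL : L ∈ 𝓜)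
    (e : M ≠ L) : 2 ≤ M.index ∧ Nat.card M = M.index * Nat.card ↥(M ⊓ L) ∧
      Nat.card V = M.index * Nat.card M := by
  refine ⟨AddSubgroup.one_lt_index_of_ne_top fun ht => not_le h hL hM e.symm (ht ▸ le_top), ?_,
    M.index_mul_card.symm⟩
  have h1 : M.index = (M ⊓ L).relIndex L := by
    rw [AddSubgroup.inf_relIndex_right, ← AddSubgroup.relIndex_sup_left L M, h.sup M hM L hL e,
      AddSubgroup.relIndex_top_right]
  rw [← card_eq h hM hL, h1, ← ((M ⊓ L).addSubgroupOf L).index_mul_card,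
    Nat.card_congr (AddSubgroup.addSubgroupOfEquivOfLe (inf_le_right : M ⊓ L ≤ L)).toEquiv]
  rfl

theorem count [Finite V] [Nontrivial V] (h : TrC G 𝓜) (h1 : Tr1 G V) {m : ℕ}
    (hm : ∀ M ∈ 𝓜, Nat.card M = m) : Nat.card V - 1 ∣ 𝓜.ncard * (m - 1) := by
  classical
  have := Fintype.ofFinite V
  obtain ⟨v₀, h0⟩ := exists_ne (0 : V)
  have key := Finset.card_mul_eq_card_mul (s := (Set.toFinite 𝓜).toFinset)
    (t := (Finset.univ : Finset V).erase 0) (fun M v => v ∈ M) (m := m - 1)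
    (n := (((Set.toFinite 𝓜).toFinset).filter fun M => v₀ ∈ M).card) (fun M hM => by
      rw [Finset.bipartiteAbove, Finset.filter_erase,
        Finset.card_erase_of_mem (by simp), ← hm M ((Set.Finite.mem_toFinset _).1 hM),
        Nat.card_eq_fintype_card, Fintype.card_subtype]) (fun v hv => by
      obtain ⟨g, rfl⟩ := h1 v₀ v h0 (Finset.ne_of_mem_erase hv)
      refine (Finset.card_nbij' (fun M => g • M) (fun M => g⁻¹ • M) (fun M hM => ?_)
        (fun M hM => ?_) (fun M _ => inv_smul_smul g M) fun M _ => smul_inv_smul g M).symm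
      · simp only [Finset.coe_filter, Set.Finite.mem_toFinset, Set.mem_ofPred_eq,
          Finset.bipartiteBelow] at hM ⊢
        exact ⟨h.perm g M hM.1, AddSubgroup.smul_mem_pointwise_smul_iff.2 hM.2⟩
      · simp only [Finset.coe_filter, Set.Finite.mem_toFinset, Set.mem_ofPred_eq,
          Finset.bipartiteBelow] at hM ⊢
        exact ⟨h.perm g⁻¹ M hM.1, by
          rw [AddSubgroup.mem_pointwise_smul_iff_inv_smul_mem, inv_inv]; exact hM.2⟩)
  rw [Finset.card_erase_of_mem (Finset.mem_univ _), Finset.card_univ,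
    ← Set.ncard_eq_toFinset_card 𝓜, ← Nat.card_eq_fintype_card] at key
  exact ⟨_, key⟩

theorem pp (two : TWO) [Finite G] [Group.IsSolvable G] [Finite V] (h : TrC G 𝓜) :
    IsPrimePow 𝓜.ncard := by
  let S : SubMulAction G (AddSubgroup V) := ⟨𝓜, fun g M hM => h.perm g M hM⟩
  obtain ⟨M, hM, L, hL, e⟩ := h.ex
  have : Nontrivial S := ⟨⟨M, hM⟩, ⟨L, hL⟩, fun a => e (congrArg Subtype.val a)⟩
  exact (two G S fun a b a' b' x y => by
    obtain ⟨g, p, q⟩ := h.two a.1 a.2 b.1 b.2 a'.1 a'.2 b'.1 b'.2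
      (fun z => x (Subtype.ext z)) fun z => y (Subtype.ext z)
    exact ⟨g, Subtype.ext p, Subtype.ext q⟩).pp

theorem tr2 (two : TWO) (hup : HUP) : TR2 := by
  intro G V _ _ _ _ _ _ 𝓜 h cov
  by_contra hn
  rw [not_or] at hn
  obtain ⟨hn, hs⟩ := hn
  push Not at hn
  obtain ⟨M, hM, L, hL, e, hb⟩ := hn
  have := nontriv e
  have h1 : Tr1 G V := fun x y hx hy => by
    obtain ⟨A, hA, a⟩ := cov x
    obtain ⟨B, hB, b⟩ := cov y
    exact h.t1 A hA B hB x a y b hx hy
  have h3 : 3 ≤ 𝓜.ncard := by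
    by_contra h3
    have hp := pair hM hL e (_root_.not_le.1 h3)
    obtain ⟨a, aM, aL⟩ := SetLike.not_le_iff_exists.1 (RTR2.not_le h.toTrC hM hL e)
    obtain ⟨b, bL, bM⟩ := SetLike.not_le_iff_exists.1 (RTR2.not_le h.toTrC hL hM e.symm)
    obtain ⟨N, hN, hab⟩ := cov (a + b)
    rw [hp] at hN
    rcases hN with rfl | rfl
    · exact bM ((N.add_mem_cancel_left aM).1 hab)
    · exact aL ((N.add_mem_cancel_right bL).1 hab)
  obtain ⟨hx, -⟩ := (hup.hup G V h1).resolve_left fun a => hs ⟨a, h3⟩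
  obtain ⟨i2, cM, cV⟩ := sizes h.toTrC hM hL e
  have c2 : 2 ≤ Nat.card ↥(M ⊓ L) := (AddSubgroup.one_lt_card_iff_ne_bot _).2 hb
  generalize M.index = i at i2 cM cV
  generalize Nat.card ↥(M ⊓ L) = c at c2 cM
  rcases hx with ⟨p, hp, hq, -⟩ | ⟨hq, -⟩
  · rw [hq, cM] at cV
    have hp' : p ≤ 23 := by
      simp only [List.mem_cons, List.not_mem_nil, or_false] at hp
      omega
    have hi : i < 23 := by nlinarith
    simp only [List.mem_cons, List.not_mem_nil, or_false] at hp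
    rcases hp with rfl | rfl | rfl | rfl | rfl <;> interval_cases i <;> omega
  · have hi : i < 9 := by
      rw [hq, cM] at cV
      nlinarith
    have hm : Nat.card M = 27 := by
      rw [hq, cM] at cV
      rw [cM]
      interval_cases i <;> omega
    have hd := count h.toTrC h1 fun N hN => (card_eq h.toTrC hM hN).trans hm
    rw [hq] at hd
    obtain ⟨q, k, hq, -, hk⟩ := (isPrimePow_nat_iff _).1 (pp two h.toTrC)
    have d2 : 2 ∣ q ^ k := by omega
    have d5 : 5 ∣ q ^ k := by omega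
    have e2 := (Nat.prime_dvd_prime_iff_eq Nat.prime_two hq).1 (Nat.prime_two.dvd_of_dvd_pow d2)
    have e5 := (Nat.prime_dvd_prime_iff_eq Nat.prime_five hq).1 (Nat.prime_five.dvd_of_dvd_pow d5)
    omega

theorem grid (hup : HUP) (ex : EXP) : GRID := by
  intro G V _ _ _ _ _ _ 𝓜 h hb h3
  obtain ⟨M, hM, L, hL, e⟩ := h.ex
  have := nontriv e
  obtain ⟨p, d, hp, -, -, tor⟩ := hup.el G V h.irr
  have : Nontrivial M := (AddSubgroup.nontrivial_iff_ne_bot M).2 fun a =>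
    RTR2.not_le h.toTrC hM hL e (a ▸ bot_le)
  obtain ⟨F, _, _, ⟨e1⟩⟩ := ex.elf M p hp fun x => Subtype.ext (tor x.1)
  obtain ⟨e2⟩ := ex.elf' L F p hp (fun x => Subtype.ext (tor x.1))
    ((card_eq h.toTrC hM hL).trans (Nat.card_congr e1.toEquiv))
  have hz : ∀ x, x ∈ M → x ∈ L → x = 0 := fun x a b =>
    AddSubgroup.mem_bot.1 (hb M hM L hL e ▸ ⟨a, b⟩)
  let φ : F × F →+ V := (M.subtype.comp e1.symm.toAddMonoidHom).coprod
    (L.subtype.comp e2.symm.toAddMonoidHom)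
  have hφ : ∀ z : F × F, φ z = (e1.symm z.1 : V) + (e2.symm z.2 : V) := fun _ => rfl
  have mM : ∀ z : F × F, φ z ∈ M ↔ z.2 = 0 := fun z => by
    rw [hφ, M.add_mem_cancel_left (e1.symm z.1).2]
    refine ⟨fun a => ?_, fun a => by simp [a]⟩
    exact (map_eq_zero_iff _ e2.symm.injective).1 (Subtype.ext (hz _ a (e2.symm z.2).2))
  have mL : ∀ z : F × F, φ z ∈ L ↔ z.1 = 0 := fun z => by
    rw [hφ, L.add_mem_cancel_right (e2.symm z.2).2]
    refine ⟨fun a => ?_, fun a => by simp [a]⟩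
    exact (map_eq_zero_iff _ e1.symm.injective).1 (Subtype.ext (hz _ (e1.symm z.1).2 a))
  have bij : Function.Bijective φ := by
    refine ⟨(injective_iff_map_eq_zero φ).2 fun z a =>
      Prod.ext ((mL z).1 (a ▸ L.zero_mem)) ((mM z).1 (a ▸ M.zero_mem)), fun v => ?_⟩
    obtain ⟨a, ha, b, hb, rfl⟩ := AddSubgroup.mem_sup.1
      (h.sup M hM L hL e ▸ AddSubgroup.mem_top v : v ∈ M ⊔ L)
    exact ⟨(e1 ⟨a, ha⟩, e2 ⟨b, hb⟩), by simp [hφ]⟩
  have kM : ∀ v, v ∈ M ↔ ((AddEquiv.ofBijective φ bij).symm v).2 = 0 := fun v => by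
    rw [← mM]
    exact Iff.of_eq (congrArg (· ∈ M) ((AddEquiv.ofBijective φ bij).apply_symm_apply v).symm)
  have kL : ∀ v, v ∈ L ↔ ((AddEquiv.ofBijective φ bij).symm v).1 = 0 := fun v => by
    rw [← mL]
    exact Iff.of_eq (congrArg (· ∈ L) ((AddEquiv.ofBijective φ bij).apply_symm_apply v).symm)
  refine ⟨F, inferInstance, inferInstance, {0}, (AddEquiv.ofBijective φ bij).symm, Or.inl rfl,
    fun N => ?_⟩
  rw [pair hM hL e h3]
  constructor
  · rintro (rfl | rfl)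
    · exact Or.inr ⟨0, rfl, fun v => by rw [zero_mul]; exact kM v⟩
    · exact Or.inl kL
  · rintro (a | ⟨s, rfl, a⟩)
    · exact Or.inr (AddSubgroup.ext fun v => (a v).trans (kL v).symm)
    · exact Or.inl (AddSubgroup.ext fun v => (a v).trans (by rw [zero_mul]; exact (kM v).symm))

theorem slpm : SLPM := by
  rintro V _ 𝓜 ⟨F, _, _, S, e, hS, h⟩
  refine ⟨F × F, slopeNet S, Listed.slope F S hS, e.toEquiv, ?_⟩
  have im : ∀ (M : AddSubgroup V) (v : V) (z : F × F),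
      z ∈ e.toEquiv '' {x | x - v ∈ M} ↔ e.symm (z - e v) ∈ M := fun M v z => by
    rw [Equiv.image_eq_preimage_symm, map_sub, e.symm_apply_apply]
    rfl
  ext B
  constructor
  · rintro ⟨_, ⟨M, hM, v, rfl⟩, rfl⟩
    rcases (h M).1 hM with a | ⟨s, hs, a⟩
    · refine Or.inl ⟨(e v).1, Set.ext fun z => ?_⟩
      rw [im, a, e.apply_symm_apply, Prod.fst_sub, sub_eq_zero]
      rfl
    · refine Or.inr ⟨s, hs, (e v).2 - s * (e v).1, Set.ext fun z => ?_⟩
      rw [im, a, e.apply_symm_apply, Prod.fst_sub, Prod.snd_sub]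
      exact ⟨fun b => by change z.2 = _; linear_combination b,
        fun b => by change z.2 = _ at b; linear_combination b⟩
  · rintro (⟨c, rfl⟩ | ⟨s, hs, c, rfl⟩)
    · let M : AddSubgroup V := ((AddMonoidHom.fst F F).comp e.toAddMonoidHom).ker
      have a : ∀ v, v ∈ M ↔ (e v).1 = 0 := fun _ => Iff.rfl
      refine ⟨_, ⟨M, (h M).2 (Or.inl a), e.symm (c, 0), rfl⟩, Set.ext fun z => ?_⟩
      rw [im, a, e.apply_symm_apply, e.apply_symm_apply, Prod.fst_sub, sub_eq_zero]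
      rfl
    · let M : AddSubgroup V := ((AddMonoidHom.snd F F).comp e.toAddMonoidHom).eqLocus
        ((AddMonoidHom.mulLeft s).comp ((AddMonoidHom.fst F F).comp e.toAddMonoidHom))
      have a : ∀ v, v ∈ M ↔ (e v).2 = s * (e v).1 := fun _ => Iff.rfl
      refine ⟨_, ⟨M, (h M).2 (Or.inr ⟨s, hs, a⟩), e.symm (0, c), rfl⟩, Set.ext fun z => ?_⟩
      rw [im, a, e.apply_symm_apply, e.apply_symm_apply, Prod.fst_sub, Prod.snd_sub, sub_zero]
      exact sub_eq_iff_eq_add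

theorem row : H33.OfTR2 := fun two hup ex => ⟨tr2 two hup, grid hup ex, slpm⟩

end Pool.Agent.MP_f8e15f_co.RTR2
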