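import Pool.Agent.MP_f8e15f_co.H33.Spec2

/-! Designs with a point-regular abelian normal subgroup whose block orbits are parallel classes. -/

set_option autoImplicit false

open MulAction Pointwise

namespace Pool.Agent.MP_f8e15f_co.RTRB

open Pool.Agent.MP_f8e15f_co.H33

/-- The data of coordinates. -/
structure Crd {G P B V : Type} [Group G] [MulAction G P] [MulAction G B] [AddCommGroup V]
    (I : P → B → Prop) (N : Subgroup G) (ω : P) [DistribMulAction (stabilizer G ω) V]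
    (e : V ≃ P) : Prop where
  core : Core G I
  orb : ∀ b c : B, (∃ n ∈ N, n • b = c) ↔ (b = c ∨ ¬ Col (flip I) b c)
  zero : e 0 = ω
  eqv : ∀ (g : stabilizer G ω) v, e (g • v) = g.1 • e v
  tr : ∀ v, ∃ n ∈ N, ∀ w, n • e w = e (w + v)

variable {G P B V : Type} [Group G] [MulAction G P] [MulAction G B] [AddCommGroup V]
  {I : P → B → Prop} {N : Subgroup G} {ω : P} [DistribMulAction (stabilizer G ω) V] {e : V ≃ P}

/-- The blocks through the origin. -/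
def comp (I : P → B → Prop) (e : V ≃ P) : Set (AddSubgroup V) :=
  {M | ∃ b, ∀ v, v ∈ M ↔ I (e v) b}

namespace Crd

variable (h : Crd I N ω e)
include h

theorem fix {b : B} {v : V} {n : G} (hn : n ∈ N) (hv : ∀ w, n • e w = e (w + v))
    (h0 : I (e 0) b) (h1 : I (e v) b) : n • b = b := by
  rcases (h.orb b (n • b)).1 ⟨n, hn, rfl⟩ with h2 | h2
  · exact h2.symm
  · refine absurd ⟨e v, h1, ?_⟩ h2
    have := (h.core.pt.inv n _ _).2 h0
    rwa [hv, zero_add] at this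

theorem sub {b : B} (h0 : I (e 0) b) : ∃ M : AddSubgroup V, ∀ v, v ∈ M ↔ I (e v) b := by
  refine ⟨{ carrier := {v | I (e v) b}, zero_mem' := h0, add_mem' := ?_, neg_mem' := ?_ },
    fun _ => Iff.rfl⟩
  · intro v w hv hw
    obtain ⟨n, hn, ht⟩ := h.tr w
    have := (h.core.pt.inv n _ _).2 hv
    rwa [ht, h.fix hn ht h0 hw] at this
  · intro v hv
    obtain ⟨n, hn, ht⟩ := h.tr v
    refine (h.core.pt.inv n _ _).1 ?_
    rwa [ht, h.fix hn ht h0 hv, neg_add_cancel]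

theorem split (g : G) : ∃ (k : stabilizer G ω) (n : G) (x : V), n ∈ N ∧
    (∀ w, n • e w = e (w + x)) ∧ g = n * k.1 ∧ ∀ w, g • e w = e (k • w + x) := by
  obtain ⟨x, hx⟩ := e.surjective (g • e 0)
  obtain ⟨n, hn, ht⟩ := h.tr x
  have hk : n⁻¹ * g ∈ stabilizer G ω := by
    rw [mem_stabilizer_iff, ← h.zero, mul_smul, ← hx, inv_smul_eq_iff, ht, zero_add]
  refine ⟨⟨_, hk⟩, n, x, hn, ht, by simp, fun w => ?_⟩
  rw [← ht, h.eqv, smul_smul, mul_inv_cancel_left]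

theorem mem_smul (k : stabilizer G ω) {M : AddSubgroup V} {b : B}
    (hM : ∀ v, v ∈ M ↔ I (e v) b) (v : V) : v ∈ k • M ↔ I (e v) (k.1 • b) := by
  rw [AddSubgroup.mem_pointwise_smul_iff_inv_smul_mem, hM, ← h.core.pt.inv k.1, ← h.eqv,
    smul_inv_smul]

theorem move {v w : V} {g : G} (h0 : g • e 0 = e 0) (h1 : g • e v = e w) :
    ∃ k : stabilizer G ω, k • v = w :=
  ⟨⟨g, by rwa [mem_stabilizer_iff, ← h.zero]⟩, e.injective ((h.eqv _ _).trans h1)⟩

theorem ex : ∃ M ∈ comp I e, ∃ M' ∈ comp I e, M ≠ M' := by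
  obtain ⟨b, c, hne, hb, hc⟩ := h.core.tP (e 0)
  obtain ⟨M, hM⟩ := h.sub hb
  obtain ⟨M', hM'⟩ := h.sub hc
  refine ⟨M, ⟨b, hM⟩, M', ⟨c, hM'⟩, fun hh => hne (h.core.eB b c fun p => ?_)⟩
  obtain ⟨v, rfl⟩ := e.surjective p
  rw [← hM, ← hM', hh]

theorem trC : TrC (stabilizer G ω) (comp I e) where
  perm := by
    rintro k M ⟨b, hM⟩
    exact ⟨k.1 • b, h.mem_smul k hM⟩
  sup := by
    rintro M ⟨b, hM⟩ M' ⟨b', hM'⟩ hne
    refine (AddSubgroup.eq_top_iff' _).2 fun v => ?_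
    obtain ⟨n, hn, ht⟩ := h.tr v
    have h1 : ¬ ∃ m ∈ N, m • b = n • b' := by
      rintro ⟨m, hm, h2⟩
      rcases (h.orb b b').1 ⟨n⁻¹ * m, N.mul_mem (N.inv_mem hn) hm, by
        rw [mul_smul, h2, inv_smul_smul]⟩ with rfl | h3
      · exact hne (AddSubgroup.ext fun x => (hM x).trans (hM' x).symm)
      · exact h3 ⟨e 0, (hM 0).1 M.zero_mem, (hM' 0).1 M'.zero_mem⟩
    rw [h.orb, not_or, not_not] at h1
    obtain ⟨p, h2, h3⟩ := h1.2
    obtain ⟨x, rfl⟩ := e.surjective p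
    have h4 : x - v ∈ M' := by
      refine (hM' _).2 ((h.core.pt.inv n _ _).1 ?_)
      rwa [ht, sub_add_cancel]
    have := sub_mem (AddSubgroup.mem_sup_left (T := M') ((hM x).2 h2))
      (AddSubgroup.mem_sup_right (S := M) h4)
    rwa [sub_sub_cancel] at this
  ex := h.ex
  two := by
    rintro M ⟨b, hM⟩ M' ⟨b', hM'⟩ L ⟨c, hL⟩ L' ⟨c', hL'⟩ hne hne'
    have m0 := (hM 0).1 M.zero_mem
    have m1 := (hM' 0).1 M'.zero_mem
    have l0 := (hL 0).1 L.zero_mem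
    have l1 := (hL' 0).1 L'.zero_mem
    obtain ⟨g, g1, g2⟩ := h.core.pt.met b b' c c'
      (by rintro rfl; exact hne (AddSubgroup.ext fun x => (hM x).trans (hM' x).symm))
      (by rintro rfl; exact hne' (AddSubgroup.ext fun x => (hL x).trans (hL' x).symm))
      ⟨e 0, m0, m1⟩ ⟨e 0, l0, l1⟩
    obtain ⟨k, n, x, hn, ht, rfl, hg⟩ := h.split g
    have a0 := (h.core.pt.inv (n * k.1) _ _).2 m0
    have a1 := (h.core.pt.inv (n * k.1) _ _).2 m1
    rw [hg, smul_zero, zero_add] at a0 a1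
    rw [g1] at a0
    rw [g2] at a1
    rw [mul_smul, ← h.fix hn ht l0 a0, smul_left_cancel_iff] at g1
    rw [mul_smul, ← h.fix hn ht l1 a1, smul_left_cancel_iff] at g2
    refine ⟨k, AddSubgroup.ext fun v => ?_, AddSubgroup.ext fun v => ?_⟩
    · rw [h.mem_smul k hM, g1, hL]
    · rw [h.mem_smul k hM', g2, hL']
  t1 := by
    rintro M ⟨b, hM⟩ M' ⟨b', hM'⟩ v hv w hw hv0 hw0
    obtain ⟨g, g1, g2⟩ := h.core.pt.col (e 0) (e v) (e 0) (e w) (e.injective.ne hv0.symm)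
      (e.injective.ne hw0.symm) ⟨b, (hM 0).1 M.zero_mem, (hM v).1 hv⟩
      ⟨b', (hM' 0).1 M'.zero_mem, (hM' w).1 hw⟩
    exact h.move g1 g2
  t2 := by
    have key : ∀ v, (∀ M ∈ comp I e, v ∉ M) → e 0 ≠ e v ∧ ¬ Col I (e 0) (e v) := by
      intro v hv
      obtain ⟨M, hM, -⟩ := h.ex
      refine ⟨e.injective.ne fun h0 => hv M hM (h0 ▸ M.zero_mem), ?_⟩
      rintro ⟨b, h0, h1⟩
      obtain ⟨L, hL⟩ := h.sub h0
      exact hv L ⟨b, hL⟩ ((hL v).2 h1)
    intro v w hv hw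
    obtain ⟨g, g1, g2⟩ := h.core.pt.non _ _ _ _ (key v hv).1 (key w hw).1 (key v hv).2 (key w hw).2
    exact h.move g1 g2
  anti := by
    rintro M ⟨b, hM⟩ v hv w hw
    have m0 := (hM 0).1 M.zero_mem
    obtain ⟨g, g1, g2⟩ := h.core.pt.anti (e v) b (e w) b (mt (hM v).2 hv) (mt (hM w).2 hw)
    obtain ⟨k, n, x, hn, ht, rfl, hg⟩ := h.split g
    have a0 := (h.core.pt.inv (n * k.1) _ _).2 m0
    rw [hg, smul_zero, zero_add, g2] at a0
    have g3 : n • k.1 • b = n • b := by rw [← mul_smul, g2, h.fix hn ht m0 a0]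
    rw [smul_left_cancel_iff] at g3
    refine ⟨k, AddSubgroup.ext fun u => by rw [h.mem_smul k hM, g3, hM], ?_⟩
    rw [← e.injective ((hg v).symm.trans g1), sub_add_cancel_left]
    exact neg_mem ((hM x).2 a0)

theorem faith : Faith (stabilizer G ω) V := fun k hk =>
  Subtype.ext (h.core.fP k.1 fun p => by
    obtain ⟨v, rfl⟩ := e.surjective p
    rw [← h.eqv, hk])

theorem irr (hp : IsPreprimitive G P) : Irr (stabilizer G ω) V := by
  intro W hW
  have hb : IsBlock G (e '' W) := by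
    refine isBlock_iff_smul_eq_of_mem.2 ?_
    rintro g _ ⟨u, hu, rfl⟩ ⟨y, hy, h1⟩
    obtain ⟨k, n, x, -, -, -, hg⟩ := h.split g
    have hx : x ∈ W := by
      have := sub_mem hy (hW k u hu)
      rwa [e.injective (h1.trans (hg u)), add_sub_cancel_left] at this
    ext p
    constructor
    · rintro ⟨_, ⟨z, hz, rfl⟩, rfl⟩
      exact ⟨_, add_mem (hW k z hz) hx, (hg z).symm⟩
    · rintro ⟨z, hz, rfl⟩
      refine ⟨_, ⟨_, hW k⁻¹ _ (sub_mem hz hx), rfl⟩, (hg _).trans ?_⟩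
      rw [smul_inv_smul, sub_add_cancel]
  rcases hp.isTrivialBlock_of_isBlock hb with h1 | h1
  · exact Or.inl ((AddSubgroup.eq_bot_iff_forall _).2 fun x hx =>
      e.injective (h1 ⟨x, hx, rfl⟩ ⟨0, W.zero_mem, rfl⟩))
  · refine Or.inr ((AddSubgroup.eq_top_iff' _).2 fun x => ?_)
    obtain ⟨y, hy, h2⟩ : e x ∈ e '' W := h1 ▸ Set.mem_univ _
    exact e.injective h2 ▸ hy

theorem iso : Iso (des I) (trans (comp I e)) := by
  refine ⟨e.symm, Set.ext fun S => ⟨?_, ?_⟩⟩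
  · rintro ⟨_, ⟨b, rfl⟩, rfl⟩
    obtain ⟨p, -, -, hp, -⟩ := h.core.tB b
    obtain ⟨v, rfl⟩ := e.surjective p
    obtain ⟨n, -, ht⟩ := h.tr v
    have key : ∀ x, I (e x) (n⁻¹ • b) ↔ I (e (x + v)) b := fun x => by
      rw [← h.core.pt.inv n, ht, smul_inv_smul]
    obtain ⟨M, hM⟩ := h.sub ((key 0).2 (by rwa [zero_add]))
    refine ⟨M, ⟨_, hM⟩, v, Set.ext fun x => ?_⟩
    simp [hM, key, Equiv.image_eq_preimage_symm]
  · rintro ⟨M, ⟨b, hM⟩, v, rfl⟩
    obtain ⟨n, -, ht⟩ := h.tr v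
    refine ⟨_, ⟨n • b, rfl⟩, Set.ext fun x => ?_⟩
    have key : I (e x) (n • b) ↔ I (e (x - v)) b := by
      rw [← h.core.pt.inv n (e (x - v)), ht, sub_add_cancel]
    simp [hM, key, Equiv.image_eq_preimage_symm]

end Crd

theorem row : H33.OfTRB := by
  intro hC G P B _ _ _ _ _ _ _ I hc hp N hN hab htr horb
  obtain ⟨ω⟩ := hc.nP
  obtain ⟨V, _, _, e, h0, h1, h2, -⟩ := hC G P N ω hN htr fun n hn m hm x => by
    rw [smul_smul, smul_smul, hab n hn m hm]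
  have h : Crd I N ω e := ⟨hc, horb, h0, h1, h2⟩
  exact ⟨stabilizer G ω, V, inferInstance, inferInstance, inferInstance, inferInstance,
    Finite.of_equiv P e.symm, inferInstance, comp I e, ⟨h.trC, h.faith, h.irr hp⟩, h.iso⟩

end Pool.Agent.MP_f8e15f_co.RTRB
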