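import Pool.Agent.MP_f8e15f_co.H33.Spec

/-! Soluble two-transitive groups and complements of a regular normal subgroup. -/

namespace Pool.Agent.MP_f8e15f_co.RTWO

open MulAction H33

variable {G Ω : Type} [Group G] [MulAction G Ω]

theorem card_pow [Finite Ω] [Nontrivial Ω] {P : Type} [Group P] [MulAction P Ω] {t : ℕ}
    (ht : t.Prime) (hP : IsPGroup t P) (h : ∀ x y : Ω, ∃ g : P, g • x = y) :
    ∃ j, 0 < j ∧ Nat.card Ω = t ^ j := by
  have := Fact.mk ht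
  obtain ⟨x⟩ : Nonempty Ω := inferInstance
  obtain ⟨j, hj⟩ := hP.card_orbit x
  rw [show orbit P x = Set.univ from Set.eq_univ_of_forall (h x), Nat.card_univ] at hj
  refine ⟨j, Nat.pos_of_ne_zero ?_, hj⟩
  rintro rfl
  exact (Finite.one_lt_card (α := Ω)).ne' hj

theorem two (hS : SOL) : TWO := by
  intro G Ω _ _ _ _ _ _ h
  classical
  have tr : ∀ x y : Ω, ∃ g : G, g • x = y := fun x y => by
    by_cases e : x = y
    · exact ⟨1, by rw [one_smul, e]⟩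
    · exact (h x y y x e (Ne.symm e)).imp fun _ a => a.1
  have ntr : ∀ M : Subgroup G, M.Normal → (∃ m ∈ M, ∃ x : Ω, m • x ≠ x) →
      ∀ x y : Ω, ∃ m ∈ M, m • x = y := by
    rintro M hM ⟨m, hm, z, hz⟩ x y
    by_cases e : x = y
    · exact ⟨1, one_mem _, by rw [one_smul, e]⟩
    obtain ⟨g, rfl, rfl⟩ := h z (m • z) x y hz.symm e
    exact ⟨g * m * g⁻¹, hM.conj_mem m hm g, by simp [mul_smul]⟩
  obtain ⟨a, b, hab⟩ := exists_pair_ne Ω
  obtain ⟨t, E, ht, hE, h1, -, h2, h3⟩ := hS G (toPermHom G Ω).ker ⊤ inferInstance inferInstance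
    (lt_top_iff_ne_top.2 fun e => by
      obtain ⟨g, hg⟩ := tr a b
      have : g ∈ (toPermHom G Ω).ker := e ▸ Subgroup.mem_top g
      exact hab ((Equiv.congr_fun this a).symm.trans hg))
  obtain ⟨m, hm, hm'⟩ := SetLike.exists_of_lt h1
  have hT := ntr E hE ⟨m, hm, not_forall.1 fun e => hm' (Equiv.ext e)⟩
  obtain ⟨j, hj, hc⟩ := card_pow (Ω := Ω) (P := E.map (toPermHom G Ω)) ht (by
    rintro ⟨_, g, hg, rfl⟩
    exact ⟨1, Subtype.ext (by rw [pow_one]; exact (map_pow _ g t).symm.trans (h3 g hg))⟩)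
    fun x y => by
      obtain ⟨g, hg, e⟩ := hT x y
      exact ⟨⟨_, g, hg, rfl⟩, e⟩
  refine ⟨hc ▸ ht.isPrimePow.pow hj.ne', tr, ntr, fun ω H hH => ?_, ⟨E, hE, hT, fun n hn m hm x => ?_,
    t, j, ht, hc, fun n hn x => Equiv.congr_fun (h3 n hn) x⟩, ?_, ?_⟩
  · refine hH.eq_or_lt.imp Eq.symm fun e => eq_top_iff.2 fun g _ => ?_
    obtain ⟨k, hk, hk'⟩ := SetLike.exists_of_lt e
    by_cases e : g • ω = ω
    · exact hH e
    obtain ⟨s, s1, s2⟩ := h ω (k • ω) ω (g • ω) (Ne.symm hk') (Ne.symm e)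
    have : (s * k)⁻¹ * g ∈ H := hH (by rw [mem_stabilizer_iff, mul_smul, ← s2, ← mul_smul s,
      inv_smul_smul])
    exact mul_inv_cancel_left (s * k) g ▸ mul_mem (mul_mem (hH s1) hk) this
  · have := Equiv.congr_fun (h2 n hn m hm) (m • n • x)
    simpa [mul_smul] using this
  · have := Fintype.ofFinite Ω
    have e : orbit G (a, b) = (Finset.univ.offDiag : Finset (Ω × Ω)) := Set.ext fun p => by
      simp only [Finset.mem_coe, Finset.mem_offDiag, Finset.mem_univ, true_and]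
      constructor
      · rintro ⟨g, rfl⟩
        exact fun e => hab (MulAction.injective g e)
      · exact fun e => (h a b p.1 p.2 hab e).imp fun g hg => Prod.ext hg.1 hg.2
    have := Subgroup.index_dvd_of_le (show (toPermHom G Ω).ker ≤ stabilizer G (a, b) from
      fun g hg => Prod.ext (Equiv.congr_fun hg a) (Equiv.congr_fun hg b))
    rwa [index_stabilizer, e, Set.ncard_coe_finset, Finset.offDiag_card, Finset.card_univ,
      ← Nat.card_eq_fintype_card, ← Nat.mul_sub_one] at this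
  · rw [kidx, Subgroup.index_ker, ← Nat.card_perm]
    exact Subgroup.card_subgroup_dvd_card _

theorem fix (hS : SOL) : FIX := by
  intro G Ω _ _ _ _ _ _ hp hf N H hN hN0 hab hHN hc
  obtain ⟨x₀⟩ : Nonempty Ω := inferInstance
  have tr : ∀ M : Subgroup G, M.Normal → M ≠ ⊥ → ∀ x y : Ω, ∃ m ∈ M, m • x = y := by
    intro M hM h0 x y
    have := IsQuasiPreprimitive.isPretransitive_of_normal (G := G) (X := Ω) (N := M) fun e =>
      h0 (eq_bot_iff.2 fun m hm => hf m fun z =>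
        (show z ∈ fixedPoints M Ω from e ▸ Set.mem_univ z) ⟨m, hm⟩)
    obtain ⟨m, e⟩ := this.exists_smul_eq x y
    exact ⟨m, m.2, e⟩
  have reg : ∀ g : G, (∀ n ∈ N, g * n = n * g) → ∀ x : Ω, g • x = x → g = 1 :=
    fun g hg x e => hf g fun y => by
      obtain ⟨n, hn, rfl⟩ := tr N hN hN0 x y
      rw [← mul_smul, hg n hn, mul_smul, e]
  have eqN : ∀ M : Subgroup G, M.Normal → M ≠ ⊥ → M ≤ N → ∀ n ∈ N, n ∈ M := by
    intro M hM h0 hle n hn
    obtain ⟨m, hm, e⟩ := tr M hM h0 x₀ (n • x₀)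
    have := reg (m⁻¹ * n) (hab _ (mul_mem (inv_mem (hle hm)) hn)) x₀ (by
      rw [mul_smul, ← e, inv_smul_smul])
    exact inv_mul_eq_one.1 this ▸ hm
  by_cases hT : N = ⊤
  · rw [hT, inf_top_eq] at hHN
    exact ⟨x₀, fun h hh => by rw [hHN, Subgroup.mem_bot] at hh; rw [hh, one_smul]⟩
  obtain ⟨p, E₀, hp', e1, e2, e3, -, e4⟩ := hS G ⊥ N inferInstance hN (bot_lt_iff_ne_bot.2 hN0)
  have pN : IsPGroup p N := fun n => ⟨1, Subtype.ext (by
    rw [pow_one]; exact e4 _ (eqN E₀ e1 e2.ne' e3 n n.2))⟩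
  obtain ⟨l, E, hl, f1, f2, -, -, f3⟩ := hS G N ⊤ hN inferInstance (lt_top_iff_ne_top.2 hT)
  have lQ : IsPGroup l (H ⊓ E : Subgroup G) := fun q => ⟨1, Subtype.ext (by
    rw [pow_one]
    exact Subgroup.mem_bot.1 (hHN ▸ ⟨pow_mem q.2.1 l, f3 _ q.2.2⟩))⟩
  have cen : ∀ n ∈ N, (∀ q ∈ H ⊓ E, q * n = n * q) → n = 1 := by
    intro n hn h
    by_contra h0
    have a : N ⊓ Subgroup.centralizer (E : Set G) ≠ ⊥ := fun e => h0 (Subgroup.mem_bot.1 (e ▸
      ⟨hn, fun g hg => by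
        obtain ⟨m, hm, hm'⟩ := hc g
        have := h _ ⟨hm', mul_mem (f2.le hm) hg⟩
        rw [mul_assoc, ← mul_assoc n, ← hab m hm n hn, mul_assoc] at this
        exact mul_left_cancel this⟩))
    obtain ⟨g, hg, hg'⟩ := SetLike.exists_of_lt f2
    obtain ⟨m, hm, e⟩ := tr N hN hN0 x₀ (g • x₀)
    have := reg (m⁻¹ * g) (fun k hk => by
      rw [mul_assoc, (eqN _ inferInstance a inf_le_left k hk).2 g hg, ← mul_assoc,
        hab _ (inv_mem hm) k hk, mul_assoc]) x₀ (by rw [mul_smul, ← e, inv_smul_smul])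
    exact hg' (inv_mul_eq_one.1 this ▸ hm)
  have := Fact.mk hl
  by_cases hlp : l = p
  · subst hlp
    let : MulAction (H ⊓ E : Subgroup G) N :=
      MulAction.compHom N ((MulAut.conjNormal (H := N)).comp (H ⊓ E).subtype)
    have : Nontrivial N := (Subgroup.nontrivial_iff_ne_bot N).2 hN0
    obtain ⟨k, hk, hk'⟩ := pN.nontrivial_iff_card.1 inferInstance
    obtain ⟨n, h1, h2⟩ := lQ.exists_fixed_point_of_prime_dvd_card_of_fixed_point N
      (hk' ▸ dvd_pow_self l hk.ne') (a := 1) fun q => map_one (MulAut.conjNormal q.1)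
    exact absurd (Subtype.ext (cen n n.2 fun q hq => mul_inv_eq_iff_eq_mul.1
      (congrArg Subtype.val (h1 ⟨q, hq⟩)))).symm h2
  obtain ⟨j, -, hj⟩ := card_pow (Ω := Ω) hp' pN fun x y => by
    obtain ⟨n, hn, e⟩ := tr N hN hN0 x y
    exact ⟨⟨n, hn⟩, e⟩
  obtain ⟨ω, hω⟩ := lQ.nonempty_fixed_point_of_prime_not_dvd_card Ω fun e =>
    hlp ((Nat.prime_dvd_prime_iff_eq hl hp').1 (hl.dvd_of_dvd_pow (hj ▸ e)))
  refine ⟨ω, fun h hh => ?_⟩
  obtain ⟨n, hn, e⟩ := tr N hN hN0 ω (h • ω)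
  rw [← e, cen n hn fun q hq => ?_, one_smul]
  have a1 : q⁻¹ • ω = ω := hω ⟨q⁻¹, (H ⊓ E).inv_mem hq⟩
  have a2 : (h⁻¹ * q * h) • ω = ω := hω ⟨h⁻¹ * q * h, H.mul_mem (H.mul_mem (H.inv_mem hh) hq.1) hh,
    by simpa using f1.conj_mem q hq.2 h⁻¹⟩
  have := reg (n⁻¹ * (q * n * q⁻¹)) (hab _ (mul_mem (inv_mem hn) (hN.conj_mem n hn q))) ω (by
    rw [mul_smul, mul_smul, inv_smul_eq_iff] at a2
    rw [mul_smul, mul_smul, mul_smul, a1, inv_smul_eq_iff, e, a2])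
  exact mul_inv_eq_iff_eq_mul.1 (inv_mul_eq_one.1 this).symm

theorem row : H33.OfTWO := fun hS => ⟨two hS, fix hS⟩

end Pool.Agent.MP_f8e15f_co.RTWO
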