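import Pool.Agent.MP_f8e15f_co.H33.Spec

/-! Primitive prime divisors. -/

namespace Pool.Agent.MP_f8e15f_co.RZS

open Polynomial H33

theorem key {p d u : ℕ} (hp : 2 ≤ p) (hd : 0 < d) (h : ¬ Ppd p d u) (hu : u.Prime)
    (hΦ : (u : ℤ) ∣ (cyclotomic d ℤ).eval (p : ℤ)) :
    ∃ k m, d = u ^ (k + 1) * m ∧ ¬ u ∣ m ∧ m ∣ u - 1 ∧ (p : ZMod u) ^ m = 1 := by
  have := Fact.mk hu
  obtain ⟨k, m, hm, e⟩ := Nat.exists_eq_pow_mul_and_not_dvd hd.ne' u hu.ne_one
  have : NeZero (m : ZMod u) := ⟨fun h0 => hm ((ZMod.natCast_eq_zero_iff m u).1 h0)⟩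
  have h1 : (cyclotomic (u ^ k * m) (ZMod u)).IsRoot (p : ZMod u) := by
    have h2 := cyclotomic.eval_apply (p : ℤ) d (Int.castRingHom (ZMod u))
    rw [← e, IsRoot.def]
    simp only [eq_intCast, Int.cast_natCast] at h2
    rw [h2]
    exact (ZMod.intCast_zmod_eq_zero_iff_dvd _ u).2 hΦ
  have h2 := isRoot_cyclotomic_prime_pow_mul_iff_of_charP.1 h1
  have h3 : ∀ j, u ∣ p ^ j - 1 ↔ (p : ZMod u) ^ j = 1 := fun j => by
    rw [← ZMod.natCast_eq_zero_iff, Nat.cast_sub (Nat.one_le_pow _ _ (by omega)), sub_eq_zero]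
    simp
  have hm0 : m ≠ 0 := fun h0 => hm (h0 ▸ dvd_zero u)
  rcases k with _ | k
  · rw [pow_zero, one_mul] at e
    subst e
    exact (h ⟨hu, (h3 d).2 h2.pow_eq_one, fun j h0 hj hdv =>
      h2.pow_ne_one_of_pos_of_lt h0.ne' hj ((h3 j).1 hdv)⟩).elim
  · exact ⟨k, m, e, hm, h2.dvd_of_pow_eq_one _ (ZMod.pow_card_sub_one_eq_one (h2.ne_zero hm0)),
      h2.pow_eq_one⟩

theorem not_sq {p u k m : ℕ} (hp : 2 ≤ p) (hu : u.Prime) (hd : 3 ≤ u ^ (k + 1) * m)
    (hm : m ∣ u - 1) (h1 : (p : ZMod u) ^ m = 1) :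
    ¬ (u : ℤ) ^ 2 ∣ (cyclotomic (u ^ (k + 1) * m) ℤ).eval (p : ℤ) := by
  intro h
  have hm0 : 0 < m := Nat.pos_of_ne_zero fun h0 => by simp [h0] at hd
  have hn : 0 < u ^ k * m := Nat.mul_pos (pow_pos hu.pos k) hm0
  have e : u ^ (k + 1) * m = u ^ k * m * u := by ring
  have h2 := eval_dvd (x := (p : ℤ)) (X_pow_sub_one_mul_cyclotomic_dvd_X_pow_sub_one_of_dvd ℤ
    (d := u ^ k * m) (n := u ^ (k + 1) * m) (Nat.mem_properDivisors.2
      ⟨⟨u, e⟩, by rw [e]; exact (Nat.lt_mul_iff_one_lt_right hn).2 hu.one_lt⟩))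
  simp only [eval_mul, eval_sub, eval_pow, eval_X, eval_one] at h2
  have hb : (p : ℤ) ^ (u ^ k * m) - 1 ≠ 0 := by
    have : (1 : ℤ) < (p : ℤ) ^ (u ^ k * m) := one_lt_pow₀ (by exact_mod_cast hp) hn.ne'
    omega
  have h3 : (u : ℤ) ∣ (p : ℤ) ^ (u ^ k * m) - 1 := by
    rw [← ZMod.intCast_zmod_eq_zero_iff_dvd]
    push_cast
    rw [mul_comm, pow_mul, h1, one_pow, sub_self]
  have h4 : (u : ℤ) ^ 2 ∣ ∑ i ∈ Finset.range u, ((p : ℤ) ^ (u ^ k * m)) ^ i := by
    refine h.trans ((mul_dvd_mul_iff_left hb).1 ?_)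
    rw [mul_geom_sum, ← pow_mul, ← e]
    exact h2
  rcases hu.eq_two_or_odd' with rfl | ho
  · obtain rfl : m = 1 := Nat.dvd_one.1 hm
    rcases k with _ | k
    · simp at hd
    · rw [Finset.sum_range_succ, Finset.sum_range_one, pow_zero, pow_one, mul_one, pow_succ 2 k,
        pow_mul] at h4
      generalize (p : ℤ) ^ 2 ^ k = x at h4
      rcases Int.even_or_odd' x with ⟨y, rfl | rfl⟩
      · have e2 : 1 + (2 * y) ^ 2 = 1 + 4 * y ^ 2 := by ring
        rw [e2] at h4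
        omega
      · have e2 : 1 + (2 * y + 1) ^ 2 = 2 + 4 * (y ^ 2 + y) := by ring
        rw [e2] at h4
        omega
  · obtain ⟨t, ht⟩ := h3
    have h5 := odd_sq_dvd_geom_sum₂_sub (1 : ℤ) t ho
    simp only [one_pow, mul_one] at h5
    rw [show (p : ℤ) ^ (u ^ k * m) = 1 + u * t by linarith] at h4
    have h6 : (u : ℤ) ^ 2 ∣ u := by simpa using dvd_sub h4 h5
    have h7 : u ^ 2 ≤ u := Nat.le_of_dvd hu.pos (by exact_mod_cast h6)
    nlinarith [hu.two_le]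

theorem big {p : ℕ} (hp : 2 ≤ p) {u : ℕ} (hu : 4 ≤ u) : u * (p + 1) + 2 ≤ p ^ u := by
  induction u, hu using Nat.le_induction with
  | base => nlinarith [Nat.mul_le_mul hp hp, Nat.pow_le_pow_left hp 3]
  | succ u hu ih =>
    rw [pow_succ]
    nlinarith [Nat.mul_le_mul ih hp, Nat.mul_le_mul_right (p + 1) hu]

theorem ne_prime {p u k m : ℕ} (hp : 2 ≤ p) (hu : u.Prime) (hd : 3 ≤ u ^ (k + 1) * m)
    (h6 : ¬ (p = 2 ∧ u ^ (k + 1) * m = 6)) (hum : ¬ u ∣ m) (hm : m ∣ u - 1) :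
    (cyclotomic (u ^ (k + 1) * m) ℤ).eval (p : ℤ) ≠ u := by
  intro h
  have hm0 : 0 < m := Nat.pos_of_ne_zero fun h0 => by simp [h0] at hd
  have e : u ^ (k + 1) * m = u ^ k * m * u := by ring
  have hpu : u < p ^ u := Nat.lt_pow_self hp
  rcases k with _ | k
  · rw [zero_add, pow_one, mul_comm] at h hd h6
    have h1 := congrArg (eval (p : ℝ)) (cyclotomic_expand_eq_cyclotomic_mul hu hum ℝ)
    have h2 := cyclotomic.eval_apply (p : ℤ) (m * u) (Int.castRingHom ℝ)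
    simp only [h, eq_intCast, Int.cast_natCast] at h2
    rw [expand_eval, eval_mul, h2] at h1
    have hp1 : (1 : ℝ) < p := by exact_mod_cast hp
    have h3 := sub_one_pow_totient_le_cyclotomic_eval (one_lt_pow₀ hp1 hu.ne_zero) m
    have h4 := cyclotomic_eval_le_add_one_pow_totient hp1 m
    have h5 : ¬ u * (p + 1) + 2 ≤ p ^ u := fun h5 => by
      have h7 : (u : ℝ) * (p + 1) + 2 ≤ (p : ℝ) ^ u := by exact_mod_cast h5
      have hu1 : (1 : ℝ) ≤ u := by exact_mod_cast hu.one_le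
      have ht := (Nat.totient_pos.2 hm0).ne'
      have h8 := pow_lt_pow_left₀ (show (u : ℝ) * (p + 1) < (p : ℝ) ^ u - 1 by linarith)
        (by positivity) ht
      rw [mul_pow] at h8
      have h9 := mul_le_mul_of_nonneg_right (le_self_pow₀ hu1 ht)
        (show 0 ≤ ((p : ℝ) + 1) ^ m.totient by positivity)
      have h10 := mul_le_mul_of_nonneg_left h4 (show (0 : ℝ) ≤ u by positivity)
      linarith
    have hu4 : u < 4 := not_le.1 fun h => h5 (big hp h)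
    have hu2 := hu.two_le
    interval_cases u
    · obtain rfl : m = 1 := Nat.dvd_one.1 hm
      omega
    · obtain rfl : p = 2 := by
        by_contra h7
        have h8 : 3 ≤ p := by omega
        exact h5 (by nlinarith [Nat.mul_le_mul h8 h8])
      have h7 : m ≤ 2 := Nat.le_of_dvd two_pos hm
      interval_cases m
      · rw [one_mul, cyclotomic_three] at h
        norm_num at h
      · exact h6 ⟨rfl, rfl⟩
  · have hn : 1 < u ^ (k + 1) * m :=
      hu.one_lt.trans_le (Nat.le_of_dvd (by positivity [hu.pos]) ⟨u ^ k * m, by ring⟩)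
    rw [e, ← cyclotomic_expand_eq_cyclotomic hu ⟨u ^ k * m, by ring⟩, expand_eval] at h
    have h1 := sub_one_lt_natAbs_cyclotomic_eval (q := p ^ u) hn (by have := hu.two_le; omega)
    rw [Nat.cast_pow, h, Int.natAbs_natCast] at h1
    omega

theorem row : H33.ZS := by
  intro p d hp hd h6
  by_contra hno
  have hp2 := hp.two_le
  have hk := fun u => key (u := u) hp2 (by omega : 0 < d) fun h => hno ⟨u, h⟩
  have h1 := sub_one_lt_natAbs_cyclotomic_eval (n := d) (q := p) (by omega) (by omega)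
  have h0 : 0 < (cyclotomic d ℤ).eval (p : ℤ) := cyclotomic_pos (by omega) _
  obtain ⟨N, hN⟩ := Int.eq_ofNat_of_zero_le h0.le
  rw [hN, Int.natAbs_natCast] at h1
  obtain ⟨u, hu, w, rfl⟩ := Nat.exists_prime_and_dvd (show N ≠ 1 by omega)
  obtain ⟨k, m, e, hum, hm, hpm⟩ := hk u hu (by rw [hN]; exact_mod_cast dvd_mul_right u w)
  by_cases hw : w = 1
  · subst e
    exact ne_prime hp2 hu hd h6 hum hm (by rw [hN, hw, mul_one])
  obtain ⟨v, hv, w, rfl⟩ := Nat.exists_prime_and_dvd hw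
  obtain ⟨k', m', e', -, hm', -⟩ := hk v hv ⟨u * w, by rw [hN]; push_cast; ring⟩
  have lt : ∀ {u v k m : ℕ}, u.Prime → v.Prime → m ∣ u - 1 → v ∣ u ^ (k + 1) * m → v ≠ u →
      v < u := fun {u v k m} hu hv hm hd hne => by
    have h2 := ((Nat.Prime.dvd_mul hv).1 hd).resolve_left fun h =>
      hne ((Nat.prime_dvd_prime_iff_eq hv hu).1 (hv.dvd_of_dvd_pow h))
    have h3 := hu.two_le
    have := Nat.le_of_dvd (by omega) (h2.trans hm)
    omega
  obtain rfl : v = u := by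
    by_contra hne
    have a1 := lt hu hv hm (by rw [← e, e']; exact ⟨v ^ k' * m', by ring⟩) hne
    have a2 := lt hv hu hm' (by rw [← e', e]; exact ⟨u ^ k * m, by ring⟩) (Ne.symm hne)
    omega
  subst e
  exact not_sq hp2 hu hd hm hpm ⟨w, by rw [hN]; push_cast; ring⟩

end Pool.Agent.MP_f8e15f_co.RZS
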