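import Pool.Agent.MP_f8e15f_co.H33.Spec2

/-! The kernel on the target is irreducible on the first factor. -/

open MulAction Pointwise

namespace Pool.Agent.MP_f8e15f_co.RB4

open Pool.Agent.MP_f8e15f_co.H33 Pool.Agent.MP_f8e15f_co.H24

theorem dvd_card {T Ω : Type} [Group T] [MulAction T Ω] [Finite Ω] {n : ℕ}
    (h : ∀ x : Ω, n ∣ Nat.card (orbit T x)) : n ∣ Nat.card Ω := by
  have := Fintype.ofFinite (orbitRel.Quotient T Ω)
  rw [Nat.card_congr (selfEquivSigmaOrbits T Ω), Nat.card_sigma]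
  exact Finset.dvd_sum fun ω _ => h _

theorem card_ne {X : Type} [AddCommGroup X] [Finite X] (W : AddSubgroup X) :
    Nat.card ((W : Set X) \ {0} : Set X) = Nat.card W - 1 := by
  rw [Nat.card_coe_set_eq, Set.ncard_sdiff_singleton_of_mem W.zero_mem]
  rfl

theorem dvd_sub {T X : Type} [Group T] [AddCommGroup X] [Finite X] [DistribMulAction T X] {n : ℕ}
    (h : ∀ x : X, x ≠ 0 → n ∣ Nat.card (orbit T x)) (W : AddSubgroup X)
    (hW : ∀ g : T, ∀ x ∈ W, g • x ∈ W) : n ∣ Nat.card W - 1 := by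
  let S : SubMulAction T X := ⟨(W : Set X) \ {0}, fun g x hx =>
    ⟨hW g x hx.1, fun e => hx.2 ((smul_eq_zero_iff_eq g).1 e)⟩⟩
  rw [← card_ne]
  refine dvd_card (T := T) (Ω := S) fun x => ?_
  have := h x.1 x.2.2
  rwa [← SubMulAction.val_image_orbit, Nat.card_image_of_injective Subtype.val_injective] at this

theorem card_orb {A X : Type} [Group A] [AddCommGroup X] [Finite X] [DistribMulAction A X]
    (h : Tr1 A X) {x : X} (hx : x ≠ 0) : Nat.card (orbit A x) = Nat.card X - 1 := by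
  have e : orbit A x = ((⊤ : AddSubgroup X) : Set X) \ {0} := by
    ext y
    refine ⟨?_, fun hy => h x y hx hy.2⟩
    rintro ⟨g, rfl⟩
    exact ⟨trivial, fun e => hx ((smul_eq_zero_iff_eq g).1 e)⟩
  rw [e, card_ne, AddSubgroup.card_top]

theorem ends {X : Type} [AddCommGroup X] [Finite X] {p d : ℕ} (hp : p.Prime)
    (hX : Nat.card X = p ^ d) (W : AddSubgroup X)
    (h : ∀ j, 0 < j → j < d → Nat.card W ≠ p ^ j) : W = ⊥ ∨ W = ⊤ := by
  obtain ⟨j, hj, e⟩ := (Nat.dvd_prime_pow hp).1 (hX ▸ W.card_addSubgroup_dvd_card)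
  rcases Nat.eq_zero_or_pos j with rfl | h0
  · exact Or.inl (AddSubgroup.eq_bot_of_card_eq W e)
  rcases hj.eq_or_lt with rfl | h1
  · exact Or.inr (AddSubgroup.eq_top_of_card_eq W (e.trans hX.symm))
  · exact absurd e (h j h0 h1)

theorem not_dvd {A N : Type} [Group A] [Finite A] [AddCommGroup N] [Finite N]
    [DistribMulAction A N] {p d e u : ℕ} (hp : p.Prime) (hN : Nat.card N = p ^ e) (he : e < d)
    (hu : Ppd p d u) : ¬u ∣ kidx A N := by
  have := Fact.mk hu.1
  obtain ⟨Q⟩ : Nonempty (Sylow u A) := inferInstance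
  let F : AddSubgroup N := FixedPoints.addSubgroup Q.1 N
  obtain ⟨c, hc, e1⟩ := (Nat.dvd_prime_pow hp).1 (hN ▸ F.card_addSubgroup_dvd_card)
  have e2 : p ^ e ≡ p ^ c [MOD u] := by
    rw [← hN, ← e1]
    exact Q.2.card_modEq_card_fixedPoints N
  have e3 : F = ⊤ := by
    refine AddSubgroup.eq_top_of_card_eq F ?_
    rcases hc.eq_or_lt with rfl | hc'
    · exact e1.trans hN.symm
    exfalso
    have k := (Nat.modEq_iff_dvd' (Nat.pow_le_pow_right hp.pos hc)).1 e2.symm
    have k1 : p ^ e - p ^ c = p ^ c * (p ^ (e - c) - 1) := by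
      rw [Nat.mul_sub, ← pow_add, Nat.add_sub_cancel' hc, mul_one]
    rw [k1] at k
    rcases hu.1.dvd_mul.1 k with k | k
    · have k2 : u ∣ p ^ d := k.trans (pow_dvd_pow p (by omega))
      have k3 := Nat.dvd_sub k2 hu.2.1
      rw [Nat.sub_sub_self (Nat.one_le_pow _ _ hp.pos)] at k3
      exact hu.1.not_dvd_one k3
    · exact hu.2.2 _ (by omega) (by omega) k
  refine fun k => Q.not_dvd_index (k.trans (Subgroup.index_dvd_of_le fun g hg => ?_))
  refine Equiv.ext fun z => ?_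
  have hz : z ∈ F := e3 ▸ AddSubgroup.mem_top z
  exact hz ⟨g, hg⟩

theorem row : H33.OfB4 := by
  intro hH A X Y N _ _ _ _ _ _ _ _ _ _ _ _ β hb p d e hf hed hc W hW
  have key : ∀ n, (∀ o, p ^ d - 1 ∣ kidx A N * o → n ∣ o) → n ∣ Nat.card W - 1 := fun n hn => by
    refine dvd_sub (T := (toPermHom A N).ker) (fun x hx => hn _ ?_) W fun g x hx =>
      hW g.1 (fun z => congrFun (congrArg DFunLike.coe g.2) z) x hx
    rw [← hf.cX, ← card_orb hb.tx hx]
    exact hH.orb A X _ x
  refine ends hf.prime hf.cX W fun j h0 h1 hj => ?_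
  rcases hc with ⟨u, hu⟩ | ⟨rfl, rfl, h3⟩
  · refine hu.2.2 j h0 h1 (hj ▸ key u fun o ho => ?_)
    exact (hu.1.dvd_mul.1 (hu.2.1.trans ho)).resolve_left (not_dvd hf.prime hf.cN hed hu)
  · have := hb.nn
    have h4 := hf.pos
    have h5 : kidx A N ∣ e * (2 ^ e - 1) := by
      rcases hH.hup A N hb.tn with k | ⟨k, -⟩
      · exact hH.ord A N 2 e hf.prime hf.cN k
      · exfalso
        rw [hf.cN] at k
        rcases k with ⟨q, hq, k, -⟩ | ⟨k, -⟩
        · simp only [List.mem_cons, List.not_mem_nil, or_false] at hq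
          rcases hq with rfl | rfl | rfl | rfl | rfl <;> interval_cases e <;> omega
        · interval_cases e <;> omega
    have h6 := key 21 fun o ho => by
      have k := ho.trans (Nat.mul_dvd_mul_right h5 o)
      interval_cases e <;> omega
    rw [hj] at h6
    interval_cases j <;> omega

end Pool.Agent.MP_f8e15f_co.RB4
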