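import Pool.Agent.MP_f8e15f_co.H33.Spec2

/-! A non-abelian subgroup of class two in the kernel of a net. -/

open MulAction Pointwise

namespace Pool.Agent.MP_f8e15f_co.RNA1

open Pool.Agent.MP_f8e15f_co.H33 Pool.Agent.MP_f8e15f_co.H24

variable {G V : Type} [Group G] [AddCommGroup V] [DistribMulAction G V]

/-- Invariant subgroups. -/
def Iv (E : Subgroup G) (W : AddSubgroup V) : Prop := ∀ x ∈ E, ∀ v ∈ W, x • v ∈ W

/-- `y` lies in the invariant subgroup generated by `x`. -/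
def Le (E : Subgroup G) (y x : V) : Prop := ∀ W : AddSubgroup V, Iv E W → x ∈ W → y ∈ W

theorem Iv.comap {E : Subgroup G} (hE : E.Normal) {W : AddSubgroup V} (h : Iv E W) (g : G) :
    Iv E (W.comap (DistribMulAction.toAddMonoidHom V g)) := fun x hx v hv => by
  have := h _ (hE.conj_mem x hx g) _ hv
  simpa [mul_smul] using this

theorem Le.smul {E : Subgroup G} (hE : E.Normal) {x y : V} (h : Le E y x) (g : G) :
    Le E (g • y) (g • x) := fun W hW hx => h _ (hW.comap hE g) hx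

theorem not_comm {𝓜 : Set (AddSubgroup V)} {p e t : ℕ} (F : NF G 𝓜 p e) {E : Subgroup G}
    (K : KS (Kn G 𝓜) E t) {L : AddSubgroup V} (hL : L ∈ 𝓜) {w : V} (hw : w ∈ L) (w0 : w ≠ 0)
    (h : ∀ x ∈ E, ∀ y ∈ E, x • y • w = y • x • w) : False := by
  refine K.nab fun x hx y hy => ?_
  have h1 : ∀ v ∈ L, x • y • v = y • x • v := fun v hv => by
    by_cases v0 : v = 0
    · simp [v0]
    · obtain ⟨g, -, rfl⟩ := F.stab L hL w hw v hv w0 v0
      have := congrArg (g • ·) (h _ (K.norm.conj_mem' x hx g) _ (K.norm.conj_mem' y hy g))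
      simpa [mul_smul] using this
  have hk : x * y * x⁻¹ * y⁻¹ ∈ E := E.mul_mem (E.mul_mem (E.mul_mem hx hy) (E.inv_mem hx))
    (E.inv_mem hy)
  have := F.kf L hL _ (K.le hk) fun v hv => by
    have := h1 (x⁻¹ • y⁻¹ • v) ((F.mem _).1 (K.le (E.inv_mem hx)) L hL _
      ((F.mem _).1 (K.le (E.inv_mem hy)) L hL _ hv))
    simpa [mul_smul] using this
  rw [mul_inv_eq_one, mul_inv_eq_iff_eq_mul] at this
  exact this

theorem simple [Finite V] {𝓜 : Set (AddSubgroup V)} {p e t : ℕ} (F : NF G 𝓜 p e) {E : Subgroup G}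
    (K : KS (Kn G 𝓜) E t) {L : AddSubgroup V} (hL : L ∈ 𝓜) (W : AddSubgroup V) (hWL : W ≤ L)
    (hW : Iv E W) : W = ⊥ ∨ W = L := by
  by_contra hc
  rw [not_or] at hc
  have iL : Iv E L := fun x hx => (F.mem x).1 (K.le hx) L hL
  obtain ⟨W₀, h0, hm⟩ := (Set.toFinite {W : AddSubgroup V | Iv E W ∧ W ≠ ⊥ ∧ W ≤ L}).exists_minimal
    ⟨L, iL, F.ne L hL, le_rfl⟩
  obtain ⟨x₀, a1, a2⟩ := (AddSubgroup.bot_or_exists_ne_zero W₀).resolve_left h0.2.1
  have s0 : ∀ y, y ≠ 0 → Le E y x₀ → Le E x₀ y := fun y y0 h W' hW' hy =>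
    (hm (y := W' ⊓ W₀) ⟨fun x hx v hv => ⟨hW' x hx v hv.1, h0.1 x hx v hv.2⟩,
      fun e => y0 ((AddSubgroup.eq_bot_iff_forall _).1 e y ⟨hy, h _ h0.1 a1⟩),
      inf_le_right.trans h0.2.2⟩ inf_le_right a1).1
  have s1 : ∀ x ∈ L, ∀ y, y ≠ 0 → Le E y x → Le E x y := fun x hx y y0 h => by
    have x0 : x ≠ 0 := fun e => y0 (h ⊥ (fun _ _ v hv => by simp_all) (by simp [e]))
    obtain ⟨g, -, rfl⟩ := F.stab L hL x₀ (h0.2.2 a1) x hx a2 x0
    have h1 := h.smul K.norm g⁻¹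
    rw [inv_smul_smul] at h1
    simpa using (s0 _ ((smul_ne_zero_iff_ne _).2 y0) h1).smul K.norm g
  let R := Subring.closure ((fun b => DistribMulAction.toAddMonoidEnd G V b) '' (E : Set G))
  have rle : ∀ z ∈ R, ∀ x, Le E (z x) x := fun z hz x W' hW' => by
    induction hz using Subring.closure_induction generalizing x with
    | mem _ h =>
      obtain ⟨b, hb, rfl⟩ := h
      exact hW' b hb x
    | zero => exact fun _ => W'.zero_mem
    | one => exact id
    | add _ _ _ _ h1 h2 => exact fun h => W'.add_mem (h1 x h) (h2 x h)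
    | neg _ _ h1 => exact fun h => W'.neg_mem (h1 x h)
    | mul _ _ _ _ h1 h2 => exact fun h => h1 _ (h2 x h)
  have key : ∀ z ∈ R, ∀ a ∈ W, a ≠ 0 → ∀ b ∈ L, b ∉ W → (z a = 0 ↔ z b = 0) := by
    intro z hz a ha a0 b hb hbW
    have ab : a + b ∈ L := L.add_mem (hWL ha) hb
    have r := rle z hz (a + b)
    refine ⟨fun h => by_contra fun h' => hbW ?_, fun h => by_contra fun h' => hbW ?_⟩
    · rw [map_add, h, zero_add] at r
      refine s1 b hb a a0 (fun W' hW' h1 => ?_) W hW ha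
      simpa using W'.sub_mem (s1 _ ab _ h' r W' hW' (rle z hz b W' hW' h1)) h1
    · rw [map_add, h, add_zero] at r
      simpa using W.sub_mem (s1 _ ab _ h' r W hW (rle z hz a W hW ha)) ha
  obtain ⟨x₁, b1, b2⟩ := (AddSubgroup.bot_or_exists_ne_zero W).resolve_left hc.1
  obtain ⟨x₂, c1, c2⟩ := SetLike.exists_of_lt (lt_of_le_of_ne hWL hc.2)
  let I : Ideal R :=
    { carrier := {z | ∀ v ∈ W, z.1 v = 0}
      zero_mem' := fun _ _ => rfl
      add_mem' := fun {a b} ha hb v hv => by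
        show a.1 v + b.1 v = 0
        rw [ha v hv, hb v hv, add_zero]
      smul_mem' := fun c a ha v hv => by
        show c.1 (a.1 v) = 0
        rw [ha v hv, map_zero] }
  have : I.IsTwoSided := ⟨fun {a} b ha v hv => ha _ (rle _ b.2 v W hW hv)⟩
  have : Finite (AddMonoid.End V) := DFunLike.finite _
  have : Nontrivial (R ⧸ I) := ⟨1, 0, fun e => b2 (by
    rw [← map_one (Ideal.Quotient.mk I), Ideal.Quotient.eq_zero_iff_mem] at e
    exact e x₁ b1)⟩
  have : NoZeroDivisors (R ⧸ I) := ⟨fun {a b} e => by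
    obtain ⟨a, rfl⟩ := Ideal.Quotient.mk_surjective a
    obtain ⟨b, rfl⟩ := Ideal.Quotient.mk_surjective b
    rw [← map_mul, Ideal.Quotient.eq_zero_iff_mem] at e
    rw [Ideal.Quotient.eq_zero_iff_mem, Ideal.Quotient.eq_zero_iff_mem]
    refine or_iff_not_imp_right.2 fun hb v hv => ?_
    obtain ⟨w, hw, w0⟩ : ∃ w ∈ W, b.1 w ≠ 0 := by
      by_contra h
      exact hb fun w hw => by_contra fun h' => h ⟨w, hw, h'⟩
    have h2 := (key _ a.2 _ (rle _ b.2 w W hW hw) w0 x₂ c1 c2).1 (e w hw)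
    by_cases v0 : v = 0
    · rw [v0, map_zero]
    · exact (key _ a.2 v hv v0 x₂ c1 c2).2 h2⟩
  have : IsDomain (R ⧸ I) := NoZeroDivisors.to_isDomain _
  have : Finite (R ⧸ I) := Finite.of_surjective _ (Ideal.Quotient.mk_surjective (I := I))
  refine not_comm F K hL (hWL b1) b2 fun x hx y hy => ?_
  have := (Finite.isDomain_to_isField (R ⧸ I)).mul_comm
    (Ideal.Quotient.mk I ⟨_, Subring.subset_closure ⟨x, hx, rfl⟩⟩)
    (Ideal.Quotient.mk I ⟨_, Subring.subset_closure ⟨y, hy, rfl⟩⟩)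
  rw [← map_mul, ← map_mul, Ideal.Quotient.eq] at this
  exact sub_eq_zero.1 (this x₁ b1)

theorem comm_pow {x y z : G} (h : x * y = z * y * x) (hz : z * x = x * z) (n : ℕ) :
    x ^ n * y = z ^ n * y * x ^ n := by
  induction n with
  | zero => simp
  | succ n ih =>
    have hc : x * z ^ n = z ^ n * x := (Commute.pow_right hz.symm n).eq
    rw [pow_succ' x, mul_assoc, ih, ← mul_assoc, ← mul_assoc, hc, mul_assoc _ x y, h, pow_succ z]
    simp only [mul_assoc]

theorem row : OfNA1 := by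
  intro hC G V _ _ _ _ _ _ 𝓜 N p e F E t K
  obtain ⟨L₁, h1, L₂, h2, L₃, h3, n12, n13, n23⟩ := (Set.two_lt_ncard (Set.toFinite 𝓜)).1 N.three
  have iv : ∀ L ∈ 𝓜, Iv E L := fun L hL x hx => (F.mem x).1 (K.le hx) L hL
  obtain ⟨U, Ψ, _, _, _, _, _, φ, C⟩ := hC.crd G V E L₁ L₂ L₃ (F.compl _ h1 _ h2 n12)
    (F.compl _ h1 _ h3 n13) (F.compl _ h2 _ h3 n23) (F.ne _ h1)
    (fun x hx => ⟨iv _ h1 x hx, iv _ h2 x hx, iv _ h3 x hx⟩) (simple F K h1)
  obtain ⟨w, hw, w0⟩ := (AddSubgroup.bot_or_exists_ne_zero L₁).resolve_left (F.ne _ h1)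
  have u0 : (φ w).1 ≠ 0 := fun h => w0 (φ.injective (by
    rw [map_zero]; exact Prod.ext h ((C.l1 w).1 hw)))
  have rk : ∃ u, ∀ s : Ψ, u ≠ s • (φ w).1 := by
    by_contra hc
    push Not at hc
    refine not_comm F K h1 hw w0 fun x hx y hy => φ.injective ?_
    obtain ⟨ρ, hρ⟩ := C.diag x hx
    obtain ⟨σ, hσ⟩ := C.diag y hy
    obtain ⟨a, ha⟩ := hc (ρ (φ w).1)
    obtain ⟨b, hb⟩ := hc (σ (φ w).1)
    rw [hρ, hσ, hσ, hρ]
    simp only [(C.l1 w).1 hw, map_zero, ha, hb, map_smul, smul_smul, mul_comm]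
  let W : Ψ → AddSubgroup V := fun s =>
    { carrier := {v | (φ v).2 = s • (φ v).1}
      zero_mem' := by simp
      add_mem' := fun {a b} ha hb => by
        simp only [Set.mem_ofPred_eq, map_add, Prod.snd_add, Prod.fst_add, smul_add] at ha hb ⊢
        rw [ha, hb]
      neg_mem' := fun {a} ha => by
        simp only [Set.mem_ofPred_eq, map_neg, Prod.snd_neg, Prod.fst_neg, smul_neg] at ha ⊢
        rw [ha] }
  have mW : ∀ s v, v ∈ W s ↔ (φ v).2 = s • (φ v).1 := fun _ _ => Iff.rfl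
  have iW : ∀ s, Iv E (W s) := fun s x hx v hv => by
    obtain ⟨ρ, hρ⟩ := C.diag x hx
    rw [mW] at hv ⊢
    simp only [hρ, hv, map_smul]
  have cW : ∀ s, Nat.card (W s) = Nat.card U := fun s => Nat.card_congr
    ⟨fun v => (φ v.1).1, fun u => ⟨φ.symm (u, s • u), by simp [mW]⟩,
      fun v => Subtype.ext (φ.injective (by simp [← (mW s v.1).1 v.2])), fun u => by simp⟩
  have cL : ∀ L ∈ 𝓜, Nat.card L = Nat.card U := fun L hL => by
    rw [C.card, F.cL L hL, F.cL _ h1]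
  have hP : {v : V | v ≠ 0 ∧ ∃ W, Iv E W ∧ Nat.card W = Nat.card U ∧ v ∈ W} = O1 𝓜 := by
    have wP : w ∈ {v : V | v ≠ 0 ∧ ∃ W, Iv E W ∧ Nat.card W = Nat.card U ∧ v ∈ W} :=
      ⟨w0, L₁, iv _ h1, cL _ h1, hw⟩
    rcases F.orb {v : V | v ≠ 0 ∧ ∃ W, Iv E W ∧ Nat.card W = Nat.card U ∧ v ∈ W}
      (fun g v ⟨v0, W, a1, a2, a3⟩ => ⟨(smul_ne_zero_iff_ne _).2 v0, _, a1.comap K.norm g⁻¹,
      a2 ▸ Nat.card_congr ((DistribMulAction.toAddEquiv V g⁻¹).toEquiv.subtypeEquiv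
        fun _ => Iff.rfl), by simpa using a3⟩) (fun h => h.1 rfl) with h | h | h | h
    · rw [h] at wP; exact wP.elim
    · exact h
    · rw [h] at wP; exact absurd hw (wP _ h1)
    · obtain ⟨u, hu⟩ := rk
      have : φ.symm ((φ w).1, u) ∈ ({0}ᶜ : Set V) := fun e => u0 (by
        simpa using congrArg (fun v => (φ v).1) e)
      rw [← h] at this
      obtain ⟨-, W', a1, a2, a3⟩ := this
      rcases C.graph W' a1 a2 with rfl | ⟨s, hs⟩
      · exact absurd (by simpa using (C.l2 _).1 a3) u0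
      · exact absurd (by simpa using (hs _).1 a3) (hu s)
  have WM : ∀ s, W s ∈ 𝓜 := fun s => by
    have v0 : φ.symm ((φ w).1, s • (φ w).1) ≠ 0 := fun e => u0 (by
      simpa using congrArg (fun v => (φ v).1) e)
    have vW : φ.symm ((φ w).1, s • (φ w).1) ∈ W s := by simp [mW]
    obtain ⟨-, L, hL, hv⟩ := hP.subset ⟨v0, W s, iW s, cW s, vW⟩
    rcases simple F K hL (W s ⊓ L) inf_le_right
      (fun x hx v hv => ⟨iW s x hx v hv.1, iv L hL x hx v hv.2⟩) with h | h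
    · exact absurd ((AddSubgroup.eq_bot_iff_forall _).1 h _ ⟨vW, hv⟩) v0
    · exact AddSubgroup.eq_of_le_of_card_ge (inf_eq_right.1 h) (by rw [cW, cL L hL]) ▸ hL
  have hM : 𝓜 = insert L₂ (Set.range W) := Set.ext fun L =>
    ⟨fun hL => (C.graph L (iv L hL) (cL L hL)).imp id fun ⟨s, hs⟩ => ⟨s, (SetLike.ext hs).symm⟩,
      by rintro (rfl | ⟨s, rfl⟩); exacts [h2, WM s]⟩
  have tst : ∀ s, φ.symm ((φ w).1, s • (φ w).1) ∈ W s := fun s => by simp [mW]
  refine ⟨U, Ψ, _, ‹_›, _, ‹_›, _, φ, L₁, L₂, L₃, h1, C, ?_, ?_, ?_, fun L => ?_⟩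
  · by_contra hc
    obtain ⟨u, hu⟩ := rk
    obtain ⟨v, hv⟩ := finrank_le_one_iff.1 (show Module.finrank Ψ U ≤ 1 by omega)
    obtain ⟨a, ha⟩ := hv (φ w).1
    obtain ⟨b, rfl⟩ := hv u
    have a0 : a ≠ 0 := fun e => u0 (by rw [← ha, e, zero_smul])
    exact hu (b / a) (by rw [← ha, smul_smul, div_mul_cancel₀ _ a0])
  · obtain ⟨x, hx, y, hy, hxy⟩ : ∃ x ∈ E, ∃ y ∈ E, x * y ≠ y * x := by
      by_contra h
      exact K.nab fun x hx y hy => by_contra fun h' => h ⟨x, hx, y, hy, h'⟩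
    obtain ⟨z, hz⟩ : ∃ z, z = x * y * x⁻¹ * y⁻¹ := ⟨_, rfl⟩
    have zc : ∀ k ∈ E, z * k = k * z := hz ▸ K.comm x hx y hy
    have zE : z ∈ E := hz ▸ E.mul_mem (E.mul_mem (E.mul_mem hx hy) (E.inv_mem hx)) (E.inv_mem hy)
    have zt : z ^ t = 1 := by
      have := comm_pow (x := x) (y := y) (z := z) (by simp [hz]) (zc x hx) t
      rw [K.pow x hx y hy, mul_left_inj, right_eq_mul] at this
      exact this
    obtain ⟨ρ, hρ⟩ := C.diag z zE
    obtain ⟨s, hs⟩ := C.comm ρ.toAddMonoidHom fun k hk u => by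
      have := congrArg (fun g => (φ (g • φ.symm (u, 0))).1) (zc k hk)
      simp only [mul_smul, hρ] at this
      rw [LinearMap.toAddMonoidHom_coe, this]
      congr 3
      exact φ.injective (by simp [hρ])
    have hs' : ∀ u, ρ u = s • u := hs
    have hn : ∀ n : ℕ, (φ (z ^ n • w)).1 = s ^ n • (φ w).1 := fun n => by
      induction n with
      | zero => simp
      | succ n ih => rw [pow_succ', mul_smul, hρ, hs', ih, smul_smul, ← pow_succ']
    have st : s ^ t = 1 := smul_left_injective Ψ u0 (by simpa [zt] using (hn t).symm)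
    have s1 : s ≠ 1 := fun e => hxy (by
      have := N.faith z fun v => φ.injective (by simp [hρ, hs', e])
      rwa [hz, mul_inv_eq_one, mul_inv_eq_iff_eq_mul] at this)
    have := Fact.mk K.prime
    have := Fintype.ofFinite Ψ
    rw [← orderOf_eq_prime st s1, Nat.card_eq_fintype_card]
    refine orderOf_dvd_of_pow_eq_one (FiniteField.pow_card_sub_one_eq_one s fun e => ?_)
    simp [e, K.prime.ne_zero] at st
  · rw [hM, Set.ncard_insert_of_notMem, Set.ncard_range_of_injective]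
    · intro s s' e
      have := (mW s' _).1 (e ▸ tst s)
      rw [AddEquiv.apply_symm_apply] at this
      exact smul_left_injective Ψ u0 this
    · rintro ⟨s, hs⟩
      exact u0 (by simpa using (C.l2 (φ.symm ((φ w).1, s • (φ w).1))).1 (hs ▸ tst s))
  · rw [hM]
    refine or_congr ⟨fun e => e ▸ C.l2, fun h => SetLike.ext fun v => (h v).trans (C.l2 v).symm⟩
      (exists_congr fun s => ⟨fun e => e ▸ mW s, fun h => (SetLike.ext h).symm⟩)

end Pool.Agent.MP_f8e15f_co.RNA1
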