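import Pool.Agent.MP_f8e15f_co.H33.Spec2

/-! Rows and columns of a doubly imprimitive design. -/

set_option autoImplicit false

open MulAction Finset

namespace Pool.Agent.MP_f8e15f_co.RSTD0

open Pool.Agent.MP_f8e15f_co.H33

/-- one half of the standard data -/
structure Half (G : Type) {P B R : Type} [Group G] [MulAction G P] [MulAction G R]
    (I : P → B → Prop) (π : P → R) : Prop where
  eπ : ∀ (g : G) p, π (g • p) = g • π p
  row : ∀ p q, π p = π q ↔ (p = q ∨ ¬ Col I p q)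
  meet : ∀ b ρ, ∃! p, I p b ∧ π p = ρ
  nR : Nontrivial R
  big : ∀ p, ∃ q, q ≠ p ∧ π q = π p
  two : Two G R
  sur : Function.Surjective π

variable {G P B R C : Type} [Group G] [MulAction G P] [MulAction G B] {I : P → B → Prop}

theorem col_smul (h : PT G I) (g : G) {p q : P} (hc : Col I (g • p) (g • q)) : Col I p q := by
  obtain ⟨b, h1, h2⟩ := hc
  refine ⟨g⁻¹ • b, (h.inv g _ _).1 ?_, (h.inv g _ _).1 ?_⟩ <;> rwa [smul_inv_smul]

/-- the rows -/
def rows (hi : Imp I) : Setoid P where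
  r p q := p = q ∨ ¬ Col I p q
  iseqv := ⟨fun _ => Or.inl rfl, fun h => h.imp Eq.symm fun h ⟨b, h1, h2⟩ => h ⟨b, h2, h1⟩, by
    rintro p q s (rfl | h1) h2
    · exact h2
    · rcases h2 with rfl | h2
      · exact Or.inr h1
      · exact hi.2 p q s h1 h2⟩

/-- the action on the rows -/
@[reducible] def act (h : PT G I) (hi : Imp I) : MulAction G (Quotient (rows hi)) where
  smul g := Quotient.map (fun p => g • p) fun _ _ hpq =>
    hpq.imp (congrArg _) fun h1 h2 => h1 (col_smul h g h2)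
  one_smul x := by
    obtain ⟨p, rfl⟩ := Quotient.exists_rep x
    exact congrArg (Quotient.mk _) (one_smul G p)
  mul_smul g g' x := by
    obtain ⟨p, rfl⟩ := Quotient.exists_rep x
    exact congrArg (Quotient.mk _) (mul_smul g g' p)

theorem half_of [MulAction G R] (h : Core G I) (hi : Imp I) (π : P → R)
    (eπ : ∀ (g : G) p, π (g • p) = g • π p) (row : ∀ p q, π p = π q ↔ (p = q ∨ ¬ Col I p q))
    (sur : Function.Surjective π) : Half G I π := by
  have uq : ∀ b p q, I p b → I q b → π p = π q → p = q := fun b p q h1 h2 h3 =>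
    ((row p q).1 h3).resolve_right fun h4 => h4 ⟨b, h1, h2⟩
  have big : ∀ p, ∃ q, q ≠ p ∧ π q = π p := fun p => by
    obtain ⟨p₀, q₀, h1, h2⟩ := hi.1
    obtain ⟨b, -, -, hb, -⟩ := h.tP p
    obtain ⟨b₀, -, -, hb₀, -⟩ := h.tP p₀
    obtain ⟨g, rfl, -⟩ := h.pt.flag p₀ b₀ p b hb₀ hb
    refine ⟨g • q₀, fun e => h1 (MulAction.injective g e).symm, ?_⟩
    rw [eπ, eπ, (row p₀ q₀).2 (Or.inr h2)]
  refine ⟨eπ, row, fun b ρ => ?_, ?_, big, fun a a' c c' h1 h2 => ?_, sur⟩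
  · refine existsUnique_of_exists_of_unique ?_
      fun p q hp hq => uq b p q hp.1 hq.1 (hp.2.trans hq.2.symm)
    by_contra hn
    obtain ⟨p, rfl⟩ := sur ρ
    obtain ⟨q, -, -, hq, -⟩ := h.tB b
    obtain ⟨q', h1, h2⟩ := big q
    obtain ⟨g, h3, h4⟩ := h.pt.anti p b q' b (fun hp => hn ⟨p, hp, rfl⟩)
      fun hq' => h1 (uq b _ _ hq' hq h2)
    refine hn ⟨g⁻¹ • q, (h.pt.inv g _ _).1 (by rwa [smul_inv_smul, h4]), ?_⟩
    rw [eπ, ← h2, ← h3, eπ, inv_smul_smul]
  · obtain ⟨b⟩ := h.nB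
    obtain ⟨p, q, h1, h2, h3⟩ := h.tB b
    exact ⟨π p, π q, fun e => h1 (uq b p q h2 h3 e)⟩
  · obtain ⟨p, rfl⟩ := sur a
    obtain ⟨q, rfl⟩ := sur a'
    obtain ⟨p', rfl⟩ := sur c
    obtain ⟨q', rfl⟩ := sur c'
    rw [Ne, row, not_or, not_not] at h1 h2
    obtain ⟨g, rfl, rfl⟩ := h.pt.col p q p' q' h1.1 h2.1 h1.2 h2.2
    exact ⟨g, (eπ g p).symm, (eπ g q).symm⟩

theorem half [Finite P] (h : Core G I) (hi : Imp I) :
    ∃ (R : Type) (_ : Finite R) (_ : MulAction G R) (π : P → R), Half G I π :=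
  ⟨Quotient (rows hi), inferInstance, act h.pt hi, Quotient.mk _,
    @half_of _ _ _ _ _ _ _ _ (act h.pt hi) h hi _ (fun _ _ => rfl) (fun _ _ => Quotient.eq)
      Quotient.mk_surjective⟩

open scoped Classical

theorem dc {α β : Type} (s : Finset α) (t : Finset β) (r : α → β → Prop) :
    ∑ a ∈ s, #{b ∈ t | r a b} = ∑ b ∈ t, #{a ∈ s | r a b} := by
  simp only [card_filter]
  exact sum_comm

theorem one_of {α : Type} [Fintype α] {u v : α → Prop} (h : ∃! a, u a ∧ v a) :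
    #{a ∈ ({a | v a} : Finset α) | u a} = 1 := by
  obtain ⟨a, h1, h2⟩ := h
  refine card_eq_one.2 ⟨a, eq_singleton_iff_unique_mem.2 ⟨by simpa [and_comm] using h1,
    fun x hx => h2 x (by simpa [and_comm] using hx)⟩⟩

variable [Fintype P] [Fintype B] [Fintype R] [Fintype C] [MulAction G R] [MulAction G C]
  {π : P → R} {κ : B → C}

omit [MulAction G B] [Fintype B] in
theorem size (H : Half G I π) (b : B) : #{p | I p b} = Fintype.card R := by
  refine card_bij (fun p _ => π p) (fun _ _ => mem_univ _) (fun p hp q hq e => ?_) fun ρ _ => ?_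
  · exact (H.meet b (π q)).unique ⟨(mem_filter.1 hp).2, e⟩ ⟨(mem_filter.1 hq).2, rfl⟩
  · obtain ⟨p, h1, h2⟩ := (H.meet b ρ).exists
    exact ⟨p, mem_filter.2 ⟨mem_univ _, h1⟩, h2⟩

omit [Fintype R] [Fintype C] in
theorem nn (H : Half G I π) (K : Half G (flip I) κ) (ρ : R) (γ : C) :
    #{p | π p = ρ} = #{c | κ c = γ} := by
  have h := dc ({p | π p = ρ} : Finset P) ({c | κ c = γ} : Finset B) I
  have j : ∀ p, ∃! c, I p c ∧ κ c = γ := fun p => K.meet p γ
  rw [sum_congr rfl fun p _ => one_of (j p),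
    sum_congr rfl fun c _ => one_of (H.meet c ρ)] at h
  simpa using h

omit [Fintype C] in
theorem cnt (h : Core G I) (H : Half G I π) (K : Half G (flip I) κ) : ∃ μ : ℕ,
    (∀ b c, b ≠ c → Col (flip I) b c → #{p ∈ ({p | I p b} : Finset P) | I p c} = μ) ∧
    ∀ γ : C, Fintype.card R = #{c | κ c = γ} * μ := by
  obtain ⟨p₀⟩ := h.nP
  obtain ⟨b₀, c₀, h0, h1, h2⟩ := h.tP p₀
  have key : ∀ b c, b ≠ c → Col (flip I) b c → #{p ∈ ({p | I p b} : Finset P) | I p c} =
      #{p ∈ ({p | I p b₀} : Finset P) | I p c₀} := fun b c hbc hc => by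
    obtain ⟨g, rfl, rfl⟩ := h.pt.met b c b₀ c₀ hbc h0 hc ⟨p₀, h1, h2⟩
    exact card_equiv (MulAction.toPerm g) fun p => by simp [h.pt.inv]
  refine ⟨_, key, fun γ => ?_⟩
  haveI := K.nR
  obtain ⟨γ', hγ⟩ := exists_ne γ
  obtain ⟨b, rfl⟩ := K.sur γ'
  have e := dc ({p | I p b} : Finset P) ({c | κ c = γ} : Finset B) I
  have j : ∀ p, ∃! c, I p c ∧ κ c = γ := fun p => K.meet p γ
  have j' : ∀ c ∈ ({c | κ c = γ} : Finset B), #{p ∈ ({p | I p b} : Finset P) | I p c} =
      #{p ∈ ({p | I p b₀} : Finset P) | I p c₀} := fun c hc => by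
    have h3 : κ b ≠ κ c := by rwa [(mem_filter.1 hc).2]
    rw [Ne, K.row, not_or, not_not] at h3
    exact key b c h3.1 h3.2
  rw [sum_congr rfl fun p _ => one_of (j p), sum_congr rfl j', sum_const, sum_const,
    size H b, smul_eq_mul, mul_one, smul_eq_mul] at e
  exact e

omit [MulAction G B] [Fintype C] in
theorem side (H : Half G I π) {μ : ℕ}
    (hμ : ∀ b c, b ≠ c → Col (flip I) b c → #{p ∈ ({p | I p b} : Finset P) | I p c} = μ)
    {p : P} {b : B} (hpb : I p b) :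
    ∑ c ∈ ({c | I p c} : Finset B), #{q ∈ ({q | I q b} : Finset P) | I q c} + μ =
      Fintype.card R + #{c | I p c} * μ := by
  have hb : b ∈ ({c | I p c} : Finset B) := mem_filter.2 ⟨mem_univ _, hpb⟩
  have j : ∀ c ∈ ({c | I p c} : Finset B).erase b,
      #{q ∈ ({q | I q b} : Finset P) | I q c} = μ := fun c hc =>
    hμ b c (mem_erase.1 hc).1.symm ⟨p, hpb, (mem_filter.1 (mem_erase.1 hc).2).2⟩
  rw [← add_sum_erase _ _ hb, sum_congr rfl j, ← card_erase_add_one hb, sum_const,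
    filter_true_of_mem fun q hq => (mem_filter.1 hq).2, size H b, smul_eq_mul]
  ring

theorem cards (h : Core G I) (H : Half G I π) (K : Half G (flip I) κ) :
    Fintype.card R = Fintype.card C ∧ ∀ ρ : R, #{p | π p = ρ} ∣ Fintype.card R := by
  obtain ⟨μ, hμ, eμ⟩ := cnt h H K
  obtain ⟨l, hl, el⟩ := cnt h.flip K H
  obtain ⟨p⟩ := h.nP
  obtain ⟨b, -, -, hpb, -⟩ := h.tP p
  refine ⟨?_, fun ρ => ⟨μ, by rw [nn H K ρ (κ b), eμ]⟩⟩
  have e1 := side H hμ hpb
  have e2 := side K hl (p := b) (b := p) hpb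
  have e3 := dc ({q | I q b} : Finset P) ({c | I p c} : Finset B) I
  have e4 : #{c | I p c} = Fintype.card C := size K p
  have e5 : #{q | I q b} = Fintype.card R := size H b
  have e6 := eμ (κ b)
  have e7 := el (π p)
  rw [← nn H K (π p) (κ b)] at e6
  have e8 : 2 ≤ #{q | π q = π p} := by
    obtain ⟨q, h1, h2⟩ := H.big p
    exact one_lt_card.2 ⟨q, by simp [h2], p, by simp, h1⟩
  have e2' : ∑ q ∈ ({q | I q b} : Finset P), #{c ∈ ({c | I p c} : Finset B) | I q c} + l =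
      Fintype.card C + #{q | I q b} * l := e2
  rw [e3, e5] at e2'
  rw [e4] at e1
  generalize #{q | π q = π p} = n at e6 e7 e8
  generalize ∑ c ∈ ({c | I p c} : Finset B), #{q ∈ ({q | I q b} : Finset P) | I q c} = S at e1 e2'
  rw [e6, e7] at e1 e2' ⊢
  have e9 : ((n : ℤ) - 1) * ((μ : ℤ) - l) = 0 := by
    zify at e1 e2'
    linear_combination e2' - e1
  rcases mul_eq_zero.1 e9 with h1 | h1
  · omega
  · rw [show μ = l by omega]

theorem row : STD0 := by
  intro G P B _ _ _ _ _ _ _ I h h1 h2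
  obtain ⟨R, _, _, π, H⟩ := half h h1
  obtain ⟨C, _, _, κ, K⟩ := half h.flip h2
  cases nonempty_fintype P
  cases nonempty_fintype B
  cases nonempty_fintype R
  cases nonempty_fintype C
  obtain ⟨c1, c2⟩ := cards h H K
  refine ⟨R, C, ‹_›, ‹_›, ‹_›, ‹_›, π, κ, H.eπ, K.eπ, H.row, K.row, H.meet, K.meet, H.nR, K.nR,
    H.big, K.big, H.two, K.two, by simpa using c1, fun p => ?_⟩
  rw [Nat.card_eq_fintype_card, Nat.card_eq_fintype_card, Fintype.card_subtype]
  exact c2 _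

end Pool.Agent.MP_f8e15f_co.RSTD0
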