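import Pool.Agent.MP_f8e15f_co.H33.Spec

/-! The field generated by a maximal abelian normal subgroup. -/

open MulAction Pointwise

namespace Pool.Agent.MP_f8e15f_co.RSTRE

open Pool.Agent.MP_f8e15f_co.H33 Pool.Agent.MP_f8e15f_co.H24

/-- Conjugation by a group element on the endomorphism ring. -/
def cj {G R : Type} [Group G] [Ring R] (τ : G →* R) (g : G) : R →+* R where
  toFun c := τ g * c * τ g⁻¹
  map_one' := by rw [mul_one, ← map_mul, mul_inv_cancel, map_one]
  map_mul' a b := by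
    rw [mul_assoc (τ g * a), mul_assoc (τ g) b, ← mul_assoc (τ g⁻¹), ← map_mul, inv_mul_cancel,
      map_one, one_mul]
    simp only [mul_assoc]
  map_zero' := by rw [mul_zero, zero_mul]
  map_add' a b := by rw [mul_add, add_mul]

theorem row : H33.STRE := by
  intro G X _ _ _ _ _ _ hF h
  obtain ⟨A, hA⟩ := Finite.exists_le_maximal (p := fun B : Subgroup G => B.Normal ∧ Ab B)
    (a := ⊥) ⟨inferInstance, fun x hx y _ => by rw [Subgroup.mem_bot.1 hx, one_mul, mul_one]⟩
  replace hA := hA.2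
  let τ := DistribMulAction.toAddMonoidEnd G X
  let R := Subring.closure ((fun b => τ b) '' (A : Set G))
  have : Finite (AddMonoid.End X) := DFunLike.finite _
  have : Nontrivial (AddMonoid.End X) := by
    obtain ⟨x, hx⟩ := exists_ne (0 : X)
    exact ⟨1, 0, fun e => hx (DFunLike.congr_fun e x)⟩
  have : NoZeroDivisors R := ⟨fun {a b} e => (h A hA.1.1 hA.1.2 a a.2).imp Subtype.ext fun ha =>
    Subtype.ext (AddMonoidHom.ext fun x => ha
      ((DFunLike.congr_fun (congrArg Subtype.val e) x).trans (map_zero a.1).symm))⟩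
  have : IsDomain R := NoZeroDivisors.to_isDomain R
  let _ := (Finite.isDomain_to_isField R).toField
  refine ⟨R, inferInstance, inferInstance, inferInstanceAs (Module R X), A, hF, hA.1.1,
    fun a ha => ⟨⟨τ a, Subring.subset_closure ⟨a, ha, rfl⟩⟩, fun _ => rfl⟩, fun S hS => ?_,
    fun g => ?_, fun B h1 h2 => hA.2 ⟨h1, h2⟩⟩
  · have h1 : R ≤ S.map R.subtype := Subring.closure_le.2 (by
      rintro _ ⟨a, ha, rfl⟩
      exact ⟨⟨τ a, Subring.subset_closure ⟨a, ha, rfl⟩⟩, hS _ ⟨a, ha, fun _ => rfl⟩, rfl⟩)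
    refine eq_top_iff.2 fun c _ => ?_
    obtain ⟨c', h2, h3⟩ := h1 c.2
    exact (Subtype.ext h3 : c' = c) ▸ h2
  · have h1 : R ≤ R.comap (cj τ g) := Subring.closure_le.2 (by
      rintro _ ⟨a, ha, rfl⟩
      exact Subring.subset_closure ⟨_, hA.1.1.conj_mem a ha g, by simp [cj]⟩)
    let σ : R →+* R := (cj τ g).restrict R R h1
    refine ⟨RingEquiv.ofBijective σ (Finite.injective_iff_bijective.1 σ.injective), fun c x => ?_⟩
    change g • c.1 x = g • c.1 (g⁻¹ • g • x)
    rw [inv_smul_smul]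

end Pool.Agent.MP_f8e15f_co.RSTRE
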